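import Mathlib

open MeasureTheory Set Filter Topology
open scoped FourierTransform RealInnerProductSpace

namespace Pool.Agent.H383.Gauss

/-- one-dimensional Poisson summation for continuous functions with bounded support -/
lemma poisson1 {f : ℝ → ℂ} (hc : Continuous f) {B : ℝ} (hB : ∀ x, B < |x| → f x = 0)
    (hs : Summable (fun n : ℤ => 𝓕 f (n : ℝ))) :
    ∑' n : ℤ, f (n : ℝ) = ∑' n : ℤ, 𝓕 f (n : ℝ) := by
  have hO : f =O[cocompact ℝ] (fun x : ℝ => |x| ^ (-(2:ℝ))) := by
    apply Asymptotics.IsBigO.of_bound 1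
    rw [Filter.Eventually, mem_cocompact]
    refine ⟨Icc (-|B|) (|B|), isCompact_Icc, ?_⟩
    intro x hx
    simp only [mem_compl_iff, mem_Icc, not_and_or, not_le] at hx
    have : B < |x| := by
      rcases hx with h | h
      · have := neg_le_abs x
        have := le_abs_self B
        linarith
      · have := le_abs_self x
        have := le_abs_self B
        linarith
    simp only [Set.mem_ofPred_eq]
    rw [hB x this]
    simp only [norm_zero, one_mul]
    exact norm_nonneg _
  have := Real.tsum_eq_tsum_fourier_of_rpow_decay_of_summable hc (b := 2) (by norm_num) hO hs 0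
  simpa using this

lemma inner_re_im (x y k l : ℝ) :
    ⟪((x:ℂ) + (y:ℂ) * Complex.I), ((k:ℂ) + (l:ℂ) * Complex.I)⟫ = x * k + y * l := by
  rw [Complex.inner]
  simp
  ring

lemma symm_eq (p : ℝ × ℝ) :
    Complex.measurableEquivRealProd.symm p = (p.1:ℂ) + (p.2:ℂ) * Complex.I := by
  apply Complex.ext <;> simp [Complex.measurableEquivRealProd]

lemma int_complex_eq {E : Type*} [NormedAddCommGroup E] [NormedSpace ℝ E] (g : ℂ → E) :
    ∫ z, g z = ∫ p : ℝ × ℝ, g ((p.1:ℂ) + (p.2:ℂ) * Complex.I) := by
  have := (Complex.volume_preserving_equiv_real_prod.symm).integral_comp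
    (Complex.measurableEquivRealProd.symm.measurableEmbedding) g
  rw [← this]
  simp_rw [symm_eq]

theorem poisson2 {f : ℂ → ℂ} (hc : Continuous f) {B : ℝ} (hB : ∀ z, B < ‖z‖ → f z = 0)
    (hs : Summable (fun p : ℤ × ℤ => 𝓕 f (((p.1:ℝ):ℂ) + ((p.2:ℝ):ℂ) * Complex.I))) :
    ∑' p : ℤ × ℤ, f (((p.1:ℝ):ℂ) + ((p.2:ℝ):ℂ) * Complex.I) =
      ∑' p : ℤ × ℤ, 𝓕 f (((p.1:ℝ):ℂ) + ((p.2:ℝ):ℂ) * Complex.I) := by
  -- restrict to a nonnegative bound
  wlog hB0 : 0 ≤ B generalizing B
  · exact this (B := |B|) (fun z hz => hB z (lt_of_le_of_lt (le_abs_self B) hz)) (abs_nonneg B)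
  have hx0 : ∀ x y : ℝ, B < |x| → f ((x:ℂ) + (y:ℂ) * Complex.I) = 0 := by
    intro x y h
    apply hB
    calc B < |x| := h
      _ = |((x:ℂ) + (y:ℂ) * Complex.I).re| := by simp
      _ ≤ _ := Complex.abs_re_le_norm _
  have hy0 : ∀ x y : ℝ, B < |y| → f ((x:ℂ) + (y:ℂ) * Complex.I) = 0 := by
    intro x y h
    apply hB
    calc B < |y| := h
      _ = |((x:ℂ) + (y:ℂ) * Complex.I).im| := by simp
      _ ≤ _ := Complex.abs_im_le_norm _
  have hcs : HasCompactSupport f := by
    apply HasCompactSupport.intro (isCompact_closedBall (0:ℂ) B)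
    intro z hz
    apply hB
    simpa using hz
  obtain ⟨M, hM⟩ : ∃ M, ∀ z, ‖f z‖ ≤ M := by
    exact hcs.exists_bound_of_continuous hc
  have hfint : Integrable f := hc.integrable_of_hasCompactSupport hcs
  -- the partial Fourier transform
  set h : ℤ → ℝ → ℂ := fun k y => ∫ x : ℝ, Real.fourierChar (-(x * k)) • f ((x:ℂ) + (y:ℂ) * Complex.I)
    with hh
  have hcy : ∀ y : ℝ, Continuous (fun x : ℝ => f ((x:ℂ) + (y:ℂ) * Complex.I)) := by
    intro y; exact hc.comp (by fun_prop)
  have hcx : ∀ x : ℝ, Continuous (fun y : ℝ => f ((x:ℂ) + (y:ℂ) * Complex.I)) := by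
    intro x; exact hc.comp (by fun_prop)
  have hchar : ∀ k : ℤ, Continuous (fun x : ℝ => (Real.fourierChar (-(x * k)) : ℂ)) := by
    intro k
    have := Real.continuous_fourierChar
    exact (continuous_subtype_val.comp (this.comp (by fun_prop : Continuous (fun x : ℝ => (-(x * k))))))
  have h_cont : ∀ k, Continuous (h k) := by
    intro k
    simp only [hh]
    apply continuous_of_dominated (bound := fun x => (Icc (-B) B).indicator (fun _ => M) x)
    · intro y
      simp only [Circle.smul_def]
      exact ((hchar k).smul (hcy y)).aestronglyMeasurable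
    · intro y
      refine Eventually.of_forall (fun x => ?_)
      by_cases hx : x ∈ Icc (-B) B
      · rw [indicator_of_mem hx]
        rw [Circle.norm_smul]
        exact hM _
      · rw [indicator_of_notMem hx, hx0 x y]
        · simp
        · by_contra hcon
          exact hx (abs_le.mp (not_lt.mp hcon))
    · rw [integrable_indicator_iff measurableSet_Icc]
      exact integrableOn_const (by simp) (by simp)
    · refine Eventually.of_forall (fun x => ?_)
      simp only [Circle.smul_def]
      exact Continuous.const_smul (hcx x) ((Real.fourierChar (-(x * k)) : ℂ))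
  have h_zero : ∀ k y, B < |y| → h k y = 0 := by
    intro k y hy
    simp only [hh]
    rw [integral_eq_zero_of_ae]
    refine Eventually.of_forall (fun x => ?_)
    simp [hy0 x y hy]
  -- Fourier transform of h k
  have h_four : ∀ k l : ℤ, 𝓕 (h k) (l : ℝ) = 𝓕 f (((k:ℝ):ℂ) + ((l:ℝ):ℂ) * Complex.I) := by
    intro k l
    rw [Real.fourier_eq, Real.fourier_eq, int_complex_eq]
    have hI : Integrable (fun p : ℝ × ℝ => Real.fourierChar (-(p.1 * k + p.2 * l)) •
        f ((p.1:ℂ) + (p.2:ℂ) * Complex.I)) (volume.prod volume) := by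
      have h1 : Integrable (fun p : ℝ × ℝ => f ((p.1:ℂ) + (p.2:ℂ) * Complex.I)) := by
        have := (Complex.volume_preserving_equiv_real_prod.symm).integrable_comp_emb
          (Complex.measurableEquivRealProd.symm.measurableEmbedding) (g := f)
        have h3 := this.mpr hfint
        have e : (f ∘ ⇑Complex.measurableEquivRealProd.symm) =
            (fun p : ℝ × ℝ => f ((p.1:ℂ) + (p.2:ℂ) * Complex.I)) := by
          funext p
          show f (Complex.measurableEquivRealProd.symm p) = _
          rw [symm_eq]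
        rwa [e] at h3
      have h2 : Continuous (fun p : ℝ × ℝ => (Real.fourierChar (-(p.1 * k + p.2 * l)) : ℂ)) := by
        have := Real.continuous_fourierChar
        exact (continuous_subtype_val.comp (this.comp
          (by fun_prop : Continuous (fun p : ℝ × ℝ => (-(p.1 * k + p.2 * l))))))
      refine Integrable.mono h1 ?_ ?_
      · simp only [Circle.smul_def]
        exact h2.aestronglyMeasurable.smul h1.aestronglyMeasurable
      · refine Eventually.of_forall (fun p => ?_)
        rw [Circle.norm_smul]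
    have e1 : ∀ p : ℝ × ℝ, Real.fourierChar (-⟪((p.1:ℂ) + (p.2:ℂ) * Complex.I),
        (((k:ℝ):ℂ) + ((l:ℝ):ℂ) * Complex.I)⟫) • f ((p.1:ℂ) + (p.2:ℂ) * Complex.I) =
        Real.fourierChar (-(p.1 * k + p.2 * l)) • f ((p.1:ℂ) + (p.2:ℂ) * Complex.I) := by
      intro p
      rw [inner_re_im]
    simp_rw [e1]
    rw [Measure.volume_eq_prod, integral_prod_symm _ hI]
    apply integral_congr_ae
    refine Eventually.of_forall (fun y => ?_)
    simp only [hh]
    rw [Circle.smul_def, ← integral_smul]
    apply integral_congr_ae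
    refine Eventually.of_forall (fun x => ?_)
    simp only [Circle.smul_def, smul_smul]
    congr 1
    rw [← Circle.coe_mul, ← AddChar.map_add_eq_mul]
    congr 2
    simp
    ring
  have hs1 : ∀ k : ℤ, Summable (fun l : ℤ => 𝓕 (h k) (l:ℝ)) := by
    intro k
    simp_rw [h_four]
    exact hs.prod_factor k
  have h_pois : ∀ k : ℤ, ∑' n : ℤ, h k (n:ℝ) = ∑' l : ℤ, 𝓕 f (((k:ℝ):ℂ) + ((l:ℝ):ℂ) * Complex.I) := by
    intro k
    rw [poisson1 (h_cont k) (h_zero k) (hs1 k)]
    simp_rw [h_four]
  -- the function g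
  set S : Finset ℤ := Finset.Icc (-⌈B⌉) ⌈B⌉ with hS
  have hSn : ∀ n : ℤ, n ∉ S → B < |(n:ℝ)| := by
    intro n hn
    rw [hS, Finset.mem_Icc, not_and_or, not_le, not_le] at hn
    have hB1 := Int.le_ceil B
    rcases hn with h | h
    · have : (n:ℝ) < -(⌈B⌉:ℝ) := by exact_mod_cast h
      have := neg_le_abs (n:ℝ)
      linarith
    · have : (⌈B⌉:ℝ) < n := by exact_mod_cast h
      have := le_abs_self (n:ℝ)
      linarith
  set g : ℝ → ℂ := fun x => ∑ n ∈ S, f ((x:ℂ) + ((n:ℝ):ℂ) * Complex.I) with hg
  have g_cont : Continuous g := by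
    simp only [hg]
    exact continuous_finsetSum _ (fun n _ => hcy n)
  have g_zero : ∀ x, B < |x| → g x = 0 := by
    intro x hx
    simp only [hg]
    exact Finset.sum_eq_zero (fun n _ => hx0 x n hx)
  have g_four : ∀ k : ℤ, 𝓕 g (k:ℝ) = ∑' l : ℤ, 𝓕 f (((k:ℝ):ℂ) + ((l:ℝ):ℂ) * Complex.I) := by
    intro k
    rw [← h_pois k, tsum_eq_sum (s := S)]
    · rw [Real.fourier_eq]
      simp only [hg, hh, Finset.smul_sum]
      rw [integral_finsetSum]
      · apply Finset.sum_congr rfl
        intro n _
        apply integral_congr_ae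
        refine Eventually.of_forall (fun x => ?_)
        simp only [Real.inner_apply]
      · intro n _
        have h1 : Integrable (fun x : ℝ => f ((x:ℂ) + ((n:ℝ):ℂ) * Complex.I)) := by
          apply (hcy n).integrable_of_hasCompactSupport
          apply HasCompactSupport.intro (isCompact_Icc (a := -B) (b := B))
          intro x hx
          apply hx0
          by_contra hcon
          exact hx (abs_le.mp (not_lt.mp hcon))
        have := (Real.fourierIntegral_convergent_iff (k:ℝ)).2 h1
        exact this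
    · intro n hn
      exact h_zero k n (hSn n hn)
  have gs : Summable (fun k : ℤ => 𝓕 g (k:ℝ)) := by
    simp_rw [g_four]
    exact hs.prod
  have hgp := poisson1 g_cont g_zero gs
  simp_rw [g_four] at hgp
  rw [hs.tsum_prod, ← hgp]
  have hfs : Summable (fun p : ℤ × ℤ => f (((p.1:ℝ):ℂ) + ((p.2:ℝ):ℂ) * Complex.I)) := by
    apply summable_of_ne_finset_zero (s := S ×ˢ S)
    intro p hp
    rw [Finset.mem_product, not_and_or] at hp
    rcases hp with h | h
    · exact hx0 _ _ (hSn _ h)
    · exact hy0 _ _ (hSn _ h)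
  rw [hfs.tsum_prod]
  apply tsum_congr
  intro m
  simp only [hg]
  rw [tsum_eq_sum (s := S)]
  intro n hn
  exact hy0 _ _ (hSn n hn)

end Pool.Agent.H383.Gauss
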