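import Mathlib
import Pool.Agent.Helper923.PNT

open Filter Topology Finset

namespace Pool.Agent.H383.Rich

/-- primes congruent to one modulo four in a dyadic block, outside `F` -/
noncomputable def PB (F : Finset ℕ) (y : ℝ) : Finset ℕ :=
  (Finset.Ioc ⌊y⌋₊ ⌊2*y⌋₊).filter (fun q => q.Prime ∧ q % 4 = 1 ∧ q ∉ F)

lemma PB_mem {F : Finset ℕ} {y : ℝ} (hy : 0 ≤ y) {q : ℕ} (hq : q ∈ PB F y) :
    q.Prime ∧ q % 4 = 1 ∧ q ∉ F ∧ y < q ∧ (q:ℝ) ≤ 2 * y := by
  unfold PB at hq
  rw [Finset.mem_filter, Finset.mem_Ioc] at hq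
  refine ⟨hq.2.1, hq.2.2.1, hq.2.2.2, ?_, ?_⟩
  · exact (Nat.floor_lt hy).mp hq.1.1
  · exact (Nat.le_floor_iff (by positivity)).mp hq.1.2

theorem PB_card (F : Finset ℕ) : ∃ y0 : ℝ, 3 ≤ y0 ∧ ∀ y : ℝ, y0 ≤ y →
    (1/20) * y / Real.log y ≤ ((PB F y).card : ℝ) := by
  have hu : IsUnit ((1 : ZMod 4)) := isUnit_one
  have h1 := Pool.Agent.Helper923.PNT.pnt_residueClass (q := 4) hu
  have htot : ((Nat.totient 4 : ℕ) : ℝ)⁻¹ = 1/2 := by
    have : Nat.totient 4 = 2 := by decide
    rw [this]; norm_num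
  rw [htot] at h1
  set rc := ArithmeticFunction.vonMangoldt.residueClass (1 : ZMod 4) with hrc
  set S : ℝ → ℝ := fun x => ∑ k ∈ Finset.Icc 1 ⌊x⌋₊, rc k with hS
  have h2 : Tendsto (fun y : ℝ => S (2*y) / (2*y)) atTop (𝓝 (1/2)) :=
    h1.comp (tendsto_id.const_mul_atTop (by norm_num : (0:ℝ) < 2))
  have e1 := h1.eventually (gt_mem_nhds (show (1/2:ℝ) < 11/20 by norm_num))
  have e2 := h2.eventually (lt_mem_nhds (show (19/40:ℝ) < 1/2 by norm_num))
  -- lower order terms
  have e3 : ∀ᶠ y : ℝ in atTop, 2 * √(2*y) * Real.log (2*y) ≤ (1/5) * y := by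
    have h3 : Tendsto (fun y : ℝ => Real.log y / y ^ (1/2:ℝ)) atTop (𝓝 0) :=
      (isLittleO_log_rpow_atTop (by norm_num : (0:ℝ) < 1/2)).tendsto_div_nhds_zero
    have h4 := (h3.comp (tendsto_id.const_mul_atTop (by norm_num : (0:ℝ) < 2))).eventually
      (gt_mem_nhds (show (0:ℝ) < 1/20 by norm_num))
    filter_upwards [h4, eventually_gt_atTop (1:ℝ)] with y h5 hy
    have hy0 : 0 < 2 * y := by linarith
    simp only [Function.comp_apply, id_eq] at h5
    rw [← Real.sqrt_eq_rpow, div_lt_iff₀ (Real.sqrt_pos.mpr hy0)] at h5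
    have h6 : √(2*y) * √(2*y) = 2 * y := Real.mul_self_sqrt hy0.le
    have h7 : 0 < √(2*y) := Real.sqrt_pos.mpr hy0
    nlinarith
  have e4 : ∀ᶠ y : ℝ in atTop, (F.card : ℝ) * Real.log (2*y) ≤ (1/20) * y := by
    have h3 : Tendsto (fun y : ℝ => Real.log y / y ^ (1:ℝ)) atTop (𝓝 0) :=
      (isLittleO_log_rpow_atTop (by norm_num : (0:ℝ) < 1)).tendsto_div_nhds_zero
    have h4 := (h3.comp (tendsto_id.const_mul_atTop (by norm_num : (0:ℝ) < 2))).eventually
      (gt_mem_nhds (show (0:ℝ) < 1/(40 * (F.card + 1)) by positivity))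
    filter_upwards [h4, eventually_gt_atTop (1:ℝ)] with y h5 hy
    have hy0 : 0 < 2 * y := by linarith
    simp only [Function.comp_apply, id_eq] at h5
    rw [Real.rpow_one, div_lt_iff₀ hy0] at h5
    have hlog : 0 ≤ Real.log (2*y) := Real.log_nonneg (by linarith)
    calc (F.card : ℝ) * Real.log (2*y) ≤ (F.card + 1) * Real.log (2*y) := by nlinarith
      _ ≤ (F.card + 1) * (1/(40 * (F.card + 1)) * (2*y)) := by gcongr
      _ = (1/20) * y := by field_simp; norm_num
  obtain ⟨y1, hy1⟩ := eventually_atTop.mp (((e1.and e2).and e3).and e4)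
  refine ⟨max y1 3, le_max_right _ _, ?_⟩
  intro y hy
  obtain ⟨⟨⟨a1, a2⟩, a3⟩, a4⟩ := hy1 y ((le_max_left _ _).trans hy)
  have hy3 : 3 ≤ y := (le_max_right _ _).trans hy
  have hy0 : 0 < y := by linarith
  rw [div_lt_iff₀ hy0] at a1
  rw [lt_div_iff₀ (by linarith)] at a2
  have hlog2 : 0 < Real.log (2*y) := Real.log_pos (by linarith)
  have hlog : 0 < Real.log y := Real.log_pos (by linarith)
  have hfl : ⌊y⌋₊ ≤ ⌊2*y⌋₊ := Nat.floor_mono (by linarith)
  -- the block
  have hblock : S (2*y) - S y = ∑ k ∈ Finset.Ioc ⌊y⌋₊ ⌊2*y⌋₊, rc k := by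
    simp only [hS]
    have hd : Finset.Icc 1 ⌊2*y⌋₊ = Finset.Icc 1 ⌊y⌋₊ ∪ Finset.Ioc ⌊y⌋₊ ⌊2*y⌋₊ := by
      ext k; simp only [Finset.mem_union, Finset.mem_Icc, Finset.mem_Ioc]; omega
    rw [hd, Finset.sum_union]
    · ring
    · rw [Finset.disjoint_left]
      intro k h h'
      rw [Finset.mem_Icc] at h
      rw [Finset.mem_Ioc] at h'
      omega
  have hsplit : ∑ k ∈ Finset.Ioc ⌊y⌋₊ ⌊2*y⌋₊, rc k ≤ ((PB F y).card + F.card) * Real.log (2*y) +
      ∑ k ∈ (Finset.Ioc 0 ⌊2*y⌋₊).filter (fun k => ¬ k.Prime), ArithmeticFunction.vonMangoldt k := by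
    rw [← Finset.sum_filter_add_sum_filter_not (Finset.Ioc ⌊y⌋₊ ⌊2*y⌋₊) Nat.Prime]
    apply add_le_add
    · -- primes
      have hpt : ∀ k ∈ (Finset.Ioc ⌊y⌋₊ ⌊2*y⌋₊).filter Nat.Prime, rc k ≤
          (if k ∈ PB F y then Real.log (2*y) else 0) + (if k ∈ F then Real.log (2*y) else 0) := by
        intro k hk
        rw [Finset.mem_filter] at hk
        have hkI := Finset.mem_Ioc.mp hk.1
        have hk2 : (k:ℝ) ≤ 2 * y := (Nat.le_floor_iff (by positivity)).mp hkI.2
        have hk0 : (0:ℝ) < k := by exact_mod_cast hk.2.pos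
        have hll : Real.log k ≤ Real.log (2*y) := Real.log_le_log hk0 hk2
        rw [hrc]
        unfold ArithmeticFunction.vonMangoldt.residueClass
        rw [Set.indicator_apply]
        by_cases hc : k ∈ {n : ℕ | (n : ZMod 4) = 1}
        · rw [if_pos hc, ArithmeticFunction.vonMangoldt_apply_prime hk.2]
          have h4 : k % 4 = 1 := by
            have h5 : ((k:ℕ) : ZMod 4) = ((1:ℕ) : ZMod 4) := by simpa using hc
            rw [ZMod.natCast_eq_natCast_iff] at h5
            exact h5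
          by_cases hF : k ∈ F
          · rw [if_pos hF]
            have : 0 ≤ (if k ∈ PB F y then Real.log (2*y) else 0) := by
              split_ifs
              · exact hlog2.le
              · exact le_rfl
            linarith
          · have hPB : k ∈ PB F y := by
              unfold PB
              rw [Finset.mem_filter]
              exact ⟨hk.1, hk.2, h4, hF⟩
            rw [if_pos hPB, if_neg hF, add_zero]
            exact hll
        · rw [if_neg hc]
          have h5 : 0 ≤ (if k ∈ PB F y then Real.log (2*y) else 0) := by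
            split_ifs
            · exact hlog2.le
            · exact le_rfl
          have h6 : 0 ≤ (if k ∈ F then Real.log (2*y) else 0) := by
            split_ifs
            · exact hlog2.le
            · exact le_rfl
          linarith
      refine (Finset.sum_le_sum hpt).trans ?_
      rw [Finset.sum_add_distrib, ← Finset.sum_filter, ← Finset.sum_filter, Finset.sum_const, Finset.sum_const,
        nsmul_eq_mul, nsmul_eq_mul, add_mul]
      apply add_le_add
      · apply mul_le_mul_of_nonneg_right _ hlog2.le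
        have : (Finset.filter (fun k => k ∈ PB F y) ((Finset.Ioc ⌊y⌋₊ ⌊2*y⌋₊).filter Nat.Prime)).card ≤ (PB F y).card :=
          Finset.card_le_card (fun k hk => (Finset.mem_filter.mp hk).2)
        exact_mod_cast this
      · apply mul_le_mul_of_nonneg_right _ hlog2.le
        have : (Finset.filter (fun k => k ∈ F) ((Finset.Ioc ⌊y⌋₊ ⌊2*y⌋₊).filter Nat.Prime)).card ≤ F.card :=
          Finset.card_le_card (fun k hk => (Finset.mem_filter.mp hk).2)
        exact_mod_cast this
    · -- non primes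
      have hpt : ∀ k ∈ (Finset.Ioc ⌊y⌋₊ ⌊2*y⌋₊).filter (fun k => ¬ k.Prime), rc k ≤ ArithmeticFunction.vonMangoldt k := by
        intro k _
        rw [hrc]
        unfold ArithmeticFunction.vonMangoldt.residueClass
        rw [Set.indicator_apply]
        split_ifs
        · exact le_rfl
        · exact ArithmeticFunction.vonMangoldt_nonneg
      refine (Finset.sum_le_sum hpt).trans ?_
      apply Finset.sum_le_sum_of_subset_of_nonneg
      · intro k hk
        rw [Finset.mem_filter, Finset.mem_Ioc] at hk ⊢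
        exact ⟨⟨by omega, hk.1.2⟩, hk.2⟩
      · intro k _ _
        exact ArithmeticFunction.vonMangoldt_nonneg
  have hnp := Chebyshev.psi_sub_theta_eq_sum_not_prime (2*y)
  have hnp2 := Chebyshev.psi_sub_theta_le (x := 2*y) (by linarith)
  have hfin : (19/20) * y - (11/20) * y ≤ ((PB F y).card + F.card) * Real.log (2*y) + (1/5) * y := by
    have h8 : S (2*y) - S y ≤ ((PB F y).card + F.card) * Real.log (2*y) + (Chebyshev.psi (2*y) - Chebyshev.theta (2*y)) := by
      rw [hblock]
      refine hsplit.trans ?_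
      rw [hnp]
    linarith
  have h9 : (1/10) * y ≤ (PB F y).card * Real.log (2*y) := by nlinarith
  have h10 : Real.log (2*y) ≤ 2 * Real.log y := by
    rw [Real.log_mul (by norm_num) hy0.ne']
    have : Real.log 2 ≤ Real.log y := Real.log_le_log (by norm_num) (by linarith)
    linarith
  rw [div_le_iff₀ hlog]
  have h11 : ((PB F y).card : ℝ) * Real.log (2*y) ≤ (PB F y).card * (2 * Real.log y) :=
    mul_le_mul_of_nonneg_left h10 (Nat.cast_nonneg _)
  linarith

end Pool.Agent.H383.Rich
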