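import Mathlib

open Filter Topology

namespace Pool.Agent.H383.AP

/-- Cesàro averages -/
noncomputable def cm (a : ℕ → ℂ) (N : ℕ) : ℂ := (∑ n ∈ Finset.range N, a n) / N

/-- the sequence has mean `L` -/
def HasMean (a : ℕ → ℂ) (L : ℂ) : Prop := Tendsto (cm a) atTop (𝓝 L)

/-- characters of `ℕ` -/
noncomputable def chr (θ : ℝ) : ℕ → ℂ := fun n =>
  Complex.exp (((2 * Real.pi * (n * θ) : ℝ) : ℂ) * Complex.I)

lemma norm_chr (θ : ℝ) (n : ℕ) : ‖chr θ n‖ = 1 := Complex.norm_exp_ofReal_mul_I _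

lemma chr_mul (θ θ' : ℝ) : chr θ * chr θ' = chr (θ + θ') := by
  funext n
  simp only [chr, Pi.mul_apply]
  rw [← Complex.exp_add]
  congr 1
  push_cast
  ring

lemma chr_conj (θ : ℝ) (n : ℕ) : (starRingEnd ℂ) (chr θ n) = chr (-θ) n := by
  simp only [chr]
  rw [← Complex.exp_conj]
  congr 1
  rw [map_mul, Complex.conj_ofReal, Complex.conj_I]
  push_cast
  ring

lemma chr_zero : chr 0 = 1 := by
  funext n; simp [chr]

lemma cm_add (a b : ℕ → ℂ) : cm (a + b) = cm a + cm b := by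
  funext N
  simp only [cm, Pi.add_apply, Finset.sum_add_distrib, add_div]

lemma cm_smul (c : ℂ) (a : ℕ → ℂ) : cm (c • a) = c • cm a := by
  funext N
  simp only [cm, Pi.smul_apply, smul_eq_mul, ← Finset.mul_sum, mul_div_assoc]

lemma HasMean.add {a b : ℕ → ℂ} {L L' : ℂ} (h : HasMean a L) (h' : HasMean b L') : HasMean (a + b) (L + L') := by
  unfold HasMean at *
  rw [cm_add]
  exact Tendsto.add h h'

lemma HasMean.smul {a : ℕ → ℂ} {L : ℂ} (c : ℂ) (h : HasMean a L) : HasMean (c • a) (c * L) := by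
  unfold HasMean at *
  rw [cm_smul]
  exact Tendsto.const_mul c h

lemma HasMean.unique {a : ℕ → ℂ} {L L' : ℂ} (h : HasMean a L) (h' : HasMean a L') : L = L' :=
  tendsto_nhds_unique h h'

lemma hasMean_zero : HasMean (0 : ℕ → ℂ) 0 := by
  unfold HasMean
  have : cm (0 : ℕ → ℂ) = fun _ => 0 := by funext N; simp [cm]
  rw [this]; exact tendsto_const_nhds

lemma HasMean.sum {ι : Type*} (s : Finset ι) (a : ι → ℕ → ℂ) (L : ι → ℂ) (h : ∀ i ∈ s, HasMean (a i) (L i)) :
    HasMean (∑ i ∈ s, a i) (∑ i ∈ s, L i) := by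
  classical
  induction s using Finset.induction_on with
  | empty => simpa using hasMean_zero
  | insert i s hi ih =>
    rw [Finset.sum_insert hi, Finset.sum_insert hi]
    exact (h i (Finset.mem_insert_self i s)).add (ih (fun j hj => h j (Finset.mem_insert_of_mem hj)))

lemma hasMean_const (c : ℂ) : HasMean (fun _ => c) c := by
  unfold HasMean
  apply tendsto_const_nhds.congr'
  filter_upwards [eventually_gt_atTop 0] with N hN
  simp only [cm, Finset.sum_const, Finset.card_range, nsmul_eq_mul]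
  have : (N:ℂ) ≠ 0 := by exact_mod_cast hN.ne'
  field_simp

lemma chr_mean_int {θ : ℝ} (h : ∃ k : ℤ, θ = k) : HasMean (chr θ) 1 := by
  obtain ⟨k, rfl⟩ := h
  have : chr (k:ℝ) = fun _ => 1 := by
    funext n
    simp only [chr]
    rw [Complex.exp_eq_one_iff]
    refine ⟨n * k, ?_⟩
    push_cast; ring
  rw [this]; exact hasMean_const 1

lemma chr_mean_non {θ : ℝ} (h : ¬ ∃ k : ℤ, θ = k) : HasMean (chr θ) 0 := by
  set z : ℂ := chr θ 1 with hz
  have hpow : ∀ n : ℕ, chr θ n = z ^ n := by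
    intro n
    simp only [hz, chr]
    rw [← Complex.exp_nat_mul]
    congr 1
    push_cast; ring
  have hz1 : z ≠ 1 := by
    intro h1
    apply h
    simp only [hz, chr] at h1
    rw [Complex.exp_eq_one_iff] at h1
    obtain ⟨k, hk⟩ := h1
    refine ⟨k, ?_⟩
    have hpi : (2 * (Real.pi : ℂ) * Complex.I) ≠ 0 := by
      simp [Real.pi_ne_zero, Complex.I_ne_zero]
    have h2 : (2 * (Real.pi : ℂ) * Complex.I) * (θ:ℂ) = (2 * (Real.pi : ℂ) * Complex.I) * (k:ℂ) := by
      push_cast at hk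
      linear_combination hk
    have h3 := mul_left_cancel₀ hpi h2
    exact_mod_cast h3
  have hb : ∀ N : ℕ, ‖cm (chr θ) N‖ ≤ (2 / ‖z - 1‖) * (1 / (N:ℝ)) := by
    intro N
    unfold cm
    have e : ∑ n ∈ Finset.range N, chr θ n = (z^N - 1)/(z - 1) := by
      rw [← geom_sum_eq hz1]
      exact Finset.sum_congr rfl (fun n _ => hpow n)
    rw [e, norm_div, norm_div]
    have h1 : ‖z^N - 1‖ ≤ 2 := by
      refine (norm_sub_le _ _).trans ?_
      rw [← hpow, norm_chr]; norm_num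
    have h2 : ‖(N:ℂ)‖ = (N:ℝ) := by simp
    rw [h2, div_eq_mul_one_div]
    gcongr
  unfold HasMean
  apply squeeze_zero_norm hb
  have h1 := (tendsto_one_div_atTop_nhds_zero_nat (𝕜 := ℝ)).const_mul (2 / ‖z - 1‖)
  rw [mul_zero] at h1
  exact h1

/-- the mean of a character -/
noncomputable def mc (θ : ℝ) : ℂ := by
  classical exact if ∃ k : ℤ, θ = k then 1 else 0

lemma chr_mean (θ : ℝ) : HasMean (chr θ) (mc θ) := by
  unfold mc
  split_ifs with h
  · exact chr_mean_int h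
  · exact chr_mean_non h

/-- trigonometric polynomials -/
def Trig : Submodule ℂ (ℕ → ℂ) := Submodule.span ℂ (Set.range chr)

lemma chr_mem (θ : ℝ) : chr θ ∈ Trig := Submodule.subset_span ⟨θ, rfl⟩

lemma one_mem : (1 : ℕ → ℂ) ∈ Trig := by rw [← chr_zero]; exact chr_mem 0

lemma Trig_mean {a : ℕ → ℂ} (h : a ∈ Trig) : ∃ L, HasMean a L := by
  unfold Trig at h
  induction h using Submodule.span_induction with
  | mem x hx =>
    obtain ⟨θ, rfl⟩ := hx
    exact ⟨_, chr_mean θ⟩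
  | zero => exact ⟨0, hasMean_zero⟩
  | add x y _ _ hx hy =>
    obtain ⟨L, hL⟩ := hx
    obtain ⟨L', hL'⟩ := hy
    exact ⟨_, hL.add hL'⟩
  | smul c x _ hx =>
    obtain ⟨L, hL⟩ := hx
    exact ⟨_, hL.smul c⟩

lemma Trig_bdd {a : ℕ → ℂ} (h : a ∈ Trig) : ∃ B : ℝ, 0 ≤ B ∧ ∀ n, ‖a n‖ ≤ B := by
  unfold Trig at h
  induction h using Submodule.span_induction with
  | mem x hx =>
    obtain ⟨θ, rfl⟩ := hx
    exact ⟨1, by norm_num, fun n => (norm_chr θ n).le⟩
  | zero => exact ⟨0, le_rfl, fun n => by simp⟩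
  | add x y _ _ hx hy =>
    obtain ⟨B, hB0, hB⟩ := hx
    obtain ⟨B', hB0', hB'⟩ := hy
    exact ⟨B + B', by positivity, fun n => (norm_add_le _ _).trans (add_le_add (hB n) (hB' n))⟩
  | smul c x _ hx =>
    obtain ⟨B, hB0, hB⟩ := hx
    refine ⟨‖c‖ * B, by positivity, fun n => ?_⟩
    simp only [Pi.smul_apply, smul_eq_mul, norm_mul]
    exact mul_le_mul_of_nonneg_left (hB n) (norm_nonneg _)

lemma Trig_mul {a b : ℕ → ℂ} (ha : a ∈ Trig) (hb : b ∈ Trig) : a * b ∈ Trig := by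
  have h : ∀ θ : ℝ, ∀ b ∈ Trig, chr θ * b ∈ Trig := by
    intro θ b hb
    unfold Trig at hb
    induction hb using Submodule.span_induction with
    | mem x hx =>
      obtain ⟨θ', rfl⟩ := hx
      rw [chr_mul]; exact chr_mem _
    | zero => rw [mul_zero]; exact Trig.zero_mem
    | add x y _ _ hx hy => rw [mul_add]; exact Trig.add_mem hx hy
    | smul c x _ hx => rw [mul_smul_comm]; exact Trig.smul_mem c hx
  unfold Trig at ha
  induction ha using Submodule.span_induction with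
  | mem x hx =>
    obtain ⟨θ', rfl⟩ := hx
    exact h θ' b hb
  | zero => rw [zero_mul]; exact Trig.zero_mem
  | add x y _ _ hx hy => rw [add_mul]; exact Trig.add_mem hx hy
  | smul c x _ hx => rw [smul_mul_assoc]; exact Trig.smul_mem c hx

lemma Trig_pow {a : ℕ → ℂ} (ha : a ∈ Trig) (k : ℕ) : a ^ k ∈ Trig := by
  induction k with
  | zero => rw [pow_zero]; exact one_mem
  | succ k ih => rw [pow_succ]; exact Trig_mul ih ha

/-- Cauchy criterion for means -/
lemma hasMean_of_approx {a : ℕ → ℂ} (h : ∀ η : ℝ, 0 < η → ∃ b : ℕ → ℂ, (∃ L, HasMean b L) ∧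
    ∃ N0, ∀ N, N0 ≤ N → ‖cm a N - cm b N‖ ≤ η) : ∃ L, HasMean a L := by
  apply cauchySeq_tendsto_of_complete
  rw [Metric.cauchySeq_iff]
  intro ε hε
  obtain ⟨b, ⟨L, hL⟩, N0, hN0⟩ := h (ε/4) (by positivity)
  have hc : CauchySeq (cm b) := Filter.Tendsto.cauchySeq hL
  rw [Metric.cauchySeq_iff] at hc
  obtain ⟨N1, hN1⟩ := hc (ε/4) (by positivity)
  refine ⟨max N0 N1, ?_⟩
  intro m hm n hn
  have h1 := hN0 m (by omega)
  have h2 := hN0 n (by omega)
  have h3 := hN1 m (by omega) n (by omega)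
  rw [dist_eq_norm] at h3 ⊢
  have e : cm a m - cm a n = (cm a m - cm b m) + (cm b m - cm b n) - (cm a n - cm b n) := by ring
  rw [e]
  calc ‖(cm a m - cm b m) + (cm b m - cm b n) - (cm a n - cm b n)‖
      ≤ ‖(cm a m - cm b m) + (cm b m - cm b n)‖ + ‖cm a n - cm b n‖ := norm_sub_le _ _
    _ ≤ ‖cm a m - cm b m‖ + ‖cm b m - cm b n‖ + ‖cm a n - cm b n‖ := by
        gcongr; exact norm_add_le _ _
    _ < ε := by linarith

lemma mean_close {a b : ℕ → ℂ} {L L' : ℂ} {η : ℝ} (ha : HasMean a L) (hb : HasMean b L')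
    (h : ∃ N0, ∀ N, N0 ≤ N → ‖cm a N - cm b N‖ ≤ η) : ‖L - L'‖ ≤ η := by
  obtain ⟨N0, hN0⟩ := h
  have h1 : Tendsto (fun N => ‖cm a N - cm b N‖) atTop (𝓝 ‖L - L'‖) := (Tendsto.sub ha hb).norm
  apply le_of_tendsto h1
  filter_upwards [eventually_ge_atTop N0] with N hN
  exact hN0 N hN

/-- real averages -/
noncomputable def rm (a : ℕ → ℝ) (N : ℕ) : ℝ := (∑ n ∈ Finset.range N, a n) / N

lemma rm_mono {a b : ℕ → ℝ} (h : ∀ n, a n ≤ b n) (N : ℕ) : rm a N ≤ rm b N := by
  unfold rm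
  apply div_le_div_of_nonneg_right _ (Nat.cast_nonneg N)
  exact Finset.sum_le_sum (fun n _ => h n)

lemma rm_nonneg {a : ℕ → ℝ} (h : ∀ n, 0 ≤ a n) (N : ℕ) : 0 ≤ rm a N := by
  unfold rm
  exact div_nonneg (Finset.sum_nonneg (fun n _ => h n)) (Nat.cast_nonneg N)

lemma rm_const_le {c : ℝ} (hc : 0 ≤ c) (N : ℕ) : rm (fun _ => c) N ≤ c := by
  unfold rm
  rw [Finset.sum_const, Finset.card_range, nsmul_eq_mul]
  rcases Nat.eq_zero_or_pos N with rfl | hN
  · simpa using hc
  · have : (0:ℝ) < N := by exact_mod_cast hN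
    rw [mul_div_assoc, mul_div_cancel₀]
    exact this.ne'

lemma rm_add (a b : ℕ → ℝ) (N : ℕ) : rm (fun n => a n + b n) N = rm a N + rm b N := by
  simp only [rm, Finset.sum_add_distrib, add_div]

lemma rm_mul (c : ℝ) (a : ℕ → ℝ) (N : ℕ) : rm (fun n => c * a n) N = c * rm a N := by
  simp only [rm, ← Finset.mul_sum, mul_div_assoc]

lemma norm_cm_sub_le (a b : ℕ → ℂ) (N : ℕ) : ‖cm a N - cm b N‖ ≤ rm (fun n => ‖a n - b n‖) N := by
  unfold cm rm
  rw [← sub_div, ← Finset.sum_sub_distrib, norm_div, Complex.norm_natCast]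
  apply div_le_div_of_nonneg_right _ (Nat.cast_nonneg N)
  exact norm_sum_le _ _

lemma cm_ofReal (a : ℕ → ℝ) (N : ℕ) : cm (fun n => (a n : ℂ)) N = ((rm a N : ℝ) : ℂ) := by
  unfold cm rm
  push_cast
  rfl

/-- exponentials of real trigonometric polynomials have means -/
lemma exp_mean {t : ℕ → ℝ} (ht : (fun n => (t n : ℂ)) ∈ Trig) (s : ℝ) :
    ∃ L, HasMean (fun n => Complex.exp (((s * t n : ℝ) : ℂ) * Complex.I)) L := by
  obtain ⟨B, hB0, hB⟩ := Trig_bdd ht
  apply hasMean_of_approx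
  intro η hη
  -- choose K
  have hlim : Tendsto (fun K : ℕ => (|s| * B) ^ K / (K.factorial : ℝ) * 2) atTop (𝓝 0) := by
    have := (FloorSemiring.tendsto_pow_div_factorial_atTop (|s| * B)).mul_const 2
    rw [zero_mul] at this
    exact this
  have hev := hlim.eventually (gt_mem_nhds hη)
  have hev2 : ∀ᶠ K : ℕ in atTop, (|s| * B) / (K + 1) ≤ 1/2 := by
    have : Tendsto (fun K : ℕ => (|s| * B) / ((K:ℝ) + 1)) atTop (𝓝 0) := by
      apply Tendsto.const_div_atTop
      exact tendsto_atTop_add_const_right _ _ tendsto_natCast_atTop_atTop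
    filter_upwards [this.eventually (gt_mem_nhds (by norm_num : (0:ℝ) < 1/2))] with K hK
    exact hK.le
  obtain ⟨K, hK1, hK2⟩ := (hev.and hev2).exists
  refine ⟨fun n => ∑ k ∈ Finset.range K, (((s * t n : ℝ) : ℂ) * Complex.I) ^ k / (k.factorial : ℂ), ?_, 0, ?_⟩
  · apply Trig_mean
    have e : (fun n => ∑ k ∈ Finset.range K, (((s * t n : ℝ) : ℂ) * Complex.I) ^ k / (k.factorial : ℂ)) =
        ∑ k ∈ Finset.range K, (((s : ℂ) * Complex.I) ^ k / (k.factorial : ℂ)) • (fun n => (t n : ℂ)) ^ k := by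
      funext n
      rw [Finset.sum_apply]
      apply Finset.sum_congr rfl
      intro k _
      simp only [Pi.smul_apply, Pi.pow_apply, smul_eq_mul]
      push_cast
      ring
    rw [e]
    apply Submodule.sum_mem
    intro k _
    exact Trig.smul_mem _ (Trig_pow ht k)
  · intro N _
    refine (norm_cm_sub_le _ _ N).trans ?_
    refine (rm_mono (b := fun _ => η) ?_ N).trans (rm_const_le hη.le N)
    intro n
    have hx : ‖((s * t n : ℝ) : ℂ) * Complex.I‖ ≤ |s| * B := by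
      rw [norm_mul, Complex.norm_I, mul_one, Complex.norm_real, norm_mul, Real.norm_eq_abs]
      have := hB n
      rw [Complex.norm_real] at this
      exact mul_le_mul_of_nonneg_left this (abs_nonneg s)
    have hx2 : ‖((s * t n : ℝ) : ℂ) * Complex.I‖ / (K.succ : ℝ) ≤ 1/2 := by
      refine le_trans ?_ hK2
      rw [Nat.cast_succ]
      exact div_le_div_of_nonneg_right hx (by positivity)
    have h1 := Complex.exp_bound' hx2
    refine h1.trans ?_
    refine le_trans ?_ hK1.le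
    gcongr

end Pool.Agent.H383.AP
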