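import Mathlib
import Pool.Agent.H383.AP

open Filter Topology MeasureTheory

namespace Pool.Agent.H383.AP

/-- Besicovitch `B²`-almost periodic sequences of reals -/
def B2 (e : ℕ → ℝ) : Prop := ∀ η : ℝ, 0 < η → ∃ t : ℕ → ℝ, (fun n => (t n : ℂ)) ∈ Trig ∧
  ∃ N0, ∀ N, N0 ≤ N → rm (fun n => (e n - t n)^2) N ≤ η

lemma rm_abs_le {x : ℕ → ℝ} {c : ℝ} (hc : 0 < c) {N : ℕ} (h : rm (fun n => (x n)^2) N ≤ c^2) :
    rm (fun n => |x n|) N ≤ c := by
  have h1 : ∀ n, |x n| ≤ (1/(2*c)) * (x n)^2 + c/2 := by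
    intro n
    have : 0 ≤ (|x n| - c)^2 / (2 * c) := by positivity
    have e : (|x n| - c)^2 / (2 * c) = (1/(2*c)) * (x n)^2 + c/2 - |x n| := by
      rw [sub_sq, sq_abs]; field_simp; ring
    linarith
  calc rm (fun n => |x n|) N ≤ rm (fun n => (1/(2*c)) * (x n)^2 + c/2) N := rm_mono h1 N
    _ = (1/(2*c)) * rm (fun n => (x n)^2) N + rm (fun _ => c/2) N := by rw [rm_add, rm_mul]
    _ ≤ (1/(2*c)) * c^2 + c/2 := by
        have := rm_const_le (c := c/2) (by positivity) N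
        gcongr
    _ = c := by field_simp; ring

lemma B2.abs {e : ℕ → ℝ} (h : B2 e) {c : ℝ} (hc : 0 < c) : ∃ t : ℕ → ℝ, (fun n => (t n : ℂ)) ∈ Trig ∧
    ∃ N0, ∀ N, N0 ≤ N → rm (fun n => |e n - t n|) N ≤ c := by
  obtain ⟨t, ht, N0, hN⟩ := h (c^2) (by positivity)
  exact ⟨t, ht, N0, fun N hN' => rm_abs_le hc (hN N hN')⟩

lemma B2.exp_mean {e : ℕ → ℝ} (h : B2 e) (s : ℝ) :
    ∃ L, HasMean (fun n => Complex.exp (((s * e n : ℝ) : ℂ) * Complex.I)) L := by
  apply hasMean_of_approx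
  intro η hη
  obtain ⟨t, ht, N0, hN⟩ := h.abs (c := η / (|s| + 1)) (by positivity)
  refine ⟨fun n => Complex.exp (((s * t n : ℝ) : ℂ) * Complex.I), AP.exp_mean ht s, N0, ?_⟩
  intro N hN'
  refine (norm_cm_sub_le _ _ N).trans ?_
  have h1 : ∀ n, ‖Complex.exp (((s * e n : ℝ) : ℂ) * Complex.I) - Complex.exp (((s * t n : ℝ) : ℂ) * Complex.I)‖ ≤
      |s| * |e n - t n| := by
    intro n
    have e1 : Complex.exp (((s * e n : ℝ) : ℂ) * Complex.I) - Complex.exp (((s * t n : ℝ) : ℂ) * Complex.I) =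
        Complex.exp (((s * t n : ℝ) : ℂ) * Complex.I) * (Complex.exp (Complex.I * ((s * (e n - t n) : ℝ) : ℂ)) - 1) := by
      rw [mul_sub, ← Complex.exp_add, mul_one]
      congr 2
      push_cast; ring
    rw [e1, norm_mul, Complex.norm_exp_ofReal_mul_I, one_mul, ← abs_mul]
    exact Real.norm_exp_I_mul_ofReal_sub_one_le
  calc _ ≤ rm (fun n => |s| * |e n - t n|) N := rm_mono h1 N
    _ = |s| * rm (fun n => |e n - t n|) N := rm_mul _ _ _
    _ ≤ |s| * (η / (|s| + 1)) := mul_le_mul_of_nonneg_left (hN N hN') (abs_nonneg s)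
    _ ≤ η := by
        rw [mul_div_assoc', div_le_iff₀ (by positivity)]
        nlinarith [abs_nonneg s]

lemma rm_le_of_bdd {a : ℕ → ℝ} {N0 : ℕ} {c : ℝ} (ha : ∀ n, 0 ≤ a n) (hc : 0 ≤ c)
    (h : ∀ N, N0 ≤ N → rm a N ≤ c) : ∀ N, rm a N ≤ c * (N0 + 1) + ∑ n ∈ Finset.range N0, a n := by
  intro N
  have hs : 0 ≤ ∑ n ∈ Finset.range N0, a n := Finset.sum_nonneg (fun n _ => ha n)
  by_cases hN : N0 ≤ N
  · have h1 := h N hN
    have : c ≤ c * (N0 + 1) := by
      have : (0:ℝ) ≤ N0 := Nat.cast_nonneg _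
      nlinarith
    linarith
  · push Not at hN
    have h1 : rm a N ≤ ∑ n ∈ Finset.range N0, a n := by
      unfold rm
      rcases Nat.eq_zero_or_pos N with rfl | hN1
      · simpa using hs
      · have hN1' : (1:ℝ) ≤ N := by exact_mod_cast hN1
        rw [div_le_iff₀ (by linarith)]
        have h2 : ∑ n ∈ Finset.range N, a n ≤ ∑ n ∈ Finset.range N0, a n :=
          Finset.sum_le_sum_of_subset_of_nonneg (Finset.range_subset_range.mpr hN.le) (fun n _ _ => ha n)
        nlinarith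
    have : 0 ≤ c * (N0 + 1) := by positivity
    linarith

lemma B2.sq_bdd {e : ℕ → ℝ} (h : B2 e) : ∃ A : ℝ, 0 ≤ A ∧ ∀ N, rm (fun n => (e n)^2) N ≤ A := by
  obtain ⟨t, ht, N0, hN⟩ := h 1 one_pos
  obtain ⟨B, hB0, hB⟩ := Trig_bdd ht
  have h1 : ∀ N, N0 ≤ N → rm (fun n => (e n)^2) N ≤ 2 + 2 * B^2 := by
    intro N hN'
    have h2 : ∀ n, (e n)^2 ≤ 2 * (e n - t n)^2 + 2 * B^2 := by
      intro n
      have h3 := hB n
      rw [Complex.norm_real, Real.norm_eq_abs] at h3
      have h4 : (t n)^2 ≤ B^2 := by rw [← sq_abs]; exact pow_le_pow_left₀ (abs_nonneg _) h3 2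
      nlinarith [sq_nonneg (e n - t n - t n)]
    calc _ ≤ rm (fun n => 2 * (e n - t n)^2 + 2 * B^2) N := rm_mono h2 N
      _ = 2 * rm (fun n => (e n - t n)^2) N + rm (fun _ => 2 * B^2) N := by rw [rm_add, rm_mul]
      _ ≤ 2 * 1 + 2 * B^2 := by
          have := rm_const_le (c := 2 * B^2) (by positivity) N
          have := hN N hN'
          linarith
      _ = _ := by ring
  refine ⟨_, ?_, rm_le_of_bdd (fun n => sq_nonneg _) (by positivity) h1⟩
  have : 0 ≤ ∑ n ∈ Finset.range N0, (e n)^2 := Finset.sum_nonneg (fun n _ => sq_nonneg _)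
  positivity

/-- uniform integrability of the squares -/
lemma B2.unif {e : ℕ → ℝ} (h : B2 e) {η : ℝ} (hη : 0 < η) : ∃ K : ℝ, 1 ≤ K ∧ ∃ N0, ∀ N, N0 ≤ N →
    rm (fun n => if K < |e n| then (e n)^2 else 0) N ≤ η := by
  obtain ⟨t, ht, N0, hN⟩ := h (η/4) (by positivity)
  obtain ⟨B, hB0, hB⟩ := Trig_bdd ht
  refine ⟨2 * B + 1, by linarith, N0, ?_⟩
  intro N hN'
  have h2 : ∀ n, (if 2 * B + 1 < |e n| then (e n)^2 else 0) ≤ 4 * (e n - t n)^2 := by
    intro n
    split_ifs with hK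
    · have h3 := hB n
      rw [Complex.norm_real, Real.norm_eq_abs] at h3
      have h4 : |e n| ≤ 2 * |e n - t n| := by
        have := abs_sub_abs_le_abs_sub (e n) (t n)
        linarith
      calc (e n)^2 = |e n|^2 := (sq_abs _).symm
        _ ≤ (2 * |e n - t n|)^2 := pow_le_pow_left₀ (abs_nonneg _) h4 2
        _ = _ := by rw [mul_pow, sq_abs]; norm_num
    · positivity
  calc _ ≤ rm (fun n => 4 * (e n - t n)^2) N := rm_mono h2 N
    _ = 4 * rm (fun n => (e n - t n)^2) N := rm_mul _ _ _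
    _ ≤ _ := by have := hN N hN'; linarith

/-- empirical measures -/
noncomputable def emp (e : ℕ → ℝ) (k : ℕ) : Measure ℝ :=
  ((k + 1 : ℕ) : ENNReal)⁻¹ • ∑ n ∈ Finset.range (k+1), Measure.dirac (e n)

instance (e : ℕ → ℝ) (k : ℕ) : IsProbabilityMeasure (emp e k) := by
  constructor
  unfold emp
  simp only [Measure.smul_apply, Measure.coe_finsetSum, Finset.sum_apply, measure_univ, Finset.sum_const,
    Finset.card_range, nsmul_eq_mul, mul_one, smul_eq_mul]
  apply ENNReal.inv_mul_cancel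
  · simp
  · simp

lemma emp_integral {E : Type*} [NormedAddCommGroup E] [NormedSpace ℝ E] [CompleteSpace E] (e : ℕ → ℝ) (k : ℕ) (f : ℝ → E) (hf : StronglyMeasurable f) :
    ∫ x, f x ∂(emp e k) = ((k + 1 : ℕ) : ℝ)⁻¹ • ∑ n ∈ Finset.range (k+1), f (e n) := by
  unfold emp
  rw [integral_smul_measure, integral_finsetSum_measure]
  · congr 1
    · rw [ENNReal.toReal_inv, ENNReal.toReal_natCast]
    · apply Finset.sum_congr rfl
      intro n _
      rw [integral_dirac]
  · intro n _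
    exact integrable_dirac' hf (by simp)

lemma emp_charFun (e : ℕ → ℝ) (k : ℕ) (s : ℝ) : charFun (emp e k) s =
    cm (fun n => Complex.exp (((s * e n : ℝ) : ℂ) * Complex.I)) (k+1) := by
  rw [charFun_apply_real, emp_integral]
  · unfold cm
    rw [div_eq_inv_mul]
    rw [Complex.real_smul]
    push_cast
    rfl
  · exact Measurable.stronglyMeasurable (by fun_prop)

/-- the empirical measures as probability measures -/
noncomputable def empP (e : ℕ → ℝ) (k : ℕ) : ProbabilityMeasure ℝ := ⟨emp e k, inferInstance⟩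

lemma B2.weak {e : ℕ → ℝ} (h : B2 e) : ∃ μ : ProbabilityMeasure ℝ, Tendsto (empP e) atTop (𝓝 μ) := by
  choose L hL using h.exp_mean
  obtain ⟨A, hA0, hA⟩ := h.sq_bdd
  have hchar : ∀ s : ℝ, Tendsto (fun k => charFun (emp e k) s) atTop (𝓝 (L s)) := by
    intro s
    simp only [emp_charFun]
    exact (hL s).comp (tendsto_add_atTop_nat 1)
  have hL1 : ∀ s, ‖L s - 1‖ ≤ |s| * (A + 1) := by
    intro s
    refine mean_close (hL s) (hasMean_const 1) ⟨0, fun N _ => ?_⟩
    refine (norm_cm_sub_le _ _ N).trans ?_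
    have h1 : ∀ n, ‖Complex.exp (((s * e n : ℝ) : ℂ) * Complex.I) - 1‖ ≤ |s| * |e n| := by
      intro n
      rw [← abs_mul, mul_comm _ Complex.I]
      exact Real.norm_exp_I_mul_ofReal_sub_one_le
    have h2 : rm (fun n => |e n|) N ≤ A + 1 := by
      apply rm_abs_le (by linarith)
      have := hA N
      nlinarith
    calc _ ≤ rm (fun n => |s| * |e n|) N := rm_mono h1 N
      _ = |s| * rm (fun n => |e n|) N := rm_mul _ _ _
      _ ≤ _ := mul_le_mul_of_nonneg_left h2 (abs_nonneg s)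
  have hL0 : L 0 = 1 := by
    have := hL1 0
    simp only [abs_zero, zero_mul] at this
    have h2 := norm_le_zero_iff.mp this
    exact sub_eq_zero.mp h2
  have hcont : ContinuousAt L 0 := by
    unfold ContinuousAt
    rw [hL0, tendsto_iff_norm_sub_tendsto_zero]
    apply squeeze_zero (fun s => norm_nonneg _) hL1
    have : Tendsto (fun s : ℝ => |s| * (A + 1)) (𝓝 0) (𝓝 (|0| * (A+1))) := by
      apply Continuous.tendsto; fun_prop
    simpa using this
  have htight : IsTightMeasureSet (Set.range (emp e)) :=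
    isTightMeasureSet_of_tendsto_charFun hcont hchar
  have hcomp : IsCompact (closure (Set.range (empP e))) := by
    apply isCompact_closure_of_isTightMeasureSet
    convert htight using 1
    ext ν
    constructor
    · rintro ⟨ν', ⟨k, rfl⟩, rfl⟩
      exact ⟨k, rfl⟩
    · rintro ⟨k, rfl⟩
      exact ⟨empP e k, ⟨k, rfl⟩, rfl⟩
  let U : Ultrafilter ℕ := Ultrafilter.of atTop
  obtain ⟨μ, -, hμ⟩ := hcomp.ultrafilter_le_nhds (U.map (empP e))
    (by
      rw [Filter.le_principal_iff]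
      apply Filter.mem_of_superset (Filter.range_mem_map)
      exact subset_closure)
  refine ⟨μ, ?_⟩
  have hU : (U : Filter ℕ) ≤ atTop := Ultrafilter.of_le atTop
  have hμ' : Tendsto (empP e) (U : Filter ℕ) (𝓝 μ) := hμ
  apply ProbabilityMeasure.tendsto_of_tendsto_charFun
  intro s
  have h1 : Tendsto (fun k => charFun (empP e k : Measure ℝ) s) (U : Filter ℕ) (𝓝 (charFun (μ : Measure ℝ) s)) := by
    rw [ProbabilityMeasure.tendsto_iff_forall_integral_rclike_tendsto ℂ] at hμ'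
    simp_rw [charFun_eq_integral_innerProbChar]
    exact hμ' (BoundedContinuousFunction.innerProbChar s)
  have h2 : Tendsto (fun k => charFun (empP e k : Measure ℝ) s) (U : Filter ℕ) (𝓝 (L s)) := (hchar s).mono_left hU
  rw [tendsto_nhds_unique h1 h2]
  exact hchar s

end Pool.Agent.H383.AP
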