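import Mathlib
import Pool.Agent.H383.APDist

open Filter Topology MeasureTheory

namespace Pool.Agent.H383.AP

lemma emp_integral_rm (e : ℕ → ℝ) (k : ℕ) (f : ℝ → ℝ) (hf : Continuous f) :
    ∫ x, f x ∂(emp e k) = rm (fun n => f (e n)) (k+1) := by
  rw [emp_integral e k f hf.stronglyMeasurable]
  unfold rm
  rw [smul_eq_mul, div_eq_inv_mul]

lemma emp_lintegral (e : ℕ → ℝ) (k : ℕ) (f : ℝ → ℝ) (hf : Continuous f) (h0 : ∀ x, 0 ≤ f x) :
    ∫⁻ x, ENNReal.ofReal (f x) ∂(emp e k) = ENNReal.ofReal (rm (fun n => f (e n)) (k+1)) := by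
  rw [← emp_integral_rm e k f hf, ofReal_integral_eq_lintegral_ofReal]
  · unfold emp
    apply Integrable.smul_measure
    · rw [integrable_finsetSum_measure]
      intro n _
      exact integrable_dirac' hf.stronglyMeasurable (by simp)
    · simp
  · exact Eventually.of_forall h0

/-- limit theorem for `B²`-almost periodic sequences -/
theorem B2.limit {e : ℕ → ℝ} (h : B2 e) : ∃ μ : ProbabilityMeasure ℝ,
    Integrable (fun x : ℝ => x^2) (μ : Measure ℝ) ∧
    ∀ f : ℝ → ℝ, Continuous f → (∃ C, ∀ x, |f x| ≤ C * (1 + x^2)) →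
      Tendsto (rm (fun n => f (e n))) atTop (𝓝 (∫ x, f x ∂(μ : Measure ℝ))) := by
  obtain ⟨μ, hμ⟩ := h.weak
  obtain ⟨A, hA0, hA⟩ := h.sq_bdd
  -- bounded case
  have hbdd : ∀ g : ℝ → ℝ, Continuous g → (∃ B, ∀ x, |g x| ≤ B) →
      Tendsto (rm (fun n => g (e n))) atTop (𝓝 (∫ x, g x ∂(μ : Measure ℝ))) := by
    intro g hg hB
    obtain ⟨B, hB⟩ := hB
    rw [ProbabilityMeasure.tendsto_iff_forall_integral_tendsto] at hμ
    have h1 := hμ (BoundedContinuousFunction.ofNormedAddCommGroup g hg B hB)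
    rw [← tendsto_add_atTop_iff_nat 1]
    refine h1.congr ?_
    intro k
    exact emp_integral_rm e k g hg
  have hint2 : Integrable (fun x : ℝ => x^2) (μ : Measure ℝ) := by
    have h1 := lintegral_le_liminf_lintegral_of_forall_isOpen_measure_le_liminf_measure
      (μ := (μ : Measure ℝ)) (μs := fun k => emp e k) (f := fun x : ℝ => x^2) (by fun_prop) (fun x => sq_nonneg x)
      (fun G hG => ProbabilityMeasure.le_liminf_measure_open_of_tendsto hμ hG)
    have h2 : atTop.liminf (fun i ↦ ∫⁻ x, ENNReal.ofReal (x^2) ∂(emp e i)) ≤ ENNReal.ofReal A := by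
      refine (liminf_le_liminf (v := fun _ => ENNReal.ofReal A) (Eventually.of_forall ?_)).trans ?_
      · intro k
        rw [emp_lintegral e k (fun x => x^2) (by fun_prop) (fun x => sq_nonneg x)]
        exact ENNReal.ofReal_le_ofReal (hA (k+1))
      · rw [liminf_const]
    refine ⟨by fun_prop, ?_⟩
    rw [hasFiniteIntegral_iff_ofReal (Eventually.of_forall (fun x => sq_nonneg x))]
    exact (h1.trans h2).trans_lt ENNReal.ofReal_lt_top
  refine ⟨μ, hint2, ?_⟩
  intro f hf hC
  obtain ⟨C, hC⟩ := hC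
  have hC0 : 0 ≤ C := by
    have := hC 0
    have h2 := abs_nonneg (f 0)
    nlinarith
  have hintf : Integrable f (μ : Measure ℝ) := by
    apply Integrable.mono' ((integrable_const (1:ℝ)).add hint2 |>.const_mul C) hf.aestronglyMeasurable
    exact Eventually.of_forall (fun x => by
      rw [Real.norm_eq_abs]
      simpa using hC x)
  -- cutoffs
  set χ : ℕ → ℝ → ℝ := fun K x => max 0 (min 1 (2 - |x| / (K+1))) with hχ
  have hχc : ∀ K, Continuous (χ K) := by
    intro K
    simp only [hχ]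
    have : Continuous (fun x : ℝ => |x| / ((K:ℝ)+1)) := continuous_abs.div_const _
    fun_prop
  have hχ0 : ∀ K x, 0 ≤ χ K x := fun K x => le_max_left _ _
  have hχ1 : ∀ K x, χ K x ≤ 1 := fun K x => max_le (by norm_num) (min_le_left _ _)
  have hχeq : ∀ (K : ℕ) (x : ℝ), |x| ≤ K + 1 → χ K x = 1 := by
    intro K x hx
    have : |x| / ((K:ℝ)+1) ≤ 1 := by rw [div_le_one (by positivity)]; exact hx
    simp only [hχ]
    rw [min_eq_left (by linarith), max_eq_right (by norm_num)]
  have hχz : ∀ (K : ℕ) (x : ℝ), 2 * (K + 1) ≤ |x| → χ K x = 0 := by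
    intro K x hx
    have : 2 ≤ |x| / ((K:ℝ)+1) := by rw [le_div_iff₀ (by positivity)]; exact hx
    simp only [hχ]
    rw [max_eq_left]
    exact (min_le_right _ _).trans (by linarith)
  have hfK : ∀ K : ℕ, Tendsto (rm (fun n => f (e n) * χ K (e n))) atTop (𝓝 (∫ x, f x * χ K x ∂(μ : Measure ℝ))) := by
    intro K
    apply hbdd (fun x => f x * χ K x) (hf.mul (hχc K))
    refine ⟨C * (1 + (2 * (K + 1))^2), fun x => ?_⟩
    rw [abs_mul, abs_of_nonneg (hχ0 K x)]
    by_cases hx : 2 * ((K:ℝ) + 1) ≤ |x|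
    · rw [hχz K x hx, mul_zero]; positivity
    · push Not at hx
      have h1 : |f x| ≤ C * (1 + (2 * (K + 1))^2) := by
        refine (hC x).trans ?_
        apply mul_le_mul_of_nonneg_left _ hC0
        have : x^2 ≤ (2 * ((K:ℝ) + 1))^2 := by
          rw [← sq_abs x]; exact pow_le_pow_left₀ (abs_nonneg _) hx.le 2
        linarith
      have h2 := hχ1 K x
      have h3 := abs_nonneg (f x)
      nlinarith [hχ0 K x]
  have hDCT : Tendsto (fun K : ℕ => ∫ x, f x * χ K x ∂(μ : Measure ℝ)) atTop (𝓝 (∫ x, f x ∂(μ : Measure ℝ))) := by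
    apply tendsto_integral_of_dominated_convergence (fun x => |f x|)
    · intro K; exact (hf.mul (hχc K)).aestronglyMeasurable
    · exact hintf.abs
    · intro K
      refine Eventually.of_forall (fun x => ?_)
      rw [Real.norm_eq_abs, abs_mul, abs_of_nonneg (hχ0 K x)]
      exact mul_le_of_le_one_right (abs_nonneg _) (hχ1 K x)
    · refine Eventually.of_forall (fun x => ?_)
      apply tendsto_const_nhds.congr'
      obtain ⟨K0, hK0⟩ := exists_nat_ge |x|
      filter_upwards [eventually_ge_atTop K0] with K hK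
      have : (K0:ℝ) ≤ K := by exact_mod_cast hK
      rw [hχeq K x (by linarith), mul_one]
  rw [Metric.tendsto_atTop]
  intro ε hε
  obtain ⟨K1, hK1, N1, hN1⟩ := h.unif (η := ε / (8 * (C + 1))) (by positivity)
  rw [Metric.tendsto_atTop] at hDCT
  obtain ⟨K2, hK2⟩ := hDCT (ε/4) (by positivity)
  obtain ⟨K3, hK3⟩ := exists_nat_ge K1
  set K := max K2 K3 with hK
  have hKK1 : K1 ≤ (K:ℝ) + 1 := by
    have : (K3:ℝ) ≤ K := by exact_mod_cast le_max_right _ _
    linarith
  have hfK' := hfK K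
  rw [Metric.tendsto_atTop] at hfK'
  obtain ⟨N2, hN2⟩ := hfK' (ε/4) (by positivity)
  refine ⟨max N1 N2, ?_⟩
  intro N hN
  have a1 := hN1 N (by omega)
  have a2 := hN2 N (by omega)
  have a3 := hK2 K (le_max_left _ _)
  rw [Real.dist_eq] at a2 a3 ⊢
  have a4 : |rm (fun n => f (e n)) N - rm (fun n => f (e n) * χ K (e n)) N| ≤ ε/4 := by
    have e1 : rm (fun n => f (e n)) N - rm (fun n => f (e n) * χ K (e n)) N =
        rm (fun n => f (e n) - f (e n) * χ K (e n)) N := by
      unfold rm; rw [← sub_div, ← Finset.sum_sub_distrib]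
    have e2 : |rm (fun n => f (e n) - f (e n) * χ K (e n)) N| ≤ rm (fun n => |f (e n) - f (e n) * χ K (e n)|) N := by
      unfold rm
      rw [abs_div, Nat.abs_cast]
      apply div_le_div_of_nonneg_right _ (Nat.cast_nonneg N)
      exact Finset.abs_sum_le_sum_abs _ _
    have e3 : ∀ n, |f (e n) - f (e n) * χ K (e n)| ≤ (2 * C) * (if K1 < |e n| then (e n)^2 else 0) := by
      intro n
      by_cases hx : |e n| ≤ K + 1
      · rw [hχeq K _ hx, mul_one, sub_self, abs_zero]
        split_ifs <;> positivity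
      · push Not at hx
        have hx1 : K1 < |e n| := by linarith
        rw [if_pos hx1]
        have b1 : f (e n) - f (e n) * χ K (e n) = f (e n) * (1 - χ K (e n)) := by ring
        rw [b1, abs_mul, abs_of_nonneg (by linarith [hχ1 K (e n)] : 0 ≤ 1 - χ K (e n))]
        have b2 : |f (e n)| * (1 - χ K (e n)) ≤ |f (e n)| * 1 :=
          mul_le_mul_of_nonneg_left (by linarith [hχ0 K (e n)]) (abs_nonneg _)
        have b3 : 1 ≤ (e n)^2 := by
          rw [← sq_abs]
          have : 1 ≤ |e n| := by linarith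
          nlinarith
        have b4 := hC (e n)
        nlinarith
    rw [e1]
    refine e2.trans ((rm_mono e3 N).trans ?_)
    rw [rm_mul]
    calc 2 * C * rm (fun n => if K1 < |e n| then (e n)^2 else 0) N ≤ 2 * C * (ε / (8 * (C + 1))) :=
          mul_le_mul_of_nonneg_left a1 (by positivity)
      _ ≤ ε/4 := by
          rw [mul_div_assoc', div_le_div_iff₀ (by positivity) (by norm_num)]
          nlinarith
  have e5 : rm (fun n => f (e n)) N - ∫ x, f x ∂(μ : Measure ℝ) =
      (rm (fun n => f (e n)) N - rm (fun n => f (e n) * χ K (e n)) N) +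
      (rm (fun n => f (e n) * χ K (e n)) N - ∫ x, f x * χ K x ∂(μ : Measure ℝ)) +
      (∫ x, f x * χ K x ∂(μ : Measure ℝ) - ∫ x, f x ∂(μ : Measure ℝ)) := by ring
  rw [e5]
  calc _ ≤ |(rm (fun n => f (e n)) N - rm (fun n => f (e n) * χ K (e n)) N) +
      (rm (fun n => f (e n) * χ K (e n)) N - ∫ x, f x * χ K x ∂(μ : Measure ℝ))| +
      |(∫ x, f x * χ K x ∂(μ : Measure ℝ) - ∫ x, f x ∂(μ : Measure ℝ))| := abs_add_le _ _
    _ ≤ |(rm (fun n => f (e n)) N - rm (fun n => f (e n) * χ K (e n)) N)| +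
      |(rm (fun n => f (e n) * χ K (e n)) N - ∫ x, f x * χ K x ∂(μ : Measure ℝ))| +
      |(∫ x, f x * χ K x ∂(μ : Measure ℝ) - ∫ x, f x ∂(μ : Measure ℝ))| := by
        gcongr; exact abs_add_le _ _
    _ < ε := by linarith

end Pool.Agent.H383.AP
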