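import Mathlib

open Set Filter Topology

namespace Pool.Agent.H383.Gauss

lemma comb_fiber (T : Finset ℕ) {L W : ℝ} (hW : 0 ≤ W)
    (hT : ∀ x ∈ T, ∀ y ∈ T, (y:ℝ) - x ≤ L)
    (h3 : ∀ x1 ∈ T, ∀ x2 ∈ T, ∀ x3 ∈ T, x1 < x2 → x2 < x3 → (x3:ℝ) - x1 ≤ L →
      ((x2:ℝ) - x1) * (x3 - x2) ≤ W) : (T.card : ℝ) ≤ 2 + 2 * √W := by
  have hsW : 0 ≤ √W := Real.sqrt_nonneg W
  rcases T.eq_empty_or_nonempty with rfl | hne
  · simp; positivity
  · set m := T.min' hne with hm
    set M := T.max' hne with hM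
    set s := ⌊√W⌋₊ with hs
    have hsub : T ⊆ ({m, M} : Finset ℕ) ∪ (Finset.Ioc m (m + s) ∪ Finset.Ico (M - s) M) := by
      intro x hx
      by_cases hxm : x = m
      · simp [hxm]
      by_cases hxM : x = M
      · simp [hxM]
      have h1 : m < x := lt_of_le_of_ne (T.min'_le x hx) (Ne.symm hxm)
      have h2 : x < M := lt_of_le_of_ne (T.le_max' x hx) hxM
      have h4 := h3 m (T.min'_mem hne) x hx M (T.max'_mem hne) h1 h2 (hT _ (T.min'_mem hne) _ (T.max'_mem hne))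
      have h1' : (m:ℝ) < x := by exact_mod_cast h1
      have h2' : (x:ℝ) < M := by exact_mod_cast h2
      rw [Finset.mem_union, Finset.mem_union, Finset.mem_Ioc, Finset.mem_Ico]
      right
      rcases le_total ((x:ℝ) - m) ((M:ℝ) - x) with h | h
      · left
        refine ⟨h1, ?_⟩
        have h5 : (x:ℝ) - m ≤ √W := by
          apply Real.le_sqrt_of_sq_le
          nlinarith
        have h6 : ((x - m : ℕ) : ℝ) ≤ √W := by
          rw [Nat.cast_sub h1.le]; exact h5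
        have h7 : x - m ≤ s := Nat.le_floor h6
        omega
      · right
        refine ⟨?_, h2⟩
        have h5 : (M:ℝ) - x ≤ √W := by
          apply Real.le_sqrt_of_sq_le
          nlinarith
        have h6 : ((M - x : ℕ) : ℝ) ≤ √W := by
          rw [Nat.cast_sub h2.le]; exact h5
        have h7 : M - x ≤ s := Nat.le_floor h6
        omega
    have h1 := Finset.card_le_card hsub
    have h2 := Finset.card_union_le ({m, M} : Finset ℕ) (Finset.Ioc m (m + s) ∪ Finset.Ico (M - s) M)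
    have h3 := Finset.card_union_le (Finset.Ioc m (m + s)) (Finset.Ico (M - s) M)
    have h4 : ({m, M} : Finset ℕ).card ≤ 2 := Finset.card_le_two
    rw [Nat.card_Ioc, Nat.card_Ico] at h3
    have h5 : T.card ≤ 2 + 2 * s := by omega
    have h6 : (s:ℝ) ≤ √W := Nat.floor_le hsW
    have h7 : (T.card : ℝ) ≤ 2 + 2 * (s:ℝ) := by exact_mod_cast h5
    linarith

lemma comb (S : Finset ℕ) (a : ℕ) {H L W : ℝ} (hL : 0 < L) (hW : 0 ≤ W) (hH : 0 ≤ H)
    (hS : ∀ x ∈ S, (a:ℝ) ≤ x ∧ (x:ℝ) ≤ a + H)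
    (h3 : ∀ x1 ∈ S, ∀ x2 ∈ S, ∀ x3 ∈ S, x1 < x2 → x2 < x3 → (x3:ℝ) - x1 ≤ L →
      ((x2:ℝ) - x1) * (x3 - x2) ≤ W) : (S.card : ℝ) ≤ (H / L + 1) * (2 + 2 * √W) := by
  have hmaps : ∀ x ∈ S, (fun x : ℕ => ⌊((x:ℝ) - a) / L⌋₊) x ∈ Finset.range (⌊H / L⌋₊ + 1) := by
    intro x hx
    rw [Finset.mem_range, Nat.lt_succ_iff]
    apply Nat.floor_le_floor
    apply div_le_div_of_nonneg_right _ hL.le
    linarith [(hS x hx).2]
  rw [Finset.card_eq_sum_card_fiberwise hmaps]
  push_cast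
  calc ∑ c ∈ Finset.range (⌊H / L⌋₊ + 1), (((S.filter (fun x : ℕ => ⌊((x:ℝ) - a) / L⌋₊ = c)).card : ℕ) : ℝ)
      ≤ ∑ c ∈ Finset.range (⌊H / L⌋₊ + 1), (2 + 2 * √W) := by
        apply Finset.sum_le_sum
        intro c _
        apply comb_fiber (L := L) _ hW
        · intro x hx y hy
          rw [Finset.mem_filter] at hx hy
          have hx0 : 0 ≤ ((x:ℝ) - a) / L := div_nonneg (by linarith [(hS x hx.1).1]) hL.le
          have hy0 : 0 ≤ ((y:ℝ) - a) / L := div_nonneg (by linarith [(hS y hy.1).1]) hL.le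
          have h1 := Nat.floor_le hx0
          have h2 := Nat.lt_floor_add_one (((y:ℝ) - a) / L)
          rw [hx.2] at h1
          rw [hy.2] at h2
          have h4 : ((y:ℝ) - a) / L - ((x:ℝ) - a) / L ≤ 1 := by linarith
          rw [← sub_div, div_le_one hL] at h4
          linarith
        · intro x1 hx1 x2 hx2 x3 hx3
          rw [Finset.mem_filter] at hx1 hx2 hx3
          exact h3 x1 hx1.1 x2 hx2.1 x3 hx3.1
    _ = ((⌊H / L⌋₊ : ℝ) + 1) * (2 + 2 * √W) := by
        rw [Finset.sum_const, Finset.card_range, nsmul_eq_mul]; push_cast; ring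
    _ ≤ _ := by
        have h1 : (⌊H / L⌋₊ : ℝ) ≤ H / L := Nat.floor_le (by positivity)
        have h2 : 0 ≤ 2 + 2 * √W := by positivity
        nlinarith

/-- the second difference of the square root -/
lemma sqrt_det {x1 x2 x3 : ℝ} (h1 : 0 < x1) (h12 : x1 < x2) (h23 : x2 < x3) :
    (x2 - x1) * (√x3 - √x1) - (x3 - x1) * (√x2 - √x1) =
      -((x2 - x1) * (x3 - x1) * (x3 - x2) / ((√x1 + √x2) * (√x2 + √x3) * (√x1 + √x3))) := by
  have p1 : 0 < √x1 := Real.sqrt_pos.mpr h1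
  have p2 : 0 < √x2 := Real.sqrt_pos.mpr (by linarith)
  have p3 : 0 < √x3 := Real.sqrt_pos.mpr (by linarith)
  set a := √x1 with ha
  set b := √x2 with hb
  set c := √x3 with hc
  have e1 : x1 = a^2 := (Real.sq_sqrt h1.le).symm
  have e2 : x2 = b^2 := (Real.sq_sqrt (by linarith)).symm
  have e3 : x3 = c^2 := (Real.sq_sqrt (by linarith)).symm
  rw [e1, e2, e3]
  have : (a + b) ≠ 0 := by positivity
  have : (b + c) ≠ 0 := by positivity
  have : (a + c) ≠ 0 := by positivity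
  field_simp
  ring

open Classical in
/-- integer points near the curve `y = κ² + 2κ√x` over the block `q² ≤ x < (q+1)²` -/
theorem near_curve {κ θ : ℝ} (hκ : 0 < κ) (hθ : 0 < θ) {q : ℕ} (hq : 1 ≤ q) :
    (((Finset.Ico (q^2) ((q+1)^2)).filter (fun x : ℕ => ∃ y : ℤ, |κ^2 + 2 * κ * √(x:ℝ) - y| ≤ θ)).card : ℝ) ≤
      (2 * κ ^ (1/3:ℝ) + 16 * q * θ + 1) * (2 + 2 * √(16 * θ * (q+1)^3 / κ)) := by
  have hq' : (1:ℝ) ≤ q := by exact_mod_cast hq
  have hq0 : (0:ℝ) < q := by linarith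
  set r := κ ^ (1/3:ℝ) with hr
  have hr0 : 0 < r := by positivity
  have hr3 : r^3 = κ := by
    rw [hr, ← Real.rpow_natCast, ← Real.rpow_mul hκ.le]; norm_num
  set L := min (q / r) (1/(8*θ)) with hL
  have hL0 : 0 < L := by positivity
  set W := 16 * θ * (q+1)^3 / κ with hW
  have hW0 : 0 ≤ W := by positivity
  have hLq : L * r ≤ q := by
    have : L ≤ q / r := min_le_left _ _
    rwa [le_div_iff₀ hr0] at this
  have hLθ : 8 * θ * L ≤ 1 := by
    have : L ≤ 1/(8*θ) := min_le_right _ _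
    rw [le_div_iff₀ (by positivity)] at this
    linarith
  have hmain := comb ((Finset.Ico (q^2) ((q+1)^2)).filter (fun x : ℕ => ∃ y : ℤ, |κ^2 + 2 * κ * √(x:ℝ) - y| ≤ θ))
    (q^2) (H := 2 * q) (L := L) (W := W) hL0 hW0 (by positivity) ?_ ?_
  · refine hmain.trans ?_
    apply mul_le_mul_of_nonneg_right _ (by positivity)
    have : 2 * (q:ℝ) / L ≤ 2 * r + 16 * q * θ := by
      rw [div_le_iff₀ hL0]
      rcases min_choice ((q:ℝ) / r) (1/(8*θ)) with h | h
      · have e : L = q / r := by rw [hL, h]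
        have e2 : r * L = q := by rw [e]; field_simp
        have : 0 ≤ 16 * (q:ℝ) * θ * L := by positivity
        nlinarith
      · have e : L = 1/(8*θ) := by rw [hL, h]
        have e2 : 16 * θ * L = 2 := by rw [e]; field_simp; norm_num
        have : 0 ≤ 2 * r * L := by positivity
        nlinarith
    linarith
  · intro x hx
    rw [Finset.mem_filter, Finset.mem_Ico] at hx
    have h1 : ((q^2 : ℕ) : ℝ) ≤ x := by exact_mod_cast hx.1.1
    have h2 : x ≤ q^2 + 2*q := by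
      have h3 : (q+1)^2 = q^2 + 2*q + 1 := by ring
      have h4 := hx.1.2
      omega
    have h5 : (x:ℝ) ≤ ((q^2 + 2*q : ℕ) : ℝ) := by exact_mod_cast h2
    refine ⟨h1, ?_⟩
    push_cast at h5 ⊢
    linarith
  · intro x1 hx1 x2 hx2 x3 hx3 h12 h23 h13
    rw [Finset.mem_filter, Finset.mem_Ico] at hx1 hx2 hx3
    obtain ⟨⟨l1, u1⟩, y1, hy1⟩ := hx1
    obtain ⟨⟨l2, u2⟩, y2, hy2⟩ := hx2
    obtain ⟨⟨l3, u3⟩, y3, hy3⟩ := hx3
    have sb : ∀ x : ℕ, q^2 ≤ x → x < (q+1)^2 → (q:ℝ) ≤ √(x:ℝ) ∧ √(x:ℝ) ≤ q + 1 := by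
      intro x hl hu
      constructor
      · apply Real.le_sqrt_of_sq_le
        exact_mod_cast hl
      · rw [Real.sqrt_le_left (by positivity)]
        exact_mod_cast hu.le
    have s1 := sb x1 l1 u1
    have s2 := sb x2 l2 u2
    have s3 := sb x3 l3 u3
    have h12' : (x1:ℝ) < x2 := by exact_mod_cast h12
    have h23' : (x2:ℝ) < x3 := by exact_mod_cast h23
    have hx1pos : (0:ℝ) < x1 := by
      have : 1 ≤ x1 := le_trans (by nlinarith) l1
      exact_mod_cast this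
    have hdet := sqrt_det hx1pos h12' h23'
    set a := √(x1:ℝ)
    set b := √(x2:ℝ)
    set c := √(x3:ℝ)
    set u := (x2:ℝ) - x1 with hu
    set v := (x3:ℝ) - x2 with hv
    have hu0 : 0 < u := by linarith
    have hv0 : 0 < v := by linarith
    have huv : (x3:ℝ) - x1 = u + v := by rw [hu, hv]; ring
    rw [huv] at hdet h13
    set Den := (a + b) * (b + c) * (a + c) with hDen
    have hDen0 : 0 < Den := by
      have : 0 < a := by linarith [s1.1]
      have : 0 < b := by linarith [s2.1]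
      have : 0 < c := by linarith [s3.1]
      positivity
    have hDenlow : (2*(q:ℝ))^3 ≤ Den := by
      have e1 : 2*(q:ℝ) ≤ a + b := by linarith [s1.1, s2.1]
      have e2 : 2*(q:ℝ) ≤ b + c := by linarith [s3.1, s2.1]
      have e3 : 2*(q:ℝ) ≤ a + c := by linarith [s1.1, s3.1]
      calc (2*(q:ℝ))^3 = (2*q) * (2*q) * (2*q) := by ring
        _ ≤ (a + b) * (b + c) * (a + c) := by gcongr
    have hDenup : Den ≤ (2*((q:ℝ)+1))^3 := by
      have e1 : a + b ≤ 2*((q:ℝ)+1) := by linarith [s1.2, s2.2]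
      have e2 : b + c ≤ 2*((q:ℝ)+1) := by linarith [s3.2, s2.2]
      have e3 : a + c ≤ 2*((q:ℝ)+1) := by linarith [s1.2, s3.2]
      have : 0 < a := by linarith [s1.1]
      have : 0 < b := by linarith [s2.1]
      have : 0 < c := by linarith [s3.1]
      calc (a + b) * (b + c) * (a + c) ≤ (2*((q:ℝ)+1)) * (2*((q:ℝ)+1)) * (2*((q:ℝ)+1)) := by gcongr
        _ = _ := by ring
    -- the integer determinant
    set Dz : ℤ := ((x2:ℤ) - x1) * (y3 - y1) - ((x3:ℤ) - x1) * (y2 - y1) with hDz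
    have hDzr : (Dz:ℝ) = u * ((y3:ℝ) - y1) - (u + v) * ((y2:ℝ) - y1) := by
      rw [hDz]; push_cast; rw [← huv]
    set Q := u * (u + v) * v / Den with hQ
    have hQ0 : 0 < Q := by positivity
    -- difference
    have a1 := abs_le.mp hy1
    have a2 := abs_le.mp hy2
    have a3 := abs_le.mp hy3
    have hdiff : |(Dz:ℝ) - (-(2 * κ * Q))| ≤ 4 * θ * (u + v) := by
      have e : (Dz:ℝ) - (-(2 * κ * Q)) =
          u * ((y3 - (κ^2 + 2*κ*c)) - (y1 - (κ^2 + 2*κ*a))) -
          (u+v) * ((y2 - (κ^2 + 2*κ*b)) - (y1 - (κ^2 + 2*κ*a))) := by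
        rw [hDzr]
        linear_combination (2 * κ) * hdet
      rw [e]
      have b31 : |(y3 - (κ^2 + 2*κ*c)) - (y1 - (κ^2 + 2*κ*a))| ≤ 2 * θ := by
        rw [abs_le]; constructor <;> linarith
      have b21 : |(y2 - (κ^2 + 2*κ*b)) - (y1 - (κ^2 + 2*κ*a))| ≤ 2 * θ := by
        rw [abs_le]; constructor <;> linarith
      refine (abs_sub _ _).trans ?_
      rw [abs_mul, abs_mul, abs_of_pos hu0, abs_of_pos (by linarith : 0 < u + v)]
      have c1 : u * |(y3 - (κ^2 + 2*κ*c)) - (y1 - (κ^2 + 2*κ*a))| ≤ (u + v) * (2 * θ) :=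
        mul_le_mul (by linarith) b31 (abs_nonneg _) (by linarith)
      have c2 : (u + v) * |(y2 - (κ^2 + 2*κ*b)) - (y1 - (κ^2 + 2*κ*a))| ≤ (u + v) * (2 * θ) :=
        mul_le_mul_of_nonneg_left b21 (by linarith)
      linarith
    have hQup : 2 * κ * Q ≤ 1/16 := by
      have e1 : u * v ≤ (u+v)^2/4 := by nlinarith [sq_nonneg (u - v)]
      have e2 : u * (u+v) * v ≤ L^3/4 := by
        calc u * (u+v) * v = (u * v) * (u + v) := by ring
          _ ≤ ((u+v)^2/4) * (u+v) := by gcongr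
          _ = (u+v)^3/4 := by ring
          _ ≤ L^3/4 := by gcongr
      have e3 : Q ≤ (L^3/4) / (2*(q:ℝ))^3 := by
        rw [hQ]
        gcongr
      have e4 : κ * L^3 ≤ (q:ℝ)^3 := by
        rw [← hr3]
        calc r^3 * L^3 = (L * r)^3 := by ring
          _ ≤ (q:ℝ)^3 := by gcongr
      calc 2 * κ * Q ≤ 2 * κ * ((L^3/4) / (2*(q:ℝ))^3) := by gcongr
        _ = (κ * L^3) / (16 * q^3) := by field_simp; ring
        _ ≤ q^3 / (16 * q^3) := by gcongr
        _ = 1/16 := by field_simp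
    have hθL : 4 * θ * (u + v) ≤ 1/2 := by
      calc 4 * θ * (u+v) ≤ 4 * θ * L := by gcongr
        _ ≤ 1/2 := by linarith
    have hDz0 : Dz = 0 := by
      have h1 := abs_le.mp hdiff
      have hκQ : 0 < 2 * κ * Q := by positivity
      have h2 : (Dz:ℝ) < 1 := by linarith
      have h3 : (-1:ℝ) < Dz := by linarith
      have h4 : Dz < 1 := by exact_mod_cast h2
      have h5 : -1 < Dz := by exact_mod_cast h3
      omega
    rw [hDz0] at hdiff
    have hfin : 2 * κ * Q ≤ 4 * θ * (u + v) := by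
      have := (abs_le.mp hdiff).2
      push_cast at this
      linarith
    rw [hQ] at hfin
    have e5 : 2 * κ * (u * (u + v) * v / Den) = (2 * κ * (u * v) / Den) * (u + v) := by ring
    rw [e5] at hfin
    have huv0 : 0 < u + v := by linarith
    have e6 : 2 * κ * (u * v) / Den ≤ 4 * θ := le_of_mul_le_mul_right hfin huv0
    rw [div_le_iff₀ hDen0] at e6
    rw [hW, le_div_iff₀ hκ]
    have e7 : 4 * θ * Den ≤ 4 * θ * (2*((q:ℝ)+1))^3 := by gcongr
    have e8 : 4 * θ * (2*((q:ℝ)+1))^3 = 2 * (16 * θ * (q+1)^3) := by ring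
    have e9 : 2 * κ * (u * v) = 2 * (u * v * κ) := by ring
    linarith

end Pool.Agent.H383.Gauss
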