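import Mathlib

open Set

namespace Pool.Agent.H383.Gauss

open GaussianInt in
/-- elements of norm `n` -/
def A (n : ℕ) : Set GaussianInt := {z | z.norm = (n : ℤ)}

lemma norm_eq (z : GaussianInt) : z.norm = z.re^2 + z.im^2 := by
  rw [Zsqrtd.norm_def]; ring

lemma A_finite (n : ℕ) : (A n).Finite := by
  have h : ((Icc (-(n:ℤ)) n) ×ˢ (Icc (-(n:ℤ)) n)).Finite := (finite_Icc _ _).prod (finite_Icc _ _)
  have hinj : InjOn (fun z : GaussianInt => (z.re, z.im)) (A n) := by
    intro z _ w _ hzw
    simp only [Prod.mk.injEq] at hzw
    exact Zsqrtd.ext hzw.1 hzw.2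
  refine Finite.of_finite_image (h.subset ?_) hinj
  rintro _ ⟨z, hz, rfl⟩
  have hz' : z.re^2 + z.im^2 = n := by rw [← norm_eq]; exact hz
  have key : ∀ x : ℤ, x^2 ≤ n → -(n:ℤ) ≤ x ∧ x ≤ n := by
    intro x hx
    constructor <;> nlinarith [sq_nonneg (x+1), sq_nonneg (x-1), sq_nonneg x]
  simp only [mem_prod, mem_Icc]
  exact ⟨key _ (by nlinarith [sq_nonneg z.im]), key _ (by nlinarith [sq_nonneg z.re])⟩

lemma mem_A {n : ℕ} {z : GaussianInt} : z ∈ A n ↔ z.norm = (n:ℤ) := Iff.rfl

lemma dvd_star {a b : GaussianInt} (h : a ∣ b) : star a ∣ star b := by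
  obtain ⟨c, rfl⟩ := h
  rw [star_mul']
  exact dvd_mul_right _ _

lemma star_prime {a : GaussianInt} (h : Prime a) : Prime (star a) := by
  refine ⟨?_, ?_, ?_⟩
  · simpa using h.ne_zero
  · intro hu
    apply h.not_isUnit
    have := hu.star
    rwa [star_star] at this
  · intro b c hbc
    have h1 := dvd_star hbc
    rw [star_star, star_mul'] at h1
    rcases h.dvd_or_dvd h1 with h2 | h2
    · left; have := dvd_star h2; rwa [star_star] at this
    · right; have := dvd_star h2; rwa [star_star] at this

lemma mul_star_eq (z : GaussianInt) : z * star z = ((z.norm : ℤ) : GaussianInt) := by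
  rw [Zsqrtd.norm_eq_mul_conj]

/-- one step: the elements of norm `p^e m` -/
lemma step_odd {p m : ℕ} (hp : p.Prime) (hpm : ¬ p ∣ m) {π : GaussianInt} (hπ : Prime π)
    (hn : π.norm = p) (hco : ¬ π ∣ star π) (e : ℕ) {z : GaussianInt} (hz : z ∈ A (p^e * m))
    (hpz : ¬ (p : GaussianInt) ∣ z) : π^e ∣ z ∨ (star π)^e ∣ z := by
  have h1 : z * star z = ((p:GaussianInt)^e) * m := by
    rw [mul_star_eq, mem_A.mp hz]; push_cast; ring
  have hpp : (p : GaussianInt) = π * star π := by
    rw [mul_star_eq, hn]; push_cast; rfl
  have h2 : π^e ∣ z * star z := by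
    rw [h1, hpp, mul_pow, mul_assoc]; exact dvd_mul_right _ _
  have h3 : (star π)^e ∣ z * star z := by
    rw [h1, hpp, mul_pow, mul_comm (π^e), mul_assoc]; exact dvd_mul_right _ _
  by_cases hz1 : π ∣ z
  · left
    have hz2 : ¬ star π ∣ z := by
      intro hz2
      apply hpz
      obtain ⟨c, hc⟩ := hz2
      rw [hc] at hz1
      rcases hπ.dvd_or_dvd hz1 with h | h
      · exact absurd h hco
      · rw [hc, hpp, mul_comm π]
        exact mul_dvd_mul_left _ h
    have := (star_prime hπ).pow_dvd_of_dvd_mul_left e hz2 h3
    have h4 := dvd_star this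
    rw [star_pow, star_star, star_star] at h4
    exact h4
  · right
    have := hπ.pow_dvd_of_dvd_mul_left e hz1 h2
    have h4 := dvd_star this
    rw [star_pow, star_star] at h4
    exact h4

lemma norm_natCast' (p : ℕ) : ((p : GaussianInt)).norm = (p:ℤ)^2 := by
  rw [Zsqrtd.norm_natCast]; ring

lemma sub_p {p m : ℕ} (hp : p.Prime) (e : ℕ) {z : GaussianInt} (hz : z ∈ A (p^(e+2) * m))
    (hpz : (p : GaussianInt) ∣ z) : z ∈ (fun w => (p : GaussianInt) * w) '' A (p^e * m) := by
  obtain ⟨w, rfl⟩ := hpz
  refine ⟨w, ?_, rfl⟩
  rw [mem_A] at hz ⊢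
  rw [Zsqrtd.norm_mul, norm_natCast'] at hz
  have hp0 : (p:ℤ)^2 ≠ 0 := by have := hp.pos; positivity
  apply mul_left_cancel₀ hp0
  rw [hz]; push_cast; ring

lemma sub_pi {p m : ℕ} (hp : p.Prime) {π : GaussianInt} (hn : π.norm = p) (e : ℕ) {z : GaussianInt}
    (hz : z ∈ A (p^e * m)) (hpz : π^e ∣ z) : z ∈ (fun w => π^e * w) '' A m := by
  obtain ⟨w, rfl⟩ := hpz
  refine ⟨w, ?_, rfl⟩
  rw [mem_A] at hz ⊢
  rw [Zsqrtd.norm_mul] at hz
  have h1 : (π^e).norm = (p:ℤ)^e := by
    have := map_pow (Zsqrtd.normMonoidHom (d := -1)) π e
    simp only [Zsqrtd.normMonoidHom] at this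
    simpa [hn] using this
  rw [h1] at hz
  have hp0 : (p:ℤ)^e ≠ 0 := by have := hp.pos; positivity
  apply mul_left_cancel₀ hp0
  rw [hz]; push_cast; ring

lemma not_dvd_one {p m : ℕ} (hp : p.Prime) (hpm : ¬ p ∣ m) {z : GaussianInt} (hz : z ∈ A (p^1 * m)) :
    ¬ (p : GaussianInt) ∣ z := by
  rintro ⟨w, rfl⟩
  rw [mem_A, Zsqrtd.norm_mul, norm_natCast'] at hz
  have hp0 : (p:ℤ) ≠ 0 := by exact_mod_cast hp.ne_zero
  have h1 : (p:ℤ) * w.norm = m := by
    apply mul_left_cancel₀ hp0
    push_cast at hz
    linear_combination hz
  apply hpm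
  have : (p:ℤ) ∣ m := ⟨_, h1.symm⟩
  exact_mod_cast this

/-- bound for prime powers -/
lemma card_A_pow {p m : ℕ} (hp : p.Prime) (hpm : ¬ p ∣ m) (e : ℕ) :
    (A (p^e * m)).ncard ≤ (e+1) * (A m).ncard := by
  have : Fact p.Prime := ⟨hp⟩
  -- it suffices to bound the step
  suffices H : (A (p^1 * m)).ncard ≤ 2 * (A m).ncard ∧
      ∀ e, (A (p^(e+2) * m)).ncard ≤ (A (p^e * m)).ncard + 2 * (A m).ncard by
    induction e using Nat.strong_induction_on with
    | _ e ih =>
      match e with
      | 0 => simp
      | 1 => simpa using H.1
      | (e+2) =>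
        have h1 := H.2 e
        have h2 := ih e (by omega)
        calc _ ≤ _ := h1
          _ ≤ (e+1) * (A m).ncard + 2 * (A m).ncard := by omega
          _ = _ := by ring
  by_cases hirr : Irreducible (p : GaussianInt)
  · -- inert
    have hpr : Prime (p : GaussianInt) := hirr.prime
    have hall : ∀ e, 1 ≤ e → ∀ z ∈ A (p^e * m), (p : GaussianInt) ∣ z := by
      intro e he z hz
      have h1 : z * star z = ((p:GaussianInt)^e) * m := by
        rw [mul_star_eq, mem_A.mp hz]; push_cast; ring
      have h2 : (p : GaussianInt) ∣ z * star z := by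
        rw [h1]
        exact (dvd_pow_self _ (by omega)).mul_right _
      rcases hpr.dvd_or_dvd h2 with h | h
      · exact h
      · have := dvd_star h
        rw [star_star, star_natCast] at this
        exact this
    constructor
    · have : A (p^1 * m) = ∅ := by
        ext z
        simp only [mem_empty_iff_false, iff_false]
        intro hz
        exact not_dvd_one hp hpm hz (hall 1 le_rfl z hz)
      rw [this]; simp
    · intro e
      have hsub : A (p^(e+2) * m) ⊆ (fun w => (p : GaussianInt) * w) '' A (p^e * m) := by
        intro z hz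
        exact sub_p hp e hz (hall _ (by omega) z hz)
      have h1 := ncard_le_ncard hsub ((A_finite _).image _)
      have h2 := ncard_image_le (f := fun w => (p : GaussianInt) * w) (A_finite (p^e * m))
      omega
  · obtain ⟨a, b, hab⟩ := GaussianInt.sq_add_sq_of_nat_prime_of_not_irreducible p hirr
    set π : GaussianInt := ⟨a, b⟩ with hπdef
    have hn : π.norm = p := by
      rw [norm_eq, hπdef]
      show (a:ℤ)^2 + (b:ℤ)^2 = p
      exact_mod_cast hab
    have hπirr : Irreducible π := by
      refine ⟨?_, ?_⟩
      · intro hu
        have := Zsqrtd.norm_eq_one_iff.mpr hu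
        rw [hn] at this
        simp at this
        exact hp.one_lt.ne' this
      · intro x y hxy
        have h1 : x.norm.natAbs * y.norm.natAbs = p := by
          rw [← Int.natAbs_mul, ← Zsqrtd.norm_mul, ← hxy, hn]; simp
        rcases (Nat.dvd_prime hp).mp ⟨_, h1.symm⟩ with h | h
        · left; exact Zsqrtd.norm_eq_one_iff.mp h
        · right
          rw [h] at h1
          have : y.norm.natAbs = 1 := by
            have hp0 := hp.pos
            nlinarith
          exact Zsqrtd.norm_eq_one_iff.mp this
    have hπ : Prime π := hπirr.prime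
    have hns : (star π).norm = p := by rw [Zsqrtd.norm_conj, hn]
    rcases hp.eq_two_or_odd' with h2 | hodd
    · -- p = 2 : star π is associated to π
      have hdvd : star π ∣ π := by
        have ha : a = 1 := by
          have : a ≤ 1 := by nlinarith
          have : a ≠ 0 := by
            rintro rfl
            rw [h2] at hab
            have : b ≤ 1 := by nlinarith
            interval_cases b <;> simp at hab
          omega
        have hb : b = 1 := by
          have : b ≤ 1 := by nlinarith
          have : b ≠ 0 := by
            rintro rfl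
            rw [h2, ha] at hab; simp at hab
          omega
        refine ⟨⟨0, 1⟩, ?_⟩
        rw [hπdef, ha, hb]
        ext <;> simp
      have hdvd2 : ∀ z : GaussianInt, star π ∣ z → π ∣ z := by
        intro z hz
        have h3 := dvd_star hdvd
        rw [star_star] at h3
        exact h3.trans hz
      have hall : ∀ e z, z ∈ A (p^(e+1) * m) → z ∈ (fun w => π * w) '' A (p^e * m) := by
        intro e z hz
        have h1 : z * star z = ((p:GaussianInt)^(e+1)) * m := by
          rw [mul_star_eq, mem_A.mp hz]; push_cast; ring
        have hpp : (p : GaussianInt) = π * star π := by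
          rw [mul_star_eq, hn]; push_cast; rfl
        have h2 : π ∣ z * star z := by
          rw [h1, pow_succ, mul_assoc, hpp]
          apply Dvd.dvd.mul_left
          apply Dvd.dvd.mul_right
          exact dvd_mul_right _ _
        have h3 : π ∣ z := by
          rcases hπ.dvd_or_dvd h2 with h | h
          · exact h
          · have := dvd_star h
            rw [star_star] at this
            exact hdvd2 z this
        obtain ⟨w, rfl⟩ := h3
        refine ⟨w, ?_, rfl⟩
        rw [mem_A, Zsqrtd.norm_mul, hn] at hz
        rw [mem_A]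
        have hp0 : (p:ℤ) ≠ 0 := by exact_mod_cast hp.ne_zero
        apply mul_left_cancel₀ hp0
        rw [hz]; push_cast; ring
      have hc : ∀ e, (A (p^(e+1) * m)).ncard ≤ (A (p^e * m)).ncard := by
        intro e
        have h1 := ncard_le_ncard (fun z hz => hall e z hz) ((A_finite _).image (fun w => π * w))
        have h2 := ncard_image_le (f := fun w => π * w) (A_finite (p^e * m))
        omega
      constructor
      · have := hc 0
        simp only [pow_zero, one_mul, zero_add] at this
        omega
      · intro e
        have h1 := hc (e+1)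
        have h2 := hc e
        have : e + 1 + 1 = e + 2 := by ring
        rw [this] at h1
        omega
    · -- p odd
      have hco : ¬ π ∣ star π := by
        intro h
        have h1 : π ∣ ((2 * a : ℤ) : GaussianInt) := by
          have h2 : ((2 * a : ℤ) : GaussianInt) = π + star π := by
            rw [hπdef]
            ext
            · simp; ring
            · simp
          rw [h2]
          exact dvd_add dvd_rfl h
        have h2 : (p:ℤ) ∣ (2 * a) * (2 * a) := by
          obtain ⟨c, hc⟩ := h1
          have := congrArg Zsqrtd.norm hc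
          rw [Zsqrtd.norm_intCast, Zsqrtd.norm_mul, hn] at this
          exact ⟨_, this⟩
        have h3 : p ∣ (2 * a) * (2 * a) := by exact_mod_cast h2
        have h4 : p ∣ a := by
          rcases (Nat.Prime.dvd_mul hp).mp h3 with h | h <;>
          · rcases (Nat.Prime.dvd_mul hp).mp h with h' | h'
            · exfalso
              have := Nat.le_of_dvd (by norm_num) h'
              have h5 := hp.two_le
              have : p = 2 := by omega
              rw [this] at hodd
              exact absurd hodd (by decide)
            · exact h'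
        have h5 : a = 0 := by
          by_contra h0
          have h6 := Nat.le_of_dvd (Nat.pos_of_ne_zero h0) h4
          have h7 := hp.two_le
          nlinarith
        rw [h5] at hab
        have h8 : b * b = p := by nlinarith
        rcases (Nat.dvd_prime hp).mp ⟨b, h8.symm⟩ with h9 | h9
        · rw [h9] at h8
          have := hp.two_le
          omega
        · rw [h9] at h8
          have := hp.two_le
          nlinarith
      constructor
      · have hsub : A (p^1 * m) ⊆ ((fun w => π^1 * w) '' A m) ∪ ((fun w => (star π)^1 * w) '' A m) := by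
          intro z hz
          rcases step_odd hp hpm hπ hn hco 1 hz (not_dvd_one hp hpm hz) with h | h
          · left; exact sub_pi hp hn 1 hz h
          · right; exact sub_pi hp hns 1 hz h
        have h1 := ncard_le_ncard hsub (((A_finite _).image _).union ((A_finite _).image _))
        have h2 := ncard_image_le (f := fun w => π^1 * w) (A_finite m)
        have h3 := ncard_image_le (f := fun w => (star π)^1 * w) (A_finite m)
        have h4 := ncard_union_le ((fun w => π^1 * w) '' A m) ((fun w => (star π)^1 * w) '' A m)
        omega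
      · intro e
        have hsub : A (p^(e+2) * m) ⊆ ((fun w => (p : GaussianInt) * w) '' A (p^e * m)) ∪
            (((fun w => π^(e+2) * w) '' A m) ∪ ((fun w => (star π)^(e+2) * w) '' A m)) := by
          intro z hz
          by_cases hpz : (p : GaussianInt) ∣ z
          · left; exact sub_p hp e hz hpz
          · right
            rcases step_odd hp hpm hπ hn hco (e+2) hz hpz with h | h
            · left; exact sub_pi hp hn (e+2) hz h
            · right; exact sub_pi hp hns (e+2) hz h
        have h0 := ncard_le_ncard hsub (((A_finite _).image _).union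
          (((A_finite _).image _).union ((A_finite _).image _)))
        have h1 := ncard_image_le (f := fun w => (p : GaussianInt) * w) (A_finite (p^e * m))
        have h2 := ncard_image_le (f := fun w => π^(e+2) * w) (A_finite m)
        have h3 := ncard_image_le (f := fun w => (star π)^(e+2) * w) (A_finite m)
        have h4 := ncard_union_le ((fun w => π^(e+2) * w) '' A m) ((fun w => (star π)^(e+2) * w) '' A m)
        have h5 := ncard_union_le ((fun w => (p : GaussianInt) * w) '' A (p^e * m))
          (((fun w => π^(e+2) * w) '' A m) ∪ ((fun w => (star π)^(e+2) * w) '' A m))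
        omega

lemma card_A_one : (A 1).ncard ≤ 4 := by
  have : A 1 ⊆ (({⟨1,0⟩, ⟨-1,0⟩, ⟨0,1⟩, ⟨0,-1⟩} : Finset GaussianInt) : Set GaussianInt) := by
    intro z hz
    rw [mem_A, norm_eq, Nat.cast_one] at hz
    obtain ⟨x, y⟩ := z
    simp only at hz
    have hx : -1 ≤ x ∧ x ≤ 1 := by constructor <;> nlinarith [sq_nonneg y, sq_nonneg (x-1), sq_nonneg (x+1)]
    have hy : -1 ≤ y ∧ y ≤ 1 := by constructor <;> nlinarith [sq_nonneg x, sq_nonneg (y-1), sq_nonneg (y+1)]
    obtain ⟨hx1, hx2⟩ := hx
    obtain ⟨hy1, hy2⟩ := hy
    interval_cases x <;> interval_cases y <;> simp at hz ⊢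
  have h := ncard_le_ncard this (Finset.finite_toSet _)
  rw [ncard_coe_finset] at h
  exact h.trans (Finset.card_le_four)

theorem card_A_le (m : ℕ) (hm : 1 ≤ m) : (A m).ncard ≤ 4 * m.divisors.card := by
  induction m using Nat.strong_induction_on with
  | _ m ih =>
    rcases Nat.eq_or_lt_of_le hm with h1 | h1
    · rw [← h1]; simpa using card_A_one
    · set p := m.minFac with hp
      have hpp : p.Prime := Nat.minFac_prime (by omega)
      have hpm : p ∣ m := Nat.minFac_dvd m
      set e := m.factorization p with he
      set m' := m / p^e with hm'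
      have hdecomp : p^e * m' = m := Nat.ordProj_mul_ordCompl_eq_self m p
      have hnd : ¬ p ∣ m' := Nat.not_dvd_ordCompl hpp (by omega)
      have he1 : 1 ≤ e := by
        rw [he]; exact (hpp.dvd_iff_one_le_factorization (by omega)).mp hpm
      have hm'pos : 1 ≤ m' := by
        rcases Nat.eq_zero_or_pos m' with h | h
        · rw [h] at hdecomp; omega
        · exact h
      have hlt : m' < m := by
        rw [← hdecomp]
        have : 2 ≤ p^e := by
          calc 2 ≤ p := hpp.two_le
            _ = p^1 := (pow_one p).symm
            _ ≤ p^e := Nat.pow_le_pow_right hpp.pos he1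
        nlinarith
      have h2 := card_A_pow hpp hnd e
      have h3 := ih m' hlt hm'pos
      have hcop : Nat.Coprime (p^e) m' := Nat.Coprime.pow_left e ((Nat.Prime.coprime_iff_not_dvd hpp).mpr hnd)
      have h4 : m.divisors.card = (e+1) * m'.divisors.card := by
        conv_lhs => rw [← hdecomp]
        rw [Nat.Coprime.card_divisors_mul hcop, Nat.divisors_prime_pow hpp, Finset.card_map,
          Finset.card_range]
      rw [hdecomp] at h2
      rw [h4]
      calc _ ≤ _ := h2
        _ ≤ (e+1) * (4 * m'.divisors.card) := Nat.mul_le_mul_left _ h3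
        _ = _ := by ring

end Pool.Agent.H383.Gauss
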