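import Mathlib

open MeasureTheory Set Filter Topology

namespace Pool.Agent.H383.Gauss

/-- `J l = ∫_{-1}^1 2 √(1-x²) cos(2π l x) dx`, which is `J₁(2πl)/l` for the Bessel function `J₁`. -/
noncomputable def J (l : ℝ) : ℝ :=
  ∫ x in (-1:ℝ)..1, 2 * √(1 - x^2) * Real.cos (2 * Real.pi * l * x)

noncomputable def G (l : ℝ) (z : ℂ) : ℂ :=
  2 * (1 - z) ^ (1/2 : ℂ) * (1 + z) ^ (1/2 : ℂ) * Complex.exp (2 * Real.pi * l * Complex.I * z)

lemma norm_half (z : ℂ) : ‖z ^ (1/2 : ℂ)‖ = ‖z‖ ^ (1/2 : ℝ) := by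
  rcases eq_or_ne z 0 with rfl | hz
  · rw [Complex.zero_cpow (by norm_num)]
    simp
  · rw [Complex.norm_cpow_of_ne_zero hz]
    norm_num

lemma half_sq (z : ℂ) : (z ^ (1/2 : ℂ)) ^ 2 = z := by
  have := Complex.cpow_nat_inv_pow z (n := 2) (by norm_num)
  convert this using 3
  norm_num

lemma half_re_nonneg (z : ℂ) : 0 ≤ (z ^ (1/2 : ℂ)).re := by
  rcases eq_or_ne z 0 with rfl | hz
  · rw [Complex.zero_cpow (by norm_num)]; simp
  · rw [Complex.cpow_def_of_ne_zero hz, Complex.exp_re]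
    apply mul_nonneg (Real.exp_pos _).le
    apply Real.cos_nonneg_of_mem_Icc
    have h1 := Complex.neg_pi_lt_arg z
    have h2 := Complex.arg_le_pi z
    have : (Complex.log z * (1/2)).im = Complex.arg z / 2 := by
      rw [show (1/2:ℂ) = ((1/2:ℝ):ℂ) by push_cast; ring]
      rw [Complex.im_mul_ofReal, Complex.log_im]; ring
    rw [this]
    constructor <;> linarith

lemma half_neg_I_mul {y : ℝ} (hy : 0 < y) :
    ((y : ℂ) * (-Complex.I)) ^ (1/2 : ℂ) = (y ^ (1/2:ℝ) : ℝ) * Complex.exp (-(Real.pi/4) * Complex.I) := by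
  have hyc : (y : ℂ) ≠ 0 := by exact_mod_cast hy.ne'
  have hI : (-Complex.I) ≠ 0 := by simp
  rw [Complex.cpow_def_of_ne_zero (mul_ne_zero hyc hI), Complex.log_ofReal_mul hy hI,
    Complex.log_neg_I, add_mul, Complex.exp_add, Real.rpow_def_of_pos hy]
  push_cast
  congr 2
  ring

lemma G_cont (l : ℝ) {z : ℂ} (h1 : z.re ≤ 1) (h2 : -1 ≤ z.re) : ContinuousAt (G l) z := by
  have e1 : ContinuousAt (fun z : ℂ => (1 - z) ^ (1/2 : ℂ)) z := by
    apply ContinuousAt.comp (g := fun w : ℂ => w ^ (1/2:ℂ)) (f := fun z : ℂ => 1 - z)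
    · apply Complex.continuousAt_cpow_const_of_re_pos
      · left; simp; linarith
      · norm_num
    · fun_prop
  have e2 : ContinuousAt (fun z : ℂ => (1 + z) ^ (1/2 : ℂ)) z := by
    apply ContinuousAt.comp (g := fun w : ℂ => w ^ (1/2:ℂ)) (f := fun z : ℂ => 1 + z)
    · apply Complex.continuousAt_cpow_const_of_re_pos
      · left; simp; linarith
      · norm_num
    · fun_prop
  unfold G
  have e3 : ContinuousAt (fun z : ℂ => Complex.exp (2 * Real.pi * l * Complex.I * z)) z := by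
    fun_prop
  exact ((continuousAt_const.mul e1).mul e2).mul e3

lemma G_diff (l : ℝ) {z : ℂ} (h1 : z.re < 1) (h2 : -1 < z.re) : DifferentiableAt ℂ (G l) z := by
  have e1 : DifferentiableAt ℂ (fun z : ℂ => (1 - z) ^ (1/2 : ℂ)) z := by
    apply DifferentiableAt.cpow_const
    · fun_prop
    · left; simp; linarith
  have e2 : DifferentiableAt ℂ (fun z : ℂ => (1 + z) ^ (1/2 : ℂ)) z := by
    apply DifferentiableAt.cpow_const
    · fun_prop
    · left; simp; linarith
  unfold G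
  have e3 : DifferentiableAt ℂ (fun z : ℂ => Complex.exp (2 * Real.pi * l * Complex.I * z)) z := by
    fun_prop
  exact ((((differentiableAt_const _).mul e1).mul e2).mul e3)

lemma G_real (l : ℝ) {x : ℝ} (h1 : x ≤ 1) (h2 : -1 ≤ x) :
    (G l (x : ℂ)).re = 2 * √(1 - x^2) * Real.cos (2 * Real.pi * l * x) := by
  unfold G
  have e1 : (1 - (x:ℂ)) ^ (1/2 : ℂ) = ((√(1 - x) : ℝ) : ℂ) := by
    rw [Real.sqrt_eq_rpow, Complex.ofReal_cpow (by linarith)]
    push_cast; rfl
  have e2 : (1 + (x:ℂ)) ^ (1/2 : ℂ) = ((√(1 + x) : ℝ) : ℂ) := by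
    rw [Real.sqrt_eq_rpow, Complex.ofReal_cpow (by linarith)]
    push_cast; rfl
  rw [e1, e2]
  have e3 : √(1 - x^2) = √(1 - x) * √(1 + x) := by
    rw [← Real.sqrt_mul (by linarith)]; congr 1; ring
  have e4 : Complex.exp (2 * Real.pi * l * Complex.I * x) =
      Complex.exp (((2 * Real.pi * l * x : ℝ) : ℂ) * Complex.I) := by
    congr 1; push_cast; ring
  rw [e4, e3]
  have : (2:ℂ) * ((√(1 - x) : ℝ) : ℂ) * ((√(1 + x) : ℝ) : ℂ) *
      Complex.exp (((2 * Real.pi * l * x : ℝ) : ℂ) * Complex.I) =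
      ((2 * √(1 - x) * √(1 + x) : ℝ) : ℂ) * Complex.exp (((2 * Real.pi * l * x : ℝ) : ℂ) * Complex.I) := by
    push_cast; ring
  rw [this, Complex.re_ofReal_mul, Complex.exp_ofReal_mul_I_re]
  ring

/-- value on the right vertical side -/
lemma G_right (l : ℝ) {y : ℝ} (hy : 0 < y) :
    G l (1 + y * Complex.I) = (2 * y ^ (1/2:ℝ) * Real.exp (-(2 * Real.pi * l * y)) : ℝ) *
      (2 + y * Complex.I) ^ (1/2:ℂ) * Complex.exp ((2 * Real.pi * l - Real.pi/4 : ℝ) * Complex.I) := by
  unfold G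
  have e1 : (1 - (1 + (y:ℂ) * Complex.I)) = (y:ℂ) * (-Complex.I) := by ring
  have e2 : (1 + (1 + (y:ℂ) * Complex.I)) = 2 + y * Complex.I := by ring
  rw [e1, e2, half_neg_I_mul hy]
  have e3 : Complex.exp (2 * Real.pi * l * Complex.I * (1 + y * Complex.I)) =
      Complex.exp ((2 * Real.pi * l : ℝ) * Complex.I) * Complex.exp ((-(2 * Real.pi * l * y) : ℝ)) := by
    rw [← Complex.exp_add]
    congr 1
    push_cast
    linear_combination (2 * Real.pi * l * y) * Complex.I_mul_I
  have e4 : Complex.exp ((2 * Real.pi * l - Real.pi/4 : ℝ) * Complex.I) =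
      Complex.exp ((2 * Real.pi * l : ℝ) * Complex.I) * Complex.exp (-(Real.pi/4) * Complex.I) := by
    rw [← Complex.exp_add]; congr 1; push_cast; ring
  rw [e3, e4]
  push_cast
  ring

/-- value on the left vertical side is the conjugate -/
lemma G_left (l : ℝ) {y : ℝ} (hy : 0 < y) :
    G l (-1 + y * Complex.I) = (starRingEnd ℂ) (G l (1 + y * Complex.I)) := by
  unfold G
  simp only [map_mul]
  have hy' : (1 + (1 + (y:ℂ) * Complex.I)).arg ≠ Real.pi := by
    rw [Ne, Complex.arg_eq_pi_iff]; simp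
  have hy'' : (1 - (1 + (y:ℂ) * Complex.I)).arg ≠ Real.pi := by
    rw [Ne, Complex.arg_eq_pi_iff]; simp
  have c1 := Complex.conj_cpow (1 + (1 + (y:ℂ) * Complex.I)) (1/2) hy'
  have c2 := Complex.conj_cpow (1 - (1 + (y:ℂ) * Complex.I)) (1/2) hy''
  have h2 : (starRingEnd ℂ) (2:ℂ) = 2 := map_ofNat _ 2
  have hh : (starRingEnd ℂ) (1/2 : ℂ) = 1/2 := by rw [map_div₀, h2, map_one]
  rw [hh] at c1 c2
  rw [← c1, ← c2, ← Complex.exp_conj]
  have e1 : (starRingEnd ℂ) (1 + (1 + (y:ℂ) * Complex.I)) = 1 - (-1 + y * Complex.I) := by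
    simp only [map_add, map_one, map_mul, Complex.conj_ofReal, Complex.conj_I]; ring
  have e2 : (starRingEnd ℂ) (1 - (1 + (y:ℂ) * Complex.I)) = 1 + (-1 + y * Complex.I) := by
    simp
  have e3 : (starRingEnd ℂ) (2 * Real.pi * l * Complex.I * (1 + y * Complex.I)) =
      2 * Real.pi * l * Complex.I * (-1 + y * Complex.I) := by
    simp only [map_add, map_one, map_mul, Complex.conj_ofReal, Complex.conj_I, h2]; ring
  rw [e1, e2, e3, h2]
  ring

lemma s_bound {y : ℝ} (hy : 0 ≤ y) :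
    ‖(2 + (y:ℂ) * Complex.I) ^ (1/2:ℂ) - (√2 : ℝ)‖ ≤ y / √2 := by
  set s := (2 + (y:ℂ) * Complex.I) ^ (1/2:ℂ) with hs
  have h1 : s ^ 2 = 2 + y * Complex.I := half_sq _
  have h2 : 0 ≤ s.re := half_re_nonneg _
  have h3 : (s - (√2:ℝ)) * (s + (√2:ℝ)) = y * Complex.I := by
    have : ((√2:ℝ):ℂ) ^ 2 = 2 := by
      rw [← Complex.ofReal_pow, Real.sq_sqrt (by norm_num)]; norm_num
    linear_combination h1 - this
  have h4 : √2 ≤ ‖s + (√2:ℝ)‖ := by
    calc √2 ≤ (s + (√2:ℝ)).re := by simp; exact h2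
      _ ≤ _ := Complex.re_le_norm _
  have h5 : ‖s - (√2:ℝ)‖ * ‖s + (√2:ℝ)‖ = y := by
    rw [← norm_mul, h3]; simp [abs_of_nonneg hy]
  have h6 : 0 < √2 := by positivity
  rw [le_div_iff₀ h6, ← h5]
  exact mul_le_mul_of_nonneg_left h4 (norm_nonneg _)

/-- the main term on the right side -/
noncomputable def M0 (l y : ℝ) : ℂ :=
  (2 * y ^ (1/2:ℝ) * Real.exp (-(2 * Real.pi * l * y)) : ℝ) *
      (√2 : ℝ) * Complex.exp ((2 * Real.pi * l - Real.pi/4 : ℝ) * Complex.I)

lemma G_sub_M0 (l : ℝ) {y : ℝ} (hy : 0 < y) :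
    ‖G l (1 + y * Complex.I) - M0 l y‖ ≤ √2 * (y ^ (3/2:ℝ) * Real.exp (-(2 * Real.pi * l * y))) := by
  rw [G_right l hy, M0]
  rw [← sub_mul, ← mul_sub, norm_mul, norm_mul, Complex.norm_exp_ofReal_mul_I, mul_one,
    Complex.norm_real, Real.norm_of_nonneg (by positivity)]
  have h := s_bound hy.le
  calc _ ≤ 2 * y ^ (1/2:ℝ) * Real.exp (-(2 * Real.pi * l * y)) * (y / √2) := by gcongr
    _ = √2 * (y ^ (3/2:ℝ) * Real.exp (-(2 * Real.pi * l * y))) := by
      have e1 : y ^ (3/2:ℝ) = y ^ (1/2:ℝ) * y := by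
        rw [show (3/2:ℝ) = 1/2 + 1 by norm_num, Real.rpow_add hy, Real.rpow_one]
      have e2 : √2 * √2 = 2 := Real.mul_self_sqrt (by norm_num)
      rw [e1]
      field_simp
      linear_combination (-1) * e2

lemma int_aux {a l : ℝ} (ha : 0 < a) (hl : 0 < l) :
    IntegrableOn (fun y : ℝ => y ^ (a - 1) * Real.exp (-(2 * Real.pi * l * y))) (Ioi 0) := by
  have := integrableOn_rpow_mul_exp_neg_mul_rpow (p := 1) (s := a - 1) (b := 2 * Real.pi * l)
    (by linarith) (by norm_num) (by positivity)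
  refine this.congr_fun (fun y hy => ?_) measurableSet_Ioi
  simp only [Real.rpow_one]
  ring_nf

lemma M0_int {l : ℝ} (hl : 0 < l) : IntegrableOn (M0 l) (Ioi 0) := by
  have := (int_aux (a := 3/2) (by norm_num) hl)
  have h2 : IntegrableOn (fun y : ℝ => (((y ^ ((3/2:ℝ) - 1) * Real.exp (-(2 * Real.pi * l * y)) : ℝ) : ℂ)))
      (Ioi 0) := this.ofReal
  have h3 := h2.mul_const (2 * (√2 : ℝ) * Complex.exp ((2 * Real.pi * l - Real.pi/4 : ℝ) * Complex.I))
  refine IntegrableOn.congr_fun h3 (fun y hy => ?_) measurableSet_Ioi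
  simp only [M0]
  rw [show (3/2:ℝ) - 1 = 1/2 by norm_num]
  push_cast
  ring

lemma Gr_cont (l : ℝ) : Continuous (fun y : ℝ => G l (1 + y * Complex.I)) := by
  rw [continuous_iff_continuousAt]
  intro y
  apply ContinuousAt.comp (g := G l) (f := fun y : ℝ => (1 + y * Complex.I : ℂ))
  · apply G_cont <;> simp
  · fun_prop

lemma err_int {l : ℝ} (hl : 0 < l) :
    IntegrableOn (fun y : ℝ => G l (1 + y * Complex.I) - M0 l y) (Ioi 0) := by
  have h := (int_aux (a := 5/2) (by norm_num) hl).const_mul √2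
  refine Integrable.mono' h ?_ ?_
  · apply AEStronglyMeasurable.sub (Gr_cont l).aestronglyMeasurable (M0_int hl).aestronglyMeasurable
  · rw [ae_restrict_iff' measurableSet_Ioi]
    refine Eventually.of_forall (fun y hy => ?_)
    have := G_sub_M0 l (y := y) hy
    rw [show (5/2:ℝ) - 1 = 3/2 by norm_num]
    exact this

lemma Gr_int {l : ℝ} (hl : 0 < l) :
    IntegrableOn (fun y : ℝ => G l (1 + y * Complex.I)) (Ioi 0) := by
  have := (err_int hl).add (M0_int hl)
  refine IntegrableOn.congr_fun this (fun y hy => ?_) measurableSet_Ioi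
  simp

lemma int_M0 {l : ℝ} (hl : 0 < l) :
    ∫ y in Ioi 0, M0 l y = ((1 / (2 * Real.pi)) * l ^ (-(3/2):ℝ) : ℝ) *
      Complex.exp ((2 * Real.pi * l - Real.pi/4 : ℝ) * Complex.I) := by
  have h1 : ∫ y in Ioi (0:ℝ), M0 l y = ∫ y in Ioi (0:ℝ),
      (((y ^ ((3/2:ℝ) - 1) * Real.exp (-(2 * Real.pi * l * y)) : ℝ) : ℂ)) *
      (2 * (√2 : ℝ) * Complex.exp ((2 * Real.pi * l - Real.pi/4 : ℝ) * Complex.I)) := by
    apply setIntegral_congr_fun measurableSet_Ioi
    intro y hy
    simp only [M0]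
    rw [show (3/2:ℝ) - 1 = 1/2 by norm_num]
    push_cast
    ring
  rw [h1, integral_mul_const, integral_complex_ofReal,
    Real.integral_rpow_mul_exp_neg_mul_Ioi (by norm_num) (by positivity)]
  have hG : Real.Gamma (3/2) = √Real.pi / 2 := by
    have := Real.Gamma_nat_add_half 1
    norm_num at this
    rw [← this]
  rw [hG]
  have e : (1 / (2 * Real.pi * l)) ^ (3/2:ℝ) * (√Real.pi / 2) * (2 * √2) =
      (1 / (2 * Real.pi)) * l ^ (-(3/2):ℝ) := by
    have h3 : (1 / (2 * Real.pi * l)) ^ (3/2:ℝ) = (2 * Real.pi) ^ (-(3/2):ℝ) * l ^ (-(3/2):ℝ) := by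
      rw [one_div, Real.inv_rpow (by positivity), Real.mul_rpow (by positivity) hl.le, mul_inv,
        ← Real.rpow_neg (by positivity), ← Real.rpow_neg hl.le]
    have h4 : (2 * Real.pi) ^ (-(3/2):ℝ) = 1 / (2 * Real.pi * (√2 * √Real.pi)) := by
      rw [← Real.sqrt_mul (by norm_num), Real.sqrt_eq_rpow, Real.rpow_neg (by positivity), one_div]
      congr 1
      rw [show (3/2:ℝ) = 1 + 1/2 by norm_num, Real.rpow_add (by positivity), Real.rpow_one]
    rw [h3, h4]
    have hp : 0 < √Real.pi := by positivity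
    field_simp
  rw [← e]
  push_cast
  ring

lemma J_eq {l : ℝ} (hl : 0 < l) : J l = 2 * (∫ y in Ioi (0:ℝ), G l (1 + y * Complex.I)).im := by
  set A := ∫ y in Ioi (0:ℝ), G l (1 + y * Complex.I) with hA
  -- real part of the bottom integral
  have hbot : J l = (∫ x in (-1:ℝ)..1, G l (x:ℂ)).re := by
    have hc : ContinuousOn (fun x : ℝ => G l (x : ℂ)) (uIcc (-1) 1) := by
      intro x hx
      rw [uIcc_of_le (by norm_num)] at hx
      apply ContinuousAt.continuousWithinAt
      apply ContinuousAt.comp (g := G l) (f := fun x : ℝ => (x : ℂ))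
      · apply G_cont <;> simp [hx.1, hx.2]
      · fun_prop
    have hint : IntervalIntegrable (fun x : ℝ => G l (x : ℂ)) volume (-1) 1 := hc.intervalIntegrable
    have := (Complex.reCLM).intervalIntegral_comp_comm hint
    simp only [Complex.reCLM_apply] at this
    rw [← this, J]
    apply intervalIntegral.integral_congr
    intro x hx
    rw [uIcc_of_le (by norm_num)] at hx
    simp only
    rw [G_real l hx.2 hx.1]
  have hrect : ∀ T : ℝ, 0 < T → ∫ x in (-1:ℝ)..1, G l (x:ℂ) =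
      (∫ x in (-1:ℝ)..1, G l (x + T * Complex.I)) - Complex.I * (∫ y in (0:ℝ)..T, G l (1 + y * Complex.I))
      + Complex.I * (starRingEnd ℂ) (∫ y in (0:ℝ)..T, G l (1 + y * Complex.I)) := by
    intro T hT
    have := Complex.integral_boundary_rect_eq_zero_of_continuousOn_of_differentiableOn (G l)
      (-1 : ℂ) (1 + T * Complex.I) ?_ ?_
    · simp only [Complex.neg_re, Complex.one_re, Complex.neg_im, Complex.one_im, neg_zero,
        Complex.add_re, Complex.mul_re, Complex.ofReal_re, Complex.I_re, mul_zero, Complex.ofReal_im,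
        Complex.I_im, mul_one, sub_self, add_zero, Complex.add_im, Complex.mul_im, zero_add,
        Complex.ofReal_zero, zero_mul, smul_eq_mul, Complex.ofReal_one, Complex.ofReal_neg] at this
      have hleft : ∫ y in (0:ℝ)..T, G l (-1 + y * Complex.I) =
          (starRingEnd ℂ) (∫ y in (0:ℝ)..T, G l (1 + y * Complex.I)) := by
        rw [intervalIntegral.integral_of_le hT.le, intervalIntegral.integral_of_le hT.le,
          ← integral_conj]
        apply setIntegral_congr_fun measurableSet_Ioc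
        intro y hy
        exact G_left l hy.1
      rw [hleft] at this
      linear_combination this
    · intro z hz
      rw [Complex.mem_reProdIm] at hz
      simp at hz
      apply ContinuousAt.continuousWithinAt
      apply G_cont
      · exact hz.1.2
      · exact hz.1.1
    · intro z hz
      rw [Complex.mem_reProdIm] at hz
      simp at hz
      apply DifferentiableAt.differentiableWithinAt
      apply G_diff
      · exact hz.1.2
      · exact hz.1.1
  -- top tends to zero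
  have htop : Tendsto (fun T : ℝ => ∫ x in (-1:ℝ)..1, G l (x + T * Complex.I)) atTop (𝓝 0) := by
    have hb : ∀ T : ℝ, 0 < T → ‖∫ x in (-1:ℝ)..1, G l (x + T * Complex.I)‖ ≤
        4 * ((3 + T) * Real.exp (-(2 * Real.pi * l) * T)) := by
      intro T hT
      have := intervalIntegral.norm_integral_le_of_norm_le_const (a := -1) (b := 1)
        (f := fun x : ℝ => G l (x + T * Complex.I))
        (C := 2 * ((3 + T) * Real.exp (-(2 * Real.pi * l) * T))) ?_
      · refine this.trans (le_of_eq ?_)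
        norm_num; ring
      · intro x hx
        rw [uIoc_of_le (by norm_num)] at hx
        unfold G
        rw [norm_mul, norm_mul, norm_mul, norm_half, norm_half]
        have n1 : ‖1 - ((x:ℂ) + T * Complex.I)‖ ≤ 3 + T := by
          calc ‖1 - ((x:ℂ) + T * Complex.I)‖ = ‖((1 - x : ℝ) : ℂ) + (-T : ℝ) * Complex.I‖ := by
                congr 1; push_cast; ring
            _ ≤ ‖((1 - x : ℝ) : ℂ)‖ + ‖((-T : ℝ) : ℂ) * Complex.I‖ := norm_add_le _ _
            _ = |1 - x| + |T| := by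
                rw [norm_mul, Complex.norm_I, Complex.norm_real, Complex.norm_real]; simp
            _ ≤ 3 + T := by
                rw [abs_of_pos hT, abs_of_nonneg (by linarith [hx.2])]; linarith [hx.1]
        have n2 : ‖1 + ((x:ℂ) + T * Complex.I)‖ ≤ 3 + T := by
          calc ‖1 + ((x:ℂ) + T * Complex.I)‖ = ‖((1 + x : ℝ) : ℂ) + (T : ℝ) * Complex.I‖ := by
                congr 1; push_cast; ring
            _ ≤ ‖((1 + x : ℝ) : ℂ)‖ + ‖((T : ℝ) : ℂ) * Complex.I‖ := norm_add_le _ _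
            _ = |1 + x| + |T| := by
                rw [norm_mul, Complex.norm_I, Complex.norm_real, Complex.norm_real]; simp
            _ ≤ 3 + T := by
                rw [abs_of_pos hT, abs_of_nonneg (by linarith [hx.1])]; linarith [hx.2]
        have n3 : ‖Complex.exp (2 * Real.pi * l * Complex.I * ((x:ℂ) + T * Complex.I))‖ =
            Real.exp (-(2 * Real.pi * l) * T) := by
          rw [Complex.norm_exp]
          congr 1
          simp
        rw [n3]
        have p1 : ‖1 - ((x:ℂ) + T * Complex.I)‖ ^ (1/2:ℝ) ≤ (3 + T) ^ (1/2:ℝ) :=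
          Real.rpow_le_rpow (norm_nonneg _) n1 (by norm_num)
        have p2 : ‖1 + ((x:ℂ) + T * Complex.I)‖ ^ (1/2:ℝ) ≤ (3 + T) ^ (1/2:ℝ) :=
          Real.rpow_le_rpow (norm_nonneg _) n2 (by norm_num)
        have p3 : (3 + T) ^ (1/2:ℝ) * (3 + T) ^ (1/2:ℝ) = 3 + T := by
          rw [← Real.rpow_add (by linarith)]; norm_num
        have : ‖(2:ℂ)‖ = 2 := by norm_num
        rw [this]
        calc 2 * ‖1 - ((x:ℂ) + T * Complex.I)‖ ^ (1/2:ℝ) * ‖1 + ((x:ℂ) + T * Complex.I)‖ ^ (1/2:ℝ) *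
              Real.exp (-(2 * Real.pi * l) * T)
            ≤ 2 * (3 + T) ^ (1/2:ℝ) * (3 + T) ^ (1/2:ℝ) * Real.exp (-(2 * Real.pi * l) * T) := by
              gcongr
          _ = 2 * ((3 + T) * Real.exp (-(2 * Real.pi * l) * T)) := by
              rw [mul_assoc 2, p3]; ring
    have hlim : Tendsto (fun T : ℝ => 4 * ((3 + T) * Real.exp (-(2 * Real.pi * l) * T))) atTop (𝓝 0) := by
      have h1 := Real.tendsto_pow_mul_exp_neg_atTop_nhds_zero 1
      have hc : 0 < 2 * Real.pi * l := by positivity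
      have h2 : Tendsto (fun T : ℝ => 2 * Real.pi * l * T) atTop atTop :=
        tendsto_id.const_mul_atTop hc
      have h3 := h1.comp h2
      have h4 := (Real.tendsto_exp_neg_atTop_nhds_zero).comp h2
      have h5 := ((h4.const_mul 12).add (h3.const_mul (4 / (2 * Real.pi * l))))
      simp only [mul_zero, add_zero] at h5
      refine h5.congr (fun T => ?_)
      simp only [Function.comp, pow_one]
      field_simp
      ring
    rw [tendsto_zero_iff_norm_tendsto_zero]
    refine squeeze_zero' (Eventually.of_forall (fun T => norm_nonneg _)) ?_ hlim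
    filter_upwards [eventually_gt_atTop 0] with T hT using hb T hT
  have hA' : Tendsto (fun T : ℝ => ∫ y in (0:ℝ)..T, G l (1 + y * Complex.I)) atTop (𝓝 A) :=
    intervalIntegral_tendsto_integral_Ioi 0 (Gr_int hl) tendsto_id
  have hR : Tendsto (fun T : ℝ => (∫ x in (-1:ℝ)..1, G l (x + T * Complex.I))
      - Complex.I * (∫ y in (0:ℝ)..T, G l (1 + y * Complex.I))
      + Complex.I * (starRingEnd ℂ) (∫ y in (0:ℝ)..T, G l (1 + y * Complex.I))) atTop
      (𝓝 (0 - Complex.I * A + Complex.I * (starRingEnd ℂ) A)) := by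
    refine (htop.sub (hA'.const_mul _)).add (Tendsto.const_mul _ ?_)
    exact (Complex.continuous_conj.tendsto A).comp hA'
  have hfin : ∫ x in (-1:ℝ)..1, G l (x:ℂ) = 0 - Complex.I * A + Complex.I * (starRingEnd ℂ) A := by
    refine tendsto_nhds_unique (tendsto_const_nhds.congr' ?_) hR
    filter_upwards [eventually_gt_atTop 0] with T hT using hrect T hT
  rw [hbot, hfin]
  simp
  ring

theorem J_asymp {l : ℝ} (hl : 0 < l) :
    |J l - (1 / Real.pi) * l ^ (-(3/2):ℝ) * Real.sin (2 * Real.pi * l - Real.pi/4)| ≤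
      (3 / (8 * Real.pi ^ 2)) * l ^ (-(5/2):ℝ) := by
  have h1 : ∫ y in Ioi (0:ℝ), G l (1 + y * Complex.I) =
      (∫ y in Ioi (0:ℝ), (G l (1 + y * Complex.I) - M0 l y)) + ∫ y in Ioi (0:ℝ), M0 l y := by
    rw [← integral_add (err_int hl) (M0_int hl)]
    apply setIntegral_congr_fun measurableSet_Ioi
    intro y hy; simp
  have h2 : ‖∫ y in Ioi (0:ℝ), (G l (1 + y * Complex.I) - M0 l y)‖ ≤
      √2 * ((1 / (2 * Real.pi * l)) ^ (5/2:ℝ) * Real.Gamma (5/2)) := by
    rw [← Real.integral_rpow_mul_exp_neg_mul_Ioi (by norm_num) (by positivity), ← integral_const_mul]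
    apply norm_integral_le_of_norm_le
    · exact (int_aux (a := 5/2) (by norm_num) hl).const_mul √2
    · rw [ae_restrict_iff' measurableSet_Ioi]
      refine Eventually.of_forall (fun y hy => ?_)
      have := G_sub_M0 l (y := y) hy
      rw [show (5/2:ℝ) - 1 = 3/2 by norm_num]
      exact this
  rw [J_eq hl, h1, int_M0 hl]
  set E := ∫ y in Ioi (0:ℝ), (G l (1 + y * Complex.I) - M0 l y)
  have h3 : 2 * (E + ((1 / (2 * Real.pi)) * l ^ (-(3/2):ℝ) : ℝ) *
      Complex.exp ((2 * Real.pi * l - Real.pi/4 : ℝ) * Complex.I)).im -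
      (1 / Real.pi) * l ^ (-(3/2):ℝ) * Real.sin (2 * Real.pi * l - Real.pi/4) = 2 * E.im := by
    rw [Complex.add_im, Complex.im_ofReal_mul, Complex.exp_ofReal_mul_I_im]
    field_simp
    ring
  rw [h3, abs_mul, abs_of_pos (by norm_num : (0:ℝ) < 2)]
  have hG : Real.Gamma (5/2) = 3 * √Real.pi / 4 := by
    have := Real.Gamma_nat_add_half 2
    norm_num [Nat.doubleFactorial] at this
    rw [← this]
  have h4 : (1 / (2 * Real.pi * l)) ^ (5/2:ℝ) = (2 * Real.pi) ^ (-(5/2):ℝ) * l ^ (-(5/2):ℝ) := by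
    rw [one_div, Real.inv_rpow (by positivity), Real.mul_rpow (by positivity) hl.le, mul_inv,
      ← Real.rpow_neg (by positivity), ← Real.rpow_neg hl.le]
  have h5 : (2 * Real.pi) ^ (-(5/2):ℝ) = 1 / ((2 * Real.pi)^2 * (√2 * √Real.pi)) := by
    rw [← Real.sqrt_mul (by norm_num), Real.sqrt_eq_rpow, Real.rpow_neg (by positivity), one_div]
    congr 1
    rw [show (5/2:ℝ) = 2 + 1/2 by norm_num, Real.rpow_add (by positivity)]
    norm_num
  have h6 : √2 * ((1 / (2 * Real.pi * l)) ^ (5/2:ℝ) * Real.Gamma (5/2)) =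
      (3 / (16 * Real.pi ^ 2)) * l ^ (-(5/2):ℝ) := by
    rw [h4, h5, hG]
    have hp : 0 < √Real.pi := by positivity
    field_simp
    ring
  rw [h6] at h2
  have h7 := (Complex.abs_im_le_norm E).trans h2
  calc 2 * |E.im| ≤ 2 * ((3 / (16 * Real.pi ^ 2)) * l ^ (-(5/2):ℝ)) := by linarith
    _ = _ := by ring

end Pool.Agent.H383.Gauss
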