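import Mathlib
import Pool.Agent.H383.Bessel
import Pool.Agent.H383.Poisson2

open MeasureTheory Set Filter Topology
open scoped FourierTransform RealInnerProductSpace Convolution

namespace Pool.Agent.H383.Gauss

/-- indicator of the closed disc of radius `R` -/
noncomputable def D (R : ℝ) : ℂ → ℂ := (Metric.closedBall (0:ℂ) R).indicator (fun _ => 1)

lemma D_one {R : ℝ} {z : ℂ} (h : ‖z‖ ≤ R) : D R z = 1 := by
  unfold D; rw [indicator_of_mem]; simpa using h

lemma D_zero {R : ℝ} {z : ℂ} (h : R < ‖z‖) : D R z = 0 := by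
  unfold D; rw [indicator_of_notMem]; simpa using h

lemma D_int (R : ℝ) : Integrable (D R) := by
  unfold D
  rw [integrable_indicator_iff Metric.isClosed_closedBall.measurableSet]
  exact integrableOn_const (by exact (isCompact_closedBall (0:ℂ) R).measure_lt_top.ne) (by simp)

lemma J_zero : J 0 = Real.pi := by
  unfold J
  simp only [mul_zero, zero_mul, Real.cos_zero, mul_one]
  rw [intervalIntegral.integral_const_mul, integral_sqrt_one_sub_sq]
  ring

lemma J_even (l : ℝ) : J (-l) = J l := by
  unfold J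
  apply intervalIntegral.integral_congr
  intro x _
  simp only
  rw [show 2 * Real.pi * -l * x = -(2 * Real.pi * l * x) by ring, Real.cos_neg]

lemma J_cont_aux (l : ℝ) : Continuous (fun x : ℝ => 2 * √(1 - x^2) * Real.cos (2 * Real.pi * l * x)) := by
  fun_prop

lemma abs_J_le (l : ℝ) : |J l| ≤ Real.pi := by
  rw [← J_zero]
  unfold J
  have := intervalIntegral.abs_integral_le_integral_abs (a := -1) (b := 1) (μ := volume)
    (f := fun x : ℝ => 2 * √(1 - x^2) * Real.cos (2 * Real.pi * l * x)) (by norm_num)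
  refine this.trans ?_
  apply intervalIntegral.integral_mono_on (by norm_num)
  · exact ((J_cont_aux l).abs).intervalIntegrable _ _
  · exact (J_cont_aux 0).intervalIntegrable _ _
  · intro x _
    simp only [mul_zero, zero_mul, Real.cos_zero, mul_one]
    rw [abs_mul, abs_of_nonneg (by positivity : 0 ≤ 2 * √(1 - x^2))]
    have := Real.abs_cos_le_one (2 * Real.pi * l * x)
    have h2 : 0 ≤ 2 * √(1 - x^2) := by positivity
    nlinarith

lemma slice_int {R : ℝ} (hR : 0 ≤ R) (x : ℝ) :
    ∫ y : ℝ, D R ((x:ℂ) + (y:ℂ) * Complex.I) = ((2 * √(R^2 - x^2) : ℝ) : ℂ) := by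
  have hn : ∀ y : ℝ, ‖(x:ℂ) + (y:ℂ) * Complex.I‖ = √(x^2 + y^2) := by
    intro y
    rw [Complex.norm_add_mul_I]
  have hiff : ∀ y : ℝ, ‖(x:ℂ) + (y:ℂ) * Complex.I‖ ≤ R ↔ x^2 + y^2 ≤ R^2 := by
    intro y
    rw [hn, Real.sqrt_le_left hR]
  by_cases h : 0 ≤ R^2 - x^2
  · have e : (fun y : ℝ => D R ((x:ℂ) + (y:ℂ) * Complex.I)) =
        (Icc (-√(R^2 - x^2)) (√(R^2 - x^2))).indicator (fun _ => (1:ℂ)) := by
      funext y
      by_cases hy : y ∈ Icc (-√(R^2 - x^2)) (√(R^2 - x^2))
      · rw [indicator_of_mem hy]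
        apply D_one
        rw [hiff]
        rw [mem_Icc, ← abs_le] at hy
        have := (Real.le_sqrt (abs_nonneg y) h).mp hy
        rw [sq_abs] at this
        linarith
      · rw [indicator_of_notMem hy]
        apply D_zero
        by_contra hcon
        apply hy
        rw [not_lt, hiff] at hcon
        rw [mem_Icc, ← abs_le]
        apply Real.abs_le_sqrt
        linarith
    rw [e, integral_indicator measurableSet_Icc]
    simp only [integral_const, MeasurableSet.univ, measureReal_restrict_apply, univ_inter, Real.volume_real_Icc]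
    have h0 := Real.sqrt_nonneg (R^2-x^2)
    rw [max_eq_left (by linarith)]
    simp
    ring
  · have e : (fun y : ℝ => D R ((x:ℂ) + (y:ℂ) * Complex.I)) = fun _ => 0 := by
      funext y
      apply D_zero
      by_contra hcon
      rw [not_lt, hiff] at hcon
      apply h
      nlinarith [sq_nonneg y]
    rw [e]
    rw [Real.sqrt_eq_zero_of_nonpos (by linarith)]
    simp

lemma int_J_complex (l : ℝ) :
    ∫ u : ℝ, Complex.exp (((-(2 * Real.pi * l * u) : ℝ) : ℂ) * Complex.I) * ((2 * √(1 - u^2) : ℝ) : ℂ)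
      = ((J l : ℝ) : ℂ) := by
  set g : ℝ → ℂ := fun u => Complex.exp (((-(2 * Real.pi * l * u) : ℝ) : ℂ) * Complex.I) *
    ((2 * √(1 - u^2) : ℝ) : ℂ) with hg
  have hz : ∀ u, u ∉ Ioc (-1:ℝ) 1 → g u = 0 := by
    intro u hu
    have : 1 - u^2 ≤ 0 := by
      rw [mem_Ioc, not_and_or, not_lt, not_le] at hu
      rcases hu with h | h <;> nlinarith
    simp only [hg]
    rw [Real.sqrt_eq_zero_of_nonpos this]
    simp
  have h1 : ∫ u, g u = ∫ u in (-1:ℝ)..1, g u := by
    rw [intervalIntegral.integral_of_le (by norm_num)]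
    rw [setIntegral_eq_integral_of_forall_compl_eq_zero (fun x hx => hz x hx)]
  have hcont : Continuous g := by
    simp only [hg]
    have : Continuous (fun u : ℝ => ((2 * √(1 - u^2) : ℝ) : ℂ)) := by
      exact Complex.continuous_ofReal.comp (by fun_prop)
    have h2 : Continuous (fun u : ℝ => Complex.exp (((-(2 * Real.pi * l * u) : ℝ) : ℂ) * Complex.I)) := by
      fun_prop
    exact h2.mul this
  have hre : (∫ u in (-1:ℝ)..1, g u).re = J l := by
    have := (Complex.reCLM).intervalIntegral_comp_comm (hcont.intervalIntegrable (μ := volume) (-1) 1)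
    simp only [Complex.reCLM_apply] at this
    rw [← this, J]
    apply intervalIntegral.integral_congr
    intro x _
    simp only [hg]
    rw [Complex.re_mul_ofReal, Complex.exp_ofReal_mul_I_re, Real.cos_neg]
    ring
  have him : (∫ u in (-1:ℝ)..1, g u).im = 0 := by
    have := (Complex.imCLM).intervalIntegral_comp_comm (hcont.intervalIntegrable (μ := volume) (-1) 1)
    simp only [Complex.imCLM_apply] at this
    rw [← this]
    have hodd : ∀ x, (g (-x)).im = -(g x).im := by
      intro x
      simp only [hg]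
      rw [Complex.im_mul_ofReal, Complex.exp_ofReal_mul_I_im, Complex.im_mul_ofReal,
        Complex.exp_ofReal_mul_I_im]
      rw [show -(2 * Real.pi * l * -x) = -(-(2 * Real.pi * l * x)) by ring, Real.sin_neg]
      rw [neg_sq]
      ring
    have h3 := intervalIntegral.integral_comp_neg (a := -1) (b := 1) (fun x => (g x).im)
    simp only [neg_neg, hodd] at h3
    rw [intervalIntegral.integral_neg] at h3
    linarith
  rw [h1]
  apply Complex.ext
  · rw [hre]; simp
  · rw [him]; simp

lemma four_D_real {R : ℝ} (hR : 0 < R) (t : ℝ) :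
    𝓕 (D R) (t:ℂ) = ((R^2 * J (R * t) : ℝ) : ℂ) := by
  rw [Real.fourier_eq, int_complex_eq]
  have e1 : ∀ p : ℝ × ℝ, Real.fourierChar (-⟪((p.1:ℂ) + (p.2:ℂ) * Complex.I),
      (t:ℂ)⟫) • D R ((p.1:ℂ) + (p.2:ℂ) * Complex.I) =
      Real.fourierChar (-(p.1 * t)) • D R ((p.1:ℂ) + (p.2:ℂ) * Complex.I) := by
    intro p
    have := inner_re_im p.1 p.2 t 0
    simp only [Complex.ofReal_zero, zero_mul, add_zero, mul_zero] at this
    rw [this]
  simp_rw [e1]
  have hI : Integrable (fun p : ℝ × ℝ => Real.fourierChar (-(p.1 * t)) •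
      D R ((p.1:ℂ) + (p.2:ℂ) * Complex.I)) (volume.prod volume) := by
    have h1 : Integrable (fun p : ℝ × ℝ => D R ((p.1:ℂ) + (p.2:ℂ) * Complex.I)) := by
      have := (Complex.volume_preserving_equiv_real_prod.symm).integrable_comp_emb
        (Complex.measurableEquivRealProd.symm.measurableEmbedding) (g := D R)
      have h3 := this.mpr (D_int R)
      have e : (D R ∘ ⇑Complex.measurableEquivRealProd.symm) =
          (fun p : ℝ × ℝ => D R ((p.1:ℂ) + (p.2:ℂ) * Complex.I)) := by
        funext p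
        show D R (Complex.measurableEquivRealProd.symm p) = _
        rw [symm_eq]
      rwa [e] at h3
    have h2 : Continuous (fun p : ℝ × ℝ => (Real.fourierChar (-(p.1 * t)) : ℂ)) := by
      have := Real.continuous_fourierChar
      exact (continuous_subtype_val.comp (this.comp
        (by fun_prop : Continuous (fun p : ℝ × ℝ => (-(p.1 * t))))))
    refine Integrable.mono h1 ?_ ?_
    · simp only [Circle.smul_def]
      exact h2.aestronglyMeasurable.smul h1.aestronglyMeasurable
    · refine Eventually.of_forall (fun p => ?_)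
      rw [Circle.norm_smul]
  rw [Measure.volume_eq_prod, integral_prod _ hI]
  have e2 : ∀ x : ℝ, ∫ y : ℝ, Real.fourierChar (-(x * t)) • D R ((x:ℂ) + (y:ℂ) * Complex.I) =
      Complex.exp (((-(2 * Real.pi * t * x) : ℝ) : ℂ) * Complex.I) * ((2 * √(R^2 - x^2) : ℝ) : ℂ) := by
    intro x
    simp only [Circle.smul_def]
    rw [integral_smul, slice_int hR.le, Real.fourierChar_apply, smul_eq_mul]
    congr 2
    push_cast; ring
  simp_rw [e2]
  have h3 := Measure.integral_comp_mul_left (fun x : ℝ =>
    Complex.exp (((-(2 * Real.pi * t * x) : ℝ) : ℂ) * Complex.I) * ((2 * √(R^2 - x^2) : ℝ) : ℂ)) R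
  have h4 : ∀ u : ℝ, Complex.exp (((-(2 * Real.pi * t * (R * u)) : ℝ) : ℂ) * Complex.I) *
      ((2 * √(R^2 - (R * u)^2) : ℝ) : ℂ) = (R:ℂ) * (Complex.exp (((-(2 * Real.pi * (R * t) * u) : ℝ) : ℂ) * Complex.I) *
      ((2 * √(1 - u^2) : ℝ) : ℂ)) := by
    intro u
    have : √(R^2 - (R*u)^2) = R * √(1 - u^2) := by
      rw [show R^2 - (R*u)^2 = R^2 * (1 - u^2) by ring, Real.sqrt_mul (by positivity),
        Real.sqrt_sq hR.le]
    rw [this, show 2 * Real.pi * t * (R * u) = 2 * Real.pi * (R * t) * u by ring]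
    push_cast; ring
  simp_rw [h4] at h3
  rw [integral_const_mul, int_J_complex, abs_of_pos (inv_pos.mpr hR)] at h3
  have hRc : (R:ℂ) ≠ 0 := by exact_mod_cast hR.ne'
  have h5 : ∫ x : ℝ, Complex.exp (((-(2 * Real.pi * t * x) : ℝ) : ℂ) * Complex.I) *
      ((2 * √(R^2 - x^2) : ℝ) : ℂ) = (R:ℂ) * ((R:ℂ) * ((J (R*t) : ℝ) : ℂ)) := by
    rw [h3]
    simp only [Complex.real_smul]
    push_cast
    rw [← mul_assoc, mul_inv_cancel₀ hRc, one_mul]
  rw [h5]
  push_cast; ring

lemma four_D {R : ℝ} (hR : 0 < R) (ξ : ℂ) :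
    𝓕 (D R) ξ = ((R^2 * J (R * ‖ξ‖) : ℝ) : ℂ) := by
  set u : Circle := Circle.exp (Complex.arg ξ) with hu
  have h1 : (rotation u) ((‖ξ‖ : ℝ) : ℂ) = ξ := by
    rw [rotation_apply, hu, Circle.coe_exp]
    rw [mul_comm]
    exact Complex.norm_mul_exp_arg_mul_I ξ
  have hun : ∀ z, ‖(rotation u) z‖ = ‖z‖ := fun z => (rotation u).norm_map z
  have h2 : (D R ∘ (rotation u)) = D R := by
    funext z
    simp only [Function.comp]
    by_cases hz : ‖z‖ ≤ R
    · rw [D_one hz, D_one (by rw [hun]; exact hz)]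
    · rw [not_le] at hz
      rw [D_zero hz, D_zero (by rw [hun]; exact hz)]
  have h3 := Real.fourier_comp_linearIsometry (rotation u) (D R) ((‖ξ‖ : ℝ) : ℂ)
  rw [h1, h2, four_D_real hR] at h3
  exact h3.symm

/-- the smoothed indicator (not normalised) -/
noncomputable def fs (R δ : ℝ) : ℂ → ℂ := D R ⋆[ContinuousLinearMap.mul ℂ ℂ] D δ

lemma fs_apply (R δ : ℝ) (z : ℂ) : fs R δ z = ∫ t, D R t * D δ (z - t) := rfl

lemma four_fs {R δ : ℝ} (hR : 0 < R) (hδ : 0 < δ) (ξ : ℂ) :
    𝓕 (fs R δ) ξ = ((R^2 * J (R * ‖ξ‖) * (δ^2 * J (δ * ‖ξ‖)) : ℝ) : ℂ) := by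
  unfold fs
  rw [Real.fourier_mul_convolution_eq (D_int R) (D_int δ), four_D hR, four_D hδ]
  push_cast; ring

lemma D_meas (R : ℝ) : Measurable (D R) := by
  unfold D
  exact measurable_const.indicator Metric.isClosed_closedBall.measurableSet

lemma norm_D_le (R : ℝ) (z : ℂ) : ‖D R z‖ ≤ 1 := by
  unfold D
  by_cases h : z ∈ Metric.closedBall (0:ℂ) R
  · rw [indicator_of_mem h]; simp
  · rw [indicator_of_notMem h]; simp

lemma fs_cont (R δ : ℝ) : Continuous (fs R δ) := by
  rw [continuous_iff_continuousAt]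
  intro z
  have e : fs R δ = fun z => ∫ t, D R t * D δ (z - t) := by funext z; rfl
  rw [e]
  apply continuousAt_of_dominated (bound := fun t => ‖D R t‖)
  · refine Eventually.of_forall (fun w => ?_)
    apply Measurable.aestronglyMeasurable
    exact (D_meas R).mul ((D_meas δ).comp (by fun_prop))
  · refine Eventually.of_forall (fun w => Eventually.of_forall (fun t => ?_))
    rw [norm_mul]
    have := norm_D_le δ (w - t)
    nlinarith [norm_nonneg (D R t), norm_nonneg (D δ (w - t))]
  · exact (D_int R).norm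
  · have hsph : (volume : Measure ℂ) (Metric.sphere z δ) = 0 := Measure.addHaar_sphere volume z δ
    have : ∀ᵐ t : ℂ, t ∉ Metric.sphere z δ := by
      rw [ae_iff]; simp only [not_not]; exact hsph
    filter_upwards [this] with t ht
    apply ContinuousAt.mul continuousAt_const
    have hne : ‖z - t‖ ≠ δ := by
      intro h
      apply ht
      rw [mem_sphere_iff_norm, ← h, norm_sub_rev]
    have hcont : ContinuousAt (fun w : ℂ => ‖w - t‖) z := by fun_prop
    rcases lt_or_gt_of_ne hne with h | h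
    · apply ContinuousAt.congr (f := fun _ => (1:ℂ)) continuousAt_const
      have := hcont.eventually_lt continuousAt_const h
      filter_upwards [this] with w hw
      rw [D_one hw.le]
    · apply ContinuousAt.congr (f := fun _ => (0:ℂ)) continuousAt_const
      have := continuousAt_const.eventually_lt hcont h
      filter_upwards [this] with w hw
      rw [D_zero hw]

lemma fs_zero {R δ : ℝ} {z : ℂ} (h : R + δ < ‖z‖) : fs R δ z = 0 := by
  rw [fs_apply]
  rw [integral_eq_zero_of_ae]
  refine Eventually.of_forall (fun t => ?_)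
  simp only [Pi.zero_apply, mul_eq_zero]
  by_cases ht : ‖t‖ ≤ R
  · right
    apply D_zero
    have := norm_sub_norm_le z t
    linarith
  · left
    exact D_zero (not_le.mp ht)

lemma int_D {δ : ℝ} (hδ : 0 < δ) (z : ℂ) : ∫ t, D δ (z - t) = ((Real.pi * δ^2 : ℝ) : ℂ) := by
  rw [integral_sub_left_eq_self (fun t => D δ t) volume z]
  unfold D
  rw [integral_indicator Metric.isClosed_closedBall.measurableSet]
  simp only [integral_const, MeasurableSet.univ, measureReal_restrict_apply, univ_inter]
  rw [measureReal_def, Complex.volume_closedBall]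
  simp
  rw [ENNReal.toReal_ofReal hδ.le]
  ring

lemma fs_one {R δ : ℝ} (hδ : 0 < δ) {z : ℂ} (h : ‖z‖ ≤ R - δ) :
    fs R δ z = ((Real.pi * δ^2 : ℝ) : ℂ) := by
  rw [fs_apply, ← int_D hδ z]
  apply integral_congr_ae
  refine Eventually.of_forall (fun t => ?_)
  simp only
  by_cases ht : ‖z - t‖ ≤ δ
  · rw [D_one (R := R)]
    · rw [one_mul]
    · have := norm_sub_norm_le t z
      rw [norm_sub_rev] at this
      linarith
  · rw [D_zero (not_le.mp ht)]; simp

lemma fs_real {R δ : ℝ} (hδ : 0 < δ) (z : ℂ) :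
    0 ≤ (fs R δ z).re ∧ (fs R δ z).re ≤ Real.pi * δ^2 := by
  have hint : Integrable (fun t => D R t * D δ (z - t)) := by
    refine Integrable.mono' (D_int R).norm ?_ ?_
    · apply Measurable.aestronglyMeasurable
      exact (D_meas R).mul ((D_meas δ).comp (by fun_prop))
    · refine Eventually.of_forall (fun t => ?_)
      rw [norm_mul]
      have := norm_D_le δ (z - t)
      nlinarith [norm_nonneg (D R t), norm_nonneg (D δ (z - t))]
  have hint2 : Integrable (fun t => D δ (z - t)) := by
    exact (D_int δ).comp_sub_left z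
  have hDre : ∀ (R : ℝ) (z : ℂ), 0 ≤ (D R z).re ∧ (D R z).re ≤ 1 ∧ (D R z).im = 0 := by
    intro R z
    unfold D
    by_cases h : z ∈ Metric.closedBall (0:ℂ) R
    · rw [indicator_of_mem h]; simp
    · rw [indicator_of_notMem h]; simp
  have e1 : (fs R δ z).re = ∫ t, (D R t * D δ (z - t)).re := by
    rw [fs_apply]
    have := (Complex.reCLM).integral_comp_comm hint
    simp only [Complex.reCLM_apply] at this
    exact this.symm
  have e2 : Real.pi * δ^2 = ∫ t, (D δ (z - t)).re := by
    have := (Complex.reCLM).integral_comp_comm hint2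
    simp only [Complex.reCLM_apply] at this
    rw [this, int_D hδ z, Complex.ofReal_re]
  constructor
  · rw [e1]
    apply integral_nonneg
    intro t
    simp only [Pi.zero_apply, Complex.mul_re]
    obtain ⟨a1, a2, a3⟩ := hDre R t
    obtain ⟨b1, b2, b3⟩ := hDre δ (z - t)
    rw [a3]
    simp
    positivity
  · rw [e1, e2]
    apply integral_mono
    · exact hint.re
    · exact hint2.re
    · intro t
      simp only [Complex.mul_re]
      obtain ⟨a1, a2, a3⟩ := hDre R t
      obtain ⟨b1, b2, b3⟩ := hDre δ (z - t)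
      rw [a3]
      simp
      nlinarith

end Pool.Agent.H383.Gauss
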