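import Mathlib
import Pool.Agent.H383.Disc

open MeasureTheory Set Filter Topology
open scoped FourierTransform RealInnerProductSpace Convolution

namespace Pool.Agent.H383.Gauss

/-- Euclidean norm of a lattice point -/
noncomputable def nz (p : ℤ × ℤ) : ℝ := √((p.1:ℝ)^2 + (p.2:ℝ)^2)

/-- number of lattice points in the closed disc of radius `R` -/
noncomputable def F (R : ℝ) : ℝ := (Nat.card {p : ℤ × ℤ // (p.1 : ℝ) ^ 2 + (p.2 : ℝ) ^ 2 ≤ R ^ 2} : ℝ)

lemma nz_norm (p : ℤ × ℤ) : ‖((p.1:ℝ):ℂ) + ((p.2:ℝ):ℂ) * Complex.I‖ = nz p := by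
  rw [Complex.norm_add_mul_I, nz]

lemma nz_nonneg (p : ℤ × ℤ) : 0 ≤ nz p := Real.sqrt_nonneg _

lemma nz_ge_one {p : ℤ × ℤ} (hp : p ≠ 0) : 1 ≤ nz p := by
  unfold nz
  rw [Real.one_le_sqrt]
  have : 1 ≤ p.1^2 + p.2^2 := by
    by_contra h
    push Not at h
    have h1 : p.1 = 0 := by nlinarith [sq_nonneg p.1, sq_nonneg p.2, sq_abs p.1, Int.one_le_abs (z := p.1)]
    have h2 : p.2 = 0 := by
      by_contra h3
      have := Int.one_le_abs h3
      nlinarith [sq_nonneg p.1, sq_abs p.2]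
    exact hp (Prod.ext h1 h2)
  exact_mod_cast this

lemma nz_zero : nz 0 = 0 := by simp [nz]

lemma abs_J_le_rpow {l : ℝ} (hl : 0 < l) : |J l| ≤ (1/2) * l ^ (-(3/2):ℝ) := by
  have hpi := Real.pi_gt_three
  rcases le_or_gt l (1/4) with h | h
  · refine (abs_J_le l).trans ?_
    have h1 : (1/4:ℝ) ^ (-(3/2):ℝ) ≤ l ^ (-(3/2):ℝ) :=
      Real.rpow_le_rpow_of_nonpos hl h (by norm_num)
    have h2 : (1/4:ℝ) ^ (-(3/2):ℝ) = 8 := by
      rw [show (1/4:ℝ) = (2:ℝ) ^ (-2:ℝ) by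
        rw [Real.rpow_neg (by norm_num)]; norm_num]
      rw [← Real.rpow_mul (by norm_num)]
      norm_num
    rw [h2] at h1
    have := Real.pi_lt_d2
    linarith
  · have h1 := J_asymp hl
    have h2 : |(1 / Real.pi) * l ^ (-(3/2):ℝ) * Real.sin (2 * Real.pi * l - Real.pi/4)| ≤
        (1 / Real.pi) * l ^ (-(3/2):ℝ) := by
      rw [abs_mul, abs_of_nonneg (by positivity : 0 ≤ (1 / Real.pi) * l ^ (-(3/2):ℝ))]
      have := Real.abs_sin_le_one (2 * Real.pi * l - Real.pi/4)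
      have h3 : 0 ≤ (1 / Real.pi) * l ^ (-(3/2):ℝ) := by positivity
      nlinarith
    have h3 : l ^ (-(5/2):ℝ) ≤ 4 * l ^ (-(3/2):ℝ) := by
      rw [show (-(5/2):ℝ) = -(3/2) + (-1) by norm_num, Real.rpow_add hl, Real.rpow_neg_one, mul_comm]
      apply mul_le_mul_of_nonneg_right _ (by positivity)
      rw [inv_le_comm₀ hl (by norm_num)]
      linarith
    have h4 : |J l| ≤ |J l - (1 / Real.pi) * l ^ (-(3/2):ℝ) * Real.sin (2 * Real.pi * l - Real.pi/4)| +
        |(1 / Real.pi) * l ^ (-(3/2):ℝ) * Real.sin (2 * Real.pi * l - Real.pi/4)| := by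
      have := abs_add_le (J l - (1 / Real.pi) * l ^ (-(3/2):ℝ) * Real.sin (2 * Real.pi * l - Real.pi/4))
        ((1 / Real.pi) * l ^ (-(3/2):ℝ) * Real.sin (2 * Real.pi * l - Real.pi/4))
      simpa using this
    have h5 : (3 / (8 * Real.pi ^ 2)) * l ^ (-(5/2):ℝ) ≤ (3 / (8 * Real.pi ^ 2)) * (4 * l ^ (-(3/2):ℝ)) := by
      gcongr
    have h6 : (3 / (8 * Real.pi ^ 2)) * 4 ≤ 1/6 := by
      rw [div_mul_eq_mul_div, div_le_div_iff₀ (by positivity) (by norm_num)]
      nlinarith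
    have h7 : 1 / Real.pi ≤ 1/3 := by
      apply one_div_le_one_div_of_le (by norm_num) hpi.le
    have h8 : 0 ≤ l ^ (-(3/2):ℝ) := by positivity
    nlinarith

lemma summable_a {s : ℝ} (hs : 1 < s) :
    Summable (fun n : ℤ => |(n:ℝ)| ^ (-s) + if n = 0 then 1 else 0) := by
  apply (Real.summable_abs_int_rpow hs).add
  apply summable_of_ne_finset_zero (s := {0})
  intro b hb
  simp at hb
  simp [hb]

/-- summability of inverse powers of the norm over the lattice -/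
lemma summable_nz {s : ℝ} (hs : 2 < s) :
    Summable (fun p : ℤ × ℤ => if p = 0 then 0 else nz p ^ (-s)) := by
  have h1 := summable_a (s := s/2) (by linarith)
  have h2 := h1.mul_of_nonneg h1 (by
      intro n; simp only [Pi.zero_apply]; positivity) (by
      intro n; simp only [Pi.zero_apply]; positivity)
  refine Summable.of_nonneg_of_le ?_ ?_ h2
  · intro p
    split_ifs
    · exact le_rfl
    · have := nz_nonneg p; positivity
  · intro p
    obtain ⟨a, b⟩ := p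
    by_cases hp : (a, b) = 0
    · rw [if_pos hp]
      positivity
    · rw [if_neg hp]
      simp only
      have hge := nz_ge_one hp
      have hnz : nz (a, b) ^ (-s) = ((a:ℝ)^2 + (b:ℝ)^2) ^ (-(s/2)) := by
        unfold nz
        rw [Real.sqrt_eq_rpow, ← Real.rpow_mul (by positivity)]
        congr 1; ring
      rw [hnz]
      by_cases ha : a = 0
      · by_cases hb : b = 0
        · exact absurd (by rw [ha, hb]; rfl) hp
        · rw [ha, if_pos rfl, if_neg hb]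
          have hb1 : (1:ℝ) ≤ |(b:ℝ)| := by exact_mod_cast Int.one_le_abs hb
          have e : ((0:ℤ):ℝ)^2 + (b:ℝ)^2 = |(b:ℝ)|^2 := by simp
          rw [e, add_zero]
          have h3 : |((0:ℤ):ℝ)| ^ (-(s/2)) + 1 = 1 := by
            simp only [Int.cast_zero, abs_zero]
            rw [Real.zero_rpow (by linarith)]; simp
          rw [h3, one_mul]
          apply Real.rpow_le_rpow_of_nonpos (by positivity) _ (by linarith)
          nlinarith
      · by_cases hb : b = 0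
        · rw [hb, if_pos rfl, if_neg ha]
          have hb1 : (1:ℝ) ≤ |(a:ℝ)| := by exact_mod_cast Int.one_le_abs ha
          have e : (a:ℝ)^2 + ((0:ℤ):ℝ)^2 = |(a:ℝ)|^2 := by simp
          rw [e, add_zero]
          have h3 : |((0:ℤ):ℝ)| ^ (-(s/2)) + 1 = 1 := by
            simp only [Int.cast_zero, abs_zero]
            rw [Real.zero_rpow (by linarith)]; simp
          rw [h3, mul_one]
          apply Real.rpow_le_rpow_of_nonpos (by positivity) _ (by linarith)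
          nlinarith
        · rw [if_neg ha, if_neg hb, add_zero, add_zero]
          rw [← Real.mul_rpow (by positivity) (by positivity)]
          have ha1 : (1:ℝ) ≤ |(a:ℝ)| := by exact_mod_cast Int.one_le_abs ha
          have hb1 : (1:ℝ) ≤ |(b:ℝ)| := by exact_mod_cast Int.one_le_abs hb
          apply Real.rpow_le_rpow_of_nonpos (by positivity) _ (by linarith)
          nlinarith [sq_abs (a:ℝ), sq_abs (b:ℝ), sq_nonneg (|(a:ℝ)| - |(b:ℝ)|)]

/-- the dual sum, without the zero frequency -/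
noncomputable def Es (R δ : ℝ) : ℝ := ∑' p : ℤ × ℤ, if p = 0 then 0 else J (R * nz p) * J (δ * nz p)

lemma JJ_le {R δ : ℝ} (hR : 0 < R) (hδ : 0 < δ) {p : ℤ × ℤ} (hp : p ≠ 0) :
    |J (R * nz p) * J (δ * nz p)| ≤ (1/4) * (R * δ) ^ (-(3/2):ℝ) * nz p ^ (-(3:ℝ)) := by
  have h1 := nz_ge_one hp
  have h0 : 0 < nz p := by linarith
  rw [abs_mul]
  calc |J (R * nz p)| * |J (δ * nz p)| ≤ ((1/2) * (R * nz p) ^ (-(3/2):ℝ)) * ((1/2) * (δ * nz p) ^ (-(3/2):ℝ)) := by
        gcongr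
        · exact abs_J_le_rpow (by positivity)
        · exact abs_J_le_rpow (by positivity)
    _ = _ := by
        rw [Real.mul_rpow hR.le h0.le, Real.mul_rpow hδ.le h0.le, Real.mul_rpow hR.le hδ.le]
        rw [show (-(3:ℝ)) = -(3/2) + -(3/2) by norm_num, Real.rpow_add h0]
        ring

lemma Es_summable {R δ : ℝ} (hR : 0 < R) (hδ : 0 < δ) :
    Summable (fun p : ℤ × ℤ => if p = 0 then 0 else J (R * nz p) * J (δ * nz p)) := by
  have h1 := (summable_nz (s := 3) (by norm_num)).mul_left ((1/4) * (R * δ) ^ (-(3/2):ℝ))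
  refine Summable.of_norm_bounded h1 ?_
  intro p
  by_cases hp : p = 0
  · simp [hp]
  · rw [if_neg hp, if_neg hp, Real.norm_eq_abs]
    exact JJ_le hR hδ hp

theorem poisson_disc {R δ : ℝ} (hR : 0 < R) (hδ : 0 < δ) :
    ∑' p : ℤ × ℤ, (fs R δ (((p.1:ℝ):ℂ) + ((p.2:ℝ):ℂ) * Complex.I)).re =
      R^2 * δ^2 * (Real.pi^2 + Es R δ) := by
  have hsum := Es_summable hR hδ
  have hall : HasSum (fun p : ℤ × ℤ => J (R * nz p) * J (δ * nz p)) (Real.pi^2 + Es R δ) := by
    have h1 : HasSum (fun p : ℤ × ℤ => if p = 0 then Real.pi^2 else 0) (Real.pi^2) := hasSum_ite_eq 0 _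
    have h2 := h1.add hsum.hasSum
    refine h2.congr_fun ?_
    intro p
    by_cases hp : p = 0
    · simp only [hp, nz_zero, mul_zero, J_zero, if_true]; ring
    · simp only [if_neg hp]; ring
  have hfour : ∀ p : ℤ × ℤ, 𝓕 (fs R δ) (((p.1:ℝ):ℂ) + ((p.2:ℝ):ℂ) * Complex.I) =
      ((R^2 * δ^2 * (J (R * nz p) * J (δ * nz p)) : ℝ) : ℂ) := by
    intro p
    rw [four_fs hR hδ, nz_norm]
    push_cast; ring
  have hs : Summable (fun p : ℤ × ℤ => 𝓕 (fs R δ) (((p.1:ℝ):ℂ) + ((p.2:ℝ):ℂ) * Complex.I)) := by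
    simp_rw [hfour]
    have := (hall.summable.mul_left (R^2 * δ^2))
    exact_mod_cast this
  have hp := poisson2 (fs_cont R δ) (B := R + δ) (fun z hz => fs_zero hz) hs
  have hfs : Summable (fun p : ℤ × ℤ => fs R δ (((p.1:ℝ):ℂ) + ((p.2:ℝ):ℂ) * Complex.I)) := by
    apply summable_of_ne_finset_zero (s := (Finset.Icc (-⌈R+δ⌉) ⌈R+δ⌉) ×ˢ (Finset.Icc (-⌈R+δ⌉) ⌈R+δ⌉))
    intro p hp
    apply fs_zero
    rw [nz_norm]
    rw [Finset.mem_product, not_and_or, Finset.mem_Icc, Finset.mem_Icc] at hp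
    have hB1 := Int.le_ceil (R + δ)
    have key : ∀ n : ℤ, ¬(-⌈R+δ⌉ ≤ n ∧ n ≤ ⌈R+δ⌉) → R + δ < |(n:ℝ)| := by
      intro n hn
      rw [not_and_or, not_le, not_le] at hn
      rcases hn with h | h
      · have : (n:ℝ) < -(⌈R+δ⌉:ℝ) := by exact_mod_cast h
        have := neg_le_abs (n:ℝ)
        linarith
      · have : (⌈R+δ⌉:ℝ) < n := by exact_mod_cast h
        have := le_abs_self (n:ℝ)
        linarith
    rcases hp with h | h
    · refine (key _ h).trans_le ?_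
      unfold nz
      apply Real.abs_le_sqrt
      nlinarith [sq_nonneg (p.2:ℝ)]
    · refine (key _ h).trans_le ?_
      unfold nz
      apply Real.abs_le_sqrt
      nlinarith [sq_nonneg (p.1:ℝ)]
  have h3 := congrArg Complex.re hp
  rw [Complex.re_tsum hfs] at h3
  rw [h3]
  simp_rw [hfour]
  rw [← Complex.ofReal_tsum, Complex.ofReal_re, tsum_mul_left, hall.tsum_eq]

/-- the finite set of lattice points in the disc -/
noncomputable def ballS (R : ℝ) : Finset (ℤ × ℤ) :=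
  ((Finset.Icc (-⌈R⌉) ⌈R⌉) ×ˢ (Finset.Icc (-⌈R⌉) ⌈R⌉)).filter
    (fun p => (p.1 : ℝ) ^ 2 + (p.2 : ℝ) ^ 2 ≤ R ^ 2)

lemma mem_ballS {R : ℝ} (hR : 0 ≤ R) (p : ℤ × ℤ) :
    p ∈ ballS R ↔ (p.1 : ℝ) ^ 2 + (p.2 : ℝ) ^ 2 ≤ R ^ 2 := by
  unfold ballS
  rw [Finset.mem_filter, and_iff_right_iff_imp]
  intro h
  rw [Finset.mem_product, Finset.mem_Icc, Finset.mem_Icc]
  have key : ∀ n : ℤ, (n:ℝ)^2 ≤ R^2 → -⌈R⌉ ≤ n ∧ n ≤ ⌈R⌉ := by
    intro n hn
    have h1 := abs_le_of_sq_le_sq' hn hR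
    have hB1 := Int.le_ceil R
    constructor
    · have : (-(⌈R⌉:ℝ)) ≤ n := by linarith [h1.1]
      exact_mod_cast this
    · have : (n:ℝ) ≤ (⌈R⌉:ℝ) := by linarith [h1.2]
      exact_mod_cast this
  exact ⟨key _ (by nlinarith [sq_nonneg (p.2:ℝ)]), key _ (by nlinarith [sq_nonneg (p.1:ℝ)])⟩

lemma F_eq_card {R : ℝ} (hR : 0 ≤ R) : F R = ((ballS R).card : ℝ) := by
  unfold F
  congr 1
  exact Nat.subtype_card (ballS R) (mem_ballS hR)

lemma mem_ballS_nz {R : ℝ} (hR : 0 ≤ R) (p : ℤ × ℤ) : p ∈ ballS R ↔ nz p ≤ R := by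
  rw [mem_ballS hR, nz, Real.sqrt_le_left hR]

lemma fs_summable_re {R δ : ℝ} :
    Summable (fun p : ℤ × ℤ => (fs R δ (((p.1:ℝ):ℂ) + ((p.2:ℝ):ℂ) * Complex.I)).re) := by
  apply summable_of_ne_finset_zero (s := ballS |R+δ|)
  intro p hp
  rw [mem_ballS_nz (abs_nonneg _), not_le] at hp
  rw [fs_zero, Complex.zero_re]
  rw [nz_norm]
  exact (le_abs_self _).trans_lt hp

theorem F_le {R δ : ℝ} (hR : 0 ≤ R) (hδ : 0 < δ) :
    F R ≤ Real.pi * (R + δ)^2 + (R + δ)^2 / Real.pi * Es (R + δ) δ := by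
  have h1 := poisson_disc (R := R + δ) (by linarith) hδ
  have h2 : F R * (Real.pi * δ^2) ≤
      ∑' p : ℤ × ℤ, (fs (R + δ) δ (((p.1:ℝ):ℂ) + ((p.2:ℝ):ℂ) * Complex.I)).re := by
    rw [F_eq_card hR]
    have : ((ballS R).card : ℝ) * (Real.pi * δ^2) =
        ∑ p ∈ ballS R, (fs (R + δ) δ (((p.1:ℝ):ℂ) + ((p.2:ℝ):ℂ) * Complex.I)).re := by
      rw [← nsmul_eq_mul, ← Finset.sum_const]
      apply Finset.sum_congr rfl
      intro p hp
      rw [fs_one hδ, Complex.ofReal_re]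
      rw [nz_norm]
      rw [mem_ballS_nz hR] at hp
      linarith
    rw [this]
    apply Summable.sum_le_tsum _ _ fs_summable_re
    intro p _
    exact (fs_real hδ _).1
  rw [h1] at h2
  have hp : 0 < Real.pi * δ^2 := by positivity
  rw [← mul_le_mul_iff_left₀ hp]
  refine h2.trans (le_of_eq ?_)
  have := Real.pi_pos.ne'
  field_simp

theorem le_F {R δ : ℝ} (hδ : 0 < δ) (h : δ < R) :
    Real.pi * (R - δ)^2 + (R - δ)^2 / Real.pi * Es (R - δ) δ ≤ F R := by
  have hR : 0 ≤ R := by linarith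
  have h1 := poisson_disc (R := R - δ) (by linarith) hδ
  have h2 : ∑' p : ℤ × ℤ, (fs (R - δ) δ (((p.1:ℝ):ℂ) + ((p.2:ℝ):ℂ) * Complex.I)).re ≤
      F R * (Real.pi * δ^2) := by
    rw [tsum_eq_sum (s := ballS R)]
    · rw [F_eq_card hR, ← nsmul_eq_mul, ← Finset.sum_const]
      apply Finset.sum_le_sum
      intro p _
      exact (fs_real hδ _).2
    · intro p hp
      rw [mem_ballS_nz hR, not_le] at hp
      rw [fs_zero, Complex.zero_re]
      rw [nz_norm]
      linarith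
  rw [h1] at h2
  have hp : 0 < Real.pi * δ^2 := by positivity
  rw [← mul_le_mul_iff_left₀ hp]
  refine (le_of_eq ?_).trans h2
  have := Real.pi_pos.ne'
  field_simp

end Pool.Agent.H383.Gauss
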