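import Mathlib
import Pool.Agent.H383.Voronoi
import Pool.Agent.H383.Reps

open MeasureTheory Set Filter Topology

namespace Pool.Agent.H383.Gauss

/-- squared norm of a lattice point, as a natural number -/
def N2 (p : ℤ × ℤ) : ℕ := (p.1^2 + p.2^2).toNat

lemma N2_cast (p : ℤ × ℤ) : ((N2 p : ℕ) : ℤ) = p.1^2 + p.2^2 := by
  unfold N2; rw [Int.toNat_of_nonneg (by positivity)]

lemma nz_eq (p : ℤ × ℤ) : nz p = √(N2 p : ℝ) := by
  unfold nz
  congr 1
  have := N2_cast p
  have h2 : ((N2 p : ℤ) : ℝ) = ((p.1^2 + p.2^2 : ℤ) : ℝ) := by exact_mod_cast this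
  push_cast at h2
  exact h2.symm

/-- number of representations as a sum of two squares -/
noncomputable def rA (m : ℕ) : ℝ := ((A m).ncard : ℝ)

lemma rA_nonneg (m : ℕ) : 0 ≤ rA m := by unfold rA; positivity

lemma fiber_card (Y m : ℕ) (hm : m ≤ Y^2) :
    ((((ballS (Y:ℝ)).erase 0).filter (fun p => N2 p = m)).card : ℝ) = if m = 0 then 0 else rA m := by
  by_cases h0 : m = 0
  · rw [if_pos h0]
    have : ((ballS (Y:ℝ)).erase 0).filter (fun p => N2 p = m) = ∅ := by
      rw [Finset.filter_eq_empty_iff]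
      intro p hp hN
      rw [Finset.mem_erase] at hp
      have h1 := nz_ge_one hp.1
      rw [nz_eq, hN, h0] at h1
      simp at h1
      linarith
    rw [this]; simp
  · rw [if_neg h0]
    unfold rA
    congr 1
    rw [← Set.ncard_coe_finset]
    apply Set.ncard_congr (fun p _ => (⟨p.1, p.2⟩ : GaussianInt))
    · intro p hp
      simp only [Finset.coe_filter, Finset.mem_erase, Set.mem_ofPred_eq] at hp
      rw [mem_A, norm_eq, ← hp.2, N2_cast]
    · intro p q _ _ h
      simp only [Zsqrtd.mk.injEq] at h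
      exact Prod.ext h.1 h.2
    · intro z hz
      rw [mem_A, norm_eq] at hz
      refine ⟨(z.re, z.im), ?_, rfl⟩
      simp only [Finset.coe_filter, Finset.mem_erase, Set.mem_ofPred_eq]
      have hN : N2 (z.re, z.im) = m := by
        have := N2_cast (z.re, z.im)
        simp only at this
        rw [hz] at this
        exact_mod_cast this
      refine ⟨⟨?_, ?_⟩, hN⟩
      · intro h
        rw [h] at hN
        apply h0
        rw [← hN]
        simp [N2]
      · rw [mem_ballS (by positivity)]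
        simp only
        have h2 : ((z.re:ℝ)^2 + (z.im:ℝ)^2) = m := by exact_mod_cast hz
        rw [h2]
        exact_mod_cast hm

theorem group_sum (Y : ℕ) (g : ℕ → ℂ) :
    ∑ p ∈ (ballS (Y:ℝ)).erase 0, g (N2 p) = ∑ m ∈ Finset.Icc 1 (Y^2), (rA m : ℂ) * g m := by
  have hmaps : ∀ p ∈ (ballS (Y:ℝ)).erase 0, N2 p ∈ Finset.Icc 1 (Y^2) := by
    intro p hp
    rw [Finset.mem_erase, mem_ballS (by positivity)] at hp
    rw [Finset.mem_Icc]
    have h1 := nz_ge_one hp.1
    rw [nz_eq, Real.one_le_sqrt] at h1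
    have h2 : ((N2 p : ℤ) : ℝ) = ((p.1^2 + p.2^2 : ℤ) : ℝ) := by exact_mod_cast N2_cast p
    push_cast at h2
    constructor
    · exact_mod_cast h1
    · have : (N2 p : ℝ) ≤ (Y:ℝ)^2 := by rw [h2]; exact hp.2
      exact_mod_cast this
  rw [← Finset.sum_fiberwise_of_maps_to hmaps]
  apply Finset.sum_congr rfl
  intro m hm
  rw [Finset.mem_Icc] at hm
  have h1 : ∑ p ∈ ((ballS (Y:ℝ)).erase 0).filter (fun p => N2 p = m), g (N2 p) =
      ∑ p ∈ ((ballS (Y:ℝ)).erase 0).filter (fun p => N2 p = m), g m := by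
    apply Finset.sum_congr rfl
    intro p hp
    rw [Finset.mem_filter] at hp
    rw [hp.2]
  rw [h1, Finset.sum_const, nsmul_eq_mul]
  have h2 := fiber_card Y m hm.2
  rw [if_neg (by omega)] at h2
  congr 1
  exact_mod_cast congrArg (fun x : ℝ => (x : ℂ)) h2

/-- the truncated main sum at radius `R`, smoothing `δ` and cutoff `Y` -/
noncomputable def V (R δ : ℝ) (Y : ℕ) : ℝ :=
  ∑ p ∈ (ballS (Y:ℝ)).erase 0, (1/Real.pi^2) * nz p ^ (-(3/2):ℝ) * J (δ * nz p) *
    Real.sin (2 * Real.pi * (R * nz p) - Real.pi/4)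

/-- normalised dual sum -/
noncomputable def W (R δ : ℝ) : ℝ := (R ^ (3/2:ℝ) / Real.pi) * Es R δ

theorem W_sub_V : ∃ C : ℝ, 0 < C ∧ ∀ (R δ : ℝ) (Y : ℕ), 0 < R → 0 < δ → 1 ≤ Y →
    |W R δ - V R δ Y| ≤ C * (1/R + δ ^ (-(3/2):ℝ) * (Y:ℝ) ^ (-(9/10):ℝ)) := by
  have hs1 := summable_nz (s := 5/2) (by norm_num)
  have hs2 := summable_nz (s := 21/10) (by norm_num)
  set Z1 := ∑' p : ℤ × ℤ, if p = 0 then (0:ℝ) else nz p ^ (-(5/2):ℝ) with hZ1
  set Z2 := ∑' p : ℤ × ℤ, if p = 0 then (0:ℝ) else nz p ^ (-(21/10):ℝ) with hZ2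
  have hZ1n : 0 ≤ Z1 := tsum_nonneg (fun p => by
    split_ifs
    · exact le_rfl
    · have := nz_nonneg p; positivity)
  have hZ2n : 0 ≤ Z2 := tsum_nonneg (fun p => by
    split_ifs
    · exact le_rfl
    · have := nz_nonneg p; positivity)
  refine ⟨Z1 + Z2 + 1, by positivity, ?_⟩
  intro R δ Y hR hδ hY
  have hY' : (1:ℝ) ≤ Y := by exact_mod_cast hY
  have hpi := Real.pi_gt_three
  set S := (ballS (Y:ℝ)).erase 0 with hS
  set c := R ^ (3/2:ℝ) / Real.pi with hc
  have hc0 : 0 ≤ c := by positivity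
  -- the comparison function
  set v : ℤ × ℤ → ℝ := fun p => if p ∈ S then (1/Real.pi^2) * nz p ^ (-(3/2):ℝ) * J (δ * nz p) *
    Real.sin (2 * Real.pi * (R * nz p) - Real.pi/4) else 0 with hv
  have hvs : HasSum v (V R δ Y) := by
    have : HasSum v (∑ p ∈ S, v p) := hasSum_sum_of_ne_finset_zero
      (fun p hp => by simp only [hv]; rw [if_neg hp])
    have e : ∑ p ∈ S, v p = V R δ Y := by
      unfold V
      apply Finset.sum_congr rfl
      intro p hp
      simp only [hv]
      rw [if_pos hp]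
    rwa [e] at this
  have hEs := (Es_summable hR hδ).hasSum.mul_left c
  have hdiff := hEs.sub hvs
  have hWe : W R δ = c * (∑' p : ℤ × ℤ, if p = 0 then 0 else J (R * nz p) * J (δ * nz p)) := rfl
  rw [← hWe] at hdiff
  rw [← hdiff.tsum_eq]
  -- bound termwise
  set B : ℤ × ℤ → ℝ := fun p => (1/R) * (if p = 0 then (0:ℝ) else nz p ^ (-(5/2):ℝ)) +
    (δ ^ (-(3/2):ℝ) * (Y:ℝ) ^ (-(9/10):ℝ)) * (if p = 0 then (0:ℝ) else nz p ^ (-(21/10):ℝ)) with hB
  have hBs : HasSum B ((1/R) * Z1 + (δ ^ (-(3/2):ℝ) * (Y:ℝ) ^ (-(9/10):ℝ)) * Z2) :=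
    (hs1.hasSum.mul_left _).add (hs2.hasSum.mul_left _)
  have hterm : ∀ p, ‖c * (if p = 0 then 0 else J (R * nz p) * J (δ * nz p)) - v p‖ ≤ B p := by
    intro p
    by_cases hp0 : p = 0
    · have : p ∉ S := by rw [hS, Finset.mem_erase]; simp [hp0]
      simp only [hv, hB]
      rw [if_pos hp0, if_neg this, if_pos hp0, if_pos hp0]
      simp
    · have hn1 := nz_ge_one hp0
      have hn0 : 0 < nz p := by linarith
      by_cases hpS : p ∈ S
      · simp only [hv, hB]
        rw [if_neg hp0, if_pos hpS, if_neg hp0, if_neg hp0]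
        have hkey : c * (J (R * nz p) * J (δ * nz p)) - (1/Real.pi^2) * nz p ^ (-(3/2):ℝ) * J (δ * nz p) *
            Real.sin (2 * Real.pi * (R * nz p) - Real.pi/4) =
            c * J (δ * nz p) * (J (R * nz p) - (1/Real.pi) * (R * nz p) ^ (-(3/2):ℝ) *
              Real.sin (2 * Real.pi * (R * nz p) - Real.pi/4)) := by
          have e1 : (R * nz p) ^ (-(3/2):ℝ) = R ^ (-(3/2):ℝ) * nz p ^ (-(3/2):ℝ) :=
            Real.mul_rpow hR.le hn0.le
          have e2 : R ^ (3/2:ℝ) * R ^ (-(3/2):ℝ) = 1 := by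
            rw [← Real.rpow_add hR]; simp
          rw [e1, hc]
          have hpi0 := Real.pi_pos.ne'
          generalize Real.sin (2 * Real.pi * (R * nz p) - Real.pi/4) = sn
          generalize J (δ * nz p) = jj
          field_simp
          linear_combination (nz p ^ (-(3/2):ℝ) * jj * sn) * e2
        rw [hkey, norm_mul, norm_mul, Real.norm_eq_abs, Real.norm_eq_abs, Real.norm_eq_abs, abs_of_nonneg hc0]
        have ha := J_asymp (l := R * nz p) (by positivity)
        have hb := abs_J_le (δ * nz p)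
        calc c * |J (δ * nz p)| * |J (R * nz p) - (1/Real.pi) * (R * nz p) ^ (-(3/2):ℝ) *
              Real.sin (2 * Real.pi * (R * nz p) - Real.pi/4)|
            ≤ c * Real.pi * ((3 / (8 * Real.pi ^ 2)) * (R * nz p) ^ (-(5/2):ℝ)) := by gcongr
          _ = (3 / (8 * Real.pi ^ 2)) * ((1/R) * nz p ^ (-(5/2):ℝ)) := by
              have e1 : (R * nz p) ^ (-(5/2):ℝ) = R ^ (-(5/2):ℝ) * nz p ^ (-(5/2):ℝ) :=
                Real.mul_rpow hR.le hn0.le
              have e2 : R ^ (3/2:ℝ) * R ^ (-(5/2):ℝ) = 1/R := by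
                rw [← Real.rpow_add hR, one_div, ← Real.rpow_neg_one]; norm_num
              rw [e1, hc, ← e2]
              have hpi0 := Real.pi_pos.ne'
              field_simp
          _ ≤ 1 * ((1/R) * nz p ^ (-(5/2):ℝ)) := by
              apply mul_le_mul_of_nonneg_right _ (by positivity)
              rw [div_le_one (by positivity)]
              nlinarith
          _ ≤ _ := by
              rw [one_mul]
              have : 0 ≤ (δ ^ (-(3/2):ℝ) * (Y:ℝ) ^ (-(9/10):ℝ)) * nz p ^ (-(21/10):ℝ) := by positivity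
              linarith
      · simp only [hv, hB]
        rw [if_neg hp0, if_neg hpS, if_neg hp0, if_neg hp0, sub_zero, norm_mul, Real.norm_eq_abs,
          Real.norm_eq_abs, abs_of_nonneg hc0]
        have h1 := JJ_le hR hδ hp0
        have hYn : (Y:ℝ) < nz p := by
          rw [hS, Finset.mem_erase, not_and_or] at hpS
          rcases hpS with h | h
          · exact absurd hp0 h
          · rw [mem_ballS_nz (by positivity), not_le] at h
            exact h
        have h2 : nz p ^ (-(3:ℝ)) ≤ (Y:ℝ) ^ (-(9/10):ℝ) * nz p ^ (-(21/10):ℝ) := by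
          have e : nz p ^ (-(3:ℝ)) = nz p ^ (-(9/10):ℝ) * nz p ^ (-(21/10):ℝ) := by
            rw [← Real.rpow_add hn0]; norm_num
          rw [e]
          apply mul_le_mul_of_nonneg_right _ (by positivity)
          exact Real.rpow_le_rpow_of_nonpos (by linarith) hYn.le (by norm_num)
        calc c * |J (R * nz p) * J (δ * nz p)|
            ≤ c * ((1/4) * (R * δ) ^ (-(3/2):ℝ) * nz p ^ (-(3:ℝ))) := by gcongr
          _ = (1/(4*Real.pi)) * (δ ^ (-(3/2):ℝ) * nz p ^ (-(3:ℝ))) := by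
              have e1 : (R * δ) ^ (-(3/2):ℝ) = R ^ (-(3/2):ℝ) * δ ^ (-(3/2):ℝ) :=
                Real.mul_rpow hR.le hδ.le
              have e2 : R ^ (3/2:ℝ) * R ^ (-(3/2):ℝ) = 1 := by
                rw [← Real.rpow_add hR]; simp
              rw [e1, hc]
              have hpi0 := Real.pi_pos.ne'
              field_simp
              linear_combination e2
          _ ≤ 1 * (δ ^ (-(3/2):ℝ) * ((Y:ℝ) ^ (-(9/10):ℝ) * nz p ^ (-(21/10):ℝ))) := by
              apply mul_le_mul _ _ (by positivity) (by norm_num)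
              · rw [div_le_one (by positivity)]; linarith
              · gcongr
          _ ≤ _ := by
              have : 0 ≤ (1/R) * nz p ^ (-(5/2):ℝ) := by positivity
              linarith
  have hfin := tsum_of_norm_bounded hBs hterm
  rw [Real.norm_eq_abs] at hfin
  refine hfin.trans ?_
  have p1 : 0 ≤ 1/R := by positivity
  have p2 : 0 ≤ δ ^ (-(3/2):ℝ) * (Y:ℝ) ^ (-(9/10):ℝ) := by positivity
  nlinarith

/-- the sandwich in terms of `W` -/
theorem F_le_W {R δ : ℝ} (hR : 0 ≤ R) (hδ : 0 < δ) :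
    F R ≤ Real.pi * (R + δ)^2 + √(R + δ) * W (R + δ) δ := by
  refine (F_le hR hδ).trans (le_of_eq ?_)
  congr 1
  unfold W
  have h : 0 < R + δ := by linarith
  have e : √(R+δ) * (R+δ) ^ (3/2:ℝ) = (R+δ)^2 := by
    rw [Real.sqrt_eq_rpow, ← Real.rpow_add h]; norm_num
  rw [← e]; ring

theorem le_F_W {R δ : ℝ} (hδ : 0 < δ) (h : δ < R) :
    Real.pi * (R - δ)^2 + √(R - δ) * W (R - δ) δ ≤ F R := by
  refine (le_of_eq ?_).trans (le_F hδ h)
  congr 1
  unfold W
  have h : 0 < R - δ := by linarith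
  have e : √(R-δ) * (R-δ) ^ (3/2:ℝ) = (R-δ)^2 := by
    rw [Real.sqrt_eq_rpow, ← Real.rpow_add h]; norm_num
  rw [← e]; ring

end Pool.Agent.H383.Gauss
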