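import Mathlib

open MeasureTheory Set Filter Topology AddCircle

namespace Pool.Agent.H383.Gauss

/-- indicator of the arc of half-length `h` around `γ` -/
noncomputable def arc (h : ℝ) (γ : UnitAddCircle) : UnitAddCircle → ℂ :=
  (Metric.closedBall γ h).indicator (fun _ => 1)

noncomputable def arcR (h : ℝ) (γ : UnitAddCircle) : UnitAddCircle → ℝ :=
  (Metric.closedBall γ h).indicator (fun _ => 1)

lemma arc_eq (h : ℝ) (γ t : UnitAddCircle) : arc h γ t = arc h 0 (t - γ) := by
  unfold arc
  by_cases ht : t ∈ Metric.closedBall γ h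
  · rw [indicator_of_mem ht, indicator_of_mem]
    rw [mem_closedBall_zero_iff, ← dist_eq_norm]; exact ht
  · rw [indicator_of_notMem ht, indicator_of_notMem]
    rw [mem_closedBall_zero_iff, ← dist_eq_norm]; exact ht

lemma fourier_add_arg (n : ℤ) (x y : UnitAddCircle) :
    fourier n (x + y) = fourier n x * fourier n y := by
  rw [fourier_apply, fourier_apply, fourier_apply, smul_add, toCircle_add, Circle.coe_mul]

lemma arc_coeff (h : ℝ) (γ : UnitAddCircle) (n : ℤ) :
    fourierCoeff (arc h γ) n = fourier (-n) γ * fourierCoeff (arc h 0) n := by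
  unfold fourierCoeff
  have h1 := integral_sub_right_eq_self (μ := haarAddCircle)
    (fun s : UnitAddCircle => fourier (-n) (s + γ) • arc h 0 s) γ
  simp only [sub_add_cancel] at h1
  have h2 : ∀ t, fourier (-n) t • arc h γ t = fourier (-n) t • arc h 0 (t - γ) := by
    intro t; rw [arc_eq]
  simp_rw [h2]
  rw [h1]
  simp_rw [fourier_add_arg, smul_eq_mul]
  rw [← integral_const_mul]
  congr 1
  funext s
  ring

lemma arc_zero_apply {h : ℝ} {x : ℝ} (hx : |x| ≤ 1/2) :
    arc h 0 (x : UnitAddCircle) = (Icc (-h) h).indicator (fun _ => (1:ℂ)) x := by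
  have hn : ‖(x : UnitAddCircle)‖ = |x| := by
    rw [norm_coe_eq_abs_iff _ (by norm_num)]
    simpa using hx
  unfold arc
  by_cases h1 : |x| ≤ h
  · rw [indicator_of_mem, indicator_of_mem]
    · exact abs_le.mp h1
    · rw [mem_closedBall_zero_iff, hn]; exact h1
  · rw [indicator_of_notMem, indicator_of_notMem]
    · intro hc; exact h1 (abs_le.mpr hc)
    · rw [mem_closedBall_zero_iff, hn]; exact h1

lemma arc_coeff_zero {h : ℝ} (h0 : 0 < h) (h1 : h < 1/2) (n : ℤ) :
    fourierCoeff (arc h 0) n = ∫ x in (-h)..h, Complex.exp (((-(2 * Real.pi * n * x) : ℝ) : ℂ) * Complex.I) := by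
  rw [fourierCoeff_eq_intervalIntegral _ _ (-1/2)]
  have e : (-1/2 : ℝ) + 1 = 1/2 := by norm_num
  rw [e]
  simp only [div_one, one_smul]
  rw [intervalIntegral.integral_of_le (by norm_num), intervalIntegral.integral_of_le (by linarith)]
  have h2 : ∀ x ∈ Ioc (-1/2 : ℝ) (1/2), fourier (-n) (x : UnitAddCircle) • arc h 0 (x : UnitAddCircle) =
      (Icc (-h) h).indicator (fun x : ℝ => Complex.exp (((-(2 * Real.pi * n * x) : ℝ) : ℂ) * Complex.I)) x := by
    intro x hx
    rw [arc_zero_apply (abs_le.mpr ⟨by linarith [hx.1], hx.2⟩)]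
    by_cases hm : x ∈ Icc (-h) h
    · rw [indicator_of_mem hm, indicator_of_mem hm, fourier_coe_apply]
      rw [smul_eq_mul, mul_one]
      congr 1
      push_cast
      ring
    · rw [indicator_of_notMem hm, indicator_of_notMem hm, smul_zero]
  rw [setIntegral_congr_fun measurableSet_Ioc h2, setIntegral_indicator measurableSet_Icc]
  have h3 : Ioc (-1/2:ℝ) (1/2) ∩ Icc (-h) h = Icc (-h) h := by
    apply inter_eq_right.mpr
    intro x hx
    exact ⟨by linarith [hx.1], by linarith [hx.2]⟩
  rw [h3, integral_Icc_eq_integral_Ioc]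

lemma arc_coeff_lower {h : ℝ} (h0 : 0 < h) (h1 : h < 1/2) {n : ℤ} (hn : |(n:ℝ)| * h ≤ 1/4) :
    h ≤ ‖fourierCoeff (arc h 0) n‖ := by
  rw [arc_coeff_zero h0 h1]
  have hc : Continuous (fun x : ℝ => Complex.exp (((-(2 * Real.pi * n * x) : ℝ) : ℂ) * Complex.I)) := by
    fun_prop
  have hre := (Complex.reCLM).intervalIntegral_comp_comm (hc.intervalIntegrable (μ := volume) (-h) h)
  simp only [Complex.reCLM_apply] at hre
  refine le_trans ?_ (Complex.re_le_norm _)
  rw [← hre]
  have h2 : ∀ x : ℝ, 1 - (2 * Real.pi * n)^2 / 2 * x^2 ≤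
      (Complex.exp (((-(2 * Real.pi * n * x) : ℝ) : ℂ) * Complex.I)).re := by
    intro x
    rw [Complex.exp_ofReal_mul_I_re, Real.cos_neg]
    have := Real.one_sub_sq_div_two_le_cos (x := 2 * Real.pi * n * x)
    nlinarith
  have h3 : ∫ x in (-h)..h, (1 - (2 * Real.pi * n)^2 / 2 * x^2) ≤
      ∫ x in (-h)..h, (Complex.exp (((-(2 * Real.pi * n * x) : ℝ) : ℂ) * Complex.I)).re := by
    apply intervalIntegral.integral_mono_on (by linarith)
    · apply Continuous.intervalIntegrable; fun_prop
    · exact (Complex.continuous_re.comp hc).intervalIntegrable _ _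
    · intro x _; exact h2 x
  refine le_trans ?_ h3
  have h4 : ∫ x in (-h)..h, (1 - (2 * Real.pi * n)^2 / 2 * x^2) = 2 * h - (4/3) * Real.pi^2 * (n * h)^2 * h := by
    rw [intervalIntegral.integral_sub (by simp) (by apply Continuous.intervalIntegrable; fun_prop),
      intervalIntegral.integral_const_mul, integral_pow]
    simp
    ring
  rw [h4]
  have h5 : (n * h)^2 ≤ 1/16 := by
    have : |n * h| ≤ 1/4 := by rw [abs_mul, abs_of_pos h0]; exact hn
    rw [← sq_abs]
    nlinarith [abs_nonneg (n*h)]
  have h6 : Real.pi^2 ≤ 12 := by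
    have := Real.pi_lt_d2
    have := Real.pi_pos
    nlinarith
  have h7 : Real.pi^2 * (n * h)^2 ≤ 12 * (1/16) := by
    apply mul_le_mul h6 h5 (by positivity) (by norm_num)
  nlinarith

lemma arcR_int {h : ℝ} (h0 : 0 < h) (h1 : h < 1/2) (γ : UnitAddCircle) :
    ∫ t, arcR h γ t ∂haarAddCircle = 2 * h := by
  have e1 : ((∫ t, arcR h γ t ∂haarAddCircle : ℝ) : ℂ) = fourierCoeff (arc h γ) 0 := by
    unfold fourierCoeff
    rw [← integral_complex_ofReal]
    congr 1
    funext t
    simp only [neg_zero, fourier_zero, one_smul]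
    unfold arcR arc
    by_cases ht : t ∈ Metric.closedBall γ h
    · rw [indicator_of_mem ht, indicator_of_mem ht]; simp
    · rw [indicator_of_notMem ht, indicator_of_notMem ht]; simp
  rw [arc_coeff, arc_coeff_zero h0 h1] at e1
  simp at e1
  have e2 : (∫ t, arcR h γ t ∂haarAddCircle : ℝ) = h + h := by exact_mod_cast e1
  rw [e2]; ring

lemma arcR_meas (h : ℝ) (γ : UnitAddCircle) : Measurable (arcR h γ) := by
  unfold arcR
  exact measurable_const.indicator Metric.isClosed_closedBall.measurableSet

lemma arcR_le (h : ℝ) (γ t : UnitAddCircle) : 0 ≤ arcR h γ t ∧ arcR h γ t ≤ 1 := by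
  unfold arcR
  by_cases ht : t ∈ Metric.closedBall γ h
  · rw [indicator_of_mem ht]; norm_num
  · rw [indicator_of_notMem ht]; norm_num

lemma arcR_integrable (h : ℝ) (γ : UnitAddCircle) : Integrable (arcR h γ) haarAddCircle := by
  refine Integrable.mono' (integrable_const (1:ℝ)) (arcR_meas h γ).aestronglyMeasurable ?_
  refine Eventually.of_forall (fun t => ?_)
  rw [Real.norm_eq_abs, abs_of_nonneg (arcR_le h γ t).1]
  exact (arcR_le h γ t).2

lemma norm_arc (h : ℝ) (γ t : UnitAddCircle) : ‖arc h γ t‖ = arcR h γ t := by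
  unfold arcR arc
  by_cases ht : t ∈ Metric.closedBall γ h
  · rw [indicator_of_mem ht, indicator_of_mem ht]; simp
  · rw [indicator_of_notMem ht, indicator_of_notMem ht]; simp

open Classical in
/-- `near N x` is `1` if `x` is within `1/(2N)` of an integer and `0` otherwise -/
noncomputable def near (N : ℕ) (x : ℝ) : ℝ := if ∃ k : ℤ, |x - k| ≤ 1 / (2 * N) then 1 else 0

lemma near_nonneg (N : ℕ) (x : ℝ) : 0 ≤ near N x := by
  unfold near; split_ifs <;> norm_num

lemma arcR_prod {N : ℕ} (hN : 1 ≤ N) (γ δ : ℝ) :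
    ∫ t, arcR (1/(4*N)) (γ : UnitAddCircle) t * arcR (1/(4*N)) (δ : UnitAddCircle) t ∂haarAddCircle ≤
      (1 / (2 * N)) * near N (γ - δ) := by
  have hN' : (1:ℝ) ≤ N := by exact_mod_cast hN
  have h0 : (0:ℝ) < 1/(4*N) := by positivity
  have h1 : (1:ℝ)/(4*N) < 1/2 := by
    rw [div_lt_div_iff₀ (by positivity) (by norm_num)]; linarith
  unfold near
  split_ifs with hk
  · calc _ ≤ ∫ t, arcR (1/(4*N)) (γ : UnitAddCircle) t ∂haarAddCircle := by
          apply integral_mono_of_nonneg
          · exact Eventually.of_forall (fun t => mul_nonneg (arcR_le _ _ t).1 (arcR_le _ _ t).1)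
          · exact arcR_integrable _ _
          · refine Eventually.of_forall (fun t => ?_)
            have a := arcR_le (1/(4*N)) (γ : UnitAddCircle) t
            have b := arcR_le (1/(4*N)) (δ : UnitAddCircle) t
            simp only
            nlinarith
      _ = _ := by rw [arcR_int h0 h1]; field_simp; ring
  · rw [mul_zero]
    apply le_of_eq
    apply integral_eq_zero_of_ae
    refine Eventually.of_forall (fun t => ?_)
    simp only [Pi.zero_apply, mul_eq_zero]
    by_contra hcon
    push Not at hcon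
    apply hk
    have ha : t ∈ Metric.closedBall (γ : UnitAddCircle) (1/(4*N)) := by
      by_contra h; exact hcon.1 (by unfold arcR; rw [indicator_of_notMem h])
    have hb : t ∈ Metric.closedBall (δ : UnitAddCircle) (1/(4*N)) := by
      by_contra h; exact hcon.2 (by unfold arcR; rw [indicator_of_notMem h])
    have hd : dist (γ : UnitAddCircle) (δ : UnitAddCircle) ≤ 1/(2*N) := by
      calc _ ≤ dist (γ : UnitAddCircle) t + dist t (δ : UnitAddCircle) := dist_triangle _ _ _
        _ ≤ 1/(4*N) + 1/(4*N) := by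
            apply add_le_add
            · rw [dist_comm]; exact ha
            · exact hb
        _ = _ := by field_simp; ring
    rw [dist_eq_norm, ← AddCircle.coe_sub, UnitAddCircle.norm_eq] at hd
    exact ⟨_, hd⟩

theorem ls {ι : Type*} (s : Finset ι) (b : ι → ℂ) (γ : ι → ℝ) {N : ℕ} (hN : 1 ≤ N) :
    ∑ n ∈ Finset.range (N+1), ‖∑ i ∈ s, b i * Complex.exp (((2 * Real.pi * (n * γ i) : ℝ) : ℂ) * Complex.I)‖^2 ≤
      8 * N * ∑ i ∈ s, ∑ j ∈ s, ‖b i‖ * ‖b j‖ * near N (γ i - γ j) := by
  have hN' : (1:ℝ) ≤ N := by exact_mod_cast hN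
  set h : ℝ := 1/(4*N) with hh
  have h0 : (0:ℝ) < h := by positivity
  have h1 : h < 1/2 := by
    rw [hh, div_lt_div_iff₀ (by positivity) (by norm_num)]; linarith
  set I : UnitAddCircle → ℂ := fun t => ∑ i ∈ s, b i * arc h (γ i : UnitAddCircle) t with hI
  have hmeas : ∀ γ : UnitAddCircle, Measurable (arc h γ) := by
    intro γ; unfold arc
    exact measurable_const.indicator Metric.isClosed_closedBall.measurableSet
  have hIb : ∀ t, ‖I t‖ ≤ ∑ i ∈ s, ‖b i‖ * arcR h (γ i : UnitAddCircle) t := by
    intro t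
    simp only [hI]
    refine (norm_sum_le _ _).trans (le_of_eq ?_)
    apply Finset.sum_congr rfl
    intro i _
    rw [norm_mul, norm_arc]
  have hImeas : Measurable I := by
    simp only [hI]
    apply Finset.measurable_fun_sum
    intro i _
    exact (measurable_const.mul (hmeas _))
  have hMem : MemLp I 2 haarAddCircle := by
    apply MemLp.of_bound hImeas.aestronglyMeasurable (∑ i ∈ s, ‖b i‖)
    refine Eventually.of_forall (fun t => (hIb t).trans ?_)
    apply Finset.sum_le_sum
    intro i _
    have := arcR_le h (γ i : UnitAddCircle) t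
    nlinarith [norm_nonneg (b i)]
  have hsq := hasSum_sq_fourierCoeff hMem.toLp
  have hcoef : ∀ n, fourierCoeff (hMem.toLp : UnitAddCircle → ℂ) n = fourierCoeff I n := by
    intro n
    exact congrFun (fourierCoeff_congr_ae hMem.coeFn_toLp) n
  have hcoef2 : ∀ n : ℤ, fourierCoeff I n = (∑ i ∈ s, b i * fourier (-n) (γ i : UnitAddCircle)) * fourierCoeff (arc h 0) n := by
    intro n
    have h2 := fourierCoeff.sum s (fun i t => b i * arc h (γ i : UnitAddCircle) t) ?_
    · have h3 : (∑ i ∈ s, (fun t => b i * arc h (γ i : UnitAddCircle) t)) = I := by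
        funext t; simp [hI]
      rw [h3] at h2
      rw [h2]
      rw [Finset.sum_apply, Finset.sum_mul]
      apply Finset.sum_congr rfl
      intro i _
      rw [fourierCoeff.const_mul, arc_coeff, mul_assoc]
    · intro i _
      refine Integrable.mono' ((arcR_integrable h (γ i : UnitAddCircle)).const_mul ‖b i‖) ?_ ?_
      · exact (measurable_const.mul (hmeas _)).aestronglyMeasurable
      · refine Eventually.of_forall (fun t => ?_)
        rw [norm_mul, norm_arc]
  have hint : ∫ t, ‖(hMem.toLp : UnitAddCircle → ℂ) t‖^2 ∂haarAddCircle = ∫ t, ‖I t‖^2 ∂haarAddCircle := by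
    apply integral_congr_ae
    filter_upwards [hMem.coeFn_toLp] with t ht
    rw [ht]
  rw [hint] at hsq
  -- lower bound
  have hlow : ∑ n ∈ Finset.range (N+1), h^2 * ‖∑ i ∈ s, b i * Complex.exp (((2 * Real.pi * (n * γ i) : ℝ) : ℂ) * Complex.I)‖^2 ≤
      ∫ t, ‖I t‖^2 ∂haarAddCircle := by
    have hinj : Function.Injective (fun n : ℕ => -(n:ℤ)) := by
      intro a b hab
      simpa using hab
    have h2 : ∑ n ∈ (Finset.range (N+1)).map ⟨_, hinj⟩, ‖fourierCoeff (hMem.toLp : UnitAddCircle → ℂ) n‖^2 ≤
        ∫ t, ‖I t‖^2 ∂haarAddCircle := by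
      rw [← hsq.tsum_eq]
      exact hsq.summable.sum_le_tsum _ (fun _ _ => by positivity)
    refine le_trans ?_ h2
    rw [Finset.sum_map]
    apply Finset.sum_le_sum
    intro n hn
    rw [Finset.mem_range] at hn
    simp only [Function.Embedding.coeFn_mk]
    rw [hcoef, hcoef2, norm_mul, mul_pow, mul_comm]
    have e1 : ∑ i ∈ s, b i * fourier (-(-(n:ℤ))) (γ i : UnitAddCircle) =
        ∑ i ∈ s, b i * Complex.exp (((2 * Real.pi * (n * γ i) : ℝ) : ℂ) * Complex.I) := by
      apply Finset.sum_congr rfl
      intro i _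
      rw [neg_neg, fourier_coe_apply]
      congr 2
      push_cast; ring
    rw [e1]
    apply mul_le_mul_of_nonneg_left _ (by positivity)
    apply pow_le_pow_left₀ h0.le
    apply arc_coeff_lower h0 h1
    push_cast
    rw [abs_neg, abs_of_nonneg (by positivity), hh]
    have : (n:ℝ) ≤ N := by exact_mod_cast Nat.lt_succ_iff.mp hn
    rw [mul_one_div, div_le_div_iff₀ (by positivity) (by norm_num)]
    linarith
  -- upper bound
  have hup : ∫ t, ‖I t‖^2 ∂haarAddCircle ≤
      ∑ i ∈ s, ∑ j ∈ s, ‖b i‖ * ‖b j‖ * ((1 / (2 * N)) * near N (γ i - γ j)) := by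
    have hintij : ∀ i j, Integrable (fun t => arcR h (γ i : UnitAddCircle) t * arcR h (γ j : UnitAddCircle) t) haarAddCircle := by
      intro i j
      refine Integrable.mono' (arcR_integrable h (γ i : UnitAddCircle)) ?_ ?_
      · exact ((arcR_meas _ _).mul (arcR_meas _ _)).aestronglyMeasurable
      · refine Eventually.of_forall (fun t => ?_)
        have a := arcR_le h (γ i : UnitAddCircle) t
        have b := arcR_le h (γ j : UnitAddCircle) t
        rw [Real.norm_eq_abs, abs_of_nonneg (mul_nonneg a.1 b.1)]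
        nlinarith
    calc ∫ t, ‖I t‖^2 ∂haarAddCircle
        ≤ ∫ t, ∑ i ∈ s, ∑ j ∈ s, (‖b i‖ * ‖b j‖) * (arcR h (γ i : UnitAddCircle) t * arcR h (γ j : UnitAddCircle) t) ∂haarAddCircle := by
          apply integral_mono_of_nonneg
          · exact Eventually.of_forall (fun t => by simp only [Pi.zero_apply]; positivity)
          · apply integrable_finsetSum
            intro i _
            apply integrable_finsetSum
            intro j _
            exact (hintij i j).const_mul _
          · refine Eventually.of_forall (fun t => ?_)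
            simp only
            have := pow_le_pow_left₀ (norm_nonneg (I t)) (hIb t) 2
            refine this.trans (le_of_eq ?_)
            rw [sq, Finset.sum_mul_sum]
            apply Finset.sum_congr rfl
            intro i _
            apply Finset.sum_congr rfl
            intro j _
            ring
      _ = ∑ i ∈ s, ∑ j ∈ s, (‖b i‖ * ‖b j‖) * ∫ t, (arcR h (γ i : UnitAddCircle) t * arcR h (γ j : UnitAddCircle) t) ∂haarAddCircle := by
          rw [integral_finsetSum]
          · apply Finset.sum_congr rfl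
            intro i _
            rw [integral_finsetSum]
            · apply Finset.sum_congr rfl
              intro j _
              rw [integral_const_mul]
            · intro j _
              exact (hintij i j).const_mul _
          · intro i _
            apply integrable_finsetSum
            intro j _
            exact (hintij i j).const_mul _
      _ ≤ _ := by
          apply Finset.sum_le_sum
          intro i _
          apply Finset.sum_le_sum
          intro j _
          apply mul_le_mul_of_nonneg_left _ (by positivity)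
          exact arcR_prod hN _ _
  have hfin := hlow.trans hup
  rw [← Finset.mul_sum] at hfin
  have e3 : ∑ i ∈ s, ∑ j ∈ s, ‖b i‖ * ‖b j‖ * ((1 / (2 * N)) * near N (γ i - γ j)) =
      (1/(2*N)) * ∑ i ∈ s, ∑ j ∈ s, ‖b i‖ * ‖b j‖ * near N (γ i - γ j) := by
    rw [Finset.mul_sum]
    apply Finset.sum_congr rfl
    intro i _
    rw [Finset.mul_sum]
    apply Finset.sum_congr rfl
    intro j _
    ring
  rw [e3] at hfin
  have hpos : 0 < h^2 := by positivity
  rw [← mul_le_mul_iff_right₀ hpos]
  refine hfin.trans (le_of_eq ?_)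
  rw [hh]
  field_simp
  ring

end Pool.Agent.H383.Gauss
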