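import Mathlib
import Pool.Agent.H383.Expand
import Pool.Agent.H383.LS
import Pool.Agent.Helper112.Arith

open MeasureTheory Set Filter Topology

namespace Pool.Agent.H383.Gauss

/-- coefficient of the frequency `√m` -/
noncomputable def bc (β δ : ℝ) (m : ℕ) : ℂ :=
  ((rA m * ((1/Real.pi^2) * (√(m:ℝ)) ^ (-(3/2):ℝ) * J (δ * √(m:ℝ))) : ℝ) : ℂ) *
    Complex.exp (((2 * Real.pi * (β * √(m:ℝ)) - Real.pi/4 : ℝ) : ℂ) * Complex.I)

lemma V_eq_im (α β δ : ℝ) (Y n : ℕ) :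
    V (β + n * α) δ Y = (∑ m ∈ Finset.Icc 1 (Y^2), bc β δ m *
      Complex.exp (((2 * Real.pi * (n * (α * √(m:ℝ))) : ℝ) : ℂ) * Complex.I)).im := by
  have h := group_sum Y (fun m => (((1/Real.pi^2) * (√(m:ℝ)) ^ (-(3/2):ℝ) * J (δ * √(m:ℝ)) : ℝ) : ℂ) *
    Complex.exp (((2 * Real.pi * ((β + n * α) * √(m:ℝ)) - Real.pi/4 : ℝ) : ℂ) * Complex.I))
  have h2 : V (β + n * α) δ Y = (∑ p ∈ (ballS (Y:ℝ)).erase 0,
      (((1/Real.pi^2) * (√(N2 p:ℝ)) ^ (-(3/2):ℝ) * J (δ * √(N2 p:ℝ)) : ℝ) : ℂ) *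
    Complex.exp (((2 * Real.pi * ((β + n * α) * √(N2 p:ℝ)) - Real.pi/4 : ℝ) : ℂ) * Complex.I)).im := by
    rw [Complex.im_sum]
    unfold V
    apply Finset.sum_congr rfl
    intro p _
    rw [Complex.im_ofReal_mul, Complex.exp_ofReal_mul_I_im, nz_eq]
  rw [h2, h]
  congr 1
  apply Finset.sum_congr rfl
  intro m _
  unfold bc
  have e : Complex.exp (((2 * Real.pi * ((β + n * α) * √(m:ℝ)) - Real.pi/4 : ℝ) : ℂ) * Complex.I) =
      Complex.exp (((2 * Real.pi * (β * √(m:ℝ)) - Real.pi/4 : ℝ) : ℂ) * Complex.I) *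
      Complex.exp (((2 * Real.pi * (n * (α * √(m:ℝ))) : ℝ) : ℂ) * Complex.I) := by
    rw [← Complex.exp_add]; congr 1; push_cast; ring
  rw [e]
  push_cast
  ring

lemma norm_bc (β δ : ℝ) (m : ℕ) :
    ‖bc β δ m‖ = rA m * ((1/Real.pi^2) * (√(m:ℝ)) ^ (-(3/2):ℝ) * |J (δ * √(m:ℝ))|) := by
  unfold bc
  rw [norm_mul, Complex.norm_exp_ofReal_mul_I, mul_one, Complex.norm_real, Real.norm_eq_abs, abs_mul,
    abs_mul, abs_of_nonneg (rA_nonneg m), abs_of_nonneg (by positivity : 0 ≤ 1/Real.pi^2 * (√(m:ℝ)) ^ (-(3/2):ℝ))]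

/-- Schur test -/
lemma schur {ι : Type*} (s : Finset ι) (a p : ι → ℝ) (K : ι → ι → ℝ)
    (hp : ∀ i ∈ s, 0 < p i) (hK : ∀ i j, 0 ≤ K i j) (hsym : ∀ i j, K i j = K j i) :
    ∑ i ∈ s, ∑ j ∈ s, a i * a j * K i j ≤ ∑ i ∈ s, (a i)^2 / p i * ∑ j ∈ s, K i j * p j := by
  have h1 : ∀ i ∈ s, ∀ j ∈ s, a i * a j * K i j ≤
      (1/2) * ((a i)^2 / p i * (K i j * p j)) + (1/2) * ((a j)^2 / p j * (K j i * p i)) := by
    intro i hi j hj
    have pi := hp i hi
    have pj := hp j hj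
    rw [hsym j i]
    have hk := hK i j
    have : a i * a j ≤ (1/2) * ((a i)^2 / p i * p j) + (1/2) * ((a j)^2 / p j * p i) := by
      have h2 : 0 ≤ (a i * p j - a j * p i)^2 / (p i * p j) := by positivity
      have h3 : (a i * p j - a j * p i)^2 / (p i * p j) =
          (a i)^2 / p i * p j + (a j)^2 / p j * p i - 2 * (a i * a j) := by
        field_simp
        ring
      linarith
    calc a i * a j * K i j ≤ ((1/2) * ((a i)^2 / p i * p j) + (1/2) * ((a j)^2 / p j * p i)) * K i j :=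
          mul_le_mul_of_nonneg_right this hk
      _ = _ := by ring
  calc ∑ i ∈ s, ∑ j ∈ s, a i * a j * K i j
      ≤ ∑ i ∈ s, ∑ j ∈ s, ((1/2) * ((a i)^2 / p i * (K i j * p j)) + (1/2) * ((a j)^2 / p j * (K j i * p i))) := by
        apply Finset.sum_le_sum
        intro i hi
        apply Finset.sum_le_sum
        intro j hj
        exact h1 i hi j hj
    _ = (1/2) * ∑ i ∈ s, ∑ j ∈ s, ((a i)^2 / p i * (K i j * p j)) +
        (1/2) * ∑ i ∈ s, ∑ j ∈ s, ((a j)^2 / p j * (K j i * p i)) := by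
        simp_rw [Finset.sum_add_distrib, ← Finset.mul_sum]
    _ = ∑ i ∈ s, ∑ j ∈ s, ((a i)^2 / p i * (K i j * p j)) := by
        rw [Finset.sum_comm (f := fun i j => ((a j)^2 / p j * (K j i * p i)))]
        ring
    _ = _ := by
        apply Finset.sum_congr rfl
        intro i _
        rw [Finset.mul_sum]

lemma card_le_of_spread (s : Finset ℕ) {D : ℝ} (hD : 0 ≤ D)
    (h : ∀ a ∈ s, ∀ b ∈ s, (b:ℝ) - a ≤ D) : (s.card : ℝ) ≤ D + 1 := by
  rcases s.eq_empty_or_nonempty with rfl | hne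
  · simp; linarith
  · have h1 : s ⊆ Finset.Icc (s.min' hne) (s.max' hne) := by
      intro x hx
      rw [Finset.mem_Icc]
      exact ⟨s.min'_le x hx, s.le_max' x hx⟩
    have h2 := Finset.card_le_card h1
    rw [Nat.card_Icc] at h2
    have h3 := h _ (s.min'_mem hne) _ (s.max'_mem hne)
    have h4 : s.min' hne ≤ s.max' hne := s.min'_le _ (s.max'_mem hne)
    have h5 : (s.card : ℝ) ≤ (s.max' hne : ℝ) + 1 - s.min' hne := by
      have : s.card + s.min' hne ≤ s.max' hne + 1 := by omega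
      have h6 : ((s.card + s.min' hne : ℕ) : ℝ) ≤ ((s.max' hne + 1 : ℕ) : ℝ) := by exact_mod_cast this
      push_cast at h6
      linarith
    linarith

open Classical in
/-- the number of `m` in the block `q² ≤ m < (q+1)²` with `t - α√m` close to an integer -/
lemma block_count {α t : ℝ} (hα : 0 < α) {L : ℕ} (hL : 1 ≤ L) (q : ℕ) :
    ∑ m ∈ Finset.Ico (q^2) ((q+1)^2), near L (t - α * √(m:ℝ)) ≤
      (α + 2) * (1 + 2 * (q+1) / (α * L)) := by
  have hL' : (1:ℝ) ≤ L := by exact_mod_cast hL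
  have hr : (1:ℝ)/(2*L) ≤ 1/2 := by
    apply one_div_le_one_div_of_le (by norm_num); linarith
  set I := Finset.Ico (q^2) ((q+1)^2) with hI
  have hsq : ∀ m ∈ I, (q:ℝ) ≤ √(m:ℝ) ∧ √(m:ℝ) ≤ q + 1 := by
    intro m hm
    rw [hI, Finset.mem_Ico] at hm
    constructor
    · apply Real.le_sqrt_of_sq_le
      exact_mod_cast hm.1
    · rw [Real.sqrt_le_left (by positivity)]
      exact_mod_cast hm.2.le
  set Ks := Finset.Icc ⌈t - α * (q+1) - 1/2⌉ ⌊t - α * q + 1/2⌋ with hKs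
  have hKcard : (Ks.card : ℝ) ≤ α + 2 := by
    rw [hKs, Int.card_Icc]
    have h1 := Int.le_ceil (t - α * (q+1) - 1/2)
    have h2 := Int.floor_le (t - α * q + 1/2)
    have h3 : (((⌊t - α * q + 1/2⌋ + 1 - ⌈t - α * (q+1) - 1/2⌉).toNat : ℤ) : ℝ) ≤
        max ((⌊t - α * q + 1/2⌋ + 1 - ⌈t - α * (q+1) - 1/2⌉ : ℤ) : ℝ) 0 := by
      rw [Int.toNat_eq_max]; push_cast; rfl
    have h4 : (((⌊t - α * q + 1/2⌋ + 1 - ⌈t - α * (q+1) - 1/2⌉).toNat : ℕ) : ℝ) ≤
        max ((⌊t - α * q + 1/2⌋ + 1 - ⌈t - α * (q+1) - 1/2⌉ : ℤ) : ℝ) 0 := by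
      exact_mod_cast h3
    refine h4.trans ?_
    apply max_le
    · push_cast; nlinarith
    · linarith
  have hfib : ∀ k : ℤ, ((I.filter (fun m : ℕ => |t - α * √(m:ℝ) - k| ≤ 1/(2*L))).card : ℝ) ≤
      1 + 2 * (q+1) / (α * L) := by
    intro k
    rw [add_comm]
    apply card_le_of_spread _ (by positivity)
    intro a ha b hb
    rw [Finset.mem_filter] at ha hb
    have h1 := abs_le.mp ha.2
    have h2 := abs_le.mp hb.2
    have h3 := hsq a ha.1
    have h4 := hsq b hb.1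
    have h5 : α * (√(b:ℝ) - √(a:ℝ)) ≤ 1 / L := by
      have : (1:ℝ)/L = 1/(2*L) + 1/(2*L) := by field_simp; ring
      rw [this]; linarith
    have h6 : √(b:ℝ) - √(a:ℝ) ≤ 1/(α * L) := by
      rw [le_div_iff₀ (by positivity)]
      rw [le_div_iff₀ (by positivity)] at h5
      linarith
    have h7 : (b:ℝ) - a = (√(b:ℝ) - √(a:ℝ)) * (√(b:ℝ) + √(a:ℝ)) := by
      have e1 := Real.mul_self_sqrt (Nat.cast_nonneg (α := ℝ) b)
      have e2 := Real.mul_self_sqrt (Nat.cast_nonneg (α := ℝ) a)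
      linear_combination (-1) * e1 + e2
    rw [h7]
    have h8 : 0 ≤ √(b:ℝ) + √(a:ℝ) := by positivity
    calc (√(b:ℝ) - √(a:ℝ)) * (√(b:ℝ) + √(a:ℝ)) ≤ 1/(α * L) * (√(b:ℝ) + √(a:ℝ)) :=
          mul_le_mul_of_nonneg_right h6 h8
      _ ≤ 1/(α * L) * (2 * (q+1)) := by
          apply mul_le_mul_of_nonneg_left _ (by positivity)
          linarith [h3.2, h4.2]
      _ = _ := by ring
  calc ∑ m ∈ I, near L (t - α * √(m:ℝ))
      ≤ ∑ m ∈ I, ∑ k ∈ Ks, (if |t - α * √(m:ℝ) - k| ≤ 1/(2*L) then (1:ℝ) else 0) := by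
        apply Finset.sum_le_sum
        intro m hm
        unfold near
        split_ifs with hk
        · obtain ⟨k, hk⟩ := hk
          have hkm : k ∈ Ks := by
            rw [hKs, Finset.mem_Icc]
            have h1 := abs_le.mp hk
            have h2 := hsq m hm
            constructor
            · apply Int.ceil_le.mpr
              nlinarith
            · apply Int.le_floor.mpr
              nlinarith
          calc (1:ℝ) = if |t - α * √(m:ℝ) - k| ≤ 1/(2*L) then (1:ℝ) else 0 := by rw [if_pos hk]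
            _ ≤ _ := Finset.single_le_sum (f := fun k : ℤ => if |t - α * √(m:ℝ) - k| ≤ 1/(2*L) then (1:ℝ) else 0)
                (fun k _ => by split_ifs <;> norm_num) hkm
        · apply Finset.sum_nonneg
          intro k _
          split_ifs <;> norm_num
    _ = ∑ k ∈ Ks, ((I.filter (fun m : ℕ => |t - α * √(m:ℝ) - k| ≤ 1/(2*L))).card : ℝ) := by
        rw [Finset.sum_comm]
        apply Finset.sum_congr rfl
        intro k _
        rw [Finset.sum_ite, Finset.sum_const_zero, add_zero, Finset.sum_const, nsmul_eq_mul, mul_one]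
    _ ≤ ∑ k ∈ Ks, (1 + 2 * (q+1) / (α * L)) := Finset.sum_le_sum (fun k _ => hfib k)
    _ = Ks.card * (1 + 2 * (q+1) / (α * L)) := by rw [Finset.sum_const, nsmul_eq_mul]
    _ ≤ _ := by
        apply mul_le_mul_of_nonneg_right hKcard
        positivity

lemma near_symm (L : ℕ) (x : ℝ) : near L (-x) = near L x := by
  unfold near
  congr 1
  apply propext
  constructor
  · rintro ⟨k, hk⟩
    refine ⟨-k, ?_⟩
    push_cast
    rw [show x - -(k:ℝ) = -(-x - k) by ring, abs_neg]; exact hk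
  · rintro ⟨k, hk⟩
    refine ⟨-k, ?_⟩
    push_cast
    rw [show -x - -(k:ℝ) = -(x - k) by ring, abs_neg]; exact hk

/-- sum over blocks -/
lemma sum_blocks {α t : ℝ} (hα : 0 < α) {L : ℕ} (hL : 1 ≤ L) (Y : ℕ) (p : ℕ → ℝ) (P : ℕ → ℝ)
    (hP : ∀ q, 0 ≤ P q)
    (hp : ∀ m, 1 ≤ m → p m ≤ P (Nat.sqrt m)) :
    ∑ m ∈ Finset.Icc 1 (Y^2), near L (t - α * √(m:ℝ)) * p m ≤
      ∑ q ∈ Finset.Icc 1 Y, (α + 2) * (1 + 2 * (q+1) / (α * L)) * P q := by
  have hmaps : ∀ m ∈ Finset.Icc 1 (Y^2), Nat.sqrt m ∈ Finset.Icc 1 Y := by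
    intro m hm
    rw [Finset.mem_Icc] at hm ⊢
    constructor
    · rw [Nat.le_sqrt]; simpa using hm.1
    · have := Nat.sqrt_le_sqrt hm.2
      rw [sq, Nat.sqrt_eq] at this
      exact this
  rw [← Finset.sum_fiberwise_of_maps_to hmaps]
  apply Finset.sum_le_sum
  intro q hq
  have h1 : ∑ m ∈ (Finset.Icc 1 (Y^2)).filter (fun m => Nat.sqrt m = q), near L (t - α * √(m:ℝ)) * p m ≤
      ∑ m ∈ (Finset.Icc 1 (Y^2)).filter (fun m => Nat.sqrt m = q), near L (t - α * √(m:ℝ)) * P q := by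
    apply Finset.sum_le_sum
    intro m hm
    rw [Finset.mem_filter, Finset.mem_Icc] at hm
    apply mul_le_mul_of_nonneg_left _ (near_nonneg _ _)
    rw [← hm.2]
    exact hp m hm.1.1
  refine h1.trans ?_
  rw [← Finset.sum_mul]
  apply mul_le_mul_of_nonneg_right _ (hP q)
  refine le_trans ?_ (block_count (t := t) hα hL q)
  apply Finset.sum_le_sum_of_subset_of_nonneg
  · intro m hm
    rw [Finset.mem_filter, Finset.mem_Icc] at hm
    rw [Finset.mem_Ico]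
    have h3 := Nat.sqrt_le' m
    have h4 := Nat.lt_succ_sqrt' m
    rw [hm.2] at h3 h4
    exact ⟨h3, h4⟩
  · intro m _ _
    exact near_nonneg _ _

lemma sum_inv_le (Y : ℕ) : ∑ q ∈ Finset.Icc 1 Y, (1:ℝ)/q ≤ 1 + Real.log Y := by
  have h := harmonic_le_one_add_log Y
  rw [harmonic_eq_sum_Icc] at h
  push_cast at h
  refine le_trans (le_of_eq ?_) h
  apply Finset.sum_congr rfl
  intro q _
  rw [one_div]

lemma J_sq_le {x : ℝ} (hx : 0 < x) : (J x)^2 ≤ Real.pi^2 * min 1 (1/x) := by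
  have hpi := Real.pi_gt_three
  have h1 := abs_J_le x
  have h2 : (J x)^2 ≤ Real.pi^2 := by
    rw [← sq_abs]; exact pow_le_pow_left₀ (abs_nonneg _) h1 2
  rcases le_or_gt x 1 with h | h
  · rw [min_eq_left]
    · linarith
    · rw [le_div_iff₀ hx]; linarith
  · rw [min_eq_right]
    · have h3 := abs_J_le_rpow hx
      have h4 : x ^ (-(3/2):ℝ) ≤ x ^ (-(1/2):ℝ) := by
        apply Real.rpow_le_rpow_of_exponent_le h.le; norm_num
      have h5 : (J x)^2 ≤ ((1/2) * x ^ (-(1/2):ℝ))^2 := by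
        rw [← sq_abs]; exact pow_le_pow_left₀ (abs_nonneg _) (h3.trans (by linarith)) 2
      have h6 : (x ^ (-(1/2):ℝ))^2 = 1/x := by
        rw [← Real.rpow_natCast, ← Real.rpow_mul hx.le,
          show (-(1/2):ℝ) * ((2:ℕ):ℝ) = -1 by norm_num, Real.rpow_neg_one, one_div]
      rw [mul_pow, h6] at h5
      have h7 : 0 < 1/x := by positivity
      have h8 : 9 ≤ Real.pi^2 := by nlinarith
      nlinarith
    · rw [div_le_iff₀ hx]; linarith

/-- the bound for the quadratic form, for short progressions -/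
theorem quad_short {α : ℝ} (hα : 0 < α) {ε : ℝ} (hε : 0 < ε) : ∃ C : ℝ, 0 < C ∧
    ∀ (β δ : ℝ) (Y L : ℕ), 0 < δ → 1 ≤ Y → 1 ≤ L →
    ∑ i ∈ Finset.Icc 1 (Y^2), ∑ j ∈ Finset.Icc 1 (Y^2), ‖bc β δ i‖ * ‖bc β δ j‖ *
      near L (α * √(i:ℝ) - α * √(j:ℝ)) ≤ C * (1 + 1/(L * δ)) * (Y:ℝ) ^ ε := by
  obtain ⟨C1, hC1, hdiv⟩ := Pool.Agent.Helper112.divisor_bound (ε/8) (by positivity)
  refine ⟨(α + 2) * (1 + 4/α) * (1 + 4/ε)^2 * (16 * C1^2) * 2, by positivity, ?_⟩
  intro β δ Y L hδ hY hL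
  have hY' : (1:ℝ) ≤ Y := by exact_mod_cast hY
  have hL' : (1:ℝ) ≤ L := by exact_mod_cast hL
  have hpi := Real.pi_gt_three
  set s := Finset.Icc 1 (Y^2) with hs
  set p : ℕ → ℝ := fun m => (1/√(m:ℝ)) * min 1 (1/(δ * √(m:ℝ))) with hp
  have hpos : ∀ m ∈ s, 0 < √(m:ℝ) := by
    intro m hm
    rw [hs, Finset.mem_Icc] at hm
    apply Real.sqrt_pos.mpr
    exact_mod_cast hm.1
  have hppos : ∀ m ∈ s, 0 < p m := by
    intro m hm
    have := hpos m hm
    simp only [hp]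
    positivity
  have hsch := schur s (fun i => ‖bc β δ i‖) p (fun i j => near L (α * √(i:ℝ) - α * √(j:ℝ)))
    hppos (fun i j => near_nonneg _ _) (fun i j => by
      rw [← near_symm]; congr 1; ring)
  refine hsch.trans ?_
  have hlog : 1 + Real.log Y ≤ (1 + 4/ε) * (Y:ℝ) ^ (ε/4) := by
    have h1 := Real.log_le_rpow_div (x := (Y:ℝ)) (by positivity) (ε := ε/4) (by positivity)
    have h2 : 1 ≤ (Y:ℝ) ^ (ε/4) := Real.one_le_rpow hY' (by positivity)
    have h3 : (Y:ℝ) ^ (ε/4) / (ε/4) = 4/ε * (Y:ℝ)^(ε/4) := by field_simp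
    rw [h3] at h1
    nlinarith
  have hlog0 : 0 ≤ Real.log Y := Real.log_nonneg hY'
  -- inner sums
  have hinner : ∀ i ∈ s, ∑ j ∈ s, near L (α * √(i:ℝ) - α * √(j:ℝ)) * p j ≤
      (α + 2) * ((1 + 4/α) * (1 + 1/(L*δ))) * (1 + Real.log Y) := by
    intro i _
    have h1 := sum_blocks (t := α * √(i:ℝ)) hα hL Y p (fun q => if q = 0 then 0 else (1/(q:ℝ)) * min 1 (1/(δ * q)))
      (fun q => by split_ifs; exact le_rfl; positivity) ?_
    · refine h1.trans ?_
      have h2 : ∀ q ∈ Finset.Icc 1 Y, (α + 2) * (1 + 2 * ((q:ℝ)+1) / (α * L)) * (if q = 0 then 0 else (1/(q:ℝ)) * min 1 (1/(δ * q))) ≤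
          (α + 2) * ((1 + 4/α) * (1 + 1/(L*δ))) * (1/(q:ℝ)) := by
        intro q hq
        rw [Finset.mem_Icc] at hq
        have hq' : (1:ℝ) ≤ q := by exact_mod_cast hq.1
        rw [if_neg (by omega), mul_assoc, mul_assoc]
        apply mul_le_mul_of_nonneg_left _ (by positivity)
        have e1 : (1 + 2 * ((q:ℝ)+1) / (α * L)) ≤ 1 + (4/α) * (q / L) := by
          have : 2 * ((q:ℝ)+1) / (α * L) ≤ (4/α) * (q / L) := by
            rw [div_mul_div_comm]
            apply div_le_div_of_nonneg_right _ (by positivity)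
            linarith
          linarith
        have e2 : (q / L) * min 1 (1/(δ * q)) ≤ 1/(L*δ) := by
          calc (q / L) * min 1 (1/(δ * q)) ≤ (q/L) * (1/(δ * q)) := by
                apply mul_le_mul_of_nonneg_left (min_le_right _ _) (by positivity)
            _ = 1/(L*δ) := by field_simp
        have e3 : min 1 (1/(δ * (q:ℝ))) ≤ 1 := min_le_left _ _
        have e4 : 0 ≤ min 1 (1/(δ * (q:ℝ))) := by positivity
        calc (1 + 2 * ((q:ℝ)+1) / (α * L)) * ((1/(q:ℝ)) * min 1 (1/(δ * q)))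
            ≤ (1 + (4/α) * (q / L)) * ((1/(q:ℝ)) * min 1 (1/(δ * q))) := by gcongr
          _ = (1/(q:ℝ)) * (min 1 (1/(δ * q)) + (4/α) * ((q / L) * min 1 (1/(δ * q)))) := by ring
          _ ≤ (1/(q:ℝ)) * (1 + (4/α) * (1/(L*δ))) := by gcongr
          _ ≤ (1/(q:ℝ)) * ((1 + 4/α) * (1 + 1/(L*δ))) := by
              apply mul_le_mul_of_nonneg_left _ (by positivity)
              have : 0 < 4/α := by positivity
              have : 0 < 1/(L*δ) := by positivity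
              nlinarith
          _ = _ := by ring
      refine (Finset.sum_le_sum h2).trans ?_
      rw [← Finset.mul_sum]
      exact mul_le_mul_of_nonneg_left (sum_inv_le Y) (by positivity)
    · intro m hm
      have hm0 : m ≠ 0 := by omega
      have h0 : Nat.sqrt m ≠ 0 := by
        intro h; rw [Nat.sqrt_eq_zero] at h; exact hm0 h
      simp only [hp]
      rw [if_neg h0]
      have h1 : (1:ℝ) ≤ Nat.sqrt m := by exact_mod_cast Nat.one_le_iff_ne_zero.mpr h0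
      have h2 : (Nat.sqrt m : ℝ) ≤ √(m:ℝ) := Real.nat_sqrt_le_real_sqrt
      gcongr
  have houter : ∑ i ∈ s, ‖bc β δ i‖^2 / p i ≤ (16 * C1^2) * ((Y:ℝ)^(ε/2) * (2 * (1 + Real.log Y))) := by
    have h1 : ∀ i ∈ s, ‖bc β δ i‖^2 / p i ≤ (16 * C1^2) * (Y:ℝ)^(ε/2) * (1/(i:ℝ)) := by
      intro i hi
      have hi0 := hpos i hi
      have hi' := hi
      rw [hs, Finset.mem_Icc] at hi'
      have hi1 : (1:ℝ) ≤ i := by exact_mod_cast hi'.1
      have hr : rA i ≤ 4 * (C1 * (i:ℝ)^(ε/8)) := by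
        have a := card_A_le i hi'.1
        have b := hdiv i hi'.1
        unfold rA
        have c : ((A i).ncard : ℝ) ≤ 4 * (i.divisors.card : ℝ) := by exact_mod_cast a
        linarith
      have hr2 : rA i ≤ 4 * C1 * (Y:ℝ)^(ε/4) := by
        refine hr.trans ?_
        have : (i:ℝ)^(ε/8) ≤ (Y:ℝ)^(ε/4) := by
          have e1 : (i:ℝ) ≤ (Y:ℝ)^2 := by exact_mod_cast hi'.2
          calc (i:ℝ)^(ε/8) ≤ ((Y:ℝ)^2)^(ε/8) := Real.rpow_le_rpow (by positivity) e1 (by positivity)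
            _ = (Y:ℝ)^(ε/4) := by
                rw [← Real.rpow_natCast, ← Real.rpow_mul (by positivity)]
                congr 1; push_cast; ring
        nlinarith
      rw [norm_bc]
      set M := min 1 (1/(δ * √(i:ℝ))) with hM
      have hM0 : 0 < M := by positivity
      have hJ := J_sq_le (x := δ * √(i:ℝ)) (by positivity)
      rw [← hM] at hJ
      have e1 : ((√(i:ℝ)) ^ (-(3/2):ℝ))^2 = 1/(√(i:ℝ))^3 := by
        rw [← Real.rpow_natCast, ← Real.rpow_mul hi0.le, one_div, ← Real.rpow_natCast (√(i:ℝ)) 3,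
          ← Real.rpow_neg hi0.le]; norm_num
      have e2 : (√(i:ℝ))^2 = i := Real.sq_sqrt (by positivity)
      calc (rA i * ((1/Real.pi^2) * (√(i:ℝ)) ^ (-(3/2):ℝ) * |J (δ * √(i:ℝ))|))^2 / p i
          = (rA i)^2 * (1/Real.pi^4) * (((√(i:ℝ)) ^ (-(3/2):ℝ))^2) * (J (δ * √(i:ℝ)))^2 / ((1/√(i:ℝ)) * M) := by
            rw [← sq_abs (J (δ * √(i:ℝ)))]; ring
        _ ≤ (4 * C1 * (Y:ℝ)^(ε/4))^2 * (1/Real.pi^4) * (1/(√(i:ℝ))^3) * (Real.pi^2 * M) / ((1/√(i:ℝ)) * M) := by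
            rw [e1]
            have := rA_nonneg i
            gcongr
        _ = (16 * C1^2) * ((Y:ℝ)^(ε/4))^2 * (1/Real.pi^2) * (1/(√(i:ℝ))^2) := by
            have hpi0 := Real.pi_pos.ne'
            field_simp
            ring
        _ = (16 * C1^2) * (Y:ℝ)^(ε/2) * (1/Real.pi^2) * (1/(i:ℝ)) := by
            rw [e2, ← Real.rpow_natCast ((Y:ℝ)^(ε/4)), ← Real.rpow_mul (by positivity)]
            congr 4; push_cast; ring
        _ ≤ (16 * C1^2) * (Y:ℝ)^(ε/2) * 1 * (1/(i:ℝ)) := by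
            have : 1/Real.pi^2 ≤ 1 := by
              rw [div_le_one (by positivity)]; nlinarith
            gcongr
        _ = _ := by ring
    refine (Finset.sum_le_sum h1).trans ?_
    rw [← Finset.mul_sum, mul_assoc]
    apply mul_le_mul_of_nonneg_left _ (by positivity)
    apply mul_le_mul_of_nonneg_left _ (by positivity)
    refine (sum_inv_le (Y^2)).trans ?_
    push_cast
    rw [Real.log_pow]
    push_cast
    linarith
  calc ∑ i ∈ s, ‖bc β δ i‖^2 / p i * ∑ j ∈ s, near L (α * √(i:ℝ) - α * √(j:ℝ)) * p j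
      ≤ ∑ i ∈ s, ‖bc β δ i‖^2 / p i * ((α + 2) * ((1 + 4/α) * (1 + 1/(L*δ))) * (1 + Real.log Y)) := by
        apply Finset.sum_le_sum
        intro i hi
        have := hppos i hi
        exact mul_le_mul_of_nonneg_left (hinner i hi) (by positivity)
    _ = (∑ i ∈ s, ‖bc β δ i‖^2 / p i) * ((α + 2) * ((1 + 4/α) * (1 + 1/(L*δ))) * (1 + Real.log Y)) := by
        rw [Finset.sum_mul]
    _ ≤ ((16 * C1^2) * ((Y:ℝ)^(ε/2) * (2 * (1 + Real.log Y)))) * ((α + 2) * ((1 + 4/α) * (1 + 1/(L*δ))) * (1 + Real.log Y)) := by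
        apply mul_le_mul_of_nonneg_right houter (by positivity)
    _ ≤ ((16 * C1^2) * ((Y:ℝ)^(ε/2) * (2 * ((1 + 4/ε) * (Y:ℝ)^(ε/4))))) * ((α + 2) * ((1 + 4/α) * (1 + 1/(L*δ))) * ((1 + 4/ε) * (Y:ℝ)^(ε/4))) := by
        gcongr
    _ = (α + 2) * (1 + 4/α) * (1 + 4/ε)^2 * (16 * C1^2) * 2 * (1 + 1/(L*δ)) * ((Y:ℝ)^(ε/2) * (Y:ℝ)^(ε/4) * (Y:ℝ)^(ε/4)) := by ring
    _ = _ := by
        congr 1
        rw [← Real.rpow_add (by positivity), ← Real.rpow_add (by positivity)]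
        congr 1; ring

end Pool.Agent.H383.Gauss
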