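import Mathlib
import Pool.Agent.H383.Short
import Pool.Agent.H383.NearCurve

open Set Filter Topology

namespace Pool.Agent.H383.Gauss

/-- majorant of the coefficients -/
noncomputable def hf (δ x : ℝ) : ℝ := x ^ (-(37/25):ℝ) * min 1 ((δ * x) ^ (-(3/2):ℝ))

lemma hf_nonneg {δ x : ℝ} (hδ : 0 < δ) (hx : 0 < x) : 0 ≤ hf δ x := by unfold hf; positivity

lemma hf_anti {δ x y : ℝ} (hδ : 0 < δ) (hx : 0 < x) (hxy : x ≤ y) : hf δ y ≤ hf δ x := by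
  unfold hf
  have h1 : y ^ (-(37/25):ℝ) ≤ x ^ (-(37/25):ℝ) := Real.rpow_le_rpow_of_nonpos hx hxy (by norm_num)
  have h2 : (δ * y) ^ (-(3/2):ℝ) ≤ (δ * x) ^ (-(3/2):ℝ) :=
    Real.rpow_le_rpow_of_nonpos (by positivity) (by gcongr) (by norm_num)
  have hy : 0 < y := by linarith
  have h3 : min 1 ((δ * y) ^ (-(3/2):ℝ)) ≤ min 1 ((δ * x) ^ (-(3/2):ℝ)) := min_le_min_left _ h2
  apply mul_le_mul h1 h3 (by positivity) (by positivity)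

lemma hf_half {δ x : ℝ} (hδ : 0 < δ) (hx : 0 < x) : hf δ (x/2) ≤ 8 * hf δ x := by
  unfold hf
  have e0 : (1/2:ℝ) ^ (-(3/2):ℝ) * (1/2:ℝ) ^ (-(3/2):ℝ) = 8 := by
    rw [← Real.rpow_add (by norm_num), one_div, Real.inv_rpow (by norm_num), ← Real.rpow_neg (by norm_num)]
    norm_num
  have e1 : (x/2) ^ (-(37/25):ℝ) ≤ (1/2:ℝ) ^ (-(3/2):ℝ) * x ^ (-(37/25):ℝ) := by
    rw [show x/2 = (1/2) * x by ring, Real.mul_rpow (by norm_num) hx.le]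
    apply mul_le_mul_of_nonneg_right _ (by positivity)
    apply Real.rpow_le_rpow_of_exponent_ge (by norm_num) (by norm_num) (by norm_num)
  have e2 : (δ * (x/2)) ^ (-(3/2):ℝ) = (1/2:ℝ) ^ (-(3/2):ℝ) * (δ * x) ^ (-(3/2):ℝ) := by
    rw [show δ * (x/2) = (1/2) * (δ * x) by ring, Real.mul_rpow (by norm_num) (by positivity)]
  have e3 : (1:ℝ) ≤ (1/2:ℝ) ^ (-(3/2):ℝ) :=
    Real.one_le_rpow_of_pos_of_le_one_of_nonpos (by norm_num) (by norm_num) (by norm_num)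
  have e4 : min 1 ((δ * (x/2)) ^ (-(3/2):ℝ)) ≤ (1/2:ℝ) ^ (-(3/2):ℝ) * min 1 ((δ * x) ^ (-(3/2):ℝ)) := by
    rw [e2, mul_min_of_nonneg _ _ (by positivity)]
    apply min_le_min_right
    linarith
  calc (x/2) ^ (-(37/25):ℝ) * min 1 ((δ * (x/2)) ^ (-(3/2):ℝ))
      ≤ ((1/2:ℝ) ^ (-(3/2):ℝ) * x ^ (-(37/25):ℝ)) * ((1/2:ℝ) ^ (-(3/2):ℝ) * min 1 ((δ * x) ^ (-(3/2):ℝ))) := by
        apply mul_le_mul e1 e4 (by positivity) (by positivity)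
    _ = ((1/2:ℝ) ^ (-(3/2):ℝ) * (1/2:ℝ) ^ (-(3/2):ℝ)) * (x ^ (-(37/25):ℝ) * min 1 ((δ * x) ^ (-(3/2):ℝ))) := by ring
    _ = _ := by rw [e0]

lemma bc_le_hf : ∃ C : ℝ, 0 < C ∧ ∀ (β δ : ℝ) (m : ℕ), 0 < δ → 1 ≤ m →
    ‖bc β δ m‖ ≤ C * hf δ (√(m:ℝ)) := by
  obtain ⟨C1, hC1, hdiv⟩ := Pool.Agent.Helper112.divisor_bound (1/100) (by norm_num)
  refine ⟨4 * C1, by positivity, ?_⟩
  intro β δ m hδ hm
  have hm' : (1:ℝ) ≤ m := by exact_mod_cast hm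
  have hm0 : (0:ℝ) < m := by linarith
  have hs : 0 < √(m:ℝ) := Real.sqrt_pos.mpr hm0
  rw [norm_bc]
  have hr : rA m ≤ 4 * C1 * (√(m:ℝ)) ^ (1/50:ℝ) := by
    have a := card_A_le m hm
    have b := hdiv m hm
    unfold rA
    have c : ((A m).ncard : ℝ) ≤ 4 * (m.divisors.card : ℝ) := by exact_mod_cast a
    have d : (m:ℝ)^(1/100:ℝ) = (√(m:ℝ)) ^ (1/50:ℝ) := by
      rw [Real.sqrt_eq_rpow, ← Real.rpow_mul hm0.le]; norm_num
    rw [← d]; linarith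
  have hx : 0 < δ * √(m:ℝ) := by positivity
  have hpi := Real.pi_gt_three
  have hJ : |J (δ * √(m:ℝ))| ≤ Real.pi * min 1 ((δ * √(m:ℝ)) ^ (-(3/2):ℝ)) := by
    rw [mul_min_of_nonneg _ _ Real.pi_pos.le]
    apply le_min
    · rw [mul_one]; exact abs_J_le _
    · refine (abs_J_le_rpow hx).trans ?_
      have : 0 ≤ (δ * √(m:ℝ)) ^ (-(3/2):ℝ) := by positivity
      nlinarith
  have hnn := rA_nonneg m
  calc rA m * ((1/Real.pi^2) * (√(m:ℝ)) ^ (-(3/2):ℝ) * |J (δ * √(m:ℝ))|)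
      ≤ (4 * C1 * (√(m:ℝ)) ^ (1/50:ℝ)) * ((1/Real.pi^2) * (√(m:ℝ)) ^ (-(3/2):ℝ) * (Real.pi * min 1 ((δ * √(m:ℝ)) ^ (-(3/2):ℝ)))) := by
        gcongr
    _ = (1/Real.pi) * (4 * C1 * ((√(m:ℝ)) ^ (1/50:ℝ) * (√(m:ℝ)) ^ (-(3/2):ℝ) * min 1 ((δ * √(m:ℝ)) ^ (-(3/2):ℝ)))) := by
        have := Real.pi_pos.ne'
        field_simp
    _ ≤ 1 * (4 * C1 * ((√(m:ℝ)) ^ (1/50:ℝ) * (√(m:ℝ)) ^ (-(3/2):ℝ) * min 1 ((δ * √(m:ℝ)) ^ (-(3/2):ℝ)))) := by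
        apply mul_le_mul_of_nonneg_right _ (by positivity)
        rw [div_le_one (by positivity)]; linarith
    _ = _ := by
        unfold hf
        rw [← Real.rpow_add hs]
        norm_num

lemma U_pow {q κ a1 a2 : ℝ} (hq : 0 < q) (hκ : 0 < κ) (h1 : 0 ≤ a1) (h2 : 0 ≤ a2) :
    (q + κ) ^ (-(a1 + a2)) ≤ q ^ (-a1) * κ ^ (-a2) := by
  rw [neg_add, Real.rpow_add (by positivity)]
  apply mul_le_mul
  · exact Real.rpow_le_rpow_of_nonpos hq (by linarith) (by linarith)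
  · exact Real.rpow_le_rpow_of_nonpos hκ (by linarith) (by linarith)
  · positivity
  · positivity

/-- interpolation of the weight -/
lemma min_le_pow {x s : ℝ} (hx : 0 < x) (h0 : 0 ≤ s) (h1 : s ≤ 3/2) :
    min 1 (x ^ (-(3/2):ℝ)) ≤ x ^ (-s) := by
  rcases le_or_gt x 1 with h | h
  · exact (min_le_left _ _).trans (Real.one_le_rpow_of_pos_of_le_one_of_nonpos hx h (by linarith))
  · exact (min_le_right _ _).trans (Real.rpow_le_rpow_of_exponent_le h.le (by linarith))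

lemma hf_prod {N q U s : ℝ} (hN : 0 < N) (hq : 0 < q) (hU : 0 < U) (h0 : 0 ≤ s) (h1 : s ≤ 3/2) :
    hf (N ^ (-(25/48):ℝ)) q * hf (N ^ (-(25/48):ℝ)) U ≤
      N ^ (25/24 * s) * (q ^ (-(37/25) - s) * U ^ (-(37/25) - s)) := by
  set δ := N ^ (-(25/48):ℝ) with hδ
  have hδ0 : 0 < δ := by positivity
  have e1 := min_le_pow (x := δ * q) (by positivity) h0 h1
  have e2 := min_le_pow (x := δ * U) (by positivity) h0 h1
  have e3 : δ ^ (-s) * δ ^ (-s) = N ^ (25/24 * s) := by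
    rw [← Real.rpow_add hδ0, hδ, ← Real.rpow_mul hN.le]; congr 1; ring
  unfold hf
  calc q ^ (-(37/25):ℝ) * min 1 ((δ * q) ^ (-(3/2):ℝ)) * (U ^ (-(37/25):ℝ) * min 1 ((δ * U) ^ (-(3/2):ℝ)))
      ≤ q ^ (-(37/25):ℝ) * (δ * q) ^ (-s) * (U ^ (-(37/25):ℝ) * (δ * U) ^ (-s)) := by gcongr
    _ = (δ ^ (-s) * δ ^ (-s)) * ((q ^ (-(37/25):ℝ) * q ^ (-s)) * (U ^ (-(37/25):ℝ) * U ^ (-s))) := by
        rw [Real.mul_rpow hδ0.le hq.le, Real.mul_rpow hδ0.le hU.le]; ring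
    _ = _ := by
        rw [e3, ← Real.rpow_add hq, ← Real.rpow_add hU]
        ring_nf

/-- the pointwise estimate which makes the off-diagonal sum converge -/
lemma pw {N q κ : ℝ} (hN : 0 < N) (hq : 1 ≤ q) (hκ : 0 < κ) :
    (κ ^ (1/3:ℝ) + q * (q + κ) / N) * (1 + √(q^3 * (q + κ) / (κ * N))) *
      (hf (N ^ (-(25/48):ℝ)) q * hf (N ^ (-(25/48):ℝ)) (q + κ)) ≤
      4 * (κ ^ (-(101/100):ℝ) * q ^ (-(101/100):ℝ)) := by
  have hq0 : 0 < q := by linarith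
  have hU : 0 < q + κ := by linarith
  set U := q + κ with hUd
  set H := hf (N ^ (-(25/48):ℝ)) q * hf (N ^ (-(25/48):ℝ)) U with hH
  have hH0 : 0 ≤ H := mul_nonneg (hf_nonneg (by positivity) hq0) (hf_nonneg (by positivity) hU)
  set R := κ ^ (-(101/100):ℝ) * q ^ (-(101/100):ℝ) with hR
  have hqp : ∀ a : ℝ, a ≤ -(101/100) → q ^ a ≤ q ^ (-(101/100):ℝ) := fun a ha =>
    Real.rpow_le_rpow_of_exponent_le hq ha
  have hx : √(q^3 * U / (κ * N)) = q ^ (3/2:ℝ) * U ^ (1/2:ℝ) * κ ^ (-(1/2):ℝ) * N ^ (-(1/2):ℝ) := by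
    rw [Real.sqrt_eq_rpow, Real.div_rpow (by positivity) (by positivity), Real.mul_rpow (by positivity) hU.le,
      Real.mul_rpow hκ.le hN.le, ← Real.rpow_natCast, ← Real.rpow_mul hq0.le, Real.rpow_neg hκ.le,
      Real.rpow_neg hN.le, div_eq_mul_inv, mul_inv]
    norm_num
    ring
  have hqN : q * U / N = q * U * N ^ (-1:ℝ) := by rw [Real.rpow_neg_one]; ring
  -- term 1
  have t1 : κ ^ (1/3:ℝ) * H ≤ R := by
    have h := hf_prod (s := 0) hN hq0 hU le_rfl (by norm_num)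
    simp only [mul_zero, Real.rpow_zero, one_mul, sub_zero] at h
    have hu := U_pow (a1 := 41/300) (a2 := 403/300) hq0 hκ (by norm_num) (by norm_num)
    rw [show (-(41/300 + 403/300) : ℝ) = -(37/25) by norm_num, ← hUd] at hu
    calc κ ^ (1/3:ℝ) * H ≤ κ ^ (1/3:ℝ) * (q ^ (-(37/25):ℝ) * (q ^ (-(41/300):ℝ) * κ ^ (-(403/300):ℝ))) := by
          gcongr
          exact h.trans (by gcongr)
      _ = (κ ^ (1/3:ℝ) * κ ^ (-(403/300):ℝ)) * (q ^ (-(37/25):ℝ) * q ^ (-(41/300):ℝ)) := by ring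
      _ = κ ^ (-(101/100):ℝ) * q ^ (-(97/60):ℝ) := by
          rw [← Real.rpow_add hκ, ← Real.rpow_add hq0]; norm_num
      _ ≤ R := by
          rw [hR]; exact mul_le_mul_of_nonneg_left (hqp (-(97/60)) (by norm_num)) (by positivity)
  -- term 2
  have t2 : κ ^ (1/3:ℝ) * √(q^3 * U / (κ * N)) * H ≤ R := by
    have h := hf_prod (s := 12/25) hN hq0 hU (by norm_num) (by norm_num)
    rw [show (25/24 * (12/25) : ℝ) = 1/2 by norm_num, show (-(37/25) - 12/25 : ℝ) = -(49/25) by norm_num] at h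
    have hu := U_pow (a1 := 37/60) (a2 := 253/300) hq0 hκ (by norm_num) (by norm_num)
    rw [show (-(37/60 + 253/300) : ℝ) = -(73/50) by norm_num, ← hUd] at hu
    calc κ ^ (1/3:ℝ) * √(q^3 * U / (κ * N)) * H
        ≤ κ ^ (1/3:ℝ) * (q ^ (3/2:ℝ) * U ^ (1/2:ℝ) * κ ^ (-(1/2):ℝ) * N ^ (-(1/2):ℝ)) *
          (N ^ (1/2:ℝ) * (q ^ (-(49/25):ℝ) * U ^ (-(49/25):ℝ))) := by
          rw [hx]; gcongr
      _ = (N ^ (-(1/2):ℝ) * N ^ (1/2:ℝ)) * (κ ^ (1/3:ℝ) * κ ^ (-(1/2):ℝ)) * (q ^ (3/2:ℝ) * q ^ (-(49/25):ℝ)) *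
          (U ^ (1/2:ℝ) * U ^ (-(49/25):ℝ)) := by ring
      _ = κ ^ (-(1/6):ℝ) * q ^ (-(23/50):ℝ) * U ^ (-(73/50):ℝ) := by
          rw [← Real.rpow_add hκ, ← Real.rpow_add hq0, ← Real.rpow_add hN, ← Real.rpow_add hU]
          norm_num
      _ ≤ κ ^ (-(1/6):ℝ) * q ^ (-(23/50):ℝ) * (q ^ (-(37/60):ℝ) * κ ^ (-(253/300):ℝ)) := by gcongr
      _ = (κ ^ (-(1/6):ℝ) * κ ^ (-(253/300):ℝ)) * (q ^ (-(23/50):ℝ) * q ^ (-(37/60):ℝ)) := by ring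
      _ = κ ^ (-(101/100):ℝ) * q ^ (-(323/300):ℝ) := by
          rw [← Real.rpow_add hκ, ← Real.rpow_add hq0]; norm_num
      _ ≤ R := by
          rw [hR]; exact mul_le_mul_of_nonneg_left (hqp (-(323/300)) (by norm_num)) (by positivity)
  -- term 3
  have t3 : (q * U / N) * H ≤ R := by
    have h := hf_prod (s := 24/25) hN hq0 hU (by norm_num) (by norm_num)
    rw [show (25/24 * (24/25) : ℝ) = 1 by norm_num, show (-(37/25) - 24/25 : ℝ) = -(61/25) by norm_num] at h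
    have hu := U_pow (a1 := 43/100) (a2 := 101/100) hq0 hκ (by norm_num) (by norm_num)
    rw [show (-(43/100 + 101/100) : ℝ) = -(36/25) by norm_num, ← hUd] at hu
    calc (q * U / N) * H
        ≤ (q * U * N ^ (-1:ℝ)) * (N ^ (1:ℝ) * (q ^ (-(61/25):ℝ) * U ^ (-(61/25):ℝ))) := by
          rw [hqN]; gcongr
      _ = (N ^ (-1:ℝ) * N ^ (1:ℝ)) * (q ^ (1:ℝ) * q ^ (-(61/25):ℝ)) * (U ^ (1:ℝ) * U ^ (-(61/25):ℝ)) := by
          rw [Real.rpow_one q, Real.rpow_one U]; ring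
      _ = q ^ (-(36/25):ℝ) * U ^ (-(36/25):ℝ) := by
          rw [← Real.rpow_add hq0, ← Real.rpow_add hN, ← Real.rpow_add hU]
          norm_num
      _ ≤ q ^ (-(36/25):ℝ) * (q ^ (-(43/100):ℝ) * κ ^ (-(101/100):ℝ)) := by gcongr
      _ = κ ^ (-(101/100):ℝ) * (q ^ (-(36/25):ℝ) * q ^ (-(43/100):ℝ)) := by ring
      _ = κ ^ (-(101/100):ℝ) * q ^ (-(187/100):ℝ) := by
          rw [← Real.rpow_add hq0]; norm_num
      _ ≤ R := by
          rw [hR]; exact mul_le_mul_of_nonneg_left (hqp (-(187/100)) (by norm_num)) (by positivity)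
  -- term 4
  have t4 : (q * U / N) * √(q^3 * U / (κ * N)) * H ≤ R := by
    have h := hf_prod (s := 36/25) hN hq0 hU (by norm_num) (by norm_num)
    rw [show (25/24 * (36/25) : ℝ) = 3/2 by norm_num, show (-(37/25) - 36/25 : ℝ) = -(73/25) by norm_num] at h
    have hu := U_pow (a1 := 91/100) (a2 := 51/100) hq0 hκ (by norm_num) (by norm_num)
    rw [show (-(91/100 + 51/100) : ℝ) = -(71/50) by norm_num, ← hUd] at hu
    calc (q * U / N) * √(q^3 * U / (κ * N)) * H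
        ≤ (q * U * N ^ (-1:ℝ)) * (q ^ (3/2:ℝ) * U ^ (1/2:ℝ) * κ ^ (-(1/2):ℝ) * N ^ (-(1/2):ℝ)) *
          (N ^ (3/2:ℝ) * (q ^ (-(73/25):ℝ) * U ^ (-(73/25):ℝ))) := by
          rw [hqN, hx]; gcongr
      _ = (N ^ (-1:ℝ) * N ^ (-(1/2):ℝ) * N ^ (3/2:ℝ)) * κ ^ (-(1/2):ℝ) * (q ^ (1:ℝ) * q ^ (3/2:ℝ) * q ^ (-(73/25):ℝ)) *
          (U ^ (1:ℝ) * U ^ (1/2:ℝ) * U ^ (-(73/25):ℝ)) := by
          rw [Real.rpow_one q, Real.rpow_one U]; ring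
      _ = κ ^ (-(1/2):ℝ) * q ^ (-(21/50):ℝ) * U ^ (-(71/50):ℝ) := by
          rw [← Real.rpow_add hq0, ← Real.rpow_add hq0, ← Real.rpow_add hN, ← Real.rpow_add hN,
            ← Real.rpow_add hU, ← Real.rpow_add hU]
          norm_num
      _ ≤ κ ^ (-(1/2):ℝ) * q ^ (-(21/50):ℝ) * (q ^ (-(91/100):ℝ) * κ ^ (-(51/100):ℝ)) := by gcongr
      _ = (κ ^ (-(1/2):ℝ) * κ ^ (-(51/100):ℝ)) * (q ^ (-(21/50):ℝ) * q ^ (-(91/100):ℝ)) := by ring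
      _ = κ ^ (-(101/100):ℝ) * q ^ (-(133/100):ℝ) := by
          rw [← Real.rpow_add hκ, ← Real.rpow_add hq0]; norm_num
      _ ≤ R := by
          rw [hR]; exact mul_le_mul_of_nonneg_left (hqp (-(133/100)) (by norm_num)) (by positivity)
  calc _ = κ ^ (1/3:ℝ) * H + κ ^ (1/3:ℝ) * √(q^3 * U / (κ * N)) * H + (q * U / N) * H +
        (q * U / N) * √(q^3 * U / (κ * N)) * H := by ring
    _ ≤ R + R + R + R := by gcongr
    _ = _ := by ring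

end Pool.Agent.H383.Gauss
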