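import Mathlib
import Pool.Agent.H383.QTail

open Set Filter Topology

namespace Pool.Agent.H383.Gauss

lemma block_sum (M Y : ℕ) (f : ℕ → ℝ) (hf0 : ∀ j, 0 ≤ f j) :
    ∑ j ∈ Finset.Ioc (M^2) (Y^2), f j ≤
      ∑ q ∈ Finset.Icc M Y, ∑ j ∈ Finset.Ico (q^2) ((q+1)^2), f j := by
  have hmaps : ∀ m ∈ Finset.Ioc (M^2) (Y^2), Nat.sqrt m ∈ Finset.Icc M Y := by
    intro m hm
    rw [Finset.mem_Ioc] at hm
    rw [Finset.mem_Icc]
    constructor
    · rw [Nat.le_sqrt']; exact hm.1.le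
    · have := Nat.sqrt_le_sqrt hm.2
      rw [sq, Nat.sqrt_eq] at this
      exact this
  rw [← Finset.sum_fiberwise_of_maps_to hmaps]
  apply Finset.sum_le_sum
  intro q hq
  apply Finset.sum_le_sum_of_subset_of_nonneg
  · intro m hm
    rw [Finset.mem_filter, Finset.mem_Ioc] at hm
    rw [Finset.mem_Ico]
    have h3 := Nat.sqrt_le' m
    have h4 := Nat.lt_succ_sqrt' m
    rw [hm.2] at h3 h4
    exact ⟨h3, h4⟩
  · intro m _ _
    exact hf0 m

lemma sqrt_block {j q : ℕ} (h : j ∈ Finset.Ico (q^2) ((q+1)^2)) :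
    (q:ℝ) ≤ √(j:ℝ) ∧ √(j:ℝ) ≤ q + 1 := by
  rw [Finset.mem_Ico] at h
  constructor
  · apply Real.le_sqrt_of_sq_le
    exact_mod_cast h.1
  · rw [Real.sqrt_le_left (by positivity)]
    exact_mod_cast h.2.le

/-- the condition that `α(√i - √j)` is within `1/(2N)` of `k` -/
def nr (α : ℝ) (N : ℕ) (k i j : ℕ) : Prop := |α * (√(i:ℝ) - √(j:ℝ)) - k| ≤ 1 / (2 * N)

/-- the near-curve condition -/
def nc (α : ℝ) (N : ℕ) (k q j : ℕ) : Prop :=
  ∃ y : ℤ, |(k/α)^2 + 2 * (k/α) * √(j:ℝ) - y| ≤ 3 * (q + k/α) / (α * N)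

lemma nr_dist {α : ℝ} (hα : 0 < α) {N k i j : ℕ} (hN : 1 ≤ N) (h : nr α N k i j) :
    |√(i:ℝ) - (√(j:ℝ) + k/α)| ≤ 1 / (2 * α * N) := by
  have hN' : (0:ℝ) < N := by exact_mod_cast hN
  unfold nr at h
  have e : √(i:ℝ) - (√(j:ℝ) + k/α) = (α * (√(i:ℝ) - √(j:ℝ)) - k) / α := by
    field_simp
    ring
  rw [e, abs_div, abs_of_pos hα, div_le_iff₀ hα]
  refine h.trans (le_of_eq ?_)
  field_simp

lemma nr_nc {α : ℝ} (hα : 0 < α) {N k i j q : ℕ} (hN : 1 ≤ N) (hN2 : 1 ≤ 4 * α * N) (hq : 1 ≤ q)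
    (hj : j ∈ Finset.Ico (q^2) ((q+1)^2)) (h : nr α N k i j) : nc α N k q j := by
  have hN' : (0:ℝ) < N := by exact_mod_cast hN
  have hq' : (1:ℝ) ≤ q := by exact_mod_cast hq
  obtain ⟨h1, h2⟩ := sqrt_block hj
  have h3 := nr_dist hα hN h
  have hk : (0:ℝ) ≤ k/α := by positivity
  set κ : ℝ := k/α with hκ
  set s := √(j:ℝ) with hs
  set u := √(i:ℝ) with hu
  have hu2 : u^2 = i := Real.sq_sqrt (Nat.cast_nonneg i)
  have hs2 : s^2 = j := Real.sq_sqrt (Nat.cast_nonneg j)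
  set η := u - (s + κ) with hη
  refine ⟨(i:ℤ) - (j:ℤ), ?_⟩
  push_cast
  have e : κ^2 + 2 * κ * s - ((i:ℝ) - j) = -(2 * (s + κ) * η + η^2) := by
    rw [← hu2, ← hs2, hη]; ring
  rw [e, abs_neg]
  set ρ : ℝ := 1 / (α * N) with hρ
  have hρ0 : 0 < ρ := by positivity
  have hηρ : |η| ≤ ρ / 2 := by
    refine h3.trans (le_of_eq ?_)
    rw [hρ]; field_simp
  have hρ4 : ρ ≤ 4 := by
    rw [hρ, div_le_iff₀ (by positivity)]; linarith
  have hη2 : η^2 ≤ ρ := by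
    rw [← sq_abs]
    have : |η|^2 ≤ (ρ/2)^2 := pow_le_pow_left₀ (abs_nonneg _) hηρ 2
    nlinarith
  have e3 : 3 * (q + κ) / (α * N) = 3 * (q + κ) * ρ := by rw [hρ]; ring
  rw [e3]
  have hs0 : 0 ≤ s := Real.sqrt_nonneg _
  have h5 : |2 * (s + κ) * η| ≤ (s + κ) * ρ := by
    rw [abs_mul, abs_of_nonneg (by positivity)]
    have : 0 ≤ s + κ := by positivity
    nlinarith
  calc |2 * (s + κ) * η + η^2| ≤ |2 * (s + κ) * η| + |η^2| := abs_add_le _ _
    _ ≤ (s + κ) * ρ + ρ := by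
        rw [abs_of_nonneg (sq_nonneg η)]; linarith
    _ ≤ (q + 1 + κ) * ρ + ρ := by gcongr
    _ ≤ 3 * (q + κ) * ρ := by nlinarith

open Classical in
lemma nr_count {α : ℝ} (hα : 0 < α) {N k j Y : ℕ} (hN : 1 ≤ N) (hY : 2 * (Y:ℝ) ≤ α * N) (s : Finset ℕ)
    (hs : ∀ i ∈ s, i ≤ Y^2) :
    ((s.filter (fun i => nr α N k i j)).card : ℝ) ≤ 2 := by
  have hN' : (0:ℝ) < N := by exact_mod_cast hN
  have h := card_le_of_spread (s.filter (fun i => nr α N k i j)) (D := 1) (by norm_num) ?_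
  · linarith
  · intro a ha b hb
    rw [Finset.mem_filter] at ha hb
    have h1 := nr_dist hα hN ha.2
    have h2 := nr_dist hα hN hb.2
    have h3 : |√(b:ℝ) - √(a:ℝ)| ≤ 1 / (α * N) := by
      have e : √(b:ℝ) - √(a:ℝ) = (√(b:ℝ) - (√(j:ℝ) + k/α)) - (√(a:ℝ) - (√(j:ℝ) + k/α)) := by ring
      rw [e]
      refine (abs_sub _ _).trans ?_
      have : (1:ℝ) / (α * N) = 1 / (2 * α * N) + 1 / (2 * α * N) := by
        field_simp; norm_num
      rw [this]; linarith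
    have ha2 : √(a:ℝ) ≤ Y := by
      rw [Real.sqrt_le_left (by positivity)]; exact_mod_cast hs a ha.1
    have hb2 : √(b:ℝ) ≤ Y := by
      rw [Real.sqrt_le_left (by positivity)]; exact_mod_cast hs b hb.1
    have ea : √(a:ℝ)^2 = a := Real.sq_sqrt (Nat.cast_nonneg a)
    have eb : √(b:ℝ)^2 = b := Real.sq_sqrt (Nat.cast_nonneg b)
    have e : (b:ℝ) - a = (√(b:ℝ) - √(a:ℝ)) * (√(b:ℝ) + √(a:ℝ)) := by
      rw [← ea, ← eb]; simp only [Real.sqrt_sq (Real.sqrt_nonneg _)]; ring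
    rw [e]
    have hsum : 0 ≤ √(b:ℝ) + √(a:ℝ) := by positivity
    calc (√(b:ℝ) - √(a:ℝ)) * (√(b:ℝ) + √(a:ℝ)) ≤ |√(b:ℝ) - √(a:ℝ)| * (√(b:ℝ) + √(a:ℝ)) :=
          mul_le_mul_of_nonneg_right (le_abs_self _) hsum
      _ ≤ 1 / (α * N) * (α * N) := by
          apply mul_le_mul h3 (by linarith) hsum (by positivity)
      _ = 1 := by field_simp

lemma nr_hf {α : ℝ} (hα : 0 < α) {N k i j q : ℕ} {δ : ℝ} (hδ : 0 < δ) (hN : 1 ≤ N) (hN2 : 1 ≤ α * N) (hq : 1 ≤ q)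
    (hj : j ∈ Finset.Ico (q^2) ((q+1)^2)) (h : nr α N k i j) : hf δ (√(i:ℝ)) ≤ 8 * hf δ (q + k/α) := by
  have hN' : (0:ℝ) < N := by exact_mod_cast hN
  have hq' : (1:ℝ) ≤ q := by exact_mod_cast hq
  obtain ⟨h1, h2⟩ := sqrt_block hj
  have h3 := nr_dist hα hN h
  have hk : (0:ℝ) ≤ k/α := by positivity
  have h4 : 1 / (2 * α * N) ≤ 1/2 := by
    rw [div_le_div_iff₀ (by positivity) (by norm_num)]; linarith
  have h5 : (q + k/α)/2 ≤ √(i:ℝ) := by
    have := (abs_le.mp (h3.trans h4)).1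
    linarith
  refine (hf_anti hδ (by positivity) h5).trans ?_
  exact hf_half hδ (by positivity)

open Classical in
/-- the contribution of a single `k` -/
lemma one_k {α : ℝ} (hα : 0 < α) {N k : ℕ} (hN : 1 ≤ N) (hN2 : 1 ≤ α * N) (hk : 1 ≤ k) {M Y : ℕ} (hM : 1 ≤ M)
    (hY : 2 * (Y:ℝ) ≤ α * N) {δ : ℝ} (hδ : 0 < δ) :
    ∑ j ∈ Finset.Ioc (M^2) (Y^2), ∑ i ∈ Finset.Ioc (M^2) (Y^2),
      hf δ (√(i:ℝ)) * hf δ (√(j:ℝ)) * (if nr α N k i j then 1 else 0) ≤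
    ∑ q ∈ Finset.Icc M Y, 16 * (hf δ q * hf δ (q + k/α)) *
      ((2 * (k/α) ^ (1/3:ℝ) + 16 * q * (3 * (q + k/α) / (α * N)) + 1) *
        (2 + 2 * √(16 * (3 * (q + k/α) / (α * N)) * (q+1)^3 / (k/α)))) := by
  have hN' : (0:ℝ) < N := by exact_mod_cast hN
  have hk' : (1:ℝ) ≤ k := by exact_mod_cast hk
  have hκ : (0:ℝ) < k/α := by positivity
  have hfn : ∀ j ∈ Finset.Ioc (M^2) (Y^2), 0 ≤ hf δ (√(j:ℝ)) := by
    intro j hj
    rw [Finset.mem_Ioc] at hj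
    apply hf_nonneg hδ
    apply Real.sqrt_pos.mpr
    have : 0 < j := by
      have := hj.1
      omega
    exact_mod_cast this
  have hfn' : ∀ j : ℕ, 0 ≤ hf δ (√(j:ℝ)) := by
    intro j
    rcases Nat.eq_zero_or_pos j with rfl | hj
    · unfold hf
      simp only [Nat.cast_zero, Real.sqrt_zero, mul_zero]
      rw [Real.zero_rpow (by norm_num)]
      simp
    · exact hf_nonneg hδ (Real.sqrt_pos.mpr (by exact_mod_cast hj))
  refine (block_sum M Y _ ?_).trans ?_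
  · intro j
    apply Finset.sum_nonneg
    intro i hi
    have := hfn i hi
    have := hfn' j
    split_ifs <;> [skip; simp]
    positivity
  · apply Finset.sum_le_sum
    intro q hq
    rw [Finset.mem_Icc] at hq
    have hq1 : 1 ≤ q := by omega
    have hq' : (1:ℝ) ≤ q := by exact_mod_cast hq1
    have hq0 : (0:ℝ) < q := by linarith
    have hj1 : ∀ j ∈ Finset.Ico (q^2) ((q+1)^2), ∑ i ∈ Finset.Ioc (M^2) (Y^2),
        hf δ (√(i:ℝ)) * hf δ (√(j:ℝ)) * (if nr α N k i j then 1 else 0) ≤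
        if nc α N k q j then 16 * (hf δ q * hf δ (q + k/α)) else 0 := by
      intro j hj
      have hjq := (sqrt_block hj).1
      have hfj : hf δ (√(j:ℝ)) ≤ hf δ q := hf_anti hδ hq0 hjq
      have hfq0 : 0 ≤ hf δ (q:ℝ) := hf_nonneg hδ hq0
      have hfU0 : 0 ≤ hf δ (q + k/α) := hf_nonneg hδ (by positivity)
      have e1 : ∑ i ∈ Finset.Ioc (M^2) (Y^2),
        hf δ (√(i:ℝ)) * hf δ (√(j:ℝ)) * (if nr α N k i j then 1 else 0) =
        ∑ i ∈ (Finset.Ioc (M^2) (Y^2)).filter (fun i => nr α N k i j),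
          hf δ (√(i:ℝ)) * hf δ (√(j:ℝ)) := by
        rw [Finset.sum_filter]
        apply Finset.sum_congr rfl
        intro i _
        split_ifs <;> simp
      rw [e1]
      by_cases hne : ((Finset.Ioc (M^2) (Y^2)).filter (fun i => nr α N k i j)).Nonempty
      · obtain ⟨i0, hi0⟩ := hne
        rw [Finset.mem_filter] at hi0
        rw [if_pos (nr_nc hα hN (by linarith) hq1 hj hi0.2)]
        have hc := nr_count (k := k) (j := j) hα hN hY (Finset.Ioc (M^2) (Y^2)) (fun i hi => (Finset.mem_Ioc.mp hi).2)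
        calc ∑ i ∈ (Finset.Ioc (M^2) (Y^2)).filter (fun i => nr α N k i j), hf δ (√(i:ℝ)) * hf δ (√(j:ℝ))
            ≤ ∑ i ∈ (Finset.Ioc (M^2) (Y^2)).filter (fun i => nr α N k i j), (8 * hf δ (q + k/α)) * hf δ q := by
              apply Finset.sum_le_sum
              intro i hi
              rw [Finset.mem_filter] at hi
              have a1 := nr_hf hα hδ hN hN2 hq1 hj hi.2
              exact mul_le_mul a1 hfj (hfn' j) (by positivity)
          _ = ((Finset.Ioc (M^2) (Y^2)).filter (fun i => nr α N k i j)).card * ((8 * hf δ (q + k/α)) * hf δ q) := by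
              rw [Finset.sum_const, nsmul_eq_mul]
          _ ≤ 2 * ((8 * hf δ (q + k/α)) * hf δ q) := by
              apply mul_le_mul_of_nonneg_right hc (by positivity)
          _ = _ := by ring
      · rw [Finset.not_nonempty_iff_eq_empty] at hne
        rw [hne, Finset.sum_empty]
        split_ifs
        · positivity
        · exact le_rfl
    refine (Finset.sum_le_sum hj1).trans ?_
    rw [← Finset.sum_filter, Finset.sum_const, nsmul_eq_mul, mul_comm]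
    have hfq0 : 0 ≤ hf δ (q:ℝ) := hf_nonneg hδ hq0
    have hfU0 : 0 ≤ hf δ (q + k/α) := hf_nonneg hδ (by positivity)
    apply mul_le_mul_of_nonneg_left _ (by positivity)
    have := near_curve (κ := k/α) (θ := 3 * (q + k/α) / (α * N)) hκ (by positivity) hq1
    unfold nc
    convert this using 3

/-- the constant-absorbing step -/
lemma nc_le {α : ℝ} (hα : 0 < α) : ∃ C : ℝ, 0 < C ∧ ∀ (N k q : ℕ), 1 ≤ N → 1 ≤ k → 1 ≤ q →
    ((2 * (k/α) ^ (1/3:ℝ) + 16 * q * (3 * (q + k/α) / (α * N)) + 1) *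
        (2 + 2 * √(16 * (3 * (q + k/α) / (α * N)) * (q+1)^3 / (k/α)))) ≤
    C * (((k/α) ^ (1/3:ℝ) + q * (q + k/α) / N) * (1 + √((q:ℝ)^3 * (q + k/α) / ((k/α) * N)))) := by
  set c1 : ℝ := 2 + α ^ (1/3:ℝ) + 48/α with hc1
  set c2 : ℝ := 2 + 2 * √(384/α) with hc2
  refine ⟨c1 * c2, by positivity, ?_⟩
  intro N k q hN hk hq
  have hN' : (0:ℝ) < N := by exact_mod_cast hN
  have hk' : (1:ℝ) ≤ k := by exact_mod_cast hk
  have hq' : (1:ℝ) ≤ q := by exact_mod_cast hq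
  have hκ : (0:ℝ) < k/α := by positivity
  set κ : ℝ := k/α with hκd
  have h1 : 1 ≤ α ^ (1/3:ℝ) * κ ^ (1/3:ℝ) := by
    rw [← Real.mul_rpow hα.le hκ.le]
    apply Real.one_le_rpow _ (by norm_num)
    rw [hκd]; field_simp; exact hk'
  have hA : 2 * κ ^ (1/3:ℝ) + 16 * q * (3 * (q + κ) / (α * N)) + 1 ≤ c1 * (κ ^ (1/3:ℝ) + q * (q + κ) / N) := by
    have e : 16 * q * (3 * (q + κ) / (α * N)) = (48/α) * (q * (q + κ) / N) := by
      field_simp; ring
    rw [e, hc1]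
    have p1 : 0 ≤ κ ^ (1/3:ℝ) := by positivity
    have p2 : 0 ≤ (q * (q + κ) / N : ℝ) := by positivity
    have p3 : 0 ≤ α ^ (1/3:ℝ) := by positivity
    have p4 : 0 ≤ 48/α := by positivity
    nlinarith [mul_nonneg p3 p2, mul_nonneg p4 p1]
  have hB : 2 + 2 * √(16 * (3 * (q + κ) / (α * N)) * (q+1)^3 / κ) ≤ c2 * (1 + √((q:ℝ)^3 * (q + κ) / (κ * N))) := by
    have e : √(16 * (3 * (q + κ) / (α * N)) * (q+1)^3 / κ) ≤ √(384/α) * √((q:ℝ)^3 * (q + κ) / (κ * N)) := by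
      rw [← Real.sqrt_mul (by positivity)]
      apply Real.sqrt_le_sqrt
      have h8 : ((q:ℝ)+1)^3 ≤ 8 * q^3 := by
        have : (q:ℝ) + 1 ≤ 2 * q := by linarith
        calc ((q:ℝ)+1)^3 ≤ (2*q)^3 := pow_le_pow_left₀ (by positivity) this 3
          _ = 8 * q^3 := by ring
      calc 16 * (3 * (q + κ) / (α * N)) * (q+1)^3 / κ = (48 * (q+κ) / (α * N * κ)) * (q+1)^3 := by
            field_simp; ring
        _ ≤ (48 * (q+κ) / (α * N * κ)) * (8 * q^3) := by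
            apply mul_le_mul_of_nonneg_left h8 (by positivity)
        _ = _ := by field_simp; ring
    rw [hc2]
    have p1 := Real.sqrt_nonneg (384/α)
    have p2 := Real.sqrt_nonneg ((q:ℝ)^3 * (q + κ) / (κ * N))
    nlinarith [mul_nonneg p1 p2]
  calc _ ≤ (c1 * (κ ^ (1/3:ℝ) + q * (q + κ) / N)) * (c2 * (1 + √((q:ℝ)^3 * (q + κ) / (κ * N)))) := by
        apply mul_le_mul hA hB (by positivity) (by positivity)
    _ = _ := by ring

end Pool.Agent.H383.Gauss
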