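import Mathlib
import Pool.Agent.H383.Short

open MeasureTheory Set Filter Topology

namespace Pool.Agent.H383.Gauss

/-- pointwise bound of the error term by the two dual sums -/
lemma P_abs_le {R δ : ℝ} (hδ : 0 < δ) (h : δ < R) :
    |F R - Real.pi * R^2| ≤ 2 * Real.pi * R * δ + Real.pi * δ^2 + √(R + δ) * |W (R + δ) δ| +
      √(R - δ) * |W (R - δ) δ| := by
  have h1 := F_le_W (R := R) (by linarith) hδ
  have h2 := le_F_W hδ h
  have hpi := Real.pi_pos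
  have s1 := Real.sqrt_nonneg (R + δ)
  have s2 := Real.sqrt_nonneg (R - δ)
  have a1 : √(R + δ) * W (R + δ) δ ≤ √(R + δ) * |W (R + δ) δ| :=
    mul_le_mul_of_nonneg_left (le_abs_self _) s1
  have a2 : -(√(R - δ) * |W (R - δ) δ|) ≤ √(R - δ) * W (R - δ) δ := by
    rw [← mul_neg]; exact mul_le_mul_of_nonneg_left (neg_abs_le _) s2
  have a3 : 0 ≤ √(R + δ) * |W (R + δ) δ| := by positivity
  have a4 : 0 ≤ √(R - δ) * |W (R - δ) δ| := by positivity
  have e1 : Real.pi * (R + δ)^2 = Real.pi * R^2 + 2 * Real.pi * R * δ + Real.pi * δ^2 := by ring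
  have e2 : Real.pi * (R - δ)^2 = Real.pi * R^2 - 2 * Real.pi * R * δ + Real.pi * δ^2 := by ring
  have e3 : 0 ≤ Real.pi * δ^2 := by positivity
  rw [abs_le]
  constructor <;> linarith

lemma V_ms {α : ℝ} (hα : 0 < α) {ε : ℝ} (hε : 0 < ε) : ∃ C : ℝ, 0 < C ∧
    ∀ (β δ : ℝ) (Y L : ℕ), 0 < δ → 1 ≤ Y → 1 ≤ L →
    ∑ j ∈ Finset.range L, (V (β + j * α) δ Y)^2 ≤ C * L * (1 + 1/(L * δ)) * (Y:ℝ) ^ ε := by
  obtain ⟨C, hC, hq⟩ := quad_short hα hε
  refine ⟨8 * C, by positivity, ?_⟩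
  intro β δ Y L hδ hY hL
  have h1 := ls (Finset.Icc 1 (Y^2)) (bc β δ) (fun m => α * √(m:ℝ)) hL
  have h2 := hq β δ Y L hδ hY hL
  calc ∑ j ∈ Finset.range L, (V (β + j * α) δ Y)^2
      ≤ ∑ j ∈ Finset.range (L+1), (V (β + j * α) δ Y)^2 := by
        apply Finset.sum_le_sum_of_subset_of_nonneg
        · exact Finset.range_subset_range.mpr (by omega)
        · intro _ _ _; positivity
    _ ≤ _ := by
        apply Finset.sum_le_sum
        intro j _
        rw [V_eq_im, ← sq_abs]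
        exact pow_le_pow_left₀ (abs_nonneg _) (Complex.abs_im_le_norm _) 2
    _ ≤ _ := h1
    _ ≤ 8 * L * (C * (1 + 1/(L * δ)) * (Y:ℝ) ^ ε) := by
        apply mul_le_mul_of_nonneg_left h2 (by positivity)
    _ = _ := by ring

theorem ms_short {α : ℝ} (hα : 0 < α) {ε : ℝ} (hε : 0 < ε) : ∃ C : ℝ, ∀ X : ℝ, 1 ≤ X →
    ∀ L : ℕ, √X ≤ L →
    ∑ j ∈ Finset.range L, (F (X + j * α) - Real.pi * (X + j * α)^2)^2 ≤ C * L * (X + L) ^ (1 + ε) := by
  obtain ⟨C2, hC2, hV⟩ := V_ms hα hε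
  obtain ⟨C0, hC0, hW⟩ := W_sub_V
  set a : ℝ := 1 + α with ha
  set K : ℝ := 2 * Real.pi * a + Real.pi + 10 * C0 * √(a+1) with hK
  have hpi := Real.pi_pos
  refine ⟨3 * K^2 + 3 * (a+1) * (2 * (C2 * 3 * 2^ε)), ?_⟩
  intro X hX L hL
  have hsX : 1 ≤ √X := by rw [Real.one_le_sqrt]; exact hX
  have hL1' : (1:ℝ) ≤ L := hsX.trans hL
  have hL1 : 1 ≤ L := by exact_mod_cast hL1'
  set Z : ℝ := X + L with hZ
  have hZ2 : 2 ≤ Z := by rw [hZ]; linarith
  have hZ0 : 0 < Z := by linarith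
  set δ : ℝ := 1/√Z with hδ
  have hsZ : 0 < √Z := Real.sqrt_pos.mpr hZ0
  have hδ0 : 0 < δ := by positivity
  have hsZ2 : √Z * √Z = Z := Real.mul_self_sqrt hZ0.le
  have hsZ4 : 4/3 ≤ √Z := by
    apply Real.le_sqrt_of_sq_le; linarith
  have hδ34 : δ ≤ 3/4 := by
    rw [hδ, div_le_div_iff₀ hsZ (by norm_num)]; linarith
  set Y : ℕ := ⌈Z⌉₊ with hY
  have hYZ : Z ≤ Y := Nat.le_ceil Z
  have hY1 : 1 ≤ Y := by
    have : (1:ℝ) ≤ Y := by linarith
    exact_mod_cast this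
  have hY2 : (Y:ℝ) ≤ 2 * Z := by
    have := Nat.ceil_lt_add_one hZ0.le
    linarith
  have hsmall : δ ^ (-(3/2):ℝ) * (Y:ℝ) ^ (-(9/10):ℝ) ≤ 1 := by
    have e1 : δ ^ (-(3/2):ℝ) = Z ^ (3/4:ℝ) := by
      rw [hδ, one_div, Real.inv_rpow hsZ.le, ← Real.rpow_neg hsZ.le, Real.sqrt_eq_rpow,
        ← Real.rpow_mul hZ0.le]; norm_num
    have e2 : (Y:ℝ) ^ (-(9/10):ℝ) ≤ Z ^ (-(9/10):ℝ) :=
      Real.rpow_le_rpow_of_nonpos hZ0 hYZ (by norm_num)
    calc δ ^ (-(3/2):ℝ) * (Y:ℝ) ^ (-(9/10):ℝ) ≤ Z ^ (3/4:ℝ) * Z ^ (-(9/10):ℝ) := by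
          rw [e1]; exact mul_le_mul_of_nonneg_left e2 (by positivity)
      _ = Z ^ (-(3/20):ℝ) := by rw [← Real.rpow_add hZ0]; norm_num
      _ ≤ 1 := Real.rpow_le_one_of_one_le_of_nonpos (by linarith) (by norm_num)
  have hsZL : √Z ≤ 2 * L := by
    have h1 : √Z ≤ √X + √(L:ℝ) := by
      rw [hZ]
      have := Real.sqrt_nonneg X
      have := Real.sqrt_nonneg (L:ℝ)
      rw [Real.sqrt_le_left (by positivity)]
      have e1 := Real.sq_sqrt (by linarith : 0 ≤ X)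
      have e2 := Real.sq_sqrt (by linarith : (0:ℝ) ≤ L)
      nlinarith
    have h2 : √(L:ℝ) ≤ L := by
      rw [Real.sqrt_le_left (by linarith)]; nlinarith
    linarith
  have hLδ : 1/(L*δ) ≤ 2 := by
    rw [hδ, mul_one_div, one_div_div, div_le_iff₀ (by linarith)]
    exact hsZL
  -- the two sums
  have hsum : ∀ β : ℝ, ∑ j ∈ Finset.range L, (V (β + j * α) δ Y)^2 ≤ (C2 * 3 * 2^ε) * L * Z^ε := by
    intro β
    refine (hV β δ Y L hδ0 hY1 hL1).trans ?_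
    have h1 : (Y:ℝ)^ε ≤ 2^ε * Z^ε := by
      rw [← Real.mul_rpow (by norm_num) hZ0.le]
      exact Real.rpow_le_rpow (by positivity) hY2 hε.le
    calc C2 * L * (1 + 1/(L*δ)) * (Y:ℝ)^ε ≤ C2 * L * (1 + 2) * (2^ε * Z^ε) := by
          gcongr
      _ = _ := by ring
  -- pointwise
  have hpt : ∀ j ∈ Finset.range L, (F (X + j * α) - Real.pi * (X + j * α)^2)^2 ≤
      Z * (3 * K^2 + 3 * (a+1) * ((V ((X + δ) + j * α) δ Y)^2 + (V ((X - δ) + j * α) δ Y)^2)) := by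
    intro j hj
    rw [Finset.mem_range] at hj
    set R : ℝ := X + j * α with hR
    have hjL : (j:ℝ) ≤ L := by exact_mod_cast hj.le
    have hR1 : 1 ≤ R := by rw [hR]; nlinarith [Nat.cast_nonneg (α := ℝ) j]
    have hRZ : R ≤ a * Z := by
      rw [hR, ha, hZ]
      have : (j:ℝ) * α ≤ L * α := mul_le_mul_of_nonneg_right hjL hα.le
      nlinarith
    have hP := P_abs_le hδ0 (h := (by linarith : δ < R))
    have hRδ : R * δ ≤ a * √Z := by
      calc R * δ ≤ a * Z * δ := mul_le_mul_of_nonneg_right hRZ hδ0.le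
        _ = a * √Z := by
          rw [hδ, mul_one_div, div_eq_iff hsZ.ne', mul_assoc, hsZ2]
    have hδ2 : δ^2 ≤ √Z := by nlinarith
    have hRZ' : (a + 1) * Z = a * Z + Z := by ring
    have hs1 : √(R + δ) ≤ √(a+1) * √Z := by
      rw [← Real.sqrt_mul (by positivity)]
      apply Real.sqrt_le_sqrt; rw [hRZ']; linarith
    have hs2 : √(R - δ) ≤ √(a+1) * √Z := by
      rw [← Real.sqrt_mul (by positivity)]
      apply Real.sqrt_le_sqrt; rw [hRZ']; linarith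
    have hW1 : |W (R + δ) δ| ≤ |V (R + δ) δ Y| + 5 * C0 := by
      have h1 := hW (R + δ) δ Y (by linarith) hδ0 hY1
      have h2 : 1/(R+δ) ≤ 4 := by
        rw [div_le_iff₀ (by linarith)]; linarith
      have h3 : |W (R + δ) δ| ≤ |V (R + δ) δ Y| + |W (R + δ) δ - V (R + δ) δ Y| := by
        have := abs_add_le (V (R + δ) δ Y) (W (R + δ) δ - V (R + δ) δ Y)
        simpa using this
      have h4 : C0 * (1 / (R + δ) + δ ^ (-(3/2):ℝ) * (Y:ℝ) ^ (-(9/10):ℝ)) ≤ C0 * 5 :=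
        mul_le_mul_of_nonneg_left (by linarith) hC0.le
      linarith
    have hW2 : |W (R - δ) δ| ≤ |V (R - δ) δ Y| + 5 * C0 := by
      have h1 := hW (R - δ) δ Y (by linarith) hδ0 hY1
      have h2 : 1/(R-δ) ≤ 4 := by
        rw [div_le_iff₀ (by linarith)]; linarith
      have h3 : |W (R - δ) δ| ≤ |V (R - δ) δ Y| + |W (R - δ) δ - V (R - δ) δ Y| := by
        have := abs_add_le (V (R - δ) δ Y) (W (R - δ) δ - V (R - δ) δ Y)
        simpa using this
      have h4 : C0 * (1 / (R - δ) + δ ^ (-(3/2):ℝ) * (Y:ℝ) ^ (-(9/10):ℝ)) ≤ C0 * 5 :=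
        mul_le_mul_of_nonneg_left (by linarith) hC0.le
      linarith
    have e1 : (X + δ) + j * α = R + δ := by rw [hR]; ring
    have e2 : (X - δ) + j * α = R - δ := by rw [hR]; ring
    rw [e1, e2]
    set v1 := |V (R + δ) δ Y| with hv1
    set v2 := |V (R - δ) δ Y| with hv2
    have hv1n : 0 ≤ v1 := abs_nonneg _
    have hv2n : 0 ≤ v2 := abs_nonneg _
    have hsa : 0 ≤ √(a+1) := Real.sqrt_nonneg _
    have hPle : |F R - Real.pi * R^2| ≤ √Z * (K + √(a+1) * v1 + √(a+1) * v2) := by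
      calc |F R - Real.pi * R^2| ≤ 2 * Real.pi * R * δ + Real.pi * δ^2 + √(R + δ) * |W (R + δ) δ| +
            √(R - δ) * |W (R - δ) δ| := hP
        _ ≤ 2 * Real.pi * (a * √Z) + Real.pi * √Z + (√(a+1) * √Z) * (v1 + 5 * C0) +
            (√(a+1) * √Z) * (v2 + 5 * C0) := by
            have t1 : 2 * Real.pi * R * δ ≤ 2 * Real.pi * (a * √Z) := by
              rw [mul_assoc]; exact mul_le_mul_of_nonneg_left hRδ (by positivity)
            have t2 : Real.pi * δ^2 ≤ Real.pi * √Z := mul_le_mul_of_nonneg_left hδ2 hpi.le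
            have t3 : √(R + δ) * |W (R + δ) δ| ≤ (√(a+1) * √Z) * (v1 + 5 * C0) :=
              mul_le_mul hs1 hW1 (abs_nonneg _) (by positivity)
            have t4 : √(R - δ) * |W (R - δ) δ| ≤ (√(a+1) * √Z) * (v2 + 5 * C0) :=
              mul_le_mul hs2 hW2 (abs_nonneg _) (by positivity)
            linarith
        _ = _ := by rw [hK]; ring
    have hKn : 0 ≤ K := by positivity
    calc (F R - Real.pi * R^2)^2 = |F R - Real.pi * R^2|^2 := (sq_abs _).symm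
      _ ≤ (√Z * (K + √(a+1) * v1 + √(a+1) * v2))^2 := pow_le_pow_left₀ (abs_nonneg _) hPle 2
      _ = Z * (K + √(a+1) * v1 + √(a+1) * v2)^2 := by rw [mul_pow, sq (√Z), hsZ2]
      _ ≤ Z * (3 * K^2 + 3 * (√(a+1) * v1)^2 + 3 * (√(a+1) * v2)^2) := by
          apply mul_le_mul_of_nonneg_left _ hZ0.le
          nlinarith [sq_nonneg (K - √(a+1) * v1), sq_nonneg (K - √(a+1) * v2), sq_nonneg (√(a+1) * v1 - √(a+1) * v2)]
      _ = _ := by
          rw [mul_pow, mul_pow, Real.sq_sqrt (by positivity), hv1, hv2, sq_abs, sq_abs]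
          ring
  calc ∑ j ∈ Finset.range L, (F (X + j * α) - Real.pi * (X + j * α)^2)^2
      ≤ ∑ j ∈ Finset.range L, Z * (3 * K^2 + 3 * (a+1) * ((V ((X + δ) + j * α) δ Y)^2 + (V ((X - δ) + j * α) δ Y)^2)) :=
        Finset.sum_le_sum hpt
    _ = Z * (3 * K^2 * L + 3 * (a+1) * (∑ j ∈ Finset.range L, (V ((X + δ) + j * α) δ Y)^2 +
          ∑ j ∈ Finset.range L, (V ((X - δ) + j * α) δ Y)^2)) := by
        rw [← Finset.mul_sum, Finset.sum_add_distrib, Finset.sum_const, Finset.card_range, nsmul_eq_mul,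
          ← Finset.mul_sum, Finset.sum_add_distrib]
        ring
    _ ≤ Z * (3 * K^2 * L + 3 * (a+1) * ((C2 * 3 * 2^ε) * L * Z^ε + (C2 * 3 * 2^ε) * L * Z^ε)) := by
        have h1 := hsum (X + δ)
        have h2 := hsum (X - δ)
        have : 0 ≤ 3 * (a+1) := by positivity
        apply mul_le_mul_of_nonneg_left _ hZ0.le
        nlinarith
    _ ≤ Z * (3 * K^2 * L * Z^ε + 3 * (a+1) * ((C2 * 3 * 2^ε) * L * Z^ε + (C2 * 3 * 2^ε) * L * Z^ε)) := by
        have h1 : 1 ≤ Z^ε := Real.one_le_rpow (by linarith) hε.le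
        apply mul_le_mul_of_nonneg_left _ hZ0.le
        have h2 : 3 * K^2 * L * 1 ≤ 3 * K^2 * L * Z^ε := mul_le_mul_of_nonneg_left h1 (by positivity)
        linarith
    _ = _ := by
        rw [Real.rpow_add hZ0, Real.rpow_one]
        ring

end Pool.Agent.H383.Gauss
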