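import Mathlib
import Pool.Agent.H383.QT2
import Pool.Agent.H383.ShortMS

open MeasureTheory Set Filter Topology

namespace Pool.Agent.H383.Gauss

/-- normalised error term -/
noncomputable def En (R : ℝ) : ℝ := (F R - Real.pi * R^2) / √R

lemma J_lip0 (l : ℝ) : |J l - Real.pi| ≤ 8 * Real.pi * |l| := by
  have h0 : J l - Real.pi = J l - J 0 := by rw [J_zero]
  rw [h0]
  unfold J
  rw [← intervalIntegral.integral_sub ((J_cont_aux l).intervalIntegrable _ _) ((J_cont_aux 0).intervalIntegrable _ _)]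
  have h := intervalIntegral.norm_integral_le_of_norm_le_const (a := -1) (b := 1) (C := 4 * Real.pi * |l|)
    (f := fun x : ℝ => 2 * √(1 - x^2) * Real.cos (2 * Real.pi * l * x) - 2 * √(1 - x^2) * Real.cos (2 * Real.pi * 0 * x)) ?_
  · rw [Real.norm_eq_abs] at h
    refine h.trans (le_of_eq ?_)
    norm_num
    ring
  · intro x hx
    rw [Set.uIoc_of_le (by norm_num)] at hx
    rw [Real.norm_eq_abs, ← mul_sub, abs_mul]
    simp only [mul_zero, zero_mul, Real.cos_zero]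
    have h1 : |2 * √(1 - x^2)| ≤ 2 := by
      rw [abs_of_nonneg (by positivity)]
      have : √(1 - x^2) ≤ 1 := by
        rw [Real.sqrt_le_left (by norm_num)]; nlinarith
      linarith
    have h2 : |Real.cos (2 * Real.pi * l * x) - 1| ≤ 2 * Real.pi * |l| := by
      have h3 := Real.abs_cos_sub_cos_le (2 * Real.pi * l * x) 0
      rw [Real.cos_zero, sub_zero] at h3
      refine h3.trans ?_
      rw [abs_mul, abs_mul, abs_of_pos (by positivity : 0 < 2 * Real.pi)]
      have hx1 : |x| ≤ 1 := by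
        rw [abs_le]; exact ⟨hx.1.le, hx.2⟩
      have : 0 ≤ 2 * Real.pi * |l| := by positivity
      nlinarith
    calc |2 * √(1 - x^2)| * |Real.cos (2 * Real.pi * l * x) - 1| ≤ 2 * (2 * Real.pi * |l|) :=
          mul_le_mul h1 h2 (abs_nonneg _) (by norm_num)
      _ = _ := by ring

lemma V_low (M : ℕ) : ∃ K : ℝ, 0 < K ∧ ∀ R R' δ : ℝ, 0 < δ → |R' - R| ≤ δ →
    |V R' δ M - V R 0 M| ≤ K * δ := by
  have hpi := Real.pi_pos
  refine ⟨(∑ p ∈ (ballS (M:ℝ)).erase 0, (1/Real.pi^2) * nz p ^ (-(3/2):ℝ) *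
    ((8 * Real.pi + 2 * Real.pi^2) * nz p)) + 1, ?_, ?_⟩
  · have : 0 ≤ ∑ p ∈ (ballS (M:ℝ)).erase 0, (1/Real.pi^2) * nz p ^ (-(3/2):ℝ) *
      ((8 * Real.pi + 2 * Real.pi^2) * nz p) := by
      apply Finset.sum_nonneg
      intro p _
      have := nz_nonneg p
      positivity
    linarith
  · intro R R' δ hδ hR
    unfold V
    rw [← Finset.sum_sub_distrib]
    refine (Finset.abs_sum_le_sum_abs _ _).trans ?_
    rw [add_mul, Finset.sum_mul, one_mul]
    refine le_trans ?_ (le_add_of_nonneg_right hδ.le)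
    apply Finset.sum_le_sum
    intro p _
    have hn := nz_nonneg p
    set a := (1/Real.pi^2) * nz p ^ (-(3/2):ℝ) with ha
    have ha0 : 0 ≤ a := by positivity
    have e : a * J (δ * nz p) * Real.sin (2 * Real.pi * (R' * nz p) - Real.pi/4) -
        a * J (0 * nz p) * Real.sin (2 * Real.pi * (R * nz p) - Real.pi/4) =
        a * ((J (δ * nz p) - Real.pi) * Real.sin (2 * Real.pi * (R' * nz p) - Real.pi/4) +
          Real.pi * (Real.sin (2 * Real.pi * (R' * nz p) - Real.pi/4) - Real.sin (2 * Real.pi * (R * nz p) - Real.pi/4))) := by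
      rw [zero_mul, J_zero]; ring
    rw [e, abs_mul, abs_of_nonneg ha0, mul_assoc a]
    apply mul_le_mul_of_nonneg_left _ ha0
    have h1 : |(J (δ * nz p) - Real.pi) * Real.sin (2 * Real.pi * (R' * nz p) - Real.pi/4)| ≤
        8 * Real.pi * (δ * nz p) := by
      rw [abs_mul]
      have := J_lip0 (δ * nz p)
      rw [abs_of_nonneg (by positivity : 0 ≤ δ * nz p)] at this
      have h2 := Real.abs_sin_le_one (2 * Real.pi * (R' * nz p) - Real.pi/4)
      calc |J (δ * nz p) - Real.pi| * |Real.sin (2 * Real.pi * (R' * nz p) - Real.pi/4)|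
          ≤ (8 * Real.pi * (δ * nz p)) * 1 := mul_le_mul this h2 (abs_nonneg _) (by positivity)
        _ = _ := by ring
    have h2 : |Real.pi * (Real.sin (2 * Real.pi * (R' * nz p) - Real.pi/4) - Real.sin (2 * Real.pi * (R * nz p) - Real.pi/4))| ≤
        Real.pi * (2 * Real.pi * (δ * nz p)) := by
      rw [abs_mul, abs_of_pos hpi]
      apply mul_le_mul_of_nonneg_left _ hpi.le
      refine (Real.abs_sin_sub_sin_le _ _).trans ?_
      have e2 : 2 * Real.pi * (R' * nz p) - Real.pi/4 - (2 * Real.pi * (R * nz p) - Real.pi/4) =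
        2 * Real.pi * ((R' - R) * nz p) := by ring
      rw [e2, abs_mul (2 * Real.pi), abs_mul (R' - R), abs_of_pos (by positivity : 0 < 2 * Real.pi), abs_of_nonneg hn]
      gcongr
    refine (abs_add_le _ _).trans ((add_le_add h1 h2).trans (le_of_eq ?_))
    ring

/-- tail of the zeta-like series -/
noncomputable def Tl (M : ℕ) : ℝ := ∑' q : ℕ, ((q + M : ℕ) : ℝ) ^ (-(101/100):ℝ)

lemma Tl_nonneg (M : ℕ) : 0 ≤ Tl M := tsum_nonneg (fun q => by positivity)

lemma Tl_tendsto : Tendsto Tl atTop (𝓝 0) := by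
  have := tendsto_sum_nat_add (fun k : ℕ => (k:ℝ) ^ (-(101/100):ℝ))
  exact this

lemma sum_le_Tl (M Y : ℕ) : ∑ q ∈ Finset.Icc M Y, (q:ℝ) ^ (-(101/100):ℝ) ≤ Tl M := by
  have h1 : ∑ q ∈ Finset.Icc M Y, (q:ℝ) ^ (-(101/100):ℝ) ≤
      ∑ q ∈ Finset.Ico M (M + (Y+1)), (q:ℝ) ^ (-(101/100):ℝ) := by
    apply Finset.sum_le_sum_of_subset_of_nonneg
    · intro q hq
      rw [Finset.mem_Icc] at hq
      rw [Finset.mem_Ico]; omega
    · intro q _ _; positivity
  refine h1.trans ?_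
  rw [Finset.sum_Ico_eq_sum_range]
  have hs : Summable (fun q : ℕ => ((q + M : ℕ) : ℝ) ^ (-(101/100):ℝ)) :=
    (summable_nat_add_iff (f := fun k : ℕ => (k:ℝ) ^ (-(101/100):ℝ)) M).mpr summable_101
  have h2 := hs.sum_le_tsum (Finset.range (M + (Y+1) - M)) (fun q _ => by positivity)
  refine le_trans (le_of_eq ?_) h2
  apply Finset.sum_congr rfl
  intro q _
  rw [add_comm M q]

/-- tail in mean square -/
lemma D_ms {α : ℝ} (hα : 0 < α) : ∃ C : ℝ, 0 < C ∧ ∃ N0 : ℕ, ∀ (N : ℕ) (β : ℝ) (M Y : ℕ),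
    N0 ≤ N → 1 ≤ M → M ≤ Y → 2 * (Y:ℝ) ≤ α * N →
    ∑ n ∈ Finset.range N, (V (β + n * α) ((N:ℝ) ^ (-(25/48):ℝ)) Y - V (β + n * α) ((N:ℝ) ^ (-(25/48):ℝ)) M)^2 ≤
      C * N * Tl M := by
  obtain ⟨C, hC, N0, h⟩ := quad_tail hα
  refine ⟨8 * C, by positivity, N0 + 1, ?_⟩
  intro N β M Y hN hM hMY hY
  have hN1 : 1 ≤ N := by omega
  have h1 := h N β M Y (by omega) hM hY
  have h2 := ls (Finset.Ioc (M^2) (Y^2)) (bc β ((N:ℝ) ^ (-(25/48):ℝ))) (fun m => α * √(m:ℝ)) hN1
  set δ : ℝ := (N:ℝ) ^ (-(25/48):ℝ) with hδ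
  have e : ∀ n : ℕ, V (β + n * α) δ Y - V (β + n * α) δ M =
      (∑ m ∈ Finset.Ioc (M^2) (Y^2), bc β δ m *
      Complex.exp (((2 * Real.pi * (n * (α * √(m:ℝ))) : ℝ) : ℂ) * Complex.I)).im := by
    intro n
    rw [V_eq_im, V_eq_im, ← Complex.sub_im]
    congr 1
    have hsub : Finset.Icc 1 (M^2) ⊆ Finset.Icc 1 (Y^2) := by
      apply Finset.Icc_subset_Icc le_rfl
      exact Nat.pow_le_pow_left hMY 2
    have hM2 : 1 ≤ M^2 := Nat.one_le_pow _ _ hM
    have hset : Finset.Icc 1 (Y^2) \ Finset.Icc 1 (M^2) = Finset.Ioc (M^2) (Y^2) := by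
      ext m
      simp only [Finset.mem_sdiff, Finset.mem_Icc, Finset.mem_Ioc]
      omega
    rw [← Finset.sum_sdiff hsub, hset]
    ring
  calc ∑ n ∈ Finset.range N, (V (β + n * α) δ Y - V (β + n * α) δ M)^2
      ≤ ∑ n ∈ Finset.range (N+1), (V (β + n * α) δ Y - V (β + n * α) δ M)^2 := by
        apply Finset.sum_le_sum_of_subset_of_nonneg
        · exact Finset.range_subset_range.mpr (by omega)
        · intro _ _ _; positivity
    _ ≤ _ := by
        apply Finset.sum_le_sum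
        intro n _
        rw [e, ← sq_abs]
        exact pow_le_pow_left₀ (abs_nonneg _) (Complex.abs_im_le_norm _) 2
    _ ≤ _ := h2
    _ ≤ 8 * N * (C * Tl M) := by
        apply mul_le_mul_of_nonneg_left _ (by positivity)
        exact h1.trans (mul_le_mul_of_nonneg_left (sum_le_Tl M Y) hC.le)
    _ = _ := by ring

/-- pointwise comparison of the normalised error term with a number -/
lemma En_sub {R δ S : ℝ} (hδ : 0 < δ) (hδ1 : δ ≤ 1/2) (hR : 1 ≤ R) :
    |En R - S| ≤ 2 * Real.pi * (√R * δ) + Real.pi * δ^2 + (δ * |W (R + δ) δ| + |W (R + δ) δ - S|) +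
      (δ * |W (R - δ) δ| + |W (R - δ) δ - S|) := by
  have hR0 : 0 < R := by linarith
  have hs : 0 < √R := Real.sqrt_pos.mpr hR0
  have hs1 : 1 ≤ √R := by rw [Real.one_le_sqrt]; exact hR
  have hss : √R * √R = R := Real.mul_self_sqrt hR0.le
  have h1 := F_le_W hR0.le hδ
  have h2 := le_F_W hδ (by linarith : δ < R)
  have hpi := Real.pi_pos
  -- the ratio
  have r1 : |√(R + δ) / √R - 1| ≤ δ := by
    have a1 : 1 ≤ √(R+δ) / √R := by
      rw [one_le_div hs]; exact Real.sqrt_le_sqrt (by linarith)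
    have a2 : √(R+δ) / √R ≤ 1 + δ := by
      rw [div_le_iff₀ hs, Real.sqrt_le_left (by positivity), mul_pow, sq (√R), hss]
      nlinarith [mul_le_mul_of_nonneg_left hR hδ.le, mul_nonneg (sq_nonneg δ) hR0.le]
    rw [abs_of_nonneg (by linarith)]; linarith
  have r2 : |√(R - δ) / √R - 1| ≤ δ := by
    have a1 : √(R-δ) / √R ≤ 1 := by
      rw [div_le_one hs]; exact Real.sqrt_le_sqrt (by linarith)
    have a2 : 1 - δ ≤ √(R-δ) / √R := by
      rw [le_div_iff₀ hs]
      apply Real.le_sqrt_of_sq_le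
      rw [mul_pow, sq (√R), hss]
      have t1 : δ ≤ δ * R := by nlinarith
      have t2 : δ * (δ * R) ≤ 1/2 * (δ * R) := mul_le_mul_of_nonneg_right hδ1 (by positivity)
      nlinarith
    rw [abs_of_nonpos (by linarith)]; linarith
  have u1 : En R ≤ 2 * Real.pi * (√R * δ) + Real.pi * δ^2 + √(R + δ) / √R * W (R + δ) δ := by
    unfold En
    rw [div_le_iff₀ hs]
    have e : (2 * Real.pi * (√R * δ) + Real.pi * δ^2 + √(R + δ) / √R * W (R + δ) δ) * √R =
      2 * Real.pi * δ * (√R * √R) + Real.pi * δ^2 * √R + √(R+δ) * W (R + δ) δ := by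
      field_simp
    rw [e, hss]
    have : Real.pi * δ^2 ≤ Real.pi * δ^2 * √R := le_mul_of_one_le_right (by positivity) hs1
    nlinarith
  have u2 : -(2 * Real.pi * (√R * δ)) + √(R - δ) / √R * W (R - δ) δ ≤ En R := by
    unfold En
    rw [le_div_iff₀ hs]
    have e : (-(2 * Real.pi * (√R * δ)) + √(R - δ) / √R * W (R - δ) δ) * √R =
      -(2 * Real.pi * δ * (√R * √R)) + √(R-δ) * W (R - δ) δ := by
      field_simp
    rw [e, hss]
    nlinarith [mul_nonneg hpi.le (sq_nonneg δ)]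
  have v1 : √(R + δ) / √R * W (R + δ) δ - S ≤ δ * |W (R + δ) δ| + |W (R + δ) δ - S| := by
    have e : √(R + δ) / √R * W (R + δ) δ - S = (√(R + δ) / √R - 1) * W (R + δ) δ + (W (R + δ) δ - S) := by ring
    rw [e]
    apply add_le_add _ (le_abs_self _)
    refine (le_abs_self _).trans ?_
    rw [abs_mul]
    exact mul_le_mul_of_nonneg_right r1 (abs_nonneg _)
  have v2 : -(δ * |W (R - δ) δ| + |W (R - δ) δ - S|) ≤ √(R - δ) / √R * W (R - δ) δ - S := by
    have e : √(R - δ) / √R * W (R - δ) δ - S = (√(R - δ) / √R - 1) * W (R - δ) δ + (W (R - δ) δ - S) := by ring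
    rw [e, neg_add]
    apply add_le_add _ (neg_abs_le _)
    refine le_trans ?_ (neg_abs_le _)
    rw [abs_mul, neg_le_neg_iff]
    exact mul_le_mul_of_nonneg_right r2 (abs_nonneg _)
  have p1 : 0 ≤ δ * |W (R + δ) δ| + |W (R + δ) δ - S| := by positivity
  have p2 : 0 ≤ δ * |W (R - δ) δ| + |W (R - δ) δ - S| := by positivity
  have p3 : 0 ≤ Real.pi * δ^2 := by positivity
  have p4 : 0 ≤ 2 * Real.pi * (√R * δ) := by positivity
  rw [abs_le]
  constructor <;> linarith

end Pool.Agent.H383.Gauss
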