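import Mathlib
import Pool.Agent.H383.B2

open MeasureTheory Set Filter Topology

namespace Pool.Agent.H383.Gauss

lemma tend_nat_rpow {y : ℝ} (hy : 0 < y) (c : ℝ) : Tendsto (fun N : ℕ => c * (N:ℝ) ^ (-y)) atTop (𝓝 0) := by
  have h1 := (tendsto_rpow_neg_atTop hy).comp (tendsto_natCast_atTop_atTop (R := ℝ))
  have h2 := h1.const_mul c
  rw [mul_zero] at h2
  exact h2

lemma tend_inv_sq {α X : ℝ} (hα : 0 < α) (hX : 1 ≤ X) :
    Tendsto (fun N : ℕ => (N:ℝ)⁻¹ * ∑ n ∈ Finset.range N, (1/(X + n * α))^2) atTop (𝓝 0) := by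
  apply Filter.Tendsto.cesaro
  have h1 : Tendsto (fun n : ℕ => X + n * α) atTop atTop := by
    apply tendsto_atTop_add_const_left
    exact Tendsto.atTop_mul_const hα tendsto_natCast_atTop_atTop
  have h2 : Tendsto (fun n : ℕ => 1/(X + n * α)) atTop (𝓝 0) := by
    simp only [one_div]
    exact tendsto_inv_atTop_zero.comp h1
  have h3 := h2.pow 2
  simpa using h3

lemma six_sq (a b c d e f : ℝ) : (a + b + c + d + e + f)^2 ≤ 6 * (a^2 + b^2 + c^2 + d^2 + e^2 + f^2) := by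
  nlinarith [sq_nonneg (a-b), sq_nonneg (a-c), sq_nonneg (a-d), sq_nonneg (a-e), sq_nonneg (a-f),
    sq_nonneg (b-c), sq_nonneg (b-d), sq_nonneg (b-e), sq_nonneg (b-f),
    sq_nonneg (c-d), sq_nonneg (c-e), sq_nonneg (c-f), sq_nonneg (d-e), sq_nonneg (d-f), sq_nonneg (e-f)]

theorem b2 {α : ℝ} (hα : 0 < α) : ∃ C : ℝ, 0 < C ∧ ∀ X : ℝ, 1 ≤ X → ∀ M : ℕ, 1 ≤ M → ∀ η : ℝ, 0 < η →
    ∃ N0 : ℕ, ∀ N : ℕ, N0 ≤ N →
    (∑ n ∈ Finset.range N, (En (X + n * α) - V (X + n * α) 0 M)^2) / N ≤ C * Tl M + η := by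
  obtain ⟨C0, hC0, hW⟩ := W_sub_V
  obtain ⟨C1, hC1, N1, hD⟩ := D_ms hα
  obtain ⟨C2, hC2, hV⟩ := V_ms hα (ε := 1) one_pos
  refine ⟨12 * C1, by positivity, ?_⟩
  intro X hX M hM η hη
  obtain ⟨K, hK, hlow⟩ := V_low M
  have hpi := Real.pi_pos
  set G : ℕ → ℝ := fun N => 2 * Real.pi * √(X + α) * (N:ℝ) ^ (-(1/48):ℝ) + Real.pi * (N:ℝ) ^ (-(25/24):ℝ) +
    2 * K * (N:ℝ) ^ (-(25/48):ℝ) + 4 * C0 * (α/4) ^ (-(9/10):ℝ) * (N:ℝ) ^ (-(19/160):ℝ) with hG
  have hGt : Tendsto G atTop (𝓝 0) := by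
    have h1 := tend_nat_rpow (y := 1/48) (by norm_num) (2 * Real.pi * √(X + α))
    have h2 := tend_nat_rpow (y := 25/24) (by norm_num) (Real.pi)
    have h3 := tend_nat_rpow (y := 25/48) (by norm_num) (2 * K)
    have h4 := tend_nat_rpow (y := 19/160) (by norm_num) (4 * C0 * (α/4) ^ (-(9/10):ℝ))
    have h5 := ((h1.add h2).add h3).add h4
    simp only [add_zero] at h5
    exact h5
  set u : ℕ → ℝ := fun N => 6 * (G N)^2 + 384 * C0^2 * ((N:ℝ)⁻¹ * ∑ n ∈ Finset.range N, (1/(X + n * α))^2) +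
    12 * C2 * α * (N:ℝ) ^ (-(1/24):ℝ) with hu
  have hut : Tendsto u atTop (𝓝 0) := by
    have h1 := (hGt.pow 2).const_mul 6
    have h2 := (tend_inv_sq hα hX).const_mul (384 * C0^2)
    have h3 := tend_nat_rpow (y := 1/24) (by norm_num) (12 * C2 * α)
    have h4 := (h1.add h2).add h3
    simp only [ne_eq, OfNat.ofNat_ne_zero, not_false_eq_true, zero_pow, mul_zero, add_zero] at h4
    exact h4
  have hev := (hut.eventually (gt_mem_nhds hη))
  rw [eventually_atTop] at hev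
  obtain ⟨N2, hN2⟩ := hev
  refine ⟨max (max N1 N2) (max 4 (⌈(4*(M+1))/α⌉₊ + 1)), ?_⟩
  intro N hN
  have hNN1 : N1 ≤ N := by omega
  have hNN2 : N2 ≤ N := by omega
  have hN4 : 4 ≤ N := by omega
  have hNα : ⌈(4*(M+1))/α⌉₊ ≤ N := by omega
  have hN4' : (4:ℝ) ≤ N := by exact_mod_cast hN4
  have hN0 : (0:ℝ) < N := by linarith
  have hN1' : (1:ℝ) ≤ N := by linarith
  have hαN : 4 * ((M:ℝ)+1) ≤ α * N := by
    have h1 : (4*(M+1))/α ≤ N := (Nat.le_ceil _).trans (by exact_mod_cast hNα)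
    rw [div_le_iff₀ hα] at h1
    linarith
  have hM' : (1:ℝ) ≤ M := by exact_mod_cast hM
  set δ : ℝ := (N:ℝ) ^ (-(25/48):ℝ) with hδ
  have hδ0 : 0 < δ := by positivity
  have hδ1 : δ ≤ 1/2 := by
    have h1 : δ ≤ (4:ℝ) ^ (-(25/48):ℝ) := Real.rpow_le_rpow_of_nonpos (by norm_num) hN4' (by norm_num)
    have h2 : (4:ℝ) ^ (-(25/48):ℝ) ≤ (4:ℝ) ^ (-(1/2):ℝ) := Real.rpow_le_rpow_of_exponent_le (by norm_num) (by norm_num)
    have h3 : (4:ℝ) ^ (-(1/2):ℝ) = 1/2 := by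
      rw [Real.rpow_neg (by norm_num), ← Real.sqrt_eq_rpow, show (4:ℝ) = 2^2 by norm_num, Real.sqrt_sq (by norm_num)]
      norm_num
    linarith
  set Y : ℕ := ⌊α * N / 2⌋₊ with hY
  have hY2 : 2 * (Y:ℝ) ≤ α * N := by
    have := Nat.floor_le (by positivity : 0 ≤ α * N / 2)
    linarith
  have hY4 : α * N / 4 ≤ Y := by
    have := Nat.lt_floor_add_one (α * N / 2)
    rw [← hY] at this
    linarith
  have hMY : M ≤ Y := by
    have : (M:ℝ) ≤ Y := by linarith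
    exact_mod_cast this
  have hY1 : 1 ≤ Y := by omega
  set τ : ℝ := δ ^ (-(3/2):ℝ) * (Y:ℝ) ^ (-(9/10):ℝ) with hτ
  have hτ0 : 0 ≤ τ := by positivity
  have hτ1 : τ ≤ (α/4) ^ (-(9/10):ℝ) * (N:ℝ) ^ (-(19/160):ℝ) := by
    have e1 : δ ^ (-(3/2):ℝ) = (N:ℝ) ^ (25/32:ℝ) := by
      rw [hδ, ← Real.rpow_mul hN0.le]; norm_num
    have e2 : (Y:ℝ) ^ (-(9/10):ℝ) ≤ (α/4) ^ (-(9/10):ℝ) * (N:ℝ) ^ (-(9/10):ℝ) := by
      rw [← Real.mul_rpow (by positivity) hN0.le]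
      apply Real.rpow_le_rpow_of_nonpos (by positivity) _ (by norm_num)
      linarith
    calc τ ≤ (N:ℝ) ^ (25/32:ℝ) * ((α/4) ^ (-(9/10):ℝ) * (N:ℝ) ^ (-(9/10):ℝ)) := by
          rw [hτ, e1]; exact mul_le_mul_of_nonneg_left e2 (by positivity)
      _ = (α/4) ^ (-(9/10):ℝ) * ((N:ℝ) ^ (25/32:ℝ) * (N:ℝ) ^ (-(9/10):ℝ)) := by ring
      _ = _ := by rw [← Real.rpow_add hN0]; norm_num
  -- pointwise bound
  have hpt : ∀ n ∈ Finset.range N, (En (X + n * α) - V (X + n * α) 0 M)^2 ≤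
      6 * ((G N)^2 + (8 * C0 * (1/(X + n * α)))^2 +
        (V ((X + δ) + n * α) δ Y - V ((X + δ) + n * α) δ M)^2 +
        (V ((X - δ) + n * α) δ Y - V ((X - δ) + n * α) δ M)^2 +
        δ^2 * (V ((X + δ) + n * α) δ Y)^2 + δ^2 * (V ((X - δ) + n * α) δ Y)^2) := by
    intro n hn
    rw [Finset.mem_range] at hn
    have hn' : (n:ℝ) ≤ N := by exact_mod_cast hn.le
    set R : ℝ := X + n * α with hR
    have hR1 : 1 ≤ R := by rw [hR]; nlinarith [Nat.cast_nonneg (α := ℝ) n]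
    have hR0 : 0 < R := by linarith
    have e1 : (X + δ) + n * α = R + δ := by rw [hR]; ring
    have e2 : (X - δ) + n * α = R - δ := by rw [hR]; ring
    rw [e1, e2]
    set S := V R 0 M with hS
    have h0 := En_sub (S := S) hδ0 hδ1 hR1
    have hsR : √R * δ ≤ √(X + α) * (N:ℝ) ^ (-(1/48):ℝ) := by
      have h1 : √R ≤ √(X + α) * √(N:ℝ) := by
        rw [← Real.sqrt_mul (by linarith)]
        apply Real.sqrt_le_sqrt
        rw [hR]
        have : (n:ℝ) * α ≤ N * α := mul_le_mul_of_nonneg_right hn' hα.le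
        nlinarith
      have h2 : √(N:ℝ) * δ = (N:ℝ) ^ (-(1/48):ℝ) := by
        rw [hδ, Real.sqrt_eq_rpow, ← Real.rpow_add hN0]; norm_num
      calc √R * δ ≤ (√(X + α) * √(N:ℝ)) * δ := mul_le_mul_of_nonneg_right h1 hδ0.le
        _ = √(X + α) * (√(N:ℝ) * δ) := by ring
        _ = _ := by rw [h2]
    have hside : ∀ R' : ℝ, |R' - R| ≤ δ → δ * |W R' δ| + |W R' δ - S| ≤
        δ * |V R' δ Y| + 2 * (C0 * (2/R + τ)) + |V R' δ Y - V R' δ M| + K * δ := by
      intro R' hR'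
      have hab := abs_le.mp hR'
      have hR'0 : R/2 ≤ R' := by linarith
      have hR'1 : 0 < R' := by linarith
      have a1 := hW R' δ Y hR'1 hδ0 hY1
      have a2 : 1/R' ≤ 2/R := by
        rw [div_le_div_iff₀ hR'1 hR0]; linarith
      have a3 : |W R' δ - V R' δ Y| ≤ C0 * (2/R + τ) :=
        a1.trans (mul_le_mul_of_nonneg_left (by linarith) hC0.le)
      have a4 := hlow R R' δ hδ0 hR'
      have b1 : |W R' δ| ≤ |V R' δ Y| + |W R' δ - V R' δ Y| := by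
        have := abs_add_le (V R' δ Y) (W R' δ - V R' δ Y)
        simpa using this
      have b2 : |W R' δ - S| ≤ |W R' δ - V R' δ Y| + |V R' δ Y - V R' δ M| + |V R' δ M - S| := by
        have t1 := abs_add_le (W R' δ - V R' δ Y) (V R' δ Y - S)
        have t2 := abs_add_le (V R' δ Y - V R' δ M) (V R' δ M - S)
        have t3 : W R' δ - V R' δ Y + (V R' δ Y - S) = W R' δ - S := by ring
        have t4 : V R' δ Y - V R' δ M + (V R' δ M - S) = V R' δ Y - S := by ring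
        rw [t3] at t1
        rw [t4] at t2
        linarith
      have b3 : δ * |W R' δ| ≤ δ * |V R' δ Y| + (C0 * (2/R + τ)) := by
        have c1 : δ * |W R' δ - V R' δ Y| ≤ 1 * (C0 * (2/R + τ)) := by
          apply mul_le_mul (by linarith) a3 (abs_nonneg _) (by norm_num)
        have c2 := mul_le_mul_of_nonneg_left b1 hδ0.le
        linarith
      linarith
    have s1 := hside (R + δ) (by rw [add_sub_cancel_left, abs_of_pos hδ0])
    have s2 := hside (R - δ) (by rw [show R - δ - R = -δ by ring, abs_neg, abs_of_pos hδ0])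
    have hδ2 : δ^2 = (N:ℝ) ^ (-(25/24):ℝ) := by
      rw [hδ, ← Real.rpow_natCast, ← Real.rpow_mul hN0.le]; norm_num
    have hτ2 : 4 * C0 * τ ≤ 4 * C0 * (α/4) ^ (-(9/10):ℝ) * (N:ℝ) ^ (-(19/160):ℝ) := by
      have := mul_le_mul_of_nonneg_left hτ1 (by positivity : 0 ≤ 4 * C0)
      linarith
    have htot : |En R - S| ≤ G N + 8 * C0 * (1/R) + |V (R + δ) δ Y - V (R + δ) δ M| +
        |V (R - δ) δ Y - V (R - δ) δ M| + δ * |V (R + δ) δ Y| + δ * |V (R - δ) δ Y| := by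
      have g1 : 2 * Real.pi * (√R * δ) ≤ 2 * Real.pi * √(X + α) * (N:ℝ) ^ (-(1/48):ℝ) := by
        have := mul_le_mul_of_nonneg_left hsR (by positivity : 0 ≤ 2 * Real.pi)
        linarith
      have g2 : Real.pi * δ^2 = Real.pi * (N:ℝ) ^ (-(25/24):ℝ) := by rw [hδ2]
      have g3 : 2 * (C0 * (2/R + τ)) = 4 * C0 * (1/R) + 2 * C0 * τ := by ring
      rw [g3] at s1 s2
      simp only [hG]
      linarith
    calc (En R - S)^2 = |En R - S|^2 := (sq_abs _).symm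
      _ ≤ (G N + 8 * C0 * (1/R) + |V (R + δ) δ Y - V (R + δ) δ M| +
        |V (R - δ) δ Y - V (R - δ) δ M| + δ * |V (R + δ) δ Y| + δ * |V (R - δ) δ Y|)^2 :=
          pow_le_pow_left₀ (abs_nonneg _) htot 2
      _ ≤ _ := six_sq _ _ _ _ _ _
      _ = _ := by
          simp only [mul_pow, sq_abs]
  -- summing
  have hD1 := hD N (X + δ) M Y hNN1 hM hMY hY2
  have hD2 := hD N (X - δ) M Y hNN1 hM hMY hY2
  rw [← hδ] at hD1 hD2
  have hNd : 1 ≤ N * δ := by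
    have e : N * δ = (N:ℝ) ^ (23/48:ℝ) := by
      rw [hδ]
      nth_rewrite 1 [← Real.rpow_one (N:ℝ)]
      rw [← Real.rpow_add hN0]; norm_num
    rw [e]
    exact Real.one_le_rpow hN1' (by norm_num)
  have hVb : ∀ β : ℝ, δ^2 * ∑ n ∈ Finset.range N, (V (β + n * α) δ Y)^2 ≤ N * (C2 * α * (N:ℝ) ^ (-(1/24):ℝ)) := by
    intro β
    have h1 := hV β δ Y N hδ0 hY1 (by omega)
    rw [Real.rpow_one] at h1
    have h2 : 1/(N*δ) ≤ 1 := by rw [div_le_one (by positivity)]; exact hNd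
    have e : δ^2 * N = (N:ℝ) ^ (-(1/24):ℝ) := by
      rw [hδ, ← Real.rpow_natCast, ← Real.rpow_mul hN0.le]
      nth_rewrite 2 [← Real.rpow_one (N:ℝ)]
      rw [← Real.rpow_add hN0]; norm_num
    calc δ^2 * ∑ n ∈ Finset.range N, (V (β + n * α) δ Y)^2 ≤ δ^2 * (C2 * N * (1 + 1/(N*δ)) * Y) :=
          mul_le_mul_of_nonneg_left h1 (by positivity)
      _ ≤ δ^2 * (C2 * N * (1 + 1) * (α * N / 2)) := by
          gcongr
          linarith
      _ = N * (C2 * α * (δ^2 * N)) := by ring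
      _ = _ := by rw [e]
  have hV1 := hVb (X + δ)
  have hV2 := hVb (X - δ)
  have hsum : ∑ n ∈ Finset.range N, (En (X + n * α) - V (X + n * α) 0 M)^2 ≤
      N * (12 * C1 * Tl M + u N) := by
    calc _ ≤ ∑ n ∈ Finset.range N, 6 * ((G N)^2 + (8 * C0 * (1/(X + n * α)))^2 +
        (V ((X + δ) + n * α) δ Y - V ((X + δ) + n * α) δ M)^2 +
        (V ((X - δ) + n * α) δ Y - V ((X - δ) + n * α) δ M)^2 +
        δ^2 * (V ((X + δ) + n * α) δ Y)^2 + δ^2 * (V ((X - δ) + n * α) δ Y)^2) := Finset.sum_le_sum hpt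
      _ = 6 * (N * (G N)^2 + 64 * C0^2 * ∑ n ∈ Finset.range N, (1/(X + n * α))^2 +
        ∑ n ∈ Finset.range N, (V ((X + δ) + n * α) δ Y - V ((X + δ) + n * α) δ M)^2 +
        ∑ n ∈ Finset.range N, (V ((X - δ) + n * α) δ Y - V ((X - δ) + n * α) δ M)^2 +
        δ^2 * ∑ n ∈ Finset.range N, (V ((X + δ) + n * α) δ Y)^2 +
        δ^2 * ∑ n ∈ Finset.range N, (V ((X - δ) + n * α) δ Y)^2) := by
          have e8 : ∑ n ∈ Finset.range N, (8 * C0 * (1/(X + n * α)))^2 =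
              64 * C0^2 * ∑ n ∈ Finset.range N, (1/(X + n * α))^2 := by
            rw [Finset.mul_sum]
            apply Finset.sum_congr rfl
            intro n _
            rw [mul_pow]; ring
          rw [← Finset.mul_sum]
          congr 1
          simp only [Finset.sum_add_distrib]
          rw [Finset.sum_const, Finset.card_range, nsmul_eq_mul, ← Finset.mul_sum, ← Finset.mul_sum, e8]
      _ ≤ 6 * (N * (G N)^2 + 64 * C0^2 * ∑ n ∈ Finset.range N, (1/(X + n * α))^2 +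
          C1 * N * Tl M + C1 * N * Tl M + N * (C2 * α * (N:ℝ) ^ (-(1/24):ℝ)) + N * (C2 * α * (N:ℝ) ^ (-(1/24):ℝ))) := by
          linarith
      _ = _ := by
          simp only [hu]
          generalize ∑ n ∈ Finset.range N, (1/(X + n * α))^2 = s
          field_simp
          ring
  rw [div_le_iff₀ hN0]
  have hu1 := hN2 N hNN2
  have : N * (12 * C1 * Tl M + u N) ≤ N * (12 * C1 * Tl M + η) :=
    mul_le_mul_of_nonneg_left (by linarith) hN0.le
  linarith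

end Pool.Agent.H383.Gauss
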