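import Mathlib
import Pool.Agent.H383.B2Main
import Pool.Agent.H383.APLim

open MeasureTheory Set Filter Topology
open Pool.Agent.H383.AP

namespace Pool.Agent.H383.Gauss

/-- the `B²` estimate for every starting point -/
theorem b2' {α : ℝ} (hα : 0 < α) : ∃ C : ℝ, 0 < C ∧ ∀ X : ℝ, ∀ M : ℕ, 1 ≤ M → ∀ η : ℝ, 0 < η →
    ∃ N0 : ℕ, ∀ N : ℕ, N0 ≤ N →
    rm (fun n => (En (X + n * α) - V (X + n * α) 0 M)^2) N ≤ C * Tl M + η := by
  obtain ⟨C, hC, h⟩ := b2 hα
  refine ⟨C, hC, ?_⟩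
  intro X M hM η hη
  obtain ⟨n0, hn0⟩ := exists_nat_ge ((1 - X)/α)
  have hX' : 1 ≤ X + n0 * α := by
    rw [div_le_iff₀ hα] at hn0; linarith
  obtain ⟨N1, hN1⟩ := h (X + n0 * α) hX' M hM (η/2) (by positivity)
  set e : ℕ → ℝ := fun n => (En (X + n * α) - V (X + n * α) 0 M)^2 with he
  have he0 : ∀ n, 0 ≤ e n := fun n => sq_nonneg _
  set S := ∑ n ∈ Finset.range n0, e n with hS
  have hS0 : 0 ≤ S := Finset.sum_nonneg (fun n _ => he0 n)
  obtain ⟨N2, hN2⟩ := exists_nat_ge (2 * S / η)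
  refine ⟨N1 + N2 + n0 + 1, ?_⟩
  intro N hN
  have hN' : (0:ℝ) < N := by exact_mod_cast (by omega : 0 < N)
  obtain ⟨N', rfl⟩ : ∃ N', N = n0 + N' := ⟨N - n0, by omega⟩
  have hN1' : N1 ≤ N' := by omega
  have hN'0 : (0:ℝ) < N' := by exact_mod_cast (by omega : 0 < N')
  have h1 := hN1 N' hN1'
  have e1 : ∀ n : ℕ, (En (X + n0 * α + n * α) - V (X + n0 * α + n * α) 0 M)^2 = e (n0 + n) := by
    intro n
    simp only [he]
    have : X + n0 * α + n * α = X + ((n0 + n : ℕ):ℝ) * α := by push_cast; ring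
    rw [this]
  rw [Finset.sum_congr rfl (fun n _ => e1 n), div_le_iff₀ hN'0] at h1
  have hsplit : ∑ n ∈ Finset.range (n0 + N'), e n = S + ∑ n ∈ Finset.range N', e (n0 + n) :=
    Finset.sum_range_add e n0 N'
  unfold rm
  rw [hsplit, div_le_iff₀ hN']
  have h2 : S ≤ η/2 * N' := by
    have : (N2:ℝ) ≤ N' := by exact_mod_cast (by omega : N2 ≤ N')
    have h3 : 2 * S / η ≤ N' := hN2.trans this
    rw [div_le_iff₀ hη] at h3
    linarith
  have h3 : (N':ℝ) ≤ ((n0 + N' : ℕ):ℝ) := by exact_mod_cast (by omega : N' ≤ n0 + N')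
  have h4 : 0 ≤ C * Tl M + η := by
    have := Tl_nonneg M
    positivity
  have h5 : (C * Tl M + η) * N' ≤ (C * Tl M + η) * ((n0 + N' : ℕ):ℝ) := mul_le_mul_of_nonneg_left h3 h4
  linarith

lemma V_trig (α X : ℝ) (M : ℕ) : (fun n : ℕ => ((V (X + n * α) 0 M : ℝ) : ℂ)) =
    ∑ m ∈ Finset.Icc 1 (M^2), ((bc X 0 m / (2 * Complex.I)) • chr (α * √(m:ℝ)) +
      (-(starRingEnd ℂ) (bc X 0 m) / (2 * Complex.I)) • chr (-(α * √(m:ℝ)))) := by
  funext n
  rw [V_eq_im, Finset.sum_apply]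
  set z := ∑ m ∈ Finset.Icc 1 (M^2), bc X 0 m *
      Complex.exp (((2 * Real.pi * (n * (α * √(m:ℝ))) : ℝ) : ℂ) * Complex.I) with hz
  have h1 : (z.im : ℂ) = (z - (starRingEnd ℂ) z) / (2 * Complex.I) := by
    rw [Complex.sub_conj]
    have := Complex.I_ne_zero
    field_simp
    push_cast
    ring
  rw [h1, hz, map_sum, ← Finset.sum_sub_distrib, Finset.sum_div]
  apply Finset.sum_congr rfl
  intro m _
  simp only [Pi.add_apply, Pi.smul_apply, smul_eq_mul]
  rw [← chr_conj, map_mul]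
  simp only [chr]
  have := Complex.I_ne_zero
  field_simp
  ring

lemma V_mem_Trig (α X : ℝ) (M : ℕ) : (fun n : ℕ => ((V (X + n * α) 0 M : ℝ) : ℂ)) ∈ Trig := by
  rw [V_trig]
  apply Submodule.sum_mem
  intro m _
  exact Trig.add_mem (Trig.smul_mem _ (chr_mem _)) (Trig.smul_mem _ (chr_mem _))

theorem En_B2 {α : ℝ} (hα : 0 < α) (X : ℝ) : B2 (fun n : ℕ => En (X + n * α)) := by
  obtain ⟨C, hC, h⟩ := b2' hα
  intro η hη
  have h1 : Tendsto (fun M => C * Tl M) atTop (𝓝 0) := by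
    have := Tl_tendsto.const_mul C
    rwa [mul_zero] at this
  have h2 := (h1.eventually (gt_mem_nhds (by positivity : 0 < η/2))).and (eventually_ge_atTop 1)
  obtain ⟨M, hM1, hM2⟩ := h2.exists
  obtain ⟨N0, hN0⟩ := h X M hM2 (η/2) (by positivity)
  exact ⟨_, V_mem_Trig α X M, N0, fun N hN => (hN0 N hN).trans (by linarith)⟩

lemma mc_neg (θ : ℝ) : mc (-θ) = mc θ := by
  unfold mc
  congr 1
  apply propext
  constructor
  · rintro ⟨k, hk⟩
    exact ⟨-k, by push_cast; linarith⟩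
  · rintro ⟨k, hk⟩
    exact ⟨-k, by push_cast; linarith⟩

open Classical in
/-- the resonant terms -/
noncomputable def gt (α X : ℝ) (m : ℕ) : ℝ := if ∃ k : ℤ, α * √(m:ℝ) = k then
  rA m / Real.pi * (√(m:ℝ)) ^ (-(3/2):ℝ) * Real.sin (2 * Real.pi * (X * √(m:ℝ)) - Real.pi/4) else 0

lemma bc_zero (X : ℝ) (m : ℕ) : bc X 0 m = ((rA m / Real.pi * (√(m:ℝ)) ^ (-(3/2):ℝ) : ℝ) : ℂ) *
    Complex.exp (((2 * Real.pi * (X * √(m:ℝ)) - Real.pi/4 : ℝ) : ℂ) * Complex.I) := by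
  unfold bc
  rw [zero_mul, J_zero]
  congr 2
  have := Real.pi_pos.ne'
  field_simp

lemma bc_im (X : ℝ) (m : ℕ) : (bc X 0 m).im = rA m / Real.pi * (√(m:ℝ)) ^ (-(3/2):ℝ) *
    Real.sin (2 * Real.pi * (X * √(m:ℝ)) - Real.pi/4) := by
  rw [bc_zero, Complex.im_ofReal_mul, Complex.exp_ofReal_mul_I_im]

lemma V_mean (α X : ℝ) (M : ℕ) : HasMean (fun n : ℕ => ((V (X + n * α) 0 M : ℝ) : ℂ))
    ((∑ m ∈ Finset.Icc 1 (M^2), gt α X m : ℝ) : ℂ) := by
  rw [V_trig]
  have h := HasMean.sum (Finset.Icc 1 (M^2)) (fun m => ((bc X 0 m / (2 * Complex.I)) • chr (α * √(m:ℝ)) +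
      (-(starRingEnd ℂ) (bc X 0 m) / (2 * Complex.I)) • chr (-(α * √(m:ℝ)))))
      (fun m => ((gt α X m : ℝ) : ℂ)) ?_
  · push_cast
    exact h
  · intro m _
    have h1 := ((chr_mean (α * √(m:ℝ))).smul (bc X 0 m / (2 * Complex.I))).add
      ((chr_mean (-(α * √(m:ℝ)))).smul (-(starRingEnd ℂ) (bc X 0 m) / (2 * Complex.I)))
    have h2 : bc X 0 m / (2 * Complex.I) * mc (α * √(m:ℝ)) +
        -(starRingEnd ℂ) (bc X 0 m) / (2 * Complex.I) * mc (-(α * √(m:ℝ))) = ((gt α X m : ℝ) : ℂ) := by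
      rw [mc_neg]
      have h3 : bc X 0 m / (2 * Complex.I) * mc (α * √(m:ℝ)) +
        -(starRingEnd ℂ) (bc X 0 m) / (2 * Complex.I) * mc (α * √(m:ℝ)) =
        ((bc X 0 m - (starRingEnd ℂ) (bc X 0 m)) / (2 * Complex.I)) * mc (α * √(m:ℝ)) := by ring
      rw [h3, Complex.sub_conj, bc_im]
      have hI := Complex.I_ne_zero
      unfold mc gt
      split_ifs with hk
      · field_simp
        push_cast
        ring
      · simp
    rw [← h2]
    exact h1

lemma rA_le_pow : ∃ C : ℝ, 0 < C ∧ ∀ m : ℕ, 1 ≤ m → rA m ≤ C * (√(m:ℝ)) ^ (1/50:ℝ) := by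
  obtain ⟨C1, hC1, hdiv⟩ := Pool.Agent.Helper112.divisor_bound (1/100) (by norm_num)
  refine ⟨4 * C1, by positivity, ?_⟩
  intro m hm
  have hm' : (1:ℝ) ≤ m := by exact_mod_cast hm
  have hm0 : (0:ℝ) < m := by linarith
  have a := card_A_le m hm
  have b := hdiv m hm
  unfold rA
  have c : ((A m).ncard : ℝ) ≤ 4 * (m.divisors.card : ℝ) := by exact_mod_cast a
  have d : (m:ℝ)^(1/100:ℝ) = (√(m:ℝ)) ^ (1/50:ℝ) := by
    rw [Real.sqrt_eq_rpow, ← Real.rpow_mul hm0.le]; norm_num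
  rw [← d]; linarith

lemma gt_summable {α : ℝ} (hα : 0 < α) (X : ℝ) : Summable (gt α X) := by
  classical
  obtain ⟨C, hC, hr⟩ := rA_le_pow
  set S : Set ℕ := {m | ∃ k : ℤ, α * √(m:ℝ) = k} with hS
  have h1 : gt α X = S.indicator (fun m => rA m / Real.pi * (√(m:ℝ)) ^ (-(3/2):ℝ) *
      Real.sin (2 * Real.pi * (X * √(m:ℝ)) - Real.pi/4)) := by
    funext m
    rw [Set.indicator_apply]
    unfold gt
    simp only [hS, Set.mem_ofPred_eq]
  rw [h1, ← summable_subtype_iff_indicator]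
  have hk : ∀ m ∈ S, ((⌊α * √(m:ℝ)⌋₊ : ℕ) : ℝ) = α * √(m:ℝ) := by
    intro m hm
    obtain ⟨k, hk⟩ := hm
    have h0 : (0:ℝ) ≤ k := by rw [← hk]; positivity
    have h0' : 0 ≤ k := by exact_mod_cast h0
    rw [hk]
    have : ((k.toNat : ℕ) : ℝ) = (k:ℝ) := by
      have : ((k.toNat : ℕ) : ℤ) = k := Int.toNat_of_nonneg h0'
      exact_mod_cast this
    rw [← this, Nat.floor_natCast]
  have hinj : Function.Injective (fun m : S => ⌊α * √((m:ℕ):ℝ)⌋₊) := by
    intro a b hab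
    simp only at hab
    have h2 : α * √((a:ℕ):ℝ) = α * √((b:ℕ):ℝ) := by
      rw [← hk a a.2, ← hk b b.2, hab]
    have h3 := mul_left_cancel₀ hα.ne' h2
    have h4 : ((a:ℕ):ℝ) = ((b:ℕ):ℝ) := by
      have e1 := Real.sq_sqrt (Nat.cast_nonneg (α := ℝ) (a:ℕ))
      have e2 := Real.sq_sqrt (Nat.cast_nonneg (α := ℝ) (b:ℕ))
      rw [← e1, ← e2, h3]
    exact Subtype.ext (by exact_mod_cast h4)
  have hsum : Summable (fun k : ℕ => (k:ℝ) ^ (-(37/25):ℝ)) := by
    rw [Real.summable_nat_rpow]; norm_num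
  have hs2 := (hsum.comp_injective hinj).mul_left (C * α ^ (37/25:ℝ))
  apply Summable.of_norm_bounded hs2
  intro m
  simp only [Function.comp_apply]
  rw [hk m m.2, Real.norm_eq_abs]
  rcases Nat.eq_zero_or_pos (m:ℕ) with h0 | h0
  · rw [h0]
    simp only [Nat.cast_zero, Real.sqrt_zero, mul_zero]
    rw [Real.zero_rpow (by norm_num), Real.zero_rpow (by norm_num)]
    simp
  · have hm0 : (0:ℝ) < ((m:ℕ):ℝ) := by exact_mod_cast h0
    have hs : 0 < √((m:ℕ):ℝ) := Real.sqrt_pos.mpr hm0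
    set s := √((m:ℕ):ℝ) with hsd
    have hrm := hr m h0
    have hpi := Real.pi_gt_three
    have hrn := rA_nonneg m
    have hsin := Real.abs_sin_le_one (2 * Real.pi * (X * s) - Real.pi/4)
    rw [abs_mul, abs_of_nonneg (by positivity : 0 ≤ rA m / Real.pi * s ^ (-(3/2):ℝ))]
    calc rA m / Real.pi * s ^ (-(3/2):ℝ) * |Real.sin (2 * Real.pi * (X * s) - Real.pi/4)|
        ≤ rA m / Real.pi * s ^ (-(3/2):ℝ) * 1 := by gcongr
      _ ≤ rA m * s ^ (-(3/2):ℝ) := by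
          rw [mul_one]
          apply mul_le_mul_of_nonneg_right _ (by positivity)
          rw [div_le_iff₀ (by positivity)]
          nlinarith
      _ ≤ (C * s ^ (1/50:ℝ)) * s ^ (-(3/2):ℝ) := by gcongr
      _ = C * (s ^ (1/50:ℝ) * s ^ (-(3/2):ℝ)) := by ring
      _ = C * s ^ (-(37/25):ℝ) := by rw [← Real.rpow_add hs]; norm_num
      _ = C * (α ^ (37/25:ℝ) * α ^ (-(37/25):ℝ)) * s ^ (-(37/25):ℝ) := by
          rw [← Real.rpow_add hα]; norm_num
      _ = _ := by rw [Real.mul_rpow hα.le hs.le]; ring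

theorem En_mean {α : ℝ} (hα : 0 < α) (X : ℝ) :
    Tendsto (rm (fun n : ℕ => En (X + n * α))) atTop (𝓝 (∑' m, gt α X m)) := by
  obtain ⟨μ, hμ2, hμ⟩ := (En_B2 hα X).limit
  have h1 := hμ (fun x => x) continuous_id ⟨1, fun x => by
    rw [one_mul]
    have := sq_nonneg (|x| - 1)
    rw [← sq_abs x]
    nlinarith [abs_nonneg x]⟩
  set L := ∫ x, x ∂(μ : Measure ℝ) with hL
  have hLmean : HasMean (fun n : ℕ => ((En (X + n * α) : ℝ) : ℂ)) (L : ℂ) := by
    unfold HasMean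
    have : cm (fun n : ℕ => ((En (X + n * α) : ℝ) : ℂ)) = fun N => ((rm (fun n : ℕ => En (X + n * α)) N : ℝ) : ℂ) := by
      funext N; exact cm_ofReal _ N
    rw [this]
    exact (Complex.continuous_ofReal.tendsto L).comp h1
  -- identify
  have hlim : Tendsto (fun M : ℕ => ∑ m ∈ Finset.Icc 1 (M^2), gt α X m) atTop (𝓝 (∑' m, gt α X m)) := by
    have h2 := (gt_summable hα X).hasSum.tendsto_sum_nat
    have h3 : Tendsto (fun M : ℕ => M^2 + 1) atTop atTop := by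
      apply tendsto_atTop_mono (f := fun M => M) _ tendsto_id
      intro M; nlinarith
    refine (h2.comp h3).congr ?_
    intro M
    simp only [Function.comp_apply]
    have h4 : Finset.range (M^2+1) = insert 0 (Finset.Icc 1 (M^2)) := by
      ext m; simp only [Finset.mem_range, Finset.mem_insert, Finset.mem_Icc]; omega
    rw [h4, Finset.sum_insert (by simp)]
    have h5 : gt α X 0 = 0 := by
      unfold gt
      simp only [Nat.cast_zero, Real.sqrt_zero, mul_zero]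
      rw [Real.zero_rpow (by norm_num)]
      simp
    rw [h5, zero_add]
  obtain ⟨C, hC, hb⟩ := b2' hα
  have hclose : ∀ M : ℕ, 1 ≤ M → ∀ η : ℝ, 0 < η → |L - ∑ m ∈ Finset.Icc 1 (M^2), gt α X m| ≤ √(C * Tl M + η) := by
    intro M hM η hη
    obtain ⟨N0, hN0⟩ := hb X M hM η hη
    have hT := Tl_nonneg M
    have hpos : 0 < C * Tl M + η := by positivity
    have h6 := mean_close (η := √(C * Tl M + η)) hLmean (V_mean α X M) ⟨N0, fun N hN => by
      refine (norm_cm_sub_le _ _ N).trans ?_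
      have h7 : rm (fun n => ‖((En (X + n * α) : ℝ) : ℂ) - ((V (X + n * α) 0 M : ℝ) : ℂ)‖) N =
          rm (fun n => |En (X + n * α) - V (X + n * α) 0 M|) N := by
        congr 1
        funext n
        rw [← Complex.ofReal_sub, Complex.norm_real, Real.norm_eq_abs]
      rw [h7]
      apply rm_abs_le (Real.sqrt_pos.mpr hpos)
      rw [Real.sq_sqrt hpos.le]
      exact hN0 N hN⟩
    rw [← Complex.ofReal_sub, Complex.norm_real, Real.norm_eq_abs] at h6
    exact h6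
  have hLe : L = ∑' m, gt α X m := by
    have h8 : Tendsto (fun M : ℕ => |L - ∑ m ∈ Finset.Icc 1 (M^2), gt α X m|) atTop (𝓝 |L - ∑' m, gt α X m|) :=
      (tendsto_const_nhds.sub hlim).abs
    have h9 : ∀ η : ℝ, 0 < η → |L - ∑' m, gt α X m| ≤ √η := by
      intro η hη
      have h10 : Tendsto (fun M : ℕ => √(C * Tl M + η)) atTop (𝓝 √(C * 0 + η)) :=
        (Real.continuous_sqrt.tendsto _).comp ((Tl_tendsto.const_mul C).add_const η)
      rw [mul_zero, zero_add] at h10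
      apply le_of_tendsto_of_tendsto h8 h10
      filter_upwards [eventually_ge_atTop 1] with M hM
      exact hclose M hM η hη
    have h11 : |L - ∑' m, gt α X m| ≤ 0 := by
      apply le_of_forall_pos_le_add
      intro ε hε
      have := h9 (ε^2) (by positivity)
      rw [Real.sqrt_sq hε.le] at this
      linarith
    have := abs_eq_zero.mp (le_antisymm h11 (abs_nonneg _))
    linarith
  rw [← hLe]
  exact h1

end Pool.Agent.H383.Gauss
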