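import Mathlib
import Pool.Agent.H383.EnB2

open MeasureTheory Set Filter Topology
open Pool.Agent.H383.AP

namespace Pool.Agent.H383.AP

lemma mean_mul {ι κ : Type*} (s : Finset ι) (t : Finset κ) (c : ι → ℂ) (θ : ι → ℝ) (d : κ → ℂ) (θ' : κ → ℝ) :
    HasMean ((∑ i ∈ s, c i • chr (θ i)) * (∑ j ∈ t, d j • chr (θ' j)))
      (∑ i ∈ s, ∑ j ∈ t, c i * d j * mc (θ i + θ' j)) := by
  rw [Finset.sum_mul_sum]
  apply HasMean.sum
  intro i _
  apply HasMean.sum
  intro j _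
  rw [smul_mul_smul_comm, chr_mul]
  exact (chr_mean _).smul _

/-- limsup of the second moment from approximants -/
lemma limsup_sq {e : ℕ → ℝ} {s : ℝ} (hs : 0 ≤ s) (h : ∀ η : ℝ, 0 < η → ∃ t : ℕ → ℝ,
    (∃ N0, ∀ N, N0 ≤ N → rm (fun n => (e n - t n)^2) N ≤ η) ∧
    (∃ N0, ∀ N, N0 ≤ N → rm (fun n => (t n)^2) N ≤ s + η)) :
    ∀ η : ℝ, 0 < η → ∃ N0, ∀ N, N0 ≤ N → rm (fun n => (e n)^2) N ≤ s + η := by
  intro η hη
  set ρ : ℝ := η / (4 * (s + 1)) with hρ
  have hρ0 : 0 < ρ := by positivity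
  set η' : ℝ := min (min 1 (η/8)) (η / (4 * (1 + 1/ρ))) with hη'
  have hη'0 : 0 < η' := by positivity
  obtain ⟨t, ⟨N1, h1⟩, ⟨N2, h2⟩⟩ := h η' hη'0
  refine ⟨max N1 N2, ?_⟩
  intro N hN
  have a1 := h1 N (by omega)
  have a2 := h2 N (by omega)
  have hpt : ∀ n, (e n)^2 ≤ (1 + ρ) * (t n)^2 + (1 + 1/ρ) * (e n - t n)^2 := by
    intro n
    have h3 : 0 ≤ (ρ * t n - (e n - t n))^2 / ρ := by positivity
    have h4 : (ρ * t n - (e n - t n))^2 / ρ = ρ * (t n)^2 - 2 * t n * (e n - t n) + (1/ρ) * (e n - t n)^2 := by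
      field_simp
      ring
    nlinarith
  calc rm (fun n => (e n)^2) N ≤ rm (fun n => (1 + ρ) * (t n)^2 + (1 + 1/ρ) * (e n - t n)^2) N := rm_mono hpt N
    _ = (1 + ρ) * rm (fun n => (t n)^2) N + (1 + 1/ρ) * rm (fun n => (e n - t n)^2) N := by
        rw [rm_add, rm_mul, rm_mul]
    _ ≤ (1 + ρ) * (s + η') + (1 + 1/ρ) * η' := by gcongr
    _ ≤ s + η := by
        have b1 : η' ≤ 1 := (min_le_left _ _).trans (min_le_left _ _)
        have b2 : η' ≤ η/8 := (min_le_left _ _).trans (min_le_right _ _)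
        have b3 : (1 + 1/ρ) * η' ≤ η/4 := by
          have : η' ≤ η / (4 * (1 + 1/ρ)) := min_le_right _ _
          calc (1 + 1/ρ) * η' ≤ (1 + 1/ρ) * (η / (4 * (1 + 1/ρ))) := by gcongr
            _ = η/4 := by field_simp
        have b4 : ρ * (s + 1) = η/4 := by rw [hρ]; field_simp
        have b5 : ρ * η' ≤ ρ * 1 := mul_le_mul_of_nonneg_left b1 hρ0.le
        nlinarith

end Pool.Agent.H383.AP

namespace Pool.Agent.H383.Gauss

lemma sqrt_sub_int {m m' : ℕ} (hm : ¬ IsSquare m') (h : ∃ k : ℤ, √(m:ℝ) - √(m':ℝ) = k) : m = m' := by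
  obtain ⟨k, hk⟩ := h
  by_cases hk0 : k = 0
  · rw [hk0] at hk
    have h1 : √(m:ℝ) = √(m':ℝ) := by push_cast at hk; linarith
    have e1 := Real.sq_sqrt (Nat.cast_nonneg (α := ℝ) m)
    have e2 := Real.sq_sqrt (Nat.cast_nonneg (α := ℝ) m')
    have : (m:ℝ) = m' := by rw [← e1, ← e2, h1]
    exact_mod_cast this
  · exfalso
    have hirr : Irrational √(m':ℝ) := irrational_sqrt_natCast_iff.mpr hm
    apply hirr
    have e1 := Real.sq_sqrt (Nat.cast_nonneg (α := ℝ) m)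
    have e2 := Real.sq_sqrt (Nat.cast_nonneg (α := ℝ) m')
    have hk' : (k:ℝ) ≠ 0 := by exact_mod_cast hk0
    have h1 : √(m:ℝ) = √(m':ℝ) + k := by linarith
    have h2 : √(m':ℝ) = ((m:ℝ) - m' - k^2) / (2 * k) := by
      rw [eq_div_iff (by positivity)]
      rw [h1] at e1
      nlinarith
    refine ⟨((m:ℚ) - m' - k^2) / (2 * k), ?_⟩
    rw [h2]; push_cast; rfl

lemma sqrt_add_int {m m' : ℕ} (hm0 : 1 ≤ m) (hm : ¬ IsSquare m') (h : ∃ k : ℤ, √(m:ℝ) + √(m':ℝ) = k) : False := by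
  obtain ⟨k, hk⟩ := h
  have hirr : Irrational √(m':ℝ) := irrational_sqrt_natCast_iff.mpr hm
  apply hirr
  have e1 := Real.sq_sqrt (Nat.cast_nonneg (α := ℝ) m)
  have e2 := Real.sq_sqrt (Nat.cast_nonneg (α := ℝ) m')
  have hm1 : 0 < √(m:ℝ) := Real.sqrt_pos.mpr (by exact_mod_cast hm0)
  have hm2 := Real.sqrt_nonneg (m':ℝ)
  have hk0 : (0:ℝ) < k := by rw [← hk]; linarith
  have h1 : √(m:ℝ) = k - √(m':ℝ) := by linarith
  have h2 : √(m':ℝ) = ((m':ℝ) - m + k^2) / (2 * k) := by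
    rw [eq_div_iff (by positivity)]
    rw [h1] at e1
    nlinarith
  refine ⟨((m':ℚ) - m + k^2) / (2 * k), ?_⟩
  rw [h2]; push_cast; rfl

open Classical in
/-- squares and non-squares up to `M²` -/
noncomputable def SQ (M : ℕ) : Finset ℕ := (Finset.Icc 1 (M^2)).filter (fun m => IsSquare m)

open Classical in
noncomputable def NS (M : ℕ) : Finset ℕ := (Finset.Icc 1 (M^2)).filter (fun m => ¬ IsSquare m)

/-- the constant part of the trigonometric polynomial at integer radii -/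
noncomputable def AM (M : ℕ) : ℝ := ∑ m ∈ SQ M, (bc 1 0 m).im

/-- the oscillating part -/
noncomputable def zM (M : ℕ) : ℕ → ℂ := ∑ m ∈ NS M, bc 1 0 m • chr (√(m:ℝ))

lemma V_split (M n : ℕ) : V (1 + n * 1) 0 M = AM M + (zM M n).im := by
  classical
  rw [V_eq_im, Complex.im_sum, ← Finset.sum_filter_add_sum_filter_not (Finset.Icc 1 (M^2)) (fun m => IsSquare m)]
  congr 1
  · unfold AM SQ
    apply Finset.sum_congr rfl
    intro m hm
    rw [Finset.mem_filter] at hm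
    obtain ⟨k, hk⟩ := hm.2
    have h1 : √(m:ℝ) = k := by
      rw [hk]; push_cast; exact Real.sqrt_mul_self (Nat.cast_nonneg k)
    have h2 : Complex.exp (((2 * Real.pi * (n * (1 * √(m:ℝ))) : ℝ) : ℂ) * Complex.I) = 1 := by
      rw [h1, Complex.exp_eq_one_iff]
      refine ⟨n * k, ?_⟩
      push_cast; ring
    rw [h2, mul_one]
  · unfold zM NS
    rw [Finset.sum_apply, Complex.im_sum]
    apply Finset.sum_congr rfl
    intro m _
    simp only [Pi.smul_apply, smul_eq_mul, chr, one_mul]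

/-- half the sum of the squares of the coefficients -/
noncomputable def VarM (M : ℕ) : ℝ := (1/2) * ∑ m ∈ NS M, ‖bc 1 0 m‖^2

lemma zM_conj (M : ℕ) : (fun n => (starRingEnd ℂ) (zM M n)) =
    ∑ m ∈ NS M, (starRingEnd ℂ) (bc 1 0 m) • chr (-√(m:ℝ)) := by
  funext n
  unfold zM
  rw [Finset.sum_apply, Finset.sum_apply, map_sum]
  apply Finset.sum_congr rfl
  intro m _
  simp only [Pi.smul_apply, smul_eq_mul, map_mul]
  rw [chr_conj]

lemma mem_NS {M m : ℕ} (h : m ∈ NS M) : 1 ≤ m ∧ ¬ IsSquare m := by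
  classical
  unfold NS at h
  rw [Finset.mem_filter, Finset.mem_Icc] at h
  exact ⟨h.1.1, h.2⟩

lemma mc_zero_of {θ : ℝ} (h : ¬ ∃ k : ℤ, θ = k) : mc θ = 0 := by
  unfold mc; rw [if_neg h]

lemma mc_one_of {θ : ℝ} (h : ∃ k : ℤ, θ = k) : mc θ = 1 := by
  unfold mc; rw [if_pos h]

lemma z_sq_mean (M : ℕ) : HasMean (zM M * zM M) 0 := by
  have h := mean_mul (NS M) (NS M) (bc 1 0) (fun m => √(m:ℝ)) (bc 1 0) (fun m => √(m:ℝ))
  have e : ∑ i ∈ NS M, ∑ j ∈ NS M, bc 1 0 i * bc 1 0 j * mc (√(i:ℝ) + √(j:ℝ)) = 0 := by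
    apply Finset.sum_eq_zero
    intro i hi
    apply Finset.sum_eq_zero
    intro j hj
    rw [mc_zero_of, mul_zero]
    intro hk
    exact sqrt_add_int (mem_NS hi).1 (mem_NS hj).2 hk
  rw [e] at h
  exact h

lemma z_conj_mean (M : ℕ) : HasMean (zM M * (fun n => (starRingEnd ℂ) (zM M n))) ((2 * VarM M : ℝ) : ℂ) := by
  rw [zM_conj]
  have h := mean_mul (NS M) (NS M) (bc 1 0) (fun m => √(m:ℝ)) (fun m => (starRingEnd ℂ) (bc 1 0 m)) (fun m => -√(m:ℝ))
  have e : ∑ i ∈ NS M, ∑ j ∈ NS M, bc 1 0 i * (starRingEnd ℂ) (bc 1 0 j) * mc (√(i:ℝ) + -√(j:ℝ)) =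
      ((2 * VarM M : ℝ) : ℂ) := by
    have e2 : ∀ i ∈ NS M, ∑ j ∈ NS M, bc 1 0 i * (starRingEnd ℂ) (bc 1 0 j) * mc (√(i:ℝ) + -√(j:ℝ)) =
        ((‖bc 1 0 i‖^2 : ℝ) : ℂ) := by
      intro i hi
      rw [Finset.sum_eq_single i]
      · rw [mc_one_of ⟨0, by simp⟩, mul_one, Complex.mul_conj, Complex.normSq_eq_norm_sq]
      · intro j hj hji
        rw [mc_zero_of, mul_zero]
        intro hk
        exact hji (sqrt_sub_int (mem_NS hj).2 (by simpa [sub_eq_add_neg] using hk)).symm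
      · intro hni; exact absurd hi hni
    rw [Finset.sum_congr rfl e2]
    unfold VarM
    push_cast
    ring
  rw [e] at h
  exact h

lemma conj_mean {a : ℕ → ℂ} {L : ℂ} (h : HasMean a L) : HasMean (fun n => (starRingEnd ℂ) (a n)) ((starRingEnd ℂ) L) := by
  unfold HasMean at *
  have e : cm (fun n => (starRingEnd ℂ) (a n)) = fun N => (starRingEnd ℂ) (cm a N) := by
    funext N
    unfold cm
    rw [map_div₀, map_sum, Complex.conj_natCast]
  rw [e]
  exact (Complex.continuous_conj.tendsto L).comp h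

lemma z_mean (M : ℕ) : HasMean (zM M) 0 := by
  have h := HasMean.sum (NS M) (fun m => bc 1 0 m • chr (√(m:ℝ))) (fun _ => 0) ?_
  · rw [Finset.sum_const_zero] at h
    exact h
  · intro m hm
    have h1 := (chr_mean (√(m:ℝ))).smul (bc 1 0 m)
    rw [mc_zero_of, mul_zero] at h1
    · exact h1
    · intro hk
      have hirr : Irrational √(m:ℝ) := irrational_sqrt_natCast_iff.mpr (mem_NS hm).2
      obtain ⟨k, hk⟩ := hk
      exact hirr ⟨(k:ℚ), by rw [hk]; push_cast; rfl⟩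

/-- second moment of the approximants around `a` -/
lemma V_sq_mean (M : ℕ) (a : ℝ) : Tendsto (rm (fun n : ℕ => (V (1 + n * 1) 0 M - a)^2)) atTop
    (𝓝 ((AM M - a)^2 + VarM M)) := by
  -- complex version
  have h1 := z_mean M
  have h2 := conj_mean h1
  rw [map_zero] at h2
  have h3 := z_sq_mean M
  have h4 := conj_mean h3
  rw [map_zero] at h4
  have h5 := z_conj_mean M
  have hI := Complex.I_ne_zero
  have key : HasMean (fun n : ℕ => (((V (1 + n * 1) 0 M - a)^2 : ℝ) : ℂ)) (((AM M - a)^2 + VarM M : ℝ) : ℂ) := by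
    have h6 := ((((hasMean_const (((AM M - a)^2 : ℝ) : ℂ)).add (h1.smul ((AM M - a : ℝ) / Complex.I))).add
      (h2.smul (-((AM M - a : ℝ) / Complex.I)))).add (h5.smul (1/2))).add
      ((h3.smul (-(1/4))).add (h4.smul (-(1/4))))
    convert h6 using 1
    · funext n
      rw [V_split]
      simp only [Pi.add_apply, Pi.smul_apply, Pi.mul_apply, smul_eq_mul]
      have him : ((zM M n).im : ℂ) = (zM M n - (starRingEnd ℂ) (zM M n)) / (2 * Complex.I) := by
        rw [Complex.sub_conj]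
        field_simp
        push_cast
        ring
      push_cast
      rw [him, map_mul]
      have hI2 : Complex.I^2 = -1 := Complex.I_sq
      field_simp
      ring_nf
      simp only [hI2]
      ring
    · push_cast
      ring
  unfold HasMean at key
  have e : cm (fun n : ℕ => (((V (1 + n * 1) 0 M - a)^2 : ℝ) : ℂ)) =
      fun N => ((rm (fun n : ℕ => (V (1 + n * 1) 0 M - a)^2) N : ℝ) : ℂ) := by
    funext N; exact cm_ofReal _ N
  rw [e] at key
  have h7 := (Complex.continuous_re.tendsto _).comp key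
  rw [Complex.ofReal_re] at h7
  exact h7

end Pool.Agent.H383.Gauss
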