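import Mathlib
import Pool.Agent.H383.IntRad

open MeasureTheory Set Filter Topology
open Pool.Agent.H383.AP

namespace Pool.Agent.H383.Gauss

/-- the sum over squares -/
noncomputable def SS (M : ℕ) : ℝ := ∑ k ∈ Finset.Icc 1 M, rA (k^2) * (k:ℝ) ^ (-(3/2):ℝ)

/-- the sum over non-squares -/
noncomputable def TT (M : ℕ) : ℝ := ∑ m ∈ NS M, (rA m)^2 * (m:ℝ) ^ (-(3/2):ℝ)

lemma SQ_eq (M : ℕ) : SQ M = (Finset.Icc 1 M).image (fun k => k^2) := by
  classical
  unfold SQ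
  ext m
  simp only [Finset.mem_filter, Finset.mem_Icc, Finset.mem_image]
  constructor
  · rintro ⟨⟨h1, h2⟩, k, hk⟩
    refine ⟨k, ⟨?_, ?_⟩, ?_⟩
    · rcases Nat.eq_zero_or_pos k with rfl | h
      · simp at hk; omega
      · exact h
    · by_contra hc
      push Not at hc
      have : M^2 < k^2 := Nat.pow_lt_pow_left hc (by norm_num)
      rw [hk] at h2
      nlinarith
    · rw [hk]; ring
  · rintro ⟨k, ⟨h1, h2⟩, rfl⟩
    refine ⟨⟨Nat.one_le_pow _ _ h1, Nat.pow_le_pow_left h2 2⟩, k, by ring⟩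

lemma AM_eq (M : ℕ) : AM M = -(√2 / (2 * Real.pi)) * SS M := by
  unfold AM SS
  rw [SQ_eq, Finset.sum_image (fun a _ b _ h => by
    exact Nat.pow_left_injective (by norm_num) h), Finset.mul_sum]
  apply Finset.sum_congr rfl
  intro k _
  rw [bc_im]
  have h1 : √((k^2 : ℕ):ℝ) = k := by
    push_cast; exact Real.sqrt_sq (Nat.cast_nonneg k)
  rw [h1]
  have h2 : Real.sin (2 * Real.pi * (1 * k) - Real.pi/4) = -(√2/2) := by
    have e : 2 * Real.pi * (1 * k) - Real.pi/4 = -(Real.pi/4) + (k:ℕ) * (2 * Real.pi) := by ring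
    rw [e, Real.sin_add_nat_mul_two_pi, Real.sin_neg, Real.sin_pi_div_four]
  rw [h2]
  have := Real.pi_pos.ne'
  field_simp

lemma VarM_eq (M : ℕ) : VarM M = (1 / (2 * Real.pi^2)) * TT M := by
  unfold VarM TT
  rw [Finset.mul_sum, Finset.mul_sum]
  apply Finset.sum_congr rfl
  intro m hm
  have hm1 := (mem_NS hm).1
  have hm0 : (0:ℝ) < m := by exact_mod_cast hm1
  rw [bc_zero, norm_mul, Complex.norm_exp_ofReal_mul_I, mul_one, Complex.norm_real, Real.norm_eq_abs, sq_abs]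
  have h1 : ((√(m:ℝ)) ^ (-(3/2):ℝ))^2 = (m:ℝ) ^ (-(3/2):ℝ) := by
    rw [Real.sqrt_eq_rpow, ← Real.rpow_mul hm0.le, ← Real.rpow_natCast, ← Real.rpow_mul hm0.le]; norm_num
  rw [mul_pow, h1, div_pow]
  have := Real.pi_pos.ne'
  field_simp

theorem limsup_E {Sinf T : ℝ} (hS : Tendsto SS atTop (𝓝 Sinf)) (hT0 : 0 ≤ T) (hT : ∀ᶠ M in atTop, TT M ≤ T) (a : ℝ) :
    ∀ η : ℝ, 0 < η → ∃ N0, ∀ N, N0 ≤ N → rm (fun n : ℕ => (En (1 + n * 1) - a)^2) N ≤
      ((-(√2 / (2 * Real.pi)) * Sinf - a)^2 + (1 / (2 * Real.pi^2)) * T) + η := by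
  have hpi := Real.pi_pos
  apply limsup_sq (by positivity)
  intro η hη
  obtain ⟨C, hC, hb⟩ := b2' (α := 1) one_pos
  have h1 : Tendsto (fun M => C * Tl M) atTop (𝓝 0) := by
    have := Tl_tendsto.const_mul C
    rwa [mul_zero] at this
  have h2 : Tendsto (fun M => (-(√2 / (2 * Real.pi)) * SS M - a)^2) atTop (𝓝 ((-(√2 / (2 * Real.pi)) * Sinf - a)^2)) :=
    ((hS.const_mul _).sub_const a).pow 2
  have h3 := (((h1.eventually (gt_mem_nhds (by positivity : 0 < η/2))).and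
    (h2.eventually (gt_mem_nhds (by linarith : (-(√2 / (2 * Real.pi)) * Sinf - a)^2 < (-(√2 / (2 * Real.pi)) * Sinf - a)^2 + η/2)))).and
    hT).and (eventually_ge_atTop 1)
  obtain ⟨M, ⟨⟨hM1, hM2⟩, hM3⟩, hM4⟩ := h3.exists
  refine ⟨fun n => V (1 + n * 1) 0 M - a, ?_, ?_⟩
  · obtain ⟨N0, hN0⟩ := hb 1 M hM4 (η/2) (by positivity)
    refine ⟨N0, fun N hN => ?_⟩
    have h4 := hN0 N hN
    have e : (fun n : ℕ => (En (1 + n * 1) - a - (V (1 + n * 1) 0 M - a))^2) =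
        fun n : ℕ => (En (1 + n * 1) - V (1 + n * 1) 0 M)^2 := by
      funext n; ring
    rw [e]
    linarith
  · have h5 := V_sq_mean M a
    have h6 : (AM M - a)^2 + VarM M < (-(√2 / (2 * Real.pi)) * Sinf - a)^2 + (1 / (2 * Real.pi^2)) * T + η := by
      rw [AM_eq, VarM_eq]
      have : (1 / (2 * Real.pi^2)) * TT M ≤ (1 / (2 * Real.pi^2)) * T := mul_le_mul_of_nonneg_left hM3 (by positivity)
      linarith
    have h7 := h5.eventually (gt_mem_nhds h6)
    rw [eventually_atTop] at h7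
    obtain ⟨N0, hN0⟩ := h7
    exact ⟨N0, fun N hN => (hN0 N hN).le⟩

open Classical in
theorem density {Sinf T θ : ℝ} (hS : Tendsto SS atTop (𝓝 Sinf)) (hS0 : 0 < Sinf) (hT0 : 0 < T)
    (hT : ∀ᶠ M in atTop, TT M ≤ T) (hθ : T / (Sinf^2 + T) < θ) :
    ∃ N0, ∀ N, N0 ≤ N → (((Finset.range N).filter (fun n : ℕ => 0 ≤ En (1 + n * 1))).card : ℝ) ≤ θ * N := by
  have hpi := Real.pi_pos
  set c : ℝ := √2 / (2 * Real.pi) with hc
  have hc0 : 0 < c := by positivity
  have hc2 : c^2 = 1 / (2 * Real.pi^2) := by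
    rw [hc, div_pow, Real.sq_sqrt (by norm_num)]
    field_simp
  -- optimal a
  set b : ℝ := c * (Sinf + T / Sinf) with hb
  have hb0 : 0 < b := by positivity
  have hval : ((-c * Sinf - (-b))^2 + c^2 * T) = (T / (Sinf^2 + T)) * b^2 := by
    rw [hb]
    field_simp
    ring
  set η : ℝ := (θ - T / (Sinf^2 + T)) * b^2 with hη
  have hη0 : 0 < η := by
    have : 0 < θ - T / (Sinf^2 + T) := by linarith
    positivity
  obtain ⟨N0, hN0⟩ := limsup_E hS hT0.le hT (-b) η hη0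
  refine ⟨N0 + 1, ?_⟩
  intro N hN
  have hN' : (0:ℝ) < N := by exact_mod_cast (by omega : 0 < N)
  have h1 := hN0 N (by omega)
  rw [← hc, ← hc2, hval, hη] at h1
  have h2 : T / (Sinf^2 + T) * b^2 + (θ - T / (Sinf^2 + T)) * b^2 = θ * b^2 := by ring
  rw [h2] at h1
  have h3 : b^2 * (((Finset.range N).filter (fun n : ℕ => 0 ≤ En (1 + n * 1))).card : ℝ) ≤
      ∑ n ∈ Finset.range N, (En (1 + n * 1) - -b)^2 := by
    calc b^2 * (((Finset.range N).filter (fun n : ℕ => 0 ≤ En (1 + n * 1))).card : ℝ)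
        = ∑ n ∈ (Finset.range N).filter (fun n : ℕ => 0 ≤ En (1 + n * 1)), b^2 := by
          rw [Finset.sum_const, nsmul_eq_mul, mul_comm]
      _ ≤ ∑ n ∈ (Finset.range N).filter (fun n : ℕ => 0 ≤ En (1 + n * 1)), (En (1 + n * 1) - -b)^2 := by
          apply Finset.sum_le_sum
          intro n hn
          rw [Finset.mem_filter] at hn
          have := hn.2
          nlinarith
      _ ≤ _ := by
          apply Finset.sum_le_sum_of_subset_of_nonneg (Finset.filter_subset _ _)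
          intro n _ _
          positivity
  unfold rm at h1
  rw [div_le_iff₀ hN'] at h1
  have h4 : b^2 * (((Finset.range N).filter (fun n : ℕ => 0 ≤ En (1 + n * 1))).card : ℝ) ≤ b^2 * (θ * N) := by
    calc _ ≤ _ := h3
      _ ≤ _ := h1
      _ = _ := by ring
  exact le_of_mul_le_mul_left h4 (by positivity)

end Pool.Agent.H383.Gauss
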