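import Mathlib
import Pool.Agent.H383.Expand

open Set Filter Topology

namespace Pool.Agent.H383.Gauss

/-- canonical gcd: a generator of the ideal spanned by `z, w` -/
noncomputable def cg (z w : GaussianInt) : GaussianInt :=
  Submodule.IsPrincipal.generator (Ideal.span {z, w})

lemma cg_span (z w : GaussianInt) : Ideal.span {cg z w} = Ideal.span {z, w} :=
  Ideal.span_singleton_generator (Ideal.span {z, w})

lemma cg_dvd_left (z w : GaussianInt) : cg z w ∣ z := by
  have : z ∈ Ideal.span {cg z w} := by
    rw [cg_span]; exact Ideal.subset_span (by simp)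
  exact Ideal.mem_span_singleton.mp this

lemma cg_dvd_right (z w : GaussianInt) : cg z w ∣ w := by
  have : w ∈ Ideal.span {cg z w} := by
    rw [cg_span]; exact Ideal.subset_span (by simp)
  exact Ideal.mem_span_singleton.mp this

lemma key_pair {m : ℕ} (hm : 1 ≤ m) {z w : GaussianInt} (hz : z ∈ A m) (hw : w ∈ A m) :
    ∃ G a u : GaussianInt, IsUnit u ∧ z = cg z w * a ∧ w = G * star a ∧ G = cg z w * u := by
  obtain ⟨a, ha⟩ := cg_dvd_left z w
  obtain ⟨b, hb⟩ := cg_dvd_right z w
  set g := cg z w with hg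
  rw [mem_A] at hz hw
  have hg0 : g ≠ 0 := by
    intro h
    rw [h, zero_mul] at ha
    rw [ha] at hz
    simp at hz
    omega
  have hm0 : (m:ℤ) ≠ 0 := by exact_mod_cast (by omega : m ≠ 0)
  -- coprimality
  have hcop : IsCoprime a b := by
    have h1 : g ∈ Ideal.span {z, w} := by
      rw [← cg_span]; exact Ideal.subset_span (by simp [hg])
    rw [Ideal.mem_span_pair] at h1
    obtain ⟨x, y, hxy⟩ := h1
    refine ⟨x, y, ?_⟩
    have h2 : g * (x * a + y * b) = g * 1 := by
      rw [mul_one]
      nth_rewrite 2 [← hxy]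
      rw [ha, hb]; ring
    exact mul_left_cancel₀ hg0 h2
  have hna : a.norm = b.norm := by
    have h1 : g.norm * a.norm = g.norm * b.norm := by
      rw [← Zsqrtd.norm_mul, ← Zsqrtd.norm_mul, ← ha, ← hb, hz, hw]
    have h2 : g.norm ≠ 0 := by
      intro h
      rw [ha, Zsqrtd.norm_mul, h, zero_mul] at hz
      exact hm0 hz.symm
    exact mul_left_cancel₀ h2 h1
  have ha0 : a.norm ≠ 0 := by
    intro h
    rw [ha, Zsqrtd.norm_mul, h, mul_zero] at hz
    exact hm0 hz.symm
  have hdvd : a ∣ b * star b := by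
    rw [mul_star_eq, ← hna, ← mul_star_eq]
    exact Dvd.intro _ rfl
  have hdvd2 : a ∣ star b := hcop.dvd_of_dvd_mul_left hdvd
  obtain ⟨v, hv⟩ := hdvd2
  have hvn : v.norm = 1 := by
    have h1 : (star b).norm = a.norm * v.norm := by rw [hv, Zsqrtd.norm_mul]
    have h2 : (star b).norm = b.norm := by
      simp [Zsqrtd.norm, Zsqrtd.re_star, Zsqrtd.im_star]
    rw [h2, ← hna] at h1
    have h3 : a.norm * v.norm = a.norm * 1 := by rw [← h1, mul_one]
    exact mul_left_cancel₀ ha0 h3
  have hvu : IsUnit v := by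
    rw [← Zsqrtd.norm_eq_one_iff, hvn]; rfl
  have hsu : IsUnit (star v) := by
    have := hvu.map (starRingEnd GaussianInt)
    exact this
  refine ⟨g * star v, a, star v, hsu, ha, ?_, rfl⟩
  have hb2 : b = star a * star v := by
    have := congrArg star hv
    rw [star_star, star_mul] at this
    rw [this]; ring
  nth_rewrite 1 [hb]
  rw [hb2]; ring

theorem rA_sq_le {m : ℕ} (hm : 1 ≤ m) :
    (rA m)^2 ≤ ∑ x ∈ m.divisorsAntidiagonal, rA x.1 * rA x.2 := by
  classical
  set As : ℕ → Finset GaussianInt := fun n => (A_finite n).toFinset with hAs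
  have hcard : ∀ n, ((As n).card : ℝ) = rA n := by
    intro n
    unfold rA
    rw [Set.ncard_eq_toFinset_card _ (A_finite n)]
  have hmem : ∀ n z, z ∈ As n ↔ z ∈ A n := by
    intro n z
    simp only [hAs, Set.Finite.mem_toFinset]
  have hex : ∀ p : GaussianInt × GaussianInt, p ∈ As m ×ˢ As m →
      ∃ G a u : GaussianInt, IsUnit u ∧ p.1 = cg p.1 p.2 * a ∧ p.2 = G * star a ∧ G = cg p.1 p.2 * u := by
    intro p hp
    rw [Finset.mem_product, hmem, hmem] at hp
    exact key_pair hm hp.1 hp.2
  choose! fG fa fu hu h1 h2 h3 using hex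
  have hle : (As m ×ˢ As m).card ≤ ((m.divisorsAntidiagonal).biUnion (fun x => As x.1 ×ˢ As x.2)).card := by
    apply Finset.card_le_card_of_injOn (fun p => (fG p, fa p))
    · intro p hp
      have hp' : p ∈ As m ×ˢ As m := hp
      have e1 := h1 p hp'
      have e3 := h3 p hp'
      have hun : (fu p).norm.natAbs = 1 := Zsqrtd.norm_eq_one_iff.mpr (hu p hp')
      rw [Finset.mem_product, hmem, hmem] at hp'
      have hn1 : p.1.norm = m := hp'.1
      have hfu0 : (fu p).norm = 1 := by
        have h0 : 0 ≤ (fu p).norm := by rw [norm_eq]; positivity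
        omega
      have hGn : (fG p).norm = (cg p.1 p.2).norm := by
        rw [e3, Zsqrtd.norm_mul, hfu0, mul_one]
      have hprod : (fG p).norm * (fa p).norm = m := by
        rw [hGn, ← Zsqrtd.norm_mul, ← e1, hn1]
      have hG0 : 0 ≤ (fG p).norm := by rw [norm_eq]; positivity
      have ha0 : 0 ≤ (fa p).norm := by rw [norm_eq]; positivity
      rw [Finset.mem_coe, Finset.mem_biUnion]
      refine ⟨((fG p).norm.toNat, (fa p).norm.toNat), ?_, ?_⟩
      · rw [Nat.mem_divisorsAntidiagonal]
        refine ⟨?_, by omega⟩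
        have : (((fG p).norm.toNat * (fa p).norm.toNat : ℕ) : ℤ) = m := by
          push_cast
          rw [Int.toNat_of_nonneg hG0, Int.toNat_of_nonneg ha0]; exact hprod
        exact_mod_cast this
      · rw [Finset.mem_product, hmem, hmem, mem_A, mem_A]
        simp only
        exact ⟨(Int.toNat_of_nonneg hG0).symm, (Int.toNat_of_nonneg ha0).symm⟩
    · intro p hp q hq hpq
      simp only [Prod.mk.injEq] at hpq
      obtain ⟨hG, ha⟩ := hpq
      have hp' : p ∈ As m ×ˢ As m := hp
      have hq' : q ∈ As m ×ˢ As m := hq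
      have e2 : p.2 = q.2 := by
        rw [h2 p hp', h2 q hq', hG, ha]
      -- the canonical gcds are associated
      obtain ⟨u, hu1⟩ := hu p hp'
      obtain ⟨v, hv1⟩ := hu q hq'
      have e3 : cg p.1 p.2 * (u:GaussianInt) = cg q.1 q.2 * (v:GaussianInt) := by
        rw [hu1, hv1, ← h3 p hp', ← h3 q hq', hG]
      have e4 : q.1 = p.1 * ((u * v⁻¹ : GaussianIntˣ) : GaussianInt) := by
        have e5 : cg q.1 q.2 = cg p.1 p.2 * ((u * v⁻¹ : GaussianIntˣ) : GaussianInt) := by
          rw [Units.val_mul, ← mul_assoc, e3, mul_assoc, Units.mul_inv, mul_one]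
        calc q.1 = cg q.1 q.2 * fa q := h1 q hq'
          _ = (cg p.1 p.2 * fa p) * ((u * v⁻¹ : GaussianIntˣ) : GaussianInt) := by rw [e5, ← ha]; ring
          _ = _ := by rw [← h1 p hp']
      have e6 : Ideal.span {q.1, q.2} = Ideal.span {p.1, p.2} := by
        rw [← e2, e4]
        apply le_antisymm
        · rw [Ideal.span_le]
          intro x hx
          simp only [Set.mem_insert_iff, Set.mem_singleton_iff] at hx
          rcases hx with rfl | rfl
          · exact Ideal.mul_mem_right _ _ (Ideal.subset_span (by simp))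
          · exact Ideal.subset_span (by simp)
        · rw [Ideal.span_le]
          intro x hx
          simp only [Set.mem_insert_iff, Set.mem_singleton_iff] at hx
          rcases hx with rfl | rfl
          · have : p.1 = p.1 * ((u * v⁻¹ : GaussianIntˣ) : GaussianInt) * (((u * v⁻¹)⁻¹ : GaussianIntˣ) : GaussianInt) := by
              rw [mul_assoc, Units.mul_inv, mul_one]
            have h0 : p.1 * ((u * v⁻¹ : GaussianIntˣ) : GaussianInt) ∈
                Ideal.span {p.1 * ((u * v⁻¹ : GaussianIntˣ) : GaussianInt), p.2} :=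
              Ideal.subset_span (Set.mem_insert _ _)
            have h1' := Ideal.mul_mem_right (((u * v⁻¹)⁻¹ : GaussianIntˣ) : GaussianInt) _ h0
            rw [← this] at h1'
            exact h1'
          · exact Ideal.subset_span (by simp)
      have e7 : cg q.1 q.2 = cg p.1 p.2 := by
        unfold cg
        simp only [e6]
      have e8 : q.1 = p.1 := by
        rw [h1 q hq', e7, ← ha, ← h1 p hp']
      exact Prod.ext e8.symm e2
  have h4 : ((As m ×ˢ As m).card : ℝ) ≤ ∑ x ∈ m.divisorsAntidiagonal, rA x.1 * rA x.2 := by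
    have h5 := hle.trans (Finset.card_biUnion_le)
    have h6 : ((As m ×ˢ As m).card : ℝ) ≤ ((∑ x ∈ m.divisorsAntidiagonal, (As x.1 ×ˢ As x.2).card : ℕ) : ℝ) := by
      exact_mod_cast h5
    refine h6.trans (le_of_eq ?_)
    push_cast
    apply Finset.sum_congr rfl
    intro x _
    rw [Finset.card_product]
    push_cast
    rw [hcard, hcard]
  rw [Finset.card_product] at h4
  push_cast at h4
  rw [hcard] at h4
  rw [sq]; exact h4

end Pool.Agent.H383.Gauss
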