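import Mathlib
import Pool.Agent.H383.RR
import Pool.Agent.H383.Dens

open Set Filter Topology

namespace Pool.Agent.H383.Gauss

/-- `⌊10^8 n^(-3/2)⌋` -/
def lo (n : ℕ) : ℕ := ([0, 100000000, 35355339, 19245008, 12500000, 8944271, 6804138, 5399492, 4419417, 3703703, 3162277, 2741012, 2405626, 2133462, 1909008, 1721325, 1562500, 1426680, 1309457, 1207451, 1118033, 1039132, 969094, 906584, 850517, 800000, 754292, 712778, 674936, 640328, 608580, 579371, 552427, 527508, 504407, 482945, 462962, 444321, 426898, 410585, 395284, 380911, 367388, 354647, 342626, 331269, 320525, 310351, 300703, 291545, 282842, 274564, 266682, 259170, 252005, 245163, 238626, 232374, 226390, 220659, 215165, 209896, 204838, 199981, 195312, 190822, 186502, 182342, 178335, 174472, 170746, 167152, 163682, 160330, 157091, 153960, 150931, 148000, 145163, 142416, 139754, 137174, 134672, 132246, 129891, 127606, 125386, 123231,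 121136, 119100, 117121, 115196, 113323, 111500, 109725, 107997, 106314, 104674, 103076, 101518, 100000, 98518, 97073, 95663, 94286, 92942, 91630, 90349, 89097, 87873, 86678, 85509, 84367, 83249, 82156, 81087, 80041, 79017, 78014, 77033, 76072, 75131, 74209, 73306, 72421, 71554, 70704, 69870, 69053, 68252, 67466, 66694, 65938, 65196, 64467, 63752, 63050, 62361, 61685, 61020, 60368, 59727, 59097, 58478, 57870, 57272, 56685, 56107, 55540, 54982, 54433, 53893, 53362, 52840, 52326, 51820, 51323, 50833, 50351, 49877, 49410, 48950, 48498, 48052, 47613, 47181, 46756, 46336, 45923, 45516, 45115, 44720, 44330, 43947, 43568, 43195, 42828, 42465, 42108, 41756, 41408, 41065, 40727, 40394, 40065, 39741, 39421, 39105, 38793, 38486, 38182, 37883, 37587, 37296, 37008, 36723, 36443, 36166, 35892, 35622, 35355] : List ℕ).getD n 0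

lemma lo_check : ∀ n ∈ Finset.Icc 1 200, (lo n)^2 * n^3 ≤ 10^16 ∧ 10^16 < (lo n + 1)^2 * n^3 := by
  decide +kernel

lemma rpow_sq {n : ℕ} (hn : 1 ≤ n) : ((n:ℝ) ^ (-(3/2):ℝ))^2 * (n:ℝ)^3 = 1 := by
  have h0 : (0:ℝ) < n := by exact_mod_cast hn
  rw [← Real.rpow_natCast, ← Real.rpow_mul h0.le, ← Real.rpow_natCast (n:ℝ) 3, ← Real.rpow_add h0]
  norm_num

lemma lo_le {n : ℕ} (hn : n ∈ Finset.Icc 1 200) : (lo n : ℝ) / 10^8 ≤ (n:ℝ) ^ (-(3/2):ℝ) := by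
  have h := (lo_check n hn).1
  rw [Finset.mem_Icc] at hn
  have h0 : (0:ℝ) < n := by exact_mod_cast hn.1
  have h1 := rpow_sq hn.1
  have h2 : ((lo n : ℝ))^2 * (n:ℝ)^3 ≤ 10^16 := by exact_mod_cast h
  have h3 : 0 ≤ (n:ℝ) ^ (-(3/2):ℝ) := by positivity
  have h4 : ((lo n : ℝ) / 10^8)^2 ≤ ((n:ℝ) ^ (-(3/2):ℝ))^2 := by
    have h5 : ((lo n : ℝ) / 10^8)^2 * (n:ℝ)^3 ≤ ((n:ℝ) ^ (-(3/2):ℝ))^2 * (n:ℝ)^3 := by
      rw [h1, div_pow, div_mul_eq_mul_div, div_le_one (by positivity)]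
      calc _ ≤ _ := h2
        _ = _ := by norm_num
    exact le_of_mul_le_mul_right h5 (by positivity)
  exact le_of_sq_le_sq h4 h3

lemma le_hi {n : ℕ} (hn : n ∈ Finset.Icc 1 200) : (n:ℝ) ^ (-(3/2):ℝ) ≤ ((lo n : ℝ) + 1) / 10^8 := by
  have h := (lo_check n hn).2
  rw [Finset.mem_Icc] at hn
  have h0 : (0:ℝ) < n := by exact_mod_cast hn.1
  have h1 := rpow_sq hn.1
  have h2 : (10:ℝ)^16 ≤ ((lo n : ℝ) + 1)^2 * (n:ℝ)^3 := by exact_mod_cast h.le
  have h3 : 0 ≤ ((lo n : ℝ) + 1) / 10^8 := by positivity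
  have h4 : ((n:ℝ) ^ (-(3/2):ℝ))^2 ≤ (((lo n : ℝ) + 1) / 10^8)^2 := by
    have h5 : ((n:ℝ) ^ (-(3/2):ℝ))^2 * (n:ℝ)^3 ≤ (((lo n : ℝ) + 1) / 10^8)^2 * (n:ℝ)^3 := by
      rw [h1, div_pow, div_mul_eq_mul_div, one_le_div (by positivity)]
      calc _ = (10:ℝ)^16 := by norm_num
        _ ≤ _ := h2
    exact le_of_mul_le_mul_right h5 (by positivity)
  exact le_of_sq_le_sq h4 h3

/-- multiplicity of a nonnegative integer as the absolute value of an integer -/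
def wt (a : ℕ) : ℕ := if a = 0 then 1 else 2

lemma even_sum (K : ℕ) (g : ℤ → ℝ) (hg : ∀ x, g (-x) = g x) :
    ∑ x ∈ Finset.Icc (-(K:ℤ)) K, g x = ∑ a ∈ Finset.range (K+1), (wt a : ℝ) * g a := by
  induction K with
  | zero => simp [wt]
  | succ K ih =>
    have h1 : Finset.Icc (-((K+1:ℕ):ℤ)) ((K+1:ℕ):ℤ) =
        insert (-((K+1:ℕ):ℤ)) (insert (((K+1:ℕ):ℤ)) (Finset.Icc (-(K:ℤ)) K)) := by
      ext x
      simp only [Finset.mem_Icc, Finset.mem_insert]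
      push_cast
      omega
    rw [h1, Finset.sum_insert, Finset.sum_insert, ih, Finset.sum_range_succ _ (K+1), hg]
    · simp only [wt, Nat.add_eq_zero_iff, one_ne_zero, and_false, if_false]
      push_cast
      ring
    · simp only [Finset.mem_Icc]; push_cast; omega
    · simp only [Finset.mem_insert, Finset.mem_Icc]; push_cast; omega

lemma rA_eq {K m : ℕ} (hm : m < (K+1)^2) : rA m = ((∑ a ∈ Finset.range (K+1), ∑ b ∈ Finset.range (K+1),
    if a^2 + b^2 = m then wt a * wt b else 0 : ℕ) : ℝ) := by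
  classical
  have h1 : rA m = ∑ x ∈ Finset.Icc (-(K:ℤ)) K, ∑ y ∈ Finset.Icc (-(K:ℤ)) K, if x^2 + y^2 = (m:ℤ) then (1:ℝ) else 0 := by
    unfold rA
    rw [Set.ncard_eq_toFinset_card _ (A_finite m), ← Finset.sum_product', ← Finset.sum_filter, Finset.sum_const,
      nsmul_eq_mul, mul_one]
    congr 1
    apply Finset.card_bij (fun z _ => (z.re, z.im))
    · intro z hz
      rw [Set.Finite.mem_toFinset, mem_A, norm_eq] at hz
      rw [Finset.mem_filter, Finset.mem_product, Finset.mem_Icc, Finset.mem_Icc]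
      have hm' : (m:ℤ) < (K+1)^2 := by exact_mod_cast hm
      have key : ∀ x : ℤ, x^2 ≤ m → -(K:ℤ) ≤ x ∧ x ≤ K := by
        intro x hx
        have h2 : |x| < K + 1 := by
          rw [← abs_of_pos (by positivity : (0:ℤ) < (K:ℤ) + 1)]
          exact sq_lt_sq.mp (lt_of_le_of_lt hx hm')
        rw [abs_lt] at h2
        omega
      refine ⟨⟨key _ ?_, key _ ?_⟩, hz⟩
      · simp only; nlinarith [sq_nonneg z.im]
      · simp only; nlinarith [sq_nonneg z.re]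
    · intro z _ w _ h
      simp only [Prod.mk.injEq] at h
      exact Zsqrtd.ext h.1 h.2
    · intro p hp
      rw [Finset.mem_filter] at hp
      refine ⟨⟨p.1, p.2⟩, ?_, rfl⟩
      rw [Set.Finite.mem_toFinset, mem_A, norm_eq]
      exact hp.2
  have h2 : ∀ x : ℤ, ∑ y ∈ Finset.Icc (-(K:ℤ)) K, (if x^2 + y^2 = (m:ℤ) then (1:ℝ) else 0) =
      ∑ b ∈ Finset.range (K+1), (wt b : ℝ) * (if x^2 + (b:ℤ)^2 = (m:ℤ) then (1:ℝ) else 0) := by
    intro x
    apply even_sum K (fun y => if x^2 + y^2 = (m:ℤ) then (1:ℝ) else 0)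
    intro y
    simp only [neg_sq]
  rw [h1, even_sum K (fun x => ∑ y ∈ Finset.Icc (-(K:ℤ)) K, if x^2 + y^2 = (m:ℤ) then (1:ℝ) else 0)
    (fun x => by simp only [neg_sq])]
  push_cast
  apply Finset.sum_congr rfl
  intro a _
  rw [h2, Finset.mul_sum]
  apply Finset.sum_congr rfl
  intro b _
  have h3 : ((a:ℤ)^2 + (b:ℤ)^2 = (m:ℤ)) ↔ (a^2 + b^2 = m) := by
    constructor
    · intro h; exact_mod_cast h
    · intro h; exact_mod_cast h
  simp only [h3]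
  split_ifs <;> ring


/-- table of `r₂` -/
def rt (n : ℕ) : ℕ := ([1, 4, 4, 0, 4, 8, 0, 0, 4, 4, 8, 0, 0, 8, 0, 0, 4, 8, 4, 0, 8, 0, 0, 0, 0, 12, 8, 0, 0, 8, 0, 0, 4, 0, 8, 0, 4, 8, 0, 0, 8, 8, 0, 0, 0, 8, 0, 0, 0, 4, 12, 0, 8, 8, 0, 0, 0, 0, 8, 0, 0, 8, 0, 0, 4, 16, 0, 0, 8, 0, 0, 0, 4, 8, 8, 0, 0, 0, 0, 0, 8, 4, 8, 0, 0, 16, 0, 0, 0, 8, 8, 0, 0, 0, 0, 0, 0, 8, 4, 0, 12, 8, 0, 0, 8, 0, 8, 0, 0, 8, 0, 0, 0, 8, 0, 0, 8, 8, 0, 0, 0, 4, 8, 0, 0, 16, 0, 0, 4, 0, 16, 0, 0, 0, 0, 0, 8, 8, 0, 0, 0, 0, 0, 0, 4, 16, 8, 0, 8, 8, 0, 0, 0, 8, 0, 0, 0, 8, 0, 0, 8, 0, 4, 0, 8, 0, 0, 0, 0, 12, 16, 0, 0, 8, 0, 0, 0, 0, 8, 0, 8, 8, 0, 0, 0, 16, 0, 0, 0, 0, 0, 0, 0, 8, 8, 0, 4, 8, 0, 0, 12] : List ℕ).getD n 0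

lemma rt_check : ∀ m ∈ Finset.Icc 1 200, (∑ a ∈ Finset.range 15, ∑ b ∈ Finset.range 15,
    if a^2 + b^2 = m then wt a * wt b else 0) = rt m := by
  decide +kernel

lemma rA_rt {m : ℕ} (hm : m ∈ Finset.Icc 1 200) : rA m = (rt m : ℝ) := by
  have h1 := rt_check m hm
  rw [Finset.mem_Icc] at hm
  rw [rA_eq (K := 14) (by omega), h1]

/-- Dirichlet convolution table -/
def rr (m : ℕ) : ℕ := ∑ d ∈ Finset.Icc 1 m, if d ∣ m then rt d * rt (m / d) else 0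

/-- the squares up to 200 -/
def isq (m : ℕ) : Bool := (List.range 15).any (fun k => k * k == m)

/-- correction coefficients -/
def cc (m : ℕ) : ℕ := if isq m then rr m else rr m - rt m ^ 2

lemma cc_check : ∀ m ∈ Finset.Icc 1 200, isq m = false → rt m ^ 2 ≤ rr m := by
  decide +kernel

lemma isq_iff : ∀ m ∈ Finset.Icc 1 200, (isq m = true ↔ ∃ k ∈ Finset.range 15, m = k * k) := by
  decide +kernel

lemma corr_check : 4526669440 ≤ ∑ m ∈ Finset.Icc 1 200, cc m * lo m := by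
  decide +kernel

lemma F_check : ∑ a ∈ Finset.Icc 1 10, ∑ b ∈ Finset.Icc 1 10, (lo (a^2+b^2) + 1) ≤ 92631374 := by
  decide +kernel

lemma lo20_check : 217068199 ≤ ∑ j ∈ Finset.Icc 1 20, lo j := by
  decide +kernel


/-- primitive Pythagorean triples with hypotenuse at most 100 -/
def TR : Finset (ℕ × ℕ × ℕ) := {(3, 4, 5), (4, 3, 5), (5, 12, 13), (12, 5, 13), (8, 15, 17), (15, 8, 17), (7, 24, 25), (24, 7, 25), (20, 21, 29), (21, 20, 29), (12, 35, 37), (35, 12, 37), (9, 40, 41), (40, 9, 41), (28, 45, 53), (45, 28, 53), (11, 60, 61), (60, 11, 61), (16, 63, 65), (33, 56, 65), (56, 33, 65), (63, 16, 65), (48, 55, 73), (55, 48, 73), (13, 84, 85), (36, 77, 85), (77, 36, 85), (84, 13, 85), (39, 80, 89), (80, 39, 89), (65, 72, 97), (72, 65, 97)}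

lemma TR_check : ∀ t ∈ TR, 1 ≤ t.1 ∧ 1 ≤ t.2.1 ∧ t.1^2 + t.2.1^2 = t.2.2^2 ∧ Nat.gcd t.1 t.2.1 = 1 ∧
    1 ≤ t.2.2 ∧ t.2.2 ≤ 100 := by
  decide +kernel

lemma TR_sum : 32519998 ≤ ∑ t ∈ TR, lo t.2.2 := by
  decide +kernel

end Pool.Agent.H383.Gauss
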