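import Mathlib
import Pool.Agent.H383.Num

open Set Filter Topology

namespace Pool.Agent.H383.Gauss

/-- antiderivative of `t ↦ (a²+t²)^(-3/2)` -/
noncomputable def GG (a t : ℝ) : ℝ := t / (a^2 * √(a^2 + t^2))

lemma GG_deriv {a : ℝ} (ha : 0 < a) (t : ℝ) : HasDerivAt (GG a) (1 / ((a^2 + t^2) * √(a^2 + t^2))) t := by
  have hpos : 0 < a^2 + t^2 := by positivity
  have hs : 0 < √(a^2 + t^2) := Real.sqrt_pos.mpr hpos
  have h1 : HasDerivAt (fun t : ℝ => a^2 + t^2) (2 * t) t := by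
    have := (hasDerivAt_pow 2 t).const_add (a^2)
    simpa using this
  have h2 : HasDerivAt (fun t : ℝ => √(a^2 + t^2)) ((2 * t) / (2 * √(a^2 + t^2))) t := h1.sqrt hpos.ne'
  have h3 : HasDerivAt (fun t : ℝ => a^2 * √(a^2 + t^2)) (a^2 * ((2 * t) / (2 * √(a^2 + t^2)))) t := h2.const_mul _
  have h4 := (hasDerivAt_id t).div h3 (by positivity)
  have hss : √(a^2 + t^2) * √(a^2 + t^2) = a^2 + t^2 := Real.mul_self_sqrt hpos.le
  have e : (1 * (a^2 * √(a^2 + t^2)) - id t * (a^2 * (2 * t / (2 * √(a^2 + t^2))))) / (a^2 * √(a^2 + t^2))^2 =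
      1 / ((a^2 + t^2) * √(a^2 + t^2)) := by
    simp only [id]
    rw [div_eq_div_iff (by positivity) (by positivity)]
    set s := √(a^2 + t^2) with hsd
    have hs2 : s^2 = a^2 + t^2 := by rw [sq]; exact hss
    field_simp
    rw [← hs2] 
    have : t^2 = s^2 - a^2 := by linarith
    rw [this]
    ring
  rw [e] at h4
  exact h4

lemma f_le_GG {a b : ℝ} (ha : 0 < a) (hb : 1 ≤ b) :
    1 / ((a^2 + b^2) * √(a^2 + b^2)) ≤ GG a b - GG a (b - 1) := by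
  obtain ⟨c, hc, hcd⟩ := exists_hasDerivAt_eq_slope (GG a) (fun t => 1 / ((a^2 + t^2) * √(a^2 + t^2)))
    (by linarith : b - 1 < b) (fun t _ => (GG_deriv ha t).continuousAt.continuousWithinAt) (fun t _ => GG_deriv ha t)
  have h1 : b - (b - 1) = 1 := by ring
  rw [h1, div_one] at hcd
  rw [← hcd]
  have hc0 : 0 ≤ c := by linarith [hc.1]
  have hcb : c^2 ≤ b^2 := pow_le_pow_left₀ hc0 hc.2.le 2
  apply one_div_le_one_div_of_le (by positivity)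
  apply mul_le_mul (by linarith) (Real.sqrt_le_sqrt (by linarith)) (Real.sqrt_nonneg _) (by positivity)

lemma rpow_eq {x : ℝ} (hx : 0 < x) : x ^ (-(3/2):ℝ) = 1 / (x * √x) := by
  rw [Real.rpow_neg hx.le, one_div, show (3/2:ℝ) = 1 + 1/2 by norm_num, Real.rpow_add hx, Real.rpow_one,
    Real.sqrt_eq_rpow]

/-- the summand -/
noncomputable def ff (a b : ℕ) : ℝ := ((a^2 + b^2 : ℕ) : ℝ) ^ (-(3/2):ℝ)

lemma ff_eq {a b : ℕ} (ha : 1 ≤ a) : ff a b = 1 / (((a:ℝ)^2 + (b:ℝ)^2) * √((a:ℝ)^2 + (b:ℝ)^2)) := by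
  have ha' : (0:ℝ) < a := by exact_mod_cast ha
  unfold ff
  push_cast
  exact rpow_eq (by positivity)

lemma GG_le {a : ℝ} (ha : 0 < a) {t : ℝ} (ht : 0 ≤ t) : GG a t ≤ 1 / a^2 := by
  unfold GG
  rw [div_le_div_iff₀ (by positivity) (by positivity)]
  have : t ≤ √(a^2 + t^2) := by
    apply Real.le_sqrt_of_sq_le; nlinarith [sq_nonneg a]
  nlinarith [sq_nonneg a, mul_le_mul_of_nonneg_left this (sq_nonneg a)]

lemma ff_tail {a : ℕ} (ha : 1 ≤ a) (K Y : ℕ) : ∑ b ∈ Finset.Ioc K Y, ff a b ≤ 1 / (a:ℝ)^2 - GG a K := by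
  have ha' : (0:ℝ) < a := by exact_mod_cast ha
  rcases le_or_gt K Y with hKY | hKY
  · have h : ∑ b ∈ Finset.Ioc K Y, ff a b ≤ GG a Y - GG a K := by
      induction Y, hKY using Nat.le_induction with
      | base => simp
      | succ Y hY ih =>
        rw [← Finset.insert_Ioc_right_eq_Ioc_add_one (by omega : K ≤ Y), Finset.sum_insert (by simp)]
        have h1 := f_le_GG (a := (a:ℝ)) (b := ((Y+1:ℕ):ℝ)) ha' (by push_cast; linarith [Nat.cast_nonneg (α := ℝ) Y])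
        rw [← ff_eq ha] at h1
        have h2 : ((Y+1:ℕ):ℝ) - 1 = Y := by push_cast; ring
        rw [h2] at h1
        linarith
    have := GG_le ha' (Nat.cast_nonneg (α := ℝ) Y)
    linarith
  · rw [Finset.Ioc_eq_empty (by omega), Finset.sum_empty]
    have := GG_le ha' (Nat.cast_nonneg (α := ℝ) K)
    linarith

lemma sum_inv_sq_tail (K Y : ℕ) (hK : 1 ≤ K) : ∑ a ∈ Finset.Ioc K Y, 1 / (a:ℝ)^2 ≤ 1 / ((K:ℝ) + 1/2) := by
  have hK' : (1:ℝ) ≤ K := by exact_mod_cast hK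
  rcases le_or_gt K Y with hKY | hKY
  · have h : ∑ a ∈ Finset.Ioc K Y, 1 / (a:ℝ)^2 ≤ 1 / ((K:ℝ) + 1/2) - 1 / ((Y:ℝ) + 1/2) := by
      induction Y, hKY using Nat.le_induction with
      | base => simp
      | succ Y hY ih =>
        rw [← Finset.insert_Ioc_right_eq_Ioc_add_one (by omega : K ≤ Y), Finset.sum_insert (by simp)]
        have hY' : (1:ℝ) ≤ Y := by exact_mod_cast (by omega : 1 ≤ Y)
        have h1 : 1 / ((Y+1:ℕ):ℝ)^2 ≤ 1 / ((Y:ℝ) + 1/2) - 1 / (((Y+1:ℕ):ℝ) + 1/2) := by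
          push_cast
          rw [div_sub_div _ _ (by positivity) (by positivity), div_le_div_iff₀ (by positivity) (by positivity)]
          nlinarith
        linarith
    have : 0 ≤ 1 / ((Y:ℝ) + 1/2) := by positivity
    linarith
  · rw [Finset.Ioc_eq_empty (by omega), Finset.sum_empty]
    positivity

lemma sum_inv_cube_tail (K Y : ℕ) (hK : 1 ≤ K) : ∑ a ∈ Finset.Ioc K Y, 1 / (a:ℝ)^3 ≤ 1 / (2 * (K:ℝ) * ((K:ℝ)+1)) := by
  have hK' : (1:ℝ) ≤ K := by exact_mod_cast hK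
  rcases le_or_gt K Y with hKY | hKY
  · have h : ∑ a ∈ Finset.Ioc K Y, 1 / (a:ℝ)^3 ≤ 1 / (2 * (K:ℝ) * (K+1)) - 1 / (2 * (Y:ℝ) * (Y+1)) := by
      induction Y, hKY using Nat.le_induction with
      | base => simp
      | succ Y hY ih =>
        rw [← Finset.insert_Ioc_right_eq_Ioc_add_one (by omega : K ≤ Y), Finset.sum_insert (by simp)]
        have hY' : (1:ℝ) ≤ Y := by exact_mod_cast (by omega : 1 ≤ Y)
        have h1 : 1 / ((Y+1:ℕ):ℝ)^3 ≤ 1 / (2 * (Y:ℝ) * (Y+1)) - 1 / (2 * ((Y+1:ℕ):ℝ) * (((Y+1:ℕ):ℝ)+1)) := by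
          push_cast
          rw [div_sub_div _ _ (by positivity) (by positivity), div_le_div_iff₀ (by positivity) (by positivity)]
          have : 0 ≤ (Y:ℝ) := by linarith
          ring_nf
          nlinarith [pow_pos (by linarith : (0:ℝ) < Y) 2, pow_pos (by linarith : (0:ℝ) < Y) 3, pow_pos (by linarith : (0:ℝ) < Y) 4]
        linarith
    have : 0 ≤ 1 / (2 * (Y:ℝ) * (Y+1)) := by positivity
    linarith
  · rw [Finset.Ioc_eq_empty (by omega), Finset.sum_empty]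
    positivity

lemma range_split (Y : ℕ) (h : ℕ → ℝ) : ∑ a ∈ Finset.range (Y+1), h a = h 0 + ∑ a ∈ Finset.Icc 1 Y, h a := by
  have e : Finset.range (Y+1) = insert 0 (Finset.Icc 1 Y) := by
    ext m; simp only [Finset.mem_range, Finset.mem_insert, Finset.mem_Icc]; omega
  rw [e, Finset.sum_insert (by simp)]

lemma Icc_le (K Y : ℕ) (h : ℕ → ℝ) (h0 : ∀ a, 0 ≤ h a) : ∑ a ∈ Finset.Icc 1 Y, h a ≤
    ∑ a ∈ Finset.Icc 1 K, h a + ∑ a ∈ Finset.Ioc K Y, h a := by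
  classical
  rw [← Finset.sum_union]
  · apply Finset.sum_le_sum_of_subset_of_nonneg
    · intro x
      simp only [Finset.mem_Icc, Finset.mem_union, Finset.mem_Ioc]; omega
    · intro _ _ _; exact h0 _
  · rw [Finset.disjoint_left]
    intro x
    simp only [Finset.mem_Icc, Finset.mem_Ioc]; omega

lemma ff_nonneg (a b : ℕ) : 0 ≤ ff a b := by unfold ff; positivity

lemma inner_bound {a : ℕ} (ha : 1 ≤ a) (Y : ℕ) : ∑ b ∈ Finset.Icc 1 Y, ff a b ≤ 1 / (a:ℝ)^2 := by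
  have h := ff_tail ha 0 Y
  have e : Finset.Ioc 0 Y = Finset.Icc 1 Y := by
    ext x; simp only [Finset.mem_Icc, Finset.mem_Ioc]; omega
  rw [e] at h
  have : GG a ((0:ℕ):ℝ) = 0 := by unfold GG; simp
  rw [this] at h
  linarith

lemma inner_bound2 {a : ℕ} (ha : 1 ≤ a) (Y : ℕ) : ∑ b ∈ Finset.Icc 1 Y, ff a b ≤
    ∑ b ∈ Finset.Icc 1 10, ff a b + (1 / (a:ℝ)^2 - GG a 10) := by
  have h := ff_tail ha 10 Y
  have h2 := Icc_le 10 Y (ff a) (ff_nonneg a)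
  push_cast at h
  linarith

lemma ff_sum_le (Y : ℕ) : ∑ a ∈ Finset.Icc 1 Y, ∑ b ∈ Finset.Icc 1 Y, ff a b ≤
    ∑ a ∈ Finset.Icc (1:ℕ) 10, ∑ b ∈ Finset.Icc 1 10, ff a b + ∑ a ∈ Finset.Icc (1:ℕ) 10, (1 / (a:ℝ)^2 - GG (a:ℝ) 10) + 2/21 := by
  have h1 := Icc_le 10 Y (fun a => ∑ b ∈ Finset.Icc 1 Y, ff a b) (fun a => Finset.sum_nonneg (fun b _ => ff_nonneg a b))
  have h2 : ∑ a ∈ Finset.Icc 1 10, ∑ b ∈ Finset.Icc 1 Y, ff a b ≤
      ∑ a ∈ Finset.Icc 1 10, (∑ b ∈ Finset.Icc 1 10, ff a b + (1 / (a:ℝ)^2 - GG a 10)) := by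
    apply Finset.sum_le_sum
    intro a ha
    rw [Finset.mem_Icc] at ha
    exact inner_bound2 ha.1 Y
  rw [Finset.sum_add_distrib] at h2
  have h3 : ∑ a ∈ Finset.Ioc 10 Y, ∑ b ∈ Finset.Icc 1 Y, ff a b ≤ ∑ a ∈ Finset.Ioc 10 Y, 1 / (a:ℝ)^2 := by
    apply Finset.sum_le_sum
    intro a ha
    rw [Finset.mem_Ioc] at ha
    exact inner_bound (by omega) Y
  have h4 := sum_inv_sq_tail 10 Y (by norm_num)
  have h5 : 1 / (((10:ℕ):ℝ) + 1/2) = 2/21 := by norm_num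
  rw [h5] at h4
  linarith

lemma ff_zero_left {b : ℕ} (hb : 1 ≤ b) : ff 0 b = 1 / (b:ℝ)^3 := by
  have hb' : (0:ℝ) < b := by exact_mod_cast hb
  unfold ff
  push_cast
  rw [rpow_eq (by positivity)]
  have : √(0 + (b:ℝ)^2) = b := by
    rw [zero_add]; exact Real.sqrt_sq hb'.le
  rw [this]; ring_nf

lemma ff_zero_right {a : ℕ} (ha : 1 ≤ a) : ff a 0 = 1 / (a:ℝ)^3 := by
  have : ff a 0 = ff 0 a := by unfold ff; rw [add_comm]
  rw [this, ff_zero_left ha]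

lemma ff_zero_zero : ff 0 0 = 0 := by
  unfold ff
  simp only [ne_eq, OfNat.ofNat_ne_zero, not_false_eq_true, zero_pow, add_zero, Nat.cast_zero]
  exact Real.zero_rpow (by norm_num)

lemma wt_pos {a : ℕ} (ha : 1 ≤ a) : wt a = 2 := by unfold wt; rw [if_neg (by omega)]

lemma wt_zero : wt 0 = 1 := rfl

lemma all_sum (Y : ℕ) : ∑ a ∈ Finset.range (Y+1), ∑ b ∈ Finset.range (Y+1), (wt a : ℝ) * wt b * ff a b =
    4 * ∑ a ∈ Finset.Icc 1 Y, 1 / (a:ℝ)^3 + 4 * ∑ a ∈ Finset.Icc 1 Y, ∑ b ∈ Finset.Icc 1 Y, ff a b := by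
  rw [range_split, range_split]
  have e1 : ∑ b ∈ Finset.Icc 1 Y, (wt 0 : ℝ) * wt b * ff 0 b = 2 * ∑ a ∈ Finset.Icc 1 Y, 1 / (a:ℝ)^3 := by
    rw [Finset.mul_sum]
    apply Finset.sum_congr rfl
    intro b hb
    rw [Finset.mem_Icc] at hb
    rw [wt_pos hb.1, wt_zero, ff_zero_left hb.1]
    push_cast; ring
  have e2 : ∑ a ∈ Finset.Icc 1 Y, ∑ b ∈ Finset.range (Y+1), (wt a : ℝ) * wt b * ff a b =
      2 * ∑ a ∈ Finset.Icc 1 Y, 1 / (a:ℝ)^3 + 4 * ∑ a ∈ Finset.Icc 1 Y, ∑ b ∈ Finset.Icc 1 Y, ff a b := by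
    rw [Finset.mul_sum, Finset.mul_sum, ← Finset.sum_add_distrib]
    apply Finset.sum_congr rfl
    intro a ha
    rw [Finset.mem_Icc] at ha
    rw [range_split, wt_pos ha.1, wt_zero, ff_zero_right ha.1, Finset.mul_sum]
    congr 1
    · push_cast; ring
    · apply Finset.sum_congr rfl
      intro b hb
      rw [Finset.mem_Icc] at hb
      rw [wt_pos hb.1]
      push_cast; ring
  rw [e1, e2, ff_zero_zero]
  ring

lemma B_le_all (Y : ℕ) : ∑ m ∈ Finset.Icc 1 (Y^2), rA m * (m:ℝ) ^ (-(3/2):ℝ) ≤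
    ∑ a ∈ Finset.range (Y+1), ∑ b ∈ Finset.range (Y+1), (wt a : ℝ) * wt b * ff a b := by
  have e1 : ∀ m ∈ Finset.Icc 1 (Y^2), rA m * (m:ℝ) ^ (-(3/2):ℝ) = ∑ a ∈ Finset.range (Y+1), ∑ b ∈ Finset.range (Y+1),
      (if a^2 + b^2 = m then (wt a : ℝ) * wt b * ff a b else 0) := by
    intro m hm
    rw [Finset.mem_Icc] at hm
    rw [rA_eq (K := Y) (lt_of_le_of_lt hm.2 (Nat.pow_lt_pow_left (Nat.lt_succ_self Y) (by norm_num)))]
    push_cast
    rw [Finset.sum_mul]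
    apply Finset.sum_congr rfl
    intro a _
    rw [Finset.sum_mul]
    apply Finset.sum_congr rfl
    intro b _
    split_ifs with h
    · unfold ff; rw [h]
    · ring
  rw [Finset.sum_congr rfl e1, Finset.sum_comm]
  apply Finset.sum_le_sum
  intro a _
  rw [Finset.sum_comm]
  apply Finset.sum_le_sum
  intro b _
  rw [Finset.sum_ite_eq]
  split_ifs
  · exact le_rfl
  · have := ff_nonneg a b
    positivity

/-- `⌊10^8/√(a²+100)⌋` -/
def sa (a : ℕ) : ℕ := ([0, 9950371, 9805806, 9578262, 9284766, 8944271, 8574929, 8192319, 7808688, 7432941, 7071067] : List ℕ).getD a 0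

lemma sa_check : ∀ a ∈ Finset.Icc 1 10, (sa a)^2 * (a^2 + 100) ≤ 10^16 := by decide +kernel

lemma GG_lower {a : ℕ} (ha : a ∈ Finset.Icc 1 10) : 10 * (sa a : ℝ) / (10^8 * (a:ℝ)^2) ≤ GG a 10 := by
  have h := sa_check a ha
  rw [Finset.mem_Icc] at ha
  have ha' : (0:ℝ) < a := by exact_mod_cast ha.1
  have h1 : ((sa a : ℝ))^2 * ((a:ℝ)^2 + 100) ≤ 10^16 := by exact_mod_cast h
  have hs : 0 < √((a:ℝ)^2 + 10^2) := Real.sqrt_pos.mpr (by positivity)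
  have h2 : (sa a : ℝ) * √((a:ℝ)^2 + 10^2) ≤ 10^8 := by
    apply le_of_sq_le_sq _ (by positivity)
    rw [mul_pow, Real.sq_sqrt (by positivity)]
    calc _ = (sa a : ℝ)^2 * ((a:ℝ)^2 + 100) := by norm_num
      _ ≤ _ := h1
      _ = _ := by norm_num
  unfold GG
  rw [div_le_div_iff₀ (by positivity) (by positivity)]
  have : 0 ≤ (a:ℝ)^2 := by positivity
  nlinarith [mul_le_mul_of_nonneg_left h2 this]

theorem B_le (Y : ℕ) : ∑ m ∈ Finset.Icc 1 (Y^2), rA m * (m:ℝ) ^ (-(3/2):ℝ) ≤ 9057/1000 := by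
  refine (B_le_all Y).trans ?_
  rw [all_sum]
  have h1 := Icc_le 10 Y (fun a => 1 / (a:ℝ)^3) (fun a => by positivity)
  have h2 := sum_inv_cube_tail 10 Y (by norm_num)
  have h3 := ff_sum_le Y
  have h4 : ∑ a ∈ Finset.Icc 1 10, ∑ b ∈ Finset.Icc 1 10, ff a b ≤ 92631374 / 10^8 := by
    have h5 : ∑ a ∈ Finset.Icc 1 10, ∑ b ∈ Finset.Icc 1 10, ff a b ≤
        ∑ a ∈ Finset.Icc 1 10, ∑ b ∈ Finset.Icc 1 10, ((lo (a^2+b^2) : ℝ) + 1) / 10^8 := by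
      apply Finset.sum_le_sum
      intro a ha
      apply Finset.sum_le_sum
      intro b hb
      rw [Finset.mem_Icc] at ha hb
      apply le_hi
      rw [Finset.mem_Icc]
      constructor
      · nlinarith
      · nlinarith
    refine h5.trans ?_
    have h6 : ∑ a ∈ Finset.Icc 1 10, ∑ b ∈ Finset.Icc 1 10, ((lo (a^2+b^2) : ℝ) + 1) / 10^8 =
        ((∑ a ∈ Finset.Icc 1 10, ∑ b ∈ Finset.Icc 1 10, (lo (a^2+b^2) + 1) : ℕ) : ℝ) / 10^8 := by
      push_cast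
      rw [Finset.sum_div]
      apply Finset.sum_congr rfl
      intro a _
      rw [Finset.sum_div]
    rw [h6]
    apply div_le_div_of_nonneg_right _ (by positivity)
    exact_mod_cast F_check
  have h7 : ∑ a ∈ Finset.Icc (1:ℕ) 10, (1 / (a:ℝ)^2 - GG (a:ℝ) 10) ≤
      ∑ a ∈ Finset.Icc (1:ℕ) 10, (1 / (a:ℝ)^2 - 10 * (sa a : ℝ) / (10^8 * (a:ℝ)^2)) := by
    apply Finset.sum_le_sum
    intro a ha
    have := GG_lower ha
    linarith
  have h8 : ∑ a ∈ Finset.Icc (1:ℕ) 10, (1 / (a:ℝ)^2 - 10 * (sa a : ℝ) / (10^8 * (a:ℝ)^2)) ≤ 0.0404 := by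
    have e : Finset.Icc (1:ℕ) 10 = {1,2,3,4,5,6,7,8,9,10} := by decide
    rw [e]
    simp [sa]
    norm_num
  have h9 : ∑ a ∈ Finset.Icc (1:ℕ) 10, 1 / (a:ℝ)^3 ≤ 1.19754 := by
    have e : Finset.Icc (1:ℕ) 10 = {1,2,3,4,5,6,7,8,9,10} := by decide
    rw [e]
    norm_num
  have h10 : 1 / (2 * ((10:ℕ):ℝ) * (((10:ℕ):ℝ)+1)) = 1/220 := by norm_num
  rw [h10] at h2
  linarith

end Pool.Agent.H383.Gauss
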