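import Mathlib

open Finset

namespace Pool.Agent.H383.Gauss

/-- quadratic extension of a subfield of `ℝ` -/
def quad (K : Subfield ℝ) (r : ℝ) (hr : r^2 ∈ K) : Subfield ℝ where
  carrier := {z | ∃ x ∈ K, ∃ y ∈ K, z = x + y * r}
  mul_mem' := by
    rintro a b ⟨x, hx, y, hy, rfl⟩ ⟨x', hx', y', hy', rfl⟩
    refine ⟨x * x' + y * y' * r^2, K.add_mem (K.mul_mem hx hx') (K.mul_mem (K.mul_mem hy hy') hr),
      x * y' + y * x', K.add_mem (K.mul_mem hx hy') (K.mul_mem hy hx'), by ring⟩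
  one_mem' := ⟨1, K.one_mem, 0, K.zero_mem, by ring⟩
  add_mem' := by
    rintro a b ⟨x, hx, y, hy, rfl⟩ ⟨x', hx', y', hy', rfl⟩
    exact ⟨x + x', K.add_mem hx hx', y + y', K.add_mem hy hy', by ring⟩
  zero_mem' := ⟨0, K.zero_mem, 0, K.zero_mem, by ring⟩
  neg_mem' := by
    rintro a ⟨x, hx, y, hy, rfl⟩
    exact ⟨-x, K.neg_mem hx, -y, K.neg_mem hy, by ring⟩
  inv_mem' := by
    rintro a ⟨x, hx, y, hy, rfl⟩
    by_cases h0 : x + y * r = 0
    · rw [h0, inv_zero]; exact ⟨0, K.zero_mem, 0, K.zero_mem, by ring⟩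
    by_cases h : x - y * r = 0
    · have h1 : x + y * r = 2 * x := by linarith
      have h2 : (2 * x)⁻¹ ∈ K := K.inv_mem (K.mul_mem (by exact_mod_cast natCast_mem K 2) hx)
      exact ⟨(2 * x)⁻¹, h2, 0, K.zero_mem, by rw [h1]; ring⟩
    · have hd : x^2 - y^2 * r^2 ≠ 0 := by
        have : x^2 - y^2 * r^2 = (x + y * r) * (x - y * r) := by ring
        rw [this]; exact mul_ne_zero h0 h
      have hdK : (x^2 - y^2 * r^2)⁻¹ ∈ K :=
        K.inv_mem (K.sub_mem (K.pow_mem hx 2) (K.mul_mem (K.pow_mem hy 2) hr))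
      refine ⟨x * (x^2 - y^2 * r^2)⁻¹, K.mul_mem hx hdK, -y * (x^2 - y^2 * r^2)⁻¹,
        K.mul_mem (K.neg_mem hy) hdK, ?_⟩
      have e : x * (x^2 - y^2 * r^2)⁻¹ + -y * (x^2 - y^2 * r^2)⁻¹ * r = (x - y * r) * (x^2 - y^2 * r^2)⁻¹ := by ring
      rw [e]
      have : x^2 - y^2 * r^2 = (x + y * r) * (x - y * r) := by ring
      rw [this, mul_inv, mul_comm (x + y * r)⁻¹, ← mul_assoc, mul_inv_cancel₀ h, one_mul]

lemma le_quad (K : Subfield ℝ) (r : ℝ) (hr : r^2 ∈ K) : K ≤ quad K r hr := by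
  intro x hx
  exact ⟨x, hx, 0, K.zero_mem, by ring⟩

lemma mem_quad (K : Subfield ℝ) (r : ℝ) (hr : r^2 ∈ K) : r ∈ quad K r hr :=
  ⟨0, K.zero_mem, 1, K.one_mem, by ring⟩

lemma sq_sqrt_nat_mem (K : Subfield ℝ) (n : ℕ) : (√(n:ℝ))^2 ∈ K := by
  rw [Real.sq_sqrt (Nat.cast_nonneg n)]; exact natCast_mem K n

/-- the multiquadratic fields -/
noncomputable def Kl : List ℕ → Subfield ℝ
  | [] => ⊥
  | p :: l => quad (Kl l) (√(p:ℝ)) (sq_sqrt_nat_mem _ _)

lemma sqrt_mem_Kl {l : List ℕ} {p : ℕ} (hp : p ∈ l) : √(p:ℝ) ∈ Kl l := by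
  induction l with
  | nil => simp at hp
  | cons q l ih =>
    rw [List.mem_cons] at hp
    rcases hp with rfl | hp
    · exact mem_quad _ _ _
    · exact le_quad _ _ _ (ih hp)

theorem not_mem_Kl {l : List ℕ} (hl : l.Nodup) (hprime : ∀ p ∈ l, p.Prime) :
    ∀ b : ℕ, Squarefree b → (∃ r : ℕ, r.Prime ∧ r ∣ b ∧ r ∉ l) → √(b:ℝ) ∉ Kl l := by
  induction l with
  | nil =>
    intro b hb hr hmem
    obtain ⟨r, hr1, hr2, -⟩ := hr
    have h1 : ∃ q : ℚ, (q : ℝ) = √(b:ℝ) := by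
      have h2 : √(b:ℝ) ∈ (⊥ : Subfield ℝ) := hmem
      rw [Subfield.bot_eq_of_charZero] at h2
      obtain ⟨q, hq⟩ := h2
      exact ⟨q, by simpa using hq⟩
    have hsq : IsSquare b := by
      by_contra hc
      exact (irrational_sqrt_natCast_iff.mpr hc) h1
    obtain ⟨k, hk⟩ := hsq
    have hu : IsUnit k := hb k (by rw [hk])
    rw [Nat.isUnit_iff] at hu
    rw [hu] at hk
    rw [hk] at hr2
    exact hr1.one_lt.ne' (Nat.dvd_one.mp (by simpa using hr2))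
  | cons p l ih =>
    intro b hb hr hmem
    rw [List.nodup_cons] at hl
    obtain ⟨r, hr1, hr2, hr3⟩ := hr
    rw [List.mem_cons, not_or] at hr3
    have ih' := ih hl.2 (fun q hq => hprime q (List.mem_cons_of_mem _ hq))
    have hp : p.Prime := hprime p (List.mem_cons_self)
    have hsp : √(p:ℝ) ∉ Kl l := ih' p hp.prime.squarefree ⟨p, hp, dvd_rfl, hl.1⟩
    have hp0 : (0:ℝ) < p := by exact_mod_cast hp.pos
    have hspos : 0 < √(p:ℝ) := Real.sqrt_pos.mpr hp0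
    have hspp : √(p:ℝ)^2 = p := Real.sq_sqrt hp0.le
    obtain ⟨x, hx, y, hy, hxy⟩ := hmem
    have hb2 : √(b:ℝ)^2 = b := Real.sq_sqrt (Nat.cast_nonneg b)
    have hexp : (b:ℝ) = x^2 + y^2 * p + 2 * x * y * √(p:ℝ) := by
      rw [← hb2, hxy]; nlinarith
    by_cases hxy0 : x * y = 0
    · rcases mul_eq_zero.mp hxy0 with h | h
      · -- x = 0
        rw [h, zero_add] at hxy
        by_cases hpb : p ∣ b
        · obtain ⟨b', rfl⟩ := hpb
          have hb' : Squarefree b' := hb.of_mul_right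
          apply ih' b' hb' ⟨r, hr1, ?_, hr3.2⟩
          · push_cast at hxy
            rw [Real.sqrt_mul hp0.le, mul_comm] at hxy
            have : √(b':ℝ) = y := mul_right_cancel₀ hspos.ne' hxy
            rw [this]; exact hy
          · rcases (Nat.Prime.dvd_mul hr1).mp hr2 with h1 | h1
            · exact absurd ((Nat.prime_dvd_prime_iff_eq hr1 hp).mp h1) hr3.1
            · exact h1
        · have hcop : Nat.Coprime b p := ((Nat.Prime.coprime_iff_not_dvd hp).mpr hpb).symm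
          apply ih' (b * p) ((Nat.squarefree_mul hcop).mpr ⟨hb, hp.prime.squarefree⟩) ⟨r, hr1, Dvd.dvd.mul_right hr2 p, hr3.2⟩
          push_cast
          rw [Real.sqrt_mul (Nat.cast_nonneg b), hxy]
          have : y * √(p:ℝ) * √(p:ℝ) = y * p := by rw [mul_assoc, ← sq, hspp]
          rw [this]
          exact (Kl l).mul_mem hy (natCast_mem (Kl l) p)
      · -- y = 0
        rw [h, zero_mul, add_zero] at hxy
        apply ih' b hb ⟨r, hr1, hr2, hr3.2⟩
        rw [hxy]; exact hx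
    · apply hsp
      have h2 : √(p:ℝ) = ((b:ℝ) - x^2 - y^2 * p) * (2 * (x * y))⁻¹ := by
        have : 2 * (x * y) ≠ 0 := mul_ne_zero two_ne_zero hxy0
        rw [eq_mul_inv_iff_mul_eq₀ this]
        linarith
      rw [h2]
      apply (Kl l).mul_mem
      · apply (Kl l).sub_mem
        · apply (Kl l).sub_mem (natCast_mem (Kl l) b) ((Kl l).pow_mem hx 2)
        · exact (Kl l).mul_mem ((Kl l).pow_mem hy 2) (natCast_mem (Kl l) p)
      · apply (Kl l).inv_mem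
        exact (Kl l).mul_mem (by exact_mod_cast natCast_mem (Kl l) 2) ((Kl l).mul_mem hx hy)

/-- field generated by square roots of a finite set -/
noncomputable def KS (S : Finset ℕ) : Subfield ℝ := Subfield.closure ((fun p : ℕ => √(p:ℝ)) '' (S : Set ℕ))

lemma KS_mono {S T : Finset ℕ} (h : S ⊆ T) : KS S ≤ KS T := by
  apply Subfield.closure_mono
  apply Set.image_mono
  exact_mod_cast h

lemma sqrt_mem_KS {S : Finset ℕ} {p : ℕ} (h : p ∈ S) : √(p:ℝ) ∈ KS S :=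
  Subfield.subset_closure ⟨p, by exact_mod_cast h, rfl⟩

lemma KS_le_Kl (S : Finset ℕ) : KS S ≤ Kl S.toList := by
  unfold KS
  rw [Subfield.closure_le]
  rintro _ ⟨p, hp, rfl⟩
  exact sqrt_mem_Kl (by simpa using hp)

theorem not_mem_KS {S : Finset ℕ} (hprime : ∀ p ∈ S, p.Prime) {b : ℕ} (hb : Squarefree b)
    (hr : ∃ r : ℕ, r.Prime ∧ r ∣ b ∧ r ∉ S) : √(b:ℝ) ∉ KS S := by
  intro h
  obtain ⟨r, h1, h2, h3⟩ := hr
  exact not_mem_Kl (l := S.toList) S.nodup_toList (fun p hp => hprime p (by simpa using hp)) b hb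
    ⟨r, h1, h2, by simpa using h3⟩ (KS_le_Kl S h)

lemma sqrt_sf_mem {S : Finset ℕ} {s : ℕ} (hs : Squarefree s) (h : ∀ p : ℕ, p.Prime → p ∣ s → p ∈ S) :
    √(s:ℝ) ∈ KS S := by
  have e : (s:ℝ) = ((∏ p ∈ s.primeFactors, p : ℕ) : ℝ) := by
    rw [Nat.prod_primeFactors_of_squarefree hs]
  rw [e]
  push_cast
  rw [Real.sqrt_eq_rpow, ← Real.finsetProd_rpow _ _ (fun i _ => Nat.cast_nonneg i)]
  apply Subfield.prod_mem
  intro p hp
  rw [← Real.sqrt_eq_rpow]
  rw [Nat.mem_primeFactors] at hp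
  exact sqrt_mem_KS (h p hp.1 hp.2.1)

end Pool.Agent.H383.Gauss
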