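import Mathlib
import Pool.Agent.H383.SqrtIndep

open Finset

namespace Pool.Agent.H383.Gauss

lemma prod_sqrt_mem {P A : Finset ℕ} (h : A ⊆ P) : ∏ p ∈ A, √(p:ℝ) ∈ KS P := by
  apply Subfield.prod_mem
  intro p hp
  exact sqrt_mem_KS (h hp)

theorem powerset_indep (P : Finset ℕ) (hP : ∀ p ∈ P, p.Prime) : ∀ c : Finset ℕ → ℚ,
    ∑ A ∈ P.powerset, (c A : ℝ) * ∏ p ∈ A, √(p:ℝ) = 0 → ∀ A ∈ P.powerset, c A = 0 := by
  classical
  induction P using Finset.induction_on with
  | empty =>
    intro c h A hA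
    simp only [Finset.powerset_empty, Finset.mem_singleton] at hA
    subst hA
    simpa using h
  | insert q P hq ih =>
    intro c h A hA
    have ih' := ih (fun p hp => hP p (Finset.mem_insert_of_mem hp))
    have hqp := hP q (Finset.mem_insert_self q P)
    rw [Finset.sum_powerset_insert hq] at h
    have h2 : ∑ t ∈ P.powerset, (c (insert q t) : ℝ) * ∏ p ∈ insert q t, √(p:ℝ) =
        √(q:ℝ) * ∑ t ∈ P.powerset, (c (insert q t) : ℝ) * ∏ p ∈ t, √(p:ℝ) := by
      rw [Finset.mul_sum]
      apply Finset.sum_congr rfl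
      intro t ht
      rw [Finset.prod_insert (fun hh => hq (Finset.mem_powerset.mp ht hh))]
      ring
    rw [h2] at h
    set X := ∑ t ∈ P.powerset, (c t : ℝ) * ∏ p ∈ t, √(p:ℝ) with hX
    set Y := ∑ t ∈ P.powerset, (c (insert q t) : ℝ) * ∏ p ∈ t, √(p:ℝ) with hY
    have hXm : X ∈ KS P := by
      apply Subfield.sum_mem
      intro t ht
      exact (KS P).mul_mem (SubfieldClass.ratCast_mem (KS P) (c t)) (prod_sqrt_mem (Finset.mem_powerset.mp ht))
    have hYm : Y ∈ KS P := by
      apply Subfield.sum_mem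
      intro t ht
      exact (KS P).mul_mem (SubfieldClass.ratCast_mem (KS P) _) (prod_sqrt_mem (Finset.mem_powerset.mp ht))
    have hY0 : Y = 0 := by
      by_contra hne
      have hnot := not_mem_KS (S := P) (fun p hp => hP p (Finset.mem_insert_of_mem hp)) hqp.prime.squarefree
        ⟨q, hqp, dvd_rfl, hq⟩
      apply hnot
      have : √(q:ℝ) = -X * Y⁻¹ := by
        rw [eq_mul_inv_iff_mul_eq₀ hne]; linarith
      rw [this]
      exact (KS P).mul_mem ((KS P).neg_mem hXm) ((KS P).inv_mem hYm)
    have hX0 : X = 0 := by rw [hY0, mul_zero, add_zero] at h; exact h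
    have k1 := ih' c hX0
    have k2 := ih' (fun t => c (insert q t)) hY0
    rw [Finset.mem_powerset] at hA
    by_cases hqA : q ∈ A
    · have := k2 (A.erase q) (by
        rw [Finset.mem_powerset]
        intro x hx
        rw [Finset.mem_erase] at hx
        exact Finset.mem_of_mem_insert_of_ne (hA hx.2) hx.1)
      simpa [Finset.insert_erase hqA] using this
    · exact k1 A (by
        rw [Finset.mem_powerset]
        intro x hx
        exact Finset.mem_of_mem_insert_of_ne (hA hx) (fun hh => hqA (hh ▸ hx)))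

lemma sqrt_sf_eq {s : ℕ} (hs : Squarefree s) : √(s:ℝ) = ∏ p ∈ s.primeFactors, √(p:ℝ) := by
  have e : (s:ℝ) = ((∏ p ∈ s.primeFactors, p : ℕ) : ℝ) := by
    rw [Nat.prod_primeFactors_of_squarefree hs]
  conv_lhs => rw [e]
  push_cast
  rw [Real.sqrt_eq_rpow, ← Real.finsetProd_rpow _ _ (fun i _ => Nat.cast_nonneg i)]
  apply Finset.prod_congr rfl
  intro p _
  rw [← Real.sqrt_eq_rpow]

/-- the square roots of squarefree numbers are linearly independent over the rationals -/
theorem sf_indep : LinearIndependent ℚ (fun s : {s : ℕ // Squarefree s} => √((s:ℕ):ℝ)) := by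
  classical
  rw [linearIndependent_iff']
  intro T c h s0 hs0
  set P : Finset ℕ := T.biUnion (fun s => (s:ℕ).primeFactors) with hPd
  have hPp : ∀ p ∈ P, p.Prime := by
    intro p hp
    rw [hPd, Finset.mem_biUnion] at hp
    obtain ⟨s, -, hs⟩ := hp
    exact (Nat.mem_primeFactors.mp hs).1
  set φ : {s : ℕ // Squarefree s} → Finset ℕ := fun s => (s:ℕ).primeFactors with hφ
  have hφi : Function.Injective φ := by
    intro s t hst
    apply Subtype.ext
    have h1 := Nat.prod_primeFactors_of_squarefree s.2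
    have h2 := Nat.prod_primeFactors_of_squarefree t.2
    rw [← h1, ← h2]
    simp only [hφ] at hst
    rw [hst]
  set d : Finset ℕ → ℚ := fun A => ∑ s ∈ T, if φ s = A then c s else 0 with hd
  have hkey : ∑ A ∈ P.powerset, (d A : ℝ) * ∏ p ∈ A, √(p:ℝ) = 0 := by
    rw [← h]
    have e1 : ∀ A ∈ P.powerset, (d A : ℝ) * ∏ p ∈ A, √(p:ℝ) =
        ∑ s ∈ T, if φ s = A then (c s : ℝ) * ∏ p ∈ A, √(p:ℝ) else 0 := by
      intro A _
      simp only [hd]
      push_cast
      rw [Finset.sum_mul]
      apply Finset.sum_congr rfl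
      intro s _
      split_ifs <;> simp
    rw [Finset.sum_congr rfl e1, Finset.sum_comm]
    apply Finset.sum_congr rfl
    intro s hs
    rw [Finset.sum_ite_eq]
    have hm : φ s ∈ P.powerset := by
      rw [Finset.mem_powerset]
      intro p hp
      rw [hPd, Finset.mem_biUnion]
      exact ⟨s, hs, hp⟩
    rw [if_pos hm]
    simp only [hφ]
    rw [← sqrt_sf_eq s.2, Rat.smul_def]
  have h3 := powerset_indep P hPp d hkey (φ s0) (by
    rw [Finset.mem_powerset]
    intro p hp
    rw [hPd, Finset.mem_biUnion]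
    exact ⟨s0, hs0, hp⟩)
  simp only [hd] at h3
  rw [Finset.sum_eq_single s0] at h3
  · simpa using h3
  · intro t _ ht
    rw [if_neg (fun hh => ht (hφi hh))]
  · intro hh; exact absurd hs0 hh

end Pool.Agent.H383.Gauss
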