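import Mathlib
import Pool.Agent.H383.SqrtIndep
import Pool.Agent.H383.EnB2

open MeasureTheory Filter Topology
open Pool.Agent.H383.AP

namespace Pool.Agent.H383.Gauss

/-- the finite set of exceptional primes for the step `α` -/
def GoodF (α : ℝ) (F : Finset ℕ) : Prop := (∀ p ∈ F, p.Prime) ∧
  ∀ (k : ℤ) (S : Finset ℕ), (∀ p ∈ S, p.Prime) → (k:ℝ)/α ∈ KS S → (k:ℝ)/α ∈ KS F

lemma exists_F (α : ℝ) : ∃ F, GoodF α F := by
  by_cases h : ∃ S : Finset ℕ, (∀ p ∈ S, p.Prime) ∧ 1/α ∈ KS S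
  · obtain ⟨S, hS, h1⟩ := h
    refine ⟨S, hS, fun k T _ _ => ?_⟩
    have : (k:ℝ)/α = k * (1/α) := by ring
    rw [this]
    exact (KS S).mul_mem (intCast_mem (KS S) k) h1
  · refine ⟨∅, by simp, fun k T hT hk => ?_⟩
    by_cases hk0 : k = 0
    · rw [hk0]; simp only [Int.cast_zero, zero_div]; exact (KS ∅).zero_mem
    · exfalso
      apply h
      refine ⟨T, hT, ?_⟩
      have hk' : (k:ℝ) ≠ 0 := by exact_mod_cast hk0
      have : 1/α = ((k:ℝ)/α) * (k:ℝ)⁻¹ := by field_simp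
      rw [this]
      exact (KS T).mul_mem hk ((KS T).inv_mem (intCast_mem (KS T) k))

variable {α : ℝ} {F Q : Finset ℕ}

lemma sum_mem_KS {S : Finset ℕ} (hQS : Q ⊆ S) (ε : ℕ → ℤ) : ∑ q ∈ Q, (ε q : ℝ) * √(q:ℝ) ∈ KS S := by
  apply Subfield.sum_mem
  intro q hq
  exact (KS S).mul_mem (intCast_mem (KS S) (ε q)) (sqrt_mem_KS (hQS hq))

/-- a linear relation is trivial -/
lemma relG (hα : 0 < α) (hF : GoodF α F) (hQ : ∀ q ∈ Q, q.Prime) (hd : Disjoint F Q) (ε : ℕ → ℤ) (k : ℤ)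
    (h : α * ∑ q ∈ Q, (ε q : ℝ) * √(q:ℝ) = k) : ∀ q ∈ Q, ε q = 0 := by
  classical
  intro q hq
  by_contra hne
  have h1 : (k:ℝ)/α = ∑ q ∈ Q, (ε q : ℝ) * √(q:ℝ) := by rw [← h]; field_simp
  have h2 : (k:ℝ)/α ∈ KS F := hF.2 k Q hQ (by rw [h1]; exact sum_mem_KS (Finset.Subset.refl _) ε)
  set S := F ∪ Q.erase q with hS
  have hSp : ∀ p ∈ S, p.Prime := by
    intro p hp
    rw [hS, Finset.mem_union] at hp
    rcases hp with hp | hp
    · exact hF.1 p hp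
    · exact hQ p (Finset.mem_of_mem_erase hp)
  have hqS : q ∉ S := by
    rw [hS, Finset.mem_union, not_or]
    exact ⟨fun h => (Finset.disjoint_left.mp hd h) hq, Finset.notMem_erase q Q⟩
  have hqp := hQ q hq
  apply not_mem_KS hSp hqp.prime.squarefree ⟨q, hqp, dvd_rfl, hqS⟩
  have h3 : ∑ q ∈ Q, (ε q : ℝ) * √(q:ℝ) = (ε q : ℝ) * √(q:ℝ) + ∑ q' ∈ Q.erase q, (ε q' : ℝ) * √(q':ℝ) :=
    (Finset.add_sum_erase Q (fun q => (ε q : ℝ) * √(q:ℝ)) hq).symm
  have hne' : (ε q : ℝ) ≠ 0 := by exact_mod_cast hne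
  have h4 : √(q:ℝ) = ((k:ℝ)/α - ∑ q' ∈ Q.erase q, (ε q' : ℝ) * √(q':ℝ)) * (ε q : ℝ)⁻¹ := by
    rw [h1, h3]; field_simp; ring
  rw [h4]
  apply (KS S).mul_mem _ ((KS S).inv_mem (intCast_mem (KS S) _))
  apply (KS S).sub_mem
  · exact KS_mono Finset.subset_union_left h2
  · exact sum_mem_KS Finset.subset_union_right ε

lemma rel_m (hα : 0 < α) (hF : GoodF α F) (hQ : ∀ q ∈ Q, q.Prime) (hd : Disjoint F Q) (ε : ℕ → ℤ)
    (hε : ∀ q, |ε q| ≤ 1) (k c : ℤ) (hc : c = 1 ∨ c = -1) {m : ℕ} (hm : 1 ≤ m)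
    (h : α * (c * √(m:ℝ)) + α * ∑ q ∈ Q, (ε q : ℝ) * √(q:ℝ) = k) :
    (∀ q ∈ Q, ε q = 0) ∨ m ∈ Q := by
  classical
  by_contra hcon
  rw [not_or] at hcon
  obtain ⟨hcon1, hmQ⟩ := hcon
  push Not at hcon1
  obtain ⟨q, hq, hne⟩ := hcon1
  obtain ⟨s, t, hst, hs⟩ := Nat.sq_mul_squarefree m
  have hqp := hQ q hq
  have hs0 : s ≠ 0 := hs.ne_zero
  have hsqm : √(m:ℝ) = t * √(s:ℝ) := by
    rw [← hst]; push_cast
    rw [Real.sqrt_mul (by positivity), Real.sqrt_sq (Nat.cast_nonneg t)]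
  set S := F ∪ (Q.erase q ∪ s.primeFactors.erase q) with hS
  have hSp : ∀ p ∈ S, p.Prime := by
    intro p hp
    rw [hS, Finset.mem_union, Finset.mem_union] at hp
    rcases hp with hp | hp | hp
    · exact hF.1 p hp
    · exact hQ p (Finset.mem_of_mem_erase hp)
    · exact (Nat.mem_primeFactors.mp (Finset.mem_of_mem_erase hp)).1
  have hqS : q ∉ S := by
    rw [hS, Finset.mem_union, Finset.mem_union, not_or, not_or]
    exact ⟨fun h => (Finset.disjoint_left.mp hd h) hq, Finset.notMem_erase q Q, Finset.notMem_erase q _⟩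
  have hcs : (c:ℝ) ≠ 0 := by rcases hc with rfl | rfl <;> norm_num
  have h1 : (k:ℝ)/α = c * √(m:ℝ) + ∑ q ∈ Q, (ε q : ℝ) * √(q:ℝ) := by
    rw [← h]; field_simp
  have h2 : (k:ℝ)/α ∈ KS F := by
    apply hF.2 k (Q ∪ s.primeFactors)
    · intro p hp
      rw [Finset.mem_union] at hp
      rcases hp with hp | hp
      · exact hQ p hp
      · exact (Nat.mem_primeFactors.mp hp).1
    · rw [h1, hsqm]
      apply Subfield.add_mem
      · apply Subfield.mul_mem _ (intCast_mem _ c)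
        apply Subfield.mul_mem _ (natCast_mem _ t)
        exact sqrt_sf_mem hs (fun p hp hps => Finset.mem_union_right _ (Nat.mem_primeFactors.mpr ⟨hp, hps, hs0⟩))
      · exact sum_mem_KS Finset.subset_union_left ε
  have h2' : (k:ℝ)/α ∈ KS S := KS_mono Finset.subset_union_left h2
  have h3 : ∑ q ∈ Q, (ε q : ℝ) * √(q:ℝ) = (ε q : ℝ) * √(q:ℝ) + ∑ q' ∈ Q.erase q, (ε q' : ℝ) * √(q':ℝ) :=
    (Finset.add_sum_erase Q (fun q => (ε q : ℝ) * √(q:ℝ)) hq).symm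
  have h4 : ∑ q' ∈ Q.erase q, (ε q' : ℝ) * √(q':ℝ) ∈ KS S :=
    sum_mem_KS (Finset.subset_union_left.trans Finset.subset_union_right) ε
  have hne' : (ε q : ℝ) ≠ 0 := by exact_mod_cast hne
  have hnot := not_mem_KS hSp hqp.prime.squarefree ⟨q, hqp, dvd_rfl, hqS⟩
  by_cases hqs : q ∣ s
  · obtain ⟨s', rfl⟩ := hqs
    have hs' : Squarefree s' := hs.of_mul_right
    have hcop : Nat.Coprime q s' := Nat.coprime_of_squarefree_mul hs
    have h5 : √(s':ℝ) ∈ KS S := by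
      apply sqrt_sf_mem hs'
      intro p hp hps
      rw [hS, Finset.mem_union, Finset.mem_union]
      right; right
      rw [Finset.mem_erase]
      refine ⟨?_, Nat.mem_primeFactors.mpr ⟨hp, Dvd.dvd.mul_left hps q, hs0⟩⟩
      rintro rfl
      exact (Nat.Prime.one_lt hp).ne' (Nat.Coprime.eq_one_of_dvd hcop hps)
    have h6 : √((q * s' : ℕ):ℝ) = √(q:ℝ) * √(s':ℝ) := by
      push_cast; exact Real.sqrt_mul (Nat.cast_nonneg q) _
    -- (ε q + c t √s') √q ∈ KS S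
    have h7 : ((ε q : ℝ) + c * t * √(s':ℝ)) * √(q:ℝ) = (k:ℝ)/α - ∑ q' ∈ Q.erase q, (ε q' : ℝ) * √(q':ℝ) := by
      rw [h1, h3, hsqm, h6]; ring
    have hD : (ε q : ℝ) + c * t * √(s':ℝ) = 0 := by
      by_contra hD
      apply hnot
      have e : √(q:ℝ) = ((k:ℝ)/α - ∑ q' ∈ Q.erase q, (ε q' : ℝ) * √(q':ℝ)) * ((ε q : ℝ) + c * t * √(s':ℝ))⁻¹ := by
        rw [← h7, mul_comm, ← mul_assoc, inv_mul_cancel₀ hD, one_mul]
      rw [e]
      apply (KS S).mul_mem ((KS S).sub_mem h2' h4)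
      apply (KS S).inv_mem
      apply (KS S).add_mem (intCast_mem _ _)
      apply (KS S).mul_mem _ h5
      exact (KS S).mul_mem (intCast_mem _ _) (natCast_mem _ _)
    have h8 : (c * t * √(s':ℝ))^2 = (ε q : ℝ)^2 := by
      have : c * t * √(s':ℝ) = -(ε q : ℝ) := by linarith
      rw [this]; ring
    have hc2 : (c:ℝ)^2 = 1 := by rcases hc with rfl | rfl <;> norm_num
    have h9 : (t:ℝ)^2 * s' = (ε q : ℝ)^2 := by
      rw [← h8, mul_pow, mul_pow, hc2, Real.sq_sqrt (Nat.cast_nonneg s')]; ring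
    have h10 : ((ε q)^2 : ℤ) = 1 := by
      have := hε q
      rw [abs_le] at this
      have : ε q = 1 ∨ ε q = -1 := by omega
      rcases this with h | h <;> rw [h] <;> norm_num
    have h11 : t^2 * s' = 1 := by
      have : ((t^2 * s' : ℕ) : ℝ) = ((1:ℕ):ℝ) := by
        push_cast
        rw [h9]
        exact_mod_cast h10
      exact_mod_cast this
    have ht : t^2 = 1 := Nat.eq_one_of_mul_eq_one_right h11
    have hs1 : s' = 1 := Nat.eq_one_of_mul_eq_one_left h11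
    apply hmQ
    rw [← hst, ht, hs1]
    simpa using hq
  · apply hnot
    have h5 : √(s:ℝ) ∈ KS S := by
      apply sqrt_sf_mem hs
      intro p hp hps
      rw [hS, Finset.mem_union, Finset.mem_union]
      right; right
      rw [Finset.mem_erase]
      refine ⟨?_, Nat.mem_primeFactors.mpr ⟨hp, hps, hs0⟩⟩
      rintro rfl
      exact hqs hps
    have e : √(q:ℝ) = ((k:ℝ)/α - c * (t * √(s:ℝ)) - ∑ q' ∈ Q.erase q, (ε q' : ℝ) * √(q':ℝ)) * (ε q : ℝ)⁻¹ := by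
      rw [h1, h3, hsqm]; field_simp; ring
    rw [e]
    apply (KS S).mul_mem _ ((KS S).inv_mem (intCast_mem (KS S) _))
    apply (KS S).sub_mem _ h4
    apply (KS S).sub_mem h2'
    exact (KS S).mul_mem (intCast_mem _ _) ((KS S).mul_mem (natCast_mem _ _) h5)

end Pool.Agent.H383.Gauss
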