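import Mathlib
import Pool.Agent.H383.Riesz
import Pool.Agent.H383.IntRad

open MeasureTheory Filter Topology
open Pool.Agent.H383.AP

namespace Pool.Agent.H383.AP

/-- the mean of a sequence -/
noncomputable def mn (a : ℕ → ℂ) : ℂ := limUnder atTop (cm a)

lemma HasMean.mn_eq {a : ℕ → ℂ} {L : ℂ} (h : HasMean a L) : mn a = L := Tendsto.limUnder_eq h

lemma Trig_hasMean {a : ℕ → ℂ} (h : a ∈ Trig) : HasMean a (mn a) := by
  obtain ⟨L, hL⟩ := Trig_mean h
  rw [hL.mn_eq]; exact hL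

lemma mn_add {a b : ℕ → ℂ} (ha : a ∈ Trig) (hb : b ∈ Trig) : mn (a + b) = mn a + mn b :=
  ((Trig_hasMean ha).add (Trig_hasMean hb)).mn_eq

lemma mn_smul {a : ℕ → ℂ} (c : ℂ) (ha : a ∈ Trig) : mn (c • a) = c * mn a :=
  ((Trig_hasMean ha).smul c).mn_eq

lemma mn_chr (θ : ℝ) : mn (chr θ) = mc θ := (chr_mean θ).mn_eq

end Pool.Agent.H383.AP

namespace Pool.Agent.H383.Gauss

/-- coefficient of the Riesz product -/
noncomputable def Aq (X φ : ℝ) (q : ℕ) : ℂ :=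
  (1/2) * Complex.exp (((2 * Real.pi * (X * √(q:ℝ)) - φ : ℝ) : ℂ) * Complex.I)

/-- one factor -/
noncomputable def fac (α X φ : ℝ) (q : ℕ) : ℕ → ℂ :=
  1 + Aq X φ q • chr (α * √(q:ℝ)) + (starRingEnd ℂ) (Aq X φ q) • chr (-(α * √(q:ℝ)))

/-- the Riesz product -/
noncomputable def Kp (α X φ : ℝ) (Q : Finset ℕ) : ℕ → ℂ := ∏ q ∈ Q, fac α X φ q

lemma fac_trig (α X φ : ℝ) (q : ℕ) : fac α X φ q ∈ Trig :=
  Trig.add_mem (Trig.add_mem one_mem (Trig.smul_mem _ (chr_mem _))) (Trig.smul_mem _ (chr_mem _))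

lemma Kp_trig (α X φ : ℝ) (Q : Finset ℕ) : Kp α X φ Q ∈ Trig := by
  classical
  unfold Kp
  induction Q using Finset.induction_on with
  | empty => simpa using one_mem
  | insert q Q hq ih => rw [Finset.prod_insert hq]; exact Trig_mul (fac_trig α X φ q) ih

lemma fac_real (α X φ : ℝ) (q n : ℕ) : fac α X φ q n =
    ((1 + Real.cos (2 * Real.pi * ((X + n * α) * √(q:ℝ)) - φ) : ℝ) : ℂ) := by
  have h1 : (starRingEnd ℂ) (Aq X φ q) * chr (-(α * √(q:ℝ))) n = (starRingEnd ℂ) (Aq X φ q * chr (α * √(q:ℝ)) n) := by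
    rw [map_mul, chr_conj]
  have h2 : Aq X φ q * chr (α * √(q:ℝ)) n =
      (1/2) * Complex.exp (((2 * Real.pi * ((X + n * α) * √(q:ℝ)) - φ : ℝ) : ℂ) * Complex.I) := by
    unfold Aq chr
    rw [mul_assoc, ← Complex.exp_add]
    congr 2
    push_cast; ring
  unfold fac
  simp only [Pi.add_apply, Pi.one_apply, Pi.smul_apply, smul_eq_mul]
  rw [h1, h2, add_assoc, Complex.add_conj]
  push_cast
  rw [show (1/2 : ℂ) = ((1/2 : ℝ) : ℂ) by push_cast; ring, Complex.re_ofReal_mul]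
  have h3 : (Complex.exp ((2 * (Real.pi:ℂ) * (((X:ℂ) + n * α) * (√(q:ℝ) : ℝ)) - φ) * Complex.I)).re =
      Real.cos (2 * Real.pi * ((X + n * α) * √(q:ℝ)) - φ) := by
    have := Complex.exp_ofReal_mul_I_re (2 * Real.pi * ((X + n * α) * √(q:ℝ)) - φ)
    rw [← this]
    congr 2
    push_cast; ring
  rw [h3]
  push_cast
  ring

/-- the real form of the Riesz product -/
noncomputable def Kr (α X φ : ℝ) (Q : Finset ℕ) (n : ℕ) : ℝ :=
  ∏ q ∈ Q, (1 + Real.cos (2 * Real.pi * ((X + n * α) * √(q:ℝ)) - φ))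

lemma Kp_real (α X φ : ℝ) (Q : Finset ℕ) (n : ℕ) : Kp α X φ Q n = ((Kr α X φ Q n : ℝ) : ℂ) := by
  unfold Kp Kr
  rw [Finset.prod_apply]
  push_cast
  apply Finset.prod_congr rfl
  intro q _
  rw [fac_real]
  push_cast; rfl

lemma Kr_nonneg (α X φ : ℝ) (Q : Finset ℕ) (n : ℕ) : 0 ≤ Kr α X φ Q n := by
  unfold Kr
  apply Finset.prod_nonneg
  intro q _
  have := Real.neg_one_le_cos (2 * Real.pi * ((X + n * α) * √(q:ℝ)) - φ)
  linarith

lemma Kr_le (α X φ : ℝ) (Q : Finset ℕ) (n : ℕ) : Kr α X φ Q n ≤ 2 ^ Q.card := by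
  unfold Kr
  rw [← Finset.prod_const]
  apply Finset.prod_le_prod
  · intro q _
    have := Real.neg_one_le_cos (2 * Real.pi * ((X + n * α) * √(q:ℝ)) - φ)
    linarith
  · intro q _
    have := Real.cos_le_one (2 * Real.pi * ((X + n * α) * √(q:ℝ)) - φ)
    linarith

/-- Fourier coefficients of the Riesz product -/
noncomputable def kk (α X φ : ℝ) (Q : Finset ℕ) (θ : ℝ) : ℂ := mn (chr θ * Kp α X φ Q)

lemma kk_insert {α X φ : ℝ} {Q : Finset ℕ} {q : ℕ} (hq : q ∉ Q) (θ : ℝ) :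
    kk α X φ (insert q Q) θ = kk α X φ Q θ + Aq X φ q * kk α X φ Q (θ + α * √(q:ℝ)) +
      (starRingEnd ℂ) (Aq X φ q) * kk α X φ Q (θ + -(α * √(q:ℝ))) := by
  classical
  have hK := Kp_trig α X φ Q
  have e : chr θ * Kp α X φ (insert q Q) = chr θ * Kp α X φ Q + Aq X φ q • (chr (θ + α * √(q:ℝ)) * Kp α X φ Q) +
      (starRingEnd ℂ) (Aq X φ q) • (chr (θ + -(α * √(q:ℝ))) * Kp α X φ Q) := by
    have e1 : Kp α X φ (insert q Q) = fac α X φ q * Kp α X φ Q := by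
      unfold Kp; rw [Finset.prod_insert hq]
    rw [e1, ← chr_mul, ← chr_mul]
    unfold fac
    funext n
    simp only [Pi.mul_apply, Pi.add_apply, Pi.smul_apply, Pi.one_apply, smul_eq_mul]
    ring
  unfold kk
  rw [e, mn_add, mn_add, mn_smul, mn_smul]
  · exact Trig_mul (chr_mem _) hK
  · exact Trig_mul (chr_mem _) hK
  · exact Trig_mul (chr_mem _) hK
  · exact Trig.smul_mem _ (Trig_mul (chr_mem _) hK)
  · exact Trig.add_mem (Trig_mul (chr_mem _) hK) (Trig.smul_mem _ (Trig_mul (chr_mem _) hK))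
  · exact Trig.smul_mem _ (Trig_mul (chr_mem _) hK)

lemma kk_supp (α X φ : ℝ) (Q : Finset ℕ) : ∀ θ : ℝ, kk α X φ Q θ ≠ 0 →
    ∃ ε : ℕ → ℤ, (∀ q, |ε q| ≤ 1) ∧ ∃ k : ℤ, θ + α * ∑ q ∈ Q, (ε q : ℝ) * √(q:ℝ) = k := by
  classical
  induction Q using Finset.induction_on with
  | empty =>
    intro θ h
    unfold kk Kp at h
    rw [Finset.prod_empty, mul_one, mn_chr] at h
    unfold mc at h
    split_ifs at h with hk
    · obtain ⟨k, hk⟩ := hk
      exact ⟨fun _ => 0, fun _ => by simp, k, by simpa using hk⟩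
    · exact absurd rfl h
  | insert q Q hq ih =>
    intro θ h
    rw [kk_insert hq] at h
    -- auxiliary: update
    have upd : ∀ (ε : ℕ → ℤ) (c : ℤ), (∀ q, |ε q| ≤ 1) → |c| ≤ 1 → ∀ k : ℤ,
        θ + α * ((c:ℝ) * √(q:ℝ)) + α * ∑ q ∈ Q, (ε q : ℝ) * √(q:ℝ) = k →
        ∃ ε : ℕ → ℤ, (∀ q, |ε q| ≤ 1) ∧ ∃ k : ℤ, θ + α * ∑ q ∈ insert q Q, (ε q : ℝ) * √(q:ℝ) = k := by
      intro ε c hε hc k hk
      refine ⟨Function.update ε q c, ?_, k, ?_⟩
      · intro q'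
        by_cases hqq : q' = q
        · rw [hqq, Function.update_self]; exact hc
        · rw [Function.update_of_ne hqq]; exact hε q'
      · rw [Finset.sum_insert hq, Function.update_self]
        have e : ∑ x ∈ Q, ((Function.update ε q c x : ℤ) : ℝ) * √(x:ℝ) = ∑ q ∈ Q, (ε q : ℝ) * √(q:ℝ) := by
          apply Finset.sum_congr rfl
          intro x hx
          rw [Function.update_of_ne (by rintro rfl; exact hq hx)]
        rw [e, ← hk]; ring
    by_cases h1 : kk α X φ Q θ ≠ 0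
    · obtain ⟨ε, hε, k, hk⟩ := ih θ h1
      exact upd ε 0 hε (by norm_num) k (by rw [← hk]; push_cast; ring)
    · push Not at h1
      by_cases h2 : kk α X φ Q (θ + α * √(q:ℝ)) ≠ 0
      · obtain ⟨ε, hε, k, hk⟩ := ih _ h2
        exact upd ε 1 hε (by norm_num) k (by rw [← hk]; push_cast; ring)
      · push Not at h2
        by_cases h3 : kk α X φ Q (θ + -(α * √(q:ℝ))) ≠ 0
        · obtain ⟨ε, hε, k, hk⟩ := ih _ h3
          exact upd ε (-1) hε (by norm_num) k (by rw [← hk]; push_cast; ring)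
        · push Not at h3
          rw [h1, h2, h3] at h
          simp at h

variable {α X φ : ℝ} {F Q : Finset ℕ}

lemma kk_zero_of_q (hα : 0 < α) (hF : GoodF α F) (hQ : ∀ q ∈ Q, q.Prime) (hd : Disjoint F Q) {q : ℕ}
    (hqp : q.Prime) (hqF : q ∉ F) (hqQ : q ∉ Q) (c : ℤ) (hc : c ≠ 0) : kk α X φ Q (α * (c * √(q:ℝ))) = 0 := by
  classical
  by_contra h
  obtain ⟨ε, hε, k, hk⟩ := kk_supp α X φ Q _ h
  have h1 := relG hα hF (Q := insert q Q) (by
    intro p hp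
    rw [Finset.mem_insert] at hp
    rcases hp with rfl | hp
    · exact hqp
    · exact hQ p hp) (by
    rw [Finset.disjoint_insert_right]
    exact ⟨hqF, hd⟩) (Function.update ε q c) k ?_ q (Finset.mem_insert_self q Q)
  · rw [Function.update_self] at h1
    exact hc h1
  · rw [Finset.sum_insert hqQ, Function.update_self]
    have e : ∑ x ∈ Q, ((Function.update ε q c x : ℤ) : ℝ) * √(x:ℝ) = ∑ q ∈ Q, (ε q : ℝ) * √(q:ℝ) := by
      apply Finset.sum_congr rfl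
      intro x hx
      rw [Function.update_of_ne (by rintro rfl; exact hqQ hx)]
    rw [e, ← hk]; ring

lemma kk_zero_zero (hα : 0 < α) (hF : GoodF α F) (hQ : ∀ q ∈ Q, q.Prime) (hd : Disjoint F Q) :
    kk α X φ Q 0 = 1 := by
  classical
  induction Q using Finset.induction_on with
  | empty =>
    unfold kk Kp
    rw [Finset.prod_empty, mul_one, mn_chr]
    exact mc_one_of ⟨0, by simp⟩
  | insert q Q hq ih =>
    rw [Finset.disjoint_insert_right] at hd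
    have hQ' : ∀ p ∈ Q, p.Prime := fun p hp => hQ p (Finset.mem_insert_of_mem hp)
    have hqp : q.Prime := hQ q (Finset.mem_insert_self q Q)
    have h1 := kk_zero_of_q (X := X) (φ := φ) hα hF hQ' hd.2 hqp hd.1 hq 1 one_ne_zero
    have h2 := kk_zero_of_q (X := X) (φ := φ) hα hF hQ' hd.2 hqp hd.1 hq (-1) (by norm_num)
    rw [kk_insert hq, ih hQ' hd.2]
    have e1 : (0:ℝ) + α * √(q:ℝ) = α * (((1:ℤ):ℝ) * √(q:ℝ)) := by push_cast; ring
    have e2 : (0:ℝ) + -(α * √(q:ℝ)) = α * (((-1:ℤ):ℝ) * √(q:ℝ)) := by push_cast; ring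
    rw [e1, e2, h1, h2]
    ring

lemma kk_int (hα : 0 < α) (hF : GoodF α F) (hQ : ∀ q ∈ Q, q.Prime) (hd : Disjoint F Q) {θ : ℝ}
    (h : ∃ k : ℤ, θ = k) : kk α X φ Q θ = 1 := by
  rw [← kk_zero_zero (X := X) (φ := φ) hα hF hQ hd]
  unfold kk
  congr 2
  rw [chr_zero]
  obtain ⟨k, rfl⟩ := h
  funext n
  simp only [chr, Pi.one_apply]
  rw [Complex.exp_eq_one_iff]
  refine ⟨n * k, ?_⟩
  push_cast; ring

lemma kk_q (hα : 0 < α) (hF : GoodF α F) (hQ : ∀ q ∈ Q, q.Prime) (hd : Disjoint F Q) {q : ℕ} (hq : q ∈ Q) :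
    kk α X φ Q (α * √(q:ℝ)) = (starRingEnd ℂ) (Aq X φ q) ∧ kk α X φ Q (-(α * √(q:ℝ))) = Aq X φ q := by
  classical
  obtain ⟨Q', hqQ', rfl⟩ : ∃ Q', q ∉ Q' ∧ insert q Q' = Q :=
    ⟨Q.erase q, Finset.notMem_erase q Q, Finset.insert_erase hq⟩
  rw [Finset.disjoint_insert_right] at hd
  have hQ' : ∀ p ∈ Q', p.Prime := fun p hp => hQ p (Finset.mem_insert_of_mem hp)
  have hqp : q.Prime := hQ q (Finset.mem_insert_self q Q')
  have h1 := kk_zero_of_q (X := X) (φ := φ) hα hF hQ' hd.2 hqp hd.1 hqQ' 1 one_ne_zero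
  have h2 := kk_zero_of_q (X := X) (φ := φ) hα hF hQ' hd.2 hqp hd.1 hqQ' 2 two_ne_zero
  have h3 := kk_zero_of_q (X := X) (φ := φ) hα hF hQ' hd.2 hqp hd.1 hqQ' (-1) (by norm_num)
  have h4 := kk_zero_of_q (X := X) (φ := φ) hα hF hQ' hd.2 hqp hd.1 hqQ' (-2) (by norm_num)
  have h0 := kk_zero_zero (X := X) (φ := φ) hα hF hQ' hd.2
  constructor
  · rw [kk_insert hqQ']
    have e1 : α * √(q:ℝ) = α * (((1:ℤ):ℝ) * √(q:ℝ)) := by push_cast; ring
    have e2 : α * √(q:ℝ) + α * √(q:ℝ) = α * (((2:ℤ):ℝ) * √(q:ℝ)) := by push_cast; ring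
    have e3 : α * √(q:ℝ) + -(α * √(q:ℝ)) = 0 := by ring
    rw [e3, e2, h2, h0]
    rw [e1, h1]
    ring
  · rw [kk_insert hqQ']
    have e1 : -(α * √(q:ℝ)) = α * (((-1:ℤ):ℝ) * √(q:ℝ)) := by push_cast; ring
    have e2 : -(α * √(q:ℝ)) + -(α * √(q:ℝ)) = α * (((-2:ℤ):ℝ) * √(q:ℝ)) := by push_cast; ring
    have e3 : -(α * √(q:ℝ)) + α * √(q:ℝ) = 0 := by ring
    rw [e3, e2, h4, h0]
    rw [e1, h3]
    ring

lemma kk_other (hα : 0 < α) (hF : GoodF α F) (hQ : ∀ q ∈ Q, q.Prime) (hd : Disjoint F Q) {m : ℕ} (hm : 1 ≤ m)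
    (hmQ : m ∉ Q) (hres : ¬ ∃ k : ℤ, α * √(m:ℝ) = k) (c : ℤ) (hc : c = 1 ∨ c = -1) :
    kk α X φ Q (α * (c * √(m:ℝ))) = 0 := by
  by_contra h
  obtain ⟨ε, hε, k, hk⟩ := kk_supp α X φ Q _ h
  rcases rel_m hα hF hQ hd ε hε k c hc hm hk with h1 | h1
  · apply hres
    have e : ∑ q ∈ Q, (ε q : ℝ) * √(q:ℝ) = 0 := by
      apply Finset.sum_eq_zero
      intro q hq
      rw [h1 q hq]; simp
    rw [e, mul_zero, add_zero] at hk
    rcases hc with rfl | rfl
    · exact ⟨k, by rw [← hk]; push_cast; ring⟩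
    · exact ⟨-k, by push_cast; rw [← hk]; push_cast; ring⟩
  · exact hmQ h1

lemma q_not_res (hα : 0 < α) (hF : GoodF α F) {q : ℕ} (hqp : q.Prime) (hqF : q ∉ F) :
    ¬ ∃ k : ℤ, α * √(q:ℝ) = k := by
  rintro ⟨k, hk⟩
  have := relG hα hF (Q := {q}) (by simpa using hqp) (by simpa using hqF) (fun _ => 1) k (by
    rw [Finset.sum_singleton, ← hk]; push_cast; ring) q (Finset.mem_singleton_self q)
  simp at this

/-- coefficient size -/
noncomputable def cq (m : ℕ) : ℝ := rA m / Real.pi * (√(m:ℝ)) ^ (-(3/2):ℝ)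

open Classical in
/-- correlation of the approximants with the Riesz product -/
theorem V_corr (hα : 0 < α) (hF : GoodF α F) (hQ : ∀ q ∈ Q, q.Prime) (hd : Disjoint F Q) {M : ℕ}
    (hM : ∀ q ∈ Q, q ≤ M^2) :
    HasMean (fun n : ℕ => ((V (X + n * α) 0 M * Kr α X φ Q n : ℝ) : ℂ))
      ((∑ m ∈ Finset.Icc 1 (M^2), gt α X m + (1/2) * Real.sin (φ - Real.pi/4) * ∑ q ∈ Q, cq q : ℝ) : ℂ) := by
  have hK := Kp_trig α X φ Q
  have e0 : (fun n : ℕ => ((V (X + n * α) 0 M * Kr α X φ Q n : ℝ) : ℂ)) =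
      ∑ m ∈ Finset.Icc 1 (M^2), ((bc X 0 m / (2 * Complex.I)) • (chr (α * √(m:ℝ)) * Kp α X φ Q) +
      (-(starRingEnd ℂ) (bc X 0 m) / (2 * Complex.I)) • (chr (-(α * √(m:ℝ))) * Kp α X φ Q)) := by
    have e1 : (fun n : ℕ => ((V (X + n * α) 0 M * Kr α X φ Q n : ℝ) : ℂ)) =
        (fun n : ℕ => ((V (X + n * α) 0 M : ℝ) : ℂ)) * Kp α X φ Q := by
      funext n
      rw [Pi.mul_apply, Kp_real]; push_cast; rfl
    rw [e1, V_trig, Finset.sum_mul]
    apply Finset.sum_congr rfl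
    intro m _
    rw [add_mul, smul_mul_assoc, smul_mul_assoc]
  rw [e0]
  have hterm : ∀ m ∈ Finset.Icc 1 (M^2), HasMean ((bc X 0 m / (2 * Complex.I)) • (chr (α * √(m:ℝ)) * Kp α X φ Q) +
      (-(starRingEnd ℂ) (bc X 0 m) / (2 * Complex.I)) • (chr (-(α * √(m:ℝ))) * Kp α X φ Q))
      ((gt α X m + (if m ∈ Q then (1/2) * Real.sin (φ - Real.pi/4) * cq m else 0) : ℝ) : ℂ) := by
    intro m hm
    rw [Finset.mem_Icc] at hm
    have h1 := ((Trig_hasMean (Trig_mul (chr_mem (α * √(m:ℝ))) hK)).smul (bc X 0 m / (2 * Complex.I))).add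
      ((Trig_hasMean (Trig_mul (chr_mem (-(α * √(m:ℝ)))) hK)).smul (-(starRingEnd ℂ) (bc X 0 m) / (2 * Complex.I)))
    have h2 : bc X 0 m / (2 * Complex.I) * kk α X φ Q (α * √(m:ℝ)) +
        -(starRingEnd ℂ) (bc X 0 m) / (2 * Complex.I) * kk α X φ Q (-(α * √(m:ℝ))) =
        ((gt α X m + (if m ∈ Q then (1/2) * Real.sin (φ - Real.pi/4) * cq m else 0) : ℝ) : ℂ) := by
      have hI := Complex.I_ne_zero
      by_cases hmQ : m ∈ Q
      · have hnr := q_not_res hα hF (hQ m hmQ) (fun h => (Finset.disjoint_left.mp hd h) hmQ)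
        obtain ⟨k1, k2⟩ := kk_q (X := X) (φ := φ) hα hF hQ hd hmQ
        rw [k1, k2, if_pos hmQ]
        have hg : gt α X m = 0 := by unfold gt; rw [if_neg hnr]
        rw [hg, zero_add]
        have h3 : bc X 0 m / (2 * Complex.I) * (starRingEnd ℂ) (Aq X φ m) +
            -(starRingEnd ℂ) (bc X 0 m) / (2 * Complex.I) * Aq X φ m =
            ((bc X 0 m * (starRingEnd ℂ) (Aq X φ m)).im : ℂ) := by
          have h4 := Complex.sub_conj (bc X 0 m * (starRingEnd ℂ) (Aq X φ m))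
          rw [map_mul, Complex.conj_conj] at h4
          have h5 : ((bc X 0 m * (starRingEnd ℂ) (Aq X φ m)).im : ℂ) =
              (bc X 0 m * (starRingEnd ℂ) (Aq X φ m) - (starRingEnd ℂ) (bc X 0 m) * Aq X φ m) / (2 * Complex.I) := by
            rw [h4]; field_simp; push_cast; ring
          rw [h5]; ring
        rw [h3]
        congr 1
        rw [bc_zero]
        unfold Aq cq
        rw [map_mul, ← Complex.exp_conj, map_mul, Complex.conj_ofReal, Complex.conj_I]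
        have h6 : (starRingEnd ℂ) (1/2 : ℂ) = ((1/2:ℝ):ℂ) := by
          rw [show (1/2:ℂ) = ((1/2:ℝ):ℂ) by push_cast; ring, Complex.conj_ofReal]
        rw [h6]
        have h7 : ((rA m / Real.pi * (√(m:ℝ)) ^ (-(3/2):ℝ) : ℝ) : ℂ) *
            Complex.exp (((2 * Real.pi * (X * √(m:ℝ)) - Real.pi/4 : ℝ) : ℂ) * Complex.I) *
            (((1/2:ℝ):ℂ) * Complex.exp (((2 * Real.pi * (X * √(m:ℝ)) - φ : ℝ) : ℂ) * -Complex.I)) =
            ((rA m / Real.pi * (√(m:ℝ)) ^ (-(3/2):ℝ) * (1/2) : ℝ) : ℂ) *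
            Complex.exp (((φ - Real.pi/4 : ℝ) : ℂ) * Complex.I) := by
          have h8 : Complex.exp (((2 * Real.pi * (X * √(m:ℝ)) - Real.pi/4 : ℝ) : ℂ) * Complex.I) *
              Complex.exp (((2 * Real.pi * (X * √(m:ℝ)) - φ : ℝ) : ℂ) * -Complex.I) =
              Complex.exp (((φ - Real.pi/4 : ℝ) : ℂ) * Complex.I) := by
            rw [← Complex.exp_add]; congr 1; push_cast; ring
          rw [← h8]; push_cast; ring
        rw [h7, Complex.im_ofReal_mul, Complex.exp_ofReal_mul_I_im]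
        ring
      · rw [if_neg hmQ, add_zero]
        by_cases hres : ∃ k : ℤ, α * √(m:ℝ) = k
        · rw [kk_int hα hF hQ hd hres, kk_int hα hF hQ hd (θ := -(α * √(m:ℝ))) (by
            obtain ⟨k, hk⟩ := hres
            exact ⟨-k, by push_cast; linarith⟩)]
          have h3 : bc X 0 m / (2 * Complex.I) * 1 + -(starRingEnd ℂ) (bc X 0 m) / (2 * Complex.I) * 1 =
            ((bc X 0 m - (starRingEnd ℂ) (bc X 0 m)) / (2 * Complex.I)) := by ring
          rw [h3, Complex.sub_conj, bc_im]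
          unfold gt
          rw [if_pos hres]
          field_simp
          push_cast
          ring
        · have k1 := kk_other (X := X) (φ := φ) hα hF hQ hd hm.1 hmQ hres 1 (Or.inl rfl)
          have k2 := kk_other (X := X) (φ := φ) hα hF hQ hd hm.1 hmQ hres (-1) (Or.inr rfl)
          have e1 : α * (((1:ℤ):ℝ) * √(m:ℝ)) = α * √(m:ℝ) := by push_cast; ring
          have e2 : α * (((-1:ℤ):ℝ) * √(m:ℝ)) = -(α * √(m:ℝ)) := by push_cast; ring
          rw [e1] at k1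
          rw [e2] at k2
          rw [k1, k2]
          unfold gt
          rw [if_neg hres]
          simp
    rw [← h2]
    exact h1
  have h3 := HasMean.sum _ _ _ hterm
  have h4 : ∑ m ∈ Finset.Icc 1 (M^2), ((gt α X m + (if m ∈ Q then (1/2) * Real.sin (φ - Real.pi/4) * cq m else 0) : ℝ) : ℂ) =
      ((∑ m ∈ Finset.Icc 1 (M^2), gt α X m + (1/2) * Real.sin (φ - Real.pi/4) * ∑ q ∈ Q, cq q : ℝ) : ℂ) := by
    rw [← Complex.ofReal_sum]
    congr 1
    rw [Finset.sum_add_distrib, ← Finset.sum_filter, Finset.mul_sum]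
    congr 1
    apply Finset.sum_congr _ (fun _ _ => rfl)
    ext q
    rw [Finset.mem_filter, Finset.mem_Icc]
    constructor
    · exact fun h => h.2
    · exact fun h => ⟨⟨(hQ q h).one_lt.le, hM q h⟩, h⟩
  rw [h4] at h3
  exact h3

end Pool.Agent.H383.Gauss
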