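import Mathlib
import Pool.Agent.H383.Riesz2

open Filter Topology

namespace Pool.Agent.H383.AP

/-- trigonometric polynomials with frequencies in a subgroup -/
def TG (Γ : AddSubgroup ℝ) : Submodule ℂ (ℕ → ℂ) := Submodule.span ℂ (chr '' (Γ : Set ℝ))

lemma chr_mem_TG {Γ : AddSubgroup ℝ} {θ : ℝ} (h : θ ∈ Γ) : chr θ ∈ TG Γ := Submodule.subset_span ⟨θ, h, rfl⟩

lemma TG_mono {Γ Γ' : AddSubgroup ℝ} (h : Γ ≤ Γ') : TG Γ ≤ TG Γ' :=
  Submodule.span_mono (Set.image_mono h)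

lemma TG_le_Trig (Γ : AddSubgroup ℝ) : TG Γ ≤ Trig := by
  unfold TG Trig
  apply Submodule.span_mono
  rintro _ ⟨θ, -, rfl⟩
  exact ⟨θ, rfl⟩

lemma one_mem_TG (Γ : AddSubgroup ℝ) : (1 : ℕ → ℂ) ∈ TG Γ := by
  rw [← chr_zero]; exact chr_mem_TG Γ.zero_mem

lemma TG_mul {Γ : AddSubgroup ℝ} {a b : ℕ → ℂ} (ha : a ∈ TG Γ) (hb : b ∈ TG Γ) : a * b ∈ TG Γ := by
  have h : ∀ θ ∈ Γ, ∀ b ∈ TG Γ, chr θ * b ∈ TG Γ := by
    intro θ hθ b hb
    unfold TG at hb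
    induction hb using Submodule.span_induction with
    | mem x hx =>
      obtain ⟨θ', hθ', rfl⟩ := hx
      rw [chr_mul]; exact chr_mem_TG (Γ.add_mem hθ hθ')
    | zero => rw [mul_zero]; exact (TG Γ).zero_mem
    | add x y _ _ hx hy => rw [mul_add]; exact (TG Γ).add_mem hx hy
    | smul c x _ hx => rw [mul_smul_comm]; exact (TG Γ).smul_mem c hx
  unfold TG at ha
  induction ha using Submodule.span_induction with
  | mem x hx =>
    obtain ⟨θ', hθ', rfl⟩ := hx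
    exact h θ' hθ' b hb
  | zero => rw [zero_mul]; exact (TG Γ).zero_mem
  | add x y _ _ hx hy => rw [add_mul]; exact (TG Γ).add_mem hx hy
  | smul c x _ hx => rw [smul_mul_assoc]; exact (TG Γ).smul_mem c hx

lemma TG_pow {Γ : AddSubgroup ℝ} {a : ℕ → ℂ} (ha : a ∈ TG Γ) (k : ℕ) : a ^ k ∈ TG Γ := by
  induction k with
  | zero => rw [pow_zero]; exact one_mem_TG Γ
  | succ k ih => rw [pow_succ]; exact TG_mul ih ha

/-- uniform closure -/
def UC (Γ : AddSubgroup ℝ) : Set (ℕ → ℂ) := {f | ∀ ε : ℝ, 0 < ε → ∃ g ∈ TG Γ, ∀ n, ‖f n - g n‖ ≤ ε}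

lemma TG_sub_UC {Γ : AddSubgroup ℝ} {f : ℕ → ℂ} (h : f ∈ TG Γ) : f ∈ UC Γ :=
  fun ε hε => ⟨f, h, fun n => by rw [sub_self, norm_zero]; exact hε.le⟩

lemma UC_mono {Γ Γ' : AddSubgroup ℝ} (h : Γ ≤ Γ') : UC Γ ⊆ UC Γ' := by
  intro f hf ε hε
  obtain ⟨g, hg, h1⟩ := hf ε hε
  exact ⟨g, TG_mono h hg, h1⟩

lemma UC_bdd {Γ : AddSubgroup ℝ} {f : ℕ → ℂ} (hf : f ∈ UC Γ) : ∃ B : ℝ, 0 ≤ B ∧ ∀ n, ‖f n‖ ≤ B := by
  obtain ⟨g, hg, h1⟩ := hf 1 one_pos
  obtain ⟨B, hB0, hB⟩ := Trig_bdd (TG_le_Trig Γ hg)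
  refine ⟨1 + B, by positivity, fun n => ?_⟩
  calc ‖f n‖ = ‖(f n - g n) + g n‖ := by rw [sub_add_cancel]
    _ ≤ ‖f n - g n‖ + ‖g n‖ := norm_add_le _ _
    _ ≤ 1 + B := add_le_add (h1 n) (hB n)

lemma norm_cm_sub_le_of {a b : ℕ → ℂ} {η : ℝ} (hη : 0 ≤ η) (h : ∀ n, ‖a n - b n‖ ≤ η) (N : ℕ) : ‖cm a N - cm b N‖ ≤ η :=
  (norm_cm_sub_le a b N).trans ((rm_mono (b := fun _ => η) h N).trans (rm_const_le hη N))

lemma UC_hasMean {Γ : AddSubgroup ℝ} {f : ℕ → ℂ} (hf : f ∈ UC Γ) : HasMean f (mn f) := by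
  obtain ⟨L, hL⟩ := hasMean_of_approx (a := f) (by
    intro η hη
    obtain ⟨g, hg, h1⟩ := hf η hη
    exact ⟨g, Trig_mean (TG_le_Trig Γ hg), 0, fun N _ => norm_cm_sub_le_of hη.le h1 N⟩)
  rw [hL.mn_eq]; exact hL

lemma mn_sub_le {Γ Γ' : AddSubgroup ℝ} {f g : ℕ → ℂ} (hf : f ∈ UC Γ) (hg : g ∈ UC Γ') {η : ℝ} (hη : 0 ≤ η)
    (h : ∀ n, ‖f n - g n‖ ≤ η) : ‖mn f - mn g‖ ≤ η :=
  mean_close (UC_hasMean hf) (UC_hasMean hg) ⟨0, fun N _ => norm_cm_sub_le_of hη h N⟩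

lemma mn_norm_le {Γ : AddSubgroup ℝ} {f : ℕ → ℂ} (hf : f ∈ UC Γ) {B : ℝ} (hB : 0 ≤ B) (h : ∀ n, ‖f n‖ ≤ B) : ‖mn f‖ ≤ B := by
  have h1 := mean_close (UC_hasMean hf) hasMean_zero ⟨0, fun N _ => norm_cm_sub_le_of (b := 0) hB (fun n => by
    simpa using h n) N⟩
  simpa using h1

lemma UC_mul {Γ : AddSubgroup ℝ} {f g : ℕ → ℂ} (hf : f ∈ UC Γ) (hg : g ∈ UC Γ) : f * g ∈ UC Γ := by
  intro ε hε
  obtain ⟨A, hA0, hA⟩ := UC_bdd hg
  obtain ⟨f', hf', h1⟩ := hf (ε / (2 * (A + 1))) (by positivity)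
  obtain ⟨B, hB0, hB⟩ := Trig_bdd (TG_le_Trig Γ hf')
  obtain ⟨g', hg', h2⟩ := hg (ε / (2 * (B + 1))) (by positivity)
  refine ⟨f' * g', TG_mul hf' hg', fun n => ?_⟩
  have e : (f * g) n - (f' * g') n = (f n - f' n) * g n + f' n * (g n - g' n) := by
    simp only [Pi.mul_apply]; ring
  rw [e]
  calc ‖(f n - f' n) * g n + f' n * (g n - g' n)‖ ≤ ‖f n - f' n‖ * ‖g n‖ + ‖f' n‖ * ‖g n - g' n‖ := by
        refine (norm_add_le _ _).trans ?_
        rw [norm_mul, norm_mul]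
    _ ≤ (ε / (2 * (A + 1))) * A + B * (ε / (2 * (B + 1))) := by
        gcongr
        · exact h1 n
        · exact hA n
        · exact hB n
        · exact h2 n
    _ ≤ ε / 2 + ε / 2 := by
        gcongr
        · rw [div_mul_eq_mul_div, div_le_div_iff₀ (by positivity) (by positivity)]; nlinarith
        · rw [mul_div_assoc', div_le_div_iff₀ (by positivity) (by positivity)]; nlinarith
    _ = ε := by ring

lemma UC_one (Γ : AddSubgroup ℝ) : (1 : ℕ → ℂ) ∈ UC Γ := TG_sub_UC (one_mem_TG Γ)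

lemma mn_one : mn 1 = 1 := by
  rw [← chr_zero, mn_chr]
  unfold mc
  rw [if_pos ⟨0, by simp⟩]

/-- exponentials -/
lemma UC_exp {Γ : AddSubgroup ℝ} {b : ℕ → ℂ} (hb : b ∈ TG Γ) (z : ℂ) : (fun n => Complex.exp (z * b n)) ∈ UC Γ := by
  obtain ⟨B, hB0, hB⟩ := Trig_bdd (TG_le_Trig Γ hb)
  intro η hη
  have hlim : Tendsto (fun K : ℕ => (‖z‖ * B) ^ K / (K.factorial : ℝ) * 2) atTop (𝓝 0) := by
    have := (FloorSemiring.tendsto_pow_div_factorial_atTop (‖z‖ * B)).mul_const 2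
    rw [zero_mul] at this
    exact this
  have hev := hlim.eventually (gt_mem_nhds hη)
  have hev2 : ∀ᶠ K : ℕ in atTop, (‖z‖ * B) / (K + 1) ≤ 1/2 := by
    have : Tendsto (fun K : ℕ => (‖z‖ * B) / ((K:ℝ) + 1)) atTop (𝓝 0) := by
      apply Tendsto.const_div_atTop
      exact tendsto_atTop_add_const_right _ _ tendsto_natCast_atTop_atTop
    filter_upwards [this.eventually (gt_mem_nhds (by norm_num : (0:ℝ) < 1/2))] with K hK
    exact hK.le
  obtain ⟨K, hK1, hK2⟩ := (hev.and hev2).exists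
  refine ⟨fun n => ∑ k ∈ Finset.range K, (z * b n) ^ k / (k.factorial : ℂ), ?_, ?_⟩
  · have e : (fun n => ∑ k ∈ Finset.range K, (z * b n) ^ k / (k.factorial : ℂ)) =
        ∑ k ∈ Finset.range K, (z ^ k / (k.factorial : ℂ)) • b ^ k := by
      funext n
      rw [Finset.sum_apply]
      apply Finset.sum_congr rfl
      intro k _
      simp only [Pi.smul_apply, Pi.pow_apply, smul_eq_mul]
      ring
    rw [e]
    apply Submodule.sum_mem
    intro k _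
    exact (TG Γ).smul_mem _ (TG_pow hb k)
  · intro n
    have hx : ‖z * b n‖ ≤ ‖z‖ * B := by
      rw [norm_mul]
      exact mul_le_mul_of_nonneg_left (hB n) (norm_nonneg _)
    have hx2 : ‖z * b n‖ / (K.succ : ℝ) ≤ 1/2 := by
      refine le_trans ?_ hK2
      rw [Nat.cast_succ]
      exact div_le_div_of_nonneg_right hx (by positivity)
    have h1 := Complex.exp_bound' hx2
    refine h1.trans ?_
    refine le_trans ?_ hK1.le
    gcongr

/-- independence of frequency groups -/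
def Ind (Γ Γ' : AddSubgroup ℝ) : Prop := ∀ θ ∈ Γ, ∀ θ' ∈ Γ', (∃ k : ℤ, θ + θ' = k) → ∃ k : ℤ, θ = k

lemma mc_add_of_ind {Γ Γ' : AddSubgroup ℝ} (h : Ind Γ Γ') {θ θ' : ℝ} (hθ : θ ∈ Γ) (hθ' : θ' ∈ Γ') :
    mc (θ + θ') = mc θ * mc θ' := by
  unfold mc
  by_cases h1 : ∃ k : ℤ, θ + θ' = k
  · have h2 := h θ hθ θ' hθ' h1
    have h3 : ∃ k : ℤ, θ' = k := by
      obtain ⟨k, hk⟩ := h1
      obtain ⟨l, hl⟩ := h2
      exact ⟨k - l, by push_cast; linarith⟩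
    rw [if_pos h1, if_pos h2, if_pos h3, one_mul]
  · rw [if_neg h1]
    by_cases h2 : ∃ k : ℤ, θ = k
    · have h3 : ¬ ∃ k : ℤ, θ' = k := by
        rintro ⟨l, hl⟩
        obtain ⟨k, hk⟩ := h2
        exact h1 ⟨k + l, by push_cast; linarith⟩
      rw [if_neg h3, mul_zero]
    · rw [if_neg h2, zero_mul]

lemma mn_mul_TG {Γ Γ' : AddSubgroup ℝ} (h : Ind Γ Γ') {f g : ℕ → ℂ} (hf : f ∈ TG Γ) (hg : g ∈ TG Γ') :
    mn (f * g) = mn f * mn g := by
  have key : ∀ θ ∈ Γ, ∀ g ∈ TG Γ', mn (chr θ * g) = mn (chr θ) * mn g := by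
    intro θ hθ g hg
    unfold TG at hg
    induction hg using Submodule.span_induction with
    | mem x hx =>
      obtain ⟨θ', hθ', rfl⟩ := hx
      rw [chr_mul, mn_chr, mn_chr, mn_chr, mc_add_of_ind h hθ hθ']
    | zero =>
      rw [mul_zero, hasMean_zero.mn_eq, mul_zero]
    | add x y hx' hy' hx hy =>
      have hx1 : x ∈ Trig := TG_le_Trig Γ' hx'
      have hy1 : y ∈ Trig := TG_le_Trig Γ' hy'
      rw [mul_add, mn_add (Trig_mul (chr_mem θ) hx1) (Trig_mul (chr_mem θ) hy1), mn_add hx1 hy1, hx, hy, mul_add]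
    | smul c x hx' hx =>
      have hx1 : x ∈ Trig := TG_le_Trig Γ' hx'
      rw [mul_smul_comm, mn_smul c (Trig_mul (chr_mem θ) hx1), mn_smul c hx1, hx]; ring
  have hg1 : g ∈ Trig := TG_le_Trig Γ' hg
  unfold TG at hf
  induction hf using Submodule.span_induction with
  | mem x hx =>
    obtain ⟨θ', hθ', rfl⟩ := hx
    exact key θ' hθ' g hg
  | zero => rw [zero_mul, hasMean_zero.mn_eq, zero_mul]
  | add x y hx' hy' hx hy =>
    have hx1 : x ∈ Trig := TG_le_Trig Γ hx'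
    have hy1 : y ∈ Trig := TG_le_Trig Γ hy'
    rw [add_mul, mn_add (Trig_mul hx1 hg1) (Trig_mul hy1 hg1), mn_add hx1 hy1, hx, hy, add_mul]
  | smul c x hx' hx =>
    have hx1 : x ∈ Trig := TG_le_Trig Γ hx'
    rw [smul_mul_assoc, mn_smul c (Trig_mul hx1 hg1), mn_smul c hx1, hx]; ring

/-- product formula -/
theorem mn_mul {Γ Γ' : AddSubgroup ℝ} (h : Ind Γ Γ') {f g : ℕ → ℂ} (hf : f ∈ UC Γ) (hg : g ∈ UC Γ') :
    mn (f * g) = mn f * mn g := by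
  obtain ⟨A, hA0, hA⟩ := UC_bdd hg
  obtain ⟨B, hB0, hB⟩ := UC_bdd hf
  have hft := UC_mono (le_top : Γ ≤ ⊤) hf
  have hgt := UC_mono (le_top : Γ' ≤ ⊤) hg
  have hkey : ∀ ε : ℝ, 0 < ε → ε ≤ 1 → ‖mn (f * g) - mn f * mn g‖ ≤ 2 * (A + B + 1) * ε := by
    intro ε hε hε1
    obtain ⟨f', hf', h1⟩ := hf ε hε
    obtain ⟨g', hg', h2⟩ := hg ε hε
    have hfn : ∀ n, ‖f' n‖ ≤ B + 1 := by
      intro n
      calc ‖f' n‖ = ‖f n - (f n - f' n)‖ := by congr 1; ring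
        _ ≤ ‖f n‖ + ‖f n - f' n‖ := norm_sub_le _ _
        _ ≤ B + 1 := add_le_add (hB n) ((h1 n).trans hε1)
    have h3 : ∀ n, ‖(f * g) n - (f' * g') n‖ ≤ (A + B + 1) * ε := by
      intro n
      have e : (f * g) n - (f' * g') n = (f n - f' n) * g n + f' n * (g n - g' n) := by
        simp only [Pi.mul_apply]; ring
      rw [e]
      calc ‖(f n - f' n) * g n + f' n * (g n - g' n)‖ ≤ ‖f n - f' n‖ * ‖g n‖ + ‖f' n‖ * ‖g n - g' n‖ := by
            refine (norm_add_le _ _).trans ?_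
            rw [norm_mul, norm_mul]
        _ ≤ ε * A + (B + 1) * ε := by
            gcongr
            · exact h1 n
            · exact hA n
            · exact hfn n
            · exact h2 n
        _ = _ := by ring
    have hf'T := TG_sub_UC hf'
    have hg'T := TG_sub_UC hg'
    have h4 := mn_sub_le (UC_mul hft hgt) (UC_mul (UC_mono (le_top : Γ ≤ ⊤) hf'T) (UC_mono (le_top : Γ' ≤ ⊤) hg'T))
      (by positivity) h3
    have h5 := mn_sub_le hf hf'T hε.le h1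
    have h6 := mn_sub_le hg hg'T hε.le h2
    have h7 : ‖mn g‖ ≤ A := mn_norm_le hg hA0 hA
    have h8 : ‖mn f'‖ ≤ B + 1 := mn_norm_le hf'T (by positivity) hfn
    rw [mn_mul_TG h hf' hg'] at h4
    have e : mn (f * g) - mn f * mn g = (mn (f * g) - mn f' * mn g') - (mn f - mn f') * mn g - mn f' * (mn g - mn g') := by ring
    rw [e]
    calc _ ≤ ‖mn (f * g) - mn f' * mn g'‖ + ‖mn f - mn f'‖ * ‖mn g‖ + ‖mn f'‖ * ‖mn g - mn g'‖ := by
          refine (norm_sub_le _ _).trans ?_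
          rw [norm_mul (mn f')]
          gcongr
          refine (norm_sub_le _ _).trans ?_
          rw [norm_mul]
      _ ≤ (A + B + 1) * ε + ε * A + (B + 1) * ε := by gcongr
      _ = _ := by ring
  have h0 : ‖mn (f * g) - mn f * mn g‖ ≤ 0 := by
    apply le_of_forall_pos_le_add
    intro δ hδ
    have hc : 0 < 2 * (A + B + 1) := by positivity
    have := hkey (min 1 (δ / (2 * (A + B + 1)))) (by positivity) (min_le_left _ _)
    rw [zero_add]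
    refine this.trans ?_
    calc 2 * (A + B + 1) * min 1 (δ / (2 * (A + B + 1))) ≤ 2 * (A + B + 1) * (δ / (2 * (A + B + 1))) := by
          gcongr; exact min_le_right _ _
      _ = δ := by field_simp
  exact sub_eq_zero.mp (norm_le_zero_iff.mp h0)

end Pool.Agent.H383.AP
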