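import Mathlib
import Pool.Agent.H383.LinIndep
import Pool.Agent.H383.UC

open Finset
open Pool.Agent.H383.AP

namespace Pool.Agent.H383.Gauss

/-- the class of `s` -/
def InC (s m : ℕ) : Prop := ∃ t : ℕ, m = s * t^2

/-- the frequency group of the class of `s` -/
noncomputable def Gs (α : ℝ) (s : ℕ) : AddSubgroup ℝ := AddSubgroup.zmultiples (α * √(s:ℝ))

/-- the frequency group of the other classes -/
noncomputable def Gr (α : ℝ) (s : ℕ) : AddSubgroup ℝ :=
  AddSubgroup.closure {x | ∃ m : ℕ, 1 ≤ m ∧ ¬ InC s m ∧ x = α * √(m:ℝ)}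

/-- a finite set of exceptional classes -/
def GoodS (α : ℝ) (S : Finset ℕ) : Prop := ∀ s : ℕ, Squarefree s → s ∉ S →
  ∀ c : ℤ, ∀ y ∈ Gr α s, (∃ k : ℤ, c * (α * √(s:ℝ)) + y = k) → c = 0

/-- square roots of squarefree numbers -/
noncomputable def bs : {s : ℕ // Squarefree s} → ℝ := fun s => √((s:ℕ):ℝ)

lemma Gr_span {α : ℝ} (hα : 0 < α) {s : ℕ} (hs : Squarefree s) {y : ℝ} (hy : y ∈ Gr α s) :
    y / α ∈ Submodule.span ℚ (bs '' {⟨s, hs⟩}ᶜ) := by
  unfold Gr at hy
  induction hy using AddSubgroup.closure_induction with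
  | mem x hx =>
    obtain ⟨m, hm, hc, rfl⟩ := hx
    obtain ⟨s', t, hst, hs'⟩ := Nat.sq_mul_squarefree m
    have hne : (⟨s', hs'⟩ : {s : ℕ // Squarefree s}) ≠ ⟨s, hs⟩ := by
      intro h
      apply hc
      have : s' = s := congrArg Subtype.val h
      exact ⟨t, by rw [← hst, this]; ring⟩
    have e : α * √(m:ℝ) / α = (t : ℚ) • bs ⟨s', hs'⟩ := by
      rw [mul_div_cancel_left₀ _ hα.ne', Rat.smul_def]
      unfold bs
      rw [← hst]; push_cast
      rw [Real.sqrt_mul (by positivity), Real.sqrt_sq (Nat.cast_nonneg t)]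
    rw [e]
    apply Submodule.smul_mem
    apply Submodule.subset_span
    exact ⟨_, hne, rfl⟩
  | zero => rw [zero_div]; exact Submodule.zero_mem _
  | add x y _ _ hx hy => rw [add_div]; exact Submodule.add_mem _ hx hy
  | neg x _ hx => rw [neg_div]; exact Submodule.neg_mem _ hx

theorem exists_S {α : ℝ} (hα : 0 < α) : ∃ S, GoodS α S := by
  classical
  have hnot : ∀ (s : ℕ) (hs : Squarefree s) (c : ℤ) (z : ℝ), z ∈ Submodule.span ℚ (bs '' {⟨s, hs⟩}ᶜ) →
      (c : ℝ) * √(s:ℝ) = z → c = 0 := by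
    intro s hs c z hz hcz
    by_contra hne
    have h1 := sf_indep.notMem_span_image (s := {⟨s, hs⟩}ᶜ) (x := ⟨s, hs⟩) (by simp)
    apply h1
    have hc : ((c : ℚ)) ≠ 0 := by exact_mod_cast hne
    have e : √((((⟨s, hs⟩ : {s : ℕ // Squarefree s}) : ℕ)):ℝ) = ((c : ℚ)⁻¹) • z := by
      rw [← hcz, Rat.smul_def]
      have : (c : ℝ) ≠ 0 := by exact_mod_cast hne
      push_cast
      field_simp
    rw [e]
    exact Submodule.smul_mem _ _ hz
  by_cases h : 1/α ∈ Submodule.span ℚ (Set.range bs)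
  · -- finite support
    obtain ⟨T, hT, h1⟩ := Submodule.mem_span_finite_of_mem_span h
    have hinj : Function.Injective bs := by
      intro a b hab
      unfold bs at hab
      have e1 := Real.sq_sqrt (Nat.cast_nonneg (α := ℝ) (a:ℕ))
      have e2 := Real.sq_sqrt (Nat.cast_nonneg (α := ℝ) (b:ℕ))
      apply Subtype.ext
      have : ((a:ℕ):ℝ) = ((b:ℕ):ℝ) := by rw [← e1, ← e2, hab]
      exact_mod_cast this
    set S : Finset ℕ := (T.preimage bs hinj.injOn).image Subtype.val with hS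
    refine ⟨S, ?_⟩
    intro s hs hsS c y hy hk
    obtain ⟨k, hk⟩ := hk
    apply hnot s hs c ((k:ℝ)/α - y/α)
    · apply Submodule.sub_mem
      · have e : (k:ℝ)/α = (k:ℚ) • (1/α) := by rw [Rat.smul_def]; push_cast; ring
        rw [e]
        apply Submodule.smul_mem
        refine Submodule.span_mono ?_ h1
        intro x hx
        obtain ⟨i, rfl⟩ := hT hx
        refine ⟨i, ?_, rfl⟩
        intro hi
        apply hsS
        rw [hS, Finset.mem_image]
        have hi' : i = ⟨s, hs⟩ := hi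
        refine ⟨i, ?_, by rw [hi']⟩
        rw [Finset.mem_preimage]
        exact_mod_cast hx
      · exact Gr_span hα hs hy
    · field_simp
      linarith
  · refine ⟨∅, ?_⟩
    intro s hs _ c y hy hk
    obtain ⟨k, hk⟩ := hk
    have hyS := Gr_span hα hs hy
    by_cases hk0 : k = 0
    · apply hnot s hs c (-(y/α))
      · exact Submodule.neg_mem _ hyS
      · rw [hk0] at hk
        field_simp
        push_cast at hk
        linarith
    · exfalso
      apply h
      have hk' : (k:ℝ) ≠ 0 := by exact_mod_cast hk0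
      have e : 1/α = ((k:ℚ)⁻¹) • ((c:ℚ) • bs ⟨s, hs⟩ + y/α) := by
        rw [Rat.smul_def, Rat.smul_def]
        unfold bs
        push_cast
        field_simp
        linarith
      rw [e]
      apply Submodule.smul_mem
      apply Submodule.add_mem
      · apply Submodule.smul_mem
        exact Submodule.subset_span ⟨_, rfl⟩
      · refine Submodule.span_mono ?_ hyS
        rintro _ ⟨i, -, rfl⟩
        exact ⟨i, rfl⟩

lemma ind_of_good {α : ℝ} {S : Finset ℕ} (h : GoodS α S) {s : ℕ} (hs : Squarefree s) (hS : s ∉ S) :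
    Ind (Gs α s) (Gr α s) := by
  intro θ hθ θ' hθ' hk
  obtain ⟨c, rfl⟩ := AddSubgroup.mem_zmultiples_iff.mp hθ
  have hc := h s hs hS c θ' hθ' (by
    obtain ⟨k, hk⟩ := hk
    exact ⟨k, by rw [← hk, zsmul_eq_mul]⟩)
  exact ⟨0, by rw [hc]; simp⟩

end Pool.Agent.H383.Gauss
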