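import Mathlib
import Pool.Agent.H383.B2Main

open Set Filter Topology

namespace Pool.Agent.H383.Gauss

/-- the off-diagonal and diagonal contributions together -/
theorem quad_tail_gen {α : ℝ} (hα : 0 < α) {C1 : ℝ} (hC1 : 0 < C1) : ∃ C : ℝ, 0 < C ∧ ∃ N0 : ℕ,
    ∀ (N : ℕ) (b : ℕ → ℂ) (M Y : ℕ),
    N0 ≤ N → 1 ≤ M → 2 * (Y:ℝ) ≤ α * N → (∀ m, 1 ≤ m → ‖b m‖ ≤ C1 * hf ((N:ℝ) ^ (-(25/48):ℝ)) (√(m:ℝ))) →
    ∑ i ∈ Finset.Ioc (M^2) (Y^2), ∑ j ∈ Finset.Ioc (M^2) (Y^2),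
      ‖b i‖ * ‖b j‖ *
      near N (α * √(i:ℝ) - α * √(j:ℝ)) ≤ C * ∑ q ∈ Finset.Icc M Y, (q:ℝ) ^ (-(101/100):ℝ) := by
  classical
  obtain ⟨C2, hC2, hnc⟩ := nc_le hα
  set Z : ℝ := ∑' k : ℕ, (k:ℝ) ^ (-(101/100):ℝ) with hZ
  have hZ0 : 0 ≤ Z := tsum_nonneg (fun k => by positivity)
  refine ⟨C1^2 * (3 + 2 * (64 * C2 * (α ^ (101/100:ℝ) * Z))), by positivity, ⌈1/α⌉₊ + 1, ?_⟩
  intro N b M Y hN0 hM hY hb
  have hN1 : 1 ≤ N := by omega
  have hN' : (1:ℝ) ≤ N := by exact_mod_cast hN1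
  have hNp : (0:ℝ) < N := by linarith
  have hN2 : 1 ≤ α * N := by
    have h1 : 1/α ≤ N := by
      refine (Nat.le_ceil _).trans ?_
      exact_mod_cast (by omega : ⌈1/α⌉₊ ≤ N)
    rw [div_le_iff₀ hα] at h1
    linarith
  set δ : ℝ := (N:ℝ) ^ (-(25/48):ℝ) with hδ
  have hδ0 : 0 < δ := by positivity
  set S := Finset.Ioc (M^2) (Y^2) with hS
  set h : ℕ → ℝ := fun j => hf δ (√(j:ℝ)) with hh
  have hh0 : ∀ j, 0 ≤ h j := fun j => hf_nonneg' hδ0 j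
  set T := ∑ q ∈ Finset.Icc M Y, (q:ℝ) ^ (-(101/100):ℝ) with hT
  have hT0 : 0 ≤ T := Finset.sum_nonneg (fun q _ => by positivity)
  -- step 1
  have s1 : ∑ i ∈ S, ∑ j ∈ S, ‖b i‖ * ‖b j‖ * near N (α * √(i:ℝ) - α * √(j:ℝ)) ≤
      ∑ i ∈ S, ∑ j ∈ S, (C1 * h i) * (C1 * h j) * ((if i = j then 1 else 0) +
      ∑ k ∈ Finset.Icc 1 (⌈α * Y⌉₊ + 1), ((if nr α N k i j then 1 else 0) + (if nr α N k j i then 1 else 0))) := by
    apply Finset.sum_le_sum
    intro i hi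
    apply Finset.sum_le_sum
    intro j hj
    rw [hS, Finset.mem_Ioc] at hi hj
    have hi1 : 1 ≤ i := by omega
    have hj1 : 1 ≤ j := by omega
    have a1 := hb i hi1
    have a2 := hb j hj1
    have a3 := near_le hα hN1 hY hi.2 hj.2
    have a4 := hh0 i
    have a5 := hh0 j
    apply mul_le_mul (mul_le_mul a1 a2 (norm_nonneg _) (by positivity)) a3 (near_nonneg _ _) (by positivity)
  -- step 2 : expand
  have s2 : ∑ i ∈ S, ∑ j ∈ S, (C1 * h i) * (C1 * h j) * ((if i = j then 1 else 0) +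
      ∑ k ∈ Finset.Icc 1 (⌈α * Y⌉₊ + 1), ((if nr α N k i j then 1 else 0) + (if nr α N k j i then 1 else 0))) =
      C1^2 * (∑ i ∈ S, (h i)^2 + 2 * ∑ k ∈ Finset.Icc 1 (⌈α * Y⌉₊ + 1),
        ∑ j ∈ S, ∑ i ∈ S, h i * h j * (if nr α N k i j then 1 else 0)) := by
    have e1 : ∀ i ∈ S, ∑ j ∈ S, (C1 * h i) * (C1 * h j) * ((if i = j then 1 else 0) +
      ∑ k ∈ Finset.Icc 1 (⌈α * Y⌉₊ + 1), ((if nr α N k i j then (1:ℝ) else 0) + (if nr α N k j i then 1 else 0))) =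
      C1^2 * ((h i)^2 + ∑ j ∈ S, ∑ k ∈ Finset.Icc 1 (⌈α * Y⌉₊ + 1),
        (h i * h j * (if nr α N k i j then 1 else 0) + h i * h j * (if nr α N k j i then 1 else 0))) := by
      intro i hi
      have e2 : (h i)^2 = ∑ j ∈ S, h i * h j * (if i = j then 1 else 0) := by
        simp only [mul_ite, mul_one, mul_zero]
        rw [Finset.sum_ite_eq, if_pos hi]; ring
      rw [e2, ← Finset.sum_add_distrib, Finset.mul_sum]
      apply Finset.sum_congr rfl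
      intro j _
      rw [mul_add, Finset.mul_sum, mul_add, Finset.mul_sum]
      congr 1
      · ring
      · apply Finset.sum_congr rfl
        intro k _
        ring
    rw [Finset.sum_congr rfl e1, ← Finset.mul_sum, Finset.sum_add_distrib]
    congr 2
    have e3 : ∑ i ∈ S, ∑ j ∈ S, ∑ k ∈ Finset.Icc 1 (⌈α * Y⌉₊ + 1),
        (h i * h j * (if nr α N k i j then 1 else 0) + h i * h j * (if nr α N k j i then 1 else 0)) =
        ∑ k ∈ Finset.Icc 1 (⌈α * Y⌉₊ + 1), (∑ i ∈ S, ∑ j ∈ S, h i * h j * (if nr α N k i j then 1 else 0) +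
          ∑ i ∈ S, ∑ j ∈ S, h i * h j * (if nr α N k j i then 1 else 0)) := by
      rw [Finset.sum_congr rfl (fun i _ => Finset.sum_comm), Finset.sum_comm]
      apply Finset.sum_congr rfl
      intro k _
      rw [← Finset.sum_add_distrib]
      apply Finset.sum_congr rfl
      intro i _
      rw [← Finset.sum_add_distrib]
    rw [e3, Finset.mul_sum]
    apply Finset.sum_congr rfl
    intro k _
    have e4 : ∑ i ∈ S, ∑ j ∈ S, h i * h j * (if nr α N k i j then (1:ℝ) else 0) =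
        ∑ j ∈ S, ∑ i ∈ S, h i * h j * (if nr α N k i j then 1 else 0) := Finset.sum_comm
    have e5 : ∑ i ∈ S, ∑ j ∈ S, h i * h j * (if nr α N k j i then (1:ℝ) else 0) =
        ∑ j ∈ S, ∑ i ∈ S, h i * h j * (if nr α N k i j then 1 else 0) := by
      apply Finset.sum_congr rfl
      intro i _
      apply Finset.sum_congr rfl
      intro j _
      ring
    rw [e4, e5]; ring
  -- diagonal
  have s3 : ∑ i ∈ S, (h i)^2 ≤ 3 * T := by
    refine (block_sum M Y _ (fun j => by positivity)).trans ?_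
    rw [hT, Finset.mul_sum]
    apply Finset.sum_le_sum
    intro q hq
    rw [Finset.mem_Icc] at hq
    have hq1 : 1 ≤ q := by omega
    have hq' : (1:ℝ) ≤ q := by exact_mod_cast hq1
    have hq0 : (0:ℝ) < q := by linarith
    have hb : ∀ j ∈ Finset.Ico (q^2) ((q+1)^2), (h j)^2 ≤ (q:ℝ) ^ (-(74/25):ℝ) := by
      intro j hj
      have hjq := (sqrt_block hj).1
      have h1 : h j ≤ (q:ℝ) ^ (-(37/25):ℝ) := by
        refine (hf_anti hδ0 hq0 hjq).trans ?_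
        unfold hf
        have : min 1 ((δ * q) ^ (-(3/2):ℝ)) ≤ 1 := min_le_left _ _
        have h2 : (0:ℝ) ≤ (q:ℝ) ^ (-(37/25):ℝ) := by positivity
        nlinarith
      calc (h j)^2 ≤ ((q:ℝ) ^ (-(37/25):ℝ))^2 := pow_le_pow_left₀ (hh0 j) h1 2
        _ = _ := by rw [← Real.rpow_natCast, ← Real.rpow_mul hq0.le]; norm_num
    calc ∑ j ∈ Finset.Ico (q^2) ((q+1)^2), (h j)^2 ≤ ∑ j ∈ Finset.Ico (q^2) ((q+1)^2), (q:ℝ) ^ (-(74/25):ℝ) :=
          Finset.sum_le_sum hb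
      _ = (2 * q + 1) * (q:ℝ) ^ (-(74/25):ℝ) := by
          rw [Finset.sum_const, Nat.card_Ico, nsmul_eq_mul]
          congr 1
          have : (q+1)^2 - q^2 = 2 * q + 1 := by
            have : (q+1)^2 = q^2 + (2 * q + 1) := by ring
            omega
          rw [this]; push_cast; ring
      _ ≤ (3 * q) * (q:ℝ) ^ (-(74/25):ℝ) := by
          apply mul_le_mul_of_nonneg_right _ (by positivity); linarith
      _ = 3 * ((q:ℝ) ^ (1:ℝ) * (q:ℝ) ^ (-(74/25):ℝ)) := by rw [Real.rpow_one]; ring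
      _ = 3 * (q:ℝ) ^ (-(49/25):ℝ) := by rw [← Real.rpow_add hq0]; norm_num
      _ ≤ 3 * (q:ℝ) ^ (-(101/100):ℝ) := by
          apply mul_le_mul_of_nonneg_left _ (by norm_num)
          exact Real.rpow_le_rpow_of_exponent_le hq' (by norm_num)
  -- off diagonal
  have s4 : ∀ k ∈ Finset.Icc 1 (⌈α * Y⌉₊ + 1), ∑ j ∈ S, ∑ i ∈ S, h i * h j * (if nr α N k i j then 1 else 0) ≤
      64 * C2 * (k/α : ℝ) ^ (-(101/100):ℝ) * T := by
    intro k hk
    rw [Finset.mem_Icc] at hk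
    have hk' : (1:ℝ) ≤ k := by exact_mod_cast hk.1
    have hκ : (0:ℝ) < k/α := by positivity
    refine (one_k hα hN1 hN2 hk.1 hM hY hδ0).trans ?_
    rw [hT, Finset.mul_sum]
    apply Finset.sum_le_sum
    intro q hq
    rw [Finset.mem_Icc] at hq
    have hq1 : 1 ≤ q := by omega
    have hq' : (1:ℝ) ≤ q := by exact_mod_cast hq1
    have hq0 : (0:ℝ) < q := by linarith
    have h1 := hnc N k q hN1 hk.1 hq1
    have h2 := pw (N := N) (q := q) (κ := k/α) hNp hq' hκ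
    rw [← hδ] at h2
    have hH0 : 0 ≤ hf δ (q:ℝ) * hf δ (q + k/α) :=
      mul_nonneg (hf_nonneg hδ0 hq0) (hf_nonneg hδ0 (by positivity))
    set H := hf δ (q:ℝ) * hf δ (q + k/α) with hH
    calc _ ≤ 16 * H * (C2 * (((k/α) ^ (1/3:ℝ) + q * (q + k/α) / N) * (1 + √((q:ℝ)^3 * (q + k/α) / ((k/α) * N))))) :=
          mul_le_mul_of_nonneg_left h1 (by positivity)
      _ = 16 * C2 * ((((k/α) ^ (1/3:ℝ) + q * (q + k/α) / N) * (1 + √((q:ℝ)^3 * (q + k/α) / ((k/α) * N)))) * H) := by ring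
      _ ≤ 16 * C2 * (4 * ((k/α) ^ (-(101/100):ℝ) * q ^ (-(101/100):ℝ))) :=
          mul_le_mul_of_nonneg_left h2 (by positivity)
      _ = _ := by ring
  have s5 : ∑ k ∈ Finset.Icc 1 (⌈α * Y⌉₊ + 1), (k/α : ℝ) ^ (-(101/100):ℝ) ≤ α ^ (101/100:ℝ) * Z := by
    have e : ∀ k ∈ Finset.Icc 1 (⌈α * Y⌉₊ + 1), (k/α : ℝ) ^ (-(101/100):ℝ) = α ^ (101/100:ℝ) * (k:ℝ) ^ (-(101/100):ℝ) := by
      intro k _
      rw [Real.div_rpow (by positivity) hα.le, Real.rpow_neg hα.le, div_inv_eq_mul, mul_comm]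
    rw [Finset.sum_congr rfl e, ← Finset.mul_sum]
    apply mul_le_mul_of_nonneg_left _ (by positivity)
    exact summable_101.sum_le_tsum _ (fun k _ => by positivity)
  calc _ ≤ _ := s1
    _ = _ := s2
    _ ≤ C1^2 * (3 * T + 2 * (64 * C2 * (α ^ (101/100:ℝ) * Z) * T)) := by
        have a1 : ∑ k ∈ Finset.Icc 1 (⌈α * Y⌉₊ + 1), ∑ j ∈ S, ∑ i ∈ S, h i * h j * (if nr α N k i j then 1 else 0) ≤
            64 * C2 * (α ^ (101/100:ℝ) * Z) * T := by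
          calc _ ≤ ∑ k ∈ Finset.Icc 1 (⌈α * Y⌉₊ + 1), 64 * C2 * (k/α : ℝ) ^ (-(101/100):ℝ) * T :=
                Finset.sum_le_sum s4
            _ = 64 * C2 * (∑ k ∈ Finset.Icc 1 (⌈α * Y⌉₊ + 1), (k/α : ℝ) ^ (-(101/100):ℝ)) * T := by
                rw [← Finset.sum_mul, ← Finset.mul_sum]
            _ ≤ _ := by
                apply mul_le_mul_of_nonneg_right _ hT0
                apply mul_le_mul_of_nonneg_left s5 (by positivity)
        apply mul_le_mul_of_nonneg_left _ (by positivity)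
        linarith
    _ = _ := by ring


/-- mean square of the tail of a general sum -/
lemma D_ms_gen {α : ℝ} (hα : 0 < α) {C1 : ℝ} (hC1 : 0 < C1) : ∃ C : ℝ, 0 < C ∧ ∃ N0 : ℕ, ∀ (N : ℕ) (b : ℕ → ℂ) (M Y : ℕ),
    N0 ≤ N → 1 ≤ M → 2 * (Y:ℝ) ≤ α * N → (∀ m, 1 ≤ m → ‖b m‖ ≤ C1 * hf ((N:ℝ) ^ (-(25/48):ℝ)) (√(m:ℝ))) →
    ∑ n ∈ Finset.range N, ‖∑ m ∈ Finset.Ioc (M^2) (Y^2), b m *
      Complex.exp (((2 * Real.pi * (n * (α * √(m:ℝ))) : ℝ) : ℂ) * Complex.I)‖^2 ≤ C * N * Tl M := by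
  obtain ⟨C, hC, N0, h⟩ := quad_tail_gen hα hC1
  refine ⟨8 * C, by positivity, N0 + 1, ?_⟩
  intro N b M Y hN hM hY hb
  have hN1 : 1 ≤ N := by omega
  have h1 := h N b M Y (by omega) hM hY hb
  have h2 := ls (Finset.Ioc (M^2) (Y^2)) b (fun m => α * √(m:ℝ)) hN1
  calc ∑ n ∈ Finset.range N, ‖∑ m ∈ Finset.Ioc (M^2) (Y^2), b m *
      Complex.exp (((2 * Real.pi * (n * (α * √(m:ℝ))) : ℝ) : ℂ) * Complex.I)‖^2
      ≤ ∑ n ∈ Finset.range (N+1), ‖∑ m ∈ Finset.Ioc (M^2) (Y^2), b m *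
      Complex.exp (((2 * Real.pi * (n * (α * √(m:ℝ))) : ℝ) : ℂ) * Complex.I)‖^2 := by
        apply Finset.sum_le_sum_of_subset_of_nonneg
        · exact Finset.range_subset_range.mpr (by omega)
        · intro _ _ _; positivity
    _ ≤ _ := h2
    _ ≤ 8 * N * (C * Tl M) := by
        apply mul_le_mul_of_nonneg_left _ (by positivity)
        exact h1.trans (mul_le_mul_of_nonneg_left (sum_le_Tl M Y) hC.le)
    _ = _ := by ring

end Pool.Agent.H383.Gauss
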