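import Mathlib
import Pool.Agent.H383.Riesz2

open MeasureTheory Filter Topology
open Pool.Agent.H383.AP

namespace Pool.Agent.H383.Gauss

lemma rA_prime_ge {p : ℕ} (hp : p.Prime) (h4 : p % 4 = 1) : 1 ≤ rA p := by
  have : Fact p.Prime := ⟨hp⟩
  obtain ⟨a, b, hab⟩ := Nat.Prime.sq_add_sq (p := p) (by omega)
  unfold rA
  have h1 : (⟨(a:ℤ), (b:ℤ)⟩ : GaussianInt) ∈ A p := by
    rw [mem_A, norm_eq]
    simp only
    exact_mod_cast hab
  have h2 : 0 < (A p).ncard := (Set.ncard_pos (A_finite p)).mpr ⟨_, h1⟩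
  exact_mod_cast h2

lemma cq_nonneg (m : ℕ) : 0 ≤ cq m := by
  unfold cq
  have := rA_nonneg m
  positivity

theorem cq_div (F : Finset ℕ) (G : ℝ) : ∃ Q : Finset ℕ, (∀ q ∈ Q, q.Prime) ∧ Disjoint F Q ∧ G ≤ ∑ q ∈ Q, cq q := by
  classical
  by_contra hcon
  push Not at hcon
  set f : ℕ → ℝ := fun n => if n.Prime ∧ n ∉ F then cq n else 0 with hf
  have hf0 : ∀ n, 0 ≤ f n := by
    intro n
    simp only [hf]
    split_ifs
    · exact cq_nonneg n
    · exact le_rfl
  have hsum : Summable f := by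
    apply summable_of_sum_le (c := G) hf0
    intro u
    have h1 := hcon (u.filter (fun n => n.Prime ∧ n ∉ F)) (by
      intro q hq
      exact (Finset.mem_filter.mp hq).2.1) (by
      rw [Finset.disjoint_right]
      intro q hq
      exact (Finset.mem_filter.mp hq).2.2)
    simp only [hf]
    rw [← Finset.sum_filter]
    exact h1.le
  have hunit : IsUnit ((1 : ZMod 4)) := isUnit_one
  apply ArithmeticFunction.vonMangoldt.not_summable_residueClass_prime_div hunit
  -- comparison
  have hsum2 : Summable (fun n : ℕ => 4 * Real.pi * f n + (if n ∈ F then ((1:ℝ) + Real.log n) else 0)) := by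
    apply Summable.add (hsum.mul_left _)
    apply summable_of_ne_finset_zero (s := F)
    intro n hn
    rw [if_neg hn]
  apply Summable.of_nonneg_of_le _ _ hsum2
  · intro n
    split_ifs
    · exact div_nonneg (ArithmeticFunction.vonMangoldt.residueClass_nonneg _ n) (Nat.cast_nonneg n)
    · simp
  · intro n
    have hpi := Real.pi_pos
    by_cases hp : n.Prime
    · rw [if_pos hp]
      have hn0 : (0:ℝ) < n := by exact_mod_cast hp.pos
      have hn1 : (1:ℝ) ≤ n := by exact_mod_cast hp.one_lt.le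
      have hlog : 0 ≤ Real.log n := Real.log_nonneg hn1
      unfold ArithmeticFunction.vonMangoldt.residueClass
      rw [Set.indicator_apply]
      by_cases hc : n ∈ {n : ℕ | (n : ZMod 4) = 1}
      · rw [if_pos hc, ArithmeticFunction.vonMangoldt_apply_prime hp]
        have h4 : n % 4 = 1 := by
          have h5 : ((n:ℕ) : ZMod 4) = ((1:ℕ) : ZMod 4) := by simpa using hc
          rw [ZMod.natCast_eq_natCast_iff] at h5
          exact h5
        by_cases hF : n ∈ F
        · rw [if_pos hF]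
          have h6 := hf0 n
          have h7 : Real.log n / n ≤ Real.log n := div_le_self hlog hn1
          have h8 : 0 ≤ 4 * Real.pi * f n := by positivity
          linarith
        · rw [if_neg hF, add_zero]
          have h6 : f n = cq n := by simp only [hf]; rw [if_pos ⟨hp, hF⟩]
          rw [h6]
          unfold cq
          have h7 := rA_prime_ge hp h4
          have h8 : (√(n:ℝ)) ^ (-(3/2):ℝ) = (n:ℝ) ^ (-(3/4):ℝ) := by
            rw [Real.sqrt_eq_rpow, ← Real.rpow_mul hn0.le]; norm_num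
          have h9 : Real.log n / n ≤ 4 * (n:ℝ) ^ (-(3/4):ℝ) := by
            have h10 := Real.log_le_rpow_div hn0.le (by norm_num : (0:ℝ) < 1/4)
            have h11 : (n:ℝ) ^ (-(3/4):ℝ) = (n:ℝ) ^ (1/4:ℝ) / n := by
              rw [eq_div_iff hn0.ne']
              calc (n:ℝ) ^ (-(3/4):ℝ) * n = (n:ℝ) ^ (-(3/4):ℝ) * (n:ℝ) ^ (1:ℝ) := by rw [Real.rpow_one]
                _ = _ := by rw [← Real.rpow_add hn0]; norm_num
            rw [h11, mul_div_assoc']
            apply div_le_div_of_nonneg_right _ hn0.le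
            linarith
          rw [h8]
          calc Real.log n / n ≤ 4 * (n:ℝ) ^ (-(3/4):ℝ) := h9
            _ ≤ 4 * (rA n * (n:ℝ) ^ (-(3/4):ℝ)) := by
                have : 0 ≤ (n:ℝ) ^ (-(3/4):ℝ) := by positivity
                nlinarith
            _ = _ := by field_simp
      · rw [if_neg hc, zero_div]
        have h6 := hf0 n
        split_ifs <;> positivity
    · rw [if_neg hp, zero_div]
      have h6 := hf0 n
      split_ifs
      · rcases Nat.eq_zero_or_pos n with rfl | hn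
        · simp only [Nat.cast_zero, Real.log_zero]; positivity
        · have hn1 : (1:ℝ) ≤ n := by exact_mod_cast hn
          have hlog : 0 ≤ Real.log n := Real.log_nonneg hn1
          positivity
      · positivity

open Classical in
/-- positive density from correlation -/
lemma dens_of_corr {e κ : ℕ → ℝ} {A B K : ℝ} (hA : 0 < A) (hB : 0 < B) (hK : 0 ≤ K)
    (hA' : ∀ N, rm (fun n => (e n)^2) N ≤ A) (hκ0 : ∀ n, 0 ≤ κ n) (hκB : ∀ n, κ n ≤ B)
    (hκ : ∃ N0, ∀ N, N0 ≤ N → rm κ N ≤ 2) (hc : ∃ N0, ∀ N, N0 ≤ N → 2 * K + 2 ≤ rm (fun n => e n * κ n) N) :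
    ∃ c : ℝ, 0 < c ∧ ∃ N0 : ℕ, ∀ N : ℕ, N0 ≤ N → c * N ≤ (((Finset.range N).filter (fun n => K < e n)).card : ℝ) := by
  obtain ⟨N1, h1⟩ := hκ
  obtain ⟨N2, h2⟩ := hc
  refine ⟨1 / (A * B^2), by positivity, max N1 N2 + 1, ?_⟩
  intro N hN
  have a1 := h1 N (by omega)
  have a2 := h2 N (by omega)
  have hN0 : (0:ℝ) < N := by exact_mod_cast (by omega : 0 < N)
  set D : ℝ := (((Finset.range N).filter (fun n => K < e n)).card : ℝ) with hD
  have hpt : ∀ n, e n * κ n ≤ K * κ n + ((1/(2*A)) * (e n)^2 + (A * B^2/2) * (if K < e n then 1 else 0)) := by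
    intro n
    have k0 := hκ0 n
    have kB := hκB n
    have q1 : 0 ≤ (1/(2*A)) * (e n)^2 := by positivity
    split_ifs with h
    · have h3 : 0 ≤ (e n - A * B)^2 / (2 * A) := by positivity
      have h4 : (e n - A * B)^2 / (2 * A) = (1/(2*A)) * (e n)^2 - e n * B + A * B^2/2 := by
        field_simp; ring
      have h5 : e n * κ n ≤ e n * B := mul_le_mul_of_nonneg_left kB (by linarith)
      have h6 : 0 ≤ K * κ n := mul_nonneg hK k0
      linarith
    · push Not at h
      have h5 : e n * κ n ≤ K * κ n := mul_le_mul_of_nonneg_right h k0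
      linarith
  have h3 := rm_mono hpt N
  rw [rm_add (fun n => K * κ n) (fun n => (1/(2*A)) * (e n)^2 + (A * B^2/2) * (if K < e n then 1 else 0)), rm_mul,
    rm_add (fun n => (1/(2*A)) * (e n)^2) (fun n => (A * B^2/2) * (if K < e n then 1 else 0)), rm_mul, rm_mul] at h3
  have h4 : rm (fun n => if K < e n then (1:ℝ) else 0) N = D / N := by
    unfold rm
    rw [← Finset.sum_filter, Finset.sum_const, nsmul_eq_mul, mul_one]
  rw [h4] at h3
  have h5 := hA' N
  have h6 : (1/(2*A)) * rm (fun n => (e n)^2) N ≤ 1/2 := by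
    calc (1/(2*A)) * rm (fun n => (e n)^2) N ≤ (1/(2*A)) * A := mul_le_mul_of_nonneg_left h5 (by positivity)
      _ = 1/2 := by field_simp
  have h7 : K * rm κ N ≤ K * 2 := mul_le_mul_of_nonneg_left a1 hK
  have h8 : 3/2 ≤ (A * B^2/2) * (D / N) := by linarith
  rw [mul_div_assoc', le_div_iff₀ hN0] at h8
  rw [div_mul_eq_mul_div, div_le_iff₀ (by positivity)]
  nlinarith

open Classical in
/-- large values of both signs with positive density -/
theorem omega {α : ℝ} (hα : 0 < α) (X : ℝ) (σ : ℝ) (hσ : σ = 1 ∨ σ = -1) {K : ℝ} (hK : 0 ≤ K) :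
    ∃ c : ℝ, 0 < c ∧ ∃ N0 : ℕ, ∀ N : ℕ, N0 ≤ N →
      c * N ≤ (((Finset.range N).filter (fun n : ℕ => K < σ * En (X + n * α))).card : ℝ) := by
  obtain ⟨F, hF⟩ := exists_F α
  set Gs : ℝ := ∑' m, |gt α X m| with hGs
  have hgs : Summable (fun m => |gt α X m|) := (gt_summable hα X).abs
  obtain ⟨Q, hQ, hd, hG⟩ := cq_div F (2 * (Gs + 2 * K + 4))
  -- phase
  obtain ⟨φ, hφ⟩ : ∃ φ : ℝ, Real.sin (φ - Real.pi/4) = σ := by
    rcases hσ with rfl | rfl
    · exact ⟨Real.pi/4 + Real.pi/2, by rw [add_sub_cancel_left, Real.sin_pi_div_two]⟩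
    · exact ⟨Real.pi/4 + -(Real.pi/2), by rw [add_sub_cancel_left, Real.sin_neg, Real.sin_pi_div_two]⟩
  have hσ2 : σ * σ = 1 := by rcases hσ with rfl | rfl <;> norm_num
  have hσabs : |σ| = 1 := by rcases hσ with rfl | rfl <;> simp
  set κ := Kr α X φ Q with hκ
  set B : ℝ := 2 ^ Q.card with hB
  have hB0 : 0 < B := by positivity
  obtain ⟨A, hA0, hA⟩ := (En_B2 hα X).sq_bdd
  have hA1 : ∀ N, rm (fun n : ℕ => (σ * En (X + n * α))^2) N ≤ A + 1 := by
    intro N
    have e : (fun n : ℕ => (σ * En (X + n * α))^2) = fun n : ℕ => (En (X + n * α))^2 := by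
      funext n; rw [mul_pow, sq σ, hσ2, one_mul]
    rw [e]; have := hA N; linarith
  apply dens_of_corr (A := A + 1) (B := B) (by linarith) hB0 hK hA1 (Kr_nonneg α X φ Q) (Kr_le α X φ Q)
  · -- mean of κ
    have h1 : HasMean (fun n : ℕ => ((κ n : ℝ) : ℂ)) 1 := by
      have h2 := Trig_hasMean (Kp_trig α X φ Q)
      have h3 : mn (Kp α X φ Q) = 1 := by
        have := kk_zero_zero (X := X) (φ := φ) hα hF hQ hd
        unfold kk at this
        rw [chr_zero, one_mul] at this
        exact this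
      rw [h3] at h2
      have e : Kp α X φ Q = fun n : ℕ => ((κ n : ℝ) : ℂ) := by funext n; exact Kp_real α X φ Q n
      rw [← e]; exact h2
    unfold HasMean at h1
    have e : cm (fun n : ℕ => ((κ n : ℝ) : ℂ)) = fun N => ((rm κ N : ℝ) : ℂ) := by
      funext N; exact cm_ofReal _ N
    rw [e] at h1
    have h4 := (Complex.continuous_re.tendsto _).comp h1
    rw [Complex.one_re] at h4
    have h5 : Tendsto (rm κ) atTop (𝓝 1) := h4
    have h6 := h5.eventually (gt_mem_nhds (by norm_num : (1:ℝ) < 2))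
    rw [eventually_atTop] at h6
    obtain ⟨N0, hN0⟩ := h6
    exact ⟨N0, fun N hN => (hN0 N hN).le⟩
  · -- correlation
    obtain ⟨C, hC, hb⟩ := b2' hα
    have h1 : Tendsto (fun M => C * Tl M) atTop (𝓝 0) := by
      have := Tl_tendsto.const_mul C
      rwa [mul_zero] at this
    set η : ℝ := (1/(2*B))^2 / 2 with hη
    have hη0 : 0 < η := by positivity
    have hmax : ∀ᶠ M : ℕ in atTop, ∀ q ∈ Q, q ≤ M^2 := by
      filter_upwards [eventually_ge_atTop (Q.sup id + 1)] with M hM q hq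
      have h2 : q ≤ Q.sup id := Finset.le_sup (f := id) hq
      nlinarith
    obtain ⟨M, ⟨hM1, hM2⟩, hM3⟩ := (((h1.eventually (gt_mem_nhds hη0)).and (eventually_ge_atTop 1)).and hmax).exists
    obtain ⟨N1, hN1⟩ := hb X M hM2 η hη0
    have hcorr := V_corr (X := X) (φ := φ) hα hF hQ hd hM3
    unfold HasMean at hcorr
    have e : cm (fun n : ℕ => ((V (X + n * α) 0 M * Kr α X φ Q n : ℝ) : ℂ)) =
        fun N => ((rm (fun n : ℕ => V (X + n * α) 0 M * Kr α X φ Q n) N : ℝ) : ℂ) := by
      funext N; exact cm_ofReal _ N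
    rw [e] at hcorr
    have h4 := (Complex.continuous_re.tendsto _).comp hcorr
    rw [Complex.ofReal_re] at h4
    have h5 : Tendsto (rm (fun n : ℕ => V (X + n * α) 0 M * κ n)) atTop
        (𝓝 (∑ m ∈ Finset.Icc 1 (M^2), gt α X m + (1/2) * Real.sin (φ - Real.pi/4) * ∑ q ∈ Q, cq q)) := h4
    rw [hφ] at h5
    have h6 := h5.const_mul σ
    have hgsum : |∑ m ∈ Finset.Icc 1 (M^2), gt α X m| ≤ Gs := by
      refine (Finset.abs_sum_le_sum_abs _ _).trans ?_
      exact hgs.sum_le_tsum _ (fun m _ => abs_nonneg _)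
    have h7 : 2 * K + 7/2 < σ * (∑ m ∈ Finset.Icc 1 (M^2), gt α X m + (1/2) * σ * ∑ q ∈ Q, cq q) := by
      have h8 : -Gs ≤ σ * ∑ m ∈ Finset.Icc 1 (M^2), gt α X m := by
        have h9 : |σ * ∑ m ∈ Finset.Icc 1 (M^2), gt α X m| ≤ Gs := by
          rw [abs_mul, hσabs, one_mul]; exact hgsum
        exact (abs_le.mp h9).1
      have h10 : σ * (∑ m ∈ Finset.Icc 1 (M^2), gt α X m + (1/2) * σ * ∑ q ∈ Q, cq q) =
          σ * ∑ m ∈ Finset.Icc 1 (M^2), gt α X m + (1/2) * (σ * σ) * ∑ q ∈ Q, cq q := by ring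
      rw [h10, hσ2]
      linarith
    have h11 := h6.eventually (lt_mem_nhds h7)
    rw [eventually_atTop] at h11
    obtain ⟨N2, hN2⟩ := h11
    refine ⟨max N1 N2, ?_⟩
    intro N hN
    have b1 := hN1 N (by omega)
    have b2 := hN2 N (by omega)
    have b3 : rm (fun n : ℕ => |En (X + n * α) - V (X + n * α) 0 M|) N ≤ 1/(2*B) := by
      apply rm_abs_le (by positivity)
      linarith
    have b4 : σ * rm (fun n : ℕ => V (X + n * α) 0 M * κ n) N ≤
        rm (fun n : ℕ => σ * En (X + n * α) * κ n) N + B * rm (fun n : ℕ => |En (X + n * α) - V (X + n * α) 0 M|) N := by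
      rw [← rm_mul, ← rm_mul, ← rm_add]
      apply rm_mono
      intro n
      have c1 := Kr_nonneg α X φ Q n
      have c2 := Kr_le α X φ Q n
      have c3 : σ * (V (X + n * α) 0 M * κ n) - σ * En (X + n * α) * κ n ≤
          B * |En (X + n * α) - V (X + n * α) 0 M| := by
        have c4 : σ * (V (X + n * α) 0 M * κ n) - σ * En (X + n * α) * κ n =
            (-σ * (En (X + n * α) - V (X + n * α) 0 M)) * κ n := by ring
        rw [c4]
        refine (le_abs_self _).trans ?_
        rw [abs_mul, abs_mul, abs_neg, hσabs, one_mul, abs_of_nonneg c1, mul_comm]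
        exact mul_le_mul_of_nonneg_right c2 (abs_nonneg _)
      linarith
    have b5 : B * rm (fun n : ℕ => |En (X + n * α) - V (X + n * α) 0 M|) N ≤ 1/2 := by
      calc _ ≤ B * (1/(2*B)) := mul_le_mul_of_nonneg_left b3 hB0.le
        _ = 1/2 := by field_simp
    linarith

end Pool.Agent.H383.Gauss
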