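import Mathlib
import Pool.Agent.H383.GenQ
import Pool.Agent.H383.Omega

open MeasureTheory Filter Topology
open Pool.Agent.H383.AP Pool.Agent.H383.Gauss

namespace Pool.Agent.H383.Gen

/-- the general model polynomial -/
noncomputable def U (a : ℕ → ℝ) (φ R : ℝ) (M : ℕ) : ℝ :=
  ∑ m ∈ Finset.Icc 1 (M^2), a m * Real.cos (2 * Real.pi * (R * √(m:ℝ)) - φ)

/-- complex coefficients -/
noncomputable def ac (a : ℕ → ℝ) (φ X : ℝ) (m : ℕ) : ℂ :=
  (a m : ℂ) * Complex.exp (((2 * Real.pi * (X * √(m:ℝ)) - φ : ℝ) : ℂ) * Complex.I)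

lemma ac_re (a : ℕ → ℝ) (φ X : ℝ) (m : ℕ) : (ac a φ X m).re = a m * Real.cos (2 * Real.pi * (X * √(m:ℝ)) - φ) := by
  unfold ac
  rw [Complex.re_ofReal_mul, Complex.exp_ofReal_mul_I_re]

lemma norm_ac (a : ℕ → ℝ) (φ X : ℝ) (m : ℕ) : ‖ac a φ X m‖ = |a m| := by
  unfold ac
  rw [norm_mul, Complex.norm_exp_ofReal_mul_I, mul_one, Complex.norm_real, Real.norm_eq_abs]

lemma ac_shift (a : ℕ → ℝ) (φ X α : ℝ) (m n : ℕ) : ac a φ (X + n * α) m = ac a φ X m * chr (α * √(m:ℝ)) n := by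
  unfold ac chr
  rw [mul_assoc ((a m : ℝ) : ℂ), ← Complex.exp_add]
  congr 2
  push_cast; ring

lemma U_eq_re (a : ℕ → ℝ) (φ X α : ℝ) (M n : ℕ) :
    U a φ (X + n * α) M = (∑ m ∈ Finset.Icc 1 (M^2), ac a φ X m * chr (α * √(m:ℝ)) n).re := by
  unfold U
  rw [Complex.re_sum]
  apply Finset.sum_congr rfl
  intro m _
  rw [← ac_shift, ac_re]

lemma U_trig (a : ℕ → ℝ) (φ α X : ℝ) (M : ℕ) : (fun n : ℕ => ((U a φ (X + n * α) M : ℝ) : ℂ)) =
    ∑ m ∈ Finset.Icc 1 (M^2), ((ac a φ X m / 2) • chr (α * √(m:ℝ)) +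
      ((starRingEnd ℂ) (ac a φ X m) / 2) • chr (-(α * √(m:ℝ)))) := by
  funext n
  rw [U_eq_re, Finset.sum_apply]
  set z := ∑ m ∈ Finset.Icc 1 (M^2), ac a φ X m * chr (α * √(m:ℝ)) n with hz
  have h1 : (z.re : ℂ) = (z + (starRingEnd ℂ) z) / 2 := by
    rw [Complex.add_conj]
    push_cast
    ring
  rw [h1, hz, map_sum, ← Finset.sum_add_distrib, Finset.sum_div]
  apply Finset.sum_congr rfl
  intro m _
  simp only [Pi.add_apply, Pi.smul_apply, smul_eq_mul]
  rw [← chr_conj, map_mul]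
  ring

lemma U_mem_Trig (a : ℕ → ℝ) (φ α X : ℝ) (M : ℕ) : (fun n : ℕ => ((U a φ (X + n * α) M : ℝ) : ℂ)) ∈ Trig := by
  rw [U_trig]
  apply Submodule.sum_mem
  intro m _
  exact Trig.add_mem (Trig.smul_mem _ (chr_mem _)) (Trig.smul_mem _ (chr_mem _))

open Classical in
/-- the resonant terms -/
noncomputable def rt (a : ℕ → ℝ) (φ α X : ℝ) (m : ℕ) : ℝ := if ∃ k : ℤ, α * √(m:ℝ) = k then
  a m * Real.cos (2 * Real.pi * (X * √(m:ℝ)) - φ) else 0

lemma U_mean (a : ℕ → ℝ) (φ α X : ℝ) (M : ℕ) : HasMean (fun n : ℕ => ((U a φ (X + n * α) M : ℝ) : ℂ))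
    ((∑ m ∈ Finset.Icc 1 (M^2), rt a φ α X m : ℝ) : ℂ) := by
  rw [U_trig]
  have h := HasMean.sum (Finset.Icc 1 (M^2)) (fun m => ((ac a φ X m / 2) • chr (α * √(m:ℝ)) +
      ((starRingEnd ℂ) (ac a φ X m) / 2) • chr (-(α * √(m:ℝ)))))
      (fun m => ((rt a φ α X m : ℝ) : ℂ)) ?_
  · push_cast
    exact h
  · intro m _
    have h1 := ((chr_mean (α * √(m:ℝ))).smul (ac a φ X m / 2)).add
      ((chr_mean (-(α * √(m:ℝ)))).smul ((starRingEnd ℂ) (ac a φ X m) / 2))
    have h2 : ac a φ X m / 2 * mc (α * √(m:ℝ)) +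
        (starRingEnd ℂ) (ac a φ X m) / 2 * mc (-(α * √(m:ℝ))) = ((rt a φ α X m : ℝ) : ℂ) := by
      rw [mc_neg]
      have h3 : ac a φ X m / 2 * mc (α * √(m:ℝ)) +
        (starRingEnd ℂ) (ac a φ X m) / 2 * mc (α * √(m:ℝ)) =
        ((ac a φ X m + (starRingEnd ℂ) (ac a φ X m)) / 2) * mc (α * √(m:ℝ)) := by ring
      rw [h3, Complex.add_conj, ac_re]
      unfold mc rt
      split_ifs with hk
      · push_cast
        ring
      · simp
    rw [← h2]
    exact h1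

/-- coefficient bound -/
def Bd (a : ℕ → ℝ) : Prop := ∃ C : ℝ, 0 < C ∧ ∀ m : ℕ, 1 ≤ m → |a m| ≤ C * (√(m:ℝ)) ^ (-(37/25):ℝ)

lemma rt_summable {a : ℕ → ℝ} (ha : Bd a) (ha0 : a 0 = 0) {φ α : ℝ} (hα : 0 < α) (X : ℝ) : Summable (rt a φ α X) := by
  classical
  obtain ⟨C, hC, hr⟩ := ha
  set S : Set ℕ := {m | ∃ k : ℤ, α * √(m:ℝ) = k} with hS
  have h1 : rt a φ α X = S.indicator (fun m => a m *
      Real.cos (2 * Real.pi * (X * √(m:ℝ)) - φ)) := by
    funext m
    rw [Set.indicator_apply]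
    unfold rt
    simp only [hS, Set.mem_ofPred_eq]
  rw [h1, ← summable_subtype_iff_indicator]
  have hk : ∀ m ∈ S, ((⌊α * √(m:ℝ)⌋₊ : ℕ) : ℝ) = α * √(m:ℝ) := by
    intro m hm
    obtain ⟨k, hk⟩ := hm
    have h0 : (0:ℝ) ≤ k := by rw [← hk]; positivity
    have h0' : 0 ≤ k := by exact_mod_cast h0
    rw [hk]
    have : ((k.toNat : ℕ) : ℝ) = (k:ℝ) := by
      have : ((k.toNat : ℕ) : ℤ) = k := Int.toNat_of_nonneg h0'
      exact_mod_cast this
    rw [← this, Nat.floor_natCast]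
  have hinj : Function.Injective (fun m : S => ⌊α * √((m:ℕ):ℝ)⌋₊) := by
    intro a b hab
    simp only at hab
    have h2 : α * √((a:ℕ):ℝ) = α * √((b:ℕ):ℝ) := by
      rw [← hk a a.2, ← hk b b.2, hab]
    have h3 := mul_left_cancel₀ hα.ne' h2
    have h4 : ((a:ℕ):ℝ) = ((b:ℕ):ℝ) := by
      have e1 := Real.sq_sqrt (Nat.cast_nonneg (α := ℝ) (a:ℕ))
      have e2 := Real.sq_sqrt (Nat.cast_nonneg (α := ℝ) (b:ℕ))
      rw [← e1, ← e2, h3]
    exact Subtype.ext (by exact_mod_cast h4)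
  have hsum : Summable (fun k : ℕ => (k:ℝ) ^ (-(37/25):ℝ)) := by
    rw [Real.summable_nat_rpow]; norm_num
  have hs2 := (hsum.comp_injective hinj).mul_left (C * α ^ (37/25:ℝ))
  apply Summable.of_norm_bounded hs2
  intro m
  simp only [Function.comp_apply]
  rw [hk m m.2, Real.norm_eq_abs]
  rcases Nat.eq_zero_or_pos (m:ℕ) with h0 | h0
  · rw [h0, ha0]
    simp only [Nat.cast_zero, Real.sqrt_zero, mul_zero, zero_mul, abs_zero]
    positivity
  · have hm0 : (0:ℝ) < ((m:ℕ):ℝ) := by exact_mod_cast h0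
    have hs : 0 < √((m:ℕ):ℝ) := Real.sqrt_pos.mpr hm0
    set s := √((m:ℕ):ℝ) with hsd
    have hrm := hr m h0
    have hcos := Real.abs_cos_le_one (2 * Real.pi * (X * s) - φ)
    rw [abs_mul]
    calc |a m| * |Real.cos (2 * Real.pi * (X * s) - φ)|
        ≤ |a m| * 1 := by gcongr
      _ ≤ C * s ^ (-(37/25):ℝ) := by rw [mul_one]; exact hrm
      _ = C * (α ^ (37/25:ℝ) * α ^ (-(37/25):ℝ)) * s ^ (-(37/25):ℝ) := by
          rw [← Real.rpow_add hα]; norm_num
      _ = _ := by rw [Real.mul_rpow hα.le hs.le]; ring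

/-- approximation in mean square by the model polynomials -/
def Ap (a : ℕ → ℝ) (φ : ℝ) (e : ℕ → ℝ) (α X : ℝ) : Prop := ∀ η : ℝ, 0 < η → ∃ M0 : ℕ, ∀ M : ℕ, M0 ≤ M →
  ∃ N0 : ℕ, ∀ N : ℕ, N0 ≤ N → rm (fun n => (e n - U a φ (X + n * α) M)^2) N ≤ η

variable {a : ℕ → ℝ} {φ α X : ℝ} {e : ℕ → ℝ}

lemma Ap.b2 (h : Ap a φ e α X) : B2 e := by
  intro η hη
  obtain ⟨M0, hM⟩ := h η hη
  obtain ⟨N0, hN⟩ := hM M0 le_rfl
  exact ⟨_, U_mem_Trig a φ α X M0, N0, hN⟩

theorem Ap.mean (h : Ap a φ e α X) (ha : Bd a) (ha0 : a 0 = 0) (hα : 0 < α) :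
    Tendsto (rm e) atTop (𝓝 (∑' m, rt a φ α X m)) := by
  obtain ⟨μ, hμ2, hμ⟩ := h.b2.limit
  have h1 := hμ (fun x => x) continuous_id ⟨1, fun x => by
    rw [one_mul]
    have := sq_nonneg (|x| - 1)
    rw [← sq_abs x]
    nlinarith [abs_nonneg x]⟩
  set L := ∫ x, x ∂(μ : Measure ℝ) with hL
  have hLmean : HasMean (fun n : ℕ => ((e n : ℝ) : ℂ)) (L : ℂ) := by
    unfold HasMean
    have : cm (fun n : ℕ => ((e n : ℝ) : ℂ)) = fun N => ((rm (fun n : ℕ => e n) N : ℝ) : ℂ) := by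
      funext N; exact cm_ofReal _ N
    rw [this]
    exact (Complex.continuous_ofReal.tendsto L).comp h1
  have hlim : Tendsto (fun M : ℕ => ∑ m ∈ Finset.Icc 1 (M^2), rt a φ α X m) atTop (𝓝 (∑' m, rt a φ α X m)) := by
    have h2 := (rt_summable (φ := φ) ha ha0 hα X).hasSum.tendsto_sum_nat
    have h3 : Tendsto (fun M : ℕ => M^2 + 1) atTop atTop := by
      apply tendsto_atTop_mono (f := fun M => M) _ tendsto_id
      intro M; nlinarith
    refine (h2.comp h3).congr ?_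
    intro M
    simp only [Function.comp_apply]
    have h4 : Finset.range (M^2+1) = insert 0 (Finset.Icc 1 (M^2)) := by
      ext m; simp only [Finset.mem_range, Finset.mem_insert, Finset.mem_Icc]; omega
    rw [h4, Finset.sum_insert (by simp)]
    have h5 : rt a φ α X 0 = 0 := by
      unfold rt
      rw [ha0]
      simp
    rw [h5, zero_add]
  have hclose : ∀ η : ℝ, 0 < η → ∀ᶠ M : ℕ in atTop, |L - ∑ m ∈ Finset.Icc 1 (M^2), rt a φ α X m| ≤ √η := by
    intro η hη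
    obtain ⟨M0, hM0⟩ := h η hη
    filter_upwards [eventually_ge_atTop M0] with M hM
    obtain ⟨N0, hN0⟩ := hM0 M hM
    have h6 := mean_close (η := √η) hLmean (U_mean a φ α X M) ⟨N0, fun N hN => by
      refine (norm_cm_sub_le _ _ N).trans ?_
      have h7 : rm (fun n => ‖((e n : ℝ) : ℂ) - ((U a φ (X + n * α) M : ℝ) : ℂ)‖) N =
          rm (fun n => |e n - U a φ (X + n * α) M|) N := by
        congr 1
        funext n
        rw [← Complex.ofReal_sub, Complex.norm_real, Real.norm_eq_abs]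
      rw [h7]
      apply rm_abs_le (Real.sqrt_pos.mpr hη)
      rw [Real.sq_sqrt hη.le]
      exact hN0 N hN⟩
    rw [← Complex.ofReal_sub, Complex.norm_real, Real.norm_eq_abs] at h6
    exact h6
  have hLe : L = ∑' m, rt a φ α X m := by
    have h8 : Tendsto (fun M : ℕ => |L - ∑ m ∈ Finset.Icc 1 (M^2), rt a φ α X m|) atTop (𝓝 |L - ∑' m, rt a φ α X m|) :=
      (tendsto_const_nhds.sub hlim).abs
    have h9 : ∀ η : ℝ, 0 < η → |L - ∑' m, rt a φ α X m| ≤ √η := by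
      intro η hη
      exact le_of_tendsto h8 (hclose η hη)
    have h11 : |L - ∑' m, rt a φ α X m| ≤ 0 := by
      apply le_of_forall_pos_le_add
      intro ε hε
      have := h9 (ε^2) (by positivity)
      rw [Real.sqrt_sq hε.le] at this
      linarith
    have := abs_eq_zero.mp (le_antisymm h11 (abs_nonneg _))
    linarith
  rw [← hLe]
  exact h1

variable {F Q : Finset ℕ} {ψ : ℝ}

open Classical in
/-- correlation of the approximants with the Riesz product -/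
theorem U_corr (hα : 0 < α) (hF : GoodF α F) (hQ : ∀ q ∈ Q, q.Prime) (hd : Disjoint F Q) {M : ℕ}
    (hM : ∀ q ∈ Q, q ≤ M^2) :
    HasMean (fun n : ℕ => ((U a φ (X + n * α) M * Kr α X ψ Q n : ℝ) : ℂ))
      ((∑ m ∈ Finset.Icc 1 (M^2), rt a φ α X m + (1/2) * Real.cos (ψ - φ) * ∑ q ∈ Q, a q : ℝ) : ℂ) := by
  have hK := Kp_trig α X ψ Q
  have e0 : (fun n : ℕ => ((U a φ (X + n * α) M * Kr α X ψ Q n : ℝ) : ℂ)) =
      ∑ m ∈ Finset.Icc 1 (M^2), ((ac a φ X m / 2) • (chr (α * √(m:ℝ)) * Kp α X ψ Q) +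
      ((starRingEnd ℂ) (ac a φ X m) / 2) • (chr (-(α * √(m:ℝ))) * Kp α X ψ Q)) := by
    have e1 : (fun n : ℕ => ((U a φ (X + n * α) M * Kr α X ψ Q n : ℝ) : ℂ)) =
        (fun n : ℕ => ((U a φ (X + n * α) M : ℝ) : ℂ)) * Kp α X ψ Q := by
      funext n
      rw [Pi.mul_apply, Kp_real]; push_cast; rfl
    rw [e1, U_trig, Finset.sum_mul]
    apply Finset.sum_congr rfl
    intro m _
    rw [add_mul, smul_mul_assoc, smul_mul_assoc]
  rw [e0]
  have hterm : ∀ m ∈ Finset.Icc 1 (M^2), HasMean ((ac a φ X m / 2) • (chr (α * √(m:ℝ)) * Kp α X ψ Q) +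
      ((starRingEnd ℂ) (ac a φ X m) / 2) • (chr (-(α * √(m:ℝ))) * Kp α X ψ Q))
      ((rt a φ α X m + (if m ∈ Q then (1/2) * Real.cos (ψ - φ) * a m else 0) : ℝ) : ℂ) := by
    intro m hm
    rw [Finset.mem_Icc] at hm
    have h1 := ((Trig_hasMean (Trig_mul (chr_mem (α * √(m:ℝ))) hK)).smul (ac a φ X m / 2)).add
      ((Trig_hasMean (Trig_mul (chr_mem (-(α * √(m:ℝ)))) hK)).smul ((starRingEnd ℂ) (ac a φ X m) / 2))
    have h2 : ac a φ X m / 2 * kk α X ψ Q (α * √(m:ℝ)) +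
        (starRingEnd ℂ) (ac a φ X m) / 2 * kk α X ψ Q (-(α * √(m:ℝ))) =
        ((rt a φ α X m + (if m ∈ Q then (1/2) * Real.cos (ψ - φ) * a m else 0) : ℝ) : ℂ) := by
      by_cases hmQ : m ∈ Q
      · have hnr := q_not_res hα hF (hQ m hmQ) (fun h => (Finset.disjoint_left.mp hd h) hmQ)
        obtain ⟨k1, k2⟩ := kk_q (X := X) (φ := ψ) hα hF hQ hd hmQ
        rw [k1, k2, if_pos hmQ]
        have hg : rt a φ α X m = 0 := by unfold rt; rw [if_neg hnr]
        rw [hg, zero_add]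
        have h3 : ac a φ X m / 2 * (starRingEnd ℂ) (Aq X ψ m) +
            (starRingEnd ℂ) (ac a φ X m) / 2 * Aq X ψ m =
            ((ac a φ X m * (starRingEnd ℂ) (Aq X ψ m)).re : ℂ) := by
          have h4 := Complex.add_conj (ac a φ X m * (starRingEnd ℂ) (Aq X ψ m))
          rw [map_mul, Complex.conj_conj] at h4
          have h5 : ((ac a φ X m * (starRingEnd ℂ) (Aq X ψ m)).re : ℂ) =
              (ac a φ X m * (starRingEnd ℂ) (Aq X ψ m) + (starRingEnd ℂ) (ac a φ X m) * Aq X ψ m) / 2 := by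
            rw [h4]; push_cast; ring
          rw [h5]; ring
        rw [h3]
        congr 1
        unfold Aq ac
        rw [map_mul, ← Complex.exp_conj, map_mul, Complex.conj_ofReal, Complex.conj_I]
        have h6 : (starRingEnd ℂ) (1/2 : ℂ) = ((1/2:ℝ):ℂ) := by
          rw [show (1/2:ℂ) = ((1/2:ℝ):ℂ) by push_cast; ring, Complex.conj_ofReal]
        rw [h6]
        have h7 : ((a m : ℝ) : ℂ) *
            Complex.exp (((2 * Real.pi * (X * √(m:ℝ)) - φ : ℝ) : ℂ) * Complex.I) *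
            (((1/2:ℝ):ℂ) * Complex.exp (((2 * Real.pi * (X * √(m:ℝ)) - ψ : ℝ) : ℂ) * -Complex.I)) =
            ((a m * (1/2) : ℝ) : ℂ) *
            Complex.exp (((ψ - φ : ℝ) : ℂ) * Complex.I) := by
          have h8 : Complex.exp (((2 * Real.pi * (X * √(m:ℝ)) - φ : ℝ) : ℂ) * Complex.I) *
              Complex.exp (((2 * Real.pi * (X * √(m:ℝ)) - ψ : ℝ) : ℂ) * -Complex.I) =
              Complex.exp (((ψ - φ : ℝ) : ℂ) * Complex.I) := by
            rw [← Complex.exp_add]; congr 1; push_cast; ring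
          rw [← h8]; push_cast; ring
        rw [h7, Complex.re_ofReal_mul, Complex.exp_ofReal_mul_I_re]
        ring
      · rw [if_neg hmQ, add_zero]
        by_cases hres : ∃ k : ℤ, α * √(m:ℝ) = k
        · rw [kk_int hα hF hQ hd hres, kk_int hα hF hQ hd (θ := -(α * √(m:ℝ))) (by
            obtain ⟨k, hk⟩ := hres
            exact ⟨-k, by push_cast; linarith⟩)]
          have h3 : ac a φ X m / 2 * 1 + (starRingEnd ℂ) (ac a φ X m) / 2 * 1 =
            ((ac a φ X m + (starRingEnd ℂ) (ac a φ X m)) / 2) := by ring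
          rw [h3, Complex.add_conj, ac_re]
          unfold rt
          rw [if_pos hres]
          push_cast
          ring
        · have k1 := kk_other (X := X) (φ := ψ) hα hF hQ hd hm.1 hmQ hres 1 (Or.inl rfl)
          have k2 := kk_other (X := X) (φ := ψ) hα hF hQ hd hm.1 hmQ hres (-1) (Or.inr rfl)
          have e1 : α * (((1:ℤ):ℝ) * √(m:ℝ)) = α * √(m:ℝ) := by push_cast; ring
          have e2 : α * (((-1:ℤ):ℝ) * √(m:ℝ)) = -(α * √(m:ℝ)) := by push_cast; ring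
          rw [e1] at k1
          rw [e2] at k2
          rw [k1, k2]
          unfold rt
          rw [if_neg hres]
          simp
    rw [← h2]
    exact h1
  have h3 := HasMean.sum _ _ _ hterm
  have h4 : ∑ m ∈ Finset.Icc 1 (M^2), ((rt a φ α X m + (if m ∈ Q then (1/2) * Real.cos (ψ - φ) * a m else 0) : ℝ) : ℂ) =
      ((∑ m ∈ Finset.Icc 1 (M^2), rt a φ α X m + (1/2) * Real.cos (ψ - φ) * ∑ q ∈ Q, a q : ℝ) : ℂ) := by
    rw [← Complex.ofReal_sum]
    congr 1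
    rw [Finset.sum_add_distrib, ← Finset.sum_filter, Finset.mul_sum]
    congr 1
    apply Finset.sum_congr _ (fun _ _ => rfl)
    ext q
    rw [Finset.mem_filter, Finset.mem_Icc]
    constructor
    · exact fun h => h.2
    · exact fun h => ⟨⟨(hQ q h).one_lt.le, hM q h⟩, h⟩
  rw [h4] at h3
  exact h3

/-- the coefficients at primes have unbounded sums -/
def Dv (a : ℕ → ℝ) : Prop := ∀ (F : Finset ℕ) (G : ℝ), ∃ Q : Finset ℕ, (∀ q ∈ Q, q.Prime) ∧ Disjoint F Q ∧ G ≤ ∑ q ∈ Q, a q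

open Classical in
/-- large values of both signs with positive density -/
theorem Ap.omega (h : Ap a φ e α X) (ha : Bd a) (ha0 : a 0 = 0) (hdv : Dv a) (hα : 0 < α)
    (σ : ℝ) (hσ : σ = 1 ∨ σ = -1) {K : ℝ} (hK : 0 ≤ K) :
    ∃ c : ℝ, 0 < c ∧ ∃ N0 : ℕ, ∀ N : ℕ, N0 ≤ N →
      c * N ≤ (((Finset.range N).filter (fun n : ℕ => K < σ * e n)).card : ℝ) := by
  obtain ⟨F, hF⟩ := exists_F α
  set Gs : ℝ := ∑' m, |rt a φ α X m| with hGs
  have hgs : Summable (fun m => |rt a φ α X m|) := (rt_summable ha ha0 hα X).abs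
  obtain ⟨Q, hQ, hd, hG⟩ := hdv F (2 * (Gs + 2 * K + 4))
  -- phase
  obtain ⟨ψ, hψ⟩ : ∃ ψ : ℝ, Real.cos (ψ - φ) = σ := by
    rcases hσ with rfl | rfl
    · exact ⟨φ, by rw [sub_self, Real.cos_zero]⟩
    · exact ⟨φ + Real.pi, by rw [add_sub_cancel_left, Real.cos_pi]⟩
  have hσ2 : σ * σ = 1 := by rcases hσ with rfl | rfl <;> norm_num
  have hσabs : |σ| = 1 := by rcases hσ with rfl | rfl <;> simp
  set κ := Kr α X ψ Q with hκ
  set B : ℝ := 2 ^ Q.card with hB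
  have hB0 : 0 < B := by positivity
  obtain ⟨A, hA0, hA⟩ := h.b2.sq_bdd
  have hA1 : ∀ N, rm (fun n : ℕ => (σ * e n)^2) N ≤ A + 1 := by
    intro N
    have e : (fun n : ℕ => (σ * e n)^2) = fun n : ℕ => (e n)^2 := by
      funext n; rw [mul_pow, sq σ, hσ2, one_mul]
    rw [e]; have := hA N; linarith
  apply dens_of_corr (A := A + 1) (B := B) (by linarith) hB0 hK hA1 (Kr_nonneg α X ψ Q) (Kr_le α X ψ Q)
  · -- mean of κ
    have h1 : HasMean (fun n : ℕ => ((κ n : ℝ) : ℂ)) 1 := by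
      have h2 := Trig_hasMean (Kp_trig α X ψ Q)
      have h3 : mn (Kp α X ψ Q) = 1 := by
        have := kk_zero_zero (X := X) (φ := ψ) hα hF hQ hd
        unfold kk at this
        rw [chr_zero, one_mul] at this
        exact this
      rw [h3] at h2
      have e : Kp α X ψ Q = fun n : ℕ => ((κ n : ℝ) : ℂ) := by funext n; exact Kp_real α X ψ Q n
      rw [← e]; exact h2
    unfold HasMean at h1
    have e : cm (fun n : ℕ => ((κ n : ℝ) : ℂ)) = fun N => ((rm κ N : ℝ) : ℂ) := by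
      funext N; exact cm_ofReal _ N
    rw [e] at h1
    have h4 := (Complex.continuous_re.tendsto _).comp h1
    rw [Complex.one_re] at h4
    have h5 : Tendsto (rm κ) atTop (𝓝 1) := h4
    have h6 := h5.eventually (gt_mem_nhds (by norm_num : (1:ℝ) < 2))
    rw [eventually_atTop] at h6
    obtain ⟨N0, hN0⟩ := h6
    exact ⟨N0, fun N hN => (hN0 N hN).le⟩
  · -- correlation
    set η : ℝ := (1/(2*B))^2 with hη
    have hη0 : 0 < η := by positivity
    obtain ⟨M0, hM0⟩ := h η hη0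
    have hmax : ∀ᶠ M : ℕ in atTop, ∀ q ∈ Q, q ≤ M^2 := by
      filter_upwards [eventually_ge_atTop (Q.sup id + 1)] with M hM q hq
      have h2 : q ≤ Q.sup id := Finset.le_sup (f := id) hq
      nlinarith
    obtain ⟨M, hM1, hM3⟩ := ((eventually_ge_atTop M0).and hmax).exists
    obtain ⟨N1, hN1⟩ := hM0 M hM1
    have hcorr := U_corr (a := a) (φ := φ) (X := X) (ψ := ψ) hα hF hQ hd hM3
    unfold HasMean at hcorr
    have e' : cm (fun n : ℕ => ((U a φ (X + n * α) M * Kr α X ψ Q n : ℝ) : ℂ)) =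
        fun N => ((rm (fun n : ℕ => U a φ (X + n * α) M * Kr α X ψ Q n) N : ℝ) : ℂ) := by
      funext N; exact cm_ofReal _ N
    rw [e'] at hcorr
    have h4 := (Complex.continuous_re.tendsto _).comp hcorr
    rw [Complex.ofReal_re] at h4
    have h5 : Tendsto (rm (fun n : ℕ => U a φ (X + n * α) M * κ n)) atTop
        (𝓝 (∑ m ∈ Finset.Icc 1 (M^2), rt a φ α X m + (1/2) * Real.cos (ψ - φ) * ∑ q ∈ Q, a q)) := h4
    rw [hψ] at h5
    have h6 := h5.const_mul σ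
    have hgsum : |∑ m ∈ Finset.Icc 1 (M^2), rt a φ α X m| ≤ Gs := by
      refine (Finset.abs_sum_le_sum_abs _ _).trans ?_
      exact hgs.sum_le_tsum _ (fun m _ => abs_nonneg _)
    have h7 : 2 * K + 7/2 < σ * (∑ m ∈ Finset.Icc 1 (M^2), rt a φ α X m + (1/2) * σ * ∑ q ∈ Q, a q) := by
      have h8 : -Gs ≤ σ * ∑ m ∈ Finset.Icc 1 (M^2), rt a φ α X m := by
        have h9 : |σ * ∑ m ∈ Finset.Icc 1 (M^2), rt a φ α X m| ≤ Gs := by
          rw [abs_mul, hσabs, one_mul]; exact hgsum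
        exact (abs_le.mp h9).1
      have h10 : σ * (∑ m ∈ Finset.Icc 1 (M^2), rt a φ α X m + (1/2) * σ * ∑ q ∈ Q, a q) =
          σ * ∑ m ∈ Finset.Icc 1 (M^2), rt a φ α X m + (1/2) * (σ * σ) * ∑ q ∈ Q, a q := by ring
      rw [h10, hσ2]
      linarith
    have h11 := h6.eventually (lt_mem_nhds h7)
    rw [eventually_atTop] at h11
    obtain ⟨N2, hN2⟩ := h11
    refine ⟨max N1 N2, ?_⟩
    intro N hN
    have b1 := hN1 N (by omega)
    have b2 := hN2 N (by omega)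
    have b3 : rm (fun n : ℕ => |e n - U a φ (X + n * α) M|) N ≤ 1/(2*B) := by
      apply rm_abs_le (by positivity)
      exact b1
    have b4 : σ * rm (fun n : ℕ => U a φ (X + n * α) M * κ n) N ≤
        rm (fun n : ℕ => σ * e n * κ n) N + B * rm (fun n : ℕ => |e n - U a φ (X + n * α) M|) N := by
      rw [← rm_mul, ← rm_mul, ← rm_add]
      apply rm_mono
      intro n
      have c1 := Kr_nonneg α X ψ Q n
      have c2 := Kr_le α X ψ Q n
      have c3 : σ * (U a φ (X + n * α) M * κ n) - σ * e n * κ n ≤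
          B * |e n - U a φ (X + n * α) M| := by
        have c4 : σ * (U a φ (X + n * α) M * κ n) - σ * e n * κ n =
            (-σ * (e n - U a φ (X + n * α) M)) * κ n := by ring
        rw [c4]
        refine (le_abs_self _).trans ?_
        rw [abs_mul, abs_mul, abs_neg, hσabs, one_mul, abs_of_nonneg c1, mul_comm]
        exact mul_le_mul_of_nonneg_right c2 (abs_nonneg _)
      linarith
    have b5 : B * rm (fun n : ℕ => |e n - U a φ (X + n * α) M|) N ≤ 1/2 := by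
      calc _ ≤ B * (1/(2*B)) := mul_le_mul_of_nonneg_left b3 hB0.le
        _ = 1/2 := by field_simp
    linarith

end Pool.Agent.H383.Gen
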