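import Mathlib
import Pool.Agent.H383.Exc
import Pool.Agent.H383.Gen

open Filter Topology
open Pool.Agent.H383.AP Pool.Agent.H383.Gauss

namespace Pool.Agent.H383.Gen

lemma inC_unique {s s' m : ℕ} (hs : Squarefree s) (hs' : Squarefree s') (hm : 1 ≤ m) (h : InC s m) (h' : InC s' m) :
    s = s' := by
  obtain ⟨t, ht⟩ := h
  obtain ⟨t', ht'⟩ := h'
  have hs0 : s ≠ 0 := hs.ne_zero
  have hs0' : s' ≠ 0 := hs'.ne_zero
  have ht0 : t ≠ 0 := by rintro rfl; simp at ht; omega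
  have ht0' : t' ≠ 0 := by rintro rfl; simp at ht'; omega
  apply Nat.eq_of_factorization_eq hs0 hs0'
  intro p
  have h1 : m.factorization p = s.factorization p + 2 * t.factorization p := by
    rw [ht, Nat.factorization_mul hs0 (by positivity), Nat.factorization_pow]; simp
  have h2 : m.factorization p = s'.factorization p + 2 * t'.factorization p := by
    rw [ht', Nat.factorization_mul hs0' (by positivity), Nat.factorization_pow]; simp
  have h3 := hs.natFactorization_le_one p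
  have h4 := hs'.natFactorization_le_one p
  omega

/-- partial model sums -/
noncomputable def ST (a : ℕ → ℝ) (φ α X : ℝ) (T : Finset ℕ) (n : ℕ) : ℝ :=
  ∑ m ∈ T, a m * Real.cos (2 * Real.pi * ((X + n * α) * √(m:ℝ)) - φ)

lemma ST_U (a : ℕ → ℝ) (φ α X : ℝ) (M n : ℕ) : ST a φ α X (Finset.Icc 1 (M^2)) n = U a φ (X + n * α) M := rfl

lemma ST_trig (a : ℕ → ℝ) (φ α X : ℝ) (T : Finset ℕ) : (fun n : ℕ => ((ST a φ α X T n : ℝ) : ℂ)) =
    ∑ m ∈ T, ((ac a φ X m / 2) • chr (α * √(m:ℝ)) +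
      ((starRingEnd ℂ) (ac a φ X m) / 2) • chr (-(α * √(m:ℝ)))) := by
  funext n
  have h0 : ST a φ α X T n = (∑ m ∈ T, ac a φ X m * chr (α * √(m:ℝ)) n).re := by
    unfold ST
    rw [Complex.re_sum]
    apply Finset.sum_congr rfl
    intro m _
    rw [← ac_shift, ac_re]
  rw [h0, Finset.sum_apply]
  set z := ∑ m ∈ T, ac a φ X m * chr (α * √(m:ℝ)) n with hz
  have h1 : (z.re : ℂ) = (z + (starRingEnd ℂ) z) / 2 := by
    rw [Complex.add_conj]
    push_cast
    ring
  rw [h1, hz, map_sum, ← Finset.sum_add_distrib, Finset.sum_div]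
  apply Finset.sum_congr rfl
  intro m _
  simp only [Pi.add_apply, Pi.smul_apply, smul_eq_mul]
  rw [← chr_conj, map_mul]
  ring

variable {a : ℕ → ℝ} {φ α X : ℝ}

lemma ST_mem {T : Finset ℕ} {Γ : AddSubgroup ℝ} (h : ∀ m ∈ T, α * √(m:ℝ) ∈ Γ) :
    (fun n : ℕ => ((ST a φ α X T n : ℝ) : ℂ)) ∈ TG Γ := by
  rw [ST_trig]
  apply Submodule.sum_mem
  intro m hm
  exact (TG Γ).add_mem ((TG Γ).smul_mem _ (chr_mem_TG (h m hm)))
    ((TG Γ).smul_mem _ (chr_mem_TG (Γ.neg_mem (h m hm))))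

lemma inC_Gs {s m : ℕ} (h : InC s m) : α * √(m:ℝ) ∈ Gs α s := by
  obtain ⟨t, rfl⟩ := h
  unfold Gs
  rw [AddSubgroup.mem_zmultiples_iff]
  refine ⟨t, ?_⟩
  push_cast
  rw [Real.sqrt_mul (Nat.cast_nonneg s), Real.sqrt_sq (Nat.cast_nonneg t), zsmul_eq_mul]
  push_cast; ring

lemma not_inC_Gr {s m : ℕ} (hm : 1 ≤ m) (h : ¬ InC s m) : α * √(m:ℝ) ∈ Gr α s :=
  AddSubgroup.subset_closure ⟨m, hm, h, rfl⟩

/-- exponentials -/
noncomputable def ex (a : ℕ → ℝ) (φ α X : ℝ) (z : ℂ) (T : Finset ℕ) : ℕ → ℂ :=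
  fun n => Complex.exp (z * ((ST a φ α X T n : ℝ) : ℂ))

lemma ex_mem {T : Finset ℕ} {Γ : AddSubgroup ℝ} (h : ∀ m ∈ T, α * √(m:ℝ) ∈ Γ) (z : ℂ) :
    ex a φ α X z T ∈ UC Γ := UC_exp (ST_mem h) z

open Classical in
lemma ex_split (z : ℂ) (T : Finset ℕ) (p : ℕ → Prop) :
    ex a φ α X z T = ex a φ α X z (T.filter p) * ex a φ α X z (T.filter (fun m => ¬ p m)) := by
  funext n
  rw [Pi.mul_apply]
  unfold ex
  rw [← Complex.exp_add, ← mul_add, ← Complex.ofReal_add]
  congr 3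
  unfold ST
  rw [Finset.sum_filter_add_sum_filter_not]

open Classical in
theorem prod_formula {S0 : Finset ℕ} (hS : GoodS α S0) (z : ℂ) {T : Finset ℕ} (hT : ∀ m ∈ T, 1 ≤ m)
    (Q : Finset ℕ) (hQ : ∀ s ∈ Q, Squarefree s ∧ s ∉ S0) :
    mn (ex a φ α X z T) = (∏ s ∈ Q, mn (ex a φ α X z (T.filter (InC s)))) *
      mn (ex a φ α X z (T.filter (fun m => ∀ s ∈ Q, ¬ InC s m))) := by
  induction Q using Finset.induction_on with
  | empty =>
    have e : T.filter (fun m => ∀ s ∈ (∅ : Finset ℕ), ¬ InC s m) = T := by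
      apply Finset.filter_true_of_mem
      intro m _ s hs
      simp at hs
    rw [Finset.prod_empty, one_mul, e]
  | insert s Q hs ih =>
    have ih' := ih (fun s' hs' => hQ s' (Finset.mem_insert_of_mem hs'))
    obtain ⟨hsf, hs0⟩ := hQ s (Finset.mem_insert_self s Q)
    rw [ih', Finset.prod_insert hs]
    set T' := T.filter (fun m => ∀ s ∈ Q, ¬ InC s m) with hT'
    have e1 : T'.filter (InC s) = T.filter (InC s) := by
      ext m
      rw [Finset.mem_filter, hT', Finset.mem_filter, Finset.mem_filter]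
      constructor
      · rintro ⟨⟨h1, -⟩, h2⟩; exact ⟨h1, h2⟩
      · rintro ⟨h1, h2⟩
        refine ⟨⟨h1, fun s' hs' hc => ?_⟩, h2⟩
        have := inC_unique hsf (hQ s' (Finset.mem_insert_of_mem hs')).1 (hT m h1) h2 hc
        exact hs (this ▸ hs')
    have e2 : T'.filter (fun m => ¬ InC s m) = T.filter (fun m => ∀ s' ∈ insert s Q, ¬ InC s' m) := by
      ext m
      rw [Finset.mem_filter, hT', Finset.mem_filter, Finset.mem_filter]
      constructor
      · rintro ⟨⟨h1, h2⟩, h3⟩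
        refine ⟨h1, fun s' hs' => ?_⟩
        rw [Finset.mem_insert] at hs'
        rcases hs' with rfl | hs'
        · exact h3
        · exact h2 s' hs'
      · rintro ⟨h1, h2⟩
        exact ⟨⟨h1, fun s' hs' => h2 s' (Finset.mem_insert_of_mem hs')⟩, h2 s (Finset.mem_insert_self s Q)⟩
    have h1 : mn (ex a φ α X z T') = mn (ex a φ α X z (T.filter (InC s))) *
        mn (ex a φ α X z (T.filter (fun m => ∀ s' ∈ insert s Q, ¬ InC s' m))) := by
      rw [ex_split z T' (InC s), e1, e2]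
      apply mn_mul (ind_of_good hS hsf hs0)
      · apply ex_mem
        intro m hm
        exact inC_Gs (Finset.mem_filter.mp hm).2
      · apply ex_mem
        intro m hm
        rw [Finset.mem_filter] at hm
        exact not_inC_Gr (hT m hm.1) (hm.2 s (Finset.mem_insert_self s Q))
    rw [h1]; ring

end Pool.Agent.H383.Gen
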