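import Mathlib
import Pool.Agent.H383.Blk

open Filter Topology
open Pool.Agent.H383.AP Pool.Agent.H383.Gauss

namespace Pool.Agent.H383.Gen

variable {a : ℕ → ℝ} {φ α X : ℝ} {S0 T : Finset ℕ} {s : ℕ}

/-- the sum of the absolute values of the coefficients -/
noncomputable def bT (a : ℕ → ℝ) (T : Finset ℕ) : ℝ := ∑ m ∈ T, |a m|

/-- the variance -/
noncomputable def vT (a : ℕ → ℝ) (T : Finset ℕ) : ℝ := (1/2) * ∑ m ∈ T, (a m)^2

lemma bT_nonneg : 0 ≤ bT a T := Finset.sum_nonneg (fun _ _ => abs_nonneg _)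

lemma vT_nonneg : 0 ≤ vT a T := by unfold vT; positivity

lemma vT_le : vT a T ≤ (bT a T)^2 := by
  have h1 : ∑ m ∈ T, (a m)^2 ≤ (bT a T)^2 := by
    unfold bT
    have : ∀ m ∈ T, (a m)^2 ≤ |a m| * ∑ m ∈ T, |a m| := by
      intro m hm
      rw [← sq_abs, sq]
      apply mul_le_mul_of_nonneg_left _ (abs_nonneg _)
      exact Finset.single_le_sum (f := fun m => |a m|) (fun i _ => abs_nonneg _) hm
    refine (Finset.sum_le_sum this).trans ?_
    rw [← Finset.sum_mul, sq]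
  unfold vT
  have : 0 ≤ ∑ m ∈ T, (a m)^2 := by positivity
  linarith

lemma abs_ST_le (n : ℕ) : |ST a φ α X T n| ≤ bT a T := by
  unfold ST bT
  refine (Finset.abs_sum_le_sum_abs _ _).trans ?_
  apply Finset.sum_le_sum
  intro m _
  rw [abs_mul]
  exact mul_le_of_le_one_right (abs_nonneg _) (Real.abs_cos_le_one _)

lemma nonres (hS : GoodS α S0) (hs : Squarefree s) (hs0 : s ∉ S0) {c : ℤ} (hc : c ≠ 0) :
    ¬ ∃ k : ℤ, c * (α * √(s:ℝ)) = k := by
  rintro ⟨k, hk⟩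
  exact hc (hS s hs hs0 c 0 (Gr α s).zero_mem ⟨k, by rw [add_zero]; exact hk⟩)

/-- the terms -/
noncomputable def Fm (a : ℕ → ℝ) (φ α X : ℝ) (m : ℕ) : ℕ → ℂ := (ac a φ X m / 2) • chr (α * √(m:ℝ)) +
      ((starRingEnd ℂ) (ac a φ X m) / 2) • chr (-(α * √(m:ℝ)))

lemma mc_zero_of {θ : ℝ} (h : ¬ ∃ k : ℤ, θ = k) : mc θ = 0 := by
  unfold mc; rw [if_neg h]

lemma Fm_mean (hS : GoodS α S0) (hs : Squarefree s) (hs0 : s ∉ S0) {m : ℕ} (hm : 1 ≤ m) (hc : InC s m) :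
    HasMean (Fm a φ α X m) 0 := by
  obtain ⟨t, ht⟩ := hc
  have ht0 : (t:ℤ) ≠ 0 := by
    intro h
    have : t = 0 := by exact_mod_cast h
    rw [this] at ht; simp at ht; omega
  have e : α * √(m:ℝ) = (t:ℤ) * (α * √(s:ℝ)) := by
    rw [ht]; push_cast
    rw [Real.sqrt_mul (Nat.cast_nonneg s), Real.sqrt_sq (Nat.cast_nonneg t)]; ring
  have h1 := nonres hS hs hs0 ht0
  have h2 := nonres hS hs hs0 (neg_ne_zero.mpr ht0)
  have h3 := ((chr_mean (α * √(m:ℝ))).smul (ac a φ X m / 2)).add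
      ((chr_mean (-(α * √(m:ℝ)))).smul ((starRingEnd ℂ) (ac a φ X m) / 2))
  rw [mc_zero_of (θ := α * √(m:ℝ)) (by rw [e]; exact h1),
    mc_zero_of (θ := -(α * √(m:ℝ))) (by
      rw [e]
      have : -(((t:ℤ):ℝ) * (α * √(s:ℝ))) = ((-(t:ℤ) : ℤ) : ℝ) * (α * √(s:ℝ)) := by push_cast; ring
      rw [this]; exact h2)] at h3
  unfold Fm
  simpa using h3

lemma Fm_mul_mean (hS : GoodS α S0) (hs : Squarefree s) (hs0 : s ∉ S0) {m m' : ℕ} (hm : 1 ≤ m) (hc : InC s m)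
    (hm' : 1 ≤ m') (hc' : InC s m') :
    HasMean (Fm a φ α X m * Fm a φ α X m') (if m = m' then (((1/2) * (a m)^2 : ℝ) : ℂ) else 0) := by
  obtain ⟨t, ht⟩ := hc
  obtain ⟨t', ht'⟩ := hc'
  have ht0 : 0 < t := by
    rcases Nat.eq_zero_or_pos t with h | h
    · rw [h] at ht; simp at ht; omega
    · exact h
  have ht0' : 0 < t' := by
    rcases Nat.eq_zero_or_pos t' with h | h
    · rw [h] at ht'; simp at ht'; omega
    · exact h
  have e : α * √(m:ℝ) = t * (α * √(s:ℝ)) := by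
    rw [ht]; push_cast
    rw [Real.sqrt_mul (Nat.cast_nonneg s), Real.sqrt_sq (Nat.cast_nonneg t)]; ring
  have e' : α * √(m':ℝ) = t' * (α * √(s:ℝ)) := by
    rw [ht']; push_cast
    rw [Real.sqrt_mul (Nat.cast_nonneg s), Real.sqrt_sq (Nat.cast_nonneg t')]; ring
  set A := ac a φ X m with hA
  set A' := ac a φ X m' with hA'
  have hexp : Fm a φ α X m * Fm a φ α X m' =
      ((A * A' / 4) • chr (α * √(m:ℝ) + α * √(m':ℝ)) +
      (A * (starRingEnd ℂ) A' / 4) • chr (α * √(m:ℝ) + -(α * √(m':ℝ)))) +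
      (((starRingEnd ℂ) A * A' / 4) • chr (-(α * √(m:ℝ)) + α * √(m':ℝ)) +
      ((starRingEnd ℂ) A * (starRingEnd ℂ) A' / 4) • chr (-(α * √(m:ℝ)) + -(α * √(m':ℝ)))) := by
    unfold Fm
    rw [← chr_mul, ← chr_mul, ← chr_mul, ← chr_mul]
    funext n
    simp only [Pi.add_apply, Pi.mul_apply, Pi.smul_apply, smul_eq_mul]
    ring
  rw [hexp]
  have c1 : mc (α * √(m:ℝ) + α * √(m':ℝ)) = 0 := by
    apply mc_zero_of
    have h1 := nonres hS hs hs0 (c := (t:ℤ) + t') (by positivity)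
    rw [e, e']
    have : (t:ℝ) * (α * √(s:ℝ)) + t' * (α * √(s:ℝ)) = (((t:ℤ) + t' : ℤ) : ℝ) * (α * √(s:ℝ)) := by push_cast; ring
    rw [this]; exact h1
  have c4 : mc (-(α * √(m:ℝ)) + -(α * √(m':ℝ))) = 0 := by
    apply mc_zero_of
    have h1 := nonres hS hs hs0 (c := -((t:ℤ) + t')) (by
      rw [neg_ne_zero]; positivity)
    rw [e, e']
    have : -((t:ℝ) * (α * √(s:ℝ))) + -(t' * (α * √(s:ℝ))) = ((-((t:ℤ) + t') : ℤ) : ℝ) * (α * √(s:ℝ)) := by push_cast; ring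
    rw [this]; exact h1
  have hlim := ((((chr_mean (α * √(m:ℝ) + α * √(m':ℝ))).smul (A * A' / 4)).add
    ((chr_mean (α * √(m:ℝ) + -(α * √(m':ℝ)))).smul (A * (starRingEnd ℂ) A' / 4)))).add
    (((chr_mean (-(α * √(m:ℝ)) + α * √(m':ℝ))).smul ((starRingEnd ℂ) A * A' / 4)).add
    ((chr_mean (-(α * √(m:ℝ)) + -(α * √(m':ℝ)))).smul ((starRingEnd ℂ) A * (starRingEnd ℂ) A' / 4)))
  rw [c1, c4] at hlim
  by_cases hmm : m = m'
  · subst hmm
    rw [if_pos rfl]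
    have c2 : mc (α * √(m:ℝ) + -(α * √(m:ℝ))) = 1 := by
      rw [add_neg_cancel, ← mn_chr, chr_zero, mn_one]
    have c3 : mc (-(α * √(m:ℝ)) + α * √(m:ℝ)) = 1 := by
      rw [neg_add_cancel, ← mn_chr, chr_zero, mn_one]
    rw [c2, c3] at hlim
    have h5 : A * (starRingEnd ℂ) A = (((a m)^2 : ℝ) : ℂ) := by
      rw [Complex.mul_conj, Complex.normSq_eq_norm_sq, hA, norm_ac, sq_abs]
    have h6 : A * A' / 4 * 0 + A * (starRingEnd ℂ) A' / 4 * 1 +
        ((starRingEnd ℂ) A * A' / 4 * 1 + (starRingEnd ℂ) A * (starRingEnd ℂ) A' / 4 * 0) =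
        (((1/2) * (a m)^2 : ℝ) : ℂ) := by
      have : A' = A := rfl
      rw [this]
      have e1 : (starRingEnd ℂ) A * A = A * (starRingEnd ℂ) A := mul_comm _ _
      rw [mul_zero, mul_zero, zero_add, add_zero, mul_one, mul_one, e1, h5]
      push_cast; ring
    rw [h6] at hlim
    exact hlim
  · rw [if_neg hmm]
    have htt : t ≠ t' := by
      rintro rfl
      exact hmm (ht.trans ht'.symm)
    have c2 : mc (α * √(m:ℝ) + -(α * √(m':ℝ))) = 0 := by
      apply mc_zero_of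
      have h1 := nonres hS hs hs0 (c := (t:ℤ) - t') (by
        intro h; apply htt; omega)
      rw [e, e']
      have : (t:ℝ) * (α * √(s:ℝ)) + -(t' * (α * √(s:ℝ))) = (((t:ℤ) - t' : ℤ) : ℝ) * (α * √(s:ℝ)) := by push_cast; ring
      rw [this]; exact h1
    have c3 : mc (-(α * √(m:ℝ)) + α * √(m':ℝ)) = 0 := by
      apply mc_zero_of
      have h1 := nonres hS hs hs0 (c := (t':ℤ) - t) (by
        intro h; apply htt; omega)
      rw [e, e']
      have : -((t:ℝ) * (α * √(s:ℝ))) + t' * (α * √(s:ℝ)) = (((t':ℤ) - t : ℤ) : ℝ) * (α * √(s:ℝ)) := by push_cast; ring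
      rw [this]; exact h1
    rw [c2, c3] at hlim
    simpa using hlim

lemma ST_mean (hS : GoodS α S0) (hs : Squarefree s) (hs0 : s ∉ S0) (hT : ∀ m ∈ T, 1 ≤ m ∧ InC s m) :
    HasMean (fun n : ℕ => ((ST a φ α X T n : ℝ) : ℂ)) 0 := by
  rw [ST_trig]
  have h := HasMean.sum T (fun m => Fm a φ α X m) (fun _ => 0)
    (fun m hm => Fm_mean hS hs hs0 (hT m hm).1 (hT m hm).2)
  rw [Finset.sum_const_zero] at h
  exact h

lemma ST_sq_mean (hS : GoodS α S0) (hs : Squarefree s) (hs0 : s ∉ S0) (hT : ∀ m ∈ T, 1 ≤ m ∧ InC s m) :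
    HasMean (fun n : ℕ => (((ST a φ α X T n)^2 : ℝ) : ℂ)) ((vT a T : ℝ) : ℂ) := by
  have e : (fun n : ℕ => (((ST a φ α X T n)^2 : ℝ) : ℂ)) =
      ∑ m ∈ T, ∑ m' ∈ T, Fm a φ α X m * Fm a φ α X m' := by
    rw [← Finset.sum_mul_sum]
    have h1 := ST_trig a φ α X T
    funext n
    have h2 := congrFun h1 n
    rw [Pi.mul_apply, sq]
    push_cast
    rw [h2]
    rfl
  rw [e]
  have h := HasMean.sum T (fun m => ∑ m' ∈ T, Fm a φ α X m * Fm a φ α X m')
    (fun m => ∑ m' ∈ T, if m = m' then (((1/2) * (a m)^2 : ℝ) : ℂ) else 0)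
    (fun m hm => HasMean.sum T _ _ (fun m' hm' => Fm_mul_mean hS hs hs0 (hT m hm).1 (hT m hm).2 (hT m' hm').1 (hT m' hm').2))
  have e2 : ∑ m ∈ T, ∑ m' ∈ T, (if m = m' then (((1/2) * (a m)^2 : ℝ) : ℂ) else 0) = ((vT a T : ℝ) : ℂ) := by
    unfold vT
    rw [Finset.mul_sum]
    push_cast
    apply Finset.sum_congr rfl
    intro m hm
    rw [Finset.sum_ite_eq, if_pos hm]
  rw [e2] at h
  exact h

lemma rm_ST_sq (hS : GoodS α S0) (hs : Squarefree s) (hs0 : s ∉ S0) (hT : ∀ m ∈ T, 1 ≤ m ∧ InC s m) :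
    Tendsto (rm (fun n : ℕ => (ST a φ α X T n)^2)) atTop (𝓝 (vT a T)) := by
  have h := ST_sq_mean (a := a) (φ := φ) (X := X) hS hs hs0 hT
  unfold HasMean at h
  have e : cm (fun n : ℕ => (((ST a φ α X T n)^2 : ℝ) : ℂ)) = fun N => ((rm (fun n : ℕ => (ST a φ α X T n)^2) N : ℝ) : ℂ) := by
    funext N; exact cm_ofReal _ N
  rw [e] at h
  have h4 := (Complex.continuous_re.tendsto _).comp h
  rw [Complex.ofReal_re] at h4
  exact h4

lemma ex_UC_top (z : ℂ) : ex a φ α X z T ∈ UC ⊤ := ex_mem (fun _ _ => AddSubgroup.mem_top _) z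

/-- decay factor of one block -/
theorem blk_char (hS : GoodS α S0) (hs : Squarefree s) (hs0 : s ∉ S0) (hT : ∀ m ∈ T, 1 ≤ m ∧ InC s m)
    {t : ℝ} (ht : |t| * bT a T ≤ 1) :
    ‖mn (ex a φ α X ((t:ℂ) * Complex.I) T)‖ ≤ Real.exp (-((5/18) * t^2 * vT a T)) := by
  set V := vT a T with hV
  have hV0 : 0 ≤ V := vT_nonneg
  have htV : t^2 * V ≤ 1 := by
    calc t^2 * V ≤ t^2 * (bT a T)^2 := by gcongr; exact vT_le
      _ = (|t| * bT a T)^2 := by rw [mul_pow, sq_abs]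
      _ ≤ 1 := by
          have h0 : 0 ≤ |t| * bT a T := mul_nonneg (abs_nonneg _) bT_nonneg
          nlinarith
  set g : ℕ → ℂ := fun n => 1 + ((t:ℂ) * Complex.I) * ((ST a φ α X T n : ℝ) : ℂ) +
    (-((t^2/2 : ℝ) : ℂ)) * (((ST a φ α X T n)^2 : ℝ) : ℂ) with hg
  have hgm : HasMean g ((1 - t^2 / 2 * V : ℝ) : ℂ) := by
    have h1 := ((hasMean_const (1:ℂ)).add ((ST_mean (a := a) (φ := φ) (X := X) hS hs hs0 hT).smul ((t:ℂ) * Complex.I))).add
      ((ST_sq_mean (a := a) (φ := φ) (X := X) hS hs hs0 hT).smul (-((t^2/2 : ℝ) : ℂ)))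
    have e : (1:ℂ) + (t:ℂ) * Complex.I * 0 + -((t^2/2 : ℝ) : ℂ) * ((vT a T : ℝ) : ℂ) = ((1 - t^2 / 2 * V : ℝ) : ℂ) := by
      push_cast; ring
    rw [e] at h1
    exact h1
  have hpt : ∀ n, ‖ex a φ α X ((t:ℂ) * Complex.I) T n - g n‖ ≤ (2/9) * t^2 * (ST a φ α X T n)^2 := by
    intro n
    set y := ST a φ α X T n with hy
    have hy1 : |y| ≤ bT a T := abs_ST_le n
    have hx1 : ‖(t:ℂ) * Complex.I * ((y:ℝ) : ℂ)‖ = |t| * |y| := by
      rw [norm_mul, norm_mul, Complex.norm_I, mul_one, Complex.norm_real, Complex.norm_real, Real.norm_eq_abs, Real.norm_eq_abs]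
    have hx2 : |t| * |y| ≤ 1 := (mul_le_mul_of_nonneg_left hy1 (abs_nonneg _)).trans ht
    have h1 := Complex.exp_bound (x := (t:ℂ) * Complex.I * ((y:ℝ) : ℂ)) (by rw [hx1]; exact hx2) (n := 3) (by norm_num)
    rw [hx1] at h1
    have e : ex a φ α X ((t:ℂ) * Complex.I) T n - g n = Complex.exp ((t:ℂ) * Complex.I * ((y:ℝ) : ℂ)) -
        ∑ m ∈ Finset.range 3, ((t:ℂ) * Complex.I * ((y:ℝ) : ℂ)) ^ m / (m.factorial : ℂ) := by
      unfold ex
      rw [hg, Finset.sum_range_succ, Finset.sum_range_succ, Finset.sum_range_one]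
      simp only [pow_zero, pow_one, Nat.factorial, Nat.cast_one, div_one, ← hy]
      push_cast
      have hI : Complex.I ^ 2 = -1 := Complex.I_sq
      linear_combination ((t:ℂ)^2 * (y:ℂ)^2 / 2) * hI
    rw [e]
    refine h1.trans ?_
    have h0 : 0 ≤ |t| * |y| := by positivity
    have h3 : (|t| * |y|)^3 ≤ t^2 * y^2 := by
      have : (|t| * |y|)^2 = t^2 * y^2 := by rw [mul_pow, sq_abs, sq_abs]
      rw [← this]
      nlinarith [pow_nonneg h0 2]
    have h4 : (((3:ℕ).succ : ℝ) * (((3:ℕ).factorial : ℝ) * ((3:ℕ):ℝ))⁻¹) = 2/9 := by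
      simp only [Nat.factorial]; norm_num
    rw [h4]
    nlinarith
  have hclose : ∀ ε : ℝ, 0 < ε → ‖mn (ex a φ α X ((t:ℂ) * Complex.I) T) - ((1 - t^2 / 2 * V : ℝ) : ℂ)‖ ≤
      (2/9) * t^2 * V + ε := by
    intro ε hε
    apply mean_close (UC_hasMean (ex_UC_top _)) hgm
    have h1 := (rm_ST_sq (a := a) (φ := φ) (X := X) hS hs hs0 hT).const_mul ((2/9) * t^2)
    have h2 := h1.eventually (gt_mem_nhds (show (2/9) * t^2 * V < (2/9) * t^2 * V + ε by linarith))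
    rw [eventually_atTop] at h2
    obtain ⟨N0, hN0⟩ := h2
    refine ⟨N0, fun N hN => ?_⟩
    refine (norm_cm_sub_le _ _ N).trans ?_
    refine (rm_mono hpt N).trans ?_
    have e : rm (fun n : ℕ => (2/9) * t^2 * (ST a φ α X T n)^2) N = (2/9) * t^2 * rm (fun n : ℕ => (ST a φ α X T n)^2) N :=
      rm_mul _ _ _
    rw [e]
    exact (hN0 N hN).le
  have hclose' : ‖mn (ex a φ α X ((t:ℂ) * Complex.I) T) - ((1 - t^2 / 2 * V : ℝ) : ℂ)‖ ≤ (2/9) * t^2 * V :=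
    le_of_forall_pos_le_add hclose
  have hn : ‖mn (ex a φ α X ((t:ℂ) * Complex.I) T)‖ ≤ 1 - (5/18) * t^2 * V := by
    calc ‖mn (ex a φ α X ((t:ℂ) * Complex.I) T)‖
        = ‖(mn (ex a φ α X ((t:ℂ) * Complex.I) T) - ((1 - t^2 / 2 * V : ℝ) : ℂ)) + ((1 - t^2 / 2 * V : ℝ) : ℂ)‖ := by
          rw [sub_add_cancel]
      _ ≤ (2/9) * t^2 * V + |1 - t^2 / 2 * V| := by
          refine (norm_add_le _ _).trans ?_
          rw [Complex.norm_real, Real.norm_eq_abs]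
          gcongr
      _ = 1 - (5/18) * t^2 * V := by
          rw [abs_of_nonneg (by nlinarith)]; ring
  refine hn.trans ?_
  have := Real.add_one_le_exp (-((5/18) * t^2 * V))
  linarith

/-- moment generating factor of one block -/
theorem blk_mgf (hS : GoodS α S0) (hs : Squarefree s) (hs0 : s ∉ S0) (hT : ∀ m ∈ T, 1 ≤ m ∧ InC s m)
    (l : ℝ) : ‖mn (ex a φ α X (l:ℂ) T)‖ ≤ Real.exp (min (|l| * bT a T) ((|l| * bT a T)^2)) := by
  have hb0 : 0 ≤ |l| * bT a T := mul_nonneg (abs_nonneg _) bT_nonneg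
  by_cases h1 : |l| * bT a T ≤ 1
  · have hmin : min (|l| * bT a T) ((|l| * bT a T)^2) = (|l| * bT a T)^2 := by
      apply min_eq_right; nlinarith
    rw [hmin]
    set V := vT a T with hV
    have hV0 : 0 ≤ V := vT_nonneg
    have hlV : l^2 * V ≤ (|l| * bT a T)^2 := by
      calc l^2 * V ≤ l^2 * (bT a T)^2 := by gcongr; exact vT_le
        _ = (|l| * bT a T)^2 := by rw [mul_pow, sq_abs]
    set g : ℕ → ℂ := fun n => 1 + (l:ℂ) * ((ST a φ α X T n : ℝ) : ℂ) with hg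
    have hgm : HasMean g 1 := by
      have h1 := (hasMean_const (1:ℂ)).add ((ST_mean (a := a) (φ := φ) (X := X) hS hs hs0 hT).smul (l:ℂ))
      rw [mul_zero, add_zero] at h1
      exact h1
    have hpt : ∀ n, ‖ex a φ α X (l:ℂ) T n - g n‖ ≤ l^2 * (ST a φ α X T n)^2 := by
      intro n
      set y := ST a φ α X T n with hy
      have hy1 : |y| ≤ bT a T := abs_ST_le n
      have hx1 : |l * y| ≤ 1 := by
        rw [abs_mul]
        exact (mul_le_mul_of_nonneg_left hy1 (abs_nonneg _)).trans h1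
      have h2 := Real.abs_exp_sub_one_sub_id_le hx1
      have e : ex a φ α X (l:ℂ) T n - g n = ((Real.exp (l * y) - 1 - l * y : ℝ) : ℂ) := by
        unfold ex
        rw [hg]
        simp only [← hy]
        push_cast
        ring
      rw [e, Complex.norm_real, Real.norm_eq_abs]
      rw [← mul_pow]
      exact h2
    have hclose : ∀ ε : ℝ, 0 < ε → ‖mn (ex a φ α X (l:ℂ) T) - 1‖ ≤ l^2 * V + ε := by
      intro ε hε
      apply mean_close (UC_hasMean (ex_UC_top _)) hgm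
      have h1 := (rm_ST_sq (a := a) (φ := φ) (X := X) hS hs hs0 hT).const_mul (l^2)
      have h2 := h1.eventually (gt_mem_nhds (show l^2 * V < l^2 * V + ε by linarith))
      rw [eventually_atTop] at h2
      obtain ⟨N0, hN0⟩ := h2
      refine ⟨N0, fun N hN => ?_⟩
      refine (norm_cm_sub_le _ _ N).trans ?_
      refine (rm_mono hpt N).trans ?_
      have e : rm (fun n : ℕ => l^2 * (ST a φ α X T n)^2) N = l^2 * rm (fun n : ℕ => (ST a φ α X T n)^2) N :=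
        rm_mul _ _ _
      rw [e]
      exact (hN0 N hN).le
    have hclose' : ‖mn (ex a φ α X (l:ℂ) T) - 1‖ ≤ l^2 * V := le_of_forall_pos_le_add hclose
    calc ‖mn (ex a φ α X (l:ℂ) T)‖ = ‖(mn (ex a φ α X (l:ℂ) T) - 1) + 1‖ := by rw [sub_add_cancel]
      _ ≤ l^2 * V + 1 := by
          refine (norm_add_le _ _).trans ?_
          rw [norm_one]; gcongr
      _ ≤ (|l| * bT a T)^2 + 1 := by gcongr
      _ ≤ Real.exp ((|l| * bT a T)^2) := Real.add_one_le_exp _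
  · push Not at h1
    have hmin : min (|l| * bT a T) ((|l| * bT a T)^2) = |l| * bT a T := by
      apply min_eq_left; nlinarith
    rw [hmin]
    apply mn_norm_le (ex_UC_top _) (Real.exp_pos _).le
    intro n
    unfold ex
    rw [Complex.norm_exp]
    apply Real.exp_le_exp.mpr
    have e : ((l:ℂ) * ((ST a φ α X T n : ℝ) : ℂ)).re = l * ST a φ α X T n := by
      rw [← Complex.ofReal_mul, Complex.ofReal_re]
    rw [e]
    calc l * ST a φ α X T n ≤ |l * ST a φ α X T n| := le_abs_self _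
      _ = |l| * |ST a φ α X T n| := abs_mul _ _
      _ ≤ _ := mul_le_mul_of_nonneg_left (abs_ST_le n) (abs_nonneg _)

end Pool.Agent.H383.Gen
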