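import Mathlib
import Pool.Agent.H383.Gen

open MeasureTheory Filter Topology
open Pool.Agent.H383.AP Pool.Agent.H383.Gauss

namespace Pool.Agent.H383.Gen

/-- smoothing factor -/
noncomputable def cf (y : ℝ) : ℂ :=
  (Complex.exp (((2 * Real.pi * y : ℝ) : ℂ) * Complex.I) - 1) / (((2 * Real.pi * y : ℝ) : ℂ) * Complex.I)

lemma cf_le_one (y : ℝ) : ‖cf y‖ ≤ 1 := by
  unfold cf
  rw [norm_div]
  apply div_le_one_of_le₀ _ (norm_nonneg _)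
  rw [mul_comm]
  refine (Real.norm_exp_I_mul_ofReal_sub_one_le).trans ?_
  rw [norm_mul Complex.I, Complex.norm_I, one_mul, Complex.norm_real]

lemma cf_le {y : ℝ} (hy : 0 < y) : ‖cf y‖ ≤ 1 / y := by
  have hpi := Real.pi_gt_three
  unfold cf
  rw [norm_div, norm_mul, Complex.norm_I, mul_one, Complex.norm_real, Real.norm_eq_abs, abs_of_pos (by positivity)]
  have h1 : ‖Complex.exp (((2 * Real.pi * y : ℝ) : ℂ) * Complex.I) - 1‖ ≤ 2 := by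
    refine (norm_sub_le _ _).trans ?_
    rw [Complex.norm_exp_ofReal_mul_I, norm_one]; norm_num
  rw [div_le_div_iff₀ (by positivity) hy]
  nlinarith

lemma cf_sub_one {y : ℝ} (hy : 0 < y) : ‖cf y - 1‖ ≤ 4 * Real.pi * y := by
  have hpi := Real.pi_pos
  set z : ℂ := ((2 * Real.pi * y : ℝ) : ℂ) * Complex.I with hz
  have hzn : ‖z‖ = 2 * Real.pi * y := by
    rw [hz, norm_mul, Complex.norm_I, mul_one, Complex.norm_real, Real.norm_eq_abs, abs_of_pos (by positivity)]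
  have hz0 : z ≠ 0 := by
    rw [← norm_pos_iff, hzn]; positivity
  by_cases h : ‖z‖ ≤ 1
  · have h1 := Complex.norm_exp_sub_one_sub_id_le h
    have e : cf y - 1 = (Complex.exp z - 1 - z) / z := by
      unfold cf
      rw [← hz]; field_simp
    rw [e, norm_div, div_le_iff₀ (norm_pos_iff.mpr hz0)]
    refine h1.trans ?_
    rw [hzn]
    have : 0 ≤ 2 * Real.pi * y := by positivity
    nlinarith
  · push Not at h
    have h1 := cf_le_one y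
    calc ‖cf y - 1‖ ≤ ‖cf y‖ + ‖(1:ℂ)‖ := norm_sub_le _ _
      _ ≤ 2 := by rw [norm_one]; linarith
      _ ≤ _ := by rw [hzn] at h; linarith

/-- one term of the smoothed sum -/
noncomputable def wt (a : ℕ → ℝ) (φ R δ : ℝ) (m : ℕ) : ℝ :=
  a m * (Complex.exp (((2 * Real.pi * (R * √(m:ℝ)) - φ : ℝ) : ℂ) * Complex.I) * (cf (√(m:ℝ) * δ))^2).re

/-- the smoothed Voronoi sum -/
noncomputable def WS (a : ℕ → ℝ) (φ R δ : ℝ) : ℝ := ∑' m, wt a φ R δ m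

variable {a : ℕ → ℝ} {φ : ℝ}

lemma abs_wt_le (R δ : ℝ) (m : ℕ) : |wt a φ R δ m| ≤ |a m| * ‖cf (√(m:ℝ) * δ)‖^2 := by
  unfold wt
  rw [abs_mul]
  apply mul_le_mul_of_nonneg_left _ (abs_nonneg _)
  refine (Complex.abs_re_le_norm _).trans ?_
  rw [norm_mul, Complex.norm_exp_ofReal_mul_I, one_mul, norm_pow]

lemma wt_far {C : ℝ} (hC : 0 < C) (ha : ∀ m : ℕ, 1 ≤ m → |a m| ≤ C * (√(m:ℝ)) ^ (-(37/25):ℝ)) {δ : ℝ} (hδ : 0 < δ)
    (R : ℝ) {m : ℕ} (hm : 1 ≤ m) : |wt a φ R δ m| ≤ C * δ ^ (-2:ℝ) * (m:ℝ) ^ (-(87/50):ℝ) := by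
  have hm0 : (0:ℝ) < m := by exact_mod_cast hm
  have hs : 0 < √(m:ℝ) := Real.sqrt_pos.mpr hm0
  have h1 := cf_le (y := √(m:ℝ) * δ) (by positivity)
  have h2 : ‖cf (√(m:ℝ) * δ)‖^2 ≤ (√(m:ℝ)) ^ (-2:ℝ) * δ ^ (-2:ℝ) := by
    calc ‖cf (√(m:ℝ) * δ)‖^2 ≤ (1 / (√(m:ℝ) * δ))^2 := pow_le_pow_left₀ (norm_nonneg _) h1 2
      _ = (√(m:ℝ)) ^ (-2:ℝ) * δ ^ (-2:ℝ) := by
          rw [← Real.mul_rpow hs.le hδ.le, Real.rpow_neg (by positivity), Real.rpow_two]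
          field_simp
  calc |wt a φ R δ m| ≤ |a m| * ‖cf (√(m:ℝ) * δ)‖^2 := abs_wt_le R δ m
    _ ≤ (C * (√(m:ℝ)) ^ (-(37/25):ℝ)) * ((√(m:ℝ)) ^ (-2:ℝ) * δ ^ (-2:ℝ)) :=
        mul_le_mul (ha m hm) h2 (by positivity) (by positivity)
    _ = C * δ ^ (-2:ℝ) * ((√(m:ℝ)) ^ (-(37/25):ℝ) * (√(m:ℝ)) ^ (-2:ℝ)) := by ring
    _ = _ := by
        rw [← Real.rpow_add hs, Real.sqrt_eq_rpow, ← Real.rpow_mul hm0.le]
        norm_num

lemma wt_summable {C : ℝ} (hC : 0 < C) (ha : ∀ m : ℕ, 1 ≤ m → |a m| ≤ C * (√(m:ℝ)) ^ (-(37/25):ℝ)) (ha0 : a 0 = 0)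
    {δ : ℝ} (hδ : 0 < δ) (R : ℝ) : Summable (wt a φ R δ) := by
  have h1 : Summable (fun m : ℕ => C * δ ^ (-2:ℝ) * (m:ℝ) ^ (-(87/50):ℝ)) := by
    apply Summable.mul_left
    rw [Real.summable_nat_rpow]; norm_num
  apply Summable.of_norm_bounded h1
  intro m
  rw [Real.norm_eq_abs]
  rcases Nat.eq_zero_or_pos m with rfl | hm
  · unfold wt
    rw [ha0, zero_mul, abs_zero]
    positivity
  · exact wt_far hC ha hδ R hm

/-- tail -/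
lemma WS_tail {C : ℝ} (hC : 0 < C) (ha : ∀ m : ℕ, 1 ≤ m → |a m| ≤ C * (√(m:ℝ)) ^ (-(37/25):ℝ)) (ha0 : a 0 = 0) :
    ∃ C' : ℝ, 0 < C' ∧ ∀ δ : ℝ, 0 < δ → ∀ (R : ℝ) (Y : ℕ), 1 ≤ Y →
    |WS a φ R δ - ∑ m ∈ Finset.Icc 1 (Y^2), wt a φ R δ m| ≤ C' * δ ^ (-2:ℝ) * (Y:ℝ) ^ (-(73/50):ℝ) := by
  set Z : ℝ := ∑' k : ℕ, (k:ℝ) ^ (-(101/100):ℝ) with hZ
  have hZs : Summable (fun k : ℕ => (k:ℝ) ^ (-(101/100):ℝ)) := by
    rw [Real.summable_nat_rpow]; norm_num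
  have hZ0 : 0 ≤ Z := tsum_nonneg (fun k => by positivity)
  refine ⟨C * (Z + 1), by positivity, ?_⟩
  intro δ hδ R Y hY
  have hsum := wt_summable (φ := φ) hC ha ha0 hδ R
  have hY0 : (0:ℝ) < Y := by exact_mod_cast hY
  have h0 : wt a φ R δ 0 = 0 := by unfold wt; rw [ha0, zero_mul]
  have hf : ∑ m ∈ Finset.Icc 1 (Y^2), wt a φ R δ m = ∑ m ∈ Finset.range (Y^2+1), wt a φ R δ m := by
    have h4 : Finset.range (Y^2+1) = insert 0 (Finset.Icc 1 (Y^2)) := by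
      ext m; simp only [Finset.mem_range, Finset.mem_insert, Finset.mem_Icc]; omega
    rw [h4, Finset.sum_insert (by simp), h0, zero_add]
  have h1 := hsum.sum_add_tsum_nat_add (Y^2+1)
  have h2 : WS a φ R δ - ∑ m ∈ Finset.Icc 1 (Y^2), wt a φ R δ m = ∑' k, wt a φ R δ (k + (Y^2+1)) := by
    unfold WS
    rw [hf, ← h1]; ring
  rw [h2]
  have hb : ∀ k : ℕ, ‖wt a φ R δ (k + (Y^2+1))‖ ≤
      C * δ ^ (-2:ℝ) * ((Y:ℝ) ^ (-(73/50):ℝ) * ((k + (Y^2+1) : ℕ):ℝ) ^ (-(101/100):ℝ)) := by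
    intro k
    rw [Real.norm_eq_abs]
    refine (wt_far hC ha hδ R (by omega)).trans ?_
    apply mul_le_mul_of_nonneg_left _ (by positivity)
    set m := k + (Y^2+1) with hm
    have hmY : (Y:ℝ)^2 ≤ m := by
      have : Y^2 ≤ m := by omega
      exact_mod_cast this
    have hm0 : (0:ℝ) < m := by exact_mod_cast (by omega : 0 < m)
    have e1 : (m:ℝ) ^ (-(87/50):ℝ) = (m:ℝ) ^ (-(73/100):ℝ) * (m:ℝ) ^ (-(101/100):ℝ) := by
      rw [← Real.rpow_add hm0]; norm_num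
    rw [e1]
    apply mul_le_mul_of_nonneg_right _ (by positivity)
    calc (m:ℝ) ^ (-(73/100):ℝ) ≤ ((Y:ℝ)^2) ^ (-(73/100):ℝ) :=
          Real.rpow_le_rpow_of_nonpos (by positivity) hmY (by norm_num)
      _ = _ := by rw [← Real.rpow_natCast, ← Real.rpow_mul hY0.le]; norm_num
  have hs2 : Summable (fun k : ℕ => C * δ ^ (-2:ℝ) * ((Y:ℝ) ^ (-(73/50):ℝ) * ((k + (Y^2+1) : ℕ):ℝ) ^ (-(101/100):ℝ))) := by
    apply Summable.mul_left
    apply Summable.mul_left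
    exact (summable_nat_add_iff (Y^2+1)).mpr hZs
  have h3 := tsum_of_norm_bounded hs2.hasSum hb
  rw [Real.norm_eq_abs] at h3
  refine h3.trans ?_
  rw [tsum_mul_left, tsum_mul_left]
  have h4 : ∑' k : ℕ, ((k + (Y^2+1) : ℕ):ℝ) ^ (-(101/100):ℝ) ≤ Z := by
    have h5 := hZs.sum_add_tsum_nat_add (Y^2+1)
    rw [hZ, ← h5]
    have : 0 ≤ ∑ i ∈ Finset.range (Y^2+1), (i:ℝ) ^ (-(101/100):ℝ) := Finset.sum_nonneg (fun k _ => by positivity)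
    linarith
  calc C * δ ^ (-2:ℝ) * ((Y:ℝ) ^ (-(73/50):ℝ) * ∑' k : ℕ, ((k + (Y^2+1) : ℕ):ℝ) ^ (-(101/100):ℝ))
      ≤ C * δ ^ (-2:ℝ) * ((Y:ℝ) ^ (-(73/50):ℝ) * (Z + 1)) := by gcongr; linarith
    _ = _ := by ring

/-- low frequencies -/
lemma WS_low (a : ℕ → ℝ) (φ : ℝ) (M : ℕ) : ∃ K : ℝ, 0 < K ∧ ∀ R R' δ : ℝ, 0 < δ → |R' - R| ≤ 2 * δ →
    |∑ m ∈ Finset.Icc 1 (M^2), wt a φ R' δ m - U a φ R M| ≤ K * δ := by
  have hpi := Real.pi_pos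
  refine ⟨∑ m ∈ Finset.Icc 1 (M^2), |a m| * (12 * Real.pi * √(m:ℝ)) + 1, ?_, ?_⟩
  · have : 0 ≤ ∑ m ∈ Finset.Icc 1 (M^2), |a m| * (12 * Real.pi * √(m:ℝ)) :=
      Finset.sum_nonneg (fun m _ => by positivity)
    linarith
  · intro R R' δ hδ hR
    unfold U
    rw [← Finset.sum_sub_distrib]
    refine (Finset.abs_sum_le_sum_abs _ _).trans ?_
    rw [add_mul, Finset.sum_mul, one_mul]
    refine le_trans ?_ (le_add_of_nonneg_right hδ.le)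
    apply Finset.sum_le_sum
    intro m hm
    rw [Finset.mem_Icc] at hm
    have hm0 : (0:ℝ) < m := by exact_mod_cast hm.1
    have hs : 0 < √(m:ℝ) := Real.sqrt_pos.mpr hm0
    unfold wt
    rw [← mul_sub, abs_mul, mul_assoc |a m|]
    apply mul_le_mul_of_nonneg_left _ (abs_nonneg _)
    set θ' : ℝ := 2 * Real.pi * (R' * √(m:ℝ)) - φ with hθ'
    set θ : ℝ := 2 * Real.pi * (R * √(m:ℝ)) - φ with hθ
    have h1 : (Complex.exp ((θ' : ℂ) * Complex.I) * (cf (√(m:ℝ) * δ))^2).re - Real.cos θ =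
        (Complex.exp ((θ' : ℂ) * Complex.I) * ((cf (√(m:ℝ) * δ))^2 - 1)).re + (Real.cos θ' - Real.cos θ) := by
      rw [mul_sub, Complex.sub_re, mul_one, Complex.exp_ofReal_mul_I_re]; ring
    rw [h1]
    have h2 : |(Complex.exp ((θ' : ℂ) * Complex.I) * ((cf (√(m:ℝ) * δ))^2 - 1)).re| ≤ 8 * Real.pi * (√(m:ℝ) * δ) := by
      refine (Complex.abs_re_le_norm _).trans ?_
      rw [norm_mul, Complex.norm_exp_ofReal_mul_I, one_mul]
      have e : (cf (√(m:ℝ) * δ))^2 - 1 = (cf (√(m:ℝ) * δ) - 1) * (cf (√(m:ℝ) * δ) + 1) := by ring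
      rw [e, norm_mul]
      have h3 := cf_sub_one (y := √(m:ℝ) * δ) (by positivity)
      have h4 : ‖cf (√(m:ℝ) * δ) + 1‖ ≤ 2 := by
        refine (norm_add_le _ _).trans ?_
        rw [norm_one]
        have := cf_le_one (√(m:ℝ) * δ)
        linarith
      calc _ ≤ (4 * Real.pi * (√(m:ℝ) * δ)) * 2 := mul_le_mul h3 h4 (norm_nonneg _) (by positivity)
        _ = _ := by ring
    have h5 : |Real.cos θ' - Real.cos θ| ≤ 4 * Real.pi * (√(m:ℝ) * δ) := by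
      refine (Real.abs_cos_sub_cos_le θ' θ).trans ?_
      have e : θ' - θ = 2 * Real.pi * √(m:ℝ) * (R' - R) := by rw [hθ', hθ]; ring
      rw [e, abs_mul, abs_of_pos (by positivity : 0 < 2 * Real.pi * √(m:ℝ))]
      calc _ ≤ 2 * Real.pi * √(m:ℝ) * (2 * δ) := by gcongr
        _ = _ := by ring
    calc _ ≤ _ + _ := abs_add_le _ _
      _ ≤ 8 * Real.pi * (√(m:ℝ) * δ) + 4 * Real.pi * (√(m:ℝ) * δ) := add_le_add h2 h5
      _ = _ := by ring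

end Pool.Agent.H383.Gen
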