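import Mathlib
import Pool.Agent.H383.GenAp

open MeasureTheory Filter Topology
open Pool.Agent.H383.AP Pool.Agent.H383.Gauss

namespace Pool.Agent.H383.Gen

lemma sum_quarter (N : ℕ) : ∑ n ∈ Finset.range N, ((n:ℝ) + 1) ^ (-(3/4):ℝ) ≤ 4 * (N:ℝ) ^ (1/4:ℝ) := by
  induction N with
  | zero => simp
  | succ N ih =>
    rw [Finset.sum_range_succ]
    push_cast
    set x : ℝ := (N:ℝ) + 1 with hx
    have hx0 : 0 < x := by positivity
    set p := x ^ (1/4:ℝ) with hp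
    set q := (N:ℝ) ^ (1/4:ℝ) with hq
    have hp0 : 0 < p := by positivity
    have hq0 : 0 ≤ q := by positivity
    have hqp : q ≤ p := Real.rpow_le_rpow (by positivity) (by linarith) (by norm_num)
    have h1 : p^4 = x := by rw [hp, ← Real.rpow_natCast, ← Real.rpow_mul hx0.le]; norm_num
    have h2 : q^4 = N := by rw [hq, ← Real.rpow_natCast, ← Real.rpow_mul (Nat.cast_nonneg N)]; norm_num
    have h3 : x ^ (-(3/4):ℝ) = 1 / p^3 := by
      rw [hp, ← Real.rpow_natCast, ← Real.rpow_mul hx0.le, Real.rpow_neg hx0.le]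
      norm_num
    rw [h3]
    have h4 : p^4 - q^4 = 1 := by rw [h1, h2]; linarith
    have h5 : 1 ≤ 4 * p^3 * (p - q) := by
      have e : p^4 - q^4 = (p - q) * (p^3 + p^2 * q + p * q^2 + q^3) := by ring
      rw [e] at h4
      have h6 : p^3 + p^2 * q + p * q^2 + q^3 ≤ 4 * p^3 := by
        have a1 : p^2 * q ≤ p^3 := by
          calc p^2 * q ≤ p^2 * p := by gcongr
            _ = p^3 := by ring
        have a2 : p * q^2 ≤ p^3 := by
          calc p * q^2 ≤ p * p^2 := by gcongr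
            _ = p^3 := by ring
        have a3 : q^3 ≤ p^3 := by gcongr
        linarith
      calc (1:ℝ) = (p - q) * (p^3 + p^2 * q + p * q^2 + q^3) := h4.symm
        _ ≤ (p - q) * (4 * p^3) := mul_le_mul_of_nonneg_left h6 (by linarith)
        _ = _ := by ring
    have h7 : 1 / p^3 ≤ 4 * (p - q) := by
      rw [div_le_iff₀ (by positivity)]
      nlinarith
    linarith

lemma tend_err {α X : ℝ} (hα : 0 < α) (hX : 1 ≤ X) : Tendsto (fun N : ℕ => ((N:ℝ) ^ (25/48:ℝ)) ^ (26/25:ℝ) *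
    ((N:ℝ)⁻¹ * ∑ n ∈ Finset.range N, (X + n * α) ^ (-(24/25):ℝ))) atTop (𝓝 0) := by
  set c := min 1 α with hc
  have hc0 : 0 < c := by positivity
  have h1 := tend_nat_rpow (y := 5/24) (by norm_num) (c ^ (-(3/4):ℝ) * 4)
  apply squeeze_zero' _ _ h1
  · filter_upwards with N
    have : 0 ≤ ∑ n ∈ Finset.range N, (X + n * α) ^ (-(24/25):ℝ) := by
      apply Finset.sum_nonneg
      intro n _
      have : 0 ≤ X + n * α := by positivity
      positivity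
    positivity
  · filter_upwards [eventually_ge_atTop 1] with N hN
    have hN0 : (0:ℝ) < N := by exact_mod_cast hN
    have h2 : ∑ n ∈ Finset.range N, (X + n * α) ^ (-(24/25):ℝ) ≤ c ^ (-(3/4):ℝ) * (4 * (N:ℝ) ^ (1/4:ℝ)) := by
      calc ∑ n ∈ Finset.range N, (X + n * α) ^ (-(24/25):ℝ) ≤
          ∑ n ∈ Finset.range N, c ^ (-(3/4):ℝ) * ((n:ℝ) + 1) ^ (-(3/4):ℝ) := by
            apply Finset.sum_le_sum
            intro n _
            have hn : (0:ℝ) ≤ n := Nat.cast_nonneg n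
            have hR : 1 ≤ X + n * α := by nlinarith
            have hcR : c * ((n:ℝ) + 1) ≤ X + n * α := by
              have a1 : c ≤ 1 := min_le_left _ _
              have a2 : c ≤ α := min_le_right _ _
              nlinarith
            calc (X + n * α) ^ (-(24/25):ℝ) ≤ (X + n * α) ^ (-(3/4):ℝ) :=
                  Real.rpow_le_rpow_of_exponent_le hR (by norm_num)
              _ ≤ (c * ((n:ℝ) + 1)) ^ (-(3/4):ℝ) :=
                  Real.rpow_le_rpow_of_nonpos (by positivity) hcR (by norm_num)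
              _ = _ := Real.mul_rpow hc0.le (by positivity)
        _ = c ^ (-(3/4):ℝ) * ∑ n ∈ Finset.range N, ((n:ℝ) + 1) ^ (-(3/4):ℝ) := by rw [Finset.mul_sum]
        _ ≤ _ := by
            apply mul_le_mul_of_nonneg_left (sum_quarter N) (by positivity)
    calc _ ≤ ((N:ℝ) ^ (25/48:ℝ)) ^ (26/25:ℝ) * ((N:ℝ)⁻¹ * (c ^ (-(3/4):ℝ) * (4 * (N:ℝ) ^ (1/4:ℝ)))) := by gcongr
      _ = c ^ (-(3/4):ℝ) * 4 * ((N:ℝ) ^ (13/24:ℝ) * (N:ℝ) ^ (-1:ℝ) * (N:ℝ) ^ (1/4:ℝ)) := by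
          rw [← Real.rpow_mul hN0.le, Real.rpow_neg_one]
          norm_num
          ring
      _ = _ := by
          rw [← Real.rpow_add hN0, ← Real.rpow_add hN0]; norm_num

variable {E : ℝ → ℝ} {a : ℕ → ℝ} {φ : ℝ}

theorem ap_aux (ha : Bd a) (ha0 : a 0 = 0) {C0 : ℝ} (hC0 : 0 < C0)
    (hup : ∀ R δ : ℝ, 3 ≤ R → 0 < δ → δ ≤ 1/2 → E R ≤ WS a φ R δ +
      C0 * (δ * R ^ (51/100:ℝ) + R ^ (-(12/25):ℝ) * δ ^ (-(13/25):ℝ)))
    (hlo : ∀ R δ : ℝ, 3 ≤ R → 0 < δ → δ ≤ 1/2 → WS a φ (R - 2 * δ) δ -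
      C0 * (δ * R ^ (51/100:ℝ) + R ^ (-(12/25):ℝ) * δ ^ (-(13/25):ℝ)) ≤ E R)
    {α : ℝ} (hα : 0 < α) : ∃ C : ℝ, 0 < C ∧ ∀ X : ℝ, 3 ≤ X → ∀ M : ℕ, 1 ≤ M → ∀ η : ℝ, 0 < η →
    ∃ N0 : ℕ, ∀ N : ℕ, N0 ≤ N →
    (∑ n ∈ Finset.range N, (E (X + n * α) - U a φ (X + n * α) M)^2) / N ≤ C * Tl M + η := by
  obtain ⟨Ca, hCa, haC⟩ := ha
  obtain ⟨C1, hC1, N1, hD⟩ := D_ms_gen hα hCa
  obtain ⟨Ct, hCt, htail⟩ := WS_tail (a := a) (φ := φ) hCa haC ha0
  refine ⟨12 * C1, by positivity, ?_⟩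
  intro X hX M hM η hη
  obtain ⟨K, hK, hlow⟩ := WS_low a φ M
  have hpi := Real.pi_pos
  set G : ℕ → ℝ := fun N => 2 * K * (N:ℝ) ^ (-(25/48):ℝ) + 2 * Ct * (α/4) ^ (-(73/50):ℝ) * (N:ℝ) ^ (-(251/600):ℝ) +
    C0 * (X + α) ^ (51/100:ℝ) * (N:ℝ) ^ (-(13/1200):ℝ) with hG
  have hGt : Tendsto G atTop (𝓝 0) := by
    have h1 := tend_nat_rpow (y := 25/48) (by norm_num) (2 * K)
    have h2 := tend_nat_rpow (y := 251/600) (by norm_num) (2 * Ct * (α/4) ^ (-(73/50):ℝ))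
    have h3 := tend_nat_rpow (y := 13/1200) (by norm_num) (C0 * (X + α) ^ (51/100:ℝ))
    have h4 := (h1.add h2).add h3
    simp only [add_zero] at h4
    exact h4
  set u : ℕ → ℝ := fun N => 4 * (G N)^2 + 4 * C0^2 * (((N:ℝ) ^ (25/48:ℝ)) ^ (26/25:ℝ) *
    ((N:ℝ)⁻¹ * ∑ n ∈ Finset.range N, (X + n * α) ^ (-(24/25):ℝ))) with hu
  have hut : Tendsto u atTop (𝓝 0) := by
    have h1 := (hGt.pow 2).const_mul 4
    have h2 := (tend_err (X := X) hα (by linarith)).const_mul (4 * C0^2)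
    have h4 := h1.add h2
    simp only [ne_eq, OfNat.ofNat_ne_zero, not_false_eq_true, zero_pow, mul_zero, add_zero] at h4
    exact h4
  have hev := (hut.eventually (gt_mem_nhds hη))
  rw [eventually_atTop] at hev
  obtain ⟨N2, hN2⟩ := hev
  refine ⟨max (max N1 N2) (max 4 (⌈(4*(M+1))/α⌉₊ + 1)), ?_⟩
  intro N hN
  have hNN1 : N1 ≤ N := by omega
  have hNN2 : N2 ≤ N := by omega
  have hN4 : 4 ≤ N := by omega
  have hNα : ⌈(4*(M+1))/α⌉₊ ≤ N := by omega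
  have hN4' : (4:ℝ) ≤ N := by exact_mod_cast hN4
  have hN0 : (0:ℝ) < N := by linarith
  have hN1' : (1:ℝ) ≤ N := by linarith
  have hαN : 4 * ((M:ℝ)+1) ≤ α * N := by
    have h1 : (4*(M+1))/α ≤ N := (Nat.le_ceil _).trans (by exact_mod_cast hNα)
    rw [div_le_iff₀ hα] at h1
    linarith
  have hM' : (1:ℝ) ≤ M := by exact_mod_cast hM
  set δ : ℝ := (N:ℝ) ^ (-(25/48):ℝ) with hδ
  have hδ0 : 0 < δ := by positivity
  have hδ1 : δ ≤ 1/2 := by
    have h1 : δ ≤ (4:ℝ) ^ (-(25/48):ℝ) := Real.rpow_le_rpow_of_nonpos (by norm_num) hN4' (by norm_num)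
    have h2 : (4:ℝ) ^ (-(25/48):ℝ) ≤ (4:ℝ) ^ (-(1/2):ℝ) := Real.rpow_le_rpow_of_exponent_le (by norm_num) (by norm_num)
    have h3 : (4:ℝ) ^ (-(1/2):ℝ) = 1/2 := by
      rw [Real.rpow_neg (by norm_num), ← Real.sqrt_eq_rpow, show (4:ℝ) = 2^2 by norm_num, Real.sqrt_sq (by norm_num)]
      norm_num
    linarith
  set Y : ℕ := ⌊α * N / 2⌋₊ with hY
  have hY2 : 2 * (Y:ℝ) ≤ α * N := by
    have := Nat.floor_le (by positivity : 0 ≤ α * N / 2)
    linarith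
  have hY4 : α * N / 4 ≤ Y := by
    have := Nat.lt_floor_add_one (α * N / 2)
    rw [← hY] at this
    linarith
  have hMY : M ≤ Y := by
    have : (M:ℝ) ≤ Y := by linarith
    exact_mod_cast this
  have hY1 : 1 ≤ Y := by omega
  have hτ : Ct * δ ^ (-2:ℝ) * (Y:ℝ) ^ (-(73/50):ℝ) ≤ Ct * (α/4) ^ (-(73/50):ℝ) * (N:ℝ) ^ (-(251/600):ℝ) := by
    have e1 : δ ^ (-2:ℝ) = (N:ℝ) ^ (25/24:ℝ) := by
      rw [hδ, ← Real.rpow_mul hN0.le]; norm_num
    have e2 : (Y:ℝ) ^ (-(73/50):ℝ) ≤ (α/4) ^ (-(73/50):ℝ) * (N:ℝ) ^ (-(73/50):ℝ) := by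
      rw [← Real.mul_rpow (by positivity) hN0.le]
      apply Real.rpow_le_rpow_of_nonpos (by positivity) _ (by norm_num)
      linarith
    calc Ct * δ ^ (-2:ℝ) * (Y:ℝ) ^ (-(73/50):ℝ) ≤ Ct * (N:ℝ) ^ (25/24:ℝ) * ((α/4) ^ (-(73/50):ℝ) * (N:ℝ) ^ (-(73/50):ℝ)) := by
          rw [e1]; exact mul_le_mul_of_nonneg_left e2 (by positivity)
      _ = Ct * (α/4) ^ (-(73/50):ℝ) * ((N:ℝ) ^ (25/24:ℝ) * (N:ℝ) ^ (-(73/50):ℝ)) := by ring
      _ = _ := by rw [← Real.rpow_add hN0]; norm_num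
  -- the middle range
  set mid : ℝ → ℕ → ℝ := fun X' n => ∑ m ∈ Finset.Ioc (M^2) (Y^2), wt a φ (X' + n * α) δ m with hmid
  have hmidb : ∀ X' : ℝ, ∑ n ∈ Finset.range N, (mid X' n)^2 ≤ C1 * N * Tl M := by
    intro X'
    set b : ℕ → ℂ := fun m => ac a φ X' m * (cf (√(m:ℝ) * δ))^2 with hb
    have h1 := hD N b M Y hNN1 hM hY2 (by
      intro m hm
      have hm0 : (0:ℝ) < m := by exact_mod_cast hm
      have hs : 0 < √(m:ℝ) := Real.sqrt_pos.mpr hm0
      rw [← hδ]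
      simp only [hb]
      rw [norm_mul, norm_ac, norm_pow]
      unfold hf
      have h2 := haC m hm
      have h3 := cf_le_one (√(m:ℝ) * δ)
      have h4 := cf_le (y := √(m:ℝ) * δ) (by positivity)
      have h5 : ‖cf (√(m:ℝ) * δ)‖^2 ≤ min 1 ((δ * √(m:ℝ)) ^ (-(3/2):ℝ)) := by
        rw [le_min_iff]
        constructor
        · exact pow_le_one₀ (norm_nonneg _) h3
        · set y := √(m:ℝ) * δ with hy
          have hy0 : 0 < y := by positivity
          rw [show δ * √(m:ℝ) = y by rw [hy]; ring]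
          by_cases hy1 : 1 ≤ y
          · calc ‖cf y‖^2 ≤ (1/y)^2 := pow_le_pow_left₀ (norm_nonneg _) h4 2
              _ = y ^ (-2:ℝ) := by rw [Real.rpow_neg hy0.le, Real.rpow_two]; field_simp
              _ ≤ _ := Real.rpow_le_rpow_of_exponent_le hy1 (by norm_num)
          · push Not at hy1
            calc ‖cf y‖^2 ≤ 1 := pow_le_one₀ (norm_nonneg _) h3
              _ = y ^ (0:ℝ) := (Real.rpow_zero y).symm
              _ ≤ _ := Real.rpow_le_rpow_of_exponent_ge hy0 hy1.le (by norm_num)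
      calc |a m| * ‖cf (√(m:ℝ) * δ)‖^2 ≤ (Ca * (√(m:ℝ)) ^ (-(37/25):ℝ)) * min 1 ((δ * √(m:ℝ)) ^ (-(3/2):ℝ)) :=
            mul_le_mul h2 h5 (by positivity) (by positivity)
        _ = _ := by ring)
    refine le_trans ?_ h1
    apply Finset.sum_le_sum
    intro n _
    have h2 : mid X' n = (∑ m ∈ Finset.Ioc (M^2) (Y^2), b m *
      Complex.exp (((2 * Real.pi * (n * (α * √(m:ℝ))) : ℝ) : ℂ) * Complex.I)).re := by
      simp only [hmid, hb]
      rw [Complex.re_sum]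
      apply Finset.sum_congr rfl
      intro m _
      unfold wt
      rw [← Complex.re_ofReal_mul]
      congr 1
      have h3 := ac_shift a φ X' α m n
      unfold chr at h3
      have h4 : ac a φ X' m * cf (√(m:ℝ) * δ) ^ 2 * Complex.exp (((2 * Real.pi * (n * (α * √(m:ℝ))) : ℝ) : ℂ) * Complex.I) =
          ac a φ (X' + n * α) m * cf (√(m:ℝ) * δ) ^ 2 := by rw [h3]; ring
      rw [h4]
      unfold ac
      ring
    rw [h2, ← sq_abs]
    exact pow_le_pow_left₀ (abs_nonneg _) (Complex.abs_re_le_norm _) 2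
  -- pointwise bound
  have hpt : ∀ n ∈ Finset.range N, (E (X + n * α) - U a φ (X + n * α) M)^2 ≤
      4 * ((G N)^2 + C0^2 * (((N:ℝ) ^ (25/48:ℝ)) ^ (26/25:ℝ) * (X + n * α) ^ (-(24/25):ℝ)) +
        (mid X n)^2 + (mid (X - 2 * δ) n)^2) := by
    intro n hn
    rw [Finset.mem_range] at hn
    have hn' : (n:ℝ) ≤ N := by exact_mod_cast hn.le
    set R : ℝ := X + n * α with hR
    have hn0 : (0:ℝ) ≤ n := Nat.cast_nonneg n
    have hR2 : 3 ≤ R := by rw [hR]; nlinarith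
    have hR0 : 0 < R := by linarith
    set er : ℝ := C0 * (δ * R ^ (51/100:ℝ) + R ^ (-(12/25):ℝ) * δ ^ (-(13/25):ℝ)) with her
    have h1 := hup R δ hR2 hδ0 hδ1
    have h2 := hlo R δ hR2 hδ0 hδ1
    rw [← her] at h1 h2
    -- decomposition of WS
    have hdec : ∀ X' : ℝ, |X' - X| ≤ 2 * δ → |WS a φ (X' + n * α) δ - U a φ R M| ≤
        K * δ + |mid X' n| + Ct * δ ^ (-2:ℝ) * (Y:ℝ) ^ (-(73/50):ℝ) := by
      intro X' hX'
      have t1 := htail δ hδ0 (X' + n * α) Y hY1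
      have t2 := hlow R (X' + n * α) δ hδ0 (by
        have : X' + n * α - R = X' - X := by rw [hR]; ring
        rw [this]; exact hX')
      have hsplit : ∑ m ∈ Finset.Icc 1 (Y^2), wt a φ (X' + n * α) δ m =
          ∑ m ∈ Finset.Icc 1 (M^2), wt a φ (X' + n * α) δ m + mid X' n := by
        simp only [hmid]
        rw [← Finset.sum_union]
        · apply Finset.sum_congr _ (fun _ _ => rfl)
          have : M^2 ≤ Y^2 := Nat.pow_le_pow_left hMY 2
          ext m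
          simp only [Finset.mem_union, Finset.mem_Icc, Finset.mem_Ioc]
          omega
        · rw [Finset.disjoint_left]
          intro m hm1 hm2
          rw [Finset.mem_Icc] at hm1
          rw [Finset.mem_Ioc] at hm2
          omega
      rw [hsplit] at t1
      set L := ∑ m ∈ Finset.Icc 1 (M^2), wt a φ (X' + n * α) δ m
      have e : WS a φ (X' + n * α) δ - U a φ R M =
          (WS a φ (X' + n * α) δ - (L + mid X' n)) + (L - U a φ R M) + mid X' n := by ring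
      rw [e]
      calc _ ≤ |(WS a φ (X' + n * α) δ - (L + mid X' n)) + (L - U a φ R M)| + |mid X' n| := abs_add_le _ _
        _ ≤ |WS a φ (X' + n * α) δ - (L + mid X' n)| + |L - U a φ R M| + |mid X' n| := by
            gcongr; exact abs_add_le _ _
        _ ≤ _ := by linarith
    have d1 := hdec X (by simp; positivity)
    have d2 := hdec (X - 2 * δ) (by
      rw [show X - 2 * δ - X = -(2 * δ) by ring, abs_neg, abs_of_pos (by positivity)])
    have e2 : X - 2 * δ + n * α = R - 2 * δ := by rw [hR]; ring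
    rw [e2] at d2
    rw [← hR] at d1
    have d1' := abs_le.mp d1
    have d2' := abs_le.mp d2
    have hm1 := abs_nonneg (mid X n)
    have hm2 := abs_nonneg (mid (X - 2 * δ) n)
    have hKδ : 0 < K * δ := by positivity
    have hτ0 : 0 ≤ Ct * δ ^ (-2:ℝ) * (Y:ℝ) ^ (-(73/50):ℝ) := by positivity
    -- the error
    have her1 : C0 * (δ * R ^ (51/100:ℝ)) ≤ C0 * (X + α) ^ (51/100:ℝ) * (N:ℝ) ^ (-(13/1200):ℝ) := by
      have g1 : R ≤ (X + α) * N := by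
        rw [hR]
        have : (n:ℝ) * α ≤ N * α := mul_le_mul_of_nonneg_right hn' hα.le
        nlinarith
      have g2 : R ^ (51/100:ℝ) ≤ (X + α) ^ (51/100:ℝ) * (N:ℝ) ^ (51/100:ℝ) := by
        rw [← Real.mul_rpow (by positivity) hN0.le]
        exact Real.rpow_le_rpow hR0.le g1 (by norm_num)
      calc C0 * (δ * R ^ (51/100:ℝ)) ≤ C0 * (δ * ((X + α) ^ (51/100:ℝ) * (N:ℝ) ^ (51/100:ℝ))) := by gcongr
        _ = C0 * (X + α) ^ (51/100:ℝ) * ((N:ℝ) ^ (-(25/48):ℝ) * (N:ℝ) ^ (51/100:ℝ)) := by rw [hδ]; ring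
        _ = _ := by rw [← Real.rpow_add hN0]; norm_num
    set er2 : ℝ := C0 * (R ^ (-(12/25):ℝ) * δ ^ (-(13/25):ℝ)) with her2
    have her20 : 0 ≤ er2 := by positivity
    have her2sq : er2^2 = C0^2 * (((N:ℝ) ^ (25/48:ℝ)) ^ (26/25:ℝ) * R ^ (-(24/25):ℝ)) := by
      rw [her2, mul_pow, mul_pow]
      have i1 : (R ^ (-(12/25):ℝ))^2 = R ^ (-(24/25):ℝ) := by
        rw [← Real.rpow_natCast, ← Real.rpow_mul hR0.le]; norm_num
      have i2 : (δ ^ (-(13/25):ℝ))^2 = ((N:ℝ) ^ (25/48:ℝ)) ^ (26/25:ℝ) := by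
        rw [hδ, ← Real.rpow_natCast, ← Real.rpow_mul (by positivity), ← Real.rpow_mul hN0.le, ← Real.rpow_mul hN0.le]
        norm_num
      rw [i1, i2]; ring
    have hG0 : 2 * (K * δ) + 2 * (Ct * δ ^ (-2:ℝ) * (Y:ℝ) ^ (-(73/50):ℝ)) + C0 * (δ * R ^ (51/100:ℝ)) ≤ G N := by
      simp only [hG]
      rw [← hδ]
      linarith
    have hera : er = C0 * (δ * R ^ (51/100:ℝ)) + er2 := by rw [her, her2]; ring
    have htot : |E R - U a φ R M| ≤ G N + er2 + |mid X n| + |mid (X - 2 * δ) n| := by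
      rw [abs_le]
      constructor
      · linarith
      · linarith
    calc (E R - U a φ R M)^2 = |E R - U a φ R M|^2 := (sq_abs _).symm
      _ ≤ (G N + er2 + |mid X n| + |mid (X - 2 * δ) n|)^2 := pow_le_pow_left₀ (abs_nonneg _) htot 2
      _ ≤ 4 * ((G N)^2 + er2^2 + |mid X n|^2 + |mid (X - 2 * δ) n|^2) := by
          nlinarith [sq_nonneg (G N - er2), sq_nonneg (G N - |mid X n|), sq_nonneg (G N - |mid (X - 2 * δ) n|),
            sq_nonneg (er2 - |mid X n|), sq_nonneg (er2 - |mid (X - 2 * δ) n|), sq_nonneg (|mid X n| - |mid (X - 2 * δ) n|)]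
      _ = _ := by rw [sq_abs, sq_abs, her2sq]
  -- summing
  have hs1 := hmidb X
  have hs2 := hmidb (X - 2 * δ)
  have hsum : ∑ n ∈ Finset.range N, (E (X + n * α) - U a φ (X + n * α) M)^2 ≤
      N * (8 * C1 * Tl M + u N) := by
    calc _ ≤ ∑ n ∈ Finset.range N, 4 * ((G N)^2 + C0^2 * (((N:ℝ) ^ (25/48:ℝ)) ^ (26/25:ℝ) * (X + n * α) ^ (-(24/25):ℝ)) +
        (mid X n)^2 + (mid (X - 2 * δ) n)^2) := Finset.sum_le_sum hpt
      _ = 4 * (N * (G N)^2 + C0^2 * (((N:ℝ) ^ (25/48:ℝ)) ^ (26/25:ℝ) * ∑ n ∈ Finset.range N, (X + n * α) ^ (-(24/25):ℝ)) +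
        ∑ n ∈ Finset.range N, (mid X n)^2 + ∑ n ∈ Finset.range N, (mid (X - 2 * δ) n)^2) := by
          rw [← Finset.mul_sum]
          congr 1
          simp only [Finset.sum_add_distrib]
          rw [Finset.sum_const, Finset.card_range, nsmul_eq_mul, ← Finset.mul_sum, ← Finset.mul_sum]
      _ ≤ 4 * (N * (G N)^2 + C0^2 * (((N:ℝ) ^ (25/48:ℝ)) ^ (26/25:ℝ) * ∑ n ∈ Finset.range N, (X + n * α) ^ (-(24/25):ℝ)) +
          C1 * N * Tl M + C1 * N * Tl M) := by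
          linarith
      _ = _ := by
          simp only [hu]
          generalize ∑ n ∈ Finset.range N, (X + n * α) ^ (-(24/25):ℝ) = s
          field_simp
          ring
  rw [div_le_iff₀ hN0]
  have hu1 := hN2 N hNN2
  have hTl := Tl_nonneg M
  have hC1T : 0 ≤ C1 * Tl M := by positivity
  have : N * (8 * C1 * Tl M + u N) ≤ N * (12 * C1 * Tl M + η) :=
    mul_le_mul_of_nonneg_left (by linarith) hN0.le
  linarith

theorem ap_of (ha : Bd a) (ha0 : a 0 = 0) {C0 : ℝ} (hC0 : 0 < C0)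
    (hup : ∀ R δ : ℝ, 3 ≤ R → 0 < δ → δ ≤ 1/2 → E R ≤ WS a φ R δ +
      C0 * (δ * R ^ (51/100:ℝ) + R ^ (-(12/25):ℝ) * δ ^ (-(13/25):ℝ)))
    (hlo : ∀ R δ : ℝ, 3 ≤ R → 0 < δ → δ ≤ 1/2 → WS a φ (R - 2 * δ) δ -
      C0 * (δ * R ^ (51/100:ℝ) + R ^ (-(12/25):ℝ) * δ ^ (-(13/25):ℝ)) ≤ E R)
    {α : ℝ} (hα : 0 < α) (X : ℝ) : Ap a φ (fun n : ℕ => E (X + n * α)) α X := by
  obtain ⟨C, hC, h⟩ := ap_aux ha ha0 hC0 hup hlo hα
  intro η0 hη0
  have h1 : Tendsto (fun M => C * Tl M) atTop (𝓝 0) := by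
    have := Tl_tendsto.const_mul C
    rwa [mul_zero] at this
  have h2 := (h1.eventually (gt_mem_nhds (by positivity : 0 < η0/2))).and (eventually_ge_atTop 1)
  rw [eventually_atTop] at h2
  obtain ⟨M0, hM0⟩ := h2
  refine ⟨M0, fun M hM => ?_⟩
  obtain ⟨hM1, hM2⟩ := hM0 M hM
  set η := η0/2 with hηd
  have hη : 0 < η := by positivity
  obtain ⟨n0, hn0⟩ := exists_nat_ge ((3 - X)/α)
  have hX' : 3 ≤ X + n0 * α := by
    rw [div_le_iff₀ hα] at hn0; linarith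
  obtain ⟨N1, hN1⟩ := h (X + n0 * α) hX' M hM2 (η/2) (by positivity)
  set e : ℕ → ℝ := fun n => (E (X + n * α) - U a φ (X + n * α) M)^2 with he
  have he0 : ∀ n, 0 ≤ e n := fun n => sq_nonneg _
  set S := ∑ n ∈ Finset.range n0, e n with hS
  have hS0 : 0 ≤ S := Finset.sum_nonneg (fun n _ => he0 n)
  obtain ⟨N2, hN2⟩ := exists_nat_ge (2 * S / η)
  refine ⟨N1 + N2 + n0 + 1, ?_⟩
  intro N hN
  have hN' : (0:ℝ) < N := by exact_mod_cast (by omega : 0 < N)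
  obtain ⟨N', rfl⟩ : ∃ N', N = n0 + N' := ⟨N - n0, by omega⟩
  have hN1' : N1 ≤ N' := by omega
  have hN'0 : (0:ℝ) < N' := by exact_mod_cast (by omega : 0 < N')
  have h1 := hN1 N' hN1'
  have e1 : ∀ n : ℕ, (E (X + n0 * α + n * α) - U a φ (X + n0 * α + n * α) M)^2 = e (n0 + n) := by
    intro n
    simp only [he]
    have : X + n0 * α + n * α = X + ((n0 + n : ℕ):ℝ) * α := by push_cast; ring
    rw [this]
  rw [Finset.sum_congr rfl (fun n _ => e1 n), div_le_iff₀ hN'0] at h1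
  have hsplit : ∑ n ∈ Finset.range (n0 + N'), e n = S + ∑ n ∈ Finset.range N', e (n0 + n) :=
    Finset.sum_range_add e n0 N'
  unfold rm
  rw [hsplit, div_le_iff₀ hN']
  have h2 : S ≤ η/2 * N' := by
    have : (N2:ℝ) ≤ N' := by exact_mod_cast (by omega : N2 ≤ N')
    have h3 : 2 * S / η ≤ N' := hN2.trans this
    rw [div_le_iff₀ hη] at h3
    linarith
  have h3 : (N':ℝ) ≤ ((n0 + N' : ℕ):ℝ) := by exact_mod_cast (by omega : N' ≤ n0 + N')
  have h5 : (C * Tl M + η) * N' ≤ η0 * ((n0 + N' : ℕ):ℝ) :=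
    mul_le_mul (by linarith) h3 hN'0.le hη0.le
  linarith

end Pool.Agent.H383.Gen
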