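import Mathlib
import Pool.Agent.H387R2.VorDefs
import Pool.Agent.H383.GenAp2

open MeasureTheory Filter Topology
open Pool.Agent.H387R2.Vor

namespace Pool.Agent.H383.Div

lemma dv_nonneg (n : ℕ) : 0 ≤ dv n := by unfold dv; positivity

lemma Dsum_mono : Monotone Dsum := by
  intro x y h
  unfold Dsum
  apply Finset.sum_le_sum_of_subset_of_nonneg
  · exact Finset.Icc_subset_Icc le_rfl (Nat.floor_mono h)
  · intro n _ _; exact dv_nonneg n

lemma Dsum_eq (x : ℝ) : Dsum x = ∑ n ∈ Finset.Icc 1 ⌊x⌋₊, ((⌊x⌋₊ / n : ℕ) : ℝ) := by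
  have h := ArithmeticFunction.sum_Ioc_sigma0_eq_sum_div ⌊x⌋₊
  unfold Dsum dv
  rw [← Nat.cast_sum, ← Nat.cast_sum]
  congr 1
  have e : Finset.Icc 1 ⌊x⌋₊ = Finset.Ioc 0 ⌊x⌋₊ := by
    ext n; simp only [Finset.mem_Icc, Finset.mem_Ioc]; omega
  rw [e, ← h]
  apply Finset.sum_congr rfl
  intro n _
  rw [ArithmeticFunction.sigma_zero_apply]

lemma harm_real (n : ℕ) : ((harmonic n : ℚ) : ℝ) = ∑ i ∈ Finset.Icc 1 n, (1:ℝ)/i := by
  rw [harmonic_eq_sum_Icc]
  push_cast
  apply Finset.sum_congr rfl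
  intro i _
  rw [one_div]

lemma Del_abs {x : ℝ} (hx : 1 ≤ x) : |Del x| ≤ 3 * x := by
  set N := ⌊x⌋₊ with hN
  have hx0 : 0 ≤ x := by linarith
  have hN1 : 1 ≤ N := Nat.le_floor (by exact_mod_cast hx)
  have hN1' : (1:ℝ) ≤ N := by exact_mod_cast hN1
  have hNx : (N:ℝ) ≤ x := Nat.floor_le hx0
  have hxN : x < N + 1 := Nat.lt_floor_add_one x
  have hlog0 : 0 ≤ Real.log x := Real.log_nonneg hx
  have h1 := log_add_one_le_harmonic N
  have h2 := harmonic_le_one_add_log N
  rw [harm_real] at h1 h2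
  set H := ∑ i ∈ Finset.Icc 1 N, (1:ℝ)/i with hH
  have hup : Dsum x ≤ N * H := by
    rw [Dsum_eq, hH, Finset.mul_sum]
    apply Finset.sum_le_sum
    intro n hn
    rw [← hN]
    refine (Nat.cast_div_le).trans ?_
    rw [mul_one_div]
  have hlo : N * H - N ≤ Dsum x := by
    have e : (N:ℝ) * H - N = ∑ i ∈ Finset.Icc 1 N, ((N:ℝ) * (1/i) - 1) := by
      rw [Finset.sum_sub_distrib, ← Finset.mul_sum, ← hH]
      simp
    rw [e, Dsum_eq, ← hN]
    apply Finset.sum_le_sum
    intro n hn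
    rw [Finset.mem_Icc] at hn
    have hn0 : (0:ℝ) < n := by exact_mod_cast hn.1
    have h3 : N < n * (N / n + 1) := Nat.lt_mul_div_succ N (by omega)
    have h4 : (N:ℝ) < n * (((N / n : ℕ):ℝ) + 1) := by exact_mod_cast h3
    have h5 : (N:ℝ) * (1/n) ≤ ((N / n : ℕ):ℝ) + 1 := by
      rw [mul_one_div, div_le_iff₀ hn0]; linarith
    linarith
  have hg1 := Real.one_half_lt_eulerMascheroniConstant
  have hg2 := Real.eulerMascheroniConstant_lt_two_thirds
  set g := Real.eulerMascheroniConstant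
  have hlogN : Real.log N ≤ Real.log x := Real.log_le_log (by linarith) hNx
  have hlogN0 : 0 ≤ Real.log N := Real.log_nonneg hN1'
  have hlogx : Real.log x ≤ Real.log ((N:ℝ) + 1) := Real.log_le_log (by linarith) hxN.le
  have hlogx2 : Real.log x ≤ x := by
    have := Real.log_le_sub_one_of_pos (by linarith : 0 < x)
    linarith
  have hcast : Real.log ((N:ℝ) + 1) = Real.log (((N + 1 : ℕ) : ℝ)) := by push_cast; rfl
  have hH1 : Real.log x ≤ H := by
    rw [hcast] at hlogx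
    exact hlogx.trans h1
  have hU : Dsum x ≤ x * (1 + Real.log x) := by
    calc Dsum x ≤ N * H := hup
      _ ≤ N * (1 + Real.log N) := mul_le_mul_of_nonneg_left h2 (by linarith)
      _ ≤ x * (1 + Real.log x) := mul_le_mul hNx (by linarith) (by linarith) hx0
  have hL : x * Real.log x - 2 * x ≤ Dsum x := by
    have a1 : N * Real.log x ≤ N * H := mul_le_mul_of_nonneg_left hH1 (by linarith)
    have a2 : (x - 1) * Real.log x ≤ N * Real.log x := mul_le_mul_of_nonneg_right (by linarith) hlog0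
    have a3 : (x - 1) * Real.log x = x * Real.log x - Real.log x := by ring
    linarith
  unfold Del
  rw [abs_le]
  constructor
  · have : (2 * g - 1) * x ≤ x := by nlinarith
    linarith
  · have : 0 ≤ (2 * g - 1) * x := by
      apply mul_nonneg _ hx0; linarith
    linarith

/-- main term -/
noncomputable def mt (x : ℝ) : ℝ := x * Real.log x + (2 * Real.eulerMascheroniConstant - 1) * x

lemma mt_sub {x y : ℝ} (hx : 1 ≤ x) (hxy : x ≤ y) : mt y - mt x ≤ (y - x) * (Real.log y + 2) := by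
  have hg1 := Real.one_half_lt_eulerMascheroniConstant
  have hg2 := Real.eulerMascheroniConstant_lt_two_thirds
  have hx0 : 0 < x := by linarith
  have hy0 : 0 < y := by linarith
  unfold mt
  set g := Real.eulerMascheroniConstant
  have h1 : x * (Real.log y - Real.log x) ≤ y - x := by
    rw [← Real.log_div (by linarith) (by linarith)]
    have h2 := Real.log_le_sub_one_of_pos (show 0 < y / x by positivity)
    calc x * Real.log (y/x) ≤ x * (y/x - 1) := mul_le_mul_of_nonneg_left h2 (by linarith)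
      _ = y - x := by field_simp
  have h3 : (2 * g - 1) * (y - x) ≤ y - x := by
    have : 0 ≤ y - x := by linarith
    nlinarith
  nlinarith

lemma Del_eq (x : ℝ) : Del x = Dsum x - mt x := by unfold Del mt; ring

lemma Ed_step {R s : ℝ} (hR : 1 ≤ R) (hs : 0 ≤ s) (hs1 : s ≤ 1) :
    Ed R ≤ Ed (R + s) + 1218 * s * R ^ (51/100:ℝ) := by
  have hR0 : 0 < R := by linarith
  have hsq : 0 < √R := Real.sqrt_pos.mpr hR0
  have hsq' : 0 < √(R + s) := Real.sqrt_pos.mpr (by linarith)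
  have h1 : Del (R^2) ≤ Del ((R+s)^2) + (mt ((R+s)^2) - mt (R^2)) := by
    rw [Del_eq, Del_eq]
    have := Dsum_mono (show R^2 ≤ (R+s)^2 by nlinarith)
    linarith
  have h2 : mt ((R+s)^2) - mt (R^2) ≤ 1206 * s * (R * R ^ (1/100:ℝ)) := by
    have h3 := mt_sub (show 1 ≤ R^2 by nlinarith) (show R^2 ≤ (R+s)^2 by nlinarith)
    have h4 : Real.log ((R+s)^2) ≤ 400 * R ^ (1/100:ℝ) := by
      rw [Real.log_pow]
      have h5 := Real.log_le_rpow_div (show 0 ≤ R + s by linarith) (by norm_num : (0:ℝ) < 1/100)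
      have h6 : (R + s) ^ (1/100:ℝ) ≤ 2 * R ^ (1/100:ℝ) := by
        calc (R + s) ^ (1/100:ℝ) ≤ (2 * R) ^ (1/100:ℝ) :=
              Real.rpow_le_rpow (by linarith) (by linarith) (by norm_num)
          _ = 2 ^ (1/100:ℝ) * R ^ (1/100:ℝ) := Real.mul_rpow (by norm_num) hR0.le
          _ ≤ 2 * R ^ (1/100:ℝ) := by
              apply mul_le_mul_of_nonneg_right _ (by positivity)
              calc (2:ℝ) ^ (1/100:ℝ) ≤ 2 ^ (1:ℝ) := Real.rpow_le_rpow_of_exponent_le (by norm_num) (by norm_num)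
                _ = 2 := Real.rpow_one 2
      push_cast
      linarith
    have h7 : 1 ≤ R ^ (1/100:ℝ) := Real.one_le_rpow hR (by norm_num)
    have h8 : (R+s)^2 - R^2 ≤ 3 * R * s := by nlinarith
    have h9 : 0 ≤ (R+s)^2 - R^2 := by nlinarith
    calc mt ((R+s)^2) - mt (R^2) ≤ ((R+s)^2 - R^2) * (Real.log ((R+s)^2) + 2) := h3
      _ ≤ ((R+s)^2 - R^2) * (402 * R ^ (1/100:ℝ)) := by
          apply mul_le_mul_of_nonneg_left _ h9; linarith
      _ ≤ (3 * R * s) * (402 * R ^ (1/100:ℝ)) := by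
          apply mul_le_mul_of_nonneg_right h8 (by positivity)
      _ = _ := by ring
  have h3 : Del ((R+s)^2) ≤ √R * Ed (R+s) + 12 * s * R := by
    have e : Del ((R+s)^2) = √(R+s) * Ed (R+s) := by unfold Ed; field_simp
    have h4 : √(R+s) - √R ≤ s / √R := by
      rw [le_div_iff₀ hsq]
      have a1 : √(R+s) * √(R+s) = R + s := Real.mul_self_sqrt (by linarith)
      have a2 : √R * √R = R := Real.mul_self_sqrt hR0.le
      have a3 : √R ≤ √(R+s) := Real.sqrt_le_sqrt (by linarith)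
      nlinarith
    have h4' : 0 ≤ √(R+s) - √R := by
      have a3 : √R ≤ √(R+s) := Real.sqrt_le_sqrt (by linarith)
      linarith
    have h5 : |Ed (R+s)| ≤ 3 * (R+s)^2 / √(R+s) := by
      unfold Ed
      rw [abs_div, abs_of_pos hsq']
      apply div_le_div_of_nonneg_right _ hsq'.le
      exact Del_abs (by nlinarith)
    have h6 : (√(R+s) - √R) * Ed (R+s) ≤ 12 * s * R := by
      have a4 : √R ≤ √(R+s) := Real.sqrt_le_sqrt (by linarith)
      calc (√(R+s) - √R) * Ed (R+s) ≤ (√(R+s) - √R) * |Ed (R+s)| :=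
            mul_le_mul_of_nonneg_left (le_abs_self _) h4'
        _ ≤ (s / √R) * (3 * (R+s)^2 / √(R+s)) := mul_le_mul h4 h5 (abs_nonneg _) (by positivity)
        _ ≤ (s / √R) * (3 * (R+s)^2 / √R) := by gcongr
        _ = s * (3 * (R+s)^2) / (√R * √R) := by field_simp
        _ = s * (3 * (R+s)^2) / R := by rw [Real.mul_self_sqrt hR0.le]
        _ ≤ s * (3 * (2*R)^2) / R := by gcongr; linarith
        _ = 12 * s * R := by field_simp; ring
    rw [e]; linarith
  have h4 : √R * Ed R ≤ √R * Ed (R+s) + 1218 * s * (R * R ^ (1/100:ℝ)) := by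
    have e : √R * Ed R = Del (R^2) := by unfold Ed; field_simp
    have h7 : 1 ≤ R ^ (1/100:ℝ) := Real.one_le_rpow hR (by norm_num)
    have h8 : 12 * s * R ≤ 12 * s * (R * R ^ (1/100:ℝ)) := by
      apply mul_le_mul_of_nonneg_left _ (by positivity)
      nlinarith
    rw [e]; linarith
  have h5 : R * R ^ (1/100:ℝ) = √R * R ^ (51/100:ℝ) := by
    rw [Real.sqrt_eq_rpow, ← Real.rpow_add hR0]
    nth_rewrite 1 [← Real.rpow_one R]
    rw [← Real.rpow_add hR0]; norm_num
  rw [h5] at h4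
  have h6 : √R * Ed R ≤ √R * (Ed (R+s) + 1218 * s * R ^ (51/100:ℝ)) := by
    calc _ ≤ _ := h4
      _ = _ := by ring
  exact le_of_mul_le_mul_left h6 hsq

/-- a globally well behaved version -/
noncomputable def Ed' (t : ℝ) : ℝ := Ed (max t 1)

lemma Ed'_meas : Measurable Ed' := by
  have h1 : Measurable Dsum := by
    have : Dsum = (fun n : ℕ => ∑ k ∈ Finset.Icc 1 n, dv k) ∘ (fun x : ℝ => ⌊x⌋₊) := rfl
    rw [this]
    exact (measurable_from_top).comp Nat.measurable_floor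
  have h2 : Measurable Del := by
    unfold Del
    fun_prop
  have h3 : Measurable Ed := by
    unfold Ed
    fun_prop
  unfold Ed'
  fun_prop

lemma Ed'_bound (t : ℝ) : |Ed' t| ≤ 3 * (|t| + 1)^2 := by
  unfold Ed' Ed
  have h1 : 1 ≤ max t 1 := le_max_right _ _
  have h2 : 1 ≤ √(max t 1) := Real.one_le_sqrt.mpr h1
  have h3 : max t 1 ≤ |t| + 1 := max_le (by linarith [le_abs_self t]) (by linarith [abs_nonneg t])
  rw [abs_div, abs_of_pos (by linarith : 0 < √(max t 1))]
  calc |Del (max t 1 ^ 2)| / √(max t 1) ≤ |Del (max t 1 ^ 2)| := div_le_self (abs_nonneg _) h2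
    _ ≤ 3 * (max t 1)^2 := Del_abs (by nlinarith)
    _ ≤ _ := by gcongr

lemma Ed'_int (a b : ℝ) : IntervalIntegrable Ed' volume a b := by
  rw [intervalIntegrable_iff]
  have hfin : volume (Set.uIoc a b) ≠ ⊤ := by
    rw [Set.uIoc]; exact (measure_Ioc_lt_top).ne
  apply Measure.integrableOn_of_bounded (M := 3 * (|a| + |b| + 1)^2) hfin Ed'_meas.aestronglyMeasurable
  · rw [ae_restrict_iff' measurableSet_uIoc]
    refine Eventually.of_forall (fun t ht => ?_)
    rw [Real.norm_eq_abs]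
    refine (Ed'_bound t).trans ?_
    have h1 : |t| ≤ |a| + |b| := by
      rw [Set.uIoc, Set.mem_Ioc] at ht
      rw [abs_le]
      have h2 : -(|a| + |b|) ≤ min a b := by
        apply le_min
        · linarith [neg_abs_le a, abs_nonneg b]
        · linarith [neg_abs_le b, abs_nonneg a]
      have h3 : max a b ≤ |a| + |b| := by
        apply max_le
        · linarith [le_abs_self a, abs_nonneg b]
        · linarith [le_abs_self b, abs_nonneg a]
      exact ⟨by linarith [ht.1], by linarith [ht.2]⟩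
    gcongr

/-- the double average -/
noncomputable def Av (R δ : ℝ) : ℝ := (1/δ^2) * (∫ u in (0:ℝ)..δ, ∫ v in (0:ℝ)..δ, Ed (R + u + v))

lemma Av_eq {R δ : ℝ} (hR : 1 ≤ R) (hδ : 0 < δ) :
    Av R δ = (1/δ^2) * (∫ u in (0:ℝ)..δ, ∫ v in (0:ℝ)..δ, Ed' (R + u + v)) := by
  unfold Av
  congr 1
  apply intervalIntegral.integral_congr
  intro u hu
  rw [Set.uIcc_of_le hδ.le, Set.mem_Icc] at hu
  apply intervalIntegral.integral_congr
  intro v hv
  rw [Set.uIcc_of_le hδ.le, Set.mem_Icc] at hv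
  simp only
  unfold Ed'
  rw [max_eq_left (by linarith [hu.1, hv.1])]

lemma inner_cont (R δ : ℝ) : Continuous (fun u : ℝ => ∫ v in (0:ℝ)..δ, Ed' (R + u + v)) := by
  have h1 : (fun u : ℝ => ∫ v in (0:ℝ)..δ, Ed' (R + u + v)) =
      fun u => (∫ t in (0:ℝ)..(R + u + δ), Ed' t) - ∫ t in (0:ℝ)..(R + u), Ed' t := by
    funext u
    rw [intervalIntegral.integral_comp_add_left (fun t => Ed' t) (R + u), add_zero,
      intervalIntegral.integral_interval_sub_left (Ed'_int _ _) (Ed'_int _ _)]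
  rw [h1]
  have h2 := intervalIntegral.continuous_primitive (μ := volume) Ed'_int 0
  apply Continuous.sub
  · exact h2.comp (by fun_prop)
  · exact h2.comp (by fun_prop)

lemma inner_int (R u a b : ℝ) : IntervalIntegrable (fun v => Ed' (R + u + v)) volume a b := by
  have h := (Ed'_int (R + u + a) (R + u + b)).comp_add_left (R + u)
  simpa using h

lemma Av_lower {R δ c : ℝ} (hR : 1 ≤ R) (hδ : 0 < δ) (h : ∀ s, 0 ≤ s → s ≤ 2 * δ → c ≤ Ed (R + s)) : c ≤ Av R δ := by
  rw [Av_eq hR hδ]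
  have h1 : ∀ u ∈ Set.Icc 0 δ, ∀ v ∈ Set.Icc 0 δ, c ≤ Ed' (R + u + v) := by
    intro u hu v hv
    unfold Ed'
    rw [max_eq_left (by linarith [hu.1, hv.1]), add_assoc]
    exact h (u + v) (by linarith [hu.1, hv.1]) (by linarith [hu.2, hv.2])
  have h2 : δ * (δ * c) ≤ ∫ u in (0:ℝ)..δ, ∫ v in (0:ℝ)..δ, Ed' (R + u + v) := by
    have h3 : ∫ u in (0:ℝ)..δ, (δ * c) ≤ ∫ u in (0:ℝ)..δ, ∫ v in (0:ℝ)..δ, Ed' (R + u + v) := by
      apply intervalIntegral.integral_mono_on hδ.le (by simp) ((inner_cont R δ).intervalIntegrable _ _)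
      intro u hu
      have h4 : ∫ v in (0:ℝ)..δ, c ≤ ∫ v in (0:ℝ)..δ, Ed' (R + u + v) := by
        apply intervalIntegral.integral_mono_on hδ.le (by simp) (inner_int R u 0 δ)
        intro v hv
        exact h1 u hu v hv
      rw [intervalIntegral.integral_const, smul_eq_mul, sub_zero] at h4
      exact h4
    rw [intervalIntegral.integral_const, smul_eq_mul, sub_zero] at h3
    exact h3
  rw [one_div, ← div_eq_inv_mul, le_div_iff₀ (by positivity)]
  calc c * δ^2 = δ * (δ * c) := by ring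
    _ ≤ _ := h2

lemma Av_upper {R δ c : ℝ} (hR : 1 ≤ R) (hδ : 0 < δ) (h : ∀ s, 0 ≤ s → s ≤ 2 * δ → Ed (R + s) ≤ c) : Av R δ ≤ c := by
  rw [Av_eq hR hδ]
  have h1 : ∀ u ∈ Set.Icc 0 δ, ∀ v ∈ Set.Icc 0 δ, Ed' (R + u + v) ≤ c := by
    intro u hu v hv
    unfold Ed'
    rw [max_eq_left (by linarith [hu.1, hv.1]), add_assoc]
    exact h (u + v) (by linarith [hu.1, hv.1]) (by linarith [hu.2, hv.2])
  have h2 : ∫ u in (0:ℝ)..δ, ∫ v in (0:ℝ)..δ, Ed' (R + u + v) ≤ δ * (δ * c) := by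
    have h3 : ∫ u in (0:ℝ)..δ, ∫ v in (0:ℝ)..δ, Ed' (R + u + v) ≤ ∫ u in (0:ℝ)..δ, (δ * c) := by
      apply intervalIntegral.integral_mono_on hδ.le ((inner_cont R δ).intervalIntegrable _ _) (by simp)
      intro u hu
      have h4 : ∫ v in (0:ℝ)..δ, Ed' (R + u + v) ≤ ∫ v in (0:ℝ)..δ, c := by
        apply intervalIntegral.integral_mono_on hδ.le (inner_int R u 0 δ) (by simp)
        intro v hv
        exact h1 u hu v hv
      rw [intervalIntegral.integral_const, smul_eq_mul, sub_zero] at h4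
      exact h4
    rw [intervalIntegral.integral_const, smul_eq_mul, sub_zero] at h3
    exact h3
  rw [one_div, ← div_eq_inv_mul, div_le_iff₀ (by positivity)]
  calc _ ≤ δ * (δ * c) := h2
    _ = _ := by ring

lemma Ed_le_Av {R δ : ℝ} (hR : 1 ≤ R) (hδ : 0 < δ) (hδ1 : δ ≤ 1/2) : Ed R ≤ Av R δ + 2436 * δ * R ^ (51/100:ℝ) := by
  have h := Av_lower (R := R) (δ := δ) (c := Ed R - 2436 * δ * R ^ (51/100:ℝ)) hR hδ (by
    intro s hs hs1
    have h1 := Ed_step hR hs (by linarith : s ≤ 1)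
    have h2 : 1218 * s * R ^ (51/100:ℝ) ≤ 1218 * (2 * δ) * R ^ (51/100:ℝ) := by
      have : 0 ≤ R ^ (51/100:ℝ) := by positivity
      gcongr
    linarith)
  linarith

lemma Av_le_Ed {R δ : ℝ} (hR : 2 ≤ R) (hδ : 0 < δ) (hδ1 : δ ≤ 1/2) : Av (R - 2 * δ) δ ≤ Ed R + 2436 * δ * R ^ (51/100:ℝ) := by
  apply Av_upper (by linarith) hδ
  intro s hs hs1
  have h1 := Ed_step (R := R - 2 * δ + s) (s := 2 * δ - s) (by linarith) (by linarith) (by linarith)
  have e : R - 2 * δ + s + (2 * δ - s) = R := by ring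
  rw [e] at h1
  refine h1.trans ?_
  have h3 : (R - 2 * δ + s) ^ (51/100:ℝ) ≤ R ^ (51/100:ℝ) :=
    Real.rpow_le_rpow (by linarith) (by linarith) (by norm_num)
  have h4 : 0 ≤ (R - 2 * δ + s) ^ (51/100:ℝ) := by
    have : 0 ≤ R - 2 * δ + s := by linarith
    positivity
  have h2 : 1218 * (2 * δ - s) * (R - 2 * δ + s) ^ (51/100:ℝ) ≤ 1218 * (2 * δ) * R ^ (51/100:ℝ) := by
    apply mul_le_mul (by linarith) h3 h4 (by positivity)
  linarith

end Pool.Agent.H383.Div
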