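import Mathlib
import Pool.Agent.H383.DivA

open MeasureTheory Filter Topology
open Pool.Agent.H387R2.Vor
open Pool.Agent.H383.Gen

namespace Pool.Agent.H383.Div

/-- the smoothed Voronoi formula (to be supplied) -/
def VorStmt : Prop := ∃ C : ℝ, 0 < C ∧ ∀ R δ : ℝ, 1 ≤ R → 0 < δ → δ ≤ 1 / 2 →
    |(1 / δ ^ 2) * (∫ u in (0:ℝ)..δ, ∫ v in (0:ℝ)..δ, Ed (R + u + v)) - ∑' m : ℕ, vt R δ m| ≤
      C * (R ^ (-(12 / 25) : ℝ) * δ ^ (-(13 / 25) : ℝ))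

/-- coefficients -/
noncomputable def ad (m : ℕ) : ℝ := dv m * (m : ℝ) ^ (-(3 / 4) : ℝ) * (1 / (Real.pi * √2))

lemma ad_nonneg (m : ℕ) : 0 ≤ ad m := by
  unfold ad
  have := dv_nonneg m
  have := Real.pi_pos
  positivity

lemma ad_zero : ad 0 = 0 := by
  unfold ad dv; simp

lemma ad_Bd : Bd ad := by
  obtain ⟨C1, hC1, hdiv⟩ := Pool.Agent.Helper112.divisor_bound (1/100) (by norm_num)
  refine ⟨C1, hC1, ?_⟩
  intro m hm
  have hm' : (1:ℝ) ≤ m := by exact_mod_cast hm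
  have hm0 : (0:ℝ) < m := by linarith
  rw [abs_of_nonneg (ad_nonneg m)]
  have b := hdiv m hm
  unfold ad dv
  have hpi := Real.pi_gt_three
  have h2 : 1 ≤ √2 := Real.one_le_sqrt.mpr (by norm_num)
  have h3 : 1 / (Real.pi * √2) ≤ 1 := by
    rw [div_le_one (by positivity)]; nlinarith
  calc (m.divisors.card : ℝ) * (m : ℝ) ^ (-(3 / 4) : ℝ) * (1 / (Real.pi * √2)) ≤
      (C1 * (m:ℝ) ^ (1/100:ℝ)) * (m : ℝ) ^ (-(3 / 4) : ℝ) * 1 := by
        have h4 : (m.divisors.card : ℝ) ≤ C1 * (m:ℝ) ^ (1/100:ℝ) := b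
        gcongr
    _ = C1 * ((m:ℝ) ^ (1/100:ℝ) * (m : ℝ) ^ (-(3 / 4) : ℝ)) := by ring
    _ = C1 * (√(m:ℝ)) ^ (-(37/25):ℝ) := by
        rw [← Real.rpow_add hm0, Real.sqrt_eq_rpow, ← Real.rpow_mul hm0.le]; norm_num

lemma vt_eq (R δ : ℝ) (m : ℕ) : vt R δ m = wt ad (Real.pi/4) (2 * R) (2 * δ) m := by
  unfold vt wt ad
  congr 1
  congr 1
  have h1 : Complex.exp (-((Real.pi / 4 : ℝ) : ℂ) * Complex.I) * ex (2 * √(m : ℝ) * R) =
      Complex.exp (((2 * Real.pi * (2 * R * √(m:ℝ)) - Real.pi/4 : ℝ) : ℂ) * Complex.I) := by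
    unfold ex
    rw [← Complex.exp_add]
    congr 1
    push_cast; ring
  have h2 : Pool.Agent.H387R2.Vor.cf (2 * √(m : ℝ) * δ) = Gen.cf (√(m:ℝ) * (2 * δ)) := by
    unfold Pool.Agent.H387R2.Vor.cf Gen.cf ex
    have e : 2 * √(m : ℝ) * δ = √(m:ℝ) * (2 * δ) := by ring
    rw [e]
  rw [h1, h2]

lemma vt_tsum (R δ : ℝ) : ∑' m : ℕ, vt R δ m = WS ad (Real.pi/4) (2 * R) (2 * δ) := by
  unfold WS
  exact tsum_congr (fun m => vt_eq R δ m)

/-- the error in terms of the doubled variable -/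
noncomputable def E2 (R : ℝ) : ℝ := Ed (R/2)

theorem E2_Ap (hV : VorStmt) {α : ℝ} (hα : 0 < α) (X : ℝ) :
    Ap ad (Real.pi/4) (fun n : ℕ => Ed (X + n * α)) (2 * α) (2 * X) := by
  obtain ⟨C, hC, hV⟩ := hV
  have hrp : ∀ R δ : ℝ, 3 ≤ R → 0 < δ → (R/4) ^ (-(12/25):ℝ) * (δ/2) ^ (-(13/25):ℝ) ≤
      8 * (R ^ (-(12/25):ℝ) * δ ^ (-(13/25):ℝ)) := by
    intro R δ hR hδ
    have hR0 : 0 < R := by linarith
    rw [Real.div_rpow hR0.le (by norm_num), Real.div_rpow hδ.le (by norm_num)]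
    have h1 : (4:ℝ) ^ (-(12/25):ℝ) = 1 / 4 ^ (12/25:ℝ) := by rw [Real.rpow_neg (by norm_num)]; ring
    have h2 : (2:ℝ) ^ (-(13/25):ℝ) = 1 / 2 ^ (13/25:ℝ) := by rw [Real.rpow_neg (by norm_num)]; ring
    have h3 : (4:ℝ) ^ (12/25:ℝ) ≤ 4 := by
      calc (4:ℝ) ^ (12/25:ℝ) ≤ 4 ^ (1:ℝ) := Real.rpow_le_rpow_of_exponent_le (by norm_num) (by norm_num)
        _ = 4 := Real.rpow_one 4
    have h4 : (2:ℝ) ^ (13/25:ℝ) ≤ 2 := by
      calc (2:ℝ) ^ (13/25:ℝ) ≤ 2 ^ (1:ℝ) := Real.rpow_le_rpow_of_exponent_le (by norm_num) (by norm_num)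
        _ = 2 := Real.rpow_one 2
    rw [h1, h2]
    calc R ^ (-(12/25):ℝ) / (1 / 4 ^ (12/25:ℝ)) * (δ ^ (-(13/25):ℝ) / (1 / 2 ^ (13/25:ℝ))) =
        (4 ^ (12/25:ℝ) * 2 ^ (13/25:ℝ)) * (R ^ (-(12/25):ℝ) * δ ^ (-(13/25):ℝ)) := by field_simp
      _ ≤ (4 * 2) * (R ^ (-(12/25):ℝ) * δ ^ (-(13/25):ℝ)) := by gcongr
      _ = _ := by ring
  have hC1 : C ≤ 8 * C + 2436 := by linarith
  have hmon : ∀ R : ℝ, 3 ≤ R → (R/2) ^ (51/100:ℝ) ≤ R ^ (51/100:ℝ) := by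
    intro R hR
    exact Real.rpow_le_rpow (by linarith) (by linarith) (by norm_num)
  have key := ap_of (E := E2) (a := ad) (φ := Real.pi/4) ad_Bd ad_zero (C0 := 8 * C + 2436) (by positivity) ?_ ?_
    (α := 2 * α) (by positivity) (2 * X)
  · have e : (fun n : ℕ => E2 (2 * X + n * (2 * α))) = fun n : ℕ => Ed (X + n * α) := by
      funext n
      unfold E2
      congr 1
      ring
    rw [e] at key
    exact key
  · intro R δ hR hδ hδ1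
    have hR0 : 0 < R := by linarith
    have h1 := Ed_le_Av (R := R/2) (δ := δ/2) (by linarith) (by positivity) (by linarith)
    have h2 := hV (R/2) (δ/2) (by linarith) (by positivity) (by linarith)
    rw [vt_tsum] at h2
    have e1 : 2 * (R/2) = R := by ring
    have e2 : 2 * (δ/2) = δ := by ring
    rw [e1, e2] at h2
    have h3 := (abs_le.mp h2).2
    have h4 := hmon R hR
    have h5 : (R/2) ^ (-(12/25):ℝ) * (δ/2) ^ (-(13/25):ℝ) ≤ 8 * (R ^ (-(12/25):ℝ) * δ ^ (-(13/25):ℝ)) := by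
      refine le_trans ?_ (hrp R δ hR hδ)
      apply mul_le_mul_of_nonneg_right _ (by positivity)
      exact Real.rpow_le_rpow_of_nonpos (by positivity) (by linarith) (by norm_num)
    have h6 : C * ((R/2) ^ (-(12/25):ℝ) * (δ/2) ^ (-(13/25):ℝ)) ≤ C * (8 * (R ^ (-(12/25):ℝ) * δ ^ (-(13/25):ℝ))) :=
      mul_le_mul_of_nonneg_left h5 hC.le
    have h7 : 2436 * (δ/2) * (R/2) ^ (51/100:ℝ) ≤ 2436 * (δ * R ^ (51/100:ℝ)) := by
      have : 0 ≤ R ^ (51/100:ℝ) := by positivity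
      calc 2436 * (δ/2) * (R/2) ^ (51/100:ℝ) ≤ 2436 * (δ/2) * R ^ (51/100:ℝ) := by gcongr
        _ ≤ _ := by nlinarith
    have h8 : 0 ≤ R ^ (-(12/25):ℝ) * δ ^ (-(13/25):ℝ) := by positivity
    have h9 : 0 ≤ C * (δ * R ^ (51/100:ℝ)) := by positivity
    unfold E2
    unfold Av at h1
    nlinarith
  · intro R δ hR hδ hδ1
    have hR0 : 0 < R := by linarith
    -- need R/2 ≥ 2 ; treat via δ
    have h1 : Av (R/2 - 2 * (δ/2)) (δ/2) ≤ Ed (R/2) + 2436 * (δ/2) * (R/2) ^ (51/100:ℝ) := by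
      apply Av_upper (by linarith) (by positivity)
      intro s hs hs1
      have h1 := Ed_step (R := R/2 - 2 * (δ/2) + s) (s := 2 * (δ/2) - s) (by linarith) (by linarith) (by linarith)
      have e : R/2 - 2 * (δ/2) + s + (2 * (δ/2) - s) = R/2 := by ring
      rw [e] at h1
      refine h1.trans ?_
      have h3 : (R/2 - 2 * (δ/2) + s) ^ (51/100:ℝ) ≤ (R/2) ^ (51/100:ℝ) :=
        Real.rpow_le_rpow (by linarith) (by linarith) (by norm_num)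
      have h4 : 0 ≤ (R/2 - 2 * (δ/2) + s) ^ (51/100:ℝ) := by
        have : 0 ≤ R/2 - 2 * (δ/2) + s := by linarith
        positivity
      have h2 : 1218 * (2 * (δ/2) - s) * (R/2 - 2 * (δ/2) + s) ^ (51/100:ℝ) ≤ 1218 * (2 * (δ/2)) * (R/2) ^ (51/100:ℝ) := by
        apply mul_le_mul (by linarith) h3 h4 (by positivity)
      linarith
    have h2 := hV (R/2 - 2 * (δ/2)) (δ/2) (by linarith) (by positivity) (by linarith)
    rw [vt_tsum] at h2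
    have e1 : 2 * (R/2 - 2 * (δ/2)) = R - 2 * δ := by ring
    have e2 : 2 * (δ/2) = δ := by ring
    rw [e1] at h2
    rw [e2] at h2 h1
    have h3 := (abs_le.mp h2).1
    have h4 := hmon R hR
    have h5 : (R/2 - δ) ^ (-(12/25):ℝ) * (δ/2) ^ (-(13/25):ℝ) ≤ 8 * (R ^ (-(12/25):ℝ) * δ ^ (-(13/25):ℝ)) := by
      refine le_trans ?_ (hrp R δ hR hδ)
      apply mul_le_mul_of_nonneg_right _ (by positivity)
      exact Real.rpow_le_rpow_of_nonpos (by positivity) (by linarith) (by norm_num)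
    have h6 : C * ((R/2 - δ) ^ (-(12/25):ℝ) * (δ/2) ^ (-(13/25):ℝ)) ≤ C * (8 * (R ^ (-(12/25):ℝ) * δ ^ (-(13/25):ℝ))) :=
      mul_le_mul_of_nonneg_left h5 hC.le
    have h7 : 2436 * (δ/2) * (R/2) ^ (51/100:ℝ) ≤ 2436 * (δ * R ^ (51/100:ℝ)) := by
      have : 0 ≤ R ^ (51/100:ℝ) := by positivity
      calc 2436 * (δ/2) * (R/2) ^ (51/100:ℝ) ≤ 2436 * (δ/2) * R ^ (51/100:ℝ) := by gcongr
        _ ≤ _ := by nlinarith
    have h8 : 0 ≤ R ^ (-(12/25):ℝ) * δ ^ (-(13/25):ℝ) := by positivity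
    have h9 : 0 ≤ C * (δ * R ^ (51/100:ℝ)) := by positivity
    unfold E2
    unfold Av at h1
    nlinarith

end Pool.Agent.H383.Div
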