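import Mathlib
import Pool.Agent.H383.GenAp2

open MeasureTheory Filter Topology
open Pool.Agent.H383.AP Pool.Agent.H383.Gauss

namespace Pool.Agent.H383.GW

open Pool.Agent.H383.Gen

/-- admissible smoothing weights -/
structure Wt (w : ℝ → ℂ) : Prop where
  one : ∀ y : ℝ, 0 < y → ‖w y‖ ≤ 1
  dec : ∃ C : ℝ, 0 < C ∧ ∀ y : ℝ, 0 < y → ‖w y‖ ≤ C * y ^ (-(3/2):ℝ)
  lip : ∃ C : ℝ, 0 < C ∧ ∀ y : ℝ, 0 < y → ‖w y - 1‖ ≤ C * y

/-- one term of the smoothed sum -/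
noncomputable def wt (a : ℕ → ℝ) (φ : ℝ) (w : ℝ → ℂ) (R δ : ℝ) (m : ℕ) : ℝ :=
  a m * (Complex.exp (((2 * Real.pi * (R * √(m:ℝ)) - φ : ℝ) : ℂ) * Complex.I) * w (√(m:ℝ) * δ)).re

/-- the smoothed Voronoi sum -/
noncomputable def WS (a : ℕ → ℝ) (φ : ℝ) (w : ℝ → ℂ) (R δ : ℝ) : ℝ := ∑' m, wt a φ w R δ m

variable {a : ℕ → ℝ} {φ : ℝ} {w : ℝ → ℂ}

lemma abs_wt_le (R δ : ℝ) (m : ℕ) : |wt a φ w R δ m| ≤ |a m| * ‖w (√(m:ℝ) * δ)‖ := by
  unfold wt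
  rw [abs_mul]
  apply mul_le_mul_of_nonneg_left _ (abs_nonneg _)
  refine (Complex.abs_re_le_norm _).trans ?_
  rw [norm_mul, Complex.norm_exp_ofReal_mul_I, one_mul]

lemma wt_far {C Cw : ℝ} (hC : 0 < C) (ha : ∀ m : ℕ, 1 ≤ m → |a m| ≤ C * (√(m:ℝ)) ^ (-(37/25):ℝ))
    (hw : ∀ y : ℝ, 0 < y → ‖w y‖ ≤ Cw * y ^ (-(3/2):ℝ)) {δ : ℝ} (hδ : 0 < δ)
    (R : ℝ) {m : ℕ} (hm : 1 ≤ m) : |wt a φ w R δ m| ≤ C * Cw * δ ^ (-(3/2):ℝ) * (m:ℝ) ^ (-(149/100):ℝ) := by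
  have hm0 : (0:ℝ) < m := by exact_mod_cast hm
  have hs : 0 < √(m:ℝ) := Real.sqrt_pos.mpr hm0
  have h1 := hw (√(m:ℝ) * δ) (by positivity)
  rw [Real.mul_rpow hs.le hδ.le] at h1
  calc |wt a φ w R δ m| ≤ |a m| * ‖w (√(m:ℝ) * δ)‖ := abs_wt_le R δ m
    _ ≤ (C * (√(m:ℝ)) ^ (-(37/25):ℝ)) * (Cw * ((√(m:ℝ)) ^ (-(3/2):ℝ) * δ ^ (-(3/2):ℝ))) :=
        mul_le_mul (ha m hm) h1 (norm_nonneg _) (by positivity)
    _ = C * Cw * δ ^ (-(3/2):ℝ) * ((√(m:ℝ)) ^ (-(37/25):ℝ) * (√(m:ℝ)) ^ (-(3/2):ℝ)) := by ring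
    _ = _ := by
        rw [← Real.rpow_add hs, Real.sqrt_eq_rpow, ← Real.rpow_mul hm0.le]
        norm_num

lemma wt_summable (ha : Bd a) (ha0 : a 0 = 0) (hw : Wt w)
    {δ : ℝ} (hδ : 0 < δ) (R : ℝ) : Summable (wt a φ w R δ) := by
  obtain ⟨C, hC, ha⟩ := ha
  obtain ⟨Cw, hCw, hwd⟩ := hw.dec
  have h1 : Summable (fun m : ℕ => C * Cw * δ ^ (-(3/2):ℝ) * (m:ℝ) ^ (-(149/100):ℝ)) := by
    apply Summable.mul_left
    rw [Real.summable_nat_rpow]; norm_num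
  apply Summable.of_norm_bounded h1
  intro m
  rw [Real.norm_eq_abs]
  rcases Nat.eq_zero_or_pos m with rfl | hm
  · unfold wt
    rw [ha0, zero_mul, abs_zero]
    positivity
  · exact wt_far hC ha hwd hδ R hm

/-- tail -/
lemma WS_tail (ha : Bd a) (ha0 : a 0 = 0) (hw : Wt w) :
    ∃ C' : ℝ, 0 < C' ∧ ∀ δ : ℝ, 0 < δ → ∀ (R : ℝ) (Y : ℕ), 1 ≤ Y →
    |WS a φ w R δ - ∑ m ∈ Finset.Icc 1 (Y^2), wt a φ w R δ m| ≤ C' * δ ^ (-(3/2):ℝ) * (Y:ℝ) ^ (-(24/25):ℝ) := by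
  have hsumm : ∀ {δ : ℝ}, 0 < δ → ∀ R : ℝ, Summable (wt a φ w R δ) := fun hδ R => wt_summable (φ := φ) ha ha0 hw hδ R
  obtain ⟨C, hC, ha⟩ := ha
  obtain ⟨Cw, hCw, hwd⟩ := hw.dec
  set Z : ℝ := ∑' k : ℕ, (k:ℝ) ^ (-(101/100):ℝ) with hZ
  have hZs : Summable (fun k : ℕ => (k:ℝ) ^ (-(101/100):ℝ)) := by
    rw [Real.summable_nat_rpow]; norm_num
  have hZ0 : 0 ≤ Z := tsum_nonneg (fun k => by positivity)
  refine ⟨C * Cw * (Z + 1), by positivity, ?_⟩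
  intro δ hδ R Y hY
  have hsum := hsumm hδ R
  have hY0 : (0:ℝ) < Y := by exact_mod_cast hY
  have h0 : wt a φ w R δ 0 = 0 := by unfold wt; rw [ha0, zero_mul]
  have hf : ∑ m ∈ Finset.Icc 1 (Y^2), wt a φ w R δ m = ∑ m ∈ Finset.range (Y^2+1), wt a φ w R δ m := by
    have h4 : Finset.range (Y^2+1) = insert 0 (Finset.Icc 1 (Y^2)) := by
      ext m; simp only [Finset.mem_range, Finset.mem_insert, Finset.mem_Icc]; omega
    rw [h4, Finset.sum_insert (by simp), h0, zero_add]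
  have h1 := hsum.sum_add_tsum_nat_add (Y^2+1)
  have h2 : WS a φ w R δ - ∑ m ∈ Finset.Icc 1 (Y^2), wt a φ w R δ m = ∑' k, wt a φ w R δ (k + (Y^2+1)) := by
    unfold WS
    rw [hf, ← h1]; ring
  rw [h2]
  have hb : ∀ k : ℕ, ‖wt a φ w R δ (k + (Y^2+1))‖ ≤
      C * Cw * δ ^ (-(3/2):ℝ) * ((Y:ℝ) ^ (-(24/25):ℝ) * ((k + (Y^2+1) : ℕ):ℝ) ^ (-(101/100):ℝ)) := by
    intro k
    rw [Real.norm_eq_abs]
    refine (wt_far hC ha hwd hδ R (by omega)).trans ?_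
    apply mul_le_mul_of_nonneg_left _ (by positivity)
    set m := k + (Y^2+1) with hm
    have hmY : (Y:ℝ)^2 ≤ m := by
      have : Y^2 ≤ m := by omega
      exact_mod_cast this
    have hm0 : (0:ℝ) < m := by exact_mod_cast (by omega : 0 < m)
    have e1 : (m:ℝ) ^ (-(149/100):ℝ) = (m:ℝ) ^ (-(48/100):ℝ) * (m:ℝ) ^ (-(101/100):ℝ) := by
      rw [← Real.rpow_add hm0]; norm_num
    rw [e1]
    apply mul_le_mul_of_nonneg_right _ (by positivity)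
    calc (m:ℝ) ^ (-(48/100):ℝ) ≤ ((Y:ℝ)^2) ^ (-(48/100):ℝ) :=
          Real.rpow_le_rpow_of_nonpos (by positivity) hmY (by norm_num)
      _ = _ := by rw [← Real.rpow_natCast, ← Real.rpow_mul hY0.le]; norm_num
  have hs2 : Summable (fun k : ℕ => C * Cw * δ ^ (-(3/2):ℝ) * ((Y:ℝ) ^ (-(24/25):ℝ) * ((k + (Y^2+1) : ℕ):ℝ) ^ (-(101/100):ℝ))) := by
    apply Summable.mul_left
    apply Summable.mul_left
    exact (summable_nat_add_iff (Y^2+1)).mpr hZs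
  have h3 := tsum_of_norm_bounded hs2.hasSum hb
  rw [Real.norm_eq_abs] at h3
  refine h3.trans ?_
  rw [tsum_mul_left, tsum_mul_left]
  have h4 : ∑' k : ℕ, ((k + (Y^2+1) : ℕ):ℝ) ^ (-(101/100):ℝ) ≤ Z := by
    have h5 := hZs.sum_add_tsum_nat_add (Y^2+1)
    rw [hZ, ← h5]
    have : 0 ≤ ∑ i ∈ Finset.range (Y^2+1), (i:ℝ) ^ (-(101/100):ℝ) := Finset.sum_nonneg (fun k _ => by positivity)
    linarith
  calc C * Cw * δ ^ (-(3/2):ℝ) * ((Y:ℝ) ^ (-(24/25):ℝ) * ∑' k : ℕ, ((k + (Y^2+1) : ℕ):ℝ) ^ (-(101/100):ℝ))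
      ≤ C * Cw * δ ^ (-(3/2):ℝ) * ((Y:ℝ) ^ (-(24/25):ℝ) * (Z + 1)) := by gcongr; linarith
    _ = _ := by ring

/-- low frequencies -/
lemma WS_low (a : ℕ → ℝ) (φ : ℝ) (hw : Wt w) (κ : ℝ) (M : ℕ) : ∃ K : ℝ, 0 < K ∧ ∀ R δ : ℝ, 0 < δ →
    |∑ m ∈ Finset.Icc 1 (M^2), wt a φ w (R + κ * δ) δ m - U a φ R M| ≤ K * δ := by
  have hpi := Real.pi_pos
  obtain ⟨Cl, hCl, hl⟩ := hw.lip
  refine ⟨∑ m ∈ Finset.Icc 1 (M^2), |a m| * ((Cl + 2 * Real.pi * |κ|) * √(m:ℝ)) + 1, ?_, ?_⟩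
  · have : 0 ≤ ∑ m ∈ Finset.Icc 1 (M^2), |a m| * ((Cl + 2 * Real.pi * |κ|) * √(m:ℝ)) :=
      Finset.sum_nonneg (fun m _ => by positivity)
    linarith
  · intro R δ hδ
    unfold U
    rw [← Finset.sum_sub_distrib]
    refine (Finset.abs_sum_le_sum_abs _ _).trans ?_
    rw [add_mul, Finset.sum_mul, one_mul]
    refine le_trans ?_ (le_add_of_nonneg_right hδ.le)
    apply Finset.sum_le_sum
    intro m hm
    rw [Finset.mem_Icc] at hm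
    have hm0 : (0:ℝ) < m := by exact_mod_cast hm.1
    have hs : 0 < √(m:ℝ) := Real.sqrt_pos.mpr hm0
    unfold wt
    rw [← mul_sub, abs_mul, mul_assoc |a m|]
    apply mul_le_mul_of_nonneg_left _ (abs_nonneg _)
    set θ' : ℝ := 2 * Real.pi * ((R + κ * δ) * √(m:ℝ)) - φ with hθ'
    set θ : ℝ := 2 * Real.pi * (R * √(m:ℝ)) - φ with hθ
    have h1 : (Complex.exp ((θ' : ℂ) * Complex.I) * w (√(m:ℝ) * δ)).re - Real.cos θ =
        (Complex.exp ((θ' : ℂ) * Complex.I) * (w (√(m:ℝ) * δ) - 1)).re + (Real.cos θ' - Real.cos θ) := by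
      rw [mul_sub, Complex.sub_re, mul_one, Complex.exp_ofReal_mul_I_re]; ring
    rw [h1]
    have h2 : |(Complex.exp ((θ' : ℂ) * Complex.I) * (w (√(m:ℝ) * δ) - 1)).re| ≤ Cl * (√(m:ℝ) * δ) := by
      refine (Complex.abs_re_le_norm _).trans ?_
      rw [norm_mul, Complex.norm_exp_ofReal_mul_I, one_mul]
      exact hl _ (by positivity)
    have h5 : |Real.cos θ' - Real.cos θ| ≤ 2 * Real.pi * |κ| * (√(m:ℝ) * δ) := by
      refine (Real.abs_cos_sub_cos_le θ' θ).trans ?_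
      have e : θ' - θ = (2 * Real.pi * √(m:ℝ) * δ) * κ := by rw [hθ', hθ]; ring
      rw [e, abs_mul, abs_of_pos (by positivity : 0 < 2 * Real.pi * √(m:ℝ) * δ)]
      apply le_of_eq; ring
    calc _ ≤ _ + _ := abs_add_le _ _
      _ ≤ Cl * (√(m:ℝ) * δ) + 2 * Real.pi * |κ| * (√(m:ℝ) * δ) := add_le_add h2 h5
      _ = _ := by ring

/-- the error terms allowed in the sandwich -/
noncomputable def er (R δ : ℝ) : ℝ := δ * R ^ (51/100:ℝ) + R ^ (-(12/25):ℝ) * δ ^ (-(13/25):ℝ) + δ ^ (2/5:ℝ)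

/-- two-sided smooth approximation of `E`, stable under small shifts -/
structure Sand (E : ℝ → ℝ) (a : ℕ → ℝ) (φ : ℝ) (w : ℝ → ℂ) (κ₁ κ₂ C0 : ℝ) : Prop where
  up : ∀ R R' δ : ℝ, 4 ≤ R → 0 < δ → δ ≤ 1/2 → |R' - R| ≤ δ → E R' ≤ WS a φ w (R + κ₁ * δ) δ + C0 * er R δ
  lo : ∀ R R' δ : ℝ, 4 ≤ R → 0 < δ → δ ≤ 1/2 → |R' - R| ≤ δ → WS a φ w (R + κ₂ * δ) δ - C0 * er R δ ≤ E R'

lemma dyadic {f : ℕ → ℝ} (hf : ∀ n, 0 ≤ f n) {K : ℝ} (hK : 0 ≤ K) {N0 : ℕ}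
    (h : ∀ N, N0 ≤ N → ∑ n ∈ Finset.Ico (N/2) N, f n ≤ K * N) :
    ∀ N, ∑ n ∈ Finset.range N, f n ≤ 3 * K * N + ∑ n ∈ Finset.range N0, f n := by
  intro N
  induction N using Nat.strong_induction_on with
  | _ N ih =>
    by_cases hN : N ≤ N0
    · have h1 : ∑ n ∈ Finset.range N, f n ≤ ∑ n ∈ Finset.range N0, f n :=
        Finset.sum_le_sum_of_subset_of_nonneg (Finset.range_subset_range.mpr hN) (fun n _ _ => hf n)
      have : 0 ≤ 3 * K * N := by positivity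
      linarith
    · push Not at hN
      have hN1 : N/2 < N := by omega
      have h1 := ih (N/2) hN1
      have h2 := h N hN.le
      have h3 : ∑ n ∈ Finset.range N, f n = ∑ n ∈ Finset.range (N/2), f n + ∑ n ∈ Finset.Ico (N/2) N, f n := by
        rw [Finset.range_eq_Ico, Finset.range_eq_Ico, Finset.sum_Ico_consecutive _ (by omega) (by omega)]
      have h4 : ((N/2 : ℕ):ℝ) ≤ N/2 := Nat.cast_div_le
      have h5 : 3 * K * ((N/2 : ℕ):ℝ) ≤ 3 * K * (N/2) := by gcongr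
      have h6 : 0 ≤ K * N := by positivity
      rw [h3]; nlinarith

lemma lip_sum_four (a b c d : ℝ) : (a + b + c + d)^2 ≤ 4 * (a^2 + b^2 + c^2 + d^2) := by
  nlinarith [sq_nonneg (a-b), sq_nonneg (a-c), sq_nonneg (a-d), sq_nonneg (b-c), sq_nonneg (b-d), sq_nonneg (c-d)]

variable {E : ℝ → ℝ}

theorem ap_aux (ha : Bd a) (ha0 : a 0 = 0) (hw : Wt w) {κ₁ κ₂ C0 : ℝ} (hC0 : 0 < C0)
    (hS : Sand E a φ w κ₁ κ₂ C0) {α : ℝ} (hα : 0 < α) : ∃ C : ℝ, 0 < C ∧ ∀ X : ℝ, 4 ≤ X →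
    ∀ Rn : ℕ → ℝ, (∃ C₁ : ℝ, ∀ n : ℕ, |Rn n - (X + n * α)| ≤ C₁ / (n + 1)) →
    ∀ M : ℕ, 1 ≤ M → ∀ η : ℝ, 0 < η →
    ∃ N0 : ℕ, ∀ N : ℕ, N0 ≤ N →
    ∑ n ∈ Finset.Ico (N/2) N, (E (Rn n) - U a φ (X + n * α) M)^2 ≤ (C * Tl M + η) * N := by
  obtain ⟨Ct, hCt, htail⟩ := WS_tail (a := a) (φ := φ) (w := w) ha ha0 hw
  obtain ⟨Ca, hCa, haC⟩ := ha
  obtain ⟨Cw, hCw, hwd⟩ := hw.dec
  obtain ⟨C1, hC1, N1, hD⟩ := D_ms_gen hα (show 0 < Ca * (Cw + 1) by positivity)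
  refine ⟨12 * C1, by positivity, ?_⟩
  intro X hX Rn hRn M hM η hη
  obtain ⟨C₁, hRn⟩ := hRn
  obtain ⟨K₁, hK₁, hlow₁⟩ := WS_low a φ hw κ₁ M
  obtain ⟨K₂, hK₂, hlow₂⟩ := WS_low a φ hw κ₂ M
  have hpi := Real.pi_pos
  set G : ℕ → ℝ := fun N => (K₁ + K₂) * (N:ℝ) ^ (-(25/48):ℝ) + 2 * Ct * (α/4) ^ (-(24/25):ℝ) * (N:ℝ) ^ (-(143/800):ℝ) +
    C0 * (X + α) ^ (51/100:ℝ) * (N:ℝ) ^ (-(13/1200):ℝ) + C0 * (N:ℝ) ^ (-(5/24):ℝ) with hG
  have hGt : Tendsto G atTop (𝓝 0) := by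
    have h1 := tend_nat_rpow (y := 25/48) (by norm_num) (K₁ + K₂)
    have h2 := tend_nat_rpow (y := 143/800) (by norm_num) (2 * Ct * (α/4) ^ (-(24/25):ℝ))
    have h3 := tend_nat_rpow (y := 13/1200) (by norm_num) (C0 * (X + α) ^ (51/100:ℝ))
    have h4 := tend_nat_rpow (y := 5/24) (by norm_num) C0
    have h5 := ((h1.add h2).add h3).add h4
    simp only [add_zero] at h5
    exact h5
  set u : ℕ → ℝ := fun N => 4 * (G N)^2 + 4 * C0^2 * (((N:ℝ) ^ (25/48:ℝ)) ^ (26/25:ℝ) *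
    ((N:ℝ)⁻¹ * ∑ n ∈ Finset.range N, (X + n * α) ^ (-(24/25):ℝ))) with hu
  have hut : Tendsto u atTop (𝓝 0) := by
    have h1 := (hGt.pow 2).const_mul 4
    have h2 := (tend_err (X := X) hα (by linarith)).const_mul (4 * C0^2)
    have h4 := h1.add h2
    simp only [ne_eq, OfNat.ofNat_ne_zero, not_false_eq_true, zero_pow, mul_zero, add_zero] at h4
    exact h4
  have hpert : ∀ᶠ N : ℕ in atTop, 3 * |C₁| * (N:ℝ) ^ (-(23/48):ℝ) < 1 :=
    (tend_nat_rpow (y := 23/48) (by norm_num) (3 * |C₁|)).eventually (gt_mem_nhds one_pos)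
  have hev := (hut.eventually (gt_mem_nhds hη)).and hpert
  rw [eventually_atTop] at hev
  obtain ⟨N2, hN2⟩ := hev
  refine ⟨max (max N1 N2) (max 4 (⌈(4*(M+1))/α⌉₊ + 1)), ?_⟩
  intro N hN
  have hNN1 : N1 ≤ N := by omega
  have hNN2 : N2 ≤ N := by omega
  have hN4 : 4 ≤ N := by omega
  have hNα : ⌈(4*(M+1))/α⌉₊ ≤ N := by omega
  have hN4' : (4:ℝ) ≤ N := by exact_mod_cast hN4
  have hN0 : (0:ℝ) < N := by linarith
  have hN1' : (1:ℝ) ≤ N := by linarith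
  have hαN : 4 * ((M:ℝ)+1) ≤ α * N := by
    have h1 : (4*(M+1))/α ≤ N := (Nat.le_ceil _).trans (by exact_mod_cast hNα)
    rw [div_le_iff₀ hα] at h1
    linarith
  have hM' : (1:ℝ) ≤ M := by exact_mod_cast hM
  set δ : ℝ := (N:ℝ) ^ (-(25/48):ℝ) with hδ
  have hδ0 : 0 < δ := by positivity
  have hδ1 : δ ≤ 1/2 := by
    have h1 : δ ≤ (4:ℝ) ^ (-(25/48):ℝ) := Real.rpow_le_rpow_of_nonpos (by norm_num) hN4' (by norm_num)
    have h2 : (4:ℝ) ^ (-(25/48):ℝ) ≤ (4:ℝ) ^ (-(1/2):ℝ) := Real.rpow_le_rpow_of_exponent_le (by norm_num) (by norm_num)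
    have h3 : (4:ℝ) ^ (-(1/2):ℝ) = 1/2 := by
      rw [Real.rpow_neg (by norm_num), ← Real.sqrt_eq_rpow, show (4:ℝ) = 2^2 by norm_num, Real.sqrt_sq (by norm_num)]
      norm_num
    linarith
  set Y : ℕ := ⌊α * N / 2⌋₊ with hY
  have hY2 : 2 * (Y:ℝ) ≤ α * N := by
    have := Nat.floor_le (by positivity : 0 ≤ α * N / 2)
    linarith
  have hY4 : α * N / 4 ≤ Y := by
    have := Nat.lt_floor_add_one (α * N / 2)
    rw [← hY] at this
    linarith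
  have hMY : M ≤ Y := by
    have : (M:ℝ) ≤ Y := by linarith
    exact_mod_cast this
  have hY1 : 1 ≤ Y := by omega
  have hτ : Ct * δ ^ (-(3/2):ℝ) * (Y:ℝ) ^ (-(24/25):ℝ) ≤ Ct * (α/4) ^ (-(24/25):ℝ) * (N:ℝ) ^ (-(143/800):ℝ) := by
    have e1 : δ ^ (-(3/2):ℝ) = (N:ℝ) ^ (25/32:ℝ) := by
      rw [hδ, ← Real.rpow_mul hN0.le]; norm_num
    have e2 : (Y:ℝ) ^ (-(24/25):ℝ) ≤ (α/4) ^ (-(24/25):ℝ) * (N:ℝ) ^ (-(24/25):ℝ) := by
      rw [← Real.mul_rpow (by positivity) hN0.le]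
      apply Real.rpow_le_rpow_of_nonpos (by positivity) _ (by norm_num)
      linarith
    calc Ct * δ ^ (-(3/2):ℝ) * (Y:ℝ) ^ (-(24/25):ℝ) ≤ Ct * (N:ℝ) ^ (25/32:ℝ) * ((α/4) ^ (-(24/25):ℝ) * (N:ℝ) ^ (-(24/25):ℝ)) := by
          rw [e1]; exact mul_le_mul_of_nonneg_left e2 (by positivity)
      _ = Ct * (α/4) ^ (-(24/25):ℝ) * ((N:ℝ) ^ (25/32:ℝ) * (N:ℝ) ^ (-(24/25):ℝ)) := by ring
      _ = _ := by rw [← Real.rpow_add hN0]; norm_num
  -- the middle range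
  set mid : ℝ → ℕ → ℝ := fun X' n => ∑ m ∈ Finset.Ioc (M^2) (Y^2), wt a φ w (X' + n * α) δ m with hmid
  have hmidb : ∀ X' : ℝ, ∑ n ∈ Finset.range N, (mid X' n)^2 ≤ C1 * N * Tl M := by
    intro X'
    set b : ℕ → ℂ := fun m => ac a φ X' m * w (√(m:ℝ) * δ) with hb
    have h1 := hD N b M Y hNN1 hM hY2 (by
      intro m hm
      have hm0 : (0:ℝ) < m := by exact_mod_cast hm
      have hs : 0 < √(m:ℝ) := Real.sqrt_pos.mpr hm0
      rw [← hδ]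
      simp only [hb]
      rw [norm_mul, norm_ac]
      unfold hf
      have h2 := haC m hm
      have h3 := hw.one (√(m:ℝ) * δ) (by positivity)
      have h4 := hwd (√(m:ℝ) * δ) (by positivity)
      set y := √(m:ℝ) * δ with hy
      have hy0 : 0 < y := by positivity
      rw [show δ * √(m:ℝ) = y by rw [hy]; ring]
      have h5 : ‖w y‖ ≤ (Cw + 1) * min 1 (y ^ (-(3/2):ℝ)) := by
        rcases min_choice (1:ℝ) (y ^ (-(3/2):ℝ)) with hc | hc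
        · rw [hc]; linarith
        · rw [hc]
          have : 0 ≤ y ^ (-(3/2):ℝ) := by positivity
          linarith
      calc |a m| * ‖w y‖ ≤ (Ca * (√(m:ℝ)) ^ (-(37/25):ℝ)) * ((Cw + 1) * min 1 (y ^ (-(3/2):ℝ))) :=
            mul_le_mul h2 h5 (norm_nonneg _) (by positivity)
        _ = _ := by ring)
    refine le_trans ?_ h1
    apply Finset.sum_le_sum
    intro n _
    have h2 : mid X' n = (∑ m ∈ Finset.Ioc (M^2) (Y^2), b m *
      Complex.exp (((2 * Real.pi * (n * (α * √(m:ℝ))) : ℝ) : ℂ) * Complex.I)).re := by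
      simp only [hmid, hb]
      rw [Complex.re_sum]
      apply Finset.sum_congr rfl
      intro m _
      unfold wt
      rw [← Complex.re_ofReal_mul]
      congr 1
      have h3 := ac_shift a φ X' α m n
      unfold chr at h3
      have h4 : ac a φ X' m * w (√(m:ℝ) * δ) * Complex.exp (((2 * Real.pi * (n * (α * √(m:ℝ))) : ℝ) : ℂ) * Complex.I) =
          ac a φ (X' + n * α) m * w (√(m:ℝ) * δ) := by rw [h3]; ring
      rw [h4]
      unfold ac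
      ring
    rw [h2, ← sq_abs]
    exact pow_le_pow_left₀ (abs_nonneg _) (Complex.abs_re_le_norm _) 2
  -- pointwise bound
  have hpt : ∀ n ∈ Finset.Ico (N/2) N, (E (Rn n) - U a φ (X + n * α) M)^2 ≤
      4 * ((G N)^2 + C0^2 * (((N:ℝ) ^ (25/48:ℝ)) ^ (26/25:ℝ) * (X + n * α) ^ (-(24/25):ℝ)) +
        (mid (X + κ₁ * δ) n)^2 + (mid (X + κ₂ * δ) n)^2) := by
    intro n hn
    rw [Finset.mem_Ico] at hn
    have hn' : (n:ℝ) ≤ N := by exact_mod_cast hn.2.le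
    set R : ℝ := X + n * α with hR
    have hn0 : (0:ℝ) ≤ n := Nat.cast_nonneg n
    have hR2 : 4 ≤ R := by rw [hR]; nlinarith
    have hR0 : 0 < R := by linarith
    have hshift : |Rn n - R| ≤ δ := by
      have s1 := hRn n
      rw [← hR] at s1
      have s2 : (N:ℝ)/3 ≤ n + 1 := by
        have : N ≤ 2 * (n + 1) := by omega
        have : (N:ℝ) ≤ 2 * (n + 1) := by exact_mod_cast this
        linarith
      have s3 : C₁ / (n + 1) ≤ 3 * |C₁| / N := by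
        calc C₁ / (n + 1) ≤ |C₁| / (n + 1) := by gcongr; exact le_abs_self _
          _ ≤ |C₁| / (N/3) := by gcongr
          _ = _ := by field_simp
      have s4 := (hN2 N hNN2).2
      have s5 : 3 * |C₁| / N ≤ δ := by
        rw [div_le_iff₀ hN0]
        have e : δ * N = (N:ℝ) ^ (23/48:ℝ) := by
          rw [hδ]
          nth_rewrite 2 [← Real.rpow_one (N:ℝ)]
          rw [← Real.rpow_add hN0]; norm_num
        rw [e]
        have e2 : (N:ℝ) ^ (-(23/48):ℝ) * (N:ℝ) ^ (23/48:ℝ) = 1 := by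
          rw [← Real.rpow_add hN0]; norm_num
        have e3 : 0 < (N:ℝ) ^ (23/48:ℝ) := by positivity
        calc 3 * |C₁| = (3 * |C₁| * (N:ℝ) ^ (-(23/48):ℝ)) * (N:ℝ) ^ (23/48:ℝ) := by
              rw [mul_assoc, e2, mul_one]
          _ ≤ 1 * (N:ℝ) ^ (23/48:ℝ) := by gcongr
          _ = _ := one_mul _
      linarith
    have h1 := hS.up R (Rn n) δ hR2 hδ0 hδ1 hshift
    have h2 := hS.lo R (Rn n) δ hR2 hδ0 hδ1 hshift
    -- decomposition of WS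
    have hdec : ∀ (κ K : ℝ), |∑ m ∈ Finset.Icc 1 (M^2), wt a φ w (R + κ * δ) δ m - U a φ R M| ≤ K * δ →
        |WS a φ w (R + κ * δ) δ - U a φ R M| ≤
        K * δ + |mid (X + κ * δ) n| + Ct * δ ^ (-(3/2):ℝ) * (Y:ℝ) ^ (-(24/25):ℝ) := by
      intro κ K hK
      have t1 := htail δ hδ0 (R + κ * δ) Y hY1
      have e3 : X + κ * δ + n * α = R + κ * δ := by rw [hR]; ring
      have hsplit : ∑ m ∈ Finset.Icc 1 (Y^2), wt a φ w (R + κ * δ) δ m =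
          ∑ m ∈ Finset.Icc 1 (M^2), wt a φ w (R + κ * δ) δ m + mid (X + κ * δ) n := by
        simp only [hmid]
        rw [e3, ← Finset.sum_union]
        · apply Finset.sum_congr _ (fun _ _ => rfl)
          have : M^2 ≤ Y^2 := Nat.pow_le_pow_left hMY 2
          ext m
          simp only [Finset.mem_union, Finset.mem_Icc, Finset.mem_Ioc]
          omega
        · rw [Finset.disjoint_left]
          intro m hm1 hm2
          rw [Finset.mem_Icc] at hm1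
          rw [Finset.mem_Ioc] at hm2
          omega
      rw [hsplit] at t1
      set L := ∑ m ∈ Finset.Icc 1 (M^2), wt a φ w (R + κ * δ) δ m
      have e : WS a φ w (R + κ * δ) δ - U a φ R M =
          (WS a φ w (R + κ * δ) δ - (L + mid (X + κ * δ) n)) + (L - U a φ R M) + mid (X + κ * δ) n := by ring
      rw [e]
      calc _ ≤ |(WS a φ w (R + κ * δ) δ - (L + mid (X + κ * δ) n)) + (L - U a φ R M)| + |mid (X + κ * δ) n| := abs_add_le _ _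
        _ ≤ |WS a φ w (R + κ * δ) δ - (L + mid (X + κ * δ) n)| + |L - U a φ R M| + |mid (X + κ * δ) n| := by
            gcongr; exact abs_add_le _ _
        _ ≤ _ := by linarith
    have d1 := hdec κ₁ K₁ (hlow₁ R δ hδ0)
    have d2 := hdec κ₂ K₂ (hlow₂ R δ hδ0)
    have d1' := abs_le.mp d1
    have d2' := abs_le.mp d2
    have hm1 := abs_nonneg (mid (X + κ₁ * δ) n)
    have hm2 := abs_nonneg (mid (X + κ₂ * δ) n)
    have hKδ : 0 < K₁ * δ := by positivity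
    have hKδ2 : 0 < K₂ * δ := by positivity
    have hτ0 : 0 ≤ Ct * δ ^ (-(3/2):ℝ) * (Y:ℝ) ^ (-(24/25):ℝ) := by positivity
    -- the error
    have her1 : C0 * (δ * R ^ (51/100:ℝ)) ≤ C0 * (X + α) ^ (51/100:ℝ) * (N:ℝ) ^ (-(13/1200):ℝ) := by
      have g1 : R ≤ (X + α) * N := by
        rw [hR]
        have : (n:ℝ) * α ≤ N * α := mul_le_mul_of_nonneg_right hn' hα.le
        nlinarith
      have g2 : R ^ (51/100:ℝ) ≤ (X + α) ^ (51/100:ℝ) * (N:ℝ) ^ (51/100:ℝ) := by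
        rw [← Real.mul_rpow (by positivity) hN0.le]
        exact Real.rpow_le_rpow hR0.le g1 (by norm_num)
      calc C0 * (δ * R ^ (51/100:ℝ)) ≤ C0 * (δ * ((X + α) ^ (51/100:ℝ) * (N:ℝ) ^ (51/100:ℝ))) := by gcongr
        _ = C0 * (X + α) ^ (51/100:ℝ) * ((N:ℝ) ^ (-(25/48):ℝ) * (N:ℝ) ^ (51/100:ℝ)) := by rw [hδ]; ring
        _ = _ := by rw [← Real.rpow_add hN0]; norm_num
    have her3 : C0 * δ ^ (2/5:ℝ) = C0 * (N:ℝ) ^ (-(5/24):ℝ) := by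
      rw [hδ, ← Real.rpow_mul hN0.le]; norm_num
    set er2 : ℝ := C0 * (R ^ (-(12/25):ℝ) * δ ^ (-(13/25):ℝ)) with her2
    have her20 : 0 ≤ er2 := by positivity
    have her2sq : er2^2 = C0^2 * (((N:ℝ) ^ (25/48:ℝ)) ^ (26/25:ℝ) * R ^ (-(24/25):ℝ)) := by
      rw [her2, mul_pow, mul_pow]
      have i1 : (R ^ (-(12/25):ℝ))^2 = R ^ (-(24/25):ℝ) := by
        rw [← Real.rpow_natCast, ← Real.rpow_mul hR0.le]; norm_num
      have i2 : (δ ^ (-(13/25):ℝ))^2 = ((N:ℝ) ^ (25/48:ℝ)) ^ (26/25:ℝ) := by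
        rw [hδ, ← Real.rpow_natCast, ← Real.rpow_mul (by positivity), ← Real.rpow_mul hN0.le, ← Real.rpow_mul hN0.le]
        norm_num
      rw [i1, i2]; ring
    have hG0 : (K₁ + K₂) * δ + 2 * (Ct * δ ^ (-(3/2):ℝ) * (Y:ℝ) ^ (-(24/25):ℝ)) + C0 * (δ * R ^ (51/100:ℝ)) +
        C0 * δ ^ (2/5:ℝ) ≤ G N := by
      simp only [hG]
      rw [← hδ]
      linarith
    have hera : C0 * er R δ = C0 * (δ * R ^ (51/100:ℝ)) + er2 + C0 * δ ^ (2/5:ℝ) := by rw [er, her2]; ring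
    rw [hera] at h1 h2
    have hp1 : 0 ≤ C0 * (δ * R ^ (51/100:ℝ)) := by positivity
    have hp2 : 0 ≤ C0 * δ ^ (2/5:ℝ) := by positivity
    have htot : |E (Rn n) - U a φ R M| ≤ G N + er2 + |mid (X + κ₁ * δ) n| + |mid (X + κ₂ * δ) n| := by
      rw [abs_le]
      constructor
      · linarith
      · linarith
    calc (E (Rn n) - U a φ R M)^2 = |E (Rn n) - U a φ R M|^2 := (sq_abs _).symm
      _ ≤ (G N + er2 + |mid (X + κ₁ * δ) n| + |mid (X + κ₂ * δ) n|)^2 := pow_le_pow_left₀ (abs_nonneg _) htot 2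
      _ ≤ 4 * ((G N)^2 + er2^2 + |mid (X + κ₁ * δ) n|^2 + |mid (X + κ₂ * δ) n|^2) := lip_sum_four _ _ _ _
      _ = _ := by rw [sq_abs, sq_abs, her2sq]
  -- summing
  have hs1 := hmidb (X + κ₁ * δ)
  have hs2 := hmidb (X + κ₂ * δ)
  have hu1 := (hN2 N hNN2).1
  have hTl := Tl_nonneg M
  have hC1T : 0 ≤ C1 * Tl M := by positivity
  calc ∑ n ∈ Finset.Ico (N/2) N, (E (Rn n) - U a φ (X + n * α) M)^2
      ≤ ∑ n ∈ Finset.Ico (N/2) N, 4 * ((G N)^2 + C0^2 * (((N:ℝ) ^ (25/48:ℝ)) ^ (26/25:ℝ) * (X + n * α) ^ (-(24/25):ℝ)) +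
        (mid (X + κ₁ * δ) n)^2 + (mid (X + κ₂ * δ) n)^2) := Finset.sum_le_sum hpt
    _ ≤ ∑ n ∈ Finset.range N, 4 * ((G N)^2 + C0^2 * (((N:ℝ) ^ (25/48:ℝ)) ^ (26/25:ℝ) * (X + n * α) ^ (-(24/25):ℝ)) +
        (mid (X + κ₁ * δ) n)^2 + (mid (X + κ₂ * δ) n)^2) := by
        apply Finset.sum_le_sum_of_subset_of_nonneg
        · intro n hn
          rw [Finset.mem_Ico] at hn
          exact Finset.mem_range.mpr hn.2
        · intro n _ _
          have : 0 ≤ X + n * α := by positivity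
          positivity
    _ = 4 * (N * (G N)^2 + C0^2 * (((N:ℝ) ^ (25/48:ℝ)) ^ (26/25:ℝ) * ∑ n ∈ Finset.range N, (X + n * α) ^ (-(24/25):ℝ)) +
        ∑ n ∈ Finset.range N, (mid (X + κ₁ * δ) n)^2 + ∑ n ∈ Finset.range N, (mid (X + κ₂ * δ) n)^2) := by
          rw [← Finset.mul_sum]
          congr 1
          simp only [Finset.sum_add_distrib]
          rw [Finset.sum_const, Finset.card_range, nsmul_eq_mul, ← Finset.mul_sum, ← Finset.mul_sum]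
    _ ≤ 4 * (N * (G N)^2 + C0^2 * (((N:ℝ) ^ (25/48:ℝ)) ^ (26/25:ℝ) * ∑ n ∈ Finset.range N, (X + n * α) ^ (-(24/25):ℝ)) +
          C1 * N * Tl M + C1 * N * Tl M) := by
          linarith
    _ = (8 * C1 * Tl M + u N) * N := by
          simp only [hu]
          generalize ∑ n ∈ Finset.range N, (X + n * α) ^ (-(24/25):ℝ) = s
          field_simp
          ring
    _ ≤ (12 * C1 * Tl M + η) * N := by
          apply mul_le_mul_of_nonneg_right _ hN0.le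
          linarith

/-- **general theorem**: mean-square approximation along perturbed progressions -/
theorem ap_of (ha : Bd a) (ha0 : a 0 = 0) (hw : Wt w) {κ₁ κ₂ C0 : ℝ} (hC0 : 0 < C0)
    (hS : Sand E a φ w κ₁ κ₂ C0) {α : ℝ} (hα : 0 < α) (X : ℝ) {Rn : ℕ → ℝ}
    (hRn : ∃ C₁ : ℝ, ∀ n : ℕ, |Rn n - (X + n * α)| ≤ C₁ / (n + 1)) :
    Ap a φ (fun n : ℕ => E (Rn n)) α X := by
  obtain ⟨C, hC, h⟩ := ap_aux ha ha0 hw hC0 hS hα
  obtain ⟨C₁, hRn⟩ := hRn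
  intro η0 hη0
  have h1 : Tendsto (fun M => C * Tl M) atTop (𝓝 0) := by
    have := Tl_tendsto.const_mul C
    rwa [mul_zero] at this
  have h2 := (h1.eventually (gt_mem_nhds (by positivity : 0 < η0/12))).and (eventually_ge_atTop 1)
  rw [eventually_atTop] at h2
  obtain ⟨M0, hM0⟩ := h2
  refine ⟨M0, fun M hM => ?_⟩
  obtain ⟨hM1, hM2⟩ := hM0 M hM
  obtain ⟨n0, hn0⟩ := exists_nat_ge ((4 - X)/α)
  have hX' : 4 ≤ X + n0 * α := by
    rw [div_le_iff₀ hα] at hn0; linarith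
  -- shifted sequence
  obtain ⟨N1, hN1⟩ := h (X + n0 * α) hX' (fun n => Rn (n0 + n)) ⟨|C₁|, by
    intro n
    have s1 := hRn (n0 + n)
    have e : X + n0 * α + n * α = X + ((n0 + n : ℕ):ℝ) * α := by push_cast; ring
    rw [e]
    refine s1.trans ?_
    have hn : (0:ℝ) ≤ n := Nat.cast_nonneg n
    have hn0' : (0:ℝ) ≤ n0 := Nat.cast_nonneg n0
    calc C₁ / (((n0 + n : ℕ):ℝ) + 1) ≤ |C₁| / (((n0 + n : ℕ):ℝ) + 1) := by gcongr; exact le_abs_self _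
      _ ≤ |C₁| / (n + 1) := by
          gcongr
          push_cast; linarith⟩ M hM2 (η0/12) (by positivity)
  set f : ℕ → ℝ := fun n => (E (Rn (n0 + n)) - U a φ (X + n0 * α + n * α) M)^2 with hf
  have hf0 : ∀ n, 0 ≤ f n := fun n => sq_nonneg _
  have hTl := Tl_nonneg M
  have hdy := dyadic hf0 (K := C * Tl M + η0/12) (by positivity) (N0 := N1) hN1
  set S1 := ∑ n ∈ Finset.range N1, f n with hS1
  have hS10 : 0 ≤ S1 := Finset.sum_nonneg (fun n _ => hf0 n)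
  set e : ℕ → ℝ := fun n => (E (Rn n) - U a φ (X + n * α) M)^2 with he
  have he0 : ∀ n, 0 ≤ e n := fun n => sq_nonneg _
  set S := ∑ n ∈ Finset.range n0, e n with hSd
  have hS0 : 0 ≤ S := Finset.sum_nonneg (fun n _ => he0 n)
  obtain ⟨N2, hN2⟩ := exists_nat_ge (2 * (S + S1) / η0)
  refine ⟨N1 + N2 + n0 + 1, ?_⟩
  intro N hN
  have hN' : (0:ℝ) < N := by exact_mod_cast (by omega : 0 < N)
  obtain ⟨N', rfl⟩ : ∃ N', N = n0 + N' := ⟨N - n0, by omega⟩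
  have hN'0 : (0:ℝ) < N' := by exact_mod_cast (by omega : 0 < N')
  have h1 := hdy N'
  have e1 : ∀ n : ℕ, f n = e (n0 + n) := by
    intro n
    simp only [he, hf]
    have : X + n0 * α + n * α = X + ((n0 + n : ℕ):ℝ) * α := by push_cast; ring
    rw [this]
  rw [Finset.sum_congr rfl (fun n _ => e1 n)] at h1
  have hsplit : ∑ n ∈ Finset.range (n0 + N'), e n = S + ∑ n ∈ Finset.range N', e (n0 + n) :=
    Finset.sum_range_add e n0 N'
  unfold rm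
  rw [hsplit, div_le_iff₀ hN']
  have h2 : S + S1 ≤ η0/2 * N' := by
    have : (N2:ℝ) ≤ N' := by exact_mod_cast (by omega : N2 ≤ N')
    have h3 : 2 * (S + S1) / η0 ≤ N' := hN2.trans this
    rw [div_le_iff₀ hη0] at h3
    linarith
  have h3 : (N':ℝ) ≤ ((n0 + N' : ℕ):ℝ) := by exact_mod_cast (by omega : N' ≤ n0 + N')
  have h5 : 3 * (C * Tl M + η0/12) * N' ≤ η0/2 * N' := by
    apply mul_le_mul_of_nonneg_right _ hN'0.le
    linarith
  have h6 : η0 * N' ≤ η0 * ((n0 + N' : ℕ):ℝ) := by gcongr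
  linarith

end Pool.Agent.H383.GW
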