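import Mathlib
import Pool.Agent.H383.DivB
import Pool.Agent.H383.GenW

open MeasureTheory Filter Topology
open Pool.Agent.H387R2.Vor
open Pool.Agent.H383.Gen
open Pool.Agent.H383.GW

namespace Pool.Agent.H383.Div

/-- the weight -/
noncomputable def wd (y : ℝ) : ℂ := (Gen.cf y)^2

lemma wd_Wt : Wt wd := by
  have hpi := Real.pi_pos
  refine ⟨?_, ⟨1, one_pos, ?_⟩, ⟨8 * Real.pi, by positivity, ?_⟩⟩
  · intro y _
    unfold wd
    rw [norm_pow]
    exact pow_le_one₀ (norm_nonneg _) (cf_le_one y)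
  · intro y hy
    unfold wd
    rw [norm_pow, one_mul]
    by_cases hy1 : 1 ≤ y
    · calc ‖Gen.cf y‖^2 ≤ (1/y)^2 := pow_le_pow_left₀ (norm_nonneg _) (cf_le hy) 2
        _ = y ^ (-2:ℝ) := by rw [Real.rpow_neg hy.le, Real.rpow_two]; field_simp
        _ ≤ _ := Real.rpow_le_rpow_of_exponent_le hy1 (by norm_num)
    · push Not at hy1
      calc ‖Gen.cf y‖^2 ≤ 1 := pow_le_one₀ (norm_nonneg _) (cf_le_one y)
        _ = y ^ (0:ℝ) := (Real.rpow_zero y).symm
        _ ≤ _ := Real.rpow_le_rpow_of_exponent_ge hy hy1.le (by norm_num)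
  · intro y hy
    unfold wd
    have e : (Gen.cf y)^2 - 1 = (Gen.cf y - 1) * (Gen.cf y + 1) := by ring
    rw [e, norm_mul]
    have h3 := cf_sub_one hy
    have h4 : ‖Gen.cf y + 1‖ ≤ 2 := by
      refine (norm_add_le _ _).trans ?_
      rw [norm_one]
      have := cf_le_one y
      linarith
    calc _ ≤ (4 * Real.pi * y) * 2 := mul_le_mul h3 h4 (norm_nonneg _) (by positivity)
      _ = _ := by ring

lemma WS_wd (φ R δ : ℝ) : GW.WS ad φ wd R δ = Gen.WS ad φ R δ := rfl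

/-- the sandwich for the divisor problem -/
theorem E2_Sand (hV : VorStmt) : ∃ C0 : ℝ, 0 < C0 ∧ Sand E2 ad (Real.pi/4) wd 1 (-3) C0 := by
  obtain ⟨C, hC, hV⟩ := hV
  have hrp : ∀ R δ : ℝ, 4 ≤ R → 0 < δ → (R/4) ^ (-(12/25):ℝ) * (δ/2) ^ (-(13/25):ℝ) ≤
      8 * (R ^ (-(12/25):ℝ) * δ ^ (-(13/25):ℝ)) := by
    intro R δ hR hδ
    have hR0 : 0 < R := by linarith
    rw [Real.div_rpow hR0.le (by norm_num), Real.div_rpow hδ.le (by norm_num)]
    have h1 : (4:ℝ) ^ (-(12/25):ℝ) = 1 / 4 ^ (12/25:ℝ) := by rw [Real.rpow_neg (by norm_num)]; ring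
    have h2 : (2:ℝ) ^ (-(13/25):ℝ) = 1 / 2 ^ (13/25:ℝ) := by rw [Real.rpow_neg (by norm_num)]; ring
    have h3 : (4:ℝ) ^ (12/25:ℝ) ≤ 4 := by
      calc (4:ℝ) ^ (12/25:ℝ) ≤ 4 ^ (1:ℝ) := Real.rpow_le_rpow_of_exponent_le (by norm_num) (by norm_num)
        _ = 4 := Real.rpow_one 4
    have h4 : (2:ℝ) ^ (13/25:ℝ) ≤ 2 := by
      calc (2:ℝ) ^ (13/25:ℝ) ≤ 2 ^ (1:ℝ) := Real.rpow_le_rpow_of_exponent_le (by norm_num) (by norm_num)
        _ = 2 := Real.rpow_one 2
    rw [h1, h2]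
    calc R ^ (-(12/25):ℝ) / (1 / 4 ^ (12/25:ℝ)) * (δ ^ (-(13/25):ℝ) / (1 / 2 ^ (13/25:ℝ))) =
        (4 ^ (12/25:ℝ) * 2 ^ (13/25:ℝ)) * (R ^ (-(12/25):ℝ) * δ ^ (-(13/25):ℝ)) := by field_simp
      _ ≤ (4 * 2) * (R ^ (-(12/25):ℝ) * δ ^ (-(13/25):ℝ)) := by gcongr
      _ = _ := by ring
  refine ⟨8 * C + 10000, by positivity, ?_, ?_⟩
  · intro R R' δ hR hδ hδ1 hRR
    have hR0 : 0 < R := by linarith
    obtain ⟨hRR1, hRR2⟩ := abs_le.mp hRR
    set r := R/2 with hr
    set d := δ/2 with hd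
    have hd0 : 0 < d := by rw [hd]; positivity
    have h1 : Ed (R'/2) - 4872 * d * R ^ (51/100:ℝ) ≤ Av (r + d) d := by
      apply Av_lower (by linarith) hd0
      intro s hs hs1
      have h1 := Ed_step (R := R'/2) (s := r + d + s - R'/2) (by linarith) (by linarith) (by linarith)
      have e : R'/2 + (r + d + s - R'/2) = r + d + s := by ring
      rw [e] at h1
      have h3 : (R'/2) ^ (51/100:ℝ) ≤ R ^ (51/100:ℝ) :=
        Real.rpow_le_rpow (by linarith) (by linarith) (by norm_num)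
      have h4 : 0 ≤ (R'/2) ^ (51/100:ℝ) := by
        have : 0 ≤ R'/2 := by linarith
        positivity
      have h2 : 1218 * (r + d + s - R'/2) * (R'/2) ^ (51/100:ℝ) ≤ 1218 * (4 * d) * R ^ (51/100:ℝ) := by
        apply mul_le_mul (by linarith) h3 h4 (by positivity)
      linarith
    have h2 := hV (r + d) d (by linarith) hd0 (by linarith)
    rw [vt_tsum] at h2
    have e1 : 2 * (r + d) = R + 1 * δ := by rw [hr, hd]; ring
    have e2 : 2 * d = δ := by rw [hd]; ring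
    rw [e1, e2] at h2
    have h3 := (abs_le.mp h2).2
    have h5 : (r + d) ^ (-(12/25):ℝ) * d ^ (-(13/25):ℝ) ≤ 8 * (R ^ (-(12/25):ℝ) * δ ^ (-(13/25):ℝ)) := by
      refine le_trans ?_ (hrp R δ hR hδ)
      apply mul_le_mul_of_nonneg_right _ (by positivity)
      exact Real.rpow_le_rpow_of_nonpos (by positivity) (by linarith) (by norm_num)
    have h6 : C * ((r + d) ^ (-(12/25):ℝ) * d ^ (-(13/25):ℝ)) ≤ C * (8 * (R ^ (-(12/25):ℝ) * δ ^ (-(13/25):ℝ))) :=
      mul_le_mul_of_nonneg_left h5 hC.le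
    have h7 : 4872 * d * R ^ (51/100:ℝ) = 2436 * (δ * R ^ (51/100:ℝ)) := by rw [hd]; ring
    have h8 : 0 ≤ R ^ (-(12/25):ℝ) * δ ^ (-(13/25):ℝ) := by positivity
    have h9 : 0 ≤ δ * R ^ (51/100:ℝ) := by positivity
    have h10 : 0 ≤ δ ^ (2/5:ℝ) := by positivity
    have h11 : 0 ≤ C * (δ * R ^ (51/100:ℝ)) := by positivity
    have h12 : 0 ≤ C * δ ^ (2/5:ℝ) := by positivity
    rw [WS_wd]
    unfold E2 er
    unfold Av at h1
    nlinarith
  · intro R R' δ hR hδ hδ1 hRR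
    have hR0 : 0 < R := by linarith
    obtain ⟨hRR1, hRR2⟩ := abs_le.mp hRR
    set r := R/2 with hr
    set d := δ/2 with hd
    have hd0 : 0 < d := by rw [hd]; positivity
    have h1 : Av (r - 3 * d) d ≤ Ed (R'/2) + 4872 * d * R ^ (51/100:ℝ) := by
      apply Av_upper (by linarith) hd0
      intro s hs hs1
      have h1 := Ed_step (R := r - 3 * d + s) (s := R'/2 - (r - 3 * d + s)) (by linarith) (by linarith) (by linarith)
      have e : r - 3 * d + s + (R'/2 - (r - 3 * d + s)) = R'/2 := by ring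
      rw [e] at h1
      refine h1.trans ?_
      have h3 : (r - 3 * d + s) ^ (51/100:ℝ) ≤ R ^ (51/100:ℝ) :=
        Real.rpow_le_rpow (by linarith) (by linarith) (by norm_num)
      have h4 : 0 ≤ (r - 3 * d + s) ^ (51/100:ℝ) := by
        have : 0 ≤ r - 3 * d + s := by linarith
        positivity
      have h2 : 1218 * (R'/2 - (r - 3 * d + s)) * (r - 3 * d + s) ^ (51/100:ℝ) ≤ 1218 * (4 * d) * R ^ (51/100:ℝ) := by
        apply mul_le_mul (by linarith) h3 h4 (by positivity)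
      linarith
    have h2 := hV (r - 3 * d) d (by linarith) hd0 (by linarith)
    rw [vt_tsum] at h2
    have e1 : 2 * (r - 3 * d) = R + -3 * δ := by rw [hr, hd]; ring
    have e2 : 2 * d = δ := by rw [hd]; ring
    rw [e1, e2] at h2
    have h3 := (abs_le.mp h2).1
    have h5 : (r - 3 * d) ^ (-(12/25):ℝ) * d ^ (-(13/25):ℝ) ≤ 8 * (R ^ (-(12/25):ℝ) * δ ^ (-(13/25):ℝ)) := by
      refine le_trans ?_ (hrp R δ hR hδ)
      apply mul_le_mul_of_nonneg_right _ (by positivity)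
      exact Real.rpow_le_rpow_of_nonpos (by positivity) (by linarith) (by norm_num)
    have h6 : C * ((r - 3 * d) ^ (-(12/25):ℝ) * d ^ (-(13/25):ℝ)) ≤ C * (8 * (R ^ (-(12/25):ℝ) * δ ^ (-(13/25):ℝ))) :=
      mul_le_mul_of_nonneg_left h5 hC.le
    have h7 : 4872 * d * R ^ (51/100:ℝ) = 2436 * (δ * R ^ (51/100:ℝ)) := by rw [hd]; ring
    have h8 : 0 ≤ R ^ (-(12/25):ℝ) * δ ^ (-(13/25):ℝ) := by positivity
    have h9 : 0 ≤ δ * R ^ (51/100:ℝ) := by positivity
    have h10 : 0 ≤ δ ^ (2/5:ℝ) := by positivity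
    have h11 : 0 ≤ C * (δ * R ^ (51/100:ℝ)) := by positivity
    have h12 : 0 ≤ C * δ ^ (2/5:ℝ) := by positivity
    rw [WS_wd]
    unfold E2 er
    unfold Av at h1
    nlinarith

/-- square roots of quadratic polynomials are perturbed progressions -/
lemma sqrt_quad {a b c : ℝ} (ha : 0 < a) (hP : ∀ n : ℕ, 0 ≤ a * n^2 + b * n + c) :
    ∃ C₁ : ℝ, ∀ n : ℕ, |√(a * n^2 + b * n + c) - (b / (2 * √a) + n * √a)| ≤ C₁ / (n + 1) := by
  have hsa : 0 < √a := Real.sqrt_pos.mpr ha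
  have hsa2 : √a * √a = a := Real.mul_self_sqrt ha.le
  set h := b / (2 * √a) with hh
  have hh2 : 2 * √a * h = b := by rw [hh]; field_simp
  set k := c - h^2 with hk
  obtain ⟨n1, hn1⟩ := exists_nat_ge (1 + 2 * |h| / √a)
  set S : ℝ := ∑ n ∈ Finset.range n1, |√(a * n^2 + b * n + c) - (h + n * √a)| with hS
  have hS0 : 0 ≤ S := Finset.sum_nonneg (fun n _ => abs_nonneg _)
  refine ⟨2 * |k| / √a + S * (n1 + 1), ?_⟩
  intro n
  have hn0 : (0:ℝ) ≤ n := Nat.cast_nonneg n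
  have hn1' : (0:ℝ) ≤ n1 := Nat.cast_nonneg n1
  by_cases hn : n < n1
  · have h1 : |√(a * n^2 + b * n + c) - (h + n * √a)| ≤ S :=
      Finset.single_le_sum (f := fun n : ℕ => |√(a * n^2 + b * n + c) - (h + n * √a)|) (fun n _ => abs_nonneg _)
        (Finset.mem_range.mpr hn)
    rw [le_div_iff₀ (by positivity)]
    have h2 : (n:ℝ) + 1 ≤ n1 + 1 := by
      have : (n:ℝ) ≤ n1 := by exact_mod_cast hn.le
      linarith
    calc |√(a * n^2 + b * n + c) - (h + n * √a)| * (n + 1) ≤ S * (n1 + 1) :=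
          mul_le_mul h1 h2 (by positivity) hS0
      _ ≤ _ := by
          have : 0 ≤ 2 * |k| / √a := by positivity
          linarith
  · push Not at hn
    have hn' : (n1:ℝ) ≤ n := by exact_mod_cast hn
    have h1 : 1 + 2 * |h| / √a ≤ n := hn1.trans hn'
    have h2 : √a + 2 * |h| ≤ n * √a := by
      have : (1 + 2 * |h| / √a) * √a ≤ n * √a := mul_le_mul_of_nonneg_right h1 hsa.le
      have e : (1 + 2 * |h| / √a) * √a = √a + 2 * |h| := by field_simp
      rw [e] at this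
      exact this
    have h3 : √a * (n + 1) / 2 ≤ h + n * √a := by
      have := neg_abs_le h
      nlinarith
    have h3' : 0 < h + n * √a := lt_of_lt_of_le (by positivity) h3
    have hP0 : 0 ≤ a * n^2 + b * n + c := hP n
    have h4 : √(a * n^2 + b * n + c)^2 = a * n^2 + b * n + c := Real.sq_sqrt hP0
    set s := √(a * n^2 + b * n + c) with hs
    have hs0 : 0 ≤ s := Real.sqrt_nonneg _
    have h5 : (s - (h + n * √a)) * (s + (h + n * √a)) = k := by
      have : (h + n * √a)^2 = h^2 + (2 * √a * h) * n + (√a * √a) * n^2 := by ring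
      rw [hh2, hsa2] at this
      have e : (s - (h + n * √a)) * (s + (h + n * √a)) = s^2 - (h + n * √a)^2 := by ring
      rw [e, h4, this, hk]; ring
    have h6 : |s - (h + n * √a)| * (s + (h + n * √a)) = |k| := by
      rw [← h5, abs_mul, abs_of_pos (by linarith : 0 < s + (h + n * √a))]
    rw [le_div_iff₀ (by positivity)]
    have h7 : |s - (h + n * √a)| * (√a * (n + 1) / 2) ≤ |k| := by
      rw [← h6]
      apply mul_le_mul_of_nonneg_left _ (abs_nonneg _)
      linarith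
    have h8 : |s - (h + n * √a)| * (n + 1) ≤ 2 * |k| / √a := by
      rw [le_div_iff₀ hsa]
      linarith
    have : 0 ≤ S * (n1 + 1) := by positivity
    linarith

/-- the normalised error along a quadratic polynomial -/
theorem quad_Ap (hV : VorStmt) {a b c : ℝ} (ha : 0 < a) (hP : ∀ n : ℕ, 0 ≤ a * n^2 + b * n + c) :
    Ap ad (Real.pi/4) (fun n : ℕ => Ed (√(a * n^2 + b * n + c))) (2 * √a) (b / √a) := by
  obtain ⟨C0, hC0, hS⟩ := E2_Sand hV
  obtain ⟨C₁, hC₁⟩ := sqrt_quad ha hP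
  have hsa : 0 < √a := Real.sqrt_pos.mpr ha
  have key := GW.ap_of (E := E2) ad_Bd ad_zero wd_Wt hC0 hS (α := 2 * √a) (by positivity) (b / √a)
    (Rn := fun n : ℕ => 2 * √(a * n^2 + b * n + c)) ⟨2 * C₁, by
      intro n
      have h1 := hC₁ n
      have e : 2 * √(a * n^2 + b * n + c) - (b / √a + n * (2 * √a)) =
          2 * (√(a * n^2 + b * n + c) - (b / (2 * √a) + n * √a)) := by field_simp
      rw [e, abs_mul, abs_of_pos (by norm_num : (0:ℝ) < 2), mul_div_assoc]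
      exact mul_le_mul_of_nonneg_left h1 (by norm_num)⟩
  have e : (fun n : ℕ => E2 (2 * √(a * n^2 + b * n + c))) = fun n : ℕ => Ed (√(a * n^2 + b * n + c)) := by
    funext n
    unfold E2
    congr 1
    ring
  rw [e] at key
  exact key

end Pool.Agent.H383.Div
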