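import Mathlib
import Pool.Agent.H383.GenW
import Pool.Agent.H383.DivC

open MeasureTheory Filter Topology
open Pool.Agent.H383.AP Pool.Agent.H383.Gauss Pool.Agent.H383.Gen Pool.Agent.H383.GW

namespace Pool.Agent.H383.Circ

lemma F_mono {R S : ℝ} (hR : 0 ≤ R) (h : R ≤ S) : F R ≤ F S := by
  rw [F_eq_card hR, F_eq_card (hR.trans h)]
  have : ballS R ⊆ ballS S := by
    intro p hp
    rw [mem_ballS_nz hR] at hp
    rw [mem_ballS_nz (hR.trans h)]
    exact hp.trans h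
  exact_mod_cast Finset.card_le_card this

/-- coefficients -/
noncomputable def ag (m : ℕ) : ℝ := rA m / Real.pi * (√(m:ℝ)) ^ (-(3/2):ℝ)

lemma ag_nonneg (m : ℕ) : 0 ≤ ag m := by
  unfold ag
  have := rA_nonneg m
  have := Real.pi_pos
  positivity

lemma ag_zero : ag 0 = 0 := by
  unfold ag
  rw [Nat.cast_zero, Real.sqrt_zero, Real.zero_rpow (by norm_num), mul_zero]

lemma ag_Bd : Bd ag := by
  obtain ⟨C, hC, hr⟩ := rA_le_pow
  refine ⟨C, hC, ?_⟩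
  intro m hm
  have hm0 : (0:ℝ) < m := by exact_mod_cast hm
  have hs : 0 < √(m:ℝ) := Real.sqrt_pos.mpr hm0
  rw [abs_of_nonneg (ag_nonneg m)]
  unfold ag
  have hpi := Real.pi_gt_three
  have hrm := hr m hm
  have h0 := rA_nonneg m
  calc rA m / Real.pi * (√(m:ℝ)) ^ (-(3/2):ℝ) ≤ rA m * (√(m:ℝ)) ^ (-(3/2):ℝ) := by
        gcongr
        rw [div_le_iff₀ (by positivity)]
        nlinarith
    _ ≤ (C * (√(m:ℝ)) ^ (1/50:ℝ)) * (√(m:ℝ)) ^ (-(3/2):ℝ) := by gcongr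
    _ = C * ((√(m:ℝ)) ^ (1/50:ℝ) * (√(m:ℝ)) ^ (-(3/2):ℝ)) := by ring
    _ = _ := by rw [← Real.rpow_add hs]; norm_num

/-- the weight -/
noncomputable def wg (y : ℝ) : ℂ := ((J y / Real.pi : ℝ) : ℂ)

lemma wg_Wt : Wt wg := by
  have hpi := Real.pi_pos
  have hpi3 := Real.pi_gt_three
  refine ⟨?_, ⟨1, one_pos, ?_⟩, ⟨8, by norm_num, ?_⟩⟩
  · intro y _
    unfold wg
    rw [Complex.norm_real, Real.norm_eq_abs, abs_div, abs_of_pos hpi, div_le_one hpi]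
    exact abs_J_le y
  · intro y hy
    unfold wg
    rw [Complex.norm_real, Real.norm_eq_abs, abs_div, abs_of_pos hpi, div_le_iff₀ hpi]
    have h := abs_J_le_rpow hy
    have : 0 ≤ y ^ (-(3/2):ℝ) := by positivity
    nlinarith
  · intro y hy
    unfold wg
    have e : ((J y / Real.pi : ℝ) : ℂ) - 1 = (((J y - Real.pi) / Real.pi : ℝ) : ℂ) := by
      push_cast
      have : (Real.pi : ℂ) ≠ 0 := by exact_mod_cast hpi.ne'
      field_simp
    rw [e, Complex.norm_real, Real.norm_eq_abs, abs_div, abs_of_pos hpi, div_le_iff₀ hpi]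
    have h := J_lip0 y
    rw [abs_of_pos hy] at h
    linarith

lemma V_eq_wt (R δ : ℝ) (Y : ℕ) : V R δ Y = ∑ m ∈ Finset.Icc 1 (Y^2), GW.wt ag (3 * Real.pi/4) wg R δ m := by
  have h := V_eq_im 0 R δ Y 0
  simp only [Nat.cast_zero, zero_mul, add_zero, mul_zero, Complex.ofReal_zero, Complex.exp_zero, mul_one] at h
  rw [h, Complex.im_sum]
  apply Finset.sum_congr rfl
  intro m _
  unfold bc GW.wt ag wg
  rw [Complex.im_ofReal_mul, Complex.exp_ofReal_mul_I_im, Complex.re_mul_ofReal, Complex.exp_ofReal_mul_I_re]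
  have e : 2 * Real.pi * (R * √(m:ℝ)) - 3 * Real.pi/4 = (2 * Real.pi * (R * √(m:ℝ)) - Real.pi/4) - Real.pi/2 := by ring
  rw [e, Real.cos_sub_pi_div_two, mul_comm δ]
  have := Real.pi_pos.ne'
  field_simp

lemma W_sub_WS : ∃ C : ℝ, 0 < C ∧ ∀ R δ : ℝ, 0 < R → 0 < δ → |W R δ - GW.WS ag (3 * Real.pi/4) wg R δ| ≤ C / R := by
  obtain ⟨C0, hC0, hW⟩ := W_sub_V
  obtain ⟨C1, hC1, hT⟩ := GW.WS_tail (φ := 3 * Real.pi/4) ag_Bd ag_zero wg_Wt
  refine ⟨C0, hC0, ?_⟩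
  intro R δ hR hδ
  have hb : ∀ Y : ℕ, 1 ≤ Y → |W R δ - GW.WS ag (3 * Real.pi/4) wg R δ| ≤
      C0 / R + (C0 * δ ^ (-(3/2):ℝ) * (Y:ℝ) ^ (-(9/10):ℝ) + C1 * δ ^ (-(3/2):ℝ) * (Y:ℝ) ^ (-(24/25):ℝ)) := by
    intro Y hY
    have h1 := hW R δ Y hR hδ hY
    have h2 := hT δ hδ R Y hY
    rw [← V_eq_wt] at h2
    have e : W R δ - GW.WS ag (3 * Real.pi/4) wg R δ = (W R δ - V R δ Y) - (GW.WS ag (3 * Real.pi/4) wg R δ - V R δ Y) := by ring
    rw [e]
    have h3 := abs_sub (W R δ - V R δ Y) (GW.WS ag (3 * Real.pi/4) wg R δ - V R δ Y)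
    have e2 : C0 * (1/R + δ ^ (-(3/2):ℝ) * (Y:ℝ) ^ (-(9/10):ℝ)) = C0 / R + C0 * δ ^ (-(3/2):ℝ) * (Y:ℝ) ^ (-(9/10):ℝ) := by ring
    linarith
  have hlim : Tendsto (fun Y : ℕ => C0 / R + (C0 * δ ^ (-(3/2):ℝ) * (Y:ℝ) ^ (-(9/10):ℝ) +
      C1 * δ ^ (-(3/2):ℝ) * (Y:ℝ) ^ (-(24/25):ℝ))) atTop (𝓝 (C0 / R)) := by
    have h1 := tend_nat_rpow (y := 9/10) (by norm_num) (C0 * δ ^ (-(3/2):ℝ))
    have h2 := tend_nat_rpow (y := 24/25) (by norm_num) (C1 * δ ^ (-(3/2):ℝ))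
    have h3 := (h1.add h2).const_add (C0 / R)
    simpa using h3
  apply ge_of_tendsto hlim
  filter_upwards [eventually_ge_atTop 1] with Y hY
  exact hb Y hY

/-- trivial bound for the smoothed sum -/
lemma WS_triv {a : ℕ → ℝ} {φ : ℝ} {w : ℝ → ℂ} (ha : Bd a) (ha0 : a 0 = 0) (hw : Wt w) :
    ∃ C : ℝ, 0 < C ∧ ∀ R δ : ℝ, 0 < δ → |GW.WS a φ w R δ| ≤ C * δ ^ (-(3/5):ℝ) := by
  obtain ⟨Ca, hCa, hac⟩ := ha
  obtain ⟨Cw, hCw, hwd⟩ := hw.dec
  set Z : ℝ := ∑' k : ℕ, (k:ℝ) ^ (-(26/25):ℝ) with hZ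
  have hZs : Summable (fun k : ℕ => (k:ℝ) ^ (-(26/25):ℝ)) := by
    rw [Real.summable_nat_rpow]; norm_num
  have hZ0 : 0 ≤ Z := tsum_nonneg (fun k => by positivity)
  refine ⟨Ca * (Cw + 1) * (Z + 1), by positivity, ?_⟩
  intro R δ hδ
  have hb : ∀ m : ℕ, ‖GW.wt a φ w R δ m‖ ≤ Ca * (Cw + 1) * δ ^ (-(3/5):ℝ) * (m:ℝ) ^ (-(26/25):ℝ) := by
    intro m
    rw [Real.norm_eq_abs]
    rcases Nat.eq_zero_or_pos m with rfl | hm
    · unfold GW.wt
      rw [ha0, zero_mul, abs_zero]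
      positivity
    · have hm0 : (0:ℝ) < m := by exact_mod_cast hm
      have hs : 0 < √(m:ℝ) := Real.sqrt_pos.mpr hm0
      set y := √(m:ℝ) * δ with hy
      have hy0 : 0 < y := by positivity
      have h1 : ‖w y‖ ≤ (Cw + 1) * y ^ (-(3/5):ℝ) := by
        by_cases hy1 : 1 ≤ y
        · have h2 : y ^ (-(3/2):ℝ) ≤ y ^ (-(3/5):ℝ) := Real.rpow_le_rpow_of_exponent_le hy1 (by norm_num)
          have h3 := hwd y hy0
          have h4 : 0 ≤ y ^ (-(3/5):ℝ) := by positivity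
          nlinarith
        · push Not at hy1
          have h2 : 1 ≤ y ^ (-(3/5):ℝ) := Real.one_le_rpow_of_pos_of_le_one_of_nonpos hy0 hy1.le (by norm_num)
          have h3 := hw.one y hy0
          nlinarith
      calc |GW.wt a φ w R δ m| ≤ |a m| * ‖w y‖ := GW.abs_wt_le R δ m
        _ ≤ (Ca * (√(m:ℝ)) ^ (-(37/25):ℝ)) * ((Cw + 1) * y ^ (-(3/5):ℝ)) :=
            mul_le_mul (hac m hm) h1 (norm_nonneg _) (by positivity)
        _ = Ca * (Cw + 1) * δ ^ (-(3/5):ℝ) * ((√(m:ℝ)) ^ (-(37/25):ℝ) * (√(m:ℝ)) ^ (-(3/5):ℝ)) := by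
            rw [hy, Real.mul_rpow hs.le hδ.le]; ring
        _ = _ := by
            rw [← Real.rpow_add hs, Real.sqrt_eq_rpow, ← Real.rpow_mul hm0.le]; norm_num
  have h3 := tsum_of_norm_bounded (hZs.mul_left (Ca * (Cw + 1) * δ ^ (-(3/5):ℝ))).hasSum hb
  rw [Real.norm_eq_abs, tsum_mul_left] at h3
  refine h3.trans ?_
  calc Ca * (Cw + 1) * δ ^ (-(3/5):ℝ) * Z ≤ Ca * (Cw + 1) * δ ^ (-(3/5):ℝ) * (Z + 1) := by gcongr; linarith
    _ = _ := by ring

theorem En_Sand : ∃ C0 : ℝ, 0 < C0 ∧ Sand En ag (3 * Real.pi/4) wg 2 (-2) C0 := by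
  obtain ⟨C1, hC1, hW⟩ := W_sub_WS
  obtain ⟨C2, hC2, hT⟩ := WS_triv (φ := 3 * Real.pi/4) ag_Bd ag_zero wg_Wt
  have hpi := Real.pi_pos
  have hpi4 := Real.pi_lt_four
  refine ⟨96 * 4 + 3 * C1 + 8 * (C2 + C1), by positivity, ?_, ?_⟩
  · intro R R' δ hR hδ hδ1 hRR
    obtain ⟨hRR1, hRR2⟩ := abs_le.mp hRR
    have hR0 : 0 < R := by linarith
    set ρ := R + 2 * δ with hρ
    have hρ0 : 0 < ρ := by linarith
    have hR'0 : 0 < R' := by linarith
    have hR'2 : R/2 ≤ R' := by linarith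
    have hρR' : R' ≤ ρ := by linarith
    have hsR' : 0 < √R' := Real.sqrt_pos.mpr hR'0
    have h1 : F R' ≤ Real.pi * ρ^2 + √ρ * W ρ δ := by
      have h2 := F_mono hR'0.le (show R' ≤ R + δ by linarith)
      have h3 := F_le_W (R := R + δ) (by linarith) hδ
      have e : R + δ + δ = ρ := by rw [hρ]; ring
      rw [e] at h3
      linarith
    have hWa := hW ρ δ hρ0 hδ
    have hWSa := hT ρ δ hδ
    set WS' := GW.WS ag (3 * Real.pi/4) wg ρ δ with hWS'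
    have hWub : W ρ δ ≤ WS' + C1 / ρ := by linarith [(abs_le.mp hWa).2]
    have hWabs : |W ρ δ| ≤ (C2 + C1) * δ ^ (-(3/5):ℝ) := by
      have h4 : |W ρ δ| ≤ |WS'| + |W ρ δ - WS'| := by
        have := abs_add_le WS' (W ρ δ - WS')
        simpa using this
      have h5 : C1 / ρ ≤ C1 * 1 := by
        rw [mul_one]; apply div_le_self hC1.le; linarith
      have h6 : 1 ≤ δ ^ (-(3/5):ℝ) := Real.one_le_rpow_of_pos_of_le_one_of_nonpos hδ (by linarith) (by norm_num)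
      nlinarith
    -- main term
    have hs1 : √R' * √R' = R' := Real.mul_self_sqrt hR'0.le
    have hsρ : 0 < √ρ := Real.sqrt_pos.mpr hρ0
    have hs2 : √ρ * √ρ = ρ := Real.mul_self_sqrt hρ0.le
    have hsle : √R' ≤ √ρ := Real.sqrt_le_sqrt hρR'
    have hsR : √R ≤ 2 * √R' := by
      rw [Real.sqrt_le_left (by positivity), mul_pow, Real.sq_sqrt hR'0.le]
      linarith
    have hsR0 : 0 < √R := Real.sqrt_pos.mpr hR0
    have hm : Real.pi * ρ^2 - Real.pi * R'^2 ≤ (96 * 4 * √R * δ) * √R' := by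
      have e : Real.pi * ρ^2 - Real.pi * R'^2 = Real.pi * ((ρ - R') * (ρ + R')) := by ring
      rw [e]
      have h4 : (ρ - R') * (ρ + R') ≤ (3 * δ) * (4 * R) := mul_le_mul (by linarith) (by linarith) (by linarith) (by linarith)
      have h5 : R ≤ √R * (2 * √R') := by
        calc R = √R * √R := (Real.mul_self_sqrt hR0.le).symm
          _ ≤ _ := mul_le_mul_of_nonneg_left hsR hsR0.le
      calc Real.pi * ((ρ - R') * (ρ + R')) ≤ 4 * ((3 * δ) * (4 * R)) := by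
            apply mul_le_mul hpi4.le h4 _ (by norm_num)
            apply mul_nonneg <;> linarith
        _ = 48 * δ * R := by ring
        _ ≤ 48 * δ * (√R * (2 * √R')) := by gcongr
        _ ≤ _ := by
            have : 0 ≤ √R * δ * √R' := by positivity
            nlinarith
    have hs3 : (√ρ - √R') ≤ (3 * δ) * √R' := by
      have h4 : (√ρ - √R') * (√ρ + √R') = ρ - R' := by
        have : (√ρ - √R') * (√ρ + √R') = √ρ * √ρ - √R' * √R' := by ring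
        rw [this, hs1, hs2]
      have h5 : (√ρ - √R') * √R' ≤ 3 * δ := by
        have h6 : (√ρ - √R') * √R' ≤ (√ρ - √R') * (√ρ + √R') :=
          mul_le_mul_of_nonneg_left (by linarith) (by linarith)
        linarith
      have h6 : 1 ≤ R' := by linarith
      have h7 : (√ρ - √R') * √R' * √R' ≤ 3 * δ * √R' := mul_le_mul_of_nonneg_right h5 hsR'.le
      have h8 : (√ρ - √R') * √R' * √R' = (√ρ - √R') * R' := by rw [mul_assoc, hs1]
      rw [h8] at h7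
      have h9 : (√ρ - √R') * 1 ≤ (√ρ - √R') * R' := mul_le_mul_of_nonneg_left h6 (by linarith)
      linarith
    have hW1 : √ρ * W ρ δ ≤ √R' * W ρ δ + (3 * δ) * √R' * ((C2 + C1) * δ ^ (-(3/5):ℝ)) := by
      have e : √ρ * W ρ δ = √R' * W ρ δ + (√ρ - √R') * W ρ δ := by ring
      rw [e]
      have h4 : (√ρ - √R') * W ρ δ ≤ (√ρ - √R') * |W ρ δ| :=
        mul_le_mul_of_nonneg_left (le_abs_self _) (by linarith)
      have h5 : (√ρ - √R') * |W ρ δ| ≤ ((3 * δ) * √R') * ((C2 + C1) * δ ^ (-(3/5):ℝ)) :=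
        mul_le_mul hs3 hWabs (abs_nonneg _) (by positivity)
      linarith
    have hEn : En R' ≤ 96 * 4 * √R * δ + W ρ δ + (3 * δ) * ((C2 + C1) * δ ^ (-(3/5):ℝ)) := by
      unfold En
      rw [div_le_iff₀ hsR']
      have e : (96 * 4 * √R * δ + W ρ δ + (3 * δ) * ((C2 + C1) * δ ^ (-(3/5):ℝ))) * √R' =
          (96 * 4 * √R * δ) * √R' + √R' * W ρ δ + (3 * δ) * √R' * ((C2 + C1) * δ ^ (-(3/5):ℝ)) := by ring
      rw [e]; linarith
    have hd : δ * δ ^ (-(3/5):ℝ) = δ ^ (2/5:ℝ) := by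
      nth_rewrite 1 [← Real.rpow_one δ]
      rw [← Real.rpow_add hδ]; norm_num
    have hR51 : √R ≤ R ^ (51/100:ℝ) := by
      rw [Real.sqrt_eq_rpow]
      exact Real.rpow_le_rpow_of_exponent_le (by linarith) (by norm_num)
    have hC1ρ : C1 / ρ ≤ C1 * (R ^ (-(12/25):ℝ) * δ ^ (-(13/25):ℝ)) := by
      rw [div_eq_mul_inv]
      apply mul_le_mul_of_nonneg_left _ hC1.le
      have g1 : ρ⁻¹ ≤ R ^ (-(1:ℝ)) := by
        rw [Real.rpow_neg_one]
        exact inv_anti₀ hR0 (by linarith)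
      have g2 : R ^ (-(1:ℝ)) ≤ R ^ (-(12/25):ℝ) := Real.rpow_le_rpow_of_exponent_le (by linarith) (by norm_num)
      have g3 : 1 ≤ δ ^ (-(13/25):ℝ) := Real.one_le_rpow_of_pos_of_le_one_of_nonpos hδ (by linarith) (by norm_num)
      have g4 : 0 ≤ R ^ (-(12/25):ℝ) := by positivity
      nlinarith
    have e1 : (3 * δ) * ((C2 + C1) * δ ^ (-(3/5):ℝ)) = 3 * (C2 + C1) * δ ^ (2/5:ℝ) := by rw [← hd]; ring
    rw [e1] at hEn
    have h51 : 96 * 4 * √R * δ ≤ 96 * 4 * (δ * R ^ (51/100:ℝ)) := by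
      have := mul_le_mul_of_nonneg_left hR51 (by positivity : 0 ≤ 96 * 4 * δ)
      linarith
    unfold er
    have q1 : 0 ≤ δ * R ^ (51/100:ℝ) := by positivity
    have q2 : 0 ≤ R ^ (-(12/25):ℝ) * δ ^ (-(13/25):ℝ) := by positivity
    have q3 : 0 ≤ δ ^ (2/5:ℝ) := by positivity
    have q4 : 0 ≤ (3 * C1 + 8 * (C2 + C1)) * (δ * R ^ (51/100:ℝ)) := by positivity
    have q5 : 0 ≤ (96 * 4 + 2 * C1 + 8 * (C2 + C1)) * (R ^ (-(12/25):ℝ) * δ ^ (-(13/25):ℝ)) := by positivity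
    have q6 : 0 ≤ (96 * 4 + 3 * C1 + 5 * (C2 + C1)) * δ ^ (2/5:ℝ) := by positivity
    linarith
  · intro R R' δ hR hδ hδ1 hRR
    obtain ⟨hRR1, hRR2⟩ := abs_le.mp hRR
    have hR0 : 0 < R := by linarith
    have eρ : R + -2 * δ = R - 2 * δ := by ring
    rw [eρ]
    set ρ := R - 2 * δ with hρ
    have hρ0 : 0 < ρ := by linarith
    have hρ1 : R/2 ≤ ρ := by linarith
    have hR'0 : 0 < R' := by linarith
    have hR'2 : R/2 ≤ R' := by linarith
    have hρR' : ρ ≤ R' := by linarith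
    have hsR' : 0 < √R' := Real.sqrt_pos.mpr hR'0
    have h1 : Real.pi * ρ^2 + √ρ * W ρ δ ≤ F R' := by
      have h2 := F_mono (show 0 ≤ R - δ by linarith) (show R - δ ≤ R' by linarith)
      have h3 := le_F_W (R := R - δ) hδ (by linarith)
      have e : R - δ - δ = ρ := by rw [hρ]; ring
      rw [e] at h3
      linarith
    have hWa := hW ρ δ hρ0 hδ
    have hWSa := hT ρ δ hδ
    set WS' := GW.WS ag (3 * Real.pi/4) wg ρ δ with hWS'
    have hWlb : WS' - C1 / ρ ≤ W ρ δ := by linarith [(abs_le.mp hWa).1]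
    have hWabs : |W ρ δ| ≤ (C2 + C1) * δ ^ (-(3/5):ℝ) := by
      have h4 : |W ρ δ| ≤ |WS'| + |W ρ δ - WS'| := by
        have := abs_add_le WS' (W ρ δ - WS')
        simpa using this
      have h5 : C1 / ρ ≤ C1 * 1 := by
        rw [mul_one]; apply div_le_self hC1.le; linarith
      have h6 : 1 ≤ δ ^ (-(3/5):ℝ) := Real.one_le_rpow_of_pos_of_le_one_of_nonpos hδ (by linarith) (by norm_num)
      nlinarith
    have hs1 : √R' * √R' = R' := Real.mul_self_sqrt hR'0.le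
    have hsρ : 0 < √ρ := Real.sqrt_pos.mpr hρ0
    have hs2 : √ρ * √ρ = ρ := Real.mul_self_sqrt hρ0.le
    have hsle : √ρ ≤ √R' := Real.sqrt_le_sqrt hρR'
    have hsR : √R ≤ 2 * √R' := by
      rw [Real.sqrt_le_left (by positivity), mul_pow, Real.sq_sqrt hR'0.le]
      linarith
    have hsR0 : 0 < √R := Real.sqrt_pos.mpr hR0
    have hm : Real.pi * R'^2 - Real.pi * ρ^2 ≤ (96 * 4 * √R * δ) * √R' := by
      have e : Real.pi * R'^2 - Real.pi * ρ^2 = Real.pi * ((R' - ρ) * (ρ + R')) := by ring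
      rw [e]
      have h4 : (R' - ρ) * (ρ + R') ≤ (3 * δ) * (4 * R) := mul_le_mul (by linarith) (by linarith) (by linarith) (by linarith)
      have h5 : R ≤ √R * (2 * √R') := by
        calc R = √R * √R := (Real.mul_self_sqrt hR0.le).symm
          _ ≤ _ := mul_le_mul_of_nonneg_left hsR hsR0.le
      calc Real.pi * ((R' - ρ) * (ρ + R')) ≤ 4 * ((3 * δ) * (4 * R)) := by
            apply mul_le_mul hpi4.le h4 _ (by norm_num)
            apply mul_nonneg <;> linarith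
        _ = 48 * δ * R := by ring
        _ ≤ 48 * δ * (√R * (2 * √R')) := by gcongr
        _ ≤ _ := by
            have : 0 ≤ √R * δ * √R' := by positivity
            nlinarith
    have hs3 : (√R' - √ρ) ≤ (3 * δ) * √R' := by
      have h4 : (√R' - √ρ) * (√ρ + √R') = R' - ρ := by
        have : (√R' - √ρ) * (√ρ + √R') = √R' * √R' - √ρ * √ρ := by ring
        rw [this, hs1, hs2]
      have h5 : (√R' - √ρ) * √R' ≤ 3 * δ := by
        have h6 : (√R' - √ρ) * √R' ≤ (√R' - √ρ) * (√ρ + √R') :=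
          mul_le_mul_of_nonneg_left (by linarith) (by linarith)
        linarith
      have h6 : 1 ≤ R' := by linarith
      have h7 : (√R' - √ρ) * √R' * √R' ≤ 3 * δ * √R' := mul_le_mul_of_nonneg_right h5 hsR'.le
      have h8 : (√R' - √ρ) * √R' * √R' = (√R' - √ρ) * R' := by rw [mul_assoc, hs1]
      rw [h8] at h7
      have h9 : (√R' - √ρ) * 1 ≤ (√R' - √ρ) * R' := mul_le_mul_of_nonneg_left h6 (by linarith)
      linarith
    have hW1 : √R' * W ρ δ - (3 * δ) * √R' * ((C2 + C1) * δ ^ (-(3/5):ℝ)) ≤ √ρ * W ρ δ := by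
      have e : √ρ * W ρ δ = √R' * W ρ δ - (√R' - √ρ) * W ρ δ := by ring
      rw [e]
      have h4 : (√R' - √ρ) * W ρ δ ≤ (√R' - √ρ) * |W ρ δ| :=
        mul_le_mul_of_nonneg_left (le_abs_self _) (by linarith)
      have h5 : (√R' - √ρ) * |W ρ δ| ≤ ((3 * δ) * √R') * ((C2 + C1) * δ ^ (-(3/5):ℝ)) :=
        mul_le_mul hs3 hWabs (abs_nonneg _) (by positivity)
      linarith
    have hEn : W ρ δ - 96 * 4 * √R * δ - (3 * δ) * ((C2 + C1) * δ ^ (-(3/5):ℝ)) ≤ En R' := by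
      unfold En
      rw [le_div_iff₀ hsR']
      have e : (W ρ δ - 96 * 4 * √R * δ - (3 * δ) * ((C2 + C1) * δ ^ (-(3/5):ℝ))) * √R' =
          √R' * W ρ δ - (96 * 4 * √R * δ) * √R' - (3 * δ) * √R' * ((C2 + C1) * δ ^ (-(3/5):ℝ)) := by ring
      rw [e]; linarith
    have hd : δ * δ ^ (-(3/5):ℝ) = δ ^ (2/5:ℝ) := by
      nth_rewrite 1 [← Real.rpow_one δ]
      rw [← Real.rpow_add hδ]; norm_num
    have hR51 : √R ≤ R ^ (51/100:ℝ) := by
      rw [Real.sqrt_eq_rpow]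
      exact Real.rpow_le_rpow_of_exponent_le (by linarith) (by norm_num)
    have hC1ρ : C1 / ρ ≤ 2 * C1 * (R ^ (-(12/25):ℝ) * δ ^ (-(13/25):ℝ)) := by
      rw [div_eq_mul_inv, mul_comm 2 C1, mul_assoc]
      apply mul_le_mul_of_nonneg_left _ hC1.le
      have g1 : ρ⁻¹ ≤ 2 * R ^ (-(1:ℝ)) := by
        rw [Real.rpow_neg_one]
        calc ρ⁻¹ ≤ (R/2)⁻¹ := inv_anti₀ (by positivity) hρ1
          _ = 2 * R⁻¹ := by field_simp
      have g2 : R ^ (-(1:ℝ)) ≤ R ^ (-(12/25):ℝ) := Real.rpow_le_rpow_of_exponent_le (by linarith) (by norm_num)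
      have g3 : 1 ≤ δ ^ (-(13/25):ℝ) := Real.one_le_rpow_of_pos_of_le_one_of_nonpos hδ (by linarith) (by norm_num)
      have g4 : 0 ≤ R ^ (-(12/25):ℝ) := by positivity
      nlinarith
    have e1 : (3 * δ) * ((C2 + C1) * δ ^ (-(3/5):ℝ)) = 3 * (C2 + C1) * δ ^ (2/5:ℝ) := by rw [← hd]; ring
    rw [e1] at hEn
    have h51 : 96 * 4 * √R * δ ≤ 96 * 4 * (δ * R ^ (51/100:ℝ)) := by
      have := mul_le_mul_of_nonneg_left hR51 (by positivity : 0 ≤ 96 * 4 * δ)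
      linarith
    unfold er
    have q1 : 0 ≤ δ * R ^ (51/100:ℝ) := by positivity
    have q2 : 0 ≤ R ^ (-(12/25):ℝ) * δ ^ (-(13/25):ℝ) := by positivity
    have q3 : 0 ≤ δ ^ (2/5:ℝ) := by positivity
    have q4 : 0 ≤ (3 * C1 + 8 * (C2 + C1)) * (δ * R ^ (51/100:ℝ)) := by positivity
    have q5 : 0 ≤ (96 * 4 + C1 + 8 * (C2 + C1)) * (R ^ (-(12/25):ℝ) * δ ^ (-(13/25):ℝ)) := by positivity
    have q6 : 0 ≤ (96 * 4 + 3 * C1 + 5 * (C2 + C1)) * δ ^ (2/5:ℝ) := by positivity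
    linarith

/-- the normalised error of the circle problem along a quadratic polynomial -/
theorem quad_Ap {a b c : ℝ} (ha : 0 < a) (hP : ∀ n : ℕ, 0 ≤ a * n^2 + b * n + c) :
    Ap ag (3 * Real.pi/4) (fun n : ℕ => En (√(a * n^2 + b * n + c))) (√a) (b / (2 * √a)) := by
  obtain ⟨C0, hC0, hS⟩ := En_Sand
  have hsa : 0 < √a := Real.sqrt_pos.mpr ha
  exact GW.ap_of (E := En) ag_Bd ag_zero wg_Wt hC0 hS hsa (b / (2 * √a))
    (Rn := fun n : ℕ => √(a * n^2 + b * n + c)) (Pool.Agent.H383.Div.sqrt_quad ha hP)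

end Pool.Agent.H383.Circ
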