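import Mathlib
import Pool.Agent.H383.GaussW

open MeasureTheory Filter Topology
open Pool.Agent.H383.AP Pool.Agent.H383.Gauss Pool.Agent.H383.Gen Pool.Agent.H383.GW

namespace Pool.Agent.H383.Circ

/-- the error term in the circle problem, as a function of the squared radius -/
noncomputable def Cx (x : ℝ) : ℝ := (Nat.card {p : ℤ × ℤ // (p.1 : ℝ) ^ 2 + (p.2 : ℝ) ^ 2 ≤ x} : ℝ) - Real.pi * x

lemma En_quad {x : ℝ} (hx0 : 0 ≤ x) : En √x = Cx x / x ^ (1/4:ℝ) := by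
  unfold En F Cx
  rw [Real.sq_sqrt hx0]
  congr 1
  rw [Real.sqrt_eq_rpow, Real.sqrt_eq_rpow, ← Real.rpow_mul hx0]; norm_num

lemma rA_card (m : ℕ) : rA m = (Nat.card {p : ℤ × ℤ // p.1 ^ 2 + p.2 ^ 2 = (m : ℤ)} : ℝ) := by
  unfold rA
  congr 1
  rw [← Nat.card_coe_set_eq]
  apply Nat.card_congr
  refine ⟨fun z => ⟨(z.1.re, z.1.im), ?_⟩, fun p => ⟨⟨p.1.1, p.1.2⟩, ?_⟩, fun z => ?_, fun p => ?_⟩
  · have := z.2
    rw [mem_A, norm_eq] at this
    exact this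
  · rw [mem_A, norm_eq]
    exact p.2
  · rfl
  · rfl

open Classical in
theorem distr {a b c : ℝ} (ha : 0 < a) (hP : ∀ n : ℕ, 0 < a * n^2 + b * n + c) :
    ∃ μ : ProbabilityMeasure ℝ,
      Integrable (fun x : ℝ => x ^ 2) (μ : Measure ℝ) ∧
      (∀ f : ℝ → ℝ, Continuous f → (∃ C : ℝ, ∀ x : ℝ, |f x| ≤ C * (1 + x ^ 2)) →
        Tendsto (fun N : ℕ => (∑ n ∈ Finset.range N,
            f (Cx (a * n^2 + b * n + c) / (a * n^2 + b * n + c) ^ (1/4:ℝ))) / N)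
          atTop (𝓝 (∫ x, f x ∂(μ : Measure ℝ)))) ∧
      Summable (fun m : ℕ => if 1 ≤ m ∧ ∃ k : ℤ, √(a * m) = k then
          (Nat.card {p : ℤ × ℤ // p.1 ^ 2 + p.2 ^ 2 = (m : ℤ)} : ℝ) / Real.pi
            * (m : ℝ) ^ (-(3 / 4) : ℝ) * Real.cos (Real.pi * b * √(m / a) - 3 * Real.pi / 4)
        else 0) ∧
      ∫ x, x ∂(μ : Measure ℝ) = ∑' m : ℕ,
        if 1 ≤ m ∧ ∃ k : ℤ, √(a * m) = k then
          (Nat.card {p : ℤ × ℤ // p.1 ^ 2 + p.2 ^ 2 = (m : ℤ)} : ℝ) / Real.pi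
            * (m : ℝ) ^ (-(3 / 4) : ℝ) * Real.cos (Real.pi * b * √(m / a) - 3 * Real.pi / 4)
        else 0 := by
  have hsa : 0 < √a := Real.sqrt_pos.mpr ha
  have hAp := quad_Ap ha (fun n => (hP n).le)
  obtain ⟨μ, hμ2, hμ⟩ := hAp.b2.limit
  have heq : ∀ n : ℕ, En √(a * n^2 + b * n + c) = Cx (a * n^2 + b * n + c) / (a * n^2 + b * n + c) ^ (1/4:ℝ) :=
    fun n => En_quad (hP n).le
  have hfun : (fun m : ℕ => if 1 ≤ m ∧ ∃ k : ℤ, √(a * m) = k then
          (Nat.card {p : ℤ × ℤ // p.1 ^ 2 + p.2 ^ 2 = (m : ℤ)} : ℝ) / Real.pi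
            * (m : ℝ) ^ (-(3 / 4) : ℝ) * Real.cos (Real.pi * b * √(m / a) - 3 * Real.pi / 4)
        else 0) = rt ag (3 * Real.pi/4) (√a) (b / (2 * √a)) := by
    funext m
    unfold rt
    rcases Nat.eq_zero_or_pos m with rfl | hm
    · rw [ag_zero, zero_mul]; simp
    · have hm1 : 1 ≤ m := hm
      have hm0 : (0:ℝ) < m := by exact_mod_cast hm1
      have e1 : √a * √(m:ℝ) = √(a * m) := by rw [Real.sqrt_mul ha.le]
      have e2 : 2 * Real.pi * (b / (2 * √a) * √(m:ℝ)) - 3 * Real.pi/4 = Real.pi * b * √((m:ℝ) / a) - 3 * Real.pi/4 := by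
        rw [Real.sqrt_div (Nat.cast_nonneg m)]; field_simp
      have e3 : ag m = (Nat.card {p : ℤ × ℤ // p.1 ^ 2 + p.2 ^ 2 = (m : ℤ)} : ℝ) / Real.pi * (m : ℝ) ^ (-(3 / 4) : ℝ) := by
        unfold ag
        rw [rA_card, Real.sqrt_eq_rpow, ← Real.rpow_mul hm0.le]; norm_num
      rw [e1, e2, e3]
      by_cases hk : ∃ k : ℤ, √(a * m) = k
      · rw [if_pos hk, if_pos ⟨hm1, hk⟩]
      · rw [if_neg hk, if_neg (fun h => hk h.2)]
  refine ⟨μ, hμ2, ?_, ?_, ?_⟩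
  · intro f hf hC
    have := hμ f hf hC
    simp only [heq] at this
    exact this
  · rw [hfun]
    exact rt_summable ag_Bd ag_zero hsa _
  · have h1 := hμ (fun x => x) continuous_id ⟨1, fun x => by
      rw [one_mul]
      have := sq_nonneg (|x| - 1)
      rw [← sq_abs x]
      nlinarith [abs_nonneg x]⟩
    have h2 := hAp.mean ag_Bd ag_zero (by positivity)
    rw [tendsto_nhds_unique h1 h2, ← hfun]

lemma ag_Dv : Dv ag := cq_div

open Classical in
theorem large {a b c : ℝ} (ha : 0 < a) (hP : ∀ n : ℕ, 0 < a * n^2 + b * n + c) (K : ℝ) :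
    ∃ c' : ℝ, 0 < c' ∧ ∃ N₀ : ℕ, ∀ N : ℕ, N₀ ≤ N →
      c' * N ≤ (((Finset.range N).filter (fun n : ℕ => K * (a * n^2 + b * n + c) ^ (1/4:ℝ) <
        Cx (a * n^2 + b * n + c))).card : ℝ) ∧
      c' * N ≤ (((Finset.range N).filter (fun n : ℕ =>
        Cx (a * n^2 + b * n + c) < -(K * (a * n^2 + b * n + c) ^ (1/4:ℝ)))).card : ℝ) := by
  have hsa : 0 < √a := Real.sqrt_pos.mpr ha
  have hAp := quad_Ap ha (fun n => (hP n).le)
  obtain ⟨c1, hc1, N1, h1⟩ := hAp.omega ag_Bd ag_zero ag_Dv (by positivity) 1 (Or.inl rfl) (abs_nonneg K)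
  obtain ⟨c2, hc2, N2, h2⟩ := hAp.omega ag_Bd ag_zero ag_Dv (by positivity) (-1) (Or.inr rfl) (abs_nonneg K)
  refine ⟨min c1 c2, lt_min hc1 hc2, max N1 N2, ?_⟩
  intro N hN
  have hN0 : (0:ℝ) ≤ N := Nat.cast_nonneg N
  constructor
  · refine (mul_le_mul_of_nonneg_right (min_le_left _ _) hN0).trans ((h1 N (by omega)).trans ?_)
    have hsub : (Finset.range N).filter (fun n : ℕ => |K| < 1 * En √(a * n^2 + b * n + c)) ⊆
        (Finset.range N).filter (fun n : ℕ => K * (a * n^2 + b * n + c) ^ (1/4:ℝ) <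
        Cx (a * n^2 + b * n + c)) := by
      intro n hn
      rw [Finset.mem_filter] at hn ⊢
      refine ⟨hn.1, ?_⟩
      have hx := hP n
      have hs : 0 < (a * n^2 + b * n + c) ^ (1/4:ℝ) := by positivity
      have h3 := hn.2
      rw [En_quad hx.le, one_mul, lt_div_iff₀ hs] at h3
      exact lt_of_le_of_lt (mul_le_mul_of_nonneg_right (le_abs_self K) hs.le) h3
    exact_mod_cast Finset.card_le_card hsub
  · refine (mul_le_mul_of_nonneg_right (min_le_right _ _) hN0).trans ((h2 N (by omega)).trans ?_)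
    have hsub : (Finset.range N).filter (fun n : ℕ => |K| < -1 * En √(a * n^2 + b * n + c)) ⊆
        (Finset.range N).filter (fun n : ℕ =>
        Cx (a * n^2 + b * n + c) < -(K * (a * n^2 + b * n + c) ^ (1/4:ℝ))) := by
      intro n hn
      rw [Finset.mem_filter] at hn ⊢
      refine ⟨hn.1, ?_⟩
      have hx := hP n
      have hs : 0 < (a * n^2 + b * n + c) ^ (1/4:ℝ) := by positivity
      have h3 := hn.2
      rw [En_quad hx.le] at h3
      have h4 : |K| < -Cx (a * n^2 + b * n + c) / (a * n^2 + b * n + c) ^ (1/4:ℝ) := by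
        rw [neg_div]; linarith
      rw [lt_div_iff₀ hs] at h4
      have h5 := mul_le_mul_of_nonneg_right (le_abs_self K) hs.le
      linarith
    exact_mod_cast Finset.card_le_card hsub

end Pool.Agent.H383.Circ
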