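import Mathlib
import Pool.Agent.H383.BlkB

open MeasureTheory Filter Topology
open Pool.Agent.H383.AP Pool.Agent.H383.Gauss

namespace Pool.Agent.H383.Gen

/-- coefficient bound with a general exponent -/
def BK (a : ℕ → ℝ) (κ : ℝ) : Prop := ∃ C : ℝ, 0 < C ∧ ∀ m : ℕ, 1 ≤ m → |a m| ≤ C * (m:ℝ) ^ (-κ)

/-- the limit law property used below -/
def Law (e : ℕ → ℝ) (μ : ProbabilityMeasure ℝ) : Prop :=
  ∀ f : ℝ → ℝ, Continuous f → (∃ B, ∀ x, |f x| ≤ B) →
      Tendsto (rm (fun n => f (e n))) atTop (𝓝 (∫ x, f x ∂(μ : Measure ℝ)))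

variable {a : ℕ → ℝ} {φ α X κ : ℝ} {S0 T : Finset ℕ} {s : ℕ} {e : ℕ → ℝ} {μ : ProbabilityMeasure ℝ}

lemma bT_le (hκ : 1/2 < κ) {C : ℝ} (hC : 0 < C) (ha : ∀ m : ℕ, 1 ≤ m → |a m| ≤ C * (m:ℝ) ^ (-κ))
    (hs : 1 ≤ s) (hT : ∀ m ∈ T, 1 ≤ m ∧ InC s m) :
    bT a T ≤ C * (∑' t : ℕ, (t:ℝ) ^ (-(2 * κ))) * (s:ℝ) ^ (-κ) := by
  classical
  have hsum : Summable (fun t : ℕ => (t:ℝ) ^ (-(2 * κ))) := by
    rw [Real.summable_nat_rpow]; linarith
  have hs0 : (0:ℝ) < s := by exact_mod_cast hs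
  choose! f hf using fun m (hm : m ∈ T) => (hT m hm).2
  have hinj : Set.InjOn f T := by
    intro m hm m' hm' h
    rw [hf m hm, hf m' hm', h]
  have hf0 : ∀ m ∈ T, 1 ≤ f m := by
    intro m hm
    by_contra h
    have h0 : f m = 0 := by omega
    have h1 := hf m hm
    have h2 := (hT m hm).1
    rw [h0] at h1
    simp at h1
    omega
  unfold bT
  have h1 : ∀ m ∈ T, |a m| ≤ C * (s:ℝ) ^ (-κ) * ((f m : ℕ) : ℝ) ^ (-(2 * κ)) := by
    intro m hm
    have h2 := ha m (hT m hm).1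
    have hfm : (0:ℝ) < f m := by exact_mod_cast hf0 m hm
    have h3 : (m:ℝ) ^ (-κ) = (s:ℝ) ^ (-κ) * ((f m : ℕ) : ℝ) ^ (-(2 * κ)) := by
      have : (m:ℝ) = (s:ℝ) * ((f m : ℕ):ℝ)^2 := by exact_mod_cast hf m hm
      rw [this, Real.mul_rpow hs0.le (by positivity), ← Real.rpow_natCast, ← Real.rpow_mul hfm.le]
      congr 2
      push_cast; ring
    rw [h3] at h2
    linarith
  calc ∑ m ∈ T, |a m| ≤ ∑ m ∈ T, C * (s:ℝ) ^ (-κ) * ((f m : ℕ) : ℝ) ^ (-(2 * κ)) := Finset.sum_le_sum h1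
    _ = C * (s:ℝ) ^ (-κ) * ∑ m ∈ T, ((f m : ℕ) : ℝ) ^ (-(2 * κ)) := by rw [Finset.mul_sum]
    _ = C * (s:ℝ) ^ (-κ) * ∑ t ∈ T.image f, ((t : ℕ) : ℝ) ^ (-(2 * κ)) := by rw [Finset.sum_image hinj]
    _ ≤ C * (s:ℝ) ^ (-κ) * ∑' t : ℕ, (t:ℝ) ^ (-(2 * κ)) := by
        gcongr
        exact hsum.sum_le_tsum _ (fun t _ => by positivity)
    _ = _ := by ring

lemma Law.char (h : Law e μ) (t : ℝ) : HasMean (fun n => Complex.exp (((t * e n : ℝ) : ℂ) * Complex.I))
    (charFun (μ : Measure ℝ) t) := by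
  have h1 := h (fun x => Real.cos (t * x)) (by fun_prop) ⟨1, fun x => Real.abs_cos_le_one _⟩
  have h2 := h (fun x => Real.sin (t * x)) (by fun_prop) ⟨1, fun x => Real.abs_sin_le_one _⟩
  have hint1 : Integrable (fun x : ℝ => Real.cos (t * x)) (μ : Measure ℝ) := by
    apply Integrable.of_bound (C := 1) (by fun_prop)
    exact Eventually.of_forall (fun x => by rw [Real.norm_eq_abs]; exact Real.abs_cos_le_one _)
  have hint2 : Integrable (fun x : ℝ => Real.sin (t * x)) (μ : Measure ℝ) := by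
    apply Integrable.of_bound (C := 1) (by fun_prop)
    exact Eventually.of_forall (fun x => by rw [Real.norm_eq_abs]; exact Real.abs_sin_le_one _)
  have e1 : charFun (μ : Measure ℝ) t = ((∫ x, Real.cos (t * x) ∂(μ : Measure ℝ) : ℝ) : ℂ) +
      ((∫ x, Real.sin (t * x) ∂(μ : Measure ℝ) : ℝ) : ℂ) * Complex.I := by
    rw [charFun_apply_real, ← integral_complex_ofReal, ← integral_complex_ofReal, ← integral_mul_const, ← integral_add]
    · congr 1
      funext x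
      have : (t:ℂ) * (x:ℂ) * Complex.I = ((t * x : ℝ) : ℂ) * Complex.I := by push_cast; ring
      rw [this, Complex.exp_mul_I, Complex.ofReal_cos, Complex.ofReal_sin]
    · exact hint1.ofReal
    · exact hint2.ofReal.mul_const _
  rw [e1]
  unfold HasMean
  have e2 : cm (fun n => Complex.exp (((t * e n : ℝ) : ℂ) * Complex.I)) = fun N =>
      ((rm (fun n => Real.cos (t * e n)) N : ℝ) : ℂ) + ((rm (fun n => Real.sin (t * e n)) N : ℝ) : ℂ) * Complex.I := by
    funext N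
    rw [← cm_ofReal, ← cm_ofReal]
    unfold cm
    rw [div_mul_eq_mul_div, ← add_div, Finset.sum_mul, ← Finset.sum_add_distrib]
    congr 1
    apply Finset.sum_congr rfl
    intro n _
    beta_reduce
    rw [Complex.exp_mul_I, Complex.ofReal_cos, Complex.ofReal_sin]
  rw [e2]
  exact ((Complex.continuous_ofReal.tendsto _).comp h1).add (((Complex.continuous_ofReal.tendsto _).comp h2).mul_const _)

/-- bound for the characteristic function by the approximants -/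
lemma char_le_of_approx (hA : Ap a φ e α X) (h : Law e μ) (t : ℝ) {B : ℝ} {M1 : ℕ}
    (hB : ∀ M : ℕ, M1 ≤ M → ‖mn (ex a φ α X ((t:ℂ) * Complex.I) (Finset.Icc 1 (M^2)))‖ ≤ B) :
    ‖charFun (μ : Measure ℝ) t‖ ≤ B := by
  apply le_of_forall_pos_le_add
  intro ε hε
  obtain ⟨M0, hM0⟩ := hA ((ε / (|t| + 1))^2) (by positivity)
  set M := max M0 M1 with hM
  obtain ⟨N0, hN0⟩ := hM0 M (le_max_left _ _)
  have h1 := mean_close (η := ε) (h.char t) (UC_hasMean (ex_UC_top (a := a) (φ := φ) (α := α) (X := X)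
    (T := Finset.Icc 1 (M^2)) ((t:ℂ) * Complex.I))) ⟨N0, fun N hN => by
      refine (norm_cm_sub_le _ _ N).trans ?_
      have hpt : ∀ n, ‖Complex.exp (((t * e n : ℝ) : ℂ) * Complex.I) -
          ex a φ α X ((t:ℂ) * Complex.I) (Finset.Icc 1 (M^2)) n‖ ≤ |t| * |e n - U a φ (X + n * α) M| := by
        intro n
        unfold ex
        rw [ST_U]
        set y := U a φ (X + n * α) M with hy
        have e0 : (t:ℂ) * Complex.I * ((y : ℝ) : ℂ) = ((t * y : ℝ) : ℂ) * Complex.I := by push_cast; ring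
        rw [e0]
        have e1 : Complex.exp (((t * e n : ℝ) : ℂ) * Complex.I) - Complex.exp (((t * y : ℝ) : ℂ) * Complex.I) =
            Complex.exp (((t * y : ℝ) : ℂ) * Complex.I) * (Complex.exp (Complex.I * ((t * (e n - y) : ℝ) : ℂ)) - 1) := by
          rw [mul_sub, ← Complex.exp_add, mul_one]
          congr 2
          push_cast; ring
        rw [e1, norm_mul, Complex.norm_exp_ofReal_mul_I, one_mul, ← abs_mul]
        exact Real.norm_exp_I_mul_ofReal_sub_one_le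
      refine (rm_mono hpt N).trans ?_
      rw [rm_mul]
      have h2 := rm_abs_le (x := fun n => e n - U a φ (X + n * α) M) (c := ε / (|t| + 1)) (by positivity) (hN0 N hN)
      calc |t| * rm (fun n => |e n - U a φ (X + n * α) M|) N ≤ |t| * (ε / (|t| + 1)) := by gcongr
        _ ≤ ε := by
            rw [mul_div_assoc', div_le_iff₀ (by positivity)]
            nlinarith [abs_nonneg t]⟩
  have h3 := hB M (le_max_right _ _)
  calc ‖charFun (μ : Measure ℝ) t‖ = ‖(charFun (μ : Measure ℝ) t - mn (ex a φ α X ((t:ℂ) * Complex.I) (Finset.Icc 1 (M^2)))) +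
        mn (ex a φ α X ((t:ℂ) * Complex.I) (Finset.Icc 1 (M^2)))‖ := by rw [sub_add_cancel]
    _ ≤ ε + B := (norm_add_le _ _).trans (add_le_add h1 h3)
    _ = B + ε := add_comm _ _

open Classical in
/-- decay of the characteristic function of the limit law -/
theorem char_bound (hS : GoodS α S0) (hA : Ap a φ e α X) (h : Law e μ)
    (hκ : 1/2 < κ) {C : ℝ} (hC : 0 < C) (ha : ∀ m : ℕ, 1 ≤ m → |a m| ≤ C * (m:ℝ) ^ (-κ))
    {t : ℝ} {Q : Finset ℕ} (hQ : ∀ s ∈ Q, Squarefree s ∧ s ∉ S0)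
    (hQt : ∀ s ∈ Q, |t| * (C * (∑' t : ℕ, (t:ℝ) ^ (-(2 * κ)))) * (s:ℝ) ^ (-κ) ≤ 1) :
    ‖charFun (μ : Measure ℝ) t‖ ≤ Real.exp (-((5/36) * t^2 * ∑ q ∈ Q, (a q)^2)) := by
  apply char_le_of_approx hA h t (M1 := Q.sup id + 1)
  intro M hM
  have hqM : ∀ q ∈ Q, q ∈ Finset.Icc 1 (M^2) := by
    intro q hq
    have h2 : q ≤ Q.sup id := Finset.le_sup (f := id) hq
    rw [Finset.mem_Icc]
    refine ⟨Nat.one_le_iff_ne_zero.mpr (hQ q hq).1.ne_zero, by nlinarith⟩
  rw [prod_formula (a := a) (φ := φ) (X := X) hS ((t:ℂ) * Complex.I) (T := Finset.Icc 1 (M^2))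
    (fun m hm => (Finset.mem_Icc.mp hm).1) Q hQ, norm_mul, norm_prod]
  have h1 : ‖mn (ex a φ α X ((t:ℂ) * Complex.I) ((Finset.Icc 1 (M^2)).filter (fun m => ∀ s ∈ Q, ¬ InC s m)))‖ ≤ 1 := by
    apply mn_norm_le (ex_UC_top _) zero_le_one
    intro n
    unfold ex
    have e0 : ∀ y : ℝ, (t:ℂ) * Complex.I * (y : ℂ) = ((t * y : ℝ) : ℂ) * Complex.I := by intro y; push_cast; ring
    rw [e0, Complex.norm_exp_ofReal_mul_I]
  have h2 : ∀ s ∈ Q, ‖mn (ex a φ α X ((t:ℂ) * Complex.I) ((Finset.Icc 1 (M^2)).filter (InC s)))‖ ≤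
      Real.exp (-((5/36) * t^2 * (a s)^2)) := by
    intro s hs
    obtain ⟨hsf, hs0⟩ := hQ s hs
    have hT : ∀ m ∈ (Finset.Icc 1 (M^2)).filter (InC s), 1 ≤ m ∧ InC s m := by
      intro m hm
      rw [Finset.mem_filter, Finset.mem_Icc] at hm
      exact ⟨hm.1.1, hm.2⟩
    have hb := bT_le hκ hC ha (Nat.one_le_iff_ne_zero.mpr hsf.ne_zero) hT
    have hbt : |t| * bT a ((Finset.Icc 1 (M^2)).filter (InC s)) ≤ 1 := by
      refine le_trans ?_ (hQt s hs)
      have := mul_le_mul_of_nonneg_left hb (abs_nonneg t)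
      linarith
    refine (blk_char hS hsf hs0 hT hbt).trans ?_
    apply Real.exp_le_exp.mpr
    have hv : (1/2) * (a s)^2 ≤ vT a ((Finset.Icc 1 (M^2)).filter (InC s)) := by
      unfold vT
      have hmem : s ∈ (Finset.Icc 1 (M^2)).filter (InC s) := by
        rw [Finset.mem_filter]
        exact ⟨hqM s hs, ⟨1, by ring⟩⟩
      have := Finset.single_le_sum (f := fun m => (a m)^2) (fun i _ => sq_nonneg _) hmem
      linarith
    have ht2 : 0 ≤ t^2 := sq_nonneg t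
    nlinarith
  calc (∏ s ∈ Q, ‖mn (ex a φ α X ((t:ℂ) * Complex.I) ((Finset.Icc 1 (M^2)).filter (InC s)))‖) *
        ‖mn (ex a φ α X ((t:ℂ) * Complex.I) ((Finset.Icc 1 (M^2)).filter (fun m => ∀ s ∈ Q, ¬ InC s m)))‖
      ≤ (∏ s ∈ Q, Real.exp (-((5/36) * t^2 * (a s)^2))) * 1 := by
        gcongr with s hs
        exact h2 s hs
    _ = Real.exp (-((5/36) * t^2 * ∑ q ∈ Q, (a q)^2)) := by
        rw [mul_one, ← Real.exp_sum, Finset.sum_neg_distrib, Finset.mul_sum]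

open Classical in
/-- moment generating function of the approximants -/
theorem mgf_bound (hS : GoodS α S0)
    (hκ : 1/2 < κ) {C : ℝ} (hC : 0 < C) (ha : ∀ m : ℕ, 1 ≤ m → |a m| ≤ C * (m:ℝ) ^ (-κ))
    {p : ℝ} (hp1 : 1 ≤ p) (hp2 : p ≤ 2) (hp : 1 < κ * p) :
    ∃ B0 D : ℝ, 0 ≤ B0 ∧ 0 ≤ D ∧ ∀ (l : ℝ) (M : ℕ),
      ‖mn (ex a φ α X (l:ℂ) (Finset.Icc 1 (M^2)))‖ ≤ Real.exp (B0 * |l| + D * |l| ^ p) := by
  set Z := C * (∑' t : ℕ, (t:ℝ) ^ (-(2 * κ))) with hZ
  have hZ0 : 0 ≤ Z := mul_nonneg hC.le (tsum_nonneg (fun t => by positivity))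
  have hsum : Summable (fun s : ℕ => (s:ℝ) ^ (-(κ * p))) := by
    rw [Real.summable_nat_rpow]; linarith
  refine ⟨∑ s ∈ S0, Z * (s:ℝ) ^ (-κ), Z ^ p * ∑' s : ℕ, (s:ℝ) ^ (-(κ * p)), ?_, ?_, ?_⟩
  · exact Finset.sum_nonneg (fun s _ => by positivity)
  · exact mul_nonneg (by positivity) (tsum_nonneg (fun s => by positivity))
  intro l M
  set Q := (Finset.Icc 1 (M^2)).filter (fun s => Squarefree s ∧ s ∉ S0) with hQ
  have hQ' : ∀ s ∈ Q, Squarefree s ∧ s ∉ S0 := fun s hs => (Finset.mem_filter.mp hs).2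
  rw [prod_formula (a := a) (φ := φ) (X := X) hS (l:ℂ) (T := Finset.Icc 1 (M^2))
    (fun m hm => (Finset.mem_Icc.mp hm).1) Q hQ', norm_mul, norm_prod]
  set Tr := (Finset.Icc 1 (M^2)).filter (fun m => ∀ s ∈ Q, ¬ InC s m) with hTr
  have h1 : ‖mn (ex a φ α X (l:ℂ) Tr)‖ ≤ Real.exp ((∑ s ∈ S0, Z * (s:ℝ) ^ (-κ)) * |l|) := by
    apply mn_norm_le (ex_UC_top _) (Real.exp_pos _).le
    intro n
    unfold ex
    rw [Complex.norm_exp]
    apply Real.exp_le_exp.mpr
    have e : ((l:ℂ) * ((ST a φ α X Tr n : ℝ) : ℂ)).re = l * ST a φ α X Tr n := by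
      rw [← Complex.ofReal_mul, Complex.ofReal_re]
    rw [e]
    have hbTr : bT a Tr ≤ ∑ s ∈ S0, Z * (s:ℝ) ^ (-κ) := by
      -- split by classes
      have hsub : ∀ m ∈ Tr, ∃ s ∈ S0.filter Squarefree, InC s m := by
        intro m hm
        rw [hTr, Finset.mem_filter, Finset.mem_Icc] at hm
        obtain ⟨s, t, hst, hsf⟩ := Nat.sq_mul_squarefree m
        have hc : InC s m := ⟨t, by rw [← hst]; ring⟩
        refine ⟨s, ?_, hc⟩
        rw [Finset.mem_filter]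
        refine ⟨?_, hsf⟩
        by_contra hs0
        apply hm.2 s _ hc
        rw [hQ, Finset.mem_filter, Finset.mem_Icc]
        refine ⟨⟨Nat.one_le_iff_ne_zero.mpr hsf.ne_zero, ?_⟩, hsf, hs0⟩
        have ht : 1 ≤ t := by
          rcases Nat.eq_zero_or_pos t with h | h
          · rw [h] at hst; simp at hst; omega
          · exact h
        calc s = 1^2 * s := by ring
          _ ≤ t^2 * s := Nat.mul_le_mul_right _ (Nat.pow_le_pow_left ht 2)
          _ = m := hst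
          _ ≤ M^2 := hm.1.2
      have h3 : bT a Tr ≤ ∑ s ∈ S0.filter Squarefree, bT a (Tr.filter (InC s)) := by
        unfold bT
        have h4 : ∀ m ∈ Tr, |a m| ≤ ∑ s ∈ S0.filter Squarefree, if InC s m then |a m| else 0 := by
          intro m hm
          obtain ⟨s, hs, hc⟩ := hsub m hm
          have h5 := Finset.single_le_sum (s := S0.filter Squarefree) (f := fun s => if InC s m then |a m| else 0) (fun i _ => by
            split_ifs
            · exact abs_nonneg _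
            · exact le_rfl) hs
          simp only [if_pos hc] at h5
          exact h5
        refine (Finset.sum_le_sum h4).trans ?_
        rw [Finset.sum_comm]
        apply Finset.sum_le_sum
        intro s _
        rw [← Finset.sum_filter]
      refine h3.trans ?_
      refine le_trans ?_ (Finset.sum_le_sum_of_subset_of_nonneg (Finset.filter_subset Squarefree S0) (fun s _ _ => by positivity))
      apply Finset.sum_le_sum
      intro s hs
      rw [Finset.mem_filter] at hs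
      apply bT_le hκ hC ha (Nat.one_le_iff_ne_zero.mpr hs.2.ne_zero)
      intro m hm
      rw [Finset.mem_filter, hTr, Finset.mem_filter, Finset.mem_Icc] at hm
      exact ⟨hm.1.1.1, hm.2⟩
    calc l * ST a φ α X Tr n ≤ |l * ST a φ α X Tr n| := le_abs_self _
      _ = |l| * |ST a φ α X Tr n| := abs_mul _ _
      _ ≤ |l| * bT a Tr := mul_le_mul_of_nonneg_left (abs_ST_le n) (abs_nonneg _)
      _ ≤ |l| * ∑ s ∈ S0, Z * (s:ℝ) ^ (-κ) := mul_le_mul_of_nonneg_left hbTr (abs_nonneg _)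
      _ = _ := mul_comm _ _
  have h2 : ∀ s ∈ Q, ‖mn (ex a φ α X (l:ℂ) ((Finset.Icc 1 (M^2)).filter (InC s)))‖ ≤
      Real.exp ((Z ^ p * |l| ^ p) * (s:ℝ) ^ (-(κ * p))) := by
    intro s hs
    obtain ⟨hsf, hs0⟩ := hQ' s hs
    have hs1 : (0:ℝ) < s := by exact_mod_cast (Nat.pos_of_ne_zero hsf.ne_zero)
    have hT : ∀ m ∈ (Finset.Icc 1 (M^2)).filter (InC s), 1 ≤ m ∧ InC s m := by
      intro m hm
      rw [Finset.mem_filter, Finset.mem_Icc] at hm
      exact ⟨hm.1.1, hm.2⟩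
    refine (blk_mgf hS hsf hs0 hT l).trans ?_
    apply Real.exp_le_exp.mpr
    have hb := bT_le hκ hC ha (Nat.one_le_iff_ne_zero.mpr hsf.ne_zero) hT
    set b := bT a ((Finset.Icc 1 (M^2)).filter (InC s)) with hbd
    have hb0 : 0 ≤ |l| * b := mul_nonneg (abs_nonneg _) bT_nonneg
    have hmin : min (|l| * b) ((|l| * b)^2) ≤ (|l| * b) ^ p := by
      rcases le_or_gt (|l| * b) 1 with h | h
      · refine (min_le_right _ _).trans ?_
        rcases hb0.eq_or_lt with h0 | h0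
        · rw [← h0]; simp [Real.zero_rpow (by linarith : p ≠ 0)]
        · rw [← Real.rpow_natCast]
          exact Real.rpow_le_rpow_of_exponent_ge h0 h (by exact_mod_cast hp2)
      · refine (min_le_left _ _).trans ?_
        calc |l| * b = (|l| * b) ^ (1:ℝ) := (Real.rpow_one _).symm
          _ ≤ _ := Real.rpow_le_rpow_of_exponent_le h.le hp1
    refine hmin.trans ?_
    calc (|l| * b) ^ p ≤ (|l| * (Z * (s:ℝ) ^ (-κ))) ^ p := by
          apply Real.rpow_le_rpow hb0 _ (by linarith)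
          exact mul_le_mul_of_nonneg_left hb (abs_nonneg _)
      _ = (Z ^ p * |l| ^ p) * (s:ℝ) ^ (-(κ * p)) := by
          rw [Real.mul_rpow (abs_nonneg _) (by positivity), Real.mul_rpow hZ0 (by positivity), ← Real.rpow_mul hs1.le]
          rw [show -κ * p = -(κ * p) by ring]; ring
  calc (∏ s ∈ Q, ‖mn (ex a φ α X (l:ℂ) ((Finset.Icc 1 (M^2)).filter (InC s)))‖) * ‖mn (ex a φ α X (l:ℂ) Tr)‖
      ≤ (∏ s ∈ Q, Real.exp ((Z ^ p * |l| ^ p) * (s:ℝ) ^ (-(κ * p)))) *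
        Real.exp ((∑ s ∈ S0, Z * (s:ℝ) ^ (-κ)) * |l|) := by
        gcongr with s hs
        exact h2 s hs
    _ = Real.exp ((∑ s ∈ S0, Z * (s:ℝ) ^ (-κ)) * |l| + (Z ^ p * |l| ^ p) * ∑ s ∈ Q, (s:ℝ) ^ (-(κ * p))) := by
        rw [← Real.exp_sum, ← Real.exp_add, Finset.mul_sum, add_comm]
    _ ≤ _ := by
        apply Real.exp_le_exp.mpr
        have h5 : ∑ s ∈ Q, (s:ℝ) ^ (-(κ * p)) ≤ ∑' s : ℕ, (s:ℝ) ^ (-(κ * p)) :=
          hsum.sum_le_tsum _ (fun s _ => by positivity)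
        have h6 : 0 ≤ Z ^ p * |l| ^ p := by positivity
        have h7 := mul_le_mul_of_nonneg_left h5 h6
        linarith

end Pool.Agent.H383.Gen
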