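import Mathlib
import Pool.Agent.H383.Reg

open MeasureTheory Filter Topology
open Pool.Agent.H383.AP Pool.Agent.H383.Gauss

namespace Pool.Agent.H383.Gen

variable {a : ℕ → ℝ} {φ α X κ : ℝ} {S0 T : Finset ℕ} {s : ℕ} {e : ℕ → ℝ} {μ : ProbabilityMeasure ℝ}

lemma exp_lip {L u v : ℝ} (hu : u ≤ L) (hv : v ≤ L) : |Real.exp u - Real.exp v| ≤ Real.exp L * |u - v| := by
  wlog h : v ≤ u generalizing u v
  · rw [abs_sub_comm, abs_sub_comm u v]
    exact this hv hu (le_of_not_ge h)
  have h1 : Real.exp u - Real.exp v = Real.exp u * (1 - Real.exp (v - u)) := by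
    rw [mul_sub, mul_one, ← Real.exp_add]; congr 2; ring
  have h2 := Real.add_one_le_exp (v - u)
  have h3 : Real.exp v ≤ Real.exp u := Real.exp_le_exp.mpr h
  rw [abs_of_nonneg (by linarith), abs_of_nonneg (by linarith : 0 ≤ u - v), h1]
  calc Real.exp u * (1 - Real.exp (v - u)) ≤ Real.exp u * (u - v) :=
        mul_le_mul_of_nonneg_left (by linarith) (Real.exp_pos u).le
    _ ≤ Real.exp L * (u - v) := mul_le_mul_of_nonneg_right (Real.exp_le_exp.mpr hu) (by linarith)

/-- the truncated exponential -/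
noncomputable def te (l L x : ℝ) : ℝ := Real.exp (min (l * x) L)

lemma te_pos (l L x : ℝ) : 0 < te l L x := Real.exp_pos _

lemma te_cont (l L : ℝ) : Continuous (te l L) := by unfold te; fun_prop

lemma te_le (l L x : ℝ) : te l L x ≤ Real.exp L := Real.exp_le_exp.mpr (min_le_right _ _)

lemma te_le' (l L x : ℝ) : te l L x ≤ Real.exp (l * x) := Real.exp_le_exp.mpr (min_le_left _ _)

lemma te_lip (l L x y : ℝ) : |te l L x - te l L y| ≤ Real.exp L * |l| * |x - y| := by
  unfold te
  refine (exp_lip (min_le_right _ _) (min_le_right _ _)).trans ?_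
  rw [mul_assoc, ← abs_mul, mul_sub]
  apply mul_le_mul_of_nonneg_left _ (Real.exp_pos L).le
  refine (abs_min_sub_min_le_max (l*x) L (l*y) L).trans ?_
  simp

theorem te_int (hA : Ap a φ e α X) (h : Law e μ) {l L B : ℝ} (hL : 0 ≤ L)
    (hB : ∀ M : ℕ, ‖mn (ex a φ α X (l:ℂ) (Finset.Icc 1 (M^2)))‖ ≤ B) :
    ∫ x, te l L x ∂(μ : Measure ℝ) ≤ B := by
  have h1 := h (te l L) (te_cont l L) ⟨Real.exp L, fun x => by
    rw [abs_of_nonneg (te_pos _ _ _).le]; exact te_le l L x⟩
  apply le_of_forall_pos_le_add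
  intro ε hε
  obtain ⟨M, hM⟩ := hA ((ε / 2 / (Real.exp L * |l| + 1))^2) (by positivity)
  obtain ⟨N0, hN0⟩ := hM M le_rfl
  have hmean := UC_hasMean (ex_UC_top (a := a) (φ := φ) (α := α) (X := X)
    (T := Finset.Icc 1 (M^2)) (l:ℂ))
  have hre : Tendsto (rm (fun n => Real.exp (l * U a φ (X + n * α) M))) atTop
      (𝓝 (mn (ex a φ α X (l:ℂ) (Finset.Icc 1 (M^2)))).re) := by
    unfold HasMean at hmean
    have e1 : cm (ex a φ α X (l:ℂ) (Finset.Icc 1 (M^2))) = fun N =>
        ((rm (fun n => Real.exp (l * U a φ (X + n * α) M)) N : ℝ) : ℂ) := by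
      funext N
      rw [← cm_ofReal]
      congr 1
      funext n
      unfold ex
      rw [ST_U]; push_cast; rfl
    rw [e1] at hmean
    have h4 := (Complex.continuous_re.tendsto _).comp hmean
    exact h4
  have hle : (mn (ex a φ α X (l:ℂ) (Finset.Icc 1 (M^2)))).re ≤ B :=
    (Complex.re_le_norm _).trans (hB M)
  have hev := hre.eventually (gt_mem_nhds (show (mn (ex a φ α X (l:ℂ) (Finset.Icc 1 (M^2)))).re < B + ε/2 by linarith))
  apply le_of_tendsto h1
  filter_upwards [hev, eventually_ge_atTop N0] with N h2 hN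
  have h3 : rm (fun n => te l L (e n)) N ≤ rm (fun n => Real.exp (l * U a φ (X + n * α) M) +
      (Real.exp L * |l|) * |e n - U a φ (X + n * α) M|) N := by
    apply rm_mono
    intro n
    have h4 := te_lip l L (e n) (U a φ (X + n * α) M)
    have h5 := te_le' l L (U a φ (X + n * α) M)
    have h6 := (abs_le.mp h4).2
    linarith
  rw [rm_add, rm_mul] at h3
  have h7 := rm_abs_le (x := fun n => e n - U a φ (X + n * α) M) (c := ε / 2 / (Real.exp L * |l| + 1)) (by positivity) (hN0 N hN)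
  have h8 : (Real.exp L * |l|) * rm (fun n => |e n - U a φ (X + n * α) M|) N ≤ ε / 2 := by
    calc _ ≤ (Real.exp L * |l|) * (ε / 2 / (Real.exp L * |l| + 1)) := by gcongr
      _ ≤ ε / 2 := by
          rw [mul_div_assoc', div_le_iff₀ (by positivity)]
          nlinarith [Real.exp_pos L, abs_nonneg l]
  linarith

/-- Chernoff bound -/
theorem chernoff (hA : Ap a φ e α X) (h : Law e μ) {l K B : ℝ} (hK : 0 ≤ K)
    (hB : ∀ M : ℕ, ‖mn (ex a φ α X (l:ℂ) (Finset.Icc 1 (M^2)))‖ ≤ B) :
    (μ : Measure ℝ).real {x | |l| * K ≤ l * x} ≤ B * Real.exp (-(|l| * K)) := by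
  have h1 := te_int hA h (L := |l| * K) (by positivity) hB
  have hint : Integrable (te l (|l| * K)) (μ : Measure ℝ) := by
    apply Integrable.of_bound (C := Real.exp (|l| * K)) (te_cont _ _).aestronglyMeasurable
    exact Eventually.of_forall (fun x => by
      rw [Real.norm_eq_abs, abs_of_nonneg (te_pos _ _ _).le]; exact te_le _ _ x)
  have h2 := mul_meas_ge_le_integral_of_nonneg (μ := (μ : Measure ℝ)) (f := te l (|l| * K))
    (Eventually.of_forall (fun x => (te_pos _ _ _).le)) hint (Real.exp (|l| * K))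
  have h3 : {x | |l| * K ≤ l * x} ⊆ {x | Real.exp (|l| * K) ≤ te l (|l| * K) x} := by
    intro x hx
    simp only [Set.mem_ofPred_eq] at hx ⊢
    unfold te
    rw [min_eq_right hx]
  have h4 : (μ : Measure ℝ).real {x | |l| * K ≤ l * x} ≤ (μ : Measure ℝ).real {x | Real.exp (|l| * K) ≤ te l (|l| * K) x} :=
    measureReal_mono h3
  have h5 : Real.exp (|l| * K) * (μ : Measure ℝ).real {x | |l| * K ≤ l * x} ≤ B := by
    calc _ ≤ Real.exp (|l| * K) * (μ : Measure ℝ).real {x | Real.exp (|l| * K) ≤ te l (|l| * K) x} := by gcongr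
      _ ≤ _ := h2
      _ ≤ B := h1
  rw [Real.exp_neg, ← div_eq_mul_inv, le_div_iff₀ (Real.exp_pos _)]
  linarith

/-- tail of the limit law -/
theorem tail_bound (hS : GoodS α S0) (hA : Ap a φ e α X) (h : Law e μ)
    (hκ : 1/2 < κ) (ha : BK a κ) {p : ℝ} (hp1 : 1 < p) (hp2 : p ≤ 2) (hp : 1 < κ * p) :
    ∃ C c : ℝ, 0 < C ∧ 0 < c ∧ ∀ K : ℝ, 0 ≤ K →
      (μ : Measure ℝ).real {x | K ≤ |x|} ≤ C * Real.exp (-(c * K ^ (p / (p - 1)))) := by
  obtain ⟨Ca, hCa, ha'⟩ := ha
  obtain ⟨B0, D, hB0, hD, hmgf⟩ := mgf_bound (a := a) (φ := φ) (X := X) hS hκ hCa ha' hp1.le hp2 hp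
  have hp0 : 0 < p - 1 := by linarith
  set q := p / (p - 1) with hq
  have hq0 : 0 < q := by positivity
  set c := (1/2) * (4 * (D + 1)) ^ (-(1 / (p - 1))) with hc
  have hc0 : 0 < c := by positivity
  refine ⟨2 * Real.exp (c * (4 * B0) ^ q), c, by positivity, hc0, ?_⟩
  intro K hK
  have hone : (μ : Measure ℝ).real {x | K ≤ |x|} ≤ 1 := measureReal_le_one
  by_cases hKB : K ≤ 4 * B0
  · refine hone.trans ?_
    rw [mul_assoc, ← Real.exp_add]
    have h1 : K ^ q ≤ (4 * B0) ^ q := Real.rpow_le_rpow hK hKB hq0.le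
    have h2 : 0 ≤ c * (4 * B0) ^ q + -(c * K ^ q) := by nlinarith
    have h3 := Real.one_le_exp h2
    linarith
  · push Not at hKB
    have hK0 : 0 < K := by linarith
    set l := (K / (4 * (D + 1))) ^ (1 / (p - 1)) with hl
    have hl0 : 0 < l := by positivity
    have hlp : l ^ (p - 1) = K / (4 * (D + 1)) := by
      rw [hl, ← Real.rpow_mul (by positivity), one_div, inv_mul_cancel₀ hp0.ne', Real.rpow_one]
    have hlp2 : l ^ p = l * (K / (4 * (D + 1))) := by
      rw [← hlp]
      conv_rhs => rw [← Real.rpow_one l, ← Real.rpow_mul hl0.le, one_mul, ← Real.rpow_add hl0]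
      congr 1; ring
    have hDl : D * l ^ p ≤ l * K / 4 := by
      rw [hlp2]
      have : D * (l * (K / (4 * (D + 1)))) = (l * K / 4) * (D / (D + 1)) := by field_simp
      rw [this]
      apply mul_le_of_le_one_right (by positivity)
      rw [div_le_one (by positivity)]; linarith
    have hBl : B0 * l ≤ l * K / 4 := by nlinarith
    have hexpo : B0 * l + D * l ^ p + -(l * K) ≤ -(c * K ^ q) := by
      have h1 : c * K ^ q = l * K / 2 := by
        rw [hc, hl, Real.div_rpow hK0.le (by positivity), hq]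
        have h2 : K ^ (p / (p - 1)) = K ^ (1 / (p - 1)) * K := by
          have : p / (p - 1) = 1 / (p - 1) + 1 := by field_simp; ring
          rw [this, Real.rpow_add hK0, Real.rpow_one]
        rw [h2, Real.rpow_neg (by positivity)]
        field_simp
      rw [h1]; linarith
    have hhalf : ∀ l' : ℝ, |l'| = l → (μ : Measure ℝ).real {x | |l'| * K ≤ l' * x} ≤ Real.exp (-(c * K ^ q)) := by
      intro l' hl'
      have h1 := chernoff hA h (l := l') (K := K) (B := Real.exp (B0 * |l'| + D * |l'| ^ p)) hK (fun M => hmgf l' M)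
      refine h1.trans ?_
      rw [← Real.exp_add, hl']
      exact Real.exp_le_exp.mpr hexpo
    have hsub : {x : ℝ | K ≤ |x|} ⊆ {x | |l| * K ≤ l * x} ∪ {x | |(-l)| * K ≤ (-l) * x} := by
      intro x hx
      simp only [Set.mem_ofPred_eq, Set.mem_union] at hx ⊢
      rw [abs_neg, abs_of_pos hl0]
      rcases le_abs.mp hx with h | h
      · left; nlinarith
      · right; nlinarith
    have h2 := hhalf l (abs_of_pos hl0)
    have h3 := hhalf (-l) (by rw [abs_neg, abs_of_pos hl0])
    have h4 : (μ : Measure ℝ).real {x | K ≤ |x|} ≤ 2 * Real.exp (-(c * K ^ q)) := by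
      refine (measureReal_mono hsub).trans ((measureReal_union_le _ _).trans ?_)
      linarith
    refine h4.trans ?_
    have h5 : 1 ≤ Real.exp (c * (4 * B0) ^ q) := Real.one_le_exp (by positivity)
    have h6 := Real.exp_pos (-(c * K ^ q))
    nlinarith

end Pool.Agent.H383.Gen
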