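import Mathlib
import Pool.Agent.H383.Tail
import Pool.Agent.H383.Rich

open MeasureTheory Filter Topology
open Pool.Agent.H383.AP Pool.Agent.H383.Gauss Pool.Agent.H383.Rich

namespace Pool.Agent.H383.Gen

variable {a : ℕ → ℝ} {φ α X κ : ℝ} {S0 : Finset ℕ} {e : ℕ → ℝ} {μ : ProbabilityMeasure ℝ}

/-- lower bound for the coefficients at primes `q = 1 mod 4` -/
def LB (a : ℕ → ℝ) : Prop := ∃ c : ℝ, 0 < c ∧ ∀ q : ℕ, q.Prime → q % 4 = 1 → c * (q:ℝ) ^ (-(3/4):ℝ) ≤ a q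

theorem char_decay (hS : GoodS α S0) (hA : Ap a φ e α X) (h : Law e μ)
    (hκ : 1/2 < κ) (ha : BK a κ) (hl : LB a) {p : ℝ} (hp : 0 < p) (hpκ : 1/2 < κ * (2 - p)) :
    ∃ C c : ℝ, 0 < C ∧ 0 < c ∧ ∀ t : ℝ, ‖charFun (μ : Measure ℝ) t‖ ≤ C * Real.exp (-(c * |t| ^ p)) := by
  obtain ⟨Ca, hCa, ha'⟩ := ha
  obtain ⟨c1, hc1, hl'⟩ := hl
  obtain ⟨y0, hy0, hcard⟩ := PB_card S0
  set Z := Ca * (∑' t : ℕ, (t:ℝ) ^ (-(2 * κ))) with hZ
  have hκ0 : 0 < κ := by linarith
  have hZ0 : 0 < Z := by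
    have hsum : Summable (fun t : ℕ => (t:ℝ) ^ (-(2 * κ))) := by
      rw [Real.summable_nat_rpow]; linarith
    apply mul_pos hCa
    have := hsum.sum_le_tsum {1} (fun t _ => by positivity)
    simp only [Finset.sum_singleton, Nat.cast_one, Real.one_rpow] at this
    linarith
  set δ := κ * (2 - p) - 1/2 with hδ
  have hδ0 : 0 < δ := by linarith
  set t0 := y0 ^ κ / Z with ht0
  have ht00 : 0 < t0 := by positivity
  set c := (5/36) * ((1/20) * c1^2 * 2 ^ (-(3/2):ℝ) * δ) * Z ^ (-(2 - p)) with hc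
  have hc0 : 0 < c := by positivity
  refine ⟨Real.exp (c * t0 ^ p), c, Real.exp_pos _, hc0, ?_⟩
  intro t
  by_cases ht : |t| < t0
  · have h1 : ‖charFun (μ : Measure ℝ) t‖ ≤ 1 := norm_charFun_le_one t
    refine h1.trans ?_
    rw [← Real.exp_add]
    apply Real.one_le_exp
    have : |t| ^ p ≤ t0 ^ p := Real.rpow_le_rpow (abs_nonneg _) ht.le hp.le
    nlinarith
  · push Not at ht
    have ht1 : 0 < |t| := by linarith
    set y := (Z * |t|) ^ (1/κ) with hy
    have hyκ : y ^ κ = Z * |t| := by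
      rw [hy, ← Real.rpow_mul (by positivity), one_div, inv_mul_cancel₀ hκ0.ne', Real.rpow_one]
    have hyy0 : y0 ≤ y := by
      have h1 : y0 ^ κ ≤ Z * |t| := by
        rw [ht0, div_le_iff₀ hZ0] at ht; linarith
      rw [← hyκ] at h1
      exact (Real.rpow_le_rpow_iff (by linarith) (by positivity) hκ0).mp h1
    have hyp : 0 < y := by linarith
    have hy1 : 1 < y := by linarith
    have hlogy : 0 < Real.log y := Real.log_pos hy1
    have hQ : ∀ s ∈ PB S0 y, Squarefree s ∧ s ∉ S0 := by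
      intro s hs
      have := PB_mem hyp.le hs
      exact ⟨this.1.prime.squarefree, this.2.2.1⟩
    have h1 := char_bound (t := t) hS hA h hκ hCa ha' hQ (by
      intro s hs
      have h2 := PB_mem hyp.le hs
      have hs0 : (0:ℝ) < s := by linarith [h2.2.2.2.1]
      have h3 : (s:ℝ) ^ (-κ) ≤ y ^ (-κ) := Real.rpow_le_rpow_of_nonpos hyp h2.2.2.2.1.le (by linarith)
      have h4 : y ^ (-κ) = (Z * |t|)⁻¹ := by rw [Real.rpow_neg hyp.le, hyκ]
      rw [h4] at h3
      calc |t| * Z * (s:ℝ) ^ (-κ) ≤ |t| * Z * (Z * |t|)⁻¹ := by gcongr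
        _ = 1 := by field_simp)
    refine h1.trans ?_
    have hC1 : 1 ≤ Real.exp (c * t0 ^ p) := Real.one_le_exp (by positivity)
    have h2 : Real.exp (-((5/36) * t^2 * ∑ q ∈ PB S0 y, (a q)^2)) ≤ Real.exp (-(c * |t| ^ p)) := by
      apply Real.exp_le_exp.mpr
      apply neg_le_neg
      have h3 : ((PB S0 y).card : ℝ) * (c1^2 * (2*y) ^ (-(3/2):ℝ)) ≤ ∑ q ∈ PB S0 y, (a q)^2 := by
        rw [← nsmul_eq_mul]
        apply Finset.card_nsmul_le_sum
        intro q hq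
        have h4 := PB_mem hyp.le hq
        have hq0 : (0:ℝ) < q := by linarith [h4.2.2.2.1]
        have h5 := hl' q h4.1 h4.2.1
        have h6 : (2*y) ^ (-(3/4):ℝ) ≤ (q:ℝ) ^ (-(3/4):ℝ) :=
          Real.rpow_le_rpow_of_nonpos hq0 h4.2.2.2.2 (by norm_num)
        have h7 : c1 * (2*y) ^ (-(3/4):ℝ) ≤ a q := by
          refine le_trans ?_ h5
          gcongr
        have h8 : (c1 * (2*y) ^ (-(3/4):ℝ))^2 ≤ (a q)^2 := by
          apply pow_le_pow_left₀ (by positivity) h7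
        have h9 : (c1 * (2*y) ^ (-(3/4):ℝ))^2 = c1^2 * (2*y) ^ (-(3/2):ℝ) := by
          rw [mul_pow, ← Real.rpow_natCast ((2*y) ^ (-(3/4):ℝ)), ← Real.rpow_mul (by positivity)]
          norm_num
        linarith
      have h10 := hcard y hyy0
      have hlog : Real.log y ≤ y ^ δ / δ := Real.log_le_rpow_div hyp.le hδ0
      have h11 : (1/20) * y / (y ^ δ / δ) ≤ ((PB S0 y).card : ℝ) := by
        refine le_trans ?_ h10
        exact div_le_div_of_nonneg_left (by positivity) hlogy hlog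
      have h12 : ((1/20) * c1^2 * 2 ^ (-(3/2):ℝ) * δ) * y ^ (-(1/2 + δ)) ≤ ∑ q ∈ PB S0 y, (a q)^2 := by
        refine le_trans ?_ h3
        have h13 : ((1/20) * c1^2 * 2 ^ (-(3/2):ℝ) * δ) * y ^ (-(1/2 + δ)) =
            ((1/20) * y / (y ^ δ / δ)) * (c1^2 * (2*y) ^ (-(3/2):ℝ)) := by
          rw [Real.mul_rpow (by norm_num) hyp.le]
          have e1 : y ^ (-(1/2 + δ)) = y * y ^ (-(3/2):ℝ) / y ^ δ := by
            rw [eq_div_iff (by positivity), ← Real.rpow_add hyp]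
            conv_rhs => rw [← Real.rpow_one y, ← Real.rpow_mul hyp.le, one_mul, ← Real.rpow_add hyp]
            congr 1; ring
          rw [e1]
          field_simp
        rw [h13]
        gcongr
      have h14 : y ^ (-(1/2 + δ)) = Z ^ (-(2 - p)) * |t| ^ (-(2 - p)) := by
        rw [← Real.mul_rpow hZ0.le (abs_nonneg _), ← hyκ, ← Real.rpow_mul hyp.le]
        congr 1
        rw [hδ]; ring
      have h15 : t^2 * |t| ^ (-(2 - p)) = |t| ^ p := by
        rw [← sq_abs, ← Real.rpow_natCast, ← Real.rpow_add ht1]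
        congr 1
        push_cast; ring
      calc c * |t| ^ p = (5/36) * t^2 * (((1/20) * c1^2 * 2 ^ (-(3/2):ℝ) * δ) * y ^ (-(1/2 + δ))) := by
            rw [h14, hc, ← h15]; ring
        _ ≤ (5/36) * t^2 * ∑ q ∈ PB S0 y, (a q)^2 := by gcongr
    calc _ ≤ Real.exp (-(c * |t| ^ p)) := h2
      _ = 1 * Real.exp (-(c * |t| ^ p)) := (one_mul _).symm
      _ ≤ _ := by gcongr

end Pool.Agent.H383.Gen
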