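import Mathlib
import Pool.Agent.H383.Gen
import Pool.Agent.H383.Dens

open MeasureTheory Filter Topology
open Pool.Agent.H383.AP Pool.Agent.H383.Gauss

namespace Pool.Agent.H383.Gen

lemma two_sqrt (m : ℕ) : 2 * √(m:ℝ) = √((4 * m : ℕ) : ℝ) := by
  push_cast
  rw [Real.sqrt_mul (by norm_num), show (4:ℝ) = 2^2 by norm_num, Real.sqrt_sq (by norm_num)]

lemma sq_four {m : ℕ} (h : IsSquare (4 * m)) : IsSquare m := by
  obtain ⟨k, hk⟩ := h
  have h1 : 2 ∣ k * k := ⟨2 * m, by rw [← hk]; ring⟩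
  have h2 : 2 ∣ k := by
    rcases (Nat.prime_two.dvd_mul).mp h1 with h | h <;> exact h
  obtain ⟨j, rfl⟩ := h2
  exact ⟨j, by nlinarith⟩

variable {a : ℕ → ℝ} {φ : ℝ} {e : ℕ → ℝ}

/-- constant part -/
noncomputable def AS (a : ℕ → ℝ) (φ : ℝ) (M : ℕ) : ℝ := ∑ k ∈ Finset.Icc 1 M, a (k^2) * Real.cos φ

/-- oscillating part -/
noncomputable def zS (a : ℕ → ℝ) (φ : ℝ) (M : ℕ) : ℕ → ℂ := ∑ m ∈ NS M, ac a φ 2 m • chr (2 * √(m:ℝ))

/-- variance -/
noncomputable def VS (a : ℕ → ℝ) (M : ℕ) : ℝ := (1/2) * ∑ m ∈ NS M, (a m)^2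

lemma U_split (M n : ℕ) : U a φ (2 + n * 2) M = AS a φ M + (zS a φ M n).re := by
  classical
  rw [U_eq_re, Complex.re_sum, ← Finset.sum_filter_add_sum_filter_not (Finset.Icc 1 (M^2)) (fun m => IsSquare m)]
  congr 1
  · have h0 : (Finset.Icc 1 (M^2)).filter (fun m => IsSquare m) = (Finset.Icc 1 M).image (fun k => k^2) := SQ_eq M
    rw [h0, Finset.sum_image (fun a _ b _ h => by
      exact Nat.pow_left_injective (by norm_num) h)]
    unfold AS
    apply Finset.sum_congr rfl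
    intro k _
    have h1 : √((k^2 : ℕ):ℝ) = k := by
      push_cast; exact Real.sqrt_sq (Nat.cast_nonneg k)
    have h2 : chr (2 * √((k^2 : ℕ):ℝ)) n = 1 := by
      rw [h1]
      unfold chr
      rw [Complex.exp_eq_one_iff]
      refine ⟨n * (2 * k), ?_⟩
      push_cast; ring
    rw [h2, mul_one, ac_re, h1]
    congr 1
    have e : 2 * Real.pi * (2 * (k:ℝ)) - φ = -φ + ((2 * k : ℕ):ℝ) * (2 * Real.pi) := by push_cast; ring
    rw [e, Real.cos_add_nat_mul_two_pi, Real.cos_neg]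
  · unfold zS NS
    rw [Finset.sum_apply, Complex.re_sum]
    apply Finset.sum_congr rfl
    intro m _
    simp only [Pi.smul_apply, smul_eq_mul]

lemma zS_conj (M : ℕ) : (fun n => (starRingEnd ℂ) (zS a φ M n)) =
    ∑ m ∈ NS M, (starRingEnd ℂ) (ac a φ 2 m) • chr (-(2 * √(m:ℝ))) := by
  funext n
  unfold zS
  rw [Finset.sum_apply, Finset.sum_apply, map_sum]
  apply Finset.sum_congr rfl
  intro m _
  simp only [Pi.smul_apply, smul_eq_mul, map_mul]
  rw [chr_conj]

lemma zS_sq_mean (M : ℕ) : HasMean (zS a φ M * zS a φ M) 0 := by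
  have h := mean_mul (NS M) (NS M) (ac a φ 2) (fun m => 2 * √(m:ℝ)) (ac a φ 2) (fun m => 2 * √(m:ℝ))
  have e : ∑ i ∈ NS M, ∑ j ∈ NS M, ac a φ 2 i * ac a φ 2 j * mc (2 * √(i:ℝ) + 2 * √(j:ℝ)) = 0 := by
    apply Finset.sum_eq_zero
    intro i hi
    apply Finset.sum_eq_zero
    intro j hj
    rw [mc_zero_of, mul_zero]
    rw [two_sqrt, two_sqrt]
    intro hk
    exact sqrt_add_int (m := 4 * i) (m' := 4 * j) (by have := (mem_NS hi).1; omega)
      (fun h => (mem_NS hj).2 (sq_four h)) hk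
  rw [e] at h
  exact h

lemma zS_conj_mean (M : ℕ) : HasMean (zS a φ M * (fun n => (starRingEnd ℂ) (zS a φ M n))) ((2 * VS a M : ℝ) : ℂ) := by
  rw [zS_conj]
  have h := mean_mul (NS M) (NS M) (ac a φ 2) (fun m => 2 * √(m:ℝ)) (fun m => (starRingEnd ℂ) (ac a φ 2 m)) (fun m => -(2 * √(m:ℝ)))
  have e : ∑ i ∈ NS M, ∑ j ∈ NS M, ac a φ 2 i * (starRingEnd ℂ) (ac a φ 2 j) * mc (2 * √(i:ℝ) + -(2 * √(j:ℝ))) =
      ((2 * VS a M : ℝ) : ℂ) := by
    have e2 : ∀ i ∈ NS M, ∑ j ∈ NS M, ac a φ 2 i * (starRingEnd ℂ) (ac a φ 2 j) * mc (2 * √(i:ℝ) + -(2 * √(j:ℝ))) =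
        (((a i)^2 : ℝ) : ℂ) := by
      intro i hi
      rw [Finset.sum_eq_single i]
      · rw [mc_one_of ⟨0, by simp⟩, mul_one, Complex.mul_conj, Complex.normSq_eq_norm_sq, norm_ac, sq_abs]
      · intro j hj hji
        rw [mc_zero_of, mul_zero]
        intro hk
        apply hji
        have := sqrt_sub_int (m := 4 * i) (m' := 4 * j) (fun h => (mem_NS hj).2 (sq_four h))
          (by rw [← two_sqrt, ← two_sqrt]; simpa [sub_eq_add_neg] using hk)
        omega
      · intro hni; exact absurd hi hni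
    rw [Finset.sum_congr rfl e2]
    unfold VS
    push_cast
    ring
  rw [e] at h
  exact h

lemma zS_mean (M : ℕ) : HasMean (zS a φ M) 0 := by
  have h := HasMean.sum (NS M) (fun m => ac a φ 2 m • chr (2 * √(m:ℝ))) (fun _ => 0) ?_
  · rw [Finset.sum_const_zero] at h
    exact h
  · intro m hm
    have h1 := (chr_mean (2 * √(m:ℝ))).smul (ac a φ 2 m)
    rw [mc_zero_of, mul_zero] at h1
    · exact h1
    · rw [two_sqrt]
      intro hk
      have hirr : Irrational √((4 * m : ℕ):ℝ) := irrational_sqrt_natCast_iff.mpr (fun h => (mem_NS hm).2 (sq_four h))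
      obtain ⟨k, hk⟩ := hk
      exact hirr ⟨(k:ℚ), by rw [hk]; push_cast; rfl⟩

/-- second moment of the approximants around `c` -/
lemma U_sq_mean (M : ℕ) (c : ℝ) : Tendsto (rm (fun n : ℕ => (U a φ (2 + n * 2) M - c)^2)) atTop
    (𝓝 ((AS a φ M - c)^2 + VS a M)) := by
  have h1 := zS_mean (a := a) (φ := φ) M
  have h2 := conj_mean h1
  rw [map_zero] at h2
  have h3 := zS_sq_mean (a := a) (φ := φ) M
  have h4 := conj_mean h3
  rw [map_zero] at h4
  have h5 := zS_conj_mean (a := a) (φ := φ) M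
  have key : HasMean (fun n : ℕ => (((U a φ (2 + n * 2) M - c)^2 : ℝ) : ℂ)) (((AS a φ M - c)^2 + VS a M : ℝ) : ℂ) := by
    have h6 := ((((hasMean_const (((AS a φ M - c)^2 : ℝ) : ℂ)).add (h1.smul ((AS a φ M - c : ℝ)))).add
      (h2.smul ((AS a φ M - c : ℝ)))).add (h5.smul (1/2))).add
      ((h3.smul (1/4)).add (h4.smul (1/4)))
    convert h6 using 1
    · funext n
      rw [U_split]
      simp only [Pi.add_apply, Pi.smul_apply, Pi.mul_apply, smul_eq_mul]
      have hre : ((zS a φ M n).re : ℂ) = (zS a φ M n + (starRingEnd ℂ) (zS a φ M n)) / 2 := by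
        rw [Complex.add_conj]
        push_cast
        ring
      push_cast
      rw [hre, map_mul]
      ring
    · push_cast
      ring
  unfold HasMean at key
  have e : cm (fun n : ℕ => (((U a φ (2 + n * 2) M - c)^2 : ℝ) : ℂ)) =
      fun N => ((rm (fun n : ℕ => (U a φ (2 + n * 2) M - c)^2) N : ℝ) : ℂ) := by
    funext N; exact cm_ofReal _ N
  rw [e] at key
  have h7 := (Complex.continuous_re.tendsto _).comp key
  rw [Complex.ofReal_re] at h7
  exact h7

theorem Ap.limsup_E (h : Ap a φ e 2 2) {A T : ℝ} (hS : Tendsto (AS a φ) atTop (𝓝 A)) (hT0 : 0 ≤ T)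
    (hT : ∀ᶠ M in atTop, VS a M ≤ T) (c : ℝ) :
    ∀ η : ℝ, 0 < η → ∃ N0, ∀ N, N0 ≤ N → rm (fun n : ℕ => (e n - c)^2) N ≤ ((A - c)^2 + T) + η := by
  apply limsup_sq (by positivity)
  intro η hη
  obtain ⟨M0, hM0⟩ := h η hη
  have h2 : Tendsto (fun M => (AS a φ M - c)^2) atTop (𝓝 ((A - c)^2)) :=
    (hS.sub_const c).pow 2
  have h3 := ((h2.eventually (gt_mem_nhds (by linarith : (A - c)^2 < (A - c)^2 + η/2))).and
    hT).and (eventually_ge_atTop M0)
  obtain ⟨M, ⟨hM2, hM3⟩, hM4⟩ := h3.exists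
  refine ⟨fun n => U a φ (2 + n * 2) M - c, ?_, ?_⟩
  · obtain ⟨N0, hN0⟩ := hM0 M hM4
    refine ⟨N0, fun N hN => ?_⟩
    have h4 := hN0 N hN
    have e' : (fun n : ℕ => (e n - c - (U a φ (2 + n * 2) M - c))^2) =
        fun n : ℕ => (e n - U a φ (2 + n * 2) M)^2 := by
      funext n; ring
    rw [e']
    exact h4
  · have h5 := U_sq_mean (a := a) (φ := φ) M c
    have h6 : (AS a φ M - c)^2 + VS a M < (A - c)^2 + T + η := by linarith
    have h7 := h5.eventually (gt_mem_nhds h6)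
    rw [eventually_atTop] at h7
    obtain ⟨N0, hN0⟩ := h7
    exact ⟨N0, fun N hN => (hN0 N hN).le⟩

open Classical in
theorem Ap.density (h : Ap a φ e 2 2) {A T θ : ℝ} (hS : Tendsto (AS a φ) atTop (𝓝 A)) (hA : 0 < A) (hT0 : 0 < T)
    (hT : ∀ᶠ M in atTop, VS a M ≤ T) (hθ : T / (A^2 + T) < θ) :
    ∃ N0, ∀ N, N0 ≤ N → (((Finset.range N).filter (fun n : ℕ => e n ≤ 0)).card : ℝ) ≤ θ * N := by
  -- optimal a
  set b : ℝ := A + T / A with hb
  have hb0 : 0 < b := by positivity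
  have hval : ((A - b)^2 + T) = (T / (A^2 + T)) * b^2 := by
    rw [hb]
    field_simp
    ring
  set η : ℝ := (θ - T / (A^2 + T)) * b^2 with hη
  have hη0 : 0 < η := by
    have : 0 < θ - T / (A^2 + T) := by linarith
    positivity
  obtain ⟨N0, hN0⟩ := h.limsup_E hS hT0.le hT b η hη0
  refine ⟨N0 + 1, ?_⟩
  intro N hN
  have hN' : (0:ℝ) < N := by exact_mod_cast (by omega : 0 < N)
  have h1 := hN0 N (by omega)
  rw [hval, hη] at h1
  have h2 : T / (A^2 + T) * b^2 + (θ - T / (A^2 + T)) * b^2 = θ * b^2 := by ring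
  rw [h2] at h1
  have h3 : b^2 * (((Finset.range N).filter (fun n : ℕ => e n ≤ 0)).card : ℝ) ≤
      ∑ n ∈ Finset.range N, (e n - b)^2 := by
    calc b^2 * (((Finset.range N).filter (fun n : ℕ => e n ≤ 0)).card : ℝ)
        = ∑ n ∈ (Finset.range N).filter (fun n : ℕ => e n ≤ 0), b^2 := by
          rw [Finset.sum_const, nsmul_eq_mul, mul_comm]
      _ ≤ ∑ n ∈ (Finset.range N).filter (fun n : ℕ => e n ≤ 0), (e n - b)^2 := by
          apply Finset.sum_le_sum
          intro n hn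
          rw [Finset.mem_filter] at hn
          have := hn.2
          nlinarith
      _ ≤ _ := by
          apply Finset.sum_le_sum_of_subset_of_nonneg (Finset.filter_subset _ _)
          intro n _ _
          positivity
  unfold rm at h1
  rw [div_le_iff₀ hN'] at h1
  have h4 : b^2 * (((Finset.range N).filter (fun n : ℕ => e n ≤ 0)).card : ℝ) ≤ b^2 * (θ * N) := by
    calc _ ≤ _ := h3
      _ ≤ _ := h1
      _ = _ := by ring
  exact le_of_mul_le_mul_left h4 (by positivity)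

end Pool.Agent.H383.Gen
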