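import Mathlib
import Pool.Agent.H383.DivC
import Pool.Agent.H383.GenSq

open MeasureTheory Filter Topology
open Pool.Agent.H387R2.Vor
open Pool.Agent.H383.Gen
open Pool.Agent.H383.GW
open Pool.Agent.H383.AP

namespace Pool.Agent.H383.Div

/-- the error term written out -/
noncomputable def Dx (x : ℝ) : ℝ := (∑ k ∈ Finset.Icc 1 ⌊x⌋₊, (k.divisors.card : ℝ)) - x * Real.log x -
  (2 * Real.eulerMascheroniConstant - 1) * x

lemma Del_eq_Dx (x : ℝ) : Del x = Dx x := rfl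

lemma Ed_quad {x : ℝ} (hx0 : 0 ≤ x) : Ed √x = Dx x / x ^ (1/4:ℝ) := by
  unfold Ed
  rw [Real.sq_sqrt hx0, Del_eq_Dx]
  congr 1
  rw [Real.sqrt_eq_rpow, Real.sqrt_eq_rpow, ← Real.rpow_mul hx0]; norm_num

open Classical in
theorem distr (hV : VorStmt) {a b c : ℝ} (ha : 0 < a) (hP : ∀ n : ℕ, 0 < a * n^2 + b * n + c) :
    ∃ μ : ProbabilityMeasure ℝ,
      Integrable (fun x : ℝ => x ^ 2) (μ : Measure ℝ) ∧
      (∀ f : ℝ → ℝ, Continuous f → (∃ C : ℝ, ∀ x : ℝ, |f x| ≤ C * (1 + x ^ 2)) →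
        Tendsto (fun N : ℕ => (∑ n ∈ Finset.range N,
            f (Dx (a * n^2 + b * n + c) / (a * n^2 + b * n + c) ^ (1/4:ℝ))) / N)
          atTop (𝓝 (∫ x, f x ∂(μ : Measure ℝ)))) ∧
      Summable (fun m : ℕ => if 1 ≤ m ∧ ∃ k : ℤ, 2 * √(a * m) = k then
          (m.divisors.card : ℝ) / (Real.pi * √2)
            * (m : ℝ) ^ (-(3 / 4) : ℝ) * Real.cos (2 * Real.pi * b * √(m / a) - Real.pi / 4)
        else 0) ∧
      ∫ x, x ∂(μ : Measure ℝ) = ∑' m : ℕ,
        if 1 ≤ m ∧ ∃ k : ℤ, 2 * √(a * m) = k then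
          (m.divisors.card : ℝ) / (Real.pi * √2)
            * (m : ℝ) ^ (-(3 / 4) : ℝ) * Real.cos (2 * Real.pi * b * √(m / a) - Real.pi / 4)
        else 0 := by
  have hsa : 0 < √a := Real.sqrt_pos.mpr ha
  have hAp := quad_Ap hV ha (fun n => (hP n).le)
  obtain ⟨μ, hμ2, hμ⟩ := hAp.b2.limit
  have heq : ∀ n : ℕ, Ed √(a * n^2 + b * n + c) = Dx (a * n^2 + b * n + c) / (a * n^2 + b * n + c) ^ (1/4:ℝ) :=
    fun n => Ed_quad (hP n).le
  have hfun : (fun m : ℕ => if 1 ≤ m ∧ ∃ k : ℤ, 2 * √(a * m) = k then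
          (m.divisors.card : ℝ) / (Real.pi * √2)
            * (m : ℝ) ^ (-(3 / 4) : ℝ) * Real.cos (2 * Real.pi * b * √(m / a) - Real.pi / 4)
        else 0) = rt ad (Real.pi/4) (2 * √a) (b / √a) := by
    funext m
    unfold rt
    rcases Nat.eq_zero_or_pos m with rfl | hm
    · rw [ad_zero, zero_mul]; simp
    · have hm1 : 1 ≤ m := hm
      have e1 : 2 * √a * √(m:ℝ) = 2 * √(a * m) := by rw [Real.sqrt_mul ha.le]; ring
      have e2 : 2 * Real.pi * (b / √a * √(m:ℝ)) - Real.pi/4 = 2 * Real.pi * b * √((m:ℝ) / a) - Real.pi/4 := by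
        rw [Real.sqrt_div (Nat.cast_nonneg m)]; field_simp
      have e3 : ad m = (m.divisors.card : ℝ) / (Real.pi * √2) * (m : ℝ) ^ (-(3 / 4) : ℝ) := by
        unfold ad dv; ring
      rw [e1, e2, e3]
      by_cases hk : ∃ k : ℤ, 2 * √(a * m) = k
      · rw [if_pos hk, if_pos ⟨hm1, hk⟩]
      · rw [if_neg hk, if_neg (fun h => hk h.2)]
  refine ⟨μ, hμ2, ?_, ?_, ?_⟩
  · intro f hf hC
    have := hμ f hf hC
    simp only [heq] at this
    exact this
  · rw [hfun]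
    exact rt_summable ad_Bd ad_zero (by positivity) _
  · have h1 := hμ (fun x => x) continuous_id ⟨1, fun x => by
      rw [one_mul]
      have := sq_nonneg (|x| - 1)
      rw [← sq_abs x]
      nlinarith [abs_nonneg x]⟩
    have h2 := hAp.mean ad_Bd ad_zero (by positivity)
    rw [tendsto_nhds_unique h1 h2, ← hfun]

lemma ad_Dv : Dv ad := by
  intro F G
  obtain ⟨Q, hQ, hd, hG⟩ := Pool.Agent.H383.Gauss.cq_div F (6 * max G 0)
  refine ⟨Q, hQ, hd, ?_⟩
  have h1 : ∀ q ∈ Q, Pool.Agent.H383.Gauss.cq q ≤ 6 * ad q := by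
    intro q hq
    have hqp := hQ q hq
    have hq0 : (0:ℝ) < q := by exact_mod_cast hqp.pos
    unfold Pool.Agent.H383.Gauss.cq ad
    have h2 := Pool.Agent.H383.Gauss.card_A_le q hqp.pos
    have h3 : dv q = 2 := by
      unfold dv
      rw [hqp.divisors, Finset.card_pair (by exact hqp.one_lt.ne)]; norm_num
    have h4 : Pool.Agent.H383.Gauss.rA q ≤ 8 := by
      unfold Pool.Agent.H383.Gauss.rA
      rw [hqp.divisors, Finset.card_pair (by exact hqp.one_lt.ne)] at h2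
      exact_mod_cast h2
    have h5 : (√(q:ℝ)) ^ (-(3/2):ℝ) = (q:ℝ) ^ (-(3/4):ℝ) := by
      rw [Real.sqrt_eq_rpow, ← Real.rpow_mul hq0.le]; norm_num
    rw [h3, h5]
    have hpi := Real.pi_pos
    have hs2 : 0 < √2 := by positivity
    have hs3 : √2 ≤ 3/2 := by
      rw [Real.sqrt_le_left (by norm_num)]; norm_num
    have h6 : 0 ≤ (q:ℝ) ^ (-(3/4):ℝ) := by positivity
    calc Pool.Agent.H383.Gauss.rA q / Real.pi * (q:ℝ) ^ (-(3/4):ℝ) ≤ 8 / Real.pi * (q:ℝ) ^ (-(3/4):ℝ) := by gcongr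
      _ ≤ (12 / √2) / Real.pi * (q:ℝ) ^ (-(3/4):ℝ) := by
          gcongr
          rw [le_div_iff₀ hs2]; linarith
      _ = _ := by field_simp; norm_num
  have h2 : ∑ q ∈ Q, Pool.Agent.H383.Gauss.cq q ≤ 6 * ∑ q ∈ Q, ad q := by
    rw [Finset.mul_sum]; exact Finset.sum_le_sum h1
  have h3 : G ≤ max G 0 := le_max_left _ _
  linarith

open Classical in
theorem large (hV : VorStmt) {a b c : ℝ} (ha : 0 < a) (hP : ∀ n : ℕ, 0 < a * n^2 + b * n + c) (K : ℝ) :
    ∃ c' : ℝ, 0 < c' ∧ ∃ N₀ : ℕ, ∀ N : ℕ, N₀ ≤ N →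
      c' * N ≤ (((Finset.range N).filter (fun n : ℕ => K * (a * n^2 + b * n + c) ^ (1/4:ℝ) <
        Dx (a * n^2 + b * n + c))).card : ℝ) ∧
      c' * N ≤ (((Finset.range N).filter (fun n : ℕ =>
        Dx (a * n^2 + b * n + c) < -(K * (a * n^2 + b * n + c) ^ (1/4:ℝ)))).card : ℝ) := by
  have hsa : 0 < √a := Real.sqrt_pos.mpr ha
  have hAp := quad_Ap hV ha (fun n => (hP n).le)
  obtain ⟨c1, hc1, N1, h1⟩ := hAp.omega ad_Bd ad_zero ad_Dv (by positivity) 1 (Or.inl rfl) (abs_nonneg K)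
  obtain ⟨c2, hc2, N2, h2⟩ := hAp.omega ad_Bd ad_zero ad_Dv (by positivity) (-1) (Or.inr rfl) (abs_nonneg K)
  refine ⟨min c1 c2, lt_min hc1 hc2, max N1 N2, ?_⟩
  intro N hN
  have hN0 : (0:ℝ) ≤ N := Nat.cast_nonneg N
  constructor
  · refine (mul_le_mul_of_nonneg_right (min_le_left _ _) hN0).trans ((h1 N (by omega)).trans ?_)
    have hsub : (Finset.range N).filter (fun n : ℕ => |K| < 1 * Ed √(a * n^2 + b * n + c)) ⊆
        (Finset.range N).filter (fun n : ℕ => K * (a * n^2 + b * n + c) ^ (1/4:ℝ) <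
        Dx (a * n^2 + b * n + c)) := by
      intro n hn
      rw [Finset.mem_filter] at hn ⊢
      refine ⟨hn.1, ?_⟩
      have hx := hP n
      have hs : 0 < (a * n^2 + b * n + c) ^ (1/4:ℝ) := by
        positivity
      have h3 := hn.2
      rw [Ed_quad hx.le, one_mul, lt_div_iff₀ hs] at h3
      exact lt_of_le_of_lt (mul_le_mul_of_nonneg_right (le_abs_self K) hs.le) h3
    exact_mod_cast Finset.card_le_card hsub
  · refine (mul_le_mul_of_nonneg_right (min_le_right _ _) hN0).trans ((h2 N (by omega)).trans ?_)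
    have hsub : (Finset.range N).filter (fun n : ℕ => |K| < -1 * Ed √(a * n^2 + b * n + c)) ⊆
        (Finset.range N).filter (fun n : ℕ =>
        Dx (a * n^2 + b * n + c) < -(K * (a * n^2 + b * n + c) ^ (1/4:ℝ))) := by
      intro n hn
      rw [Finset.mem_filter] at hn ⊢
      refine ⟨hn.1, ?_⟩
      have hx := hP n
      have hs : 0 < (a * n^2 + b * n + c) ^ (1/4:ℝ) := by
        positivity
      have h3 := hn.2
      rw [Ed_quad hx.le] at h3
      have h4 : |K| < -Dx (a * n^2 + b * n + c) / (a * n^2 + b * n + c) ^ (1/4:ℝ) := by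
        rw [neg_div]; linarith
      rw [lt_div_iff₀ hs] at h4
      have h5 := mul_le_mul_of_nonneg_right (le_abs_self K) hs.le
      linarith
    exact_mod_cast Finset.card_le_card hsub

end Pool.Agent.H383.Div
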