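import Mathlib
import Pool.Agent.H383.DivD
import Pool.Agent.H732R2.DivNum

open MeasureTheory Filter Topology
open Pool.Agent.H387R2.Vor
open Pool.Agent.H383.Gen
open Pool.Agent.H383.GW
open Pool.Agent.H383.AP

namespace Pool.Agent.H383.Div

/-! ### squares -/

open Pool.Agent.H732R2.Dv in
lemma AS_eq (M : ℕ) : AS ad (Real.pi/4) M = (1 / (2 * Real.pi)) * SD M := by
  unfold AS SD
  rw [Finset.mul_sum]
  apply Finset.sum_congr rfl
  intro k hk
  rw [Finset.mem_Icc] at hk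
  have hk0 : (0:ℝ) < k := by exact_mod_cast hk.1
  unfold ad dv dr
  rw [Real.cos_pi_div_four]
  have h1 : (((k^2 : ℕ)) : ℝ) ^ (-(3/4):ℝ) = (k:ℝ) ^ (-(3/2):ℝ) := by
    push_cast
    rw [← Real.rpow_natCast, ← Real.rpow_mul hk0.le]; norm_num
  rw [h1]
  have hs : √2 ≠ 0 := by positivity
  have hpi := Real.pi_pos.ne'
  field_simp

open Pool.Agent.H732R2.Dv in
lemma VS_eq (M : ℕ) : VS ad M = (1 / (4 * Real.pi^2)) * TD M := by
  unfold VS TD
  rw [Finset.mul_sum, Finset.mul_sum]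
  have hNS : Pool.Agent.H383.Gauss.NS M = NSq M := rfl
  rw [hNS]
  apply Finset.sum_congr rfl
  intro m hm
  have hm1 : 1 ≤ m := by
    unfold NSq at hm
    rw [Finset.mem_filter, Finset.mem_Icc] at hm
    exact hm.1.1
  have hm0 : (0:ℝ) < m := by exact_mod_cast hm1
  unfold ad dv dr
  have h1 : ((m : ℝ) ^ (-(3/4):ℝ))^2 = (m:ℝ) ^ (-(3/2):ℝ) := by
    rw [← Real.rpow_natCast, ← Real.rpow_mul hm0.le]; norm_num
  rw [mul_pow, mul_pow, h1, div_pow, mul_pow, Real.sq_sqrt (by norm_num)]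
  have hpi := Real.pi_pos.ne'
  field_simp
  ring

open Classical in
open Pool.Agent.H732R2.Dv in
theorem squares (hV : VorStmt) : ∃ N₀ : ℕ, ∀ N : ℕ, N₀ ≤ N →
    (431/500 : ℝ) * N ≤ (((Finset.Icc 1 N).filter (fun n : ℕ =>
      (n:ℝ)^2 * Real.log ((n:ℝ)^2) + (2 * Real.eulerMascheroniConstant - 1) * (n:ℝ)^2 <
        ∑ k ∈ Finset.Icc 1 (n^2), (k.divisors.card : ℝ))).card : ℝ) := by
  have hpi := Real.pi_pos
  have hAp : Ap ad (Real.pi/4) (fun n : ℕ => Ed (1 + n * 1)) 2 2 := by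
    have := E2_Ap hV (α := 1) one_pos 1
    simpa using this
  have hS : Tendsto (AS ad (Real.pi/4)) atTop (𝓝 ((1 / (2 * Real.pi)) * Sv)) := by
    have h1 := SD_tendsto.const_mul (1 / (2 * Real.pi))
    refine h1.congr ?_
    intro M; exact (AS_eq M).symm
  have hSv := Sv_lower
  have hA : 0 < (1 / (2 * Real.pi)) * Sv := by
    have : 0 < Sv := by linarith
    positivity
  have hT0 : 0 < (1 / (4 * Real.pi^2)) * (35.08:ℝ) := by positivity
  have hT : ∀ᶠ M in atTop, VS ad M ≤ (1 / (4 * Real.pi^2)) * (35.08:ℝ) := by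
    filter_upwards [eventually_ge_atTop 12] with M hM
    rw [VS_eq]
    exact mul_le_mul_of_nonneg_left (TD_le hM) (by positivity)
  have hθ : (1 / (4 * Real.pi^2)) * (35.08:ℝ) / (((1 / (2 * Real.pi)) * Sv)^2 + (1 / (4 * Real.pi^2)) * (35.08:ℝ)) < 69/500 := by
    have e : (1 / (4 * Real.pi^2)) * (35.08:ℝ) / (((1 / (2 * Real.pi)) * Sv)^2 + (1 / (4 * Real.pi^2)) * (35.08:ℝ)) =
        35.08 / (Sv^2 + 35.08) := by
      field_simp
      ring
    rw [e, div_lt_iff₀ (by positivity)]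
    nlinarith
  obtain ⟨N0, hN0⟩ := hAp.density hS hA hT0 hT hθ
  refine ⟨N0, ?_⟩
  intro N hN
  have h1 := hN0 N hN
  have hsplit : ((Finset.range N).filter (fun n : ℕ => Ed (1 + n * 1) ≤ 0)).card +
      ((Finset.range N).filter (fun n : ℕ => ¬ Ed (1 + n * 1) ≤ 0)).card = N := by
    rw [Finset.card_filter_add_card_filter_not, Finset.card_range]
  have hcard : ((Finset.range N).filter (fun n : ℕ => ¬ Ed (1 + n * 1) ≤ 0)).card =
      ((Finset.Icc 1 N).filter (fun n : ℕ =>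
      (n:ℝ)^2 * Real.log ((n:ℝ)^2) + (2 * Real.eulerMascheroniConstant - 1) * (n:ℝ)^2 <
        ∑ k ∈ Finset.Icc 1 (n^2), (k.divisors.card : ℝ))).card := by
    have key : ∀ n : ℕ, (¬ Ed (1 + n * 1) ≤ 0) ↔
        (((n + 1 : ℕ):ℝ)^2 * Real.log (((n + 1 : ℕ):ℝ)^2) + (2 * Real.eulerMascheroniConstant - 1) * ((n + 1 : ℕ):ℝ)^2 <
        ∑ k ∈ Finset.Icc 1 ((n+1)^2), (k.divisors.card : ℝ)) := by
      intro n
      have e : (1:ℝ) + n * 1 = ((n + 1 : ℕ) : ℝ) := by push_cast; ring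
      rw [e]
      unfold Ed
      rw [Del_eq_Dx]
      unfold Dx
      have hfl : ⌊((n + 1 : ℕ) : ℝ)^2⌋₊ = (n+1)^2 := by
        rw [← Nat.cast_pow, Nat.floor_natCast]
      rw [hfl]
      have hs : 0 < √((n + 1 : ℕ) : ℝ) := Real.sqrt_pos.mpr (by positivity)
      rw [not_le, div_pos_iff]
      constructor
      · rintro (h | h)
        · linarith [h.1]
        · exact absurd h.2 (not_lt.mpr hs.le)
      · intro h
        left
        exact ⟨by linarith, hs⟩
    apply Finset.card_bij (fun n _ => n + 1)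
    · intro n hn
      rw [Finset.mem_filter, Finset.mem_range] at hn
      rw [Finset.mem_filter, Finset.mem_Icc]
      exact ⟨by omega, (key n).mp hn.2⟩
    · intro a _ b _ h
      omega
    · intro n hn
      rw [Finset.mem_filter, Finset.mem_Icc] at hn
      refine ⟨n - 1, ?_, by omega⟩
      rw [Finset.mem_filter, Finset.mem_range]
      refine ⟨by omega, (key (n-1)).mpr ?_⟩
      have e : n - 1 + 1 = n := by omega
      rw [e]
      exact hn.2
  rw [← hcard]
  have h2 : (((Finset.range N).filter (fun n : ℕ => Ed (1 + n * 1) ≤ 0)).card : ℝ) +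
      (((Finset.range N).filter (fun n : ℕ => ¬ Ed (1 + n * 1) ≤ 0)).card : ℝ) = N := by
    exact_mod_cast hsplit
  linarith

end Pool.Agent.H383.Div
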