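import Mathlib
import Pool.Agent.H383.DivB
import Pool.Agent.H387R2.Vor

namespace Pool.Agent.H383.Div

theorem vor : VorStmt := Pool.Agent.H387R2.Vor.voronoi_div

end Pool.Agent.H383.Div
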