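import Mathlib
import Pool.Agent.H383.Decay
import Pool.Agent.H452R2.Win.V9

open Filter Topology
open Pool.Agent.H383.Rich

namespace Pool.Agent.H383.Gen

theorem Dq_of {a : ℕ → ℝ} (hl : LB a) : Pool.Agent.H452R2.Win.Dq a := by
  classical
  obtain ⟨c1, hc1, hl⟩ := hl
  set B : ℝ := 480 / c1 + 240 with hB
  have hB1 : 240 ≤ B := by
    have : 0 ≤ 480 / c1 := by positivity
    linarith
  refine ⟨(2 / c1 + 1) * B^3, fun F => ?_⟩
  obtain ⟨y0, hy0, hcard⟩ := PB_card F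
  refine ⟨max (max B y0) (Real.exp 1), fun G hG => ?_⟩
  have hGB : B ≤ G := (le_max_left _ _).trans ((le_max_left _ _).trans hG)
  have hGy : y0 ≤ G := (le_max_right _ _).trans ((le_max_left _ _).trans hG)
  have hGe : Real.exp 1 ≤ G := (le_max_right _ _).trans hG
  have hG0 : 0 < G := by linarith
  set L := Real.log G with hL
  have hL1 : 1 ≤ L := by
    rw [hL, Real.le_log_iff_exp_le hG0]; exact hGe
  have hLG : L ≤ G := by
    have := Real.log_le_sub_one_of_pos hG0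
    linarith
  set Y := B * G * L with hY
  have hYG : G ≤ Y := by
    calc G = 1 * G * 1 := by ring
      _ ≤ B * G * L := by gcongr; linarith
  have hY1 : 1 ≤ Y := by linarith
  have hY0 : 0 < Y := by linarith
  set y := Y^4 with hy
  have hyY : Y ≤ y := by
    calc Y = Y^1 := (pow_one _).symm
      _ ≤ Y^4 := pow_le_pow_right₀ hY1 (by norm_num)
  have hyy0 : y0 ≤ y := by linarith
  have hypos : 0 < y := by positivity
  have hlogy : Real.log y ≤ 12 * L := by
    rw [hy, Real.log_pow, hY, Real.log_mul (by positivity) (by positivity), Real.log_mul (by positivity) (by positivity)]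
    have h1 : Real.log B ≤ L := Real.log_le_log (by linarith) hGB
    have h2 : Real.log L ≤ L := by
      have := Real.log_le_sub_one_of_pos (by linarith : 0 < L)
      linarith
    push_cast
    linarith
  have hlogy0 : 0 < Real.log y := Real.log_pos (by linarith)
  have h34 : (2*y) ^ (3/4:ℝ) ≤ 2 * Y^3 := by
    rw [Real.mul_rpow (by norm_num) hypos.le]
    have e1 : y ^ (3/4:ℝ) = Y^3 := by
      rw [hy, ← Real.rpow_natCast, ← Real.rpow_mul hY0.le, ← Real.rpow_natCast]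
      norm_num
    rw [e1]
    have e2 : (2:ℝ) ^ (3/4:ℝ) ≤ 2 := by
      calc (2:ℝ) ^ (3/4:ℝ) ≤ 2 ^ (1:ℝ) := Real.rpow_le_rpow_of_exponent_le (by norm_num) (by norm_num)
        _ = 2 := Real.rpow_one _
    gcongr
  set N := ⌈G * (2*y) ^ (3/4:ℝ) / c1⌉₊ with hN
  have hNub : (N:ℝ) ≤ (2 / c1 + 1) * G * Y^3 := by
    have h1 : (N:ℝ) ≤ G * (2*y) ^ (3/4:ℝ) / c1 + 1 := (Nat.ceil_lt_add_one (by positivity)).le
    have h2 : G * (2*y) ^ (3/4:ℝ) / c1 ≤ G * (2 * Y^3) / c1 := by gcongr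
    have h3 : 1 ≤ G * Y^3 := by
      have : 1 ≤ Y^3 := one_le_pow₀ hY1
      nlinarith
    have h4 : G * (2 * Y^3) / c1 = 2 / c1 * G * Y^3 := by ring
    linarith
  have hNcard : N ≤ (PB F y).card := by
    have h1 := hcard y hyy0
    have h2 : (2 / c1 + 1) * G * Y^3 ≤ (1/20) * y / Real.log y := by
      rw [le_div_iff₀ hlogy0]
      have h3 : (2 / c1 + 1) * G * Y^3 * Real.log y ≤ (2 / c1 + 1) * G * Y^3 * (12 * L) := by gcongr
      have h4 : (2 / c1 + 1) * G * Y^3 * (12 * L) = (1/20) * y := by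
        have : y = Y^3 * (B * G * L) := by rw [hy, ← hY]; ring
        rw [this, hB]; ring
      linarith
    have : (N:ℝ) ≤ ((PB F y).card : ℝ) := by linarith
    exact_mod_cast this
  obtain ⟨Q, hQs, hQc⟩ := Finset.exists_subset_card_eq hNcard
  refine ⟨Q, ?_, ?_, ?_, ?_⟩
  · intro q hq; exact (PB_mem hypos.le (hQs hq)).1
  · rw [Finset.disjoint_right]
    intro q hq; exact (PB_mem hypos.le (hQs hq)).2.2.1
  · rw [hQc]
    refine hNub.trans (le_of_eq ?_)
    rw [hY]; ring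
  · have h1 : (N:ℝ) * (c1 * (2*y) ^ (-(3/4):ℝ)) ≤ ∑ q ∈ Q, a q := by
      rw [← hQc, ← nsmul_eq_mul]
      apply Finset.card_nsmul_le_sum
      intro q hq
      have h4 := PB_mem hypos.le (hQs hq)
      have hq0 : (0:ℝ) < q := by linarith [h4.2.2.2.1]
      refine le_trans ?_ (hl q h4.1 h4.2.1)
      have h6 : (2*y) ^ (-(3/4):ℝ) ≤ (q:ℝ) ^ (-(3/4):ℝ) :=
        Real.rpow_le_rpow_of_nonpos hq0 h4.2.2.2.2 (by norm_num)
      gcongr
    refine le_trans ?_ h1
    have h2 : G * (2*y) ^ (3/4:ℝ) / c1 ≤ N := Nat.le_ceil _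
    have h3 : (2*y) ^ (3/4:ℝ) * (2*y) ^ (-(3/4):ℝ) = 1 := by
      rw [← Real.rpow_add (by positivity)]; norm_num
    calc G = (G * (2*y) ^ (3/4:ℝ) / c1) * (c1 * (2*y) ^ (-(3/4):ℝ)) := by
          have : (G * (2*y) ^ (3/4:ℝ) / c1) * (c1 * (2*y) ^ (-(3/4):ℝ)) = G * ((2*y) ^ (3/4:ℝ) * (2*y) ^ (-(3/4):ℝ)) := by
            field_simp
          rw [this, h3, mul_one]
      _ ≤ N * (c1 * (2*y) ^ (-(3/4):ℝ)) := by gcongr

end Pool.Agent.H383.Gen
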