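import Mathlib

open MeasureTheory Filter Topology
open scoped FourierTransform

namespace Pool.Agent.H383.ED

lemma dom1 {c p : ℝ} (hc : 0 < c) (hp : 1 < p) {b : ℝ} (hb : 0 ≤ b) :
    ∃ K : ℝ, 0 ≤ K ∧ ∀ t : ℝ, b * |t| ≤ c * |t| ^ p + K := by
  have hp0 : 0 < p - 1 := by linarith
  set T0 := (b / c) ^ (1 / (p - 1)) with hT0
  have hT : 0 ≤ T0 := by positivity
  refine ⟨b * T0, by positivity, fun t => ?_⟩
  rcases le_total |t| T0 with h | h
  · have h1 : 0 ≤ c * |t| ^ p := by positivity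
    nlinarith
  · have h1 : b / c ≤ |t| ^ (p - 1) := by
      have := Real.rpow_le_rpow hT h hp0.le
      rwa [hT0, ← Real.rpow_mul (by positivity), one_div, inv_mul_cancel₀ hp0.ne', Real.rpow_one] at this
    have h2 : |t| ^ p = |t| ^ (p - 1) * |t| := by
      rcases (abs_nonneg t).eq_or_lt with h0 | h0
      · rw [← h0, Real.zero_rpow (by linarith), mul_zero]
      · conv_rhs => rw [← Real.rpow_one |t|, ← Real.rpow_mul h0.le, one_mul, ← Real.rpow_add h0]
        congr 1; ring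
    rw [div_le_iff₀ hc] at h1
    rw [h2]
    have h3 := mul_le_mul_of_nonneg_right h1 (abs_nonneg t)
    have h4 : 0 ≤ b * T0 := by positivity
    linarith

lemma dom2 {c p : ℝ} (hc : 0 < c) (hp : 1 < p) {b : ℝ} (hb : 0 ≤ b) :
    ∃ K : ℝ, 0 ≤ K ∧ ∀ t : ℝ, Real.exp (-(c * |t| ^ p)) * Real.exp (b * |t|) ≤ K * (1 + t^2)⁻¹ := by
  obtain ⟨K, hK, h⟩ := dom1 hc hp (b := b + 2) (by linarith)
  refine ⟨Real.exp K, (Real.exp_pos _).le, fun t => ?_⟩
  have h1 := h t
  have h2 : 1 + t^2 ≤ Real.exp (2 * |t|) := by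
    have h3 := Real.add_one_le_exp |t|
    have h4 : Real.exp (2 * |t|) = Real.exp |t| * Real.exp |t| := by rw [← Real.exp_add]; ring_nf
    rw [h4, ← sq_abs]
    nlinarith [abs_nonneg t, Real.exp_pos |t|]
  have h5 : (0:ℝ) < 1 + t^2 := by positivity
  rw [← Real.exp_add, ← div_eq_mul_inv, le_div_iff₀ h5]
  calc Real.exp (-(c * |t| ^ p) + b * |t|) * (1 + t^2) ≤ Real.exp (-(c * |t| ^ p) + b * |t|) * Real.exp (2 * |t|) := by gcongr
    _ = Real.exp (-(c * |t| ^ p) + b * |t| + 2 * |t|) := by rw [← Real.exp_add]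
    _ ≤ Real.exp K := by
        apply Real.exp_le_exp.mpr; linarith

/-- the entire extension of the Fourier transform -/
noncomputable def G (Ψ : ℝ → ℂ) (z : ℂ) : ℂ := ∫ v : ℝ, Complex.exp (((-2 * Real.pi * v : ℝ) : ℂ) * z * Complex.I) * Ψ v

variable {Ψ : ℝ → ℂ} {c C p : ℝ}

lemma bd (hc : 0 < c) (hp : 1 < p) (hC : 0 ≤ C) (hΨ : ∀ v, ‖Ψ v‖ ≤ C * Real.exp (-(c * |v| ^ p))) {b : ℝ} (hb : 0 ≤ b) :
    ∃ K : ℝ, 0 ≤ K ∧ ∀ v : ℝ, Real.exp (b * |v|) * ‖Ψ v‖ ≤ K * (1 + v^2)⁻¹ := by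
  obtain ⟨K, hK, h⟩ := dom2 hc hp hb
  refine ⟨C * K, by positivity, fun v => ?_⟩
  calc Real.exp (b * |v|) * ‖Ψ v‖ ≤ Real.exp (b * |v|) * (C * Real.exp (-(c * |v| ^ p))) := by gcongr; exact hΨ v
    _ = C * (Real.exp (-(c * |v| ^ p)) * Real.exp (b * |v|)) := by ring
    _ ≤ C * (K * (1 + v^2)⁻¹) := mul_le_mul_of_nonneg_left (h v) hC
    _ = _ := by ring

lemma norm_ker (v : ℝ) (z : ℂ) : ‖Complex.exp (((-2 * Real.pi * v : ℝ) : ℂ) * z * Complex.I)‖ ≤ Real.exp (2 * Real.pi * |z.im| * |v|) := by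
  rw [Complex.norm_exp]
  apply Real.exp_le_exp.mpr
  have e : (((-2 * Real.pi * v : ℝ) : ℂ) * z * Complex.I).re = 2 * Real.pi * v * z.im := by
    rw [Complex.mul_I_re, Complex.im_ofReal_mul]; ring
  rw [e]
  calc 2 * Real.pi * v * z.im ≤ |2 * Real.pi * v * z.im| := le_abs_self _
    _ = 2 * Real.pi * |z.im| * |v| := by
        rw [abs_mul, abs_mul, abs_of_pos (by positivity : 0 < 2 * Real.pi)]; ring

theorem G_diff (hcont : Continuous Ψ) (hc : 0 < c) (hp : 1 < p) (hC : 0 ≤ C)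
    (hΨ : ∀ v, ‖Ψ v‖ ≤ C * Real.exp (-(c * |v| ^ p))) : Differentiable ℂ (G Ψ) := by
  intro z0
  obtain ⟨K, hK, hb⟩ := bd hc hp hC hΨ (b := 2 * Real.pi * (|z0.im| + 2)) (by positivity)
  have hint : Integrable (fun v : ℝ => K * (1 + v^2)⁻¹) := integrable_inv_one_add_sq.const_mul K
  have h := hasDerivAt_integral_of_dominated_loc_of_deriv_le (μ := (volume : Measure ℝ)) (𝕜 := ℂ)
    (F := fun z v => Complex.exp (((-2 * Real.pi * v : ℝ) : ℂ) * z * Complex.I) * Ψ v)
    (F' := fun z v => (Complex.exp (((-2 * Real.pi * v : ℝ) : ℂ) * z * Complex.I) * (((-2 * Real.pi * v : ℝ) : ℂ) * Complex.I)) * Ψ v)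
    (x₀ := z0) (s := Metric.ball z0 1) (bound := fun v => K * (1 + v^2)⁻¹) (Metric.ball_mem_nhds z0 one_pos)
    (Eventually.of_forall (fun z => by
      apply Continuous.aestronglyMeasurable; fun_prop))
    (by
      apply hint.mono' (by apply Continuous.aestronglyMeasurable; fun_prop)
      refine Eventually.of_forall (fun v => ?_)
      rw [norm_mul]
      refine le_trans ?_ (hb v)
      gcongr
      refine (norm_ker v z0).trans ?_
      apply Real.exp_le_exp.mpr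
      gcongr
      linarith)
    (by apply Continuous.aestronglyMeasurable; fun_prop)
    (Eventually.of_forall (fun v z hz => by
      rw [norm_mul, norm_mul]
      refine le_trans ?_ (hb v)
      gcongr
      have h1 : ‖((-2 * Real.pi * v : ℝ) : ℂ) * Complex.I‖ ≤ Real.exp (2 * Real.pi * |v|) := by
        rw [norm_mul, Complex.norm_I, mul_one, Complex.norm_real, Real.norm_eq_abs, abs_mul, abs_mul, abs_neg, abs_two,
          abs_of_pos Real.pi_pos]
        have := Real.add_one_le_exp (2 * Real.pi * |v|)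
        linarith
      have h2 := norm_ker v z
      have h3 : |z.im| ≤ |z0.im| + 1 := by
        have h4 : |z.im - z0.im| ≤ ‖z - z0‖ := by
          rw [← Complex.sub_im]; exact Complex.abs_im_le_norm _
        rw [mem_ball_iff_norm] at hz
        have h5 := abs_sub_abs_le_abs_sub z.im z0.im
        linarith
      calc _ ≤ Real.exp (2 * Real.pi * |z.im| * |v|) * Real.exp (2 * Real.pi * |v|) := by gcongr
        _ = Real.exp (2 * Real.pi * |z.im| * |v| + 2 * Real.pi * |v|) := by rw [← Real.exp_add]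
        _ ≤ _ := by
            apply Real.exp_le_exp.mpr
            have h6 : 2 * Real.pi * |z.im| * |v| ≤ 2 * Real.pi * (|z0.im| + 1) * |v| := by gcongr
            linarith))
    hint
    (Eventually.of_forall (fun v z _ => by
      have h1 : HasDerivAt (fun z : ℂ => ((-2 * Real.pi * v : ℝ) : ℂ) * z * Complex.I) (((-2 * Real.pi * v : ℝ) : ℂ) * Complex.I) z := by
        have := ((hasDerivAt_id z).const_mul ((-2 * Real.pi * v : ℝ) : ℂ)).mul_const Complex.I
        simpa using this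
      exact h1.cexp.mul_const (Ψ v)))
  exact h.2.differentiableAt

lemma G_real (x : ℝ) : G Ψ x = 𝓕 Ψ x := by
  rw [Real.fourier_real_eq_integral_exp_smul]
  unfold G
  congr 1
  funext v
  rw [smul_eq_mul]
  congr 2
  push_cast; ring

/-- the gaussian integral -/
lemma gauss_int {v : ℝ} (hv : 0 < v) (u : ℝ) :
    ∫ ξ : ℝ, Complex.exp (-(v:ℂ) * (ξ:ℂ)^2 + ((2 * Real.pi * u : ℝ) : ℂ) * Complex.I * (ξ:ℂ)) =
      (((Real.pi / v) ^ (1/2:ℝ) * Real.exp (-(Real.pi^2 * u^2 / v)) : ℝ) : ℂ) := by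
  have h := integral_cexp_quadratic (b := -(v:ℂ)) (by simpa using hv) (((2 * Real.pi * u : ℝ) : ℂ) * Complex.I) 0
  simp only [add_zero] at h
  rw [h]
  have e : (((Real.pi / v) ^ (1/2:ℝ) * Real.exp (-(Real.pi^2 * u^2 / v)) : ℝ) : ℂ) =
      ((Real.pi / v : ℝ) : ℂ) ^ ((1/2 : ℝ) : ℂ) * Complex.exp ((-(Real.pi^2 * u^2 / v) : ℝ) : ℂ) := by
    rw [Complex.ofReal_mul, Complex.ofReal_exp, Complex.ofReal_cpow (by positivity)]
  rw [e]
  congr 1
  · congr 1
    · push_cast; rw [neg_neg]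
    · push_cast; ring
  · congr 1
    have hv' : (v:ℂ) ≠ 0 := by exact_mod_cast hv.ne'
    push_cast
    field_simp
    ring_nf
    rw [Complex.I_sq]
    ring

end Pool.Agent.H383.ED
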