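import Mathlib
import Pool.Agent.H383.EntDens

open MeasureTheory Filter Topology
open scoped FourierTransform

namespace Pool.Agent.H383.ED

variable (μ : Measure ℝ) [IsProbabilityMeasure μ]

/-- rescaled characteristic function -/
noncomputable def Ps (ξ : ℝ) : ℂ := charFun μ (2 * Real.pi * ξ)

lemma Ps_eq (ξ : ℝ) : Ps μ ξ = ∫ y, Complex.exp (((2 * Real.pi * ξ * y : ℝ) : ℂ) * Complex.I) ∂μ := by
  unfold Ps
  rw [charFun_apply_real]
  congr 1
  funext y
  push_cast
  ring_nf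

lemma smooth_eq {v : ℝ} (hv : 0 < v) (x : ℝ) :
    ∫ ξ : ℝ, Complex.exp (-(v:ℂ) * (ξ:ℂ)^2) * (Complex.exp (((-2 * Real.pi * ξ : ℝ) : ℂ) * (x:ℂ) * Complex.I) * Ps μ ξ) =
      ((∫ y, (Real.pi / v) ^ (1/2:ℝ) * Real.exp (-(Real.pi^2 * (y - x)^2 / v)) ∂μ : ℝ) : ℂ) := by
  have h1 : ∀ ξ : ℝ, Complex.exp (-(v:ℂ) * (ξ:ℂ)^2) * (Complex.exp (((-2 * Real.pi * ξ : ℝ) : ℂ) * (x:ℂ) * Complex.I) * Ps μ ξ) =
      ∫ y, Complex.exp (-(v:ℂ) * (ξ:ℂ)^2 + ((2 * Real.pi * (y - x) : ℝ) : ℂ) * Complex.I * (ξ:ℂ)) ∂μ := by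
    intro ξ
    rw [Ps_eq, ← mul_assoc, ← integral_const_mul]
    congr 1
    funext y
    rw [← Complex.exp_add, ← Complex.exp_add]
    congr 1
    push_cast; ring
  simp_rw [h1]
  rw [integral_integral_swap]
  · rw [← integral_complex_ofReal]
    congr 1
    funext y
    exact gauss_int hv (y - x)
  · have h2 : Integrable (fun z : ℝ × ℝ => Real.exp (-v * z.1^2) * (1:ℝ)) (volume.prod μ) :=
      (integrable_exp_neg_mul_sq hv).mul_prod (integrable_const (1:ℝ))
    apply h2.mono'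
    · apply Continuous.aestronglyMeasurable
      unfold Function.uncurry
      fun_prop
    · refine Eventually.of_forall (fun z => ?_)
      rw [mul_one]
      unfold Function.uncurry
      rw [Complex.norm_exp]
      apply le_of_eq
      congr 1
      rw [Complex.add_re]
      have e1 : (-(v:ℂ) * ((z.1:ℝ):ℂ)^2).re = -v * z.1^2 := by
        rw [← Complex.ofReal_neg, ← Complex.ofReal_pow, ← Complex.ofReal_mul, Complex.ofReal_re]
      have e2 : (((2 * Real.pi * (z.2 - x) : ℝ) : ℂ) * Complex.I * ((z.1:ℝ):ℂ)).re = 0 := by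
        rw [mul_assoc, Complex.re_ofReal_mul, mul_comm Complex.I, Complex.re_ofReal_mul, Complex.I_re]
        ring
      rw [e1, e2, add_zero]

variable {c C p : ℝ}

lemma Ps_cont : Continuous (Ps μ) := by
  unfold Ps
  exact (MeasureTheory.continuous_charFun).comp (by fun_prop)

lemma Ps_le (ξ : ℝ) : ‖Ps μ ξ‖ ≤ 1 := norm_charFun_le_one _

lemma Ps_bound (hc : 0 < c) (hp : 1 < p) (hC : 0 ≤ C) (h : ∀ t : ℝ, ‖charFun μ t‖ ≤ C * Real.exp (-(c * |t| ^ p))) (v : ℝ) :
    ‖Ps μ v‖ ≤ C * Real.exp (-(c * |v| ^ p)) := by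
  unfold Ps
  refine (h _).trans ?_
  apply mul_le_mul_of_nonneg_left _ hC
  apply Real.exp_le_exp.mpr
  apply neg_le_neg
  apply mul_le_mul_of_nonneg_left _ hc.le
  apply Real.rpow_le_rpow (abs_nonneg _) _ (by linarith)
  rw [abs_mul, abs_of_pos (by positivity : 0 < 2 * Real.pi)]
  have : 3 < Real.pi := Real.pi_gt_three
  nlinarith [abs_nonneg v]

lemma Ps_integrable (hc : 0 < c) (hp : 1 < p) (hC : 0 ≤ C) (h : ∀ t : ℝ, ‖charFun μ t‖ ≤ C * Real.exp (-(c * |t| ^ p))) :
    Integrable (Ps μ) := by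
  obtain ⟨K, hK, hb⟩ := bd hc hp hC (Ps_bound μ hc hp hC h) (b := 0) le_rfl
  apply (integrable_inv_one_add_sq.const_mul K).mono' (Ps_cont μ).aestronglyMeasurable
  refine Eventually.of_forall (fun v => ?_)
  have := hb v
  rwa [zero_mul, Real.exp_zero, one_mul] at this

/-- positivity on the real line -/
theorem G_pos (hi : Integrable (Ps μ)) (x : ℝ) : 0 ≤ (G (Ps μ) x).re ∧ (G (Ps μ) x).im = 0 := by
  have hlim : Tendsto (fun v : ℝ => ∫ ξ : ℝ, Complex.exp (-(v:ℂ) * (ξ:ℂ)^2) *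
      (Complex.exp (((-2 * Real.pi * ξ : ℝ) : ℂ) * (x:ℂ) * Complex.I) * Ps μ ξ)) (𝓝[>] 0) (𝓝 (G (Ps μ) x)) := by
    unfold G
    apply tendsto_integral_filter_of_dominated_convergence (fun ξ => ‖Ps μ ξ‖)
    · filter_upwards with v
      have := Ps_cont μ
      apply Continuous.aestronglyMeasurable; fun_prop
    · filter_upwards [self_mem_nhdsWithin] with v hv
      refine Eventually.of_forall (fun ξ => ?_)
      rw [norm_mul, norm_mul, Complex.norm_exp, Complex.norm_exp]
      have e1 : (-(v:ℂ) * ((ξ:ℝ):ℂ)^2).re = -v * ξ^2 := by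
        rw [← Complex.ofReal_neg, ← Complex.ofReal_pow, ← Complex.ofReal_mul, Complex.ofReal_re]
      have e2 : (((-2 * Real.pi * ξ : ℝ) : ℂ) * (x:ℂ) * Complex.I).re = 0 := by
        rw [← Complex.ofReal_mul, Complex.re_ofReal_mul, Complex.I_re, mul_zero]
      rw [e1, e2, Real.exp_zero, one_mul]
      have hv0 : 0 < v := hv
      have : Real.exp (-v * ξ^2) ≤ 1 := Real.exp_le_one_iff.mpr (by nlinarith [sq_nonneg ξ])
      exact mul_le_of_le_one_left (norm_nonneg _) this
    · exact hi.norm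
    · refine Eventually.of_forall (fun ξ => ?_)
      have h1 : Tendsto (fun v : ℝ => Complex.exp (-(v:ℂ) * (ξ:ℂ)^2)) (𝓝[>] 0) (𝓝 1) := by
        have h2 : Continuous (fun v : ℝ => Complex.exp (-(v:ℂ) * (ξ:ℂ)^2)) := by fun_prop
        have h3 := h2.tendsto 0
        simp only [Complex.ofReal_zero, neg_zero, zero_mul, Complex.exp_zero] at h3
        exact h3.mono_left nhdsWithin_le_nhds
      have h4 := h1.mul_const (Complex.exp (((-2 * Real.pi * ξ : ℝ) : ℂ) * (x:ℂ) * Complex.I) * Ps μ ξ)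
      rwa [one_mul] at h4
  have hev : ∀ᶠ v : ℝ in 𝓝[>] 0, (∫ ξ : ℝ, Complex.exp (-(v:ℂ) * (ξ:ℂ)^2) *
      (Complex.exp (((-2 * Real.pi * ξ : ℝ) : ℂ) * (x:ℂ) * Complex.I) * Ps μ ξ)) ∈ {z : ℂ | 0 ≤ z.re ∧ z.im = 0} := by
    filter_upwards [self_mem_nhdsWithin] with v hv
    rw [smooth_eq μ hv x]
    refine ⟨?_, Complex.ofReal_im _⟩
    rw [Complex.ofReal_re]
    apply integral_nonneg
    intro y
    have hv0 : 0 < v := hv
    simp only [Pi.zero_apply]
    positivity
  have hcl : IsClosed {z : ℂ | 0 ≤ z.re ∧ z.im = 0} :=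
    (isClosed_le continuous_const Complex.continuous_re).inter (isClosed_eq Complex.continuous_im continuous_const)
  exact hcl.mem_of_tendsto hlim hev

lemma G_ofReal (hi : Integrable (Ps μ)) (x : ℝ) : G (Ps μ) x = (((G (Ps μ) x).re : ℝ) : ℂ) := by
  apply Complex.ext
  · rw [Complex.ofReal_re]
  · rw [Complex.ofReal_im]; exact (G_pos μ hi x).2

/-- gaussian averages of the density -/
theorem gauss_le (hi : Integrable (Ps μ)) (hcG : Continuous (fun x : ℝ => G (Ps μ) x)) {v : ℝ} (hv : 0 < v) :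
    Integrable (fun x : ℝ => Real.exp (-v * x^2) * (G (Ps μ) x).re) ∧
    ∫ x : ℝ, Real.exp (-v * x^2) * (G (Ps μ) x).re ≤ 1 := by
  have hGb : ∀ x : ℝ, ‖G (Ps μ) x‖ ≤ ∫ ξ, ‖Ps μ ξ‖ := by
    intro x
    unfold G
    refine (norm_integral_le_integral_norm _).trans (le_of_eq ?_)
    congr 1
    funext ξ
    rw [norm_mul, Complex.norm_exp]
    have e2 : (((-2 * Real.pi * ξ : ℝ) : ℂ) * (x:ℂ) * Complex.I).re = 0 := by
      rw [← Complex.ofReal_mul, Complex.re_ofReal_mul, Complex.I_re, mul_zero]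
    rw [e2, Real.exp_zero, one_mul]
  set B := ∫ ξ, ‖Ps μ ξ‖ with hB
  have hint : Integrable (fun x : ℝ => Real.exp (-v * x^2) * (G (Ps μ) x).re) := by
    have h1 : Integrable (fun x : ℝ => Real.exp (-v * x^2) * B) := (integrable_exp_neg_mul_sq hv).mul_const B
    apply h1.mono'
    · apply Continuous.aestronglyMeasurable
      have : Continuous (fun x : ℝ => (G (Ps μ) x).re) := Complex.continuous_re.comp hcG
      fun_prop
    · refine Eventually.of_forall (fun x => ?_)
      rw [norm_mul, Real.norm_eq_abs, abs_of_pos (Real.exp_pos _), Real.norm_eq_abs]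
      gcongr
      exact (Complex.abs_re_le_norm _).trans (hGb x)
  refine ⟨hint, ?_⟩
  have h2 : ((∫ x : ℝ, Real.exp (-v * x^2) * (G (Ps μ) x).re : ℝ) : ℂ) =
      ∫ x : ℝ, ∫ ξ : ℝ, Complex.exp (-(v:ℂ) * (x:ℂ)^2 + ((2 * Real.pi * (-ξ) : ℝ) : ℂ) * Complex.I * (x:ℂ)) * Ps μ ξ := by
    rw [← integral_complex_ofReal]
    congr 1
    funext x
    rw [Complex.ofReal_mul, ← G_ofReal μ hi x]
    unfold G
    rw [← integral_const_mul]
    congr 1
    funext ξ
    rw [← mul_assoc, Complex.ofReal_exp, ← Complex.exp_add]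
    congr 2
    push_cast; ring
  rw [integral_integral_swap] at h2
  · have h3 : ∀ ξ : ℝ, ∫ x : ℝ, Complex.exp (-(v:ℂ) * (x:ℂ)^2 + ((2 * Real.pi * (-ξ) : ℝ) : ℂ) * Complex.I * (x:ℂ)) * Ps μ ξ =
        (((Real.pi / v) ^ (1/2:ℝ) * Real.exp (-(Real.pi^2 * (-ξ)^2 / v)) : ℝ) : ℂ) * Ps μ ξ := by
      intro ξ
      rw [integral_mul_const, gauss_int hv (-ξ)]
    simp_rw [h3] at h2
    have hk : Integrable (fun ξ : ℝ => (Real.pi / v) ^ (1/2:ℝ) * Real.exp (-(Real.pi^2 / v) * ξ^2)) :=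
      (integrable_exp_neg_mul_sq (by positivity)).const_mul _
    have h4 : ‖∫ ξ : ℝ, (((Real.pi / v) ^ (1/2:ℝ) * Real.exp (-(Real.pi^2 * (-ξ)^2 / v)) : ℝ) : ℂ) * Ps μ ξ‖ ≤
        ∫ ξ : ℝ, (Real.pi / v) ^ (1/2:ℝ) * Real.exp (-(Real.pi^2 / v) * ξ^2) := by
      refine norm_integral_le_of_norm_le hk (Eventually.of_forall (fun ξ => ?_))
      rw [norm_mul, Complex.norm_real, Real.norm_eq_abs, abs_of_nonneg (by positivity)]
      have e : -(Real.pi^2 * (-ξ)^2 / v) = -(Real.pi^2 / v) * ξ^2 := by ring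
      rw [e]
      exact mul_le_of_le_one_right (by positivity) (Ps_le μ ξ)
    have h5 : ∫ ξ : ℝ, (Real.pi / v) ^ (1/2:ℝ) * Real.exp (-(Real.pi^2 / v) * ξ^2) = 1 := by
      rw [integral_const_mul, integral_gaussian, ← Real.sqrt_eq_rpow, ← Real.sqrt_mul (by positivity)]
      have : Real.pi / v * (Real.pi / (Real.pi^2 / v)) = 1 := by
        have := Real.pi_ne_zero
        field_simp
      rw [this, Real.sqrt_one]
    rw [h5, ← h2, Complex.norm_real] at h4
    exact (le_abs_self _).trans h4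
  · have h6 : Integrable (fun z : ℝ × ℝ => Real.exp (-v * z.1^2) * ‖Ps μ z.2‖) (volume.prod volume) :=
      (integrable_exp_neg_mul_sq hv).mul_prod hi.norm
    apply h6.mono'
    · apply Continuous.aestronglyMeasurable
      have := Ps_cont μ
      unfold Function.uncurry
      fun_prop
    · refine Eventually.of_forall (fun z => ?_)
      unfold Function.uncurry
      rw [norm_mul, Complex.norm_exp]
      apply le_of_eq
      congr 2
      rw [Complex.add_re]
      have e1 : (-(v:ℂ) * ((z.1:ℝ):ℂ)^2).re = -v * z.1^2 := by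
        rw [← Complex.ofReal_neg, ← Complex.ofReal_pow, ← Complex.ofReal_mul, Complex.ofReal_re]
      have e2 : (((2 * Real.pi * (-z.2) : ℝ) : ℂ) * Complex.I * ((z.1:ℝ):ℂ)).re = 0 := by
        rw [mul_assoc, Complex.re_ofReal_mul, mul_comm Complex.I, Complex.re_ofReal_mul, Complex.I_re]
        ring
      rw [e1, e2, add_zero]

/-- integrability of the density -/
theorem G_integrable (hi : Integrable (Ps μ)) (hcG : Continuous (fun x : ℝ => G (Ps μ) x)) :
    Integrable (fun x : ℝ => (G (Ps μ) x).re) := by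
  have hcr : Continuous (fun x : ℝ => (G (Ps μ) x).re) := Complex.continuous_re.comp hcG
  refine ⟨hcr.aestronglyMeasurable, ?_⟩
  rw [hasFiniteIntegral_iff_ofReal (Eventually.of_forall (fun x => (G_pos μ hi x).1))]
  have h1 : ∀ x : ℝ, Tendsto (fun n : ℕ => ENNReal.ofReal (Real.exp (-(1/((n:ℝ)+1)) * x^2) * (G (Ps μ) x).re)) atTop
      (𝓝 (ENNReal.ofReal (G (Ps μ) x).re)) := by
    intro x
    apply (ENNReal.continuous_ofReal.tendsto _).comp
    have h2 : Tendsto (fun n : ℕ => -(1/((n:ℝ)+1)) * x^2) atTop (𝓝 0) := by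
      have := (tendsto_one_div_add_atTop_nhds_zero_nat (𝕜 := ℝ)).neg.mul_const (x^2)
      simpa using this
    have h3 := ((Real.continuous_exp.tendsto 0).comp h2).mul_const ((G (Ps μ) x).re)
    rw [Real.exp_zero, one_mul] at h3
    exact h3
  have h4 : ∫⁻ x : ℝ, ENNReal.ofReal (G (Ps μ) x).re ≤
      liminf (fun n : ℕ => ∫⁻ x : ℝ, ENNReal.ofReal (Real.exp (-(1/((n:ℝ)+1)) * x^2) * (G (Ps μ) x).re)) atTop := by
    have h5 : ∫⁻ x : ℝ, ENNReal.ofReal (G (Ps μ) x).re =
        ∫⁻ x : ℝ, liminf (fun n : ℕ => ENNReal.ofReal (Real.exp (-(1/((n:ℝ)+1)) * x^2) * (G (Ps μ) x).re)) atTop := by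
      congr 1
      funext x
      exact (h1 x).liminf_eq.symm
    rw [h5]
    apply lintegral_liminf_le
    intro n
    apply Measurable.ennreal_ofReal
    apply Continuous.measurable
    fun_prop
  refine lt_of_le_of_lt h4 ?_
  refine lt_of_le_of_lt (liminf_le_liminf (v := fun _ => (1:ENNReal)) (Eventually.of_forall ?_)) ?_
  · intro n
    obtain ⟨k1, k2⟩ := gauss_le μ hi hcG (v := 1/((n:ℝ)+1)) (by positivity)
    rw [← ofReal_integral_eq_lintegral_ofReal k1 (Eventually.of_forall (fun x =>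
      mul_nonneg (Real.exp_pos _).le (G_pos μ hi x).1))]
    exact ENNReal.ofReal_le_one.mpr k2
  · rw [liminf_const]; exact ENNReal.one_lt_top

/-- the density -/
theorem eq_withDensity (hi : Integrable (Ps μ)) (hcG : Continuous (fun x : ℝ => G (Ps μ) x)) :
    μ = volume.withDensity (fun x : ℝ => ENNReal.ofReal (G (Ps μ) x).re) := by
  have hint := G_integrable μ hi hcG
  have hcr : Continuous (fun x : ℝ => (G (Ps μ) x).re) := Complex.continuous_re.comp hcG
  have : IsFiniteMeasure (volume.withDensity (fun x : ℝ => ENNReal.ofReal (G (Ps μ) x).re)) :=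
    isFiniteMeasure_withDensity_ofReal hint.2
  apply Measure.ext_of_charFun
  funext t
  have hF : 𝓕 (Ps μ) = fun x : ℝ => G (Ps μ) x := by
    funext x; exact (G_real x).symm
  have hFi : Integrable (𝓕 (Ps μ)) := by
    rw [hF]
    have : (fun x : ℝ => G (Ps μ) x) = fun x : ℝ => (((G (Ps μ) x).re : ℝ) : ℂ) := by
      funext x; exact G_ofReal μ hi x
    rw [this]
    exact hint.ofReal
  have hinv := hi.fourierInv_fourier_eq hFi (v := t / (2 * Real.pi)) (Ps_cont μ).continuousAt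
  have h1 : Ps μ (t / (2 * Real.pi)) = charFun μ t := by
    unfold Ps
    congr 1
    have := Real.pi_ne_zero
    field_simp
  rw [← h1, ← hinv, hF, Real.fourierInv_eq', charFun_apply_real]
  rw [integral_withDensity_eq_integral_toReal_smul (by
    apply Measurable.ennreal_ofReal hcr.measurable) (Eventually.of_forall (fun x => ENNReal.ofReal_lt_top))]
  congr 1
  funext x
  rw [ENNReal.toReal_ofReal (G_pos μ hi x).1, smul_eq_mul, G_ofReal μ hi x, Complex.ofReal_re, Complex.real_smul, mul_comm]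
  congr 2
  have hpi := Real.pi_ne_zero
  have : (2 * Real.pi * inner ℝ x (t / (2 * Real.pi)) : ℝ) = t * x := by
    rw [RCLike.inner_apply]
    simp only [conj_trivial]
    field_simp
  rw [this]
  push_cast; ring

/-- a probability measure whose characteristic function decays like `exp (-c |t|^p)`, `p > 1`, has an
entire density and charges every interval -/
theorem entire_density (hc : 0 < c) (hp : 1 < p) (hC : 0 ≤ C) (h : ∀ t : ℝ, ‖charFun μ t‖ ≤ C * Real.exp (-(c * |t| ^ p))) :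
    ∃ g : ℂ → ℂ, Differentiable ℂ g ∧ (∀ x : ℝ, 0 ≤ (g x).re ∧ (g x).im = 0) ∧
      μ = volume.withDensity (fun x : ℝ => ENNReal.ofReal (g x).re) ∧
      ∀ u v : ℝ, u < v → 0 < μ (Set.Ioo u v) := by
  have hi := Ps_integrable μ hc hp hC h
  have hd : Differentiable ℂ (G (Ps μ)) := G_diff (Ps_cont μ) hc hp hC (Ps_bound μ hc hp hC h)
  have hcG : Continuous (fun x : ℝ => G (Ps μ) x) := hd.continuous.comp Complex.continuous_ofReal
  have hcr : Continuous (fun x : ℝ => (G (Ps μ) x).re) := Complex.continuous_re.comp hcG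
  have hw := eq_withDensity μ hi hcG
  refine ⟨G (Ps μ), hd, G_pos μ hi, hw, ?_⟩
  intro u v huv
  rw [pos_iff_ne_zero]
  intro h0
  rw [hw, withDensity_apply _ measurableSet_Ioo] at h0
  rw [lintegral_eq_zero_iff (Measurable.ennreal_ofReal hcr.measurable)] at h0
  have hzero : ∀ x ∈ Set.Ioo u v, (G (Ps μ) x).re = 0 := by
    have h1 : (fun x : ℝ => (G (Ps μ) x).re) =ᵐ[volume.restrict (Set.Ioo u v)] (fun _ => (0:ℝ)) := by
      filter_upwards [h0] with x hx
      have h2 : (G (Ps μ) x).re ≤ 0 := ENNReal.ofReal_eq_zero.mp hx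
      exact le_antisymm h2 (G_pos μ hi x).1
    have h2 := Measure.eqOn_open_of_ae_eq (μ := (volume : Measure ℝ)) h1 isOpen_Ioo hcr.continuousOn continuousOn_const
    intro x hx
    exact h2 hx
  have hz : ∀ x ∈ Set.Ioo u v, G (Ps μ) x = 0 := by
    intro x hx
    rw [G_ofReal μ hi x, hzero x hx, Complex.ofReal_zero]
  have han : AnalyticOnNhd ℂ (G (Ps μ)) Set.univ := fun z _ => hd.analyticAt z
  set x0 := (u + v) / 2 with hx0
  have hx0m : x0 ∈ Set.Ioo u v := ⟨by rw [hx0]; linarith, by rw [hx0]; linarith⟩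
  have hfr : ∃ᶠ z in 𝓝[≠] ((x0 : ℝ) : ℂ), G (Ps μ) z = 0 := by
    have hseq : Tendsto (fun n : ℕ => ((x0 + (v - x0) / 2 * (1 / ((n:ℝ) + 1)) : ℝ) : ℂ)) atTop (𝓝[≠] ((x0 : ℝ) : ℂ)) := by
      apply tendsto_nhdsWithin_of_tendsto_nhds_of_eventually_within
      · apply (Complex.continuous_ofReal.tendsto _).comp
        have h3 := (tendsto_one_div_add_atTop_nhds_zero_nat (𝕜 := ℝ)).const_mul ((v - x0) / 2)
        have h4 := h3.const_add x0
        simpa using h4
      · refine Eventually.of_forall (fun n => ?_)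
        simp only [Set.mem_compl_iff, Set.mem_singleton_iff, Complex.ofReal_inj]
        intro h5
        have h6 : 0 < (v - x0) / 2 * (1 / ((n:ℝ) + 1)) := by
          have := hx0m.2
          have h7 : 0 < v - x0 := by linarith
          positivity
        linarith
    apply hseq.frequently
    apply Frequently.of_forall
    intro n
    apply hz
    have h7 : 0 < v - x0 := by linarith [hx0m.2]
    have h8 : (1:ℝ) / ((n:ℝ) + 1) ≤ 1 := by
      rw [div_le_one (by positivity)]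
      have : (0:ℝ) ≤ n := Nat.cast_nonneg n
      linarith
    have h9 : 0 < (1:ℝ) / ((n:ℝ) + 1) := by positivity
    constructor
    · have := hx0m.1
      have : 0 < (v - x0) / 2 * (1 / ((n:ℝ) + 1)) := by positivity
      linarith
    · have : (v - x0) / 2 * (1 / ((n:ℝ) + 1)) ≤ (v - x0) / 2 * 1 := by gcongr
      linarith
  have hall := han.eqOn_zero_of_preconnected_of_frequently_eq_zero isPreconnected_univ (Set.mem_univ _) hfr
  have hμ0 : μ = 0 := by
    rw [hw]
    have : (fun x : ℝ => ENNReal.ofReal (G (Ps μ) x).re) = fun _ => 0 := by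
      funext x
      have := hall (Set.mem_univ ((x:ℝ):ℂ))
      simp only [Pi.zero_apply] at this
      rw [this]; simp
    rw [this]
    exact withDensity_zero
  exact (IsProbabilityMeasure.ne_zero μ) hμ0

end Pool.Agent.H383.ED
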