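import Mathlib
import Pool.Agent.H383.Tail
import Pool.Agent.H383.Decay
import Pool.Agent.H383.EntDens2
import Pool.Agent.H383.DqOf
import Pool.Agent.H383.Exc
import Pool.Agent.H452R2.Win.V6
import Pool.Agent.H452R2.Win.V9

open MeasureTheory Filter Topology
open Pool.Agent.H383.AP Pool.Agent.H383.Gauss
open Pool.Agent.H452R2

namespace Pool.Agent.H383.Gen

variable {a : ℕ → ℝ} {φ α X κ : ℝ} {e : ℕ → ℝ} {μ : ProbabilityMeasure ℝ}

/-- the strong form of the limit law (quadratic growth) -/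
def Law2 (e : ℕ → ℝ) (μ : ProbabilityMeasure ℝ) : Prop :=
  ∀ f : ℝ → ℝ, Continuous f → (∃ C, ∀ x, |f x| ≤ C * (1 + x^2)) →
      Tendsto (rm (fun n => f (e n))) atTop (𝓝 (∫ x, f x ∂(μ : Measure ℝ)))

lemma Law2.law (h : Law2 e μ) : Law e μ := by
  intro f hf hB
  obtain ⟨B, hB⟩ := hB
  refine h f hf ⟨B, fun x => (hB x).trans ?_⟩
  have : 0 ≤ B := (abs_nonneg _).trans (hB x)
  nlinarith [sq_nonneg x]

lemma BK_of (ha : Win.Bdw a) (hκ : κ < 3/4) : BK a κ := by
  obtain ⟨C, hC, h⟩ := ha (3/4 - κ) (by linarith)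
  refine ⟨C, hC, fun m hm => (h m hm).trans (le_of_eq ?_)⟩
  congr 2; ring

/-- entire density of the limit law -/
theorem ent (hA : Ap a φ e α X) (h : Law2 e μ) (ha : Win.Bdw a) (hl : LB a) (hα : 0 < α) :
    ∃ g : ℂ → ℂ, Differentiable ℂ g ∧ (∀ x : ℝ, 0 ≤ (g x).re ∧ (g x).im = 0) ∧
      (μ : Measure ℝ) = volume.withDensity (fun x : ℝ => ENNReal.ofReal (g x).re) ∧
      ∀ u v : ℝ, u < v → 0 < (μ : Measure ℝ) (Set.Ioo u v) := by
  obtain ⟨S0, hS⟩ := exists_S hα
  obtain ⟨C, c, hC, hc, hdec⟩ := char_decay (κ := 7/10) (p := 5/4) hS hA h.law (by norm_num)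
    (BK_of ha (by norm_num)) hl (by norm_num) (by norm_num)
  exact Pool.Agent.H383.ED.entire_density (μ : Measure ℝ) hc (by norm_num) hC.le hdec

lemma no_atoms {g : ℂ → ℂ} (hw : (μ : Measure ℝ) = volume.withDensity (fun x : ℝ => ENNReal.ofReal (g x).re))
    (x : ℝ) : (μ : Measure ℝ) {x} = 0 := by
  rw [hw]
  exact withDensity_absolutelyContinuous _ _ (Real.volume_singleton)

/-- decay of the characteristic function: every exponent below 4/3 -/
theorem cdecay (hA : Ap a φ e α X) (h : Law2 e μ) (ha : Win.Bdw a) (hl : LB a) (hα : 0 < α)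
    {p : ℝ} (hp0 : 0 < p) (hp : p < 4/3) :
    ∃ C c : ℝ, 0 < C ∧ 0 < c ∧ ∀ t : ℝ, ‖charFun (μ : Measure ℝ) t‖ ≤ C * Real.exp (-(c * |t| ^ p)) := by
  obtain ⟨S0, hS⟩ := exists_S hα
  -- need 1/2 < κ (2-p), κ < 3/4 : 1/(2(2-p)) < 3/4
  have h2 : 0 < 2 - p := by linarith
  have h3 : 1/(2*(2-p)) < 3/4 := by
    rw [div_lt_div_iff₀ (by positivity) (by norm_num)]; linarith
  set κ := (max (1/2) (1/(2*(2-p))) + 3/4)/2 with hκ
  have h4 : max (1/2) (1/(2*(2-p))) < 3/4 := max_lt (by norm_num) h3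
  have h5 : max (1/2) (1/(2*(2-p))) < κ := by rw [hκ]; linarith
  have h6 : κ < 3/4 := by rw [hκ]; linarith
  have h7 : 1/2 < κ := (le_max_left _ _).trans_lt h5
  have h8 : 1/(2*(2-p)) < κ := (le_max_right _ _).trans_lt h5
  have h9 : 1/2 < κ * (2 - p) := by
    rw [div_lt_iff₀ (by positivity)] at h8
    linarith
  exact char_decay (κ := κ) (p := p) hS hA h.law h7 (BK_of ha h6) hl hp0 h9

open Classical in
/-- uniform convergence of distribution functions in short windows, also for the strict inequality -/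
theorem wcdf {W : ℕ → ℕ → Prop} (hW : Win.WB W e) (h0 : ∀ N, W N 0) (h : Law2 e μ)
    (hna : ∀ x : ℝ, (μ : Measure ℝ) {x} = 0) :
    ∀ η : ℝ, 0 < η → ∃ N0 : ℕ, ∀ N : ℕ, N0 ≤ N → ∀ k : ℕ, W N k → ∀ x : ℝ,
      |(((Finset.range N).filter (fun n => e (k + n) ≤ x)).card : ℝ) / N - (μ : Measure ℝ).real (Set.Iic x)| ≤ η ∧
      |(((Finset.range N).filter (fun n => e (k + n) < x)).card : ℝ) / N - (μ : Measure ℝ).real (Set.Iic x)| ≤ η := by
  intro η hη
  obtain ⟨N0, hN0⟩ := hW.cdf h0 h hna (η/2) (by positivity)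
  have hcont := Win.cdf_cont hna
  refine ⟨max N0 1, ?_⟩
  intro N hN k hk x
  have hN1 : (0:ℝ) < N := by
    have : 1 ≤ N := (le_max_right _ _).trans hN
    exact_mod_cast this
  have h1 := hN0 N ((le_max_left _ _).trans hN) k hk
  refine ⟨(h1 x).trans (by linarith), ?_⟩
  rw [abs_le]
  constructor
  · -- lower bound: use y < x close to x
    have h2 := Metric.continuous_iff.mp hcont x (η/2) (by positivity)
    obtain ⟨δ, hδ, h3⟩ := h2
    have h4 := h3 (x - δ/2) (by rw [Real.dist_eq]; rw [abs_lt]; constructor <;> linarith)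
    rw [Real.dist_eq, abs_lt] at h4
    have h5 := (abs_le.mp (h1 (x - δ/2))).1
    have h6 : (((Finset.range N).filter (fun n => e (k + n) ≤ x - δ/2)).card : ℝ) / N ≤
        (((Finset.range N).filter (fun n => e (k + n) < x)).card : ℝ) / N := by
      gcongr ?_ / _
      have : (Finset.range N).filter (fun n => e (k + n) ≤ x - δ/2) ⊆ (Finset.range N).filter (fun n => e (k + n) < x) := by
        intro n hn
        rw [Finset.mem_filter] at hn ⊢
        exact ⟨hn.1, by linarith [hn.2]⟩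
      exact_mod_cast Finset.card_le_card this
    linarith [h4.1, h4.2]
  · have h5 := (abs_le.mp (h1 x)).2
    have h6 : (((Finset.range N).filter (fun n => e (k + n) < x)).card : ℝ) / N ≤
        (((Finset.range N).filter (fun n => e (k + n) ≤ x)).card : ℝ) / N := by
      gcongr ?_ / _
      have : (Finset.range N).filter (fun n => e (k + n) < x) ⊆ (Finset.range N).filter (fun n => e (k + n) ≤ x) := by
        intro n hn
        rw [Finset.mem_filter] at hn ⊢
        exact ⟨hn.1, hn.2.le⟩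
      exact_mod_cast Finset.card_le_card this
    linarith

open Classical in
/-- tails: lower bound for the measure -/
theorem tail_lower (hA : Ap a φ e α X) (hW : ∀ ε : ℝ, 0 < ε → Win.ApW (Win.Adw ε) a φ e α X)
    (h : Law2 e μ) (ha : Win.Bdw a) (ha0 : a 0 = 0) (hl : LB a) (hα : 0 < α)
    (hna : ∀ x : ℝ, (μ : Measure ℝ) {x} = 0) :
    ∃ C : ℝ, 0 < C ∧ ∀ K : ℝ, 2 ≤ K →
      Real.exp (-(C * K^4 * (Real.log K)^3)) ≤ 1 - (μ : Measure ℝ).real (Set.Iic K) ∧
      Real.exp (-(C * K^4 * (Real.log K)^3)) ≤ (μ : Measure ℝ).real (Set.Iic (-K)) := by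
  obtain ⟨C, hC, hom⟩ := Win.omega2 hA ha.Bd ha0 (Dq_of hl) hα
  refine ⟨C, hC, ?_⟩
  intro K hK
  have hwc := wcdf (hW 1 one_pos).wb (Win.Adw_zero one_pos) h hna
  constructor
  · apply le_of_forall_pos_le_add
    intro η hη
    obtain ⟨N1, hN1⟩ := hwc η hη
    obtain ⟨N2, hN2⟩ := hom 1 (Or.inl rfl) K hK
    set N := max 1 (max N1 N2) with hNd
    have hN0 : (0:ℝ) < N := by
      have : 1 ≤ N := le_max_left _ _
      exact_mod_cast this
    have h1 := (hN1 N (by omega) 0 (Win.Adw_zero one_pos N) K).1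
    have h2 := hN2 N (by omega)
    simp only [zero_add] at h1
    simp only [one_mul] at h2
    have h3 : (((Finset.range N).filter (fun n => e n ≤ K)).card : ℝ) +
        (((Finset.range N).filter (fun n => K < e n)).card : ℝ) = N := by
      have := Finset.card_filter_add_card_filter_not (s := Finset.range N) (fun n => e n ≤ K)
      rw [Finset.card_range] at this
      simp only [not_le] at this
      exact_mod_cast this
    have h4 : Real.exp (-(C * K^4 * (Real.log K)^3)) ≤ (((Finset.range N).filter (fun n => K < e n)).card : ℝ) / N := by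
      rw [le_div_iff₀ hN0]; exact h2
    have h5 : (((Finset.range N).filter (fun n => e n ≤ K)).card : ℝ) / N +
        (((Finset.range N).filter (fun n => K < e n)).card : ℝ) / N = 1 := by
      rw [← add_div, h3, div_self hN0.ne']
    have h6 := (abs_le.mp h1).1
    linarith
  · apply le_of_forall_pos_le_add
    intro η hη
    obtain ⟨N1, hN1⟩ := hwc η hη
    obtain ⟨N2, hN2⟩ := hom (-1) (Or.inr rfl) K hK
    set N := max 1 (max N1 N2) with hNd
    have hN0 : (0:ℝ) < N := by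
      have : 1 ≤ N := le_max_left _ _
      exact_mod_cast this
    have h1 := (hN1 N (by omega) 0 (Win.Adw_zero one_pos N) (-K)).2
    have h2 := hN2 N (by omega)
    simp only [zero_add] at h1
    have h3 : (Finset.range N).filter (fun n => K < -1 * e n) = (Finset.range N).filter (fun n => e n < -K) := by
      apply Finset.filter_congr
      intro n _
      constructor <;> intro hh <;> linarith
    rw [h3] at h2
    have h4 : Real.exp (-(C * K^4 * (Real.log K)^3)) ≤ (((Finset.range N).filter (fun n => e n < -K)).card : ℝ) / N := by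
      rw [le_div_iff₀ hN0]; exact h2
    have h6 := (abs_le.mp h1).2
    linarith

/-- tails: upper bound for the measure, with any exponent below 4 -/
theorem tail_upper (hA : Ap a φ e α X) (h : Law2 e μ) (ha : Win.Bdw a) (hα : 0 < α) {δ : ℝ} (hδ : 0 < δ) :
    ∃ K0 : ℝ, 2 ≤ K0 ∧ ∀ K : ℝ, K0 ≤ K →
      (μ : Measure ℝ).real {x | K ≤ |x|} ≤ (1/2) * Real.exp (-(K ^ (4 - δ))) := by
  obtain ⟨S0, hS⟩ := exists_S hα
  set δ' := min δ 1 with hδ'
  have hd1 : 0 < δ' := lt_min hδ one_pos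
  have hd2 : δ' ≤ 1 := min_le_right _ _
  have hd3 : δ' ≤ δ := min_le_left _ _
  -- q = 4 - δ'/2, p = q/(q-1)
  set q := 4 - δ'/2 with hq
  have hq1 : 3 < q := by rw [hq]; linarith
  have hq4 : q < 4 := by rw [hq]; linarith
  set p := q/(q-1) with hp
  have hq0 : 0 < q - 1 := by linarith
  have hp1 : 1 < p := by rw [hp, lt_div_iff₀ hq0]; linarith
  have hp2 : p ≤ 2 := by rw [hp, div_le_iff₀ hq0]; linarith
  have hpq : p / (p - 1) = q := by
    rw [hp]
    have : q / (q-1) - 1 = 1/(q-1) := by field_simp; ring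
    rw [this]; field_simp
  have h43 : 1/p < 3/4 := by
    rw [hp, one_div_div, div_lt_div_iff₀ (by linarith) (by norm_num)]; linarith
  have hhalf : 1/2 ≤ 1/p := by
    apply one_div_le_one_div_of_le (by linarith) hp2
  set κ := (1/p + 3/4)/2 with hκ
  have hk1 : 1/p < κ := by rw [hκ]; linarith
  have hk2 : κ < 3/4 := by rw [hκ]; linarith
  have hk3 : 1/2 < κ := by linarith
  have hk4 : 1 < κ * p := by
    rw [div_lt_iff₀ (by linarith)] at hk1
    exact hk1
  obtain ⟨C, c, hC, hc, htail⟩ := tail_bound (κ := κ) (p := p) hS hA h.law hk3 (BK_of ha hk2) hp1 hp2 hk4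
  rw [hpq] at htail
  -- c K^q ≥ K^(4-δ') + log(2C)
  have hlim : Tendsto (fun K : ℝ => K ^ (δ'/2)) atTop atTop := tendsto_rpow_atTop (by positivity)
  obtain ⟨K1, hK1⟩ := eventually_atTop.mp (hlim.eventually_ge_atTop ((1 + Real.log (2 * (C + 1)))/c))
  refine ⟨max 2 K1, le_max_left _ _, ?_⟩
  intro K hK
  have hK2 : 2 ≤ K := (le_max_left _ _).trans hK
  have hKK : K1 ≤ K := (le_max_right _ _).trans hK
  have hK0 : 0 < K := by linarith
  refine (htail K hK0.le).trans ?_
  have h1 : K ^ (4 - δ) ≤ K ^ (4 - δ') := Real.rpow_le_rpow_of_exponent_le (by linarith) (by linarith)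
  have h2 : K ^ q = K ^ (4 - δ') * K ^ (δ'/2) := by
    rw [← Real.rpow_add hK0]; congr 1; rw [hq]; ring
  have h3 := hK1 K hKK
  rw [div_le_iff₀ hc] at h3
  have hlog : 0 ≤ Real.log (2 * (C + 1)) := Real.log_nonneg (by linarith)
  have h4 : 1 ≤ K ^ (4 - δ') := Real.one_le_rpow (by linarith) (by linarith)
  have h5 : K ^ (4 - δ') + Real.log (2 * (C+1)) ≤ c * K ^ q := by
    rw [h2]
    have h6 : K ^ (4 - δ') * (1 + Real.log (2 * (C + 1))) ≤ K ^ (4 - δ') * (K ^ (δ'/2) * c) := by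
      apply mul_le_mul_of_nonneg_left h3 (by linarith)
    nlinarith
  have h7 : Real.exp (-(c * K ^ q)) ≤ Real.exp (-(K ^ (4 - δ))) * (1 / (2 * (C+1))) := by
    have h8 : (1 / (2 * (C+1))) = Real.exp (-Real.log (2 * (C+1))) := by
      rw [Real.exp_neg, Real.exp_log (by positivity), one_div]
    rw [h8, ← Real.exp_add]
    apply Real.exp_le_exp.mpr
    linarith
  calc C * Real.exp (-(c * K ^ q)) ≤ C * (Real.exp (-(K ^ (4 - δ))) * (1 / (2 * (C+1)))) := by gcongr
    _ = (C / (C+1)) * (1/2) * Real.exp (-(K ^ (4 - δ))) := by field_simp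
    _ ≤ 1 * (1/2) * Real.exp (-(K ^ (4 - δ))) := by
        gcongr
        rw [div_le_one (by positivity)]; linarith
    _ = _ := by ring

open Classical in
/-- frequency of large values in short windows -/
theorem lv (hA : Ap a φ e α X) (hW : ∀ ε : ℝ, 0 < ε → Win.ApW (Win.Adw ε) a φ e α X)
    (h : Law2 e μ) (ha : Win.Bdw a) (ha0 : a 0 = 0) (hl : LB a) (hα : 0 < α)
    (hna : ∀ x : ℝ, (μ : Measure ℝ) {x} = 0) :
    ∃ C : ℝ, 0 < C ∧ ∀ δ : ℝ, 0 < δ → ∃ K0 : ℝ, 2 ≤ K0 ∧ ∀ K : ℝ, K0 ≤ K → ∀ ε : ℝ, 0 < ε →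
      ∃ N0 : ℕ, ∀ N : ℕ, N0 ≤ N → ∀ k : ℕ, (k:ℝ) ^ (1/2 + ε) ≤ N →
        (Real.exp (-(C * K^4 * (Real.log K)^3)) * N ≤ (((Finset.range N).filter (fun n => K < e (k + n))).card : ℝ) ∧
         (((Finset.range N).filter (fun n => K < e (k + n))).card : ℝ) ≤ Real.exp (-(K ^ (4 - δ))) * N) ∧
        (Real.exp (-(C * K^4 * (Real.log K)^3)) * N ≤ (((Finset.range N).filter (fun n => e (k + n) < -K)).card : ℝ) ∧
         (((Finset.range N).filter (fun n => e (k + n) < -K)).card : ℝ) ≤ Real.exp (-(K ^ (4 - δ))) * N) := by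
  obtain ⟨C, hC, hlow⟩ := tail_lower hA hW h ha ha0 hl hα hna
  refine ⟨C + 1, by positivity, ?_⟩
  intro δ hδ
  obtain ⟨K0, hK0, hup⟩ := tail_upper hA h ha hα hδ
  refine ⟨K0, hK0, ?_⟩
  intro K hK ε hε
  have hK2 : 2 ≤ K := hK0.trans hK
  obtain ⟨hl1, hl2⟩ := hlow K hK2
  have hu := hup K hK
  set P := Real.exp (-(C * K^4 * (Real.log K)^3)) with hP
  set U := Real.exp (-(K ^ (4 - δ))) with hU
  have hP0 : 0 < P := Real.exp_pos _
  have hU0 : 0 < U := Real.exp_pos _
  -- exp(-(C+1)K^4 log^3) ≤ P/2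
  have hhalf : Real.exp (-((C+1) * K^4 * (Real.log K)^3)) ≤ P/2 := by
    have h1 : Real.exp (-((C+1) * K^4 * (Real.log K)^3)) = P * Real.exp (-(K^4 * (Real.log K)^3)) := by
      rw [hP, ← Real.exp_add]; congr 1; ring
    rw [h1]
    have hlogK : 0.69 ≤ Real.log K := by
      have h2 := Real.log_two_gt_d9
      have h3 : Real.log 2 ≤ Real.log K := Real.log_le_log (by norm_num) hK2
      linarith
    have h2 : 1 ≤ K^4 * (Real.log K)^3 := by
      have h3 : (2:ℝ)^4 ≤ K^4 := pow_le_pow_left₀ (by norm_num) hK2 4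
      have h4 : (0.69:ℝ)^3 ≤ (Real.log K)^3 := pow_le_pow_left₀ (by norm_num) hlogK 3
      calc (1:ℝ) ≤ 2^4 * 0.69^3 := by norm_num
        _ ≤ _ := by gcongr
    have h5 : Real.exp (-(K^4 * (Real.log K)^3)) ≤ Real.exp (-1) := Real.exp_le_exp.mpr (by linarith)
    have h6 : Real.exp (-1) ≤ 1/2 := by
      rw [Real.exp_neg]
      have := Real.exp_one_gt_d9
      rw [inv_le_comm₀ (Real.exp_pos _) (by norm_num)]
      linarith
    nlinarith
  set η := min (P/2) (U/2) with hη
  have hη0 : 0 < η := lt_min (by positivity) (by positivity)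
  obtain ⟨N0, hN0⟩ := wcdf (hW ε hε).wb (Win.Adw_zero hε) h hna η hη0
  refine ⟨max N0 1, ?_⟩
  intro N hN k hk
  have hN1 : (0:ℝ) < N := by
    have : 1 ≤ N := (le_max_right _ _).trans hN
    exact_mod_cast this
  have h1 := (hN0 N ((le_max_left _ _).trans hN) k hk K).1
  have h2 := (hN0 N ((le_max_left _ _).trans hN) k hk (-K)).2
  have hη1 : η ≤ P/2 := min_le_left _ _
  have hη2 : η ≤ U/2 := min_le_right _ _
  have h3 : (((Finset.range N).filter (fun n => e (k + n) ≤ K)).card : ℝ) +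
      (((Finset.range N).filter (fun n => K < e (k + n))).card : ℝ) = N := by
    have := Finset.card_filter_add_card_filter_not (s := Finset.range N) (fun n => e (k + n) ≤ K)
    rw [Finset.card_range] at this
    simp only [not_le] at this
    exact_mod_cast this
  have h5 : (((Finset.range N).filter (fun n => e (k + n) ≤ K)).card : ℝ) / N +
      (((Finset.range N).filter (fun n => K < e (k + n))).card : ℝ) / N = 1 := by
    rw [← add_div, h3, div_self hN1.ne']
  have hμ1 : 1 - (μ : Measure ℝ).real (Set.Iic K) ≤ (μ : Measure ℝ).real {x | K ≤ |x|} := by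
    have h6 : 1 - (μ : Measure ℝ).real (Set.Iic K) = (μ : Measure ℝ).real (Set.Iic K)ᶜ := by
      rw [measureReal_compl measurableSet_Iic]; simp
    rw [h6]
    refine measureReal_mono ?_ (measure_ne_top _ _)
    intro x hx
    simp only [Set.mem_compl_iff, Set.mem_Iic, not_le] at hx
    exact hx.le.trans (le_abs_self x)
  have hμ2 : (μ : Measure ℝ).real (Set.Iic (-K)) ≤ (μ : Measure ℝ).real {x | K ≤ |x|} := by
    refine measureReal_mono ?_ (measure_ne_top _ _)
    intro x hx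
    simp only [Set.mem_Iic] at hx
    exact (by linarith : K ≤ -x).trans (neg_le_abs x)
  have a1 := abs_le.mp h1
  have a2 := abs_le.mp h2
  refine ⟨⟨?_, ?_⟩, ?_, ?_⟩
  · rw [← le_div_iff₀ hN1]; linarith
  · rw [← div_le_iff₀ hN1]; linarith
  · rw [← le_div_iff₀ hN1]; linarith
  · rw [← div_le_iff₀ hN1]; linarith

end Pool.Agent.H383.Gen
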