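import Mathlib
import Pool.Agent.H383.Full
import Pool.Agent.H383.DivE
import Pool.Agent.H383.DivF
import Pool.Agent.H452R2.Win.V8

open MeasureTheory Filter Topology
open Pool.Agent.H387R2.Vor
open Pool.Agent.H383.Gen
open Pool.Agent.H383.AP
open Pool.Agent.H452R2

namespace Pool.Agent.H383.Div

lemma ad_LB : LB ad := by
  refine ⟨2 / (Real.pi * √2), by positivity, ?_⟩
  intro q hq _
  have h3 : dv q = 2 := by
    unfold dv
    rw [hq.divisors, Finset.card_pair (by exact hq.one_lt.ne)]; norm_num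
  unfold ad
  rw [h3]
  apply le_of_eq
  ring

lemma rm_Ico (e : ℕ → ℝ) (k N : ℕ) : rm (fun n => e (k + n)) N = (∑ n ∈ Finset.Ico k (k + N), e n) / N := by
  unfold rm
  rw [Finset.sum_Ico_eq_sum_range]
  simp

open Classical in
lemma card_Ico (p : ℕ → Prop) (k N : ℕ) : ((Finset.range N).filter (fun n => p (k + n))).card =
    ((Finset.Ico k (k + N)).filter p).card := by
  apply Finset.card_bij (fun n _ => k + n)
  · intro n hn
    rw [Finset.mem_filter, Finset.mem_range] at hn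
    rw [Finset.mem_filter, Finset.mem_Ico]
    exact ⟨by omega, hn.2⟩
  · intro a _ b _ h; omega
  · intro n hn
    rw [Finset.mem_filter, Finset.mem_Ico] at hn
    refine ⟨n - k, ?_, by omega⟩
    rw [Finset.mem_filter, Finset.mem_range]
    refine ⟨by omega, ?_⟩
    have : k + (n - k) = n := by omega
    rw [this]; exact hn.2

open Classical in
theorem distr2 (hV : VorStmt) {a b c : ℝ} (ha : 0 < a) (hP : ∀ n : ℕ, 0 < a * n^2 + b * n + c) :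
    ∃ (μ : ProbabilityMeasure ℝ) (g : ℂ → ℂ),
      Differentiable ℂ g ∧ (∀ x : ℝ, 0 ≤ (g x).re ∧ (g x).im = 0) ∧
      (μ : Measure ℝ) = volume.withDensity (fun x : ℝ => ENNReal.ofReal (g x).re) ∧
      (∀ u v : ℝ, u < v → 0 < (μ : Measure ℝ) (Set.Ioo u v)) ∧
      Integrable (fun x : ℝ => x ^ 2) (μ : Measure ℝ) ∧
      (∀ f : ℝ → ℝ, Continuous f → (∃ C : ℝ, ∀ x : ℝ, |f x| ≤ C * (1 + x ^ 2)) →
        ∀ ε : ℝ, 0 < ε → ∀ η : ℝ, 0 < η → ∃ N₀ : ℕ, ∀ N : ℕ, N₀ ≤ N → ∀ k : ℕ, (k:ℝ) ^ (1/2 + ε) ≤ N →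
        |(∑ n ∈ Finset.Ico k (k + N),
            f (Dx (a * n^2 + b * n + c) / (a * n^2 + b * n + c) ^ (1/4:ℝ))) / N -
          ∫ x, f x ∂(μ : Measure ℝ)| ≤ η) ∧
      (∀ ε : ℝ, 0 < ε → ∀ η : ℝ, 0 < η → ∃ N₀ : ℕ, ∀ N : ℕ, N₀ ≤ N → ∀ k : ℕ, (k:ℝ) ^ (1/2 + ε) ≤ N → ∀ x : ℝ,
        |(((Finset.Ico k (k + N)).filter (fun n : ℕ =>
            Dx (a * n^2 + b * n + c) / (a * n^2 + b * n + c) ^ (1/4:ℝ) ≤ x)).card : ℝ) / N -
          (μ : Measure ℝ).real (Set.Iic x)| ≤ η) ∧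
      Summable (fun m : ℕ => if 1 ≤ m ∧ ∃ k : ℤ, 2 * √(a * m) = k then
          (m.divisors.card : ℝ) / (Real.pi * √2)
            * (m : ℝ) ^ (-(3 / 4) : ℝ) * Real.cos (2 * Real.pi * b * √(m / a) - Real.pi / 4)
        else 0) ∧
      ∫ x, x ∂(μ : Measure ℝ) = ∑' m : ℕ,
        if 1 ≤ m ∧ ∃ k : ℤ, 2 * √(a * m) = k then
          (m.divisors.card : ℝ) / (Real.pi * √2)
            * (m : ℝ) ^ (-(3 / 4) : ℝ) * Real.cos (2 * Real.pi * b * √(m / a) - Real.pi / 4)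
        else 0 := by
  have hsa : 0 < √a := Real.sqrt_pos.mpr ha
  have hAp := quad_Ap hV ha (fun n => (hP n).le)
  obtain ⟨μ, hμ2, hμ⟩ := hAp.b2.limit
  obtain ⟨ν, hν2, hν, hs, hm⟩ := distr hV ha hP
  have heq : ∀ n : ℕ, Ed √(a * n^2 + b * n + c) = Dx (a * n^2 + b * n + c) / (a * n^2 + b * n + c) ^ (1/4:ℝ) :=
    fun n => Ed_quad (hP n).le
  have hμL : Law2 (fun n : ℕ => Ed √(a * n^2 + b * n + c)) μ := hμ
  obtain ⟨g, hg1, hg2, hg3, hg4⟩ := ent hAp hμL Win.ad_Bdw2 ad_LB (by positivity)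
  have hna := no_atoms hg3
  have hW : ∀ ε : ℝ, 0 < ε → Win.ApW (Win.Adw ε) ad (Real.pi/4) (fun n : ℕ => Ed √(a * n^2 + b * n + c)) (2 * √a) (b / √a) :=
    fun ε hε => Win.div_ApW hV ha (fun n => (hP n).le) hε
  have hmean : ∫ x, x ∂(μ : Measure ℝ) = ∫ x, x ∂(ν : Measure ℝ) := by
    have hq : ∃ C : ℝ, ∀ x : ℝ, |x| ≤ C * (1 + x ^ 2) := ⟨1, fun x => by
      rw [one_mul]
      have := sq_nonneg (|x| - 1)
      rw [← sq_abs x]
      nlinarith [abs_nonneg x]⟩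
    have h1 := hμ (fun x => x) continuous_id hq
    have h2 := hν (fun x => x) continuous_id hq
    simp only [heq] at h1
    exact tendsto_nhds_unique h1 h2
  refine ⟨μ, g, hg1, hg2, hg3, hg4, hμ2, ?_, ?_, hs, ?_⟩
  · intro f hf hC ε hε η hη
    obtain ⟨N0, hN0⟩ := (hW ε hε).wb.limit_of (Win.Adw_zero hε) hμ f hf hC η hη
    refine ⟨N0, fun N hN k hk => ?_⟩
    have h1 := hN0 N hN k hk
    rw [rm_Ico (fun n => f (Ed √(a * n^2 + b * n + c)))] at h1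
    simp only [heq] at h1
    exact h1
  · intro ε hε η hη
    obtain ⟨N0, hN0⟩ := (hW ε hε).wb.cdf (Win.Adw_zero hε) hμ hna η hη
    refine ⟨N0, fun N hN k hk x => ?_⟩
    have h1 := hN0 N hN k hk x
    rw [card_Ico (fun n => Ed √(a * n^2 + b * n + c) ≤ x)] at h1
    simp only [heq] at h1
    exact h1
  · rw [hmean, hm]

open Classical in
theorem large2 (hV : VorStmt) {a b c : ℝ} (ha : 0 < a) (hP : ∀ n : ℕ, 0 < a * n^2 + b * n + c) :
    ∃ C : ℝ, 0 < C ∧ ∀ δ : ℝ, 0 < δ → ∃ K₀ : ℝ, 2 ≤ K₀ ∧ ∀ K : ℝ, K₀ ≤ K → ∀ ε : ℝ, 0 < ε →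
      ∃ N₀ : ℕ, ∀ N : ℕ, N₀ ≤ N → ∀ k : ℕ, (k:ℝ) ^ (1/2 + ε) ≤ N →
        (Real.exp (-(C * K^4 * (Real.log K)^3)) * N ≤ (((Finset.Ico k (k + N)).filter (fun n : ℕ =>
            K * (a * n^2 + b * n + c) ^ (1/4:ℝ) < Dx (a * n^2 + b * n + c))).card : ℝ) ∧
         (((Finset.Ico k (k + N)).filter (fun n : ℕ =>
            K * (a * n^2 + b * n + c) ^ (1/4:ℝ) < Dx (a * n^2 + b * n + c))).card : ℝ) ≤ Real.exp (-(K ^ (4 - δ))) * N) ∧
        (Real.exp (-(C * K^4 * (Real.log K)^3)) * N ≤ (((Finset.Ico k (k + N)).filter (fun n : ℕ =>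
            Dx (a * n^2 + b * n + c) < -(K * (a * n^2 + b * n + c) ^ (1/4:ℝ)))).card : ℝ) ∧
         (((Finset.Ico k (k + N)).filter (fun n : ℕ =>
            Dx (a * n^2 + b * n + c) < -(K * (a * n^2 + b * n + c) ^ (1/4:ℝ)))).card : ℝ) ≤ Real.exp (-(K ^ (4 - δ))) * N) := by
  have hsa : 0 < √a := Real.sqrt_pos.mpr ha
  have hAp := quad_Ap hV ha (fun n => (hP n).le)
  obtain ⟨μ, hμ2, hμ⟩ := hAp.b2.limit
  have hμL : Law2 (fun n : ℕ => Ed √(a * n^2 + b * n + c)) μ := hμ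
  obtain ⟨g, hg1, hg2, hg3, hg4⟩ := ent hAp hμL Win.ad_Bdw2 ad_LB (by positivity)
  have hna := no_atoms hg3
  have hW : ∀ ε : ℝ, 0 < ε → Win.ApW (Win.Adw ε) ad (Real.pi/4) (fun n : ℕ => Ed √(a * n^2 + b * n + c)) (2 * √a) (b / √a) :=
    fun ε hε => Win.div_ApW hV ha (fun n => (hP n).le) hε
  obtain ⟨C, hC, h⟩ := lv hAp hW hμL Win.ad_Bdw2 ad_zero ad_LB (by positivity) hna
  refine ⟨C, hC, ?_⟩
  intro δ hδ
  obtain ⟨K0, hK0, h⟩ := h δ hδ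
  refine ⟨K0, hK0, ?_⟩
  intro K hK ε hε
  obtain ⟨N0, h⟩ := h K hK ε hε
  refine ⟨N0, ?_⟩
  intro N hN k hk
  have h1 := h N hN k hk
  have e1 : ((Finset.range N).filter (fun n => K < Ed √(a * ((k + n : ℕ):ℝ)^2 + b * ((k + n : ℕ):ℝ) + c))).card =
      ((Finset.Ico k (k + N)).filter (fun n : ℕ =>
            K * (a * n^2 + b * n + c) ^ (1/4:ℝ) < Dx (a * n^2 + b * n + c))).card := by
    rw [card_Ico (fun n => K < Ed √(a * n^2 + b * n + c))]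
    congr 1
    apply Finset.filter_congr
    intro n _
    have hx := hP n
    have hs : 0 < (a * n^2 + b * n + c) ^ (1/4:ℝ) := by positivity
    rw [Ed_quad hx.le, lt_div_iff₀ hs]
  have e2 : ((Finset.range N).filter (fun n => Ed √(a * ((k + n : ℕ):ℝ)^2 + b * ((k + n : ℕ):ℝ) + c) < -K)).card =
      ((Finset.Ico k (k + N)).filter (fun n : ℕ =>
            Dx (a * n^2 + b * n + c) < -(K * (a * n^2 + b * n + c) ^ (1/4:ℝ)))).card := by
    rw [card_Ico (fun n => Ed √(a * n^2 + b * n + c) < -K)]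
    congr 1
    apply Finset.filter_congr
    intro n _
    have hx := hP n
    have hs : 0 < (a * n^2 + b * n + c) ^ (1/4:ℝ) := by positivity
    rw [Ed_quad hx.le, div_lt_iff₀ hs, neg_mul]
  rw [e1, e2] at h1
  exact h1

end Pool.Agent.H383.Div
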