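import Mathlib
import Pool.Agent.H383.FullD

open MeasureTheory Filter Topology
open Pool.Agent.H387R2.Vor
open Pool.Agent.H383.Gen
open Pool.Agent.H383.AP
open Pool.Agent.H452R2

namespace Pool.Agent.H383.Div

open Classical in
lemma card_Ioc (p : ℕ → Prop) (k N : ℕ) : ((Finset.range N).filter (fun n => p (k + n + 1))).card =
    ((Finset.Ioc k (k + N)).filter p).card := by
  apply Finset.card_bij (fun n _ => k + n + 1)
  · intro n hn
    rw [Finset.mem_filter, Finset.mem_range] at hn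
    rw [Finset.mem_filter, Finset.mem_Ioc]
    exact ⟨by omega, hn.2⟩
  · intro a _ b _ h; omega
  · intro n hn
    rw [Finset.mem_filter, Finset.mem_Ioc] at hn
    refine ⟨n - k - 1, ?_, by omega⟩
    rw [Finset.mem_filter, Finset.mem_range]
    refine ⟨by omega, ?_⟩
    have : k + (n - k - 1) + 1 = n := by omega
    rw [this]; exact hn.2

open Classical in
theorem squares2 (hV : VorStmt) : ∃ d : ℝ, 431 / 500 ≤ d ∧ d < 1 ∧ ∀ ε : ℝ, 0 < ε → ∀ η : ℝ, 0 < η →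
    ∃ N₀ : ℕ, ∀ N : ℕ, N₀ ≤ N → ∀ k : ℕ, (k:ℝ) ^ (1/2 + ε) ≤ N →
      |(((Finset.Ioc k (k + N)).filter (fun n : ℕ =>
        (n : ℝ) ^ 2 * Real.log ((n : ℝ) ^ 2) + (2 * Real.eulerMascheroniConstant - 1) * (n : ℝ) ^ 2 <
        ∑ j ∈ Finset.Icc 1 (n ^ 2), (j.divisors.card : ℝ))).card : ℝ) / N - d| ≤ η := by
  have hP : ∀ n : ℕ, 0 < (1:ℝ) * n^2 + 2 * n + 1 := fun n => by positivity
  have ha : (0:ℝ) < 1 := one_pos
  have hAp := quad_Ap hV ha (fun n => (hP n).le)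
  obtain ⟨μ, hμ2, hμ⟩ := hAp.b2.limit
  have hμL : Law2 (fun n : ℕ => Ed √((1:ℝ) * n^2 + 2 * n + 1)) μ := hμ
  obtain ⟨g, hg1, hg2, hg3, hg4⟩ := ent hAp hμL Win.ad_Bdw2 ad_LB (by positivity)
  have hna := no_atoms hg3
  have hW : ∀ ε : ℝ, 0 < ε → Win.ApW (Win.Adw ε) ad (Real.pi/4) (fun n : ℕ => Ed √((1:ℝ) * n^2 + 2 * n + 1)) (2 * √1) (2 / √1) :=
    fun ε hε => Win.div_ApW hV ha (fun n => (hP n).le) hε
  -- the key equivalence
  have key : ∀ n : ℕ, ¬ (Ed √((1:ℝ) * n^2 + 2 * n + 1) ≤ 0) ↔ (((n + 1 : ℕ)) : ℝ) ^ 2 * Real.log ((((n + 1 : ℕ)) : ℝ) ^ 2) + (2 * Real.eulerMascheroniConstant - 1) * (((n + 1 : ℕ)) : ℝ) ^ 2 <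
        ∑ j ∈ Finset.Icc 1 ((n + 1) ^ 2), (j.divisors.card : ℝ) := by
    intro n
    have e1 : (1:ℝ) * n^2 + 2 * n + 1 = (((n + 1 : ℕ)) : ℝ)^2 := by push_cast; ring
    have e2 : ⌊(((n + 1 : ℕ)) : ℝ)^2⌋₊ = (n+1)^2 := by
      have : (((n + 1 : ℕ)) : ℝ)^2 = (((n+1)^2 : ℕ) : ℝ) := by push_cast; ring
      rw [this, Nat.floor_natCast]
    rw [Ed_quad (hP n).le, e1, not_le]
    have hs : 0 < ((((n + 1 : ℕ)) : ℝ)^2) ^ (1/4:ℝ) := by positivity
    rw [lt_div_iff₀ hs, zero_mul]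
    unfold Dx
    rw [e2]
    constructor <;> intro h <;> linarith
  refine ⟨1 - (μ : Measure ℝ).real (Set.Iic 0), ?_, ?_, ?_⟩
  · -- lower bound from the second moment theorem
    apply le_of_forall_pos_le_add
    intro η hη
    obtain ⟨N1, hN1⟩ := squares hV
    obtain ⟨N2, hN2⟩ := (hW 1 one_pos).wb.cdf (Win.Adw_zero one_pos) hμ hna η hη
    set N := max 1 (max N1 N2) with hN
    have hN0 : (0:ℝ) < N := by
      have : 1 ≤ N := le_max_left _ _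
      exact_mod_cast this
    have h1 := hN1 N (by omega)
    have h2 := hN2 N (by omega) 0 (Win.Adw_zero one_pos N) 0
    have h3 : (((Finset.range N).filter (fun n => Ed √((1:ℝ) * ((0 + n : ℕ):ℝ)^2 + 2 * ((0 + n : ℕ):ℝ) + 1) ≤ 0)).card : ℝ) +
        (((Finset.range N).filter (fun n => ¬ Ed √((1:ℝ) * ((0 + n : ℕ):ℝ)^2 + 2 * ((0 + n : ℕ):ℝ) + 1) ≤ 0)).card : ℝ) = N := by
      have := Finset.card_filter_add_card_filter_not (s := Finset.range N) (fun n => Ed √((1:ℝ) * ((0 + n : ℕ):ℝ)^2 + 2 * ((0 + n : ℕ):ℝ) + 1) ≤ 0)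
      rw [Finset.card_range] at this
      exact_mod_cast this
    have h4 : ((Finset.range N).filter (fun n => ¬ Ed √((1:ℝ) * ((0 + n : ℕ):ℝ)^2 + 2 * ((0 + n : ℕ):ℝ) + 1) ≤ 0)).card =
        ((Finset.Icc 1 N).filter (fun n : ℕ =>
          (n : ℝ) ^ 2 * Real.log ((n : ℝ) ^ 2) + (2 * Real.eulerMascheroniConstant - 1) * (n : ℝ) ^ 2 <
        ∑ k ∈ Finset.Icc 1 (n ^ 2), (k.divisors.card : ℝ))).card := by
      rw [show Finset.Icc 1 N = Finset.Ioc 0 (0 + N) from by ext x; simp; omega]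
      rw [← card_Ioc]
      congr 1
      apply Finset.filter_congr
      intro n _
      exact key (0 + n)
    have h5 : (431/500:ℝ) ≤ (((Finset.range N).filter (fun n => ¬ Ed √((1:ℝ) * ((0 + n : ℕ):ℝ)^2 + 2 * ((0 + n : ℕ):ℝ) + 1) ≤ 0)).card : ℝ) / N := by
      rw [le_div_iff₀ hN0, h4]; exact h1
    have h6 : (((Finset.range N).filter (fun n => Ed √((1:ℝ) * ((0 + n : ℕ):ℝ)^2 + 2 * ((0 + n : ℕ):ℝ) + 1) ≤ 0)).card : ℝ) / N +
        (((Finset.range N).filter (fun n => ¬ Ed √((1:ℝ) * ((0 + n : ℕ):ℝ)^2 + 2 * ((0 + n : ℕ):ℝ) + 1) ≤ 0)).card : ℝ) / N = 1 := by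
      rw [← add_div, h3, div_self hN0.ne']
    have h7 := (abs_le.mp h2).1
    linarith
  · have h1 := hg4 (-1) 0 (by norm_num)
    have h2 : 0 < (μ : Measure ℝ).real (Set.Ioo (-1) 0) := by
      rw [measureReal_def]
      exact ENNReal.toReal_pos h1.ne' (measure_ne_top _ _)
    have h3 : (μ : Measure ℝ).real (Set.Ioo (-1) 0) ≤ (μ : Measure ℝ).real (Set.Iic 0) :=
      measureReal_mono (fun x hx => hx.2.le) (measure_ne_top _ _)
    linarith
  · intro ε hε η hη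
    obtain ⟨N0, hN0⟩ := (hW ε hε).wb.cdf (Win.Adw_zero hε) hμ hna η hη
    refine ⟨max 1 N0, fun N hN k hk => ?_⟩
    have hN1 : (0:ℝ) < N := by
      have : 1 ≤ N := (le_max_left _ _).trans hN
      exact_mod_cast this
    have h2 := hN0 N ((le_max_right _ _).trans hN) k hk 0
    have h3 : (((Finset.range N).filter (fun n => Ed √((1:ℝ) * ((k + n : ℕ):ℝ)^2 + 2 * ((k + n : ℕ):ℝ) + 1) ≤ 0)).card : ℝ) +
        (((Finset.range N).filter (fun n => ¬ Ed √((1:ℝ) * ((k + n : ℕ):ℝ)^2 + 2 * ((k + n : ℕ):ℝ) + 1) ≤ 0)).card : ℝ) = N := by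
      have := Finset.card_filter_add_card_filter_not (s := Finset.range N) (fun n => Ed √((1:ℝ) * ((k + n : ℕ):ℝ)^2 + 2 * ((k + n : ℕ):ℝ) + 1) ≤ 0)
      rw [Finset.card_range] at this
      exact_mod_cast this
    have h4 : ((Finset.range N).filter (fun n => ¬ Ed √((1:ℝ) * ((k + n : ℕ):ℝ)^2 + 2 * ((k + n : ℕ):ℝ) + 1) ≤ 0)).card =
        ((Finset.Ioc k (k + N)).filter (fun n : ℕ =>
          (n : ℝ) ^ 2 * Real.log ((n : ℝ) ^ 2) + (2 * Real.eulerMascheroniConstant - 1) * (n : ℝ) ^ 2 <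
        ∑ j ∈ Finset.Icc 1 (n ^ 2), (j.divisors.card : ℝ))).card := by
      rw [← card_Ioc]
      congr 1
      apply Finset.filter_congr
      intro n _
      exact key (k + n)
    have h6 : (((Finset.range N).filter (fun n => Ed √((1:ℝ) * ((k + n : ℕ):ℝ)^2 + 2 * ((k + n : ℕ):ℝ) + 1) ≤ 0)).card : ℝ) / N +
        (((Finset.range N).filter (fun n => ¬ Ed √((1:ℝ) * ((k + n : ℕ):ℝ)^2 + 2 * ((k + n : ℕ):ℝ) + 1) ≤ 0)).card : ℝ) / N = 1 := by
      rw [← add_div, h3, div_self hN1.ne']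
    rw [h4] at h6
    have h7 := abs_le.mp h2
    rw [abs_le]
    constructor <;> linarith [h7.1, h7.2]

end Pool.Agent.H383.Div
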