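import Mathlib
import Pool.Agent.H383.BBound

open Set Filter Topology

namespace Pool.Agent.H383.Gauss

/-- Dirichlet convolution square of `r₂` -/
noncomputable def RR (m : ℕ) : ℝ := ∑ x ∈ m.divisorsAntidiagonal, rA x.1 * rA x.2

lemma RR_nonneg (m : ℕ) : 0 ≤ RR m := by
  unfold RR
  apply Finset.sum_nonneg
  intro x _
  exact mul_nonneg (rA_nonneg _) (rA_nonneg _)

lemma RR_rr {m : ℕ} (hm : m ∈ Finset.Icc 1 200) : RR m = (rr m : ℝ) := by
  rw [Finset.mem_Icc] at hm
  unfold RR rr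
  rw [Nat.sum_divisorsAntidiagonal (fun a b => rA a * rA b)]
  push_cast
  rw [← Finset.sum_filter]
  have e : (Finset.Icc 1 m).filter (fun d => d ∣ m) = m.divisors := by
    ext d
    simp only [Finset.mem_filter, Finset.mem_Icc, Nat.mem_divisors]
    constructor
    · rintro ⟨⟨h1, h2⟩, h3⟩; exact ⟨h3, by omega⟩
    · rintro ⟨h1, h2⟩
      exact ⟨⟨Nat.pos_of_dvd_of_pos h1 (by omega), Nat.le_of_dvd (by omega) h1⟩, h1⟩
  rw [e]
  apply Finset.sum_congr rfl
  intro d hd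
  rw [Nat.mem_divisors] at hd
  have h1 : 1 ≤ d := Nat.pos_of_dvd_of_pos hd.1 (by omega)
  have h2 : d ≤ m := Nat.le_of_dvd (by omega) hd.1
  have h3 : 1 ≤ m / d := Nat.div_pos h2 h1
  have h4 : m / d ≤ m := Nat.div_le_self _ _
  rw [rA_rt (Finset.mem_Icc.mpr ⟨h1, by omega⟩), rA_rt (Finset.mem_Icc.mpr ⟨h3, by omega⟩)]

lemma isq_sq {m : ℕ} (hm : m ∈ Finset.Icc 1 200) : isq m = true ↔ IsSquare m := by
  rw [isq_iff m hm]
  rw [Finset.mem_Icc] at hm
  constructor
  · rintro ⟨k, _, hk⟩; exact ⟨k, hk⟩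
  · rintro ⟨k, hk⟩
    refine ⟨k, ?_, hk⟩
    rw [Finset.mem_range]
    by_contra hc
    push Not at hc
    have : 15 * 15 ≤ k * k := Nat.mul_le_mul hc hc
    omega

lemma B_sq (Y : ℕ) : ∑ m ∈ Finset.Icc 1 Y, RR m * (m:ℝ) ^ (-(3/2):ℝ) ≤
    (∑ m ∈ Finset.Icc 1 Y, rA m * (m:ℝ) ^ (-(3/2):ℝ))^2 := by
  classical
  set g : ℕ → ℝ := fun a => rA a * (a:ℝ) ^ (-(3/2):ℝ) with hg
  have hg0 : ∀ a, 0 ≤ g a := fun a => mul_nonneg (rA_nonneg _) (by positivity)
  have e1 : ∀ m ∈ Finset.Icc 1 Y, RR m * (m:ℝ) ^ (-(3/2):ℝ) ≤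
      ∑ a ∈ Finset.Icc 1 Y, ∑ b ∈ Finset.Icc 1 Y, (if a * b = m then g a * g b else 0) := by
    intro m hm
    rw [Finset.mem_Icc] at hm
    unfold RR
    rw [Finset.sum_mul]
    have e2 : ∀ x ∈ m.divisorsAntidiagonal, rA x.1 * rA x.2 * (m:ℝ) ^ (-(3/2):ℝ) = g x.1 * g x.2 := by
      intro x hx
      rw [Nat.mem_divisorsAntidiagonal] at hx
      simp only [hg]
      rw [← hx.1]
      push_cast
      rw [Real.mul_rpow (Nat.cast_nonneg _) (Nat.cast_nonneg _)]
      ring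
    rw [Finset.sum_congr rfl e2, ← Finset.sum_product', ← Finset.sum_filter]
    apply Finset.sum_le_sum_of_subset_of_nonneg
    · intro x hx
      rw [Nat.mem_divisorsAntidiagonal] at hx
      rw [Finset.mem_filter, Finset.mem_product, Finset.mem_Icc, Finset.mem_Icc]
      have h1 : 1 ≤ x.1 := by
        rcases Nat.eq_zero_or_pos x.1 with h | h
        · rw [h, zero_mul] at hx; omega
        · exact h
      have h2 : 1 ≤ x.2 := by
        rcases Nat.eq_zero_or_pos x.2 with h | h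
        · rw [h, mul_zero] at hx; omega
        · exact h
      have h3 : x.1 ≤ m := by rw [← hx.1]; exact Nat.le_mul_of_pos_right _ h2
      have h4 : x.2 ≤ m := by rw [← hx.1]; exact Nat.le_mul_of_pos_left _ h1
      exact ⟨⟨⟨h1, by omega⟩, ⟨h2, by omega⟩⟩, hx.1⟩
    · intro x _ _
      exact mul_nonneg (hg0 _) (hg0 _)
  refine (Finset.sum_le_sum e1).trans ?_
  rw [sq, Finset.sum_mul_sum, Finset.sum_comm]
  apply Finset.sum_le_sum
  intro a _
  rw [Finset.sum_comm]
  apply Finset.sum_le_sum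
  intro b _
  rw [Finset.sum_ite_eq]
  split_ifs
  · exact le_rfl
  · exact mul_nonneg (hg0 _) (hg0 _)

theorem TT_le {M : ℕ} (hM : 15 ≤ M) : TT M ≤ 3677/100 := by
  classical
  have hM2 : 200 ≤ M^2 := by nlinarith
  set w : ℕ → ℝ := fun m => (m:ℝ) ^ (-(3/2):ℝ) with hw
  have hw0 : ∀ m, 0 ≤ w m := fun m => by simp only [hw]; positivity
  have h1 : TT M ≤ ∑ m ∈ Finset.Icc 1 (M^2), (RR m * w m - (if m ≤ 200 then (cc m : ℝ) * w m else 0)) := by
    unfold TT NS
    rw [Finset.sum_filter]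
    apply Finset.sum_le_sum
    intro m hm
    rw [Finset.mem_Icc] at hm
    by_cases h200 : m ≤ 200
    · have hmem : m ∈ Finset.Icc 1 200 := Finset.mem_Icc.mpr ⟨hm.1, h200⟩
      rw [if_pos h200, RR_rr hmem]
      by_cases hsq : IsSquare m
      · rw [if_neg (by simpa using hsq)]
        have : isq m = true := (isq_sq hmem).mpr hsq
        unfold cc
        rw [if_pos this, sub_self]
      · rw [if_pos hsq, rA_rt hmem]
        have h2 : isq m = false := by
          by_contra hc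
          rw [Bool.not_eq_false] at hc
          exact hsq ((isq_sq hmem).mp hc)
        have h3 := cc_check m hmem h2
        unfold cc
        rw [h2]
        simp only [Bool.false_eq_true, if_false]
        rw [Nat.cast_sub h3]
        push_cast
        apply le_of_eq
        ring
    · rw [if_neg h200, sub_zero]
      have h0 := hw0 m
      split_ifs with hsq
      · exact mul_nonneg (RR_nonneg m) h0
      · exact mul_le_mul_of_nonneg_right (rA_sq_le hm.1) h0
  rw [Finset.sum_sub_distrib, ← Finset.sum_filter] at h1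
  have e2 : (Finset.Icc 1 (M^2)).filter (fun m => m ≤ 200) = Finset.Icc 1 200 := by
    ext m; simp only [Finset.mem_filter, Finset.mem_Icc]; omega
  rw [e2] at h1
  have h2 := B_sq (M^2)
  have h3 := B_le M
  have h3' : 0 ≤ ∑ m ∈ Finset.Icc 1 (M^2), rA m * (m:ℝ) ^ (-(3/2):ℝ) :=
    Finset.sum_nonneg (fun m _ => mul_nonneg (rA_nonneg _) (by positivity))
  have h4 : (∑ m ∈ Finset.Icc 1 (M^2), rA m * (m:ℝ) ^ (-(3/2):ℝ))^2 ≤ (9057/1000)^2 :=
    pow_le_pow_left₀ h3' h3 2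
  have h5 : (4526669440:ℝ) / 10^8 ≤ ∑ m ∈ Finset.Icc 1 200, (cc m : ℝ) * w m := by
    have h6 : ∑ m ∈ Finset.Icc 1 200, (cc m : ℝ) * ((lo m : ℝ) / 10^8) ≤ ∑ m ∈ Finset.Icc 1 200, (cc m : ℝ) * w m := by
      apply Finset.sum_le_sum
      intro m hm
      exact mul_le_mul_of_nonneg_left (lo_le hm) (Nat.cast_nonneg _)
    refine le_trans ?_ h6
    have h7 : ∑ m ∈ Finset.Icc 1 200, (cc m : ℝ) * ((lo m : ℝ) / 10^8) =
        ((∑ m ∈ Finset.Icc 1 200, cc m * lo m : ℕ) : ℝ) / 10^8 := by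
      push_cast
      rw [Finset.sum_div]
      apply Finset.sum_congr rfl
      intro m _
      ring
    rw [h7]
    apply div_le_div_of_nonneg_right _ (by positivity)
    exact_mod_cast corr_check
  norm_num at h4 h5
  simp only [hw] at h1 h5
  norm_num
  linarith

end Pool.Agent.H383.Gauss
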