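import Mathlib
import Pool.Agent.H383.TTBound

open Set Filter Topology

namespace Pool.Agent.H383.Gauss

/-- the full sum over squares -/
noncomputable def Sinf : ℝ := ∑' k : ℕ, rA (k^2) * (k:ℝ) ^ (-(3/2):ℝ)

lemma S_summable : Summable (fun k : ℕ => rA (k^2) * (k:ℝ) ^ (-(3/2):ℝ)) := by
  obtain ⟨C, hC, hr⟩ := rA_le_pow
  have hsum : Summable (fun k : ℕ => C * (k:ℝ) ^ (-(37/25):ℝ)) := by
    apply Summable.mul_left
    rw [Real.summable_nat_rpow]; norm_num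
  apply Summable.of_norm_bounded hsum
  intro k
  rw [Real.norm_eq_abs, abs_of_nonneg (mul_nonneg (rA_nonneg _) (by positivity))]
  rcases Nat.eq_zero_or_pos k with rfl | hk
  · simp only [Nat.cast_zero]
    rw [Real.zero_rpow (by norm_num), Real.zero_rpow (by norm_num)]
    simp
  · have hk0 : (0:ℝ) < k := by exact_mod_cast hk
    have h1 := hr (k^2) (Nat.one_le_pow _ _ hk)
    have h2 : √((k^2 : ℕ):ℝ) = k := by push_cast; exact Real.sqrt_sq hk0.le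
    rw [h2] at h1
    calc rA (k^2) * (k:ℝ) ^ (-(3/2):ℝ) ≤ (C * (k:ℝ) ^ (1/50:ℝ)) * (k:ℝ) ^ (-(3/2):ℝ) := by gcongr
      _ = C * ((k:ℝ) ^ (1/50:ℝ) * (k:ℝ) ^ (-(3/2):ℝ)) := by ring
      _ = _ := by rw [← Real.rpow_add hk0]; norm_num

lemma SS_eq_range (M : ℕ) : SS M = ∑ k ∈ Finset.range (M+1), rA (k^2) * (k:ℝ) ^ (-(3/2):ℝ) := by
  rw [range_split M (fun k => rA (k^2) * (k:ℝ) ^ (-(3/2):ℝ))]
  simp only [Nat.cast_zero]
  rw [Real.zero_rpow (by norm_num), mul_zero, zero_add]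
  rfl

lemma SS_tendsto : Tendsto SS atTop (𝓝 Sinf) := by
  have h := S_summable.hasSum.tendsto_sum_nat
  refine (h.comp (tendsto_add_atTop_nat 1)).congr ?_
  intro M
  exact (SS_eq_range M).symm

lemma SS_le (M : ℕ) : SS M ≤ Sinf := by
  rw [SS_eq_range]
  exact S_summable.sum_le_tsum _ (fun k _ => mul_nonneg (rA_nonneg _) (by positivity))

lemma rA_sq_lower {k : ℕ} (hk : 1 ≤ k) :
    4 + 4 * (((TR.filter (fun t => t.2.2 ∣ k)).card : ℕ) : ℝ) ≤ rA (k^2) := by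
  classical
  rw [rA_eq (K := k) (Nat.pow_lt_pow_left (Nat.lt_succ_self k) (by norm_num)), ← Finset.sum_product']
  set TK := TR.filter (fun t => t.2.2 ∣ k) with hTK
  set φ : ℕ × ℕ × ℕ → ℕ × ℕ := fun t => (t.1 * (k / t.2.2), t.2.1 * (k / t.2.2)) with hφ
  set h : ℕ × ℕ → ℕ := fun x => if x.1^2 + x.2^2 = k^2 then wt x.1 * wt x.2 else 0 with hh
  -- basic facts on triples
  have hfact : ∀ t ∈ TK, 1 ≤ t.1 * (k / t.2.2) ∧ 1 ≤ t.2.1 * (k / t.2.2) ∧
      (t.1 * (k / t.2.2))^2 + (t.2.1 * (k / t.2.2))^2 = k^2 ∧ 1 ≤ k / t.2.2 ∧ t.2.2 * (k / t.2.2) = k := by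
    intro t ht
    rw [hTK, Finset.mem_filter] at ht
    obtain ⟨c1, c2, c3, c4, c5, c6⟩ := TR_check t ht.1
    have hdk : t.2.2 ≤ k := Nat.le_of_dvd (by omega) ht.2
    have he : 1 ≤ k / t.2.2 := Nat.div_pos hdk c5
    have hek : t.2.2 * (k / t.2.2) = k := Nat.mul_div_cancel' ht.2
    refine ⟨Nat.mul_pos c1 he, Nat.mul_pos c2 he, ?_, he, hek⟩
    calc (t.1 * (k / t.2.2))^2 + (t.2.1 * (k / t.2.2))^2 = (t.1^2 + t.2.1^2) * (k / t.2.2)^2 := by ring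
      _ = (t.2.2 * (k / t.2.2))^2 := by rw [c3]; ring
      _ = k^2 := by rw [hek]
  have hinj : Set.InjOn φ (TK : Set (ℕ × ℕ × ℕ)) := by
    intro t ht t' ht' htt
    have ht1 : t ∈ TK := ht
    have ht1' : t' ∈ TK := ht'
    obtain ⟨f1, f2, f3, f4, f5⟩ := hfact t ht1
    obtain ⟨g1, g2, g3, g4, g5⟩ := hfact t' ht1'
    rw [hTK, Finset.mem_filter] at ht1 ht1'
    obtain ⟨c1, c2, c3, c4, c5, c6⟩ := TR_check t ht1.1
    obtain ⟨d1, d2, d3, d4, d5, d6⟩ := TR_check t' ht1'.1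
    simp only [hφ, Prod.mk.injEq] at htt
    have h1 : Nat.gcd (t.1 * (k / t.2.2)) (t.2.1 * (k / t.2.2)) = k / t.2.2 := by
      rw [Nat.gcd_mul_right, c4, one_mul]
    have h2 : Nat.gcd (t'.1 * (k / t'.2.2)) (t'.2.1 * (k / t'.2.2)) = k / t'.2.2 := by
      rw [Nat.gcd_mul_right, d4, one_mul]
    have h3 : k / t.2.2 = k / t'.2.2 := by rw [← h1, ← h2, htt.1, htt.2]
    rw [h3] at htt
    have h4 : t.1 = t'.1 := Nat.eq_of_mul_eq_mul_right g4 htt.1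
    have h5 : t.2.1 = t'.2.1 := Nat.eq_of_mul_eq_mul_right g4 htt.2
    have h6 : t.2.2 = t'.2.2 := by
      rw [h3] at f5
      exact Nat.eq_of_mul_eq_mul_right g4 (f5.trans g5.symm)
    exact Prod.ext h4 (Prod.ext h5 h6)
  have hkk : ((0, k) : ℕ × ℕ) ≠ (k, 0) := by
    intro hc
    rw [Prod.mk.injEq] at hc
    omega
  have hn1 : ((0, k) : ℕ × ℕ) ∉ insert (k, 0) (TK.image φ) := by
    rw [Finset.mem_insert, Finset.mem_image]
    rintro (hc | ⟨t, ht, hc⟩)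
    · exact hkk hc
    · have := (hfact t ht).1
      simp only [hφ, Prod.mk.injEq] at hc
      omega
  have hn2 : ((k, 0) : ℕ × ℕ) ∉ TK.image φ := by
    rw [Finset.mem_image]
    rintro ⟨t, ht, hc⟩
    have := (hfact t ht).2.1
    simp only [hφ, Prod.mk.injEq] at hc
    omega
  have hsub : insert (0, k) (insert (k, 0) (TK.image φ)) ⊆ Finset.range (k+1) ×ˢ Finset.range (k+1) := by
    intro x hx
    rw [Finset.mem_insert, Finset.mem_insert, Finset.mem_image] at hx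
    rw [Finset.mem_product, Finset.mem_range, Finset.mem_range]
    rcases hx with rfl | rfl | ⟨t, ht, rfl⟩
    · constructor <;> simp
    · constructor <;> simp
    · obtain ⟨f1, f2, f3, f4, f5⟩ := hfact t ht
      constructor
      · have : (t.1 * (k / t.2.2))^2 ≤ k^2 := by rw [← f3]; exact Nat.le_add_right _ _
        have := (Nat.pow_le_pow_iff_left (by norm_num)).mp this
        simp only [hφ]; omega
      · have : (t.2.1 * (k / t.2.2))^2 ≤ k^2 := by rw [← f3]; exact Nat.le_add_left _ _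
        have := (Nat.pow_le_pow_iff_left (by norm_num)).mp this
        simp only [hφ]; omega
  have hval : ∑ x ∈ insert (0, k) (insert (k, 0) (TK.image φ)), h x = 4 + 4 * TK.card := by
    rw [Finset.sum_insert hn1, Finset.sum_insert hn2, Finset.sum_image hinj]
    have e1 : h (0, k) = 2 := by
      simp only [hh]
      rw [if_pos (by ring), wt_zero, wt_pos hk]
    have e2 : h (k, 0) = 2 := by
      simp only [hh]
      rw [if_pos (by ring), wt_zero, wt_pos hk]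
    have e3 : ∀ t ∈ TK, h (φ t) = 4 := by
      intro t ht
      obtain ⟨f1, f2, f3, f4, f5⟩ := hfact t ht
      simp only [hh, hφ]
      rw [if_pos f3, wt_pos f1, wt_pos f2]
    rw [e1, e2, Finset.sum_congr rfl e3, Finset.sum_const, smul_eq_mul]
    ring
  have hle := Finset.sum_le_sum_of_subset (f := h) hsub
  rw [hval] at hle
  exact_mod_cast hle

lemma inv_ge {j : ℕ} (hj : 1 ≤ j) : 2 / √(j:ℝ) - 2 / √((j+1:ℕ):ℝ) ≤ (j:ℝ) ^ (-(3/2):ℝ) := by
  have hj' : (0:ℝ) < j := by exact_mod_cast hj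
  rw [rpow_eq hj']
  set u := √(j:ℝ) with hu
  set v := √((j+1:ℕ):ℝ) with hv
  have hu0 : 0 < u := Real.sqrt_pos.mpr hj'
  have hv0 : 0 < v := Real.sqrt_pos.mpr (by positivity)
  have hu2 : u^2 = j := Real.sq_sqrt hj'.le
  have hv2 : v^2 = j + 1 := by rw [hv, Real.sq_sqrt (by positivity)]; push_cast; ring
  have huv : u ≤ v := Real.sqrt_le_sqrt (by push_cast; linarith)
  rw [← hu2, div_sub_div _ _ hu0.ne' hv0.ne', div_le_div_iff₀ (by positivity) (by positivity)]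
  have h1 : (v - u) * (v + u) = 1 := by nlinarith
  have h2 : v - u ≤ 1 / (2 * u) := by
    rw [le_div_iff₀ (by positivity)]
    nlinarith
  have h3 : 2 * u * (v - u) ≤ 1 := by
    rw [le_div_iff₀ (by positivity)] at h2
    linarith
  have h4 : 2 * u^2 * (v - u) * u ≤ u * v := by
    calc 2 * u^2 * (v - u) * u = u^2 * (2 * u * (v - u)) := by ring
      _ ≤ u^2 * 1 := mul_le_mul_of_nonneg_left h3 (by positivity)
      _ ≤ u * v := by nlinarith
  nlinarith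

lemma Z_lower (J : ℕ) (hJ : 20 ≤ J) : (217068199:ℝ) / 10^8 + 2 / √21 - 2 / √((J+1:ℕ):ℝ) ≤
    ∑ j ∈ Finset.Icc 1 J, (j:ℝ) ^ (-(3/2):ℝ) := by
  induction J, hJ using Nat.le_induction with
  | base =>
    have h1 : ∑ j ∈ Finset.Icc (1:ℕ) 20, (lo j : ℝ) / 10^8 ≤ ∑ j ∈ Finset.Icc (1:ℕ) 20, (j:ℝ) ^ (-(3/2):ℝ) := by
      apply Finset.sum_le_sum
      intro j hj
      rw [Finset.mem_Icc] at hj
      exact lo_le (Finset.mem_Icc.mpr ⟨hj.1, by omega⟩)
    rw [← Finset.sum_div] at h1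
    have h2 : (217068199:ℝ) ≤ ∑ j ∈ Finset.Icc (1:ℕ) 20, (lo j : ℝ) := by exact_mod_cast lo20_check
    have h3 : (217068199:ℝ) / 10^8 ≤ (∑ j ∈ Finset.Icc (1:ℕ) 20, (lo j : ℝ)) / 10^8 :=
      div_le_div_of_nonneg_right h2 (by positivity)
    have h4 : ((20 + 1 : ℕ) : ℝ) = 21 := by norm_num
    rw [h4]
    linarith
  | succ J hJ ih =>
    have e : Finset.Icc 1 (J+1) = insert (J+1) (Finset.Icc 1 J) := by
      ext x; simp only [Finset.mem_Icc, Finset.mem_insert]; omega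
    rw [e, Finset.sum_insert (by simp)]
    have := inv_ge (j := J+1) (by omega)
    linarith

lemma Z_val : (2.60691:ℝ) ≤ ∑ j ∈ Finset.Icc (1:ℕ) (10^8 - 1), (j:ℝ) ^ (-(3/2):ℝ) := by
  have h := Z_lower (10^8 - 1) (by norm_num)
  have h1 : √(((10^8 - 1 + 1 : ℕ)) : ℝ) = 10^4 := by
    have : ((10^8 - 1 + 1 : ℕ) : ℝ) = (10^4)^2 := by norm_num
    rw [this, Real.sqrt_sq (by norm_num)]
  rw [h1] at h
  have h2 : (0.43643:ℝ) ≤ 2 / √21 := by
    rw [le_div_iff₀ (by positivity)]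
    have : √21 ≤ 4.58258 := by
      rw [Real.sqrt_le_left (by norm_num)]; norm_num
    nlinarith
  have h3 : (2:ℝ) / 10^4 = 0.0002 := by norm_num
  rw [h3] at h
  have h4 : (2.17068:ℝ) ≤ (217068199:ℝ) / 10^8 := by norm_num
  linarith

lemma SS_lower (J : ℕ) : (4 + 4 * ∑ t ∈ TR, ((t.2.2 : ℕ) : ℝ) ^ (-(3/2):ℝ)) * ∑ j ∈ Finset.Icc 1 J, (j:ℝ) ^ (-(3/2):ℝ) ≤
    SS (100 * J) := by
  classical
  set w : ℕ → ℝ := fun m => (m:ℝ) ^ (-(3/2):ℝ) with hw
  have hw0 : ∀ m, 0 ≤ w m := fun m => by simp only [hw]; positivity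
  have h1 : ∑ k ∈ Finset.Icc 1 (100*J), (4 * w k + 4 * ∑ t ∈ TR, if t.2.2 ∣ k then w k else 0) ≤ SS (100 * J) := by
    unfold SS
    apply Finset.sum_le_sum
    intro k hk
    rw [Finset.mem_Icc] at hk
    have h2 := rA_sq_lower hk.1
    have h3 : ∑ t ∈ TR, (if t.2.2 ∣ k then w k else 0) = ((TR.filter (fun t => t.2.2 ∣ k)).card : ℝ) * w k := by
      rw [← Finset.sum_filter, Finset.sum_const, nsmul_eq_mul]
    rw [h3]
    calc 4 * w k + 4 * (((TR.filter (fun t => t.2.2 ∣ k)).card : ℝ) * w k) =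
        (4 + 4 * ((TR.filter (fun t => t.2.2 ∣ k)).card : ℝ)) * w k := by ring
      _ ≤ _ := mul_le_mul_of_nonneg_right h2 (hw0 k)
  refine le_trans ?_ h1
  rw [Finset.sum_add_distrib, ← Finset.mul_sum, ← Finset.mul_sum, Finset.sum_comm, add_mul, mul_assoc, Finset.sum_mul]
  have h4 : ∑ j ∈ Finset.Icc 1 J, w j ≤ ∑ k ∈ Finset.Icc 1 (100*J), w k := by
    apply Finset.sum_le_sum_of_subset_of_nonneg
    · intro x; simp only [Finset.mem_Icc]; omega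
    · intro _ _ _; exact hw0 _
  have h5 : ∀ t ∈ TR, ((t.2.2 : ℕ) : ℝ) ^ (-(3/2):ℝ) * ∑ j ∈ Finset.Icc 1 J, w j ≤
      ∑ k ∈ Finset.Icc 1 (100*J), if t.2.2 ∣ k then w k else 0 := by
    intro t ht
    obtain ⟨c1, c2, c3, c4, c5, c6⟩ := TR_check t ht
    rw [← Finset.sum_filter, Finset.mul_sum]
    have e : ∑ j ∈ Finset.Icc 1 J, ((t.2.2 : ℕ) : ℝ) ^ (-(3/2):ℝ) * w j =
        ∑ k ∈ (Finset.Icc 1 J).image (fun j => t.2.2 * j), w k := by
      rw [Finset.sum_image (fun a _ b _ hab => Nat.eq_of_mul_eq_mul_left c5 hab)]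
      apply Finset.sum_congr rfl
      intro j _
      simp only [hw]
      push_cast
      rw [Real.mul_rpow (Nat.cast_nonneg _) (Nat.cast_nonneg _)]
    rw [e]
    apply Finset.sum_le_sum_of_subset_of_nonneg
    · intro x hx
      rw [Finset.mem_image] at hx
      obtain ⟨j, hj, rfl⟩ := hx
      rw [Finset.mem_Icc] at hj
      rw [Finset.mem_filter, Finset.mem_Icc]
      refine ⟨⟨Nat.mul_pos c5 hj.1, Nat.mul_le_mul c6 hj.2⟩, Dvd.intro _ rfl⟩
    · intro _ _ _; exact hw0 _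
  have h6 := Finset.sum_le_sum h5
  linarith

theorem Sinf_lower : (13.8187:ℝ) ≤ Sinf := by
  have h1 := SS_lower (10^8 - 1)
  have h2 := Z_val
  have h3 : (32519998:ℝ) / 10^8 ≤ ∑ t ∈ TR, ((t.2.2 : ℕ) : ℝ) ^ (-(3/2):ℝ) := by
    have h4 : ∑ t ∈ TR, (lo t.2.2 : ℝ) / 10^8 ≤ ∑ t ∈ TR, ((t.2.2 : ℕ) : ℝ) ^ (-(3/2):ℝ) := by
      apply Finset.sum_le_sum
      intro t ht
      obtain ⟨c1, c2, c3, c4, c5, c6⟩ := TR_check t ht
      exact lo_le (Finset.mem_Icc.mpr ⟨c5, by omega⟩)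
    rw [← Finset.sum_div] at h4
    have h5 : (32519998:ℝ) ≤ ∑ t ∈ TR, (lo t.2.2 : ℝ) := by exact_mod_cast TR_sum
    exact (div_le_div_of_nonneg_right h5 (by positivity)).trans h4
  have h6 : (4 + 4 * ((32519998:ℝ) / 10^8)) * 2.60691 ≤
      (4 + 4 * ∑ t ∈ TR, ((t.2.2 : ℕ) : ℝ) ^ (-(3/2):ℝ)) * ∑ j ∈ Finset.Icc (1:ℕ) (10^8 - 1), (j:ℝ) ^ (-(3/2):ℝ) := by
    apply mul_le_mul _ h2 (by norm_num) _
    · linarith
    · have : 0 ≤ ∑ t ∈ TR, ((t.2.2 : ℕ) : ℝ) ^ (-(3/2):ℝ) := Finset.sum_nonneg (fun t _ => by positivity)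
      positivity
  have h7 := SS_le (100 * (10^8 - 1))
  have h8 : (13.8187:ℝ) ≤ (4 + 4 * ((32519998:ℝ) / 10^8)) * 2.60691 := by norm_num
  exact h8.trans (h6.trans (h1.trans h7))

end Pool.Agent.H383.Gauss
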