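import Mathlib
import Pool.Agent.H383.FullDS
import Pool.Agent.H383.CircD
import Pool.Agent.H383.SBound
import Pool.Agent.H452R2.Win.V8

open MeasureTheory Filter Topology
open Pool.Agent.H383.AP Pool.Agent.H383.Gauss Pool.Agent.H383.Gen Pool.Agent.H383.GW
open Pool.Agent.H452R2

namespace Pool.Agent.H383.Circ

open Pool.Agent.H383.Div (rm_Ico card_Ico card_Ioc)

lemma ag_LB : LB ag := by
  refine ⟨1 / Real.pi, by positivity, ?_⟩
  intro q hq h4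
  have hq0 : (0:ℝ) < q := by exact_mod_cast hq.pos
  have h1 := rA_prime_ge hq h4
  have h5 : (√(q:ℝ)) ^ (-(3/2):ℝ) = (q:ℝ) ^ (-(3/4):ℝ) := by
    rw [Real.sqrt_eq_rpow, ← Real.rpow_mul hq0.le]; norm_num
  unfold ag
  rw [h5]
  have hpi := Real.pi_pos
  gcongr

open Classical in
theorem distr2 {a b c : ℝ} (ha : 0 < a) (hP : ∀ n : ℕ, 0 < a * n^2 + b * n + c) :
    ∃ (μ : ProbabilityMeasure ℝ) (g : ℂ → ℂ),
      Differentiable ℂ g ∧ (∀ x : ℝ, 0 ≤ (g x).re ∧ (g x).im = 0) ∧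
      (μ : Measure ℝ) = volume.withDensity (fun x : ℝ => ENNReal.ofReal (g x).re) ∧
      (∀ u v : ℝ, u < v → 0 < (μ : Measure ℝ) (Set.Ioo u v)) ∧
      Integrable (fun x : ℝ => x ^ 2) (μ : Measure ℝ) ∧
      (∀ f : ℝ → ℝ, Continuous f → (∃ C : ℝ, ∀ x : ℝ, |f x| ≤ C * (1 + x ^ 2)) →
        ∀ ε : ℝ, 0 < ε → ∀ η : ℝ, 0 < η → ∃ N₀ : ℕ, ∀ N : ℕ, N₀ ≤ N → ∀ k : ℕ, (k:ℝ) ^ (1/2 + ε) ≤ N →
        |(∑ n ∈ Finset.Ico k (k + N),
            f (Cx (a * n^2 + b * n + c) / (a * n^2 + b * n + c) ^ (1/4:ℝ))) / N -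
          ∫ x, f x ∂(μ : Measure ℝ)| ≤ η) ∧
      (∀ ε : ℝ, 0 < ε → ∀ η : ℝ, 0 < η → ∃ N₀ : ℕ, ∀ N : ℕ, N₀ ≤ N → ∀ k : ℕ, (k:ℝ) ^ (1/2 + ε) ≤ N → ∀ x : ℝ,
        |(((Finset.Ico k (k + N)).filter (fun n : ℕ =>
            Cx (a * n^2 + b * n + c) / (a * n^2 + b * n + c) ^ (1/4:ℝ) ≤ x)).card : ℝ) / N -
          (μ : Measure ℝ).real (Set.Iic x)| ≤ η) ∧
      Summable (fun m : ℕ => if 1 ≤ m ∧ ∃ k : ℤ, √(a * m) = k then
          (Nat.card {p : ℤ × ℤ // p.1 ^ 2 + p.2 ^ 2 = (m : ℤ)} : ℝ) / Real.pi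
            * (m : ℝ) ^ (-(3 / 4) : ℝ) * Real.cos (Real.pi * b * √(m / a) - 3 * Real.pi / 4)
        else 0) ∧
      ∫ x, x ∂(μ : Measure ℝ) = ∑' m : ℕ,
        if 1 ≤ m ∧ ∃ k : ℤ, √(a * m) = k then
          (Nat.card {p : ℤ × ℤ // p.1 ^ 2 + p.2 ^ 2 = (m : ℤ)} : ℝ) / Real.pi
            * (m : ℝ) ^ (-(3 / 4) : ℝ) * Real.cos (Real.pi * b * √(m / a) - 3 * Real.pi / 4)
        else 0 := by
  have hsa : 0 < √a := Real.sqrt_pos.mpr ha
  have hAp := quad_Ap ha (fun n => (hP n).le)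
  obtain ⟨μ, hμ2, hμ⟩ := hAp.b2.limit
  obtain ⟨ν, hν2, hν, hs, hm⟩ := distr ha hP
  have heq : ∀ n : ℕ, En √(a * n^2 + b * n + c) = Cx (a * n^2 + b * n + c) / (a * n^2 + b * n + c) ^ (1/4:ℝ) :=
    fun n => En_quad (hP n).le
  have hμL : Law2 (fun n : ℕ => En √(a * n^2 + b * n + c)) μ := hμ
  obtain ⟨g, hg1, hg2, hg3, hg4⟩ := ent hAp hμL Win.ag_Bdw ag_LB (by positivity)
  have hna := no_atoms hg3
  have hW : ∀ ε : ℝ, 0 < ε → Win.ApW (Win.Adw ε) ag (3 * Real.pi/4) (fun n : ℕ => En √(a * n^2 + b * n + c)) (√a) (b / (2 * √a)) :=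
    fun ε hε => Win.circ_ApW ha (fun n => (hP n).le) hε
  have hmean : ∫ x, x ∂(μ : Measure ℝ) = ∫ x, x ∂(ν : Measure ℝ) := by
    have hq : ∃ C : ℝ, ∀ x : ℝ, |x| ≤ C * (1 + x ^ 2) := ⟨1, fun x => by
      rw [one_mul]
      have := sq_nonneg (|x| - 1)
      rw [← sq_abs x]
      nlinarith [abs_nonneg x]⟩
    have h1 := hμ (fun x => x) continuous_id hq
    have h2 := hν (fun x => x) continuous_id hq
    simp only [heq] at h1
    exact tendsto_nhds_unique h1 h2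
  refine ⟨μ, g, hg1, hg2, hg3, hg4, hμ2, ?_, ?_, hs, ?_⟩
  · intro f hf hC ε hε η hη
    obtain ⟨N0, hN0⟩ := (hW ε hε).wb.limit_of (Win.Adw_zero hε) hμ f hf hC η hη
    refine ⟨N0, fun N hN k hk => ?_⟩
    have h1 := hN0 N hN k hk
    rw [rm_Ico (fun n => f (En √(a * n^2 + b * n + c)))] at h1
    simp only [heq] at h1
    exact h1
  · intro ε hε η hη
    obtain ⟨N0, hN0⟩ := (hW ε hε).wb.cdf (Win.Adw_zero hε) hμ hna η hη
    refine ⟨N0, fun N hN k hk x => ?_⟩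
    have h1 := hN0 N hN k hk x
    rw [card_Ico (fun n => En √(a * n^2 + b * n + c) ≤ x)] at h1
    simp only [heq] at h1
    exact h1
  · rw [hmean, hm]

open Classical in
theorem large2 {a b c : ℝ} (ha : 0 < a) (hP : ∀ n : ℕ, 0 < a * n^2 + b * n + c) :
    ∃ C : ℝ, 0 < C ∧ ∀ δ : ℝ, 0 < δ → ∃ K₀ : ℝ, 2 ≤ K₀ ∧ ∀ K : ℝ, K₀ ≤ K → ∀ ε : ℝ, 0 < ε →
      ∃ N₀ : ℕ, ∀ N : ℕ, N₀ ≤ N → ∀ k : ℕ, (k:ℝ) ^ (1/2 + ε) ≤ N →
        (Real.exp (-(C * K^4 * (Real.log K)^3)) * N ≤ (((Finset.Ico k (k + N)).filter (fun n : ℕ =>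
            K * (a * n^2 + b * n + c) ^ (1/4:ℝ) < Cx (a * n^2 + b * n + c))).card : ℝ) ∧
         (((Finset.Ico k (k + N)).filter (fun n : ℕ =>
            K * (a * n^2 + b * n + c) ^ (1/4:ℝ) < Cx (a * n^2 + b * n + c))).card : ℝ) ≤ Real.exp (-(K ^ (4 - δ))) * N) ∧
        (Real.exp (-(C * K^4 * (Real.log K)^3)) * N ≤ (((Finset.Ico k (k + N)).filter (fun n : ℕ =>
            Cx (a * n^2 + b * n + c) < -(K * (a * n^2 + b * n + c) ^ (1/4:ℝ)))).card : ℝ) ∧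
         (((Finset.Ico k (k + N)).filter (fun n : ℕ =>
            Cx (a * n^2 + b * n + c) < -(K * (a * n^2 + b * n + c) ^ (1/4:ℝ)))).card : ℝ) ≤ Real.exp (-(K ^ (4 - δ))) * N) := by
  have hsa : 0 < √a := Real.sqrt_pos.mpr ha
  have hAp := quad_Ap ha (fun n => (hP n).le)
  obtain ⟨μ, hμ2, hμ⟩ := hAp.b2.limit
  have hμL : Law2 (fun n : ℕ => En √(a * n^2 + b * n + c)) μ := hμ
  obtain ⟨g, hg1, hg2, hg3, hg4⟩ := ent hAp hμL Win.ag_Bdw ag_LB (by positivity)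
  have hna := no_atoms hg3
  have hW : ∀ ε : ℝ, 0 < ε → Win.ApW (Win.Adw ε) ag (3 * Real.pi/4) (fun n : ℕ => En √(a * n^2 + b * n + c)) (√a) (b / (2 * √a)) :=
    fun ε hε => Win.circ_ApW ha (fun n => (hP n).le) hε
  obtain ⟨C, hC, h⟩ := lv hAp hW hμL Win.ag_Bdw ag_zero ag_LB (by positivity) hna
  refine ⟨C, hC, ?_⟩
  intro δ hδ
  obtain ⟨K0, hK0, h⟩ := h δ hδ
  refine ⟨K0, hK0, ?_⟩
  intro K hK ε hε
  obtain ⟨N0, h⟩ := h K hK ε hε
  refine ⟨N0, ?_⟩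
  intro N hN k hk
  have h1 := h N hN k hk
  have e1 : ((Finset.range N).filter (fun n => K < En √(a * ((k + n : ℕ):ℝ)^2 + b * ((k + n : ℕ):ℝ) + c))).card =
      ((Finset.Ico k (k + N)).filter (fun n : ℕ =>
            K * (a * n^2 + b * n + c) ^ (1/4:ℝ) < Cx (a * n^2 + b * n + c))).card := by
    rw [card_Ico (fun n => K < En √(a * n^2 + b * n + c))]
    congr 1
    apply Finset.filter_congr
    intro n _
    have hx := hP n
    have hs : 0 < (a * n^2 + b * n + c) ^ (1/4:ℝ) := by positivity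
    rw [En_quad hx.le, lt_div_iff₀ hs]
  have e2 : ((Finset.range N).filter (fun n => En √(a * ((k + n : ℕ):ℝ)^2 + b * ((k + n : ℕ):ℝ) + c) < -K)).card =
      ((Finset.Ico k (k + N)).filter (fun n : ℕ =>
            Cx (a * n^2 + b * n + c) < -(K * (a * n^2 + b * n + c) ^ (1/4:ℝ)))).card := by
    rw [card_Ico (fun n => En √(a * n^2 + b * n + c) < -K)]
    congr 1
    apply Finset.filter_congr
    intro n _
    have hx := hP n
    have hs : 0 < (a * n^2 + b * n + c) ^ (1/4:ℝ) := by positivity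
    rw [En_quad hx.le, div_lt_iff₀ hs, neg_mul]
  rw [e1, e2] at h1
  exact h1

open Classical in
/-- the old theorem: lower density at least 5/6 -/
theorem radii : ∃ N₀ : ℕ, ∀ N : ℕ, N₀ ≤ N →
    (5 / 6 : ℝ) * N ≤ (((Finset.Icc 1 N).filter (fun n : ℕ => Cx ((n:ℝ)^2) < 0)).card : ℝ) := by
  have hS := Pool.Agent.H383.Gauss.SS_tendsto
  have hS1 := Pool.Agent.H383.Gauss.Sinf_lower
  set S := Pool.Agent.H383.Gauss.Sinf with hSd
  have hS0 : 0 < S := by linarith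
  have hθ : (3677/100 : ℝ) / (S^2 + 3677/100) < 1/6 := by
    rw [div_lt_div_iff₀ (by positivity) (by norm_num)]
    nlinarith
  obtain ⟨N0, hN0⟩ := Pool.Agent.H383.Gauss.density hS hS0 (by norm_num : (0:ℝ) < 3677/100)
    (by
      filter_upwards [eventually_ge_atTop 15] with M hM
      exact Pool.Agent.H383.Gauss.TT_le hM) hθ
  refine ⟨N0, ?_⟩
  intro N hN
  have h1 := hN0 N hN
  have hsplit : ((Finset.range N).filter (fun n : ℕ => 0 ≤ Pool.Agent.H383.Gauss.En (1 + n * 1))).card +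
      ((Finset.range N).filter (fun n : ℕ => ¬ 0 ≤ Pool.Agent.H383.Gauss.En (1 + n * 1))).card = N := by
    rw [Finset.card_filter_add_card_filter_not, Finset.card_range]
  have hcard : ((Finset.range N).filter (fun n : ℕ => ¬ 0 ≤ Pool.Agent.H383.Gauss.En (1 + n * 1))).card =
      ((Finset.Icc 1 N).filter (fun n : ℕ => Cx ((n:ℝ)^2) < 0)).card := by
    rw [show Finset.Icc 1 N = Finset.Ioc 0 (0 + N) from by ext x; simp; omega]
    rw [← card_Ioc]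
    congr 1
    apply Finset.filter_congr
    intro n _
    have e : (1:ℝ) + n * 1 = √(((0 + n + 1 : ℕ) : ℝ)^2) := by
      rw [Real.sqrt_sq (by positivity)]; push_cast; ring
    have hx : 0 < ((0 + n + 1 : ℕ) : ℝ)^2 := by positivity
    have hs : 0 < (((0 + n + 1 : ℕ) : ℝ)^2) ^ (1/4:ℝ) := by positivity
    rw [e, En_quad hx.le, not_le, div_lt_iff₀ hs, zero_mul]
  rw [← hcard]
  have h2 : (((Finset.range N).filter (fun n : ℕ => 0 ≤ Pool.Agent.H383.Gauss.En (1 + n * 1))).card : ℝ) +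
      (((Finset.range N).filter (fun n : ℕ => ¬ 0 ≤ Pool.Agent.H383.Gauss.En (1 + n * 1))).card : ℝ) = N := by
    exact_mod_cast hsplit
  linarith

open Classical in
theorem radii2 : ∃ d : ℝ, 5 / 6 ≤ d ∧ d < 1 ∧ ∀ ε : ℝ, 0 < ε → ∀ η : ℝ, 0 < η →
    ∃ N₀ : ℕ, ∀ N : ℕ, N₀ ≤ N → ∀ k : ℕ, (k:ℝ) ^ (1/2 + ε) ≤ N →
      |(((Finset.Ioc k (k + N)).filter (fun n : ℕ => Cx ((n:ℝ)^2) < 0)).card : ℝ) / N - d| ≤ η := by
  have hP : ∀ n : ℕ, 0 < (1:ℝ) * n^2 + 2 * n + 1 := fun n => by positivity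
  have ha : (0:ℝ) < 1 := one_pos
  have hAp := quad_Ap ha (fun n => (hP n).le)
  obtain ⟨μ, hμ2, hμ⟩ := hAp.b2.limit
  have hμL : Law2 (fun n : ℕ => En √((1:ℝ) * n^2 + 2 * n + 1)) μ := hμ
  obtain ⟨g, hg1, hg2, hg3, hg4⟩ := ent hAp hμL Win.ag_Bdw ag_LB (by positivity)
  have hna := no_atoms hg3
  have hW : ∀ ε : ℝ, 0 < ε → Win.ApW (Win.Adw ε) ag (3 * Real.pi/4) (fun n : ℕ => En √((1:ℝ) * n^2 + 2 * n + 1)) (√1) (2 / (2 * √1)) :=
    fun ε hε => Win.circ_ApW ha (fun n => (hP n).le) hε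
  have key : ∀ n : ℕ, (En √((1:ℝ) * n^2 + 2 * n + 1) < 0) ↔ Cx ((((n + 1 : ℕ)) : ℝ) ^ 2) < 0 := by
    intro n
    have e1 : (1:ℝ) * n^2 + 2 * n + 1 = (((n + 1 : ℕ)) : ℝ)^2 := by push_cast; ring
    rw [En_quad (hP n).le, e1]
    have hs : 0 < ((((n + 1 : ℕ)) : ℝ)^2) ^ (1/4:ℝ) := by positivity
    rw [div_lt_iff₀ hs, zero_mul]
  have hcd : ∀ k N : ℕ, ((Finset.range N).filter (fun n => En √((1:ℝ) * ((k + n : ℕ):ℝ)^2 + 2 * ((k + n : ℕ):ℝ) + 1) < 0)).card =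
      ((Finset.Ioc k (k + N)).filter (fun n : ℕ => Cx ((n:ℝ)^2) < 0)).card := by
    intro k N
    rw [← card_Ioc]
    congr 1
    apply Finset.filter_congr
    intro n _
    exact key (k + n)
  refine ⟨(μ : Measure ℝ).real (Set.Iic 0), ?_, ?_, ?_⟩
  · apply le_of_forall_pos_le_add
    intro η hη
    obtain ⟨N1, hN1⟩ := radii
    obtain ⟨N2, hN2⟩ := wcdf (hW 1 one_pos).wb (Win.Adw_zero one_pos) hμL hna η hη
    set N := max 1 (max N1 N2) with hN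
    have hN0 : (0:ℝ) < N := by
      have : 1 ≤ N := le_max_left _ _
      exact_mod_cast this
    have h1 := hN1 N (by omega)
    have h2 := (hN2 N (by omega) 0 (Win.Adw_zero one_pos N) 0).2
    rw [hcd] at h2
    rw [show Finset.Icc 1 N = Finset.Ioc 0 (0 + N) from by ext x; simp; omega] at h1
    have h5 : (5/6:ℝ) ≤ (((Finset.Ioc 0 (0 + N)).filter (fun n : ℕ => Cx ((n:ℝ)^2) < 0)).card : ℝ) / N := by
      rw [le_div_iff₀ hN0]; exact h1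
    have h7 := (abs_le.mp h2).2
    linarith
  · have h1 := hg4 0 1 (by norm_num)
    have h2 : 0 < (μ : Measure ℝ).real (Set.Ioo 0 1) := by
      rw [measureReal_def]
      exact ENNReal.toReal_pos h1.ne' (measure_ne_top _ _)
    have h3 : (μ : Measure ℝ).real (Set.Iic 0) + (μ : Measure ℝ).real (Set.Ioo 0 1) ≤ 1 := by
      rw [← measureReal_union (by
        rw [Set.disjoint_left]
        intro x hx hx'
        exact absurd hx (not_le.mpr hx'.1)) measurableSet_Ioo]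
      exact measureReal_le_one
    linarith
  · intro ε hε η hη
    obtain ⟨N0, hN0⟩ := wcdf (hW ε hε).wb (Win.Adw_zero hε) hμL hna η hη
    refine ⟨N0, fun N hN k hk => ?_⟩
    have h2 := (hN0 N hN k hk 0).2
    rw [hcd] at h2
    exact h2

end Pool.Agent.H383.Circ
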