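import Mathlib
import Pool.Agent.H383.FullC
import Pool.Agent.H452R2.Win.F4

open MeasureTheory Filter Topology
open Pool.Agent.H387R2.Vor
open Pool.Agent.H383.Gen
open Pool.Agent.H383.AP
open Pool.Agent.H452R2

namespace Pool.Agent.H383.Div

lemma lim_unique {u : ℕ → ℝ} {L L' : ℝ} (h1 : ∀ η : ℝ, 0 < η → ∃ N0 : ℕ, ∀ N : ℕ, N0 ≤ N → |u N - L| ≤ η)
    (h2 : ∀ η : ℝ, 0 < η → ∃ N0 : ℕ, ∀ N : ℕ, N0 ≤ N → |u N - L'| ≤ η) : L = L' := by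
  by_contra hne
  have hpos : 0 < |L - L'| := abs_pos.mpr (sub_ne_zero.mpr hne)
  obtain ⟨N1, h1⟩ := h1 (|L - L'|/4) (by positivity)
  obtain ⟨N2, h2⟩ := h2 (|L - L'|/4) (by positivity)
  have a1 := h1 (max N1 N2) (le_max_left _ _)
  have a2 := h2 (max N1 N2) (le_max_right _ _)
  rw [abs_sub_comm] at a1
  have a3 : |L - L'| ≤ |L - u (max N1 N2)| + |u (max N1 N2) - L'| := abs_sub_le _ _ _
  linarith

open Classical in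
theorem distr3 (hV : VorStmt) {a b c : ℝ} (ha : 0 < a) (hP : ∀ n : ℕ, 0 < a * n^2 + b * n + c) :
    ∃ (μ : ProbabilityMeasure ℝ) (g : ℂ → ℂ),
      Differentiable ℂ g ∧ (∀ x : ℝ, 0 ≤ (g x).re ∧ (g x).im = 0) ∧
      (μ : Measure ℝ) = volume.withDensity (fun x : ℝ => ENNReal.ofReal (g x).re) ∧
      (∀ u v : ℝ, u < v → 0 < (μ : Measure ℝ) (Set.Ioo u v)) ∧
      Integrable (fun x : ℝ => x ^ 2) (μ : Measure ℝ) ∧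
      (∀ f : ℝ → ℝ, Continuous f → (∃ C : ℝ, ∀ x : ℝ, |f x| ≤ C * (1 + x ^ 2)) →
        ∀ ε : ℝ, 0 < ε → ∀ η : ℝ, 0 < η → ∃ N₀ : ℕ, ∀ N : ℕ, N₀ ≤ N → ∀ k : ℕ, (k:ℝ) ^ (1/2 + ε) ≤ N →
        |(∑ n ∈ Finset.Ico k (k + N),
            f (Dx (a * n^2 + b * n + c) / (a * n^2 + b * n + c) ^ (1/4:ℝ))) / N -
          ∫ x, f x ∂(μ : Measure ℝ)| ≤ η) ∧
      (∀ ε : ℝ, 0 < ε → ∀ η : ℝ, 0 < η → ∃ N₀ : ℕ, ∀ N : ℕ, N₀ ≤ N → ∀ k : ℕ, (k:ℝ) ^ (1/2 + ε) ≤ N → ∀ x : ℝ,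
        |(((Finset.Ico k (k + N)).filter (fun n : ℕ =>
            Dx (a * n^2 + b * n + c) / (a * n^2 + b * n + c) ^ (1/4:ℝ) ≤ x)).card : ℝ) / N -
          (μ : Measure ℝ).real (Set.Iic x)| ≤ η) ∧
      (∀ ε : ℝ, 0 < ε → ∀ η : ℝ, 0 < η → ∃ N₀ : ℕ, ∀ N : ℕ, N₀ ≤ N → ∀ k : ℕ, (k:ℝ) ^ (1/4 + ε) ≤ N →
        |(∑ n ∈ Finset.Ico k (k + N), Dx (a * n^2 + b * n + c) / (a * n^2 + b * n + c) ^ (1/4:ℝ)) / N -
          ∫ x, x ∂(μ : Measure ℝ)| ≤ η) ∧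
      Summable (fun m : ℕ => if 1 ≤ m ∧ ∃ k : ℤ, 2 * √(a * m) = k then
          (m.divisors.card : ℝ) / (Real.pi * √2)
            * (m : ℝ) ^ (-(3 / 4) : ℝ) * Real.cos (2 * Real.pi * b * √(m / a) - Real.pi / 4)
        else 0) ∧
      ∫ x, x ∂(μ : Measure ℝ) = ∑' m : ℕ,
        if 1 ≤ m ∧ ∃ k : ℤ, 2 * √(a * m) = k then
          (m.divisors.card : ℝ) / (Real.pi * √2)
            * (m : ℝ) ^ (-(3 / 4) : ℝ) * Real.cos (2 * Real.pi * b * √(m / a) - Real.pi / 4)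
        else 0 := by
  obtain ⟨μ, g, h1, h2, h3, h4, h5, h6, h7, h8, h9⟩ := distr2 hV ha hP
  refine ⟨μ, g, h1, h2, h3, h4, h5, h6, h7, ?_, h8, h9⟩
  have hsa : 0 < √a := Real.sqrt_pos.mpr ha
  have heq : ∀ n : ℕ, Ed √(a * n^2 + b * n + c) = Dx (a * n^2 + b * n + c) / (a * n^2 + b * n + c) ^ (1/4:ℝ) :=
    fun n => Ed_quad (hP n).le
  have hum : ∀ ε : ℝ, 0 < ε → ∀ η : ℝ, 0 < η → ∃ N0 : ℕ, ∀ N : ℕ, N0 ≤ N → ∀ k : ℕ, (k:ℝ) ^ (1/4 + ε) ≤ N →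
      |(∑ n ∈ Finset.Ico k (k + N), Dx (a * n^2 + b * n + c) / (a * n^2 + b * n + c) ^ (1/4:ℝ)) / N -
        ∑' m, Gen.rt ad (Real.pi/4) (2 * √a) (b / √a) m| ≤ η := by
    intro ε hε η hη
    obtain ⟨N0, h⟩ := (Win.div_ApF hV ha (fun n => (hP n).le) hε).umean ad_Bd ad_zero (by positivity) hη
    refine ⟨N0, fun N hN k hk => ?_⟩
    have h := h N hN k hk
    rw [rm_Ico (fun n => Ed √(a * n^2 + b * n + c))] at h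
    simp only [heq] at h
    exact h
  have hL : ∫ x, x ∂(μ : Measure ℝ) = ∑' m, Gen.rt ad (Real.pi/4) (2 * √a) (b / √a) m := by
    have hq : ∃ C : ℝ, ∀ x : ℝ, |x| ≤ C * (1 + x ^ 2) := ⟨1, fun x => by
      rw [one_mul]
      have := sq_nonneg (|x| - 1)
      rw [← sq_abs x]
      nlinarith [abs_nonneg x]⟩
    apply lim_unique (u := fun N : ℕ => (∑ n ∈ Finset.Ico 0 (0 + N), Dx (a * n^2 + b * n + c) / (a * n^2 + b * n + c) ^ (1/4:ℝ)) / N)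
    · intro η hη
      obtain ⟨N0, h⟩ := h6 (fun x => x) continuous_id hq 1 one_pos η hη
      refine ⟨N0, fun N hN => h N hN 0 (Win.Adw_zero one_pos N)⟩
    · intro η hη
      obtain ⟨N0, h⟩ := hum 1 one_pos η hη
      refine ⟨N0, fun N hN => h N hN 0 ?_⟩
      rw [Nat.cast_zero, Real.zero_rpow (by norm_num)]; exact Nat.cast_nonneg N
  rw [hL]
  exact hum

open Classical in
theorem large3 (hV : VorStmt) {a b c : ℝ} (ha : 0 < a) (hP : ∀ n : ℕ, 0 < a * n^2 + b * n + c) :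
    ∃ C : ℝ, 0 < C ∧ ∀ δ : ℝ, 0 < δ → ∃ K₀ : ℝ, 2 ≤ K₀ ∧ ∀ K : ℝ, K₀ ≤ K → ∀ ε : ℝ, 0 < ε →
      ∃ N₀ : ℕ, ∀ N : ℕ, N₀ ≤ N → ∀ k : ℕ,
        ((k:ℝ) ^ (1/4 + ε) ≤ N →
          (∃ n ∈ Finset.Ico k (k + N), K * (a * n^2 + b * n + c) ^ (1/4:ℝ) < Dx (a * n^2 + b * n + c)) ∧
          (∃ n ∈ Finset.Ico k (k + N), Dx (a * n^2 + b * n + c) < -(K * (a * n^2 + b * n + c) ^ (1/4:ℝ)))) ∧
        ((k:ℝ) ^ (1/2 + ε) ≤ N →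
        (Real.exp (-(C * K^4 * (Real.log K)^3)) * N ≤ (((Finset.Ico k (k + N)).filter (fun n : ℕ =>
            K * (a * n^2 + b * n + c) ^ (1/4:ℝ) < Dx (a * n^2 + b * n + c))).card : ℝ) ∧
         (((Finset.Ico k (k + N)).filter (fun n : ℕ =>
            K * (a * n^2 + b * n + c) ^ (1/4:ℝ) < Dx (a * n^2 + b * n + c))).card : ℝ) ≤ Real.exp (-(K ^ (4 - δ))) * N) ∧
        (Real.exp (-(C * K^4 * (Real.log K)^3)) * N ≤ (((Finset.Ico k (k + N)).filter (fun n : ℕ =>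
            Dx (a * n^2 + b * n + c) < -(K * (a * n^2 + b * n + c) ^ (1/4:ℝ)))).card : ℝ) ∧
         (((Finset.Ico k (k + N)).filter (fun n : ℕ =>
            Dx (a * n^2 + b * n + c) < -(K * (a * n^2 + b * n + c) ^ (1/4:ℝ)))).card : ℝ) ≤ Real.exp (-(K ^ (4 - δ))) * N)) := by
  obtain ⟨C, hC, h⟩ := large2 hV ha hP
  refine ⟨C, hC, ?_⟩
  intro δ hδ
  obtain ⟨K0, hK0, h⟩ := h δ hδ
  refine ⟨K0, hK0, ?_⟩
  intro K hK ε hε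
  obtain ⟨N0, h⟩ := h K hK ε hε
  have hsa : 0 < √a := Real.sqrt_pos.mpr ha
  have hF := Win.div_ApF hV ha (fun n => (hP n).le) hε
  have hK00 : 0 ≤ K := by linarith
  obtain ⟨N1, h1⟩ := hF.both ad_Bd ad_zero ad_Dv (by positivity) 1 (Or.inl rfl) hK00
  obtain ⟨N2, h2⟩ := hF.both ad_Bd ad_zero ad_Dv (by positivity) (-1) (Or.inr rfl) hK00
  refine ⟨max N0 (max N1 N2), ?_⟩
  intro N hN k
  refine ⟨fun hk => ⟨?_, ?_⟩, fun hk => h N (by omega) k hk⟩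
  · obtain ⟨n, hn, hn2⟩ := h1 N (by omega) k hk
    refine ⟨k + n, Finset.mem_Ico.mpr ⟨by omega, by omega⟩, ?_⟩
    have hx := hP (k + n)
    have hs : 0 < (a * ((k + n : ℕ):ℝ)^2 + b * ((k + n : ℕ):ℝ) + c) ^ (1/4:ℝ) := by positivity
    rw [one_mul, Ed_quad hx.le, lt_div_iff₀ hs] at hn2
    exact hn2
  · obtain ⟨n, hn, hn2⟩ := h2 N (by omega) k hk
    refine ⟨k + n, Finset.mem_Ico.mpr ⟨by omega, by omega⟩, ?_⟩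
    have hx := hP (k + n)
    have hs : 0 < (a * ((k + n : ℕ):ℝ)^2 + b * ((k + n : ℕ):ℝ) + c) ^ (1/4:ℝ) := by positivity
    have hn3 : Ed √(a * ((k + n : ℕ):ℝ)^2 + b * ((k + n : ℕ):ℝ) + c) < -K := by linarith
    rw [Ed_quad hx.le, div_lt_iff₀ hs, neg_mul] at hn3
    exact hn3

end Pool.Agent.H383.Div

namespace Pool.Agent.H383.Circ

open Pool.Agent.H383.Gauss
open Pool.Agent.H383.Div (rm_Ico card_Ico card_Ioc lim_unique)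

open Classical in
theorem distr3 {a b c : ℝ} (ha : 0 < a) (hP : ∀ n : ℕ, 0 < a * n^2 + b * n + c) :
    ∃ (μ : ProbabilityMeasure ℝ) (g : ℂ → ℂ),
      Differentiable ℂ g ∧ (∀ x : ℝ, 0 ≤ (g x).re ∧ (g x).im = 0) ∧
      (μ : Measure ℝ) = volume.withDensity (fun x : ℝ => ENNReal.ofReal (g x).re) ∧
      (∀ u v : ℝ, u < v → 0 < (μ : Measure ℝ) (Set.Ioo u v)) ∧
      Integrable (fun x : ℝ => x ^ 2) (μ : Measure ℝ) ∧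
      (∀ f : ℝ → ℝ, Continuous f → (∃ C : ℝ, ∀ x : ℝ, |f x| ≤ C * (1 + x ^ 2)) →
        ∀ ε : ℝ, 0 < ε → ∀ η : ℝ, 0 < η → ∃ N₀ : ℕ, ∀ N : ℕ, N₀ ≤ N → ∀ k : ℕ, (k:ℝ) ^ (1/2 + ε) ≤ N →
        |(∑ n ∈ Finset.Ico k (k + N),
            f (Cx (a * n^2 + b * n + c) / (a * n^2 + b * n + c) ^ (1/4:ℝ))) / N -
          ∫ x, f x ∂(μ : Measure ℝ)| ≤ η) ∧
      (∀ ε : ℝ, 0 < ε → ∀ η : ℝ, 0 < η → ∃ N₀ : ℕ, ∀ N : ℕ, N₀ ≤ N → ∀ k : ℕ, (k:ℝ) ^ (1/2 + ε) ≤ N → ∀ x : ℝ,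
        |(((Finset.Ico k (k + N)).filter (fun n : ℕ =>
            Cx (a * n^2 + b * n + c) / (a * n^2 + b * n + c) ^ (1/4:ℝ) ≤ x)).card : ℝ) / N -
          (μ : Measure ℝ).real (Set.Iic x)| ≤ η) ∧
      (∀ ε : ℝ, 0 < ε → ∀ η : ℝ, 0 < η → ∃ N₀ : ℕ, ∀ N : ℕ, N₀ ≤ N → ∀ k : ℕ, (k:ℝ) ^ (1/4 + ε) ≤ N →
        |(∑ n ∈ Finset.Ico k (k + N), Cx (a * n^2 + b * n + c) / (a * n^2 + b * n + c) ^ (1/4:ℝ)) / N -
          ∫ x, x ∂(μ : Measure ℝ)| ≤ η) ∧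
      Summable (fun m : ℕ => if 1 ≤ m ∧ ∃ k : ℤ, √(a * m) = k then
          (Nat.card {p : ℤ × ℤ // p.1 ^ 2 + p.2 ^ 2 = (m : ℤ)} : ℝ) / Real.pi
            * (m : ℝ) ^ (-(3 / 4) : ℝ) * Real.cos (Real.pi * b * √(m / a) - 3 * Real.pi / 4)
        else 0) ∧
      ∫ x, x ∂(μ : Measure ℝ) = ∑' m : ℕ,
        if 1 ≤ m ∧ ∃ k : ℤ, √(a * m) = k then
          (Nat.card {p : ℤ × ℤ // p.1 ^ 2 + p.2 ^ 2 = (m : ℤ)} : ℝ) / Real.pi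
            * (m : ℝ) ^ (-(3 / 4) : ℝ) * Real.cos (Real.pi * b * √(m / a) - 3 * Real.pi / 4)
        else 0 := by
  obtain ⟨μ, g, h1, h2, h3, h4, h5, h6, h7, h8, h9⟩ := distr2 ha hP
  refine ⟨μ, g, h1, h2, h3, h4, h5, h6, h7, ?_, h8, h9⟩
  have hsa : 0 < √a := Real.sqrt_pos.mpr ha
  have heq : ∀ n : ℕ, En √(a * n^2 + b * n + c) = Cx (a * n^2 + b * n + c) / (a * n^2 + b * n + c) ^ (1/4:ℝ) :=
    fun n => En_quad (hP n).le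
  have hum : ∀ ε : ℝ, 0 < ε → ∀ η : ℝ, 0 < η → ∃ N0 : ℕ, ∀ N : ℕ, N0 ≤ N → ∀ k : ℕ, (k:ℝ) ^ (1/4 + ε) ≤ N →
      |(∑ n ∈ Finset.Ico k (k + N), Cx (a * n^2 + b * n + c) / (a * n^2 + b * n + c) ^ (1/4:ℝ)) / N -
        ∑' m, Gen.rt ag (3 * Real.pi/4) (√a) (b / (2 * √a)) m| ≤ η := by
    intro ε hε η hη
    obtain ⟨N0, h⟩ := (Win.circ_ApF ha (fun n => (hP n).le) hε).umean ag_Bd ag_zero (by positivity) hη
    refine ⟨N0, fun N hN k hk => ?_⟩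
    have h := h N hN k hk
    rw [rm_Ico (fun n => En √(a * n^2 + b * n + c))] at h
    simp only [heq] at h
    exact h
  have hL : ∫ x, x ∂(μ : Measure ℝ) = ∑' m, Gen.rt ag (3 * Real.pi/4) (√a) (b / (2 * √a)) m := by
    have hq : ∃ C : ℝ, ∀ x : ℝ, |x| ≤ C * (1 + x ^ 2) := ⟨1, fun x => by
      rw [one_mul]
      have := sq_nonneg (|x| - 1)
      rw [← sq_abs x]
      nlinarith [abs_nonneg x]⟩
    apply lim_unique (u := fun N : ℕ => (∑ n ∈ Finset.Ico 0 (0 + N), Cx (a * n^2 + b * n + c) / (a * n^2 + b * n + c) ^ (1/4:ℝ)) / N)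
    · intro η hη
      obtain ⟨N0, h⟩ := h6 (fun x => x) continuous_id hq 1 one_pos η hη
      refine ⟨N0, fun N hN => h N hN 0 (Win.Adw_zero one_pos N)⟩
    · intro η hη
      obtain ⟨N0, h⟩ := hum 1 one_pos η hη
      refine ⟨N0, fun N hN => h N hN 0 ?_⟩
      rw [Nat.cast_zero, Real.zero_rpow (by norm_num)]; exact Nat.cast_nonneg N
  rw [hL]
  exact hum

open Classical in
theorem large3 {a b c : ℝ} (ha : 0 < a) (hP : ∀ n : ℕ, 0 < a * n^2 + b * n + c) :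
    ∃ C : ℝ, 0 < C ∧ ∀ δ : ℝ, 0 < δ → ∃ K₀ : ℝ, 2 ≤ K₀ ∧ ∀ K : ℝ, K₀ ≤ K → ∀ ε : ℝ, 0 < ε →
      ∃ N₀ : ℕ, ∀ N : ℕ, N₀ ≤ N → ∀ k : ℕ,
        ((k:ℝ) ^ (1/4 + ε) ≤ N →
          (∃ n ∈ Finset.Ico k (k + N), K * (a * n^2 + b * n + c) ^ (1/4:ℝ) < Cx (a * n^2 + b * n + c)) ∧
          (∃ n ∈ Finset.Ico k (k + N), Cx (a * n^2 + b * n + c) < -(K * (a * n^2 + b * n + c) ^ (1/4:ℝ)))) ∧
        ((k:ℝ) ^ (1/2 + ε) ≤ N →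
        (Real.exp (-(C * K^4 * (Real.log K)^3)) * N ≤ (((Finset.Ico k (k + N)).filter (fun n : ℕ =>
            K * (a * n^2 + b * n + c) ^ (1/4:ℝ) < Cx (a * n^2 + b * n + c))).card : ℝ) ∧
         (((Finset.Ico k (k + N)).filter (fun n : ℕ =>
            K * (a * n^2 + b * n + c) ^ (1/4:ℝ) < Cx (a * n^2 + b * n + c))).card : ℝ) ≤ Real.exp (-(K ^ (4 - δ))) * N) ∧
        (Real.exp (-(C * K^4 * (Real.log K)^3)) * N ≤ (((Finset.Ico k (k + N)).filter (fun n : ℕ =>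
            Cx (a * n^2 + b * n + c) < -(K * (a * n^2 + b * n + c) ^ (1/4:ℝ)))).card : ℝ) ∧
         (((Finset.Ico k (k + N)).filter (fun n : ℕ =>
            Cx (a * n^2 + b * n + c) < -(K * (a * n^2 + b * n + c) ^ (1/4:ℝ)))).card : ℝ) ≤ Real.exp (-(K ^ (4 - δ))) * N)) := by
  obtain ⟨C, hC, h⟩ := large2 ha hP
  refine ⟨C, hC, ?_⟩
  intro δ hδ
  obtain ⟨K0, hK0, h⟩ := h δ hδ
  refine ⟨K0, hK0, ?_⟩
  intro K hK ε hε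
  obtain ⟨N0, h⟩ := h K hK ε hε
  have hsa : 0 < √a := Real.sqrt_pos.mpr ha
  have hF := Win.circ_ApF ha (fun n => (hP n).le) hε
  have hK00 : 0 ≤ K := by linarith
  obtain ⟨N1, h1⟩ := hF.both ag_Bd ag_zero ag_Dv (by positivity) 1 (Or.inl rfl) hK00
  obtain ⟨N2, h2⟩ := hF.both ag_Bd ag_zero ag_Dv (by positivity) (-1) (Or.inr rfl) hK00
  refine ⟨max N0 (max N1 N2), ?_⟩
  intro N hN k
  refine ⟨fun hk => ⟨?_, ?_⟩, fun hk => h N (by omega) k hk⟩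
  · obtain ⟨n, hn, hn2⟩ := h1 N (by omega) k hk
    refine ⟨k + n, Finset.mem_Ico.mpr ⟨by omega, by omega⟩, ?_⟩
    have hx := hP (k + n)
    have hs : 0 < (a * ((k + n : ℕ):ℝ)^2 + b * ((k + n : ℕ):ℝ) + c) ^ (1/4:ℝ) := by positivity
    rw [one_mul, En_quad hx.le, lt_div_iff₀ hs] at hn2
    exact hn2
  · obtain ⟨n, hn, hn2⟩ := h2 N (by omega) k hk
    refine ⟨k + n, Finset.mem_Ico.mpr ⟨by omega, by omega⟩, ?_⟩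
    have hx := hP (k + n)
    have hs : 0 < (a * ((k + n : ℕ):ℝ)^2 + b * ((k + n : ℕ):ℝ) + c) ^ (1/4:ℝ) := by positivity
    have hn3 : En √(a * ((k + n : ℕ):ℝ)^2 + b * ((k + n : ℕ):ℝ) + c) < -K := by linarith
    rw [En_quad hx.le, div_lt_iff₀ hs, neg_mul] at hn3
    exact hn3

end Pool.Agent.H383.Circ
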